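import Pool.Agent.Work.MP_a6ae3a_lc.Bits1

/-!
# Cardinality of coded sets

`cdb c n`: the number of elements below `n` of the set with code `c`. `card c`: the number of
elements of the set with code `c`.
-/

namespace Pool.Agent.PD2

variable {M : Type} [PAM M] {X : M → Prop}

/-- Case distinction. -/
instance f1_ite {f g : (ℕ → M) → M} {R : (ℕ → M) → Prop} {_ : ∀ v, Decidable (R v)} [hR : D1 X R]
    [hf : F1 X f] [hg : F1 X g] : F1 X (fun v => if R v then f v else g v) := by
  have h1 : D1 X (fun v => R (fun i => v (i + 1))) :=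
    D1.sub hR (g := fun i v => v (i + 1)) (fun i => vr_var _)
  have hf' := F1.tail hf
  have hg' := F1.tail hg
  refine ⟨S1.congr (S1.or
    (S1.and h1.s (d1_eq (f := fun v => v 0) (g := fun v => f (fun i => v (i + 1)))).s)
    (S1.and h1.p (d1_eq (f := fun v => v 0) (g := fun v => g (fun i => v (i + 1)))).s))
    fun v => ?_⟩
  by_cases h : R (fun i => v (i + 1)) <;> simp [h]

variable [IM M]

theorem Card.cmp (X : M → Prop) [I1 X] {P : M → Prop} (hP : D1 X (fun v => P (v 0))) (n : M) :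
    ∃ c, ∀ x, Bt c x ↔ x < n ∧ P x := bt_compr_d X hP n

theorem cdb_exists : ∃ h : M → M → M, (∀ c, h c 0 = 0) ∧
    (∀ c n, (Bt c n → h c (n + 1) = h c n + 1) ∧ (¬ Bt c n → h c (n + 1) = h c n)) ∧
    F1 (eS M) (fun v => h (v 0) (v 1)) := by
  classical
  obtain ⟨h, h1, h2, h3⟩ := prim1_im (M := M) (g := fun _ => 0)
    (h := fun n y c => if Bt c n then y + 1 else y) inferInstance (by
      have : D1 (eS M) (fun v : ℕ → M => Bt (v 2) (v 0)) := inferInstance
      exact f1_ite (R := fun v : ℕ → M => Bt (v 2) (v 0)))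
  exact ⟨fun c n => h n c, h1, fun c n => ⟨fun hb => (h2 n c).trans (if_pos hb),
    fun hb => (h2 n c).trans (if_neg hb)⟩, F1.s2 (f := fun n c => h n c) (h3 _) inferInstance
      inferInstance⟩

/-- The number of elements below `n` of the set with code `c`. -/
noncomputable def cdb (c n : M) : M := Classical.choose cdb_exists c n

instance f1_cdb {f g : (ℕ → M) → M} [hf : F1 X f] [hg : F1 X g] :
    F1 X (fun v => cdb (f v) (g v)) :=
  F1.s2 (f := fun c n => cdb c n) (Classical.choose_spec cdb_exists).2.2.lift hf hg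

theorem cdb_zero (c : M) : cdb c 0 = 0 := (Classical.choose_spec cdb_exists).1 c

theorem cdb_in {c n : M} (h : Bt c n) : cdb c (n + 1) = cdb c n + 1 :=
  ((Classical.choose_spec cdb_exists).2.1 c n).1 h

theorem cdb_out {c n : M} (h : ¬ Bt c n) : cdb c (n + 1) = cdb c n :=
  ((Classical.choose_spec cdb_exists).2.1 c n).2 h

theorem cdb_cases (c n : M) : (Bt c n ∧ cdb c (n + 1) = cdb c n + 1) ∨
    (¬ Bt c n ∧ cdb c (n + 1) = cdb c n) := by
  by_cases h : Bt c n
  · exact Or.inl ⟨h, cdb_in h⟩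
  · exact Or.inr ⟨h, cdb_out h⟩

theorem cdb_le_succ (c n : M) : cdb c n ≤ cdb c (n + 1) := by
  rcases cdb_cases c n with ⟨_, h⟩ | ⟨_, h⟩
  · rw [h]; exact le_self_add
  · rw [h]

theorem cdb_le (c n : M) : cdb c n ≤ n := by
  refine ind_d (eS M) (P := fun n => cdb c n ≤ n) inferInstance ?_ (fun n ih => ?_) n
  · rw [cdb_zero]
  · rcases cdb_cases c n with ⟨_, h⟩ | ⟨_, h⟩
    · rw [h]; gcongr
    · rw [h]; exact le_trans ih le_self_add

theorem cdb_mono (c : M) {m n : M} (h : m ≤ n) : cdb c m ≤ cdb c n := by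
  obtain ⟨k, rfl⟩ := exists_add_of_le h
  refine ind_d (eS M) (P := fun k => cdb c m ≤ cdb c (m + k)) inferInstance ?_ (fun k ih => ?_) k
  · rw [add_zero]
  · rw [← add_assoc]
    exact le_trans ih (cdb_le_succ c _)

/-- Additivity below a bound. -/
theorem cdb_add {c d e n : M} (h : ∀ x, x < n → (Bt e x ↔ Bt c x ∨ Bt d x))
    (h' : ∀ x, x < n → Bt c x → ¬ Bt d x) : cdb e n = cdb c n + cdb d n := by
  have key : ∀ k : M, k ≤ n → cdb e k = cdb c k + cdb d k := by
    intro k
    refine ind_d (eS M) (P := fun k => k ≤ n → cdb e k = cdb c k + cdb d k) inferInstance ?_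
      (fun k ih hk => ?_) k
    · intro _
      rw [cdb_zero, cdb_zero, cdb_zero, add_zero]
    · have hkn : k < n := succ_le_iff.1 hk
      have ih' := ih hkn.le
      have h1 := h k hkn
      have h2 := h' k hkn
      rcases cdb_cases c k with ⟨hc, h3⟩ | ⟨hc, h3⟩
      · rw [cdb_in (h1.2 (Or.inl hc)), h3, cdb_out (h2 hc), ih']; ring
      · rcases cdb_cases d k with ⟨hd, h4⟩ | ⟨hd, h4⟩
        · rw [cdb_in (h1.2 (Or.inr hd)), h3, h4, ih']; ring
        · rw [cdb_out (fun h => (h1.1 h).elim hc hd), h3, h4, ih']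
  exact key n le_rfl

/-- Subadditivity below a bound. -/
theorem cdb_le_add {c d e n : M} (h : ∀ x, x < n → Bt e x → Bt c x ∨ Bt d x) :
    cdb e n ≤ cdb c n + cdb d n := by
  have key : ∀ k : M, k ≤ n → cdb e k ≤ cdb c k + cdb d k := by
    intro k
    refine ind_d (eS M) (P := fun k => k ≤ n → cdb e k ≤ cdb c k + cdb d k) inferInstance ?_
      (fun k ih hk => ?_) k
    · intro _
      rw [cdb_zero, cdb_zero, cdb_zero, add_zero]
    · have hkn : k < n := succ_le_iff.1 hk
      have ih' := ih hkn.le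
      rcases cdb_cases e k with ⟨he, h3⟩ | ⟨he, h3⟩
      · rw [h3]
        rcases h k hkn he with hc | hd
        · rw [cdb_in hc]
          calc cdb e k + 1 ≤ cdb c k + cdb d k + 1 := by gcongr
            _ = cdb c k + 1 + cdb d k := by ring
            _ ≤ cdb c k + 1 + cdb d (k + 1) := by gcongr; exact cdb_le_succ d k
        · rw [cdb_in hd]
          calc cdb e k + 1 ≤ cdb c k + cdb d k + 1 := by gcongr
            _ = cdb c k + (cdb d k + 1) := by ring
            _ ≤ cdb c (k + 1) + (cdb d k + 1) := by gcongr; exact cdb_le_succ c k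
      · rw [h3]
        exact le_trans ih' (add_le_add (cdb_le_succ c k) (cdb_le_succ d k))
  exact key n le_rfl

theorem cdb_bt_zero (n : M) : cdb 0 n = 0 := by
  refine ind_d (eS M) (P := fun n => cdb 0 n = 0) inferInstance (cdb_zero _) (fun n ih => ?_) n
  rw [cdb_out (not_bt_zero n), ih]

/-- Monotonicity in the set. -/
theorem cdb_sub {c d n : M} (h : ∀ x, x < n → Bt c x → Bt d x) : cdb c n ≤ cdb d n := by
  have := cdb_le_add (c := d) (d := 0) (e := c) (n := n) fun x hx hc => Or.inl (h x hx hc)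
  rwa [cdb_bt_zero, add_zero] at this

theorem cdb_congr {c d n : M} (h : ∀ x, x < n → (Bt c x ↔ Bt d x)) : cdb c n = cdb d n :=
  le_antisymm (cdb_sub fun x hx => (h x hx).1) (cdb_sub fun x hx => (h x hx).2)

theorem cdb_pos {c n x : M} (hx : x < n) (h : Bt c x) : 0 < cdb c n := by
  refine lt_of_lt_of_le ?_ (cdb_mono c (succ_le_iff.2 hx))
  rw [cdb_in h]
  exact lt_of_lt_of_le zero_lt_one le_add_self

theorem cdb_lt {c m n x : M} (hm : m ≤ x) (hx : x < n) (h : Bt c x) : cdb c m < cdb c n := by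
  refine lt_of_lt_of_le ?_ (cdb_mono c (succ_le_iff.2 hx))
  rw [cdb_in h]
  exact lt_of_le_of_lt (cdb_mono c hm) (lt_succ_self _)

/-- Strict monotonicity in the set. -/
theorem cdb_slt {c d n x : M} (h : ∀ x, x < n → Bt c x → Bt d x) (hx : x < n) (hd : Bt d x)
    (hc : ¬ Bt c x) : cdb c n < cdb d n := by
  obtain ⟨e, he⟩ := Card.cmp (eS M) (P := fun x => Bt d x ∧ ¬ Bt c x) inferInstance n
  have h1 := cdb_add (c := c) (d := e) (e := d) (n := n) (fun y hy => by
    rw [he]
    have := h y hy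
    tauto) (fun y _ h1 h2 => ((he y).1 h2).2.2 h1)
  rw [h1]
  exact lt_add_of_pos_right _ (cdb_pos hx ((he x).2 ⟨hx, hd, hc⟩))

theorem cdb_full {c n : M} (h : ∀ x, x < n → Bt c x) : cdb c n = n := by
  have key : ∀ k : M, k ≤ n → cdb c k = k := by
    intro k
    refine ind_d (eS M) (P := fun k => k ≤ n → cdb c k = k) inferInstance ?_
      (fun k ih hk => ?_) k
    · intro _
      rw [cdb_zero]
    · have hkn : k < n := succ_le_iff.1 hk
      rw [cdb_in (h k hkn), ih hkn.le]
  exact key n le_rfl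

/-- Above all elements the number is constant. -/
theorem cdb_ge {c m n : M} (h : ∀ x, Bt c x → x < m) (hmn : m ≤ n) : cdb c n = cdb c m := by
  obtain ⟨k, rfl⟩ := exists_add_of_le hmn
  refine ind_d (eS M) (P := fun k => cdb c (m + k) = cdb c m) inferInstance ?_ (fun k ih => ?_) k
  · rw [add_zero]
  · rw [← add_assoc, cdb_out, ih]
    intro hc
    exact absurd (h _ hc) (not_lt.2 le_self_add)

/-! ### The cardinality -/

/-- The number of elements of the set with code `c`. -/
noncomputable def card (c : M) : M := cdb c c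

instance f1_card {f : (ℕ → M) → M} [hf : F1 X f] : F1 X (fun v => card (f v)) := by
  unfold card
  infer_instance

theorem card_eq {c n : M} (h : ∀ x, Bt c x → x < n) : card c = cdb c n := by
  unfold card
  rcases le_total c n with h1 | h1
  · exact (cdb_ge (fun x => Bt.lt) h1).symm
  · exact cdb_ge h h1

theorem card_eq_tw {c n : M} (h : c < tw n) : card c = cdb c n := card_eq (lt_tw_iff.1 h)

theorem card_le_tw {c n : M} (h : c < tw n) : card c ≤ n := by
  rw [card_eq_tw h]
  exact cdb_le c n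

theorem card_le_self (c : M) : card c ≤ c := cdb_le c c

theorem card_zero : card (0 : M) = 0 := cdb_bt_zero 0

/-- Subadditivity. -/
theorem card_le_add {c d e : M} (h : ∀ x, Bt e x → Bt c x ∨ Bt d x) : card e ≤ card c + card d := by
  rw [card_eq (c := e) (n := e + c + d) (fun x hx => lt_of_lt_of_le (Bt.lt hx) (by
      rw [add_assoc]; exact le_self_add)),
    card_eq (c := c) (n := e + c + d) (fun x hx => lt_of_lt_of_le (Bt.lt hx) (by
      rw [add_comm e c, add_assoc]; exact le_self_add)),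
    card_eq (c := d) (n := e + c + d) (fun x hx => lt_of_lt_of_le (Bt.lt hx) le_add_self)]
  exact cdb_le_add fun x _ => h x

/-- Additivity. -/
theorem card_add {c d e : M} (h : ∀ x, Bt e x ↔ Bt c x ∨ Bt d x) (h' : ∀ x, Bt c x → ¬ Bt d x) :
    card e = card c + card d := by
  rw [card_eq (c := e) (n := e + c + d) (fun x hx => lt_of_lt_of_le (Bt.lt hx) (by
      rw [add_assoc]; exact le_self_add)),
    card_eq (c := c) (n := e + c + d) (fun x hx => lt_of_lt_of_le (Bt.lt hx) (by
      rw [add_comm e c, add_assoc]; exact le_self_add)),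
    card_eq (c := d) (n := e + c + d) (fun x hx => lt_of_lt_of_le (Bt.lt hx) le_add_self)]
  exact cdb_add (fun x _ => h x) fun x _ => h' x

theorem card_mono {c d : M} (h : ∀ x, Bt c x → Bt d x) : card c ≤ card d := by
  have := card_le_add (c := d) (d := 0) (e := c) fun x hc => Or.inl (h x hc)
  rwa [card_zero, add_zero] at this

theorem card_pos {c x : M} (h : Bt c x) : 0 < card c := cdb_pos (Bt.lt h) h

theorem card_eq_zero {c : M} : card c = 0 ↔ c = 0 := by
  constructor
  · intro h
    refine bt_ext fun x => ⟨fun h1 => ?_, fun h1 => absurd h1 (not_bt_zero x)⟩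
    exact absurd h (card_pos h1).ne'
  · rintro rfl
    exact card_zero

theorem exists_bt_of_card {c : M} (h : 0 < card c) : ∃ x, Bt c x := by
  by_contra h1
  push Not at h1
  have : c = 0 := bt_ext fun x => ⟨fun h2 => absurd h2 (h1 x), fun h2 => absurd h2 (not_bt_zero x)⟩
  rw [this, card_zero] at h
  exact lt_irrefl _ h

/-- The complement of a subset. -/
theorem card_diff {c d e : M} (h : ∀ x, Bt c x → Bt d x) (he : ∀ x, Bt e x ↔ Bt d x ∧ ¬ Bt c x) :
    card d = card c + card e := by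
  refine card_add (fun x => ?_) fun x h1 h2 => ((he x).1 h2).2 h1
  rw [he]
  have := h x
  tauto

theorem card_lt {c d x : M} (h : ∀ x, Bt c x → Bt d x) (hd : Bt d x) (hc : ¬ Bt c x) :
    card c < card d := by
  rw [card_eq (c := c) (n := d) fun x hx => Bt.lt (h x hx)]
  exact cdb_slt (fun x _ => h x) (Bt.lt hd) hd hc

/-- A subset with at least as many elements is the whole set. -/
theorem card_eq_of_sub {c d : M} (h : ∀ x, Bt c x → Bt d x) (hcd : card d ≤ card c) : c = d := by
  refine bt_ext fun x => ⟨h x, fun hd => ?_⟩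
  by_contra hc
  exact absurd (card_lt h hd hc) (not_lt.2 hcd)

theorem card_sg {d x : M} (h : ∀ y, Bt d y ↔ y = x) : card d = 1 := by
  rw [card_eq (c := d) (n := x + 1) fun y hy => by rw [(h y).1 hy]; exact lt_succ_self x,
    cdb_in ((h x).2 rfl), cdb_congr (c := d) (d := 0), cdb_bt_zero, zero_add]
  intro y hy
  rw [h]
  exact ⟨fun h1 => absurd h1 hy.ne, fun h1 => absurd h1 (not_bt_zero y)⟩

/-- One more element. -/
theorem card_ins {c d x : M} (h : ∀ y, Bt d y ↔ Bt c y ∨ y = x) (hx : ¬ Bt c x) :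
    card d = card c + 1 := by
  obtain ⟨s, hs⟩ := Card.cmp (eS M) (P := fun y => y = x) inferInstance (x + 1)
  have hs' : ∀ y, Bt s y ↔ y = x := fun y => by
    rw [hs]
    exact ⟨fun h => h.2, fun h => ⟨by rw [h]; exact lt_succ_self x, h⟩⟩
  rw [← card_sg hs']
  refine card_add (fun y => ?_) fun y h1 h2 => ?_
  · rw [hs', h]
  · rw [(hs' y).1 h2] at h1
    exact hx h1

/-- One element less. -/
theorem card_del {c d x : M} (h : ∀ y, Bt d y ↔ Bt c y ∧ y ≠ x) (hx : Bt c x) :
    card c = card d + 1 := by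
  refine card_ins (x := x) (fun y => ?_) fun h1 => ((h x).1 h1).2 rfl
  rw [h]
  by_cases e : y = x
  · subst e; tauto
  · tauto

/-- The set of all numbers below `n`. -/
theorem card_full {c n : M} (h : ∀ y, Bt c y ↔ y < n) : card c = n := by
  rw [card_eq (n := n) fun x hx => (h x).1 hx]
  exact cdb_full fun x hx => (h x).2 hx

/-- One of two parts has half of the elements. -/
theorem card_half {c d e k : M} (h : ∀ x, Bt c x → Bt d x ∨ Bt e x) (hk : k + k ≤ card c) :
    k ≤ card d ∨ k ≤ card e := by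
  by_contra h1
  push Not at h1
  exact absurd (lt_of_le_of_lt (card_le_add h) (add_lt_add h1.1 h1.2)) (not_lt.2 hk)

/-- One of two parts has half of the elements, also after removal of one element. -/
theorem card_halve {c d e k y : M} (h : ∀ x, Bt c x → x = y ∨ Bt d x ∨ Bt e x)
    (hk : k + k ≤ card c) : k ≤ card d ∨ k ≤ card e := by
  by_contra h1
  push Not at h1
  obtain ⟨s, hs⟩ := Card.cmp (eS M) (P := fun x => x = y) inferInstance (y + 1)
  have hs' : ∀ x, Bt s x ↔ x = y := fun x => by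
    rw [hs]
    exact ⟨fun h => h.2, fun h => ⟨by rw [h]; exact lt_succ_self y, h⟩⟩
  obtain ⟨u, hu⟩ := Card.cmp (eS M) (P := fun x => Bt d x ∨ Bt e x) inferInstance (d + e)
  have hu' : ∀ x, Bt u x ↔ Bt d x ∨ Bt e x := fun x => by
    rw [hu]
    refine ⟨fun h => h.2, fun h => ⟨?_, h⟩⟩
    rcases h with h | h
    · exact lt_of_lt_of_le h.lt le_self_add
    · exact lt_of_lt_of_le h.lt le_add_self
  have h2 : card c ≤ card s + card u := card_le_add fun x hx => by
    rw [hs', hu']
    exact h x hx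
  have h3 : card u ≤ card d + card e := card_le_add fun x hx => (hu' x).1 hx
  rw [card_sg hs'] at h2
  have h4 : card d + 1 ≤ k := succ_le_iff.2 h1.1
  have h5 : card e + 1 ≤ k := succ_le_iff.2 h1.2
  have h6 : k + k + 1 ≤ k + k := by
    calc k + k + 1 ≤ card c + 1 := by gcongr
      _ ≤ 1 + (card d + card e) + 1 := by gcongr; exact le_trans h2 (by gcongr)
      _ = (card d + 1) + (card e + 1) := by ring
      _ ≤ k + k := add_le_add h4 h5
  exact absurd (lt_succ_self (k + k)) (not_lt.2 h6)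

/-- Halving: the least element `k` of `c`, and a part of the rest on which `P` is constant. -/
theorem card_halve_d (X : M → Prop) [I1 X] {P : M → Prop} (hP : D1 X (fun v => P (v 0)))
    {c p : M} (h : tw (p + 1) ≤ card c) : ∃ k, Bt c k ∧ (∀ x, Bt c x → k ≤ x) ∧
      ∃ d, tw p ≤ card d ∧ (∀ x, Bt d x → Bt c x ∧ k < x) ∧
        ((∀ x, Bt d x → P x) ∨ ∀ x, Bt d x → ¬ P x) := by
  have hP' : D1 X (fun v : ℕ → M => P (v 0)) := hP
  obtain ⟨x0, hx0⟩ := exists_bt_of_card (lt_of_lt_of_le (tw_pos (p + 1)) h)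
  obtain ⟨k, hk, hk'⟩ := least_d (eS M) (P := fun x => Bt c x) inferInstance ⟨x0, hx0⟩
  have hk2 : ∀ x, Bt c x → k ≤ x := fun x hx => by
    by_contra h1
    exact hk' x (not_le.1 h1) hx
  obtain ⟨d, hd⟩ := Card.cmp X (P := fun x => (Bt c x ∧ k < x) ∧ P x) inferInstance c
  obtain ⟨e, he⟩ := Card.cmp X (P := fun x => (Bt c x ∧ k < x) ∧ ¬ P x) inferInstance c
  have h2 : tw p + tw p ≤ card c := by
    rw [tw_succ] at h
    exact h
  have h1 := card_halve (c := c) (d := d) (e := e) (k := tw p) (y := k) (fun x hx => by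
    rw [hd, he]
    rcases (hk2 x hx).eq_or_lt with h | h
    · exact Or.inl h.symm
    · right
      by_cases hp : P x
      · exact Or.inl ⟨hx.lt, ⟨hx, h⟩, hp⟩
      · exact Or.inr ⟨hx.lt, ⟨hx, h⟩, hp⟩) h2
  refine ⟨k, hk, hk2, ?_⟩
  rcases h1 with h1 | h1
  · exact ⟨d, h1, fun x hx => ((hd x).1 hx).2.1, Or.inl fun x hx => ((hd x).1 hx).2.2⟩
  · exact ⟨e, h1, fun x hx => ((he x).1 hx).2.1, Or.inr fun x hx => ((he x).1 hx).2.2⟩

/-- A subset with a given number of elements. -/
theorem exists_sub_card {c k : M} (h : k ≤ card c) : ∃ d, (∀ x, Bt d x → Bt c x) ∧ card d = k := by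
  have key : ∀ j : M, j ≤ card c → ∃ n, n ≤ c ∧ cdb c n = j := by
    intro j
    refine ind_d (eS M) (P := fun j => j ≤ card c → ∃ n, n ≤ c ∧ cdb c n = j) inferInstance ?_
      (fun j ih hj => ?_) j
    · exact fun _ => ⟨0, zle _, cdb_zero c⟩
    · obtain ⟨m, hm⟩ := least_d (eS M) (P := fun n => j + 1 ≤ cdb c n) inferInstance ⟨c, hj⟩
      rcases eq_zero_or_succ m with rfl | ⟨n, rfl⟩
      · rw [cdb_zero] at hm
        exact absurd hm.1 (not_le.2 (lt_of_lt_of_le zero_lt_one le_add_self))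
      · have h1 := hm.2 n (lt_succ_self n)
        rw [not_le, lt_succ_iff] at h1
        refine ⟨n + 1, ?_, le_antisymm ?_ hm.1⟩
        · by_contra h2
          rw [not_le] at h2
          exact hm.2 c h2 hj
        · rcases cdb_cases c n with ⟨_, h3⟩ | ⟨_, h3⟩
          · rw [h3]; gcongr
          · rw [h3]; exact le_trans h1 le_self_add
  obtain ⟨n, hn, h1⟩ := key k h
  obtain ⟨d, hd⟩ := Card.cmp (eS M) (P := fun x => Bt c x) inferInstance n
  refine ⟨d, fun x hx => ((hd x).1 hx).2, ?_⟩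
  rw [card_eq (n := n) fun x hx => ((hd x).1 hx).1, ← h1]
  refine cdb_congr fun x hx => ?_
  rw [hd]
  exact ⟨fun h => h.2, fun h => ⟨hx, h⟩⟩

/-! ### The rank of an element -/

theorem cdb_lt_card {c x : M} (h : Bt c x) : cdb c x < card c := cdb_lt le_rfl (Bt.lt h) h

theorem cdb_inj {c x y : M} (hx : Bt c x) (hy : Bt c y) (h : cdb c x = cdb c y) : x = y := by
  rcases lt_trichotomy x y with h1 | h1 | h1
  · exact absurd h (cdb_lt le_rfl h1 hx).ne
  · exact h1
  · exact absurd h (cdb_lt le_rfl h1 hy).ne'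

theorem cdb_lt_iff {c x y : M} (hx : Bt c x) : cdb c x < cdb c y ↔ x < y := by
  constructor
  · intro h
    by_contra h1
    exact absurd h (not_lt.2 (cdb_mono c (not_lt.1 h1)))
  · intro h
    exact cdb_lt le_rfl h hx

/-- The element with a given rank. -/
theorem exists_rank {c j : M} (h : j < card c) : ∃ x, Bt c x ∧ cdb c x = j := by
  obtain ⟨m, hm⟩ := least_d (eS M) (P := fun n => j < cdb c n) inferInstance ⟨c, h⟩
  rcases eq_zero_or_succ m with rfl | ⟨n, rfl⟩
  · rw [cdb_zero] at hm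
    exact absurd hm.1 (not_lt_zero' j)
  · have h1 := not_lt.1 (hm.2 n (lt_succ_self n))
    rcases cdb_cases c n with ⟨h2, h3⟩ | ⟨_, h3⟩
    · refine ⟨n, h2, le_antisymm h1 ?_⟩
      have := hm.1
      rw [h3, lt_succ_iff] at this
      exact this
    · rw [h3] at hm
      exact absurd hm.1 (not_lt.2 h1)

/-! ### Images, the pigeonhole principle and fibres -/

/-- The image of a coded set under an injective function. -/
theorem card_image (X : M → Prop) [I1 X] {f : M → M} (hf : F1 X (fun v => f (v 0))) {c m : M}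
    (hm : ∀ x, Bt c x → f x < m)
    (inj : ∀ x y, Bt c x → Bt c y → f x = f y → x = y) :
    ∃ e, (∀ y, Bt e y ↔ ∃ x, Bt c x ∧ f x = y) ∧ card e = card c := by
  have hf0 : F1 X (fun v : ℕ → M => f (v 0)) := hf
  have key : ∀ k : M, ∃ e, e < tw m ∧ (∀ y, y < m → (Bt e y ↔ ∃ x, x < k ∧ (Bt c x ∧ f x = y))) ∧
      card e = cdb c k := by
    intro k
    refine ind_s (X := X) (P := fun k => ∃ e, e < tw m ∧ (∀ y, y < m → (Bt e y ↔ ∃ x, x < k ∧
      (Bt c x ∧ f x = y))) ∧ card e = cdb c k) ?_ ?_ (fun k ih => ?_) k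
    · have : F1 X (fun v : ℕ → M => f (v 0)) := hf
      infer_instance
    · refine ⟨0, lt_tw_iff.2 fun x hx => absurd hx (not_bt_zero x), fun y _ => ?_, ?_⟩
      · refine ⟨fun h => absurd h (not_bt_zero y), ?_⟩
        rintro ⟨x, hx, _⟩
        exact absurd hx (not_lt_zero' x)
      · rw [card_zero, cdb_zero]
    · obtain ⟨e, he, h1, h2⟩ := ih
      rw [lt_tw_iff] at he
      by_cases hk : Bt c k
      · obtain ⟨e', he'⟩ := Card.cmp (eS M) (P := fun y => Bt e y ∨ y = f k) inferInstance m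
        have hx : ∀ x, Bt e' x ↔ Bt e x ∨ x = f k := fun x => by
          rw [he']
          refine ⟨fun h => h.2, fun h => ⟨?_, h⟩⟩
          rcases h with h | h
          · exact he x h
          · rw [h]; exact hm k hk
        refine ⟨e', lt_tw_iff.2 fun x hx => ((he' x).1 hx).1, fun y hy => ?_, ?_⟩
        · rw [hx, h1 y hy]
          constructor
          · rintro (⟨x, h3, h4⟩ | rfl)
            · exact ⟨x, lt_trans h3 (lt_succ_self k), h4⟩
            · exact ⟨k, lt_succ_self k, hk, rfl⟩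
          · rintro ⟨x, h3, h4, h5⟩
            rcases lt_succ_cases h3 with h3 | rfl
            · exact Or.inl ⟨x, h3, h4, h5⟩
            · exact Or.inr h5.symm
        · rw [card_ins hx, h2, cdb_in hk]
          rw [h1 _ (hm k hk)]
          rintro ⟨x, h3, h4, h5⟩
          exact absurd (inj x k h4 hk h5) h3.ne
      · refine ⟨e, lt_tw_iff.2 he, fun y hy => ?_, ?_⟩
        · rw [h1 y hy]
          constructor
          · rintro ⟨x, h3, h4⟩
            exact ⟨x, lt_trans h3 (lt_succ_self k), h4⟩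
          · rintro ⟨x, h3, h4, h5⟩
            rcases lt_succ_cases h3 with h3 | rfl
            · exact ⟨x, h3, h4, h5⟩
            · exact absurd h4 hk
        · rw [h2, cdb_out hk]
  obtain ⟨e, he, h1, h2⟩ := key c
  rw [lt_tw_iff] at he
  refine ⟨e, fun y => ⟨fun h => ?_, ?_⟩, h2⟩
  · obtain ⟨x, _, h3⟩ := (h1 y (he y h)).1 h
    exact ⟨x, h3⟩
  · rintro ⟨x, h3, rfl⟩
    exact (h1 _ (hm x h3)).2 ⟨x, Bt.lt h3, h3, rfl⟩

/-- An injective function into a coded set. -/
theorem card_le_of_inj (X : M → Prop) [I1 X] {f : M → M} (hf : F1 X (fun v => f (v 0))) {c d : M}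
    (hm : ∀ x, Bt c x → Bt d (f x))
    (inj : ∀ x y, Bt c x → Bt c y → f x = f y → x = y) : card c ≤ card d := by
  obtain ⟨e, h1, h2⟩ := card_image X hf (c := c) (m := d) (fun x hx => Bt.lt (hm x hx)) inj
  rw [← h2]
  refine card_mono fun y hy => ?_
  obtain ⟨x, hx, rfl⟩ := (h1 y).1 hy
  exact hm x hx

/-- The pigeonhole principle. -/
theorem pigeon (X : M → Prop) [I1 X] {f : M → M} (hf : F1 X (fun v => f (v 0))) {n m : M}
    (hm : ∀ x, x < n → f x < m)
    (inj : ∀ x y, x < n → y < n → f x = f y → x = y) : n ≤ m := by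
  obtain ⟨c, hc⟩ := Card.cmp (eS M) (P := fun _ : M => True) inferInstance n
  obtain ⟨d, hd⟩ := Card.cmp (eS M) (P := fun _ : M => True) inferInstance m
  have hc' : ∀ x, Bt c x ↔ x < n := fun x => by rw [hc]; exact ⟨fun h => h.1, fun h => ⟨h, trivial⟩⟩
  have hd' : ∀ x, Bt d x ↔ x < m := fun x => by rw [hd]; exact ⟨fun h => h.1, fun h => ⟨h, trivial⟩⟩
  rw [← card_full hc', ← card_full hd']
  exact card_le_of_inj X hf (fun x hx => (hd' _).2 (hm x ((hc' x).1 hx))) fun x y hx hy =>
    inj x y ((hc' x).1 hx) ((hc' y).1 hy)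

/-- A set whose fibres have at most `m` elements. -/
theorem card_fib_le (X : M → Prop) [I1 X] {f : M → M} (hf : F1 X (fun v => f (v 0))) {c k m : M}
    (hk : ∀ x, Bt c x → f x < k)
    (h : ∀ j, j < k → ∀ e, (∀ x, Bt e x ↔ Bt c x ∧ f x = j) → card e ≤ m) : card c ≤ k * m := by
  have hf0 : F1 X (fun v : ℕ → M => f (v 0)) := hf
  have key : ∀ l : M, l ≤ k → ∃ e, e < tw c ∧ (∀ x, x < c → (Bt e x ↔ Bt c x ∧ f x < l)) ∧
      card e ≤ l * m := by
    intro l
    refine ind_s (X := X) (P := fun l => l ≤ k → ∃ e, e < tw c ∧ (∀ x, x < c → (Bt e x ↔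
      Bt c x ∧ f x < l)) ∧ card e ≤ l * m) ?_ ?_ (fun l ih hl => ?_) l
    · have : F1 X (fun v : ℕ → M => f (v 0)) := hf
      infer_instance
    · intro _
      refine ⟨0, lt_tw_iff.2 fun x hx => absurd hx (not_bt_zero x), fun x _ => ?_, ?_⟩
      · exact ⟨fun h => absurd h (not_bt_zero x), fun h => absurd h.2 (not_lt_zero' _)⟩
      · rw [card_zero]; exact zle _
    · have hlk : l < k := succ_le_iff.1 hl
      obtain ⟨e, he, h1, h2⟩ := ih hlk.le
      rw [lt_tw_iff] at he
      obtain ⟨e', he'⟩ := Card.cmp X (P := fun x => Bt c x ∧ f x < l + 1) (by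
        have : F1 X (fun v : ℕ → M => f (v 0)) := hf
        infer_instance) c
      obtain ⟨e'', he''⟩ := Card.cmp X (P := fun x => Bt c x ∧ f x = l) (by
        have : F1 X (fun v : ℕ → M => f (v 0)) := hf
        infer_instance) c
      refine ⟨e', lt_tw_iff.2 fun x hx => ((he' x).1 hx).1, fun x hx => ?_, ?_⟩
      · rw [he']
        exact ⟨fun h => h.2, fun h => ⟨hx, h⟩⟩
      · calc card e' ≤ card e + card e'' := card_le_add fun x hx => by
              obtain ⟨h3, h4, h5⟩ := (he' x).1 hx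
              rcases lt_succ_cases h5 with h5 | h5
              · exact Or.inl ((h1 x h3).2 ⟨h4, h5⟩)
              · exact Or.inr ((he'' x).2 ⟨h3, h4, h5⟩)
          _ ≤ l * m + m := by
              refine add_le_add h2 (h l hlk e'' fun x => ?_)
              rw [he'']
              exact ⟨fun h => h.2, fun h => ⟨Bt.lt h.1, h⟩⟩
          _ = (l + 1) * m := by ring
  obtain ⟨e, he, h1, h2⟩ := key k le_rfl
  rw [lt_tw_iff] at he
  have : e = c := bt_ext fun x => ⟨fun hx => ((h1 x (he x hx)).1 hx).1,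
    fun hx => (h1 x (Bt.lt hx)).2 ⟨hx, hk x hx⟩⟩
  rwa [this] at h2

/-- The general pigeonhole principle: a fibre with many elements. -/
theorem exists_fib (X : M → Prop) [I1 X] {f : M → M} (hf : F1 X (fun v => f (v 0))) {c k m : M}
    (hk : ∀ x, Bt c x → f x < k) (h : k * m < card c) :
    ∃ j, j < k ∧ ∃ e, (∀ x, Bt e x ↔ Bt c x ∧ f x = j) ∧ m < card e := by
  by_contra h1
  push Not at h1
  exact absurd (card_fib_le X hf hk h1) (not_le.2 h)

end Pool.Agent.PD2
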