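import Pool.Agent.Work.MP_a6ae3a_lc.Bits2
import Pool.Agent.Work.MP_a6ae3a_lc.Bits3

/-!
# Cardinality and the set functions
-/

namespace Pool.Agent.PD2

variable {M : Type} [PAM M] [IM M]

/-- One more element. -/
theorem card_insert {c x : M} (h : ¬ Bt c x) : card (un c (tw x)) = card c + 1 :=
  card_ins (x := x) (fun y => by rw [bt_un, bt_tw]) h

theorem card_union {c d : M} (h : ∀ x, Bt c x → ¬ Bt d x) : card (un c d) = card c + card d :=
  card_add (fun _ => bt_un) h

theorem card_un_le (c d : M) : card (un c d) ≤ card c + card d :=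
  card_le_add fun _ h => bt_un.1 h

/-- The set of all numbers below `n`. -/
theorem card_all (n : M) : card (sc n (fun _ => True)) = n :=
  card_full fun y => by
    rw [bt_sc' (Card.cmp (eS M) (P := fun _ => True) inferInstance n)]
    exact ⟨fun h => h.1, fun h => ⟨h, trivial⟩⟩

/-- The pigeonhole principle without `Σ₁` induction for the oracle. -/
theorem pigeon_r (X : M → Prop) [C1 X] [Reg X] {f : M → M} (hf : F1 X (fun v => f (v 0)))
    {n m : M} (hm : ∀ x, x < n → f x < m)
    (inj : ∀ x y, x < n → y < n → f x = f y → x = y) : n ≤ m := by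
  have hf0 : F1 X (fun v : ℕ → M => f (v 0)) := hf
  obtain ⟨c, hc⟩ := ex_fun X (R := fun x y => y = f x) (by
    have : F1 X (fun v : ℕ → M => f (v 0)) := hf
    infer_instance) n (fun x _ => ⟨f x, rfl⟩)
  refine pigeon (eS M) (f := fun x => ap c x) inferInstance (fun x hx => ?_) fun x y hx hy h => ?_
  · simp only [hc x hx]
    exact hm x hx
  · simp only [hc x hx, hc y hy] at h
    exact inj x y hx hy h

end Pool.Agent.PD2
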