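import Pool.Agent.Work.MP_a6ae3a_lc.Univ
import Pool.Agent.Work.MP_a6ae3a_lc.Card2

/-!
# The jump and `BΣ₂`
-/

namespace Pool.Agent.PD2

set_option linter.unusedSectionVars false
set_option linter.unusedVariables false

variable {M : Type} [PAM M] [IM M] {X Y : M → Prop}

/-! ### Coded tuples -/

/-- The tuple of the first `n` values. -/
def tup : ℕ → (ℕ → M) → M
  | 0, _ => 0
  | (n + 1), v => pr (v 0) (tup n (fun i => v (i + 1)))

/-- A component of a tuple. -/
noncomputable def cmp : ℕ → M → M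
  | 0, z => fs z
  | (i + 1), z => cmp i (sn z)

theorem cmp_tup : ∀ (n i : ℕ) (v : ℕ → M), i < n → cmp i (tup n v) = v i
  | 0, i, v, h => absurd h (Nat.not_lt_zero i)
  | (n + 1), 0, v, _ => by simp only [cmp, tup, fs_pr]
  | (n + 1), (i + 1), v, h => by
    simp only [cmp, tup, sn_pr]
    exact cmp_tup n i (fun i => v (i + 1)) (by omega)

theorem f1_tup : ∀ n : ℕ, F1 X (fun v => tup n v)
  | 0 => (inferInstance : F1 X (fun _ : ℕ → M => (0 : M)))
  | (n + 1) => by
    have h : F1 X (fun v : ℕ → M => tup n (fun i => v (i + 1))) := F1.tail (f1_tup n)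
    exact (inferInstance : F1 X (fun v : ℕ → M => pr (v 0) (tup n (fun i => v (i + 1)))))

theorem f1_cmp : ∀ (i : ℕ) {f : (ℕ → M) → M}, F1 X f → F1 X (fun v => cmp i (f v))
  | 0, f, hf => (inferInstance : F1 X (fun v => fs (f v)))
  | (i + 1), f, hf => f1_cmp i (f := fun v => sn (f v)) inferInstance

/-! ### Bounded formulas over a set with a parameter -/

theorem d1_par [C1 Y] {P : M → M → Prop} (hP : D1 Y (fun v => P (v 0) (v 1))) : ∀ f : RF,
    D1 Y (fun v => f.holds (P (v 0)) (fun i => v (i + 1)))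
  | .add i j k => (inferInstance : D1 Y (fun v => v (i + 1) + v (j + 1) = v (k + 1)))
  | .mul i j k => (inferInstance : D1 Y (fun v => v (i + 1) * v (j + 1) = v (k + 1)))
  | .eq i j => (inferInstance : D1 Y (fun v => v (i + 1) = v (j + 1)))
  | .lt i j => (inferInstance : D1 Y (fun v => v (i + 1) < v (j + 1)))
  | .mem i => D1.s2 (P := P) (g0 := fun v => v 0) (g1 := fun v => v (i + 1)) hP inferInstance
      inferInstance
  | .neg f => (d1_par hP f).not
  | .and f g => (d1_par hP f).and (d1_par hP g)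
  | .all i f => by
    have h1 := d1_par hP f
    have h2 : D1 Y (fun v : ℕ → M => f.holds (P (v 1)) (psh (v 0) (fun i => v (i + 2)))) := by
      refine D1.congr (D1.sub h1 (g := fun i v => match i with
        | 0 => v 1
        | 1 => v 0
        | i + 2 => v (i + 2)) (fun i => by
          match i with
          | 0 => exact vr_var 1
          | 1 => exact vr_var 0
          | i + 2 => exact vr_var _)) fun v => ?_
      have e : (fun i => (match i + 1 with
          | 0 => v 1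
          | 1 => v 0
          | i + 2 => v (i + 2) : M)) = psh (v 0) (fun i => v (i + 2)) := by
        funext i; cases i <;> rfl
      rw [← e]
    exact @d1_all _ _ _ (fun v => v (i + 1)) _
      (fun x v => f.holds (P (v 0)) (psh x (fun i => v (i + 1)))) _ h2

theorem d1_fin {R : ℕ → (ℕ → M) → Prop} (h : ∀ i, D1 X (R i)) : ∀ n : ℕ,
    D1 X (fun v => ∀ i, i < n → R i v)
  | 0 => D1.congr (R := fun _ => (0 : M) = 0) inferInstance fun v => by simp
  | (n + 1) => by
    have h1 := d1_fin h n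
    have h2 := h n
    refine D1.congr (R := fun v => (∀ i, i < n → R i v) ∧ R n v) inferInstance fun v => ?_
    constructor
    · rintro ⟨h3, h4⟩ i hi
      rcases Nat.lt_succ_iff_lt_or_eq.1 hi with h5 | h5
      · exact h3 i h5
      · rw [h5]; exact h4
    · exact fun h3 => ⟨fun i hi => h3 i (by omega), h3 n (by omega)⟩

/-! ### The jump -/

/-- The jump. -/
def jp (X : M → Prop) (e : M) : Prop := ∃ t, Cv X e 0 t

theorem s1_jp_set [C1 X] {f : (ℕ → M) → M} [F1 X f] : S1 X (fun v => jp X (f v)) := by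
  have k : F1 X (fun v => f (fun i => v (i + 1))) := F1.tail inferInstance
  have h : D1 X (fun v : ℕ → M => Cv X (f (fun i => v (i + 1))) 0 (v 0)) := inferInstance
  exact S1.exists (R := fun t v => Cv X (f v) 0 t) h.s

instance reg_jp [I1 X] : Reg (jp X) :=
  ⟨fun n => ex_code_s (R := jp X) (s1_jp_set (f := fun v => v 0)) n⟩

/-- Normal form of `Σ₁` relations. -/
theorem s1_nf [I1 X] {R : (ℕ → M) → Prop} (hR : S1 X R) :
    ∃ (c : M) (n : ℕ), ∀ v, R v ↔ jp X (pr c (tup n v)) := by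
  obtain ⟨n, hn⟩ := hR.dep
  have h1 : S1 X (fun v : ℕ → M => R (fun i => if i < n then cmp i (v 0) else 0)) := by
    refine S1.subF hR (g := fun i v => if i < n then cmp i (v 0) else 0) fun i => ?_
    by_cases hi : i < n
    · simp only [hi, if_true]
      exact f1_cmp i inferInstance
    · simp only [hi, if_false]
      infer_instance
  obtain ⟨c, hc⟩ := cv_s1 (R := fun z => R (fun i => if i < n then cmp i z else 0)) h1
  refine ⟨c, n, fun v => ?_⟩
  unfold jp
  rw [← hc]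
  refine hn _ _ fun i hi => ?_
  rw [if_pos hi, cmp_tup n i v hi]

/-- `Σ₁(X)` relations are `Δ₁(X')`. -/
theorem d1_jp [I1 X] {R : (ℕ → M) → Prop} (hR : S1 X R) : D1 (jp X) R := by
  obtain ⟨c, n, h⟩ := s1_nf hR
  have k : F1 (jp X) (fun v => tup n v) := f1_tup n
  exact D1.congr (R := fun v => jp X (pr c (tup n v))) inferInstance fun v => (h v).symm

instance d1_jp_mem [I1 X] {f : (ℕ → M) → M} [F1 (jp X) f] : D1 (jp X) (fun v => X (f v)) :=
  D1.s1 (P := X) (d1_jp (R := fun v => X (v 0)) inferInstance) inferInstance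

instance d1_jp_cv [I1 X] {f g h : (ℕ → M) → M} [F1 (jp X) f] [F1 (jp X) g]
    [F1 (jp X) h] : D1 (jp X) (fun v => Cv X (f v) (g v) (h v)) :=
  D1.s3 (P := Cv X) (d1_jp (R := fun v => Cv X (v 0) (v 1) (v 2)) inferInstance) inferInstance
    inferInstance inferInstance

/-- A `Σ₂` relation is `Σ₁(X')`. -/
theorem s1_jp [I1 X] {R : M → (ℕ → M) → Prop}
    (hR : S1 X (fun v => ¬ R (v 0) (fun i => v (i + 1)))) : S1 (jp X) (fun v => ∃ y, R y v) := by
  have h := (d1_jp hR).p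
  exact S1.exists (S1.congr h fun v => not_not)

/-- Normal form of `Σ₁(X')` relations. -/
theorem s1_jp_nf [I1 X] {R : (ℕ → M) → Prop} (hR : S1 (jp X) R) :
    ∃ S : M → (ℕ → M) → Prop, S1 X (fun v => S (v 0) (fun i => v (i + 1))) ∧
      ∀ v, R v ↔ ∃ t, ¬ S t v := by
  obtain ⟨f, c, hf⟩ := hR.ex
  have hreg : Reg (jp X) := reg_jp
  -- the assignment
  have hu : ∀ i, F1 X (fun v : ℕ → M => psh (fs (v 0)) (mix (fun j => v (j + 1)) c) i) := by
    intro i
    cases i with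
    | zero => exact (inferInstance : F1 X (fun v : ℕ → M => fs (v 0)))
    | succ i =>
      refine F1.of_vr ?_
      simp only [psh_succ]
      unfold mix
      by_cases h : i % 2 = 0
      · simp only [h, if_true]
        exact vr_var _
      · simp only [h, if_false]
        exact vr_const _
  have k1 : D1 X (fun v : ℕ → M => ∀ i, i < f.bd →
      psh (fs (v 0)) (mix (fun j => v (j + 1)) c) i < fs (sn (v 0))) :=
    d1_fin (R := fun i v => psh (fs (v 0)) (mix (fun j => v (j + 1)) c) i < fs (sn (v 0)))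
      (fun i => @d1_lt _ _ _ _ _ (hu i) inferInstance) f.bd
  have k2 : D1 X (fun v : ℕ → M => f.holds (Bt (fs (sn (sn (v 0)))))
      (psh (fs (v 0)) (mix (fun j => v (j + 1)) c))) := by
    have h1 : D1 X (fun v : ℕ → M => f.holds (Bt (v 0)) (fun i => v (i + 1))) :=
      d1_par (P := Bt) inferInstance f
    have h2 := D1.subF h1 (g := fun i v => match i with
      | 0 => fs (sn (sn (v 0)))
      | i + 1 => psh (fs (v 0)) (mix (fun j => v (j + 1)) c) i) (fun i => by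
        cases i with
        | zero => exact (inferInstance : F1 X (fun v : ℕ → M => fs (sn (sn (v 0)))))
        | succ i => exact hu i)
    exact h2
  have k3 : D1 X (fun v : ℕ → M => ∀ x, x < fs (sn (v 0)) → Bt (fs (sn (sn (v 0)))) x →
      ∃ t, t < sn (sn (sn (v 0))) ∧ Cv X x 0 t) := inferInstance
  have k4 : S1 X (fun v : ℕ → M => ∃ x, x < fs (sn (v 0)) ∧ ¬ Bt (fs (sn (sn (v 0)))) x ∧
      ∃ t, Cv X x 0 t) := inferInstance
  refine ⟨fun z v => ¬ ((∀ i, i < f.bd → psh (fs z) (mix v c) i < fs (sn z)) ∧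
      (∀ x, x < fs (sn z) → Bt (fs (sn (sn z))) x → ∃ t, t < sn (sn (sn z)) ∧ Cv X x 0 t) ∧
      f.holds (Bt (fs (sn (sn z)))) (psh (fs z) (mix v c))) ∨
      ∃ x, x < fs (sn z) ∧ ¬ Bt (fs (sn (sn z))) x ∧ ∃ t, Cv X x 0 t, ?_, fun v => ?_⟩
  · exact S1.or (k1.and (k3.and k2)).p k4
  · rw [hf]
    constructor
    · rintro ⟨y, hy⟩
      obtain ⟨N, hN⟩ := exists_bd f.bd (psh y (mix v c))
      obtain ⟨s, hs⟩ := hreg.reg N
      have h1 : ∀ x, x < N → ∃ t, Bt s x → Cv X x 0 t := by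
        intro x hx
        by_cases h : Bt s x
        · obtain ⟨t, ht⟩ := ((hs x).1 h).2
          exact ⟨t, fun _ => ht⟩
        · exact ⟨0, fun h' => absurd h' h⟩
      obtain ⟨w, hw⟩ := coll_s (P := fun x t => Bt s x → Cv X x 0 t)
        (inferInstance : D1 X (fun v : ℕ → M => Bt s (v 0) → Cv X (v 0) 0 (v 1))).s N h1
      refine ⟨pr y (pr N (pr s w)), ?_⟩
      simp only [fs_pr, sn_pr, not_or, not_not]
      refine ⟨⟨hN, fun x hx hb => ?_, ?_⟩, ?_⟩
      · obtain ⟨t, h2, h3⟩ := hw x hx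
        exact ⟨t, h2, h3 hb⟩
      · refine (RF.holds_local (b := N) (fun x hx => ?_) f _ hN).1 hy
        rw [hs x]
        exact ⟨fun h => ⟨hx, h⟩, fun h => h.2⟩
      · rintro ⟨x, hx, h2, h3⟩
        exact h2 ((hs x).2 ⟨hx, h3⟩)
    · rintro ⟨z, hz⟩
      rw [not_or, not_not] at hz
      obtain ⟨⟨h1, h2, h3⟩, h4⟩ := hz
      refine ⟨fs z, (RF.holds_local (b := fs (sn z)) (fun x hx => ?_) f _ h1).2 h3⟩
      constructor
      · intro h
        by_contra h5
        exact h4 ⟨x, hx, h5, h⟩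
      · intro h
        obtain ⟨t, _, h5⟩ := h2 x hx h
        exact ⟨t, h5⟩

/-- `IΣ₁(X) + BΣ₂(X)`. -/
class B2 (X : M → Prop) : Prop where
  i1 : I1 X
  c1 : C1 (jp X)

instance i1_b2 [h : B2 X] : I1 X := h.i1
instance c1_b2 [h : B2 X] : C1 (jp X) := h.c1

/-- The jump is monotone. -/
theorem jp_mono_i [I1 Y] (h : D1 Y (fun v => X (v 0))) : D1 (jp Y) (fun v => jp X (v 0)) := by
  have : I1 X := ⟨fun P hP h0 hs => ind_s (X := Y) (S1.trans h hP) h0 hs⟩
  exact d1_jp (S1.trans h (s1_jp_set (f := fun v => v 0)))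

/-- The jump is monotone. -/
theorem jp_mono [B2 Y] (h : D1 Y (fun v => X (v 0))) : D1 (jp Y) (fun v => jp X (v 0)) :=
  jp_mono_i h

theorem c1_trans [C1 Y] (h : D1 Y (fun v => X (v 0))) : C1 X :=
  ⟨fun R hR v a ha => S1.coll (S1.trans h hR) v a ha⟩

/-- Passage to a set below. -/
theorem b2_down [B2 Y] (h : D1 Y (fun v => X (v 0))) : B2 X :=
  ⟨⟨fun P hP h0 hs => ind_s (X := Y) (S1.trans h hP) h0 hs⟩, c1_trans (jp_mono h)⟩

/-- Criterion for `Σ₁(X')` collection. -/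
theorem c1_jp_of [I1 X] (J : M → Prop)
    (hJ : ∀ P : M → Prop, S1 X (fun v => P (v 0)) → ∃ c, ∀ z, P z ↔ J (pr c z))
    (h2 : ∀ c a, (∀ x, x < a → ∃ y, ¬ J (pr c (pr x y))) →
      ∃ b, ∀ x, x < a → ∃ y, y < b ∧ ¬ J (pr c (pr x y))) : C1 (jp X) := by
  refine ⟨fun R hR v a h => ?_⟩
  obtain ⟨S, hS, hRS⟩ := s1_jp_nf hR
  have h1 : S1 X (fun u : ℕ → M => S (fs (sn (u 0))) (psh (sn (sn (u 0))) (psh (fs (u 0)) v))) := by
    have h3 := S1.subF hS (g := fun i u => match i with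
      | 0 => fs (sn (u 0))
      | 1 => sn (sn (u 0))
      | 2 => fs (u 0)
      | i + 3 => v i) (fun i => by
        match i with
        | 0 => exact (inferInstance : F1 X (fun u : ℕ → M => fs (sn (u 0))))
        | 1 => exact (inferInstance : F1 X (fun u : ℕ → M => sn (sn (u 0))))
        | 2 => exact (inferInstance : F1 X (fun u : ℕ → M => fs (u 0)))
        | i + 3 => exact (inferInstance : F1 X (fun _ : ℕ → M => v i)))
    refine S1.congr h3 fun u => ?_
    have e : (fun i => (match i + 1 with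
        | 0 => fs (sn (u 0))
        | 1 => sn (sn (u 0))
        | 2 => fs (u 0)
        | i + 3 => v i : M)) = psh (sn (sn (u 0))) (psh (fs (u 0)) v) := by
      funext i
      match i with
      | 0 => rfl
      | 1 => rfl
      | i + 2 => rfl
    rw [← e]
  obtain ⟨c, hc⟩ := hJ (fun z => S (fs (sn z)) (psh (sn (sn z)) (psh (fs z) v))) h1
  obtain ⟨b, hb⟩ := h2 c a (fun x hx => by
    obtain ⟨y, hy⟩ := h x hx
    obtain ⟨t, ht⟩ := (hRS _).1 hy
    refine ⟨pr t y, ?_⟩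
    rw [← hc]
    simp only [fs_pr, sn_pr]
    exact ht)
  refine ⟨b, fun x hx => ?_⟩
  obtain ⟨w, hw, hw'⟩ := hb x hx
  rw [← hc] at hw'
  simp only [fs_pr, sn_pr] at hw'
  exact ⟨sn w, lt_of_le_of_lt (sn_le w) hw, (hRS _).2 ⟨_, hw'⟩⟩

/-- Criterion for `B2` of a join. -/
theorem b2_crit [B2 X] {H : M → Prop} [Reg H]
    (h1 : ∀ n, ∃ c, ∀ e, Bt c e ↔ e < n ∧ ∃ t, Cv X e (sc t H) t)
    (h2 : ∀ c a, (∀ x, x < a → ∃ y, ¬ ∃ t, Cv X (pr c (pr x y)) (sc t H) t) →
      ∃ b, ∀ x, x < a → ∃ y, y < b ∧ ¬ ∃ t, Cv X (pr c (pr x y)) (sc t H) t) :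
    B2 (jn X H) := by
  have hI : I1 (jn X H) := by
    refine ⟨fun P hP h0 hs => ind_reg (P := P) ⟨fun n => ?_⟩ h0 hs⟩
    obtain ⟨c, hc⟩ := cv_jn hP
    obtain ⟨w, hw⟩ := h1 (pr c n + 1)
    obtain ⟨s, hs⟩ := ex_code (eS M) (P := fun z => Bt w (pr c z)) inferInstance n
    refine ⟨s, fun x => ?_⟩
    rw [hs, hw, hc]
    constructor
    · rintro ⟨h3, _, h4⟩
      exact ⟨h3, h4⟩
    · rintro ⟨h3, h4⟩
      exact ⟨h3, lt_succ_iff.2 (pr_mono le_rfl h3.le), h4⟩
  exact ⟨hI, c1_jp_of (fun e => ∃ t, Cv X e (sc t H) t) (fun P hP => cv_jn hP) h2⟩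

/-- The semantic form of `B2`: `Σ₁` induction and `Σ₂` collection. -/
theorem b2_of_coll [I1 X]
    (h : ∀ P : M → M → M → Prop, S1 X (fun v => P (v 0) (v 1) (v 2)) → ∀ a,
      (∀ x, x < a → ∃ y, ∀ z, ¬ P x y z) → ∃ b, ∀ x, x < a → ∃ y, y < b ∧ ∀ z, ¬ P x y z) :
    B2 X := by
  refine ⟨inferInstance, c1_jp_of (jp X) (fun P hP => cv_s1 hP) fun c a h1 => ?_⟩
  have h3 := h (fun x y _ => jp X (pr c (pr x y)))
    (s1_jp_set (f := fun v => pr c (pr (v 0) (v 1)))) a (fun x hx => by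
      obtain ⟨y, hy⟩ := h1 x hx
      exact ⟨y, fun _ => hy⟩)
  obtain ⟨b, hb⟩ := h3
  refine ⟨b, fun x hx => ?_⟩
  obtain ⟨y, hy, h4⟩ := hb x hx
  exact ⟨y, hy, h4 0⟩

/-! ### The schemes for `∃∀` formulas -/

/-- Collection for `Σ₂` relations with parameters. -/
theorem coll2 [B2 X] {Q : M → (ℕ → M) → Prop}
    (hQ : S1 X (fun v => ¬ Q (v 0) (fun i => v (i + 1)))) (v : ℕ → M) (a : M)
    (h : ∀ x, x < a → ∃ y, ∃ u, Q u (psh y (psh x v))) :
    ∃ b, ∀ x, x < a → ∃ y, y < b ∧ ∃ u, Q u (psh y (psh x v)) :=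
  S1.coll (X := jp X) (s1_jp hQ) v a h

/-- Collection for `Σ₂` relations. -/
theorem coll2' [B2 X] {P : M → M → M → Prop} (hP : S1 X (fun v => ¬ P (v 0) (v 1) (v 2)))
    (a : M) (h : ∀ x, x < a → ∃ y, ∃ u, P x y u) : ∃ b, ∀ x, x < a → ∃ y, y < b ∧ ∃ u, P x y u := by
  have h1 : S1 X (fun v : ℕ → M => ¬ P (v 2) (v 1) (v 0)) :=
    S1.s3 (P := fun x y z => ¬ P x y z) hP inferInstance inferInstance inferInstance
  exact coll2 (X := X) (Q := fun u v => P (v 1) (v 0) u) h1 (fun _ => 0) a h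

/-- Collection for formulas `∃ u ∀ z f` with parameters. -/
theorem coll2_rf [B2 X] (f : RF) (v : ℕ → M) (a : M)
    (h : ∀ x, x < a → ∃ y, ∃ u, ∀ z, f.holds X (psh z (psh u (psh y (psh x v))))) :
    ∃ b, ∀ x, x < a → ∃ y, y < b ∧ ∃ u, ∀ z, f.holds X (psh z (psh u (psh y (psh x v)))) := by
  refine coll2 (X := X) (Q := fun u w => ∀ z, f.holds X (psh z (psh u w))) ?_ v a h
  have h1 : D1 X (fun v : ℕ → M => f.holds X (psh (v 0) (psh (v 1) (fun i => v (i + 2))))) := by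
    refine D1.congr (D1.of_dp (R := fun v => f.holds X v) ⟨⟨f.ren (fun i => 2 * i), fun _ => 0,
      fun v => ?_⟩⟩) fun v => ?_
    · rw [RF.holds_ren]
      simp only [mix_even]
    · have e : psh (v 0) (psh (v 1) (fun i => v (i + 2))) = v := by
        funext i
        match i with
        | 0 => rfl
        | 1 => rfl
        | i + 2 => rfl
      rw [e]
  refine S1.congr (S1.exists (R := fun z v => ¬ f.holds X (psh z (psh (v 0)
    (fun i => v (i + 1))))) h1.p) fun v => ?_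
  rw [not_forall]

/-- A set with two `Σ₂` definitions is `Δ₁(X')`. -/
theorem d1_jp_of [I1 X] {A : (ℕ → M) → Prop} {P Q : M → (ℕ → M) → Prop}
    (hP : S1 X (fun v => ¬ P (v 0) (fun i => v (i + 1))))
    (hQ : S1 X (fun v => ¬ Q (v 0) (fun i => v (i + 1))))
    (h1 : ∀ v, A v ↔ ∃ u, P u v) (h2 : ∀ v, ¬ A v ↔ ∃ u, Q u v) : D1 (jp X) A :=
  ⟨S1.congr (s1_jp hP) fun v => (h1 v).symm, S1.congr (s1_jp hQ) fun v => (h2 v).symm⟩

end Pool.Agent.PD2
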