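import Pool.Agent.Work.MP_a6ae3a_lc.Syn

/-!
# The ring of differences of a model of `PA⁻`

`ZM M`: the ordered ring of differences of `M`, with the cast `M → ZM M`. It makes `linarith`,
`nlinarith`, `IsCoprime` available.
-/

namespace Pool.Agent.PD2

/-- Equality of differences. -/
def zSetoid (M : Type) [PAM M] : Setoid (M × M) where
  r p q := p.1 + q.2 = q.1 + p.2
  iseqv := ⟨fun _ => rfl, fun h => h.symm, fun {a b c} h1 h2 => by grind⟩

/-- The ring of differences of `M`. -/
def ZM (M : Type) [PAM M] : Type := Quotient (zSetoid M)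

namespace ZM

variable {M : Type} [PAM M]

/-- The difference of two elements. -/
def mk (a b : M) : ZM M := Quotient.mk (zSetoid M) (a, b)

theorem mk_eq {a b c d : M} : mk a b = mk c d ↔ a + d = c + b :=
  ⟨fun h => Quotient.exact h, fun h => Quotient.sound h⟩

theorem ind {P : ZM M → Prop} (h : ∀ a b, P (mk a b)) (x : ZM M) : P x :=
  Quotient.inductionOn x (fun p => h p.1 p.2)

instance : Zero (ZM M) := ⟨mk 0 0⟩
instance : One (ZM M) := ⟨mk 1 0⟩
instance : Add (ZM M) := ⟨fun x y => Quotient.liftOn₂ x y (fun p q => mk (p.1 + q.1) (p.2 + q.2))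
  (by
    rintro ⟨a, b⟩ ⟨c, d⟩ ⟨a', b'⟩ ⟨c', d'⟩ (h1 : a + b' = a' + b) (h2 : c + d' = c' + d)
    rw [mk_eq]; grind)⟩
instance : Mul (ZM M) := ⟨fun x y => Quotient.liftOn₂ x y
  (fun p q => mk (p.1 * q.1 + p.2 * q.2) (p.1 * q.2 + p.2 * q.1))
  (by
    rintro ⟨a, b⟩ ⟨c, d⟩ ⟨a', b'⟩ ⟨c', d'⟩ (h1 : a + b' = a' + b) (h2 : c + d' = c' + d)
    rw [mk_eq]; grind)⟩
instance : Neg (ZM M) := ⟨fun x => Quotient.liftOn x (fun p => mk p.2 p.1)
  (by
    rintro ⟨a, b⟩ ⟨a', b'⟩ (h1 : a + b' = a' + b)
    rw [mk_eq]; grind)⟩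

theorem zero_def : (0 : ZM M) = mk 0 0 := rfl
theorem one_def : (1 : ZM M) = mk 1 0 := rfl
theorem mk_add (a b c d : M) : mk a b + mk c d = mk (a + c) (b + d) := rfl
theorem mk_mul (a b c d : M) : mk a b * mk c d = mk (a * c + b * d) (a * d + b * c) := rfl
theorem mk_neg (a b : M) : -mk a b = mk b a := rfl

instance : CommRing (ZM M) where
  add_assoc x y z := by
    induction x using ind; induction y using ind; induction z using ind
    simp only [mk_add, mk_eq]; grind
  zero_add x := by
    induction x using ind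
    simp only [zero_def, mk_add, mk_eq]; grind
  add_zero x := by
    induction x using ind
    simp only [zero_def, mk_add, mk_eq]; grind
  add_comm x y := by
    induction x using ind; induction y using ind
    simp only [mk_add, mk_eq]; grind
  neg_add_cancel x := by
    induction x using ind
    simp only [zero_def, mk_add, mk_neg, mk_eq]; grind
  mul_assoc x y z := by
    induction x using ind; induction y using ind; induction z using ind
    simp only [mk_mul, mk_eq]; grind
  one_mul x := by
    induction x using ind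
    simp only [one_def, mk_mul, mk_eq]; grind
  mul_one x := by
    induction x using ind
    simp only [one_def, mk_mul, mk_eq]; grind
  mul_comm x y := by
    induction x using ind; induction y using ind
    simp only [mk_mul, mk_eq]; grind
  left_distrib x y z := by
    induction x using ind; induction y using ind; induction z using ind
    simp only [mk_mul, mk_add, mk_eq]; grind
  right_distrib x y z := by
    induction x using ind; induction y using ind; induction z using ind
    simp only [mk_mul, mk_add, mk_eq]; grind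
  zero_mul x := by
    induction x using ind
    simp only [zero_def, mk_mul, mk_eq]; grind
  mul_zero x := by
    induction x using ind
    simp only [zero_def, mk_mul, mk_eq]; grind
  nsmul := nsmulRec
  zsmul := zsmulRec

instance : LE (ZM M) := ⟨fun x y => Quotient.liftOn₂ x y (fun p q => p.1 + q.2 ≤ q.1 + p.2)
  (by
    rintro ⟨a, b⟩ ⟨c, d⟩ ⟨a', b'⟩ ⟨c', d'⟩ (h1 : a + b' = a' + b) (h2 : c + d' = c' + d)
    apply propext
    show a + d ≤ c + b ↔ a' + d' ≤ c' + b'
    constructor
    · intro h
      have h3 : (a + d) + (b' + d') ≤ (c + b) + (b' + d') := add_le_add_left h _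
      grind
    · intro h
      have h3 : (a' + d') + (b + d) ≤ (c' + b') + (b + d) := add_le_add_left h _
      grind)⟩

theorem mk_le {a b c d : M} : mk a b ≤ mk c d ↔ a + d ≤ c + b := Iff.rfl

noncomputable instance : LinearOrder (ZM M) where
  le_refl x := by
    induction x using ind
    simp only [mk_le]; grind
  le_trans x y z h1 h2 := by
    induction x using ind with | h a b
    induction y using ind with | h c d
    induction z using ind with | h e f
    rw [mk_le] at h1 h2 ⊢
    grind
  le_antisymm x y h1 h2 := by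
    induction x using ind; induction y using ind
    rw [mk_le] at h1 h2
    rw [mk_eq]
    exact le_antisymm h1 h2
  le_total x y := by
    induction x using ind; induction y using ind
    simp only [mk_le]
    exact le_total _ _
  toDecidableLE := Classical.decRel _

instance : IsOrderedAddMonoid (ZM M) where
  add_le_add_left x y h z := by
    induction x using ind; induction y using ind; induction z using ind
    simp only [mk_add, mk_le] at h ⊢
    grind

instance : ZeroLEOneClass (ZM M) := ⟨by
  rw [zero_def, one_def, mk_le]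
  exact add_le_add_left zero_le _⟩

instance : Nontrivial (ZM M) := ⟨0, 1, by
  rw [zero_def, one_def, Ne, mk_eq]
  simp⟩

theorem pos_iff {x : ZM M} : 0 < x ↔ ∃ a : M, 0 < a ∧ x = mk a 0 := by
  induction x using ind with | h a b
  rw [lt_iff_not_ge, zero_def, mk_le]
  constructor
  · intro h
    have h1 : b < a := by grind
    obtain ⟨c, rfl⟩ := exists_add_of_le h1.le
    refine ⟨c, ?_, ?_⟩
    · exact (pos_of_lt_add_right h1)
    · rw [mk_eq]; grind
  · rintro ⟨c, hc, h⟩
    rw [mk_eq] at h
    grind

instance : IsStrictOrderedRing (ZM M) := IsStrictOrderedRing.of_mul_pos (by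
  intro x y hx hy
  obtain ⟨a, ha, rfl⟩ := pos_iff.1 hx
  obtain ⟨b, hb, rfl⟩ := pos_iff.1 hy
  refine pos_iff.2 ⟨a * b, mul_pos ha hb, ?_⟩
  rw [mk_mul, mk_eq]; grind)

/-- The cast of `M` in its ring of differences. -/
@[coe] def toZ (a : M) : ZM M := mk a 0

instance : CoeTail M (ZM M) := ⟨toZ⟩

@[simp, norm_cast] theorem toZ_zero : ((0 : M) : ZM M) = 0 := rfl
@[simp, norm_cast] theorem toZ_one : ((1 : M) : ZM M) = 1 := rfl
@[simp, norm_cast] theorem toZ_add (a b : M) : ((a + b : M) : ZM M) = a + b := by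
  rw [toZ, toZ, toZ, mk_add, mk_eq]; grind
@[simp, norm_cast] theorem toZ_mul (a b : M) : ((a * b : M) : ZM M) = a * b := by
  rw [toZ, toZ, toZ, mk_mul, mk_eq]; grind
@[simp, norm_cast] theorem toZ_inj {a b : M} : (a : ZM M) = b ↔ a = b := by
  rw [toZ, toZ, mk_eq]; simp
@[simp, norm_cast] theorem toZ_le {a b : M} : (a : ZM M) ≤ b ↔ a ≤ b := by
  rw [toZ, toZ, mk_le]; simp
@[simp, norm_cast] theorem toZ_lt {a b : M} : (a : ZM M) < b ↔ a < b := by
  rw [lt_iff_not_ge, toZ_le, lt_iff_not_ge]
@[simp, norm_cast] theorem toZ_natCast (n : ℕ) : (((n : ℕ) : M) : ZM M) = n := by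
  induction n with
  | zero => simp
  | succ n ih => rw [Nat.cast_succ, toZ_add, ih, toZ_one, Nat.cast_succ]
@[simp, norm_cast] theorem toZ_ofNat (n : ℕ) [n.AtLeastTwo] :
    ((OfNat.ofNat n : M) : ZM M) = OfNat.ofNat n := toZ_natCast n
@[simp, norm_cast] theorem toZ_pow (a : M) (n : ℕ) : ((a ^ n : M) : ZM M) = a ^ n := by
  induction n with
  | zero => simp
  | succ n ih => rw [pow_succ, toZ_mul, ih, pow_succ]

@[simp] theorem toZ_nonneg (a : M) : (0 : ZM M) ≤ a := by
  rw [← toZ_zero, toZ_le]; exact zero_le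

theorem of_nonneg {x : ZM M} (h : 0 ≤ x) : ∃ a : M, x = a := by
  rcases h.eq_or_lt with h | h
  · exact ⟨0, by rw [toZ_zero, h]⟩
  · obtain ⟨a, _, ha⟩ := pos_iff.1 h
    exact ⟨a, ha⟩

@[norm_cast] theorem toZ_dvd {a b : M} : (a : ZM M) ∣ b ↔ a ∣ b := by
  constructor
  · rintro ⟨z, hz⟩
    rcases (zero_le : (0 : M) ≤ a).eq_or_lt with h | h
    · rw [← h, toZ_zero, zero_mul, ← toZ_zero, toZ_inj] at hz
      rw [hz]; exact dvd_zero _
    · have h1 : 0 ≤ z := by
        by_contra hz'
        push Not at hz'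
        have h2 : (a : ZM M) * z < 0 := mul_neg_of_pos_of_neg (by
          rw [← toZ_zero, toZ_lt]; exact h) hz'
        rw [← hz] at h2
        exact absurd (toZ_nonneg b) (not_le.2 h2)
      obtain ⟨c, rfl⟩ := of_nonneg h1
      exact ⟨c, by rw [← toZ_inj, toZ_mul]; exact hz⟩
  · rintro ⟨c, rfl⟩
    exact ⟨c, toZ_mul _ _⟩

end ZM

end Pool.Agent.PD2
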