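import Pool.Agent.Work.MP_a6ae3a_lc.Cls
import Pool.Agent.Work.MP_a6ae3a_lc.ZR

/-!
# Codes of bounded sets

`x` is in the set with code `c, w` if `1 + (x + 1) c` divides `w`. Every `Δ₁(X)` subset of `[0,n)`
has a code.
-/

namespace Pool.Agent.PD2

variable {M : Type} [PAM M] {X : M → Prop}

/-- Divisibility is `Σ₁` (with a bounded witness `Δ₁`). -/
theorem dvd_iff_le {a b : M} : a ∣ b ↔ (∃ z, z ≤ b ∧ b = a * z) := by
  constructor
  · rintro ⟨z, rfl⟩
    rcases eq_zero_or_succ a with rfl | ⟨a, rfl⟩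
    · exact ⟨0, zle _, by rw [zero_mul, zero_mul]⟩
    · refine ⟨z, ?_, rfl⟩
      calc z = 1 * z := (one_mul z).symm
        _ ≤ (a + 1) * z := by gcongr; exact le_add_self
  · rintro ⟨z, _, h⟩
    exact ⟨z, h⟩

instance d1_dvd [I1 X] {f g : (ℕ → M) → M} [hf : F1 X f] [hg : F1 X g] :
    D1 X (fun v => f v ∣ g v) := by
  refine D1.s2 (P := fun a b => a ∣ b) ?_ hf hg
  exact D1.congr (R := fun v : ℕ → M => ∃ z, z ≤ v 1 ∧ v 1 = v 0 * z) inferInstance
    fun v => dvd_iff_le.symm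

/-- There are common multiples of all numbers below `n`. -/
theorem exists_mult (X : M → Prop) [I1 X] (n : M) : ∃ c, 0 < c ∧ ∀ i, i < n → i + 1 ∣ c := by
  refine ind_s (X := X) (P := fun n : M => ∃ c : M, 0 < c ∧ ∀ i : M, i < n → i + 1 ∣ c) inferInstance ?_ ?_ n
  · exact ⟨1, zero_lt_one, fun i hi => absurd hi (not_lt_zero' i)⟩
  · rintro m ⟨c, hc, h⟩
    refine ⟨c * (m + 1), mul_pos hc (lt_of_lt_of_le zero_lt_one le_add_self), fun i hi => ?_⟩
    rcases lt_succ_cases hi with hi | rfl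
    · exact Dvd.dvd.mul_right (h i hi) _
    · exact dvd_mul_left _ _

/-- The moduli. -/
def mo (c x : M) : M := 1 + (x + 1) * c

theorem mo_pos (c x : M) : 0 < mo c x := lt_of_lt_of_le zero_lt_one le_self_add

instance f1_mo {f g : (ℕ → M) → M} [hf : F1 X f] [hg : F1 X g] :
    F1 X (fun v => mo (f v) (g v)) := by
  unfold mo
  infer_instance

/-- The moduli are coprime. -/
theorem mo_coprime {c n : M} (hc : ∀ i, i < n → i + 1 ∣ c) {x y : M} (hy : y < n)
    (hxy : x < y) : IsCoprime ((mo c x : M) : ZM M) (mo c y : M) := by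
  obtain ⟨k, rfl⟩ := exists_add_of_le (succ_le_iff.2 hxy)
  have hk : k < n := lt_of_le_of_lt (by
    calc k ≤ x + 1 + k := le_add_self
      _ = x + 1 + k := rfl) hy
  obtain ⟨d, hd⟩ := hc k hk
  refine ⟨1 - (x + 1) * d * (x + 1 + k + 1), (x + 1) * d * (x + 1), ?_⟩
  unfold mo
  rw [hd]
  push_cast
  ring

theorem dvd_mul_mo {c n : M} (hc : ∀ i, i < n → i + 1 ∣ c) {x y w : M} (hx : x < n) (hy : y < n) :
    mo c x ∣ w * mo c y ↔ mo c x ∣ w ∨ x = y := by
  constructor
  · intro h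
    rcases lt_trichotomy x y with h1 | h1 | h1
    · left
      have h2 : ((mo c x : M) : ZM M) ∣ (w : ZM M) * (mo c y : M) := by
        exact_mod_cast (ZM.toZ_dvd.2 h)
      exact ZM.toZ_dvd.1 ((mo_coprime hc hy h1).dvd_of_dvd_mul_right h2)
    · exact Or.inr h1
    · left
      have h2 : ((mo c x : M) : ZM M) ∣ (w : ZM M) * (mo c y : M) := by
        exact_mod_cast (ZM.toZ_dvd.2 h)
      exact ZM.toZ_dvd.1 ((mo_coprime hc hx h1).symm.dvd_of_dvd_mul_right h2)
  · rintro (h | rfl)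
    · exact Dvd.dvd.mul_right h _
    · exact dvd_mul_left _ _

theorem not_mo_dvd_one {c x : M} (hc : 0 < c) : ¬ mo c x ∣ 1 := by
  intro h
  have h1 : mo c x ≤ 1 := by
    obtain ⟨z, hz⟩ := h
    rcases eq_zero_or_succ z with rfl | ⟨z, rfl⟩
    · rw [mul_zero] at hz
      exact absurd hz one_ne_zero
    · calc mo c x = mo c x * 1 := (mul_one _).symm
        _ ≤ mo c x * (z + 1) := by gcongr; exact le_add_self
        _ = 1 := hz.symm
  have h2 : 1 < mo c x := by
    unfold mo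
    refine lt_add_of_pos_right _ (mul_pos (lt_of_lt_of_le zero_lt_one le_add_self) hc)
  exact absurd h1 (not_le.2 h2)

/-- Comprehension for a given modulus. -/
theorem code_mo [I1 X] {P : M → Prop} (hP : D1 X (fun v => P (v 0))) {n c : M} (hc0 : 0 < c)
    (hc : ∀ i, i < n → i + 1 ∣ c) : ∃ w, 0 < w ∧ ∀ x, x < n → (P x ↔ mo c x ∣ w) := by
  have key : ∀ k : M, k ≤ n → ∃ w : M, 0 < w ∧ ∀ x : M, x < n → ((x < k ∧ P x) ↔ mo c x ∣ w) := by
    intro k
    refine ind_s (X := X) (P := fun k : M => k ≤ n → ∃ w : M, 0 < w ∧ ∀ x : M, x < n →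
      ((x < k ∧ P x) ↔ mo c x ∣ w)) ?_ ?_ ?_ k
    · have : D1 X (fun v : ℕ → M => P (v 0)) := hP
      infer_instance
    · intro _
      refine ⟨1, zero_lt_one, fun x hx => ?_⟩
      constructor
      · rintro ⟨h, _⟩
        exact absurd h (not_lt_zero' x)
      · intro h
        exact absurd h (not_mo_dvd_one hc0)
    · intro k ih hk
      have hkn : k < n := succ_le_iff.1 hk
      obtain ⟨w, hw, h⟩ := ih hkn.le
      by_cases hPk : P k
      · refine ⟨w * mo c k, mul_pos hw (mo_pos c k), fun x hx => ?_⟩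
        rw [dvd_mul_mo hc hx hkn, ← h x hx]
        constructor
        · rintro ⟨h1, h2⟩
          rcases lt_succ_cases h1 with h1 | h1
          · exact Or.inl ⟨h1, h2⟩
          · exact Or.inr h1
        · rintro (⟨h1, h2⟩ | rfl)
          · exact ⟨lt_trans h1 (lt_succ_self k), h2⟩
          · exact ⟨lt_succ_self x, hPk⟩
      · refine ⟨w, hw, fun x hx => ?_⟩
        rw [← h x hx]
        constructor
        · rintro ⟨h1, h2⟩
          rcases lt_succ_cases h1 with h1 | rfl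
          · exact ⟨h1, h2⟩
          · exact absurd h2 hPk
        · rintro ⟨h1, h2⟩
          exact ⟨lt_trans h1 (lt_succ_self k), h2⟩
  obtain ⟨w, hw, h⟩ := key n le_rfl
  exact ⟨w, hw, fun x hx => by rw [← h x hx]; exact ⟨fun h => ⟨hx, h⟩, fun h => h.2⟩⟩

/-- Comprehension. -/
theorem code_d (X : M → Prop) [I1 X] {P : M → Prop} (hP : D1 X (fun v => P (v 0))) (n : M) :
    ∃ c w, 0 < w ∧ ∀ x, x < n → (P x ↔ 1 + (x + 1) * c ∣ w) := by
  obtain ⟨c, hc, h⟩ := exists_mult X n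
  obtain ⟨w, hw, h2⟩ := code_mo hP hc h
  exact ⟨c, w, hw, h2⟩

end Pool.Agent.PD2
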