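import Pool.Agent.Work.MP_a6ae3a_lc.Cls

/-!
# Pure `Σ₁` induction and the lift from the empty set to every set

`eS M`: the empty set. `IM M`: `Σ₁` induction for the empty set. Every class `DP`, `S1`, `D1`,
`F1` over the empty set gives the same class over every set.
-/

namespace Pool.Agent.PD2

variable {M : Type} [PAM M] {X : M → Prop}

/-- The empty set. -/
def eS (M : Type) : M → Prop := fun _ => False

/-- Replace the atoms with the set by a false atom. -/
def RF.emp : RF → RF
  | .add i j k => .add i j k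
  | .mul i j k => .mul i j k
  | .eq i j => .eq i j
  | .lt i j => .lt i j
  | .mem i => .neg (.eq i i)
  | .neg f => .neg f.emp
  | .and f g => .and f.emp g.emp
  | .all i f => .all i f.emp

theorem RF.holds_emp (X : M → Prop) : ∀ (f : RF) (v : ℕ → M),
    f.emp.holds X v ↔ f.holds (eS M) v
  | .add _ _ _, _ => Iff.rfl
  | .mul _ _ _, _ => Iff.rfl
  | .eq _ _, _ => Iff.rfl
  | .lt _ _, _ => Iff.rfl
  | .mem _, v => by simp only [RF.emp, RF.holds, eS, not_true]
  | .neg f, v => not_congr (RF.holds_emp X f v)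
  | .and f g, v => and_congr (RF.holds_emp X f v) (RF.holds_emp X g v)
  | .all i f, v => by
    simp only [RF.emp, RF.holds]
    exact forall_congr' fun x => imp_congr_right fun _ => RF.holds_emp X f (psh x v)

theorem DP.lift {R : (ℕ → M) → Prop} (h : DP (eS M) R) : DP X R := by
  obtain ⟨f, c, hf⟩ := h.ex
  exact ⟨⟨f.emp, c, fun v => (hf v).trans (RF.holds_emp X f _).symm⟩⟩

theorem S1.lift {R : (ℕ → M) → Prop} (h : S1 (eS M) R) : S1 X R := by
  obtain ⟨f, c, hf⟩ := h.ex
  exact ⟨⟨f.emp, c, fun v => (hf v).trans (exists_congr fun y => (RF.holds_emp X f _).symm)⟩⟩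

theorem D1.lift {R : (ℕ → M) → Prop} (h : D1 (eS M) R) : D1 X R := ⟨h.s.lift, h.p.lift⟩

theorem F1.lift {f : (ℕ → M) → M} (h : F1 (eS M) f) : F1 X f := ⟨h.g.lift⟩

/-- Pure `Σ₁` induction. -/
class IM (M : Type) [PAM M] : Prop where
  i1 : I1 (eS M)

instance i1_eS [IM M] : I1 (eS M) := IM.i1

/-- `Σ₁(X)` induction gives pure `Σ₁` induction. -/
theorem IM.of (X : M → Prop) [hI : I1 X] : IM M := ⟨⟨fun P hP h0 hs => hI.ind P hP.lift h0 hs⟩⟩

end Pool.Agent.PD2
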