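import Pool.Agent.Work.MP_a6ae3a_lc.Rec
import Pool.Agent.Work.MP_a6ae3a_lc.IM
import Pool.Agent.Work.MP_a6ae3a_lc.Code

/-!
# The recursion theorem
-/

namespace Pool.Agent.PD2

variable {M : Type} [PAM M] {X : M → Prop}

/-- Membership in the set coded by `s`. -/
def El0 (x s : M) : Prop := ∃ c, c ≤ s ∧ ∃ w, w ≤ s ∧ (s = qp c w ∧ 1 + (x + 1) * c ∣ w)

instance coding_el0 [I1 X] : Coding X (El0 (M := M)) where
  d1 := by unfold El0; infer_instance
  comp := by
    intro P hP n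
    obtain ⟨c, w, _, h⟩ := code_d X hP n
    refine ⟨qp c w, fun x hx => ?_⟩
    rw [h x hx]
    constructor
    · rintro ⟨c', _, w', _, h1, h2⟩
      obtain ⟨rfl, rfl⟩ := qp_inj.1 h1
      exact h2
    · intro h2
      exact ⟨c, qp_le_left c w, w, qp_le_right c w, rfl, h2⟩

/-- The recursion theorem. -/
theorem prim_rec [I1 X] {G : (ℕ → M) → M} {H : M → M → (ℕ → M) → M} (hG : F1 X G)
    (hH : F1 X (fun v => H (v 0) (v 1) (fun i => v (i + 2)))) :
    ∃ f : M → (ℕ → M) → M, (∀ v, f 0 v = G v) ∧ (∀ n v, f (n + 1) v = H n (f n v) v) ∧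
      F1 X (fun v => f (v 0) (fun i => v (i + 1))) := prim_rec' El0 hG hH

/-- Recursion without parameters. -/
theorem prim0 [I1 X] (a : M) {h : M → M → M} (hh : F1 X (fun v => h (v 0) (v 1))) :
    ∃ f : M → M, f 0 = a ∧ (∀ n, f (n + 1) = h n (f n)) ∧ F1 X (fun v => f (v 0)) :=
  prim0' El0 a hh

/-- Recursion with one parameter. -/
theorem prim1 [I1 X] {g : M → M} {h : M → M → M → M} (hg : F1 X (fun v => g (v 0)))
    (hh : F1 X (fun v => h (v 0) (v 1) (v 2))) :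
    ∃ f : M → M → M, (∀ p, f 0 p = g p) ∧ (∀ n p, f (n + 1) p = h n (f n p) p) ∧
      F1 X (fun v => f (v 0) (v 1)) := prim1' El0 hg hh

/-- Recursion with two parameters. -/
theorem prim2 [I1 X] {g : M → M → M} {h : M → M → M → M → M}
    (hg : F1 X (fun v => g (v 0) (v 1))) (hh : F1 X (fun v => h (v 0) (v 1) (v 2) (v 3))) :
    ∃ f : M → M → M → M, (∀ p q, f 0 p q = g p q) ∧
      (∀ n p q, f (n + 1) p q = h n (f n p q) p q) ∧ F1 X (fun v => f (v 0) (v 1) (v 2)) :=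
  prim2' El0 hg hh

/-! ### Pure recursion -/

/-- Recursion without parameters, for all oracles at once. -/
theorem prim0_im [IM M] (a : M) {h : M → M → M} (hh : F1 (eS M) (fun v => h (v 0) (v 1))) :
    ∃ f : M → M, f 0 = a ∧ (∀ n, f (n + 1) = h n (f n)) ∧
      ∀ X : M → Prop, F1 X (fun v => f (v 0)) := by
  obtain ⟨f, h0, h1, h2⟩ := prim0 a hh
  exact ⟨f, h0, h1, fun _ => h2.lift⟩

/-- Recursion with one parameter, for all oracles at once. -/
theorem prim1_im [IM M] {g : M → M} {h : M → M → M → M} (hg : F1 (eS M) (fun v => g (v 0)))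
    (hh : F1 (eS M) (fun v => h (v 0) (v 1) (v 2))) :
    ∃ f : M → M → M, (∀ p, f 0 p = g p) ∧ (∀ n p, f (n + 1) p = h n (f n p) p) ∧
      ∀ X : M → Prop, F1 X (fun v => f (v 0) (v 1)) := by
  obtain ⟨f, h0, h1, h2⟩ := prim1 hg hh
  exact ⟨f, h0, h1, fun _ => h2.lift⟩

/-- Recursion with two parameters, for all oracles at once. -/
theorem prim2_im [IM M] {g : M → M → M} {h : M → M → M → M → M}
    (hg : F1 (eS M) (fun v => g (v 0) (v 1)))
    (hh : F1 (eS M) (fun v => h (v 0) (v 1) (v 2) (v 3))) :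
    ∃ f : M → M → M → M, (∀ p q, f 0 p q = g p q) ∧
      (∀ n p q, f (n + 1) p q = h n (f n p q) p q) ∧
      ∀ X : M → Prop, F1 X (fun v => f (v 0) (v 1) (v 2)) := by
  obtain ⟨f, h0, h1, h2⟩ := prim2 hg hh
  exact ⟨f, h0, h1, fun _ => h2.lift⟩

end Pool.Agent.PD2
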