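import Pool.Agent.Work.MP_a6ae3a_lc.Bits2S

/-!
# Coded functions

`ap c i` is the value at `i` of the coded function `c`, `tab n f` the code of `f` on `[0, n)`;
finite choice. `X` satisfies `Σ₁(X)` collection and its initial segments are coded.
-/

set_option linter.unusedSectionVars false

namespace Pool.Agent.PD2

variable {M : Type} [PAM M] {X : M → Prop} [IM M]

/-! ### Coded functions -/

open Classical in
/-- Value at `i` of the function coded by `c` (the least `y` with `pr i y` in `c`, or `0`). -/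
noncomputable def ap (c i : M) : M :=
  if h : ∃ y, Bt c (pr i y) ∧ ∀ z, z < y → ¬ Bt c (pr i z) then h.choose else 0

theorem ap_mu (c i : M) : ap c i = mu c (fun y => Bt c (pr i y)) := by
  unfold ap mu
  have e : (∃ y, Bt c (pr i y) ∧ ∀ z, z < y → ¬ Bt c (pr i z)) ↔
      ∃ y, y < c ∧ Bt c (pr i y) ∧ ∀ z, z < y → ¬ Bt c (pr i z) :=
    exists_congr fun y => ⟨fun h => ⟨lt_of_le_of_lt (le_pr_right i y) h.1.lt, h⟩, fun h => h.2⟩
  by_cases h : ∃ y, Bt c (pr i y) ∧ ∀ z, z < y → ¬ Bt c (pr i z)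
  · rw [dif_pos h, dif_pos (e.1 h)]
    have h1 := h.choose_spec
    have h2 := (e.1 h).choose_spec
    rcases lt_trichotomy h.choose (e.1 h).choose with h3 | h3 | h3
    · exact absurd h1.1 (h2.2.2 _ h3)
    · exact h3
    · exact absurd h2.2.1 (h1.2 _ h3)
  · rw [dif_neg h, dif_neg fun h' => h (e.2 h')]

instance f1_ap {f g : (ℕ → M) → M} [hf : F1 X f] [hg : F1 X g] : F1 X (fun v => ap (f v) (g v)) :=
  F1.s2 (f := ap) (F1.lift (by simp only [ap_mu]; infer_instance)) hf hg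

theorem ap_eq {c i y : M} (h : Bt c (pr i y)) (hu : ∀ z, z < y → ¬ Bt c (pr i z)) : ap c i = y := by
  rw [ap_mu]
  exact mu_eq (lt_of_le_of_lt (le_pr_right i y) h.lt) h hu

theorem ap_none {c i : M} (h : ∀ y, ¬ Bt c (pr i y)) : ap c i = 0 := by
  rw [ap_mu]
  exact mu_none fun y _ => h y

theorem bt_ap {c i y : M} (h : Bt c (pr i y)) : Bt c (pr i (ap c i)) := by
  rw [ap_mu]
  exact (mu_spec (eS M) (b := c) (P := fun y => Bt c (pr i y)) (by infer_instance)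
    ⟨y, lt_of_le_of_lt (le_pr_right i y) h.lt, h⟩).2.1

theorem ap_le (c i : M) : ap c i ≤ c := by
  by_cases h : ∃ y, Bt c (pr i y)
  · obtain ⟨y, hy⟩ := h
    exact le_trans (le_pr_right i _) (bt_ap hy).lt.le
  · push Not at h
    rw [ap_none h]
    exact zle c

open Classical in
/-- The code of the restriction of `f` to `[0, n)`. -/
noncomputable def tab (n : M) (f : M → M) : M :=
  if h : ∃ c, ∀ x, Bt c x ↔ ∃ i, i < n ∧ x = pr i (f i) then h.choose else 0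

theorem tab_ex (X : M → Prop) [C1 X] [Reg X] {f : M → M} (hf : F1 X (fun v => f (v 0))) (n : M) :
    ∃ c, ∀ x, Bt c x ↔ ∃ i, i < n ∧ x = pr i (f i) := by
  obtain ⟨b, hb⟩ := coll_s (X := X) (P := fun i y => y = f i)
    (S1.s2 (P := fun y i => y = f i) hf.g (f1_var 1) (f1_var 0)) n (fun i _ => ⟨f i, rfl⟩)
  have hf1 : F1 X (fun v : ℕ → M => f (v 0)) := hf
  obtain ⟨c, hc⟩ := ex_code X (P := fun x => ∃ i, i < n ∧ x = pr i (f i)) (by infer_instance)
    (pr n b + 1)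
  refine ⟨c, fun x => ?_⟩
  rw [hc]
  refine and_iff_right_of_imp ?_
  rintro ⟨i, hi, rfl⟩
  obtain ⟨y, hy, rfl⟩ := hb i hi
  exact lt_succ_iff.2 (pr_mono hi.le hy.le)

theorem bt_tab' {n : M} {f : M → M} (h : ∃ c, ∀ x, Bt c x ↔ ∃ i, i < n ∧ x = pr i (f i)) (x : M) :
    Bt (tab n f) x ↔ ∃ i, i < n ∧ x = pr i (f i) := by
  unfold tab
  rw [dif_pos h]
  exact h.choose_spec x

theorem bt_tab (X : M → Prop) [C1 X] [Reg X] {f : M → M} (hf : F1 X (fun v => f (v 0))) (n x : M) :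
    Bt (tab n f) x ↔ ∃ i, i < n ∧ x = pr i (f i) := bt_tab' (tab_ex X hf n) x

theorem ap_tab' {n i : M} {f : M → M} (h : ∃ c, ∀ x, Bt c x ↔ ∃ i, i < n ∧ x = pr i (f i))
    (hi : i < n) : ap (tab n f) i = f i := by
  refine ap_eq ((bt_tab' h _).2 ⟨i, hi, rfl⟩) fun z hz hb => ?_
  obtain ⟨j, _, hj⟩ := (bt_tab' h _).1 hb
  obtain ⟨rfl, rfl⟩ := pr_inj.1 hj
  exact lt_irrefl _ hz

theorem ap_tab (X : M → Prop) [C1 X] [Reg X] {f : M → M} (hf : F1 X (fun v => f (v 0))) {n i : M}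
    (hi : i < n) : ap (tab n f) i = f i := ap_tab' (tab_ex X hf n) hi

theorem tab_eq {n c : M} {f : M → M} (h : ∀ x, Bt c x ↔ ∃ i, i < n ∧ x = pr i (f i)) :
    tab n f = c := bt_ext fun x => by rw [bt_tab' ⟨c, h⟩, h]

theorem tab_congr {n : M} {f g : M → M} (h : ∀ i, i < n → f i = g i) : tab n f = tab n g := by
  have e : ∀ x, (∃ i, i < n ∧ x = pr i (f i)) ↔ ∃ i, i < n ∧ x = pr i (g i) := fun x =>
    exists_congr fun i => and_congr_right fun hi => by rw [h i hi]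
  by_cases hf : ∃ c, ∀ x, Bt c x ↔ ∃ i, i < n ∧ x = pr i (f i)
  · obtain ⟨c, hc⟩ := hf
    rw [tab_eq hc, tab_eq (f := g) (fun x => (hc x).trans (e x))]
  · have hg : ¬ ∃ c, ∀ x, Bt c x ↔ ∃ i, i < n ∧ x = pr i (g i) := by
      rintro ⟨c, hc⟩
      exact hf ⟨c, fun x => (hc x).trans (e x).symm⟩
    unfold tab
    rw [dif_neg hf, dif_neg hg]

theorem ap_tab_ge' {n i : M} {f : M → M} (h : ∃ c, ∀ x, Bt c x ↔ ∃ i, i < n ∧ x = pr i (f i))
    (hi : n ≤ i) : ap (tab n f) i = 0 := by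
  refine ap_none fun y hy => ?_
  obtain ⟨j, hj, e⟩ := (bt_tab' h _).1 hy
  obtain ⟨rfl, _⟩ := pr_inj.1 e
  exact absurd hj (not_lt.2 hi)

theorem ap_tab_ge (X : M → Prop) [C1 X] [Reg X] {f : M → M} (hf : F1 X (fun v => f (v 0)))
    {n i : M} (hi : n ≤ i) : ap (tab n f) i = 0 := ap_tab_ge' (tab_ex X hf n) hi

theorem tab_lt' {n k : M} {f : M → M} (h : ∃ c, ∀ x, Bt c x ↔ ∃ i, i < n ∧ x = pr i (f i))
    (hk : ∀ i, i < n → f i < k) : tab n f < tw (pr n k) := by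
  refine lt_tw_iff.2 fun x hx => ?_
  obtain ⟨i, hi, rfl⟩ := (bt_tab' h _).1 hx
  exact pr_lt hi (hk i hi)

theorem tab_lt (X : M → Prop) [C1 X] [Reg X] {f : M → M} (hf : F1 X (fun v => f (v 0))) {n k : M}
    (hk : ∀ i, i < n → f i < k) : tab n f < tw (pr n k) := tab_lt' (tab_ex X hf n) hk

instance f1_tab [C1 X] [Reg X] {n : (ℕ → M) → M} {f : M → (ℕ → M) → M} [hn : F1 X n]
    [hf : F1 X (fun v => f (v 0) (fun i => v (i + 1)))] :
    F1 X (fun v => tab (n v) (fun i => f i v)) := by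
  have h1 : F1 X (fun v : ℕ → M => f (v 0) (fun i => v (i + 1 + 1))) := F1.tail1 hf
  have h1' : F1 X (fun v : ℕ → M => f (v 0) (fun i => v (i + 1 + 1 + 1))) := F1.tail2 hf
  have h2 : F1 X (fun v : ℕ → M => n (fun i => v (i + 1))) := F1.tail hn
  have h3 : F1 X (fun v : ℕ → M => n (fun i => v (i + 1 + 1))) := F1.tail h2
  have k1 : D1 X (fun v : ℕ → M => ∃ i, i < n (fun i => v (i + 1 + 1)) ∧
      v 0 = pr i (f i (fun i => v (i + 1 + 1)))) := by
    refine @d1_ex _ _ _ (fun v => n (fun i => v (i + 1 + 1))) _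
      (fun i v => v 0 = pr i (f i (fun i => v (i + 1 + 1)))) h3 ?_
    exact D1.s3 (P := fun x i y => x = pr i y) inferInstance (f1_var 1) (f1_var 0) h1'
  have k2 : D1 X (fun v : ℕ → M => ∀ x, x < v 0 → (Bt (v 0) x → ∃ i, i < n (fun i => v (i + 1)) ∧
      x = pr i (f i (fun i => v (i + 1))))) := by
    refine @d1_all _ _ _ (fun v => v 0) _ (fun x v => (Bt (v 0) x →
      ∃ i, i < n (fun i => v (i + 1)) ∧ x = pr i (f i (fun i => v (i + 1))))) inferInstance ?_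
    exact @d1_imp _ _ _ _ _ inferInstance k1
  have k3 : D1 X (fun v : ℕ → M => ∀ i, i < n (fun i => v (i + 1)) →
      Bt (v 0) (pr i (f i (fun i => v (i + 1))))) := by
    refine @d1_all _ _ _ (fun v => n (fun i => v (i + 1))) _ (fun i v =>
      Bt (v 0) (pr i (f i (fun i => v (i + 1))))) h2 ?_
    exact D1.s3 (P := fun c i y => Bt c (pr i y)) inferInstance (f1_var 1) (f1_var 0) h1
  refine F1.of_graph (R := fun y v => (∀ x, x < y → (Bt y x → ∃ i, i < n v ∧ x = pr i (f i v))) ∧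
    ∀ i, i < n v → Bt y (pr i (f i v))) (k2.and k3).s ?_
  intro v y
  have hs := bt_tab X (f := fun i => f i v) (F1.fix hf v) (n v)
  constructor
  · rintro rfl
    exact ⟨fun x _ hx => (hs x).1 hx, fun i hi => (hs _).2 ⟨i, hi, rfl⟩⟩
  · rintro ⟨q1, q2⟩
    refine (tab_eq fun x => ⟨fun hx => q1 x hx.lt hx, ?_⟩).symm
    rintro ⟨i, hi, rfl⟩
    exact q2 i hi

/-! ### Finite choice -/

/-- Finite choice for `Σ₁` relations. -/
theorem ex_fun_s {X : M → Prop} [C1 X] [Reg X] {R : M → M → Prop}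
    (hR : S1 X (fun v => R (v 0) (v 1))) (n : M) (h : ∀ i, i < n → ∃ y, R i y) :
    ∃ c, ∀ i, i < n → R i (ap c i) := by
  obtain ⟨Q, hQ, hPQ⟩ := hR.dp
  have hQ1 : D1 X (fun v : ℕ → M => Q (v 0) (psh (v 1) (psh (v 2) (fun _ => 0)))) := by
    have := D1.subF (D1.of_dp hQ) (g := fun i => match i with
      | 0 => fun v => v 0
      | 1 => fun v => v 1
      | 2 => fun v => v 2
      | i + 3 => fun _ => 0) (fun i => by
        match i with
        | 0 => exact f1_var 0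
        | 1 => exact f1_var 1
        | 2 => exact f1_var 2
        | i + 3 => exact f1_const _)
    refine D1.congr this fun v => ?_
    have e : (fun i => (match i + 1 with
        | 0 => fun v => v 0
        | 1 => fun v => v 1
        | 2 => fun v => v 2
        | i + 3 => fun _ => 0 : (ℕ → M) → M) v) = psh (v 1) (psh (v 2) (fun _ => 0)) := by
      funext i
      match i with
      | 0 => rfl
      | 1 => rfl
      | i + 2 => rfl
    rw [← e]
  have hPQ' : ∀ i y, R i y ↔ ∃ z, Q z (psh i (psh y (fun _ => 0))) := fun i y =>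
    hPQ (psh i (psh y (fun _ => 0)))
  have hQ2 : ∀ (g0 g1 g2 : (ℕ → M) → M) [F1 X g0] [F1 X g1] [F1 X g2],
      D1 X (fun v => Q (g0 v) (psh (g1 v) (psh (g2 v) (fun _ => 0)))) := fun g0 g1 g2 _ _ _ =>
    D1.s3 (P := fun a b c => Q a (psh b (psh c (fun _ => 0)))) hQ1 inferInstance inferInstance
      inferInstance
  have hS : S1 X (fun v : ℕ → M => ∃ y, y < v 1 ∧ ∃ z, z < v 1 ∧
      Q z (psh (v 0) (psh y (fun _ => 0)))) := by
    refine @s1_of_d1 _ _ _ _ ?_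
    refine @d1_ex _ _ _ (fun v => v 1) _ (fun y v => ∃ z, z < v 1 ∧
      Q z (psh (v 0) (psh y (fun _ => 0)))) inferInstance ?_
    refine @d1_ex _ _ _ (fun v => v 2) _ (fun z v =>
      Q z (psh (v 1) (psh (v 0) (fun _ => 0)))) inferInstance ?_
    exact hQ2 (fun v => v 0) (fun v => v 2) (fun v => v 1)
  obtain ⟨b, hb⟩ := coll_s (X := X) (P := fun i w => ∃ y, y < w ∧ ∃ z, z < w ∧
      Q z (psh i (psh y (fun _ => 0)))) hS n (fun i hi => by
    obtain ⟨y, hy⟩ := h i hi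
    obtain ⟨z, hz⟩ := (hPQ' i y).1 hy
    obtain ⟨w, h1, h2⟩ := exists_gt2 y z
    exact ⟨w, y, h1, z, h2, hz⟩)
  have hD : D1 X (fun v : ℕ → M => ∃ i, i < n ∧ ∃ y, y < b ∧ v 0 = pr i y ∧ ∃ z, z < b ∧
      Q z (psh i (psh y (fun _ => 0)))) := by
    refine @d1_ex _ _ _ (fun _ => n) _ (fun i v => ∃ y, y < b ∧ v 0 = pr i y ∧ ∃ z, z < b ∧
      Q z (psh i (psh y (fun _ => 0)))) inferInstance ?_
    refine @d1_ex _ _ _ (fun _ => b) _ (fun y v => v 1 = pr (v 0) y ∧ ∃ z, z < b ∧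
      Q z (psh (v 0) (psh y (fun _ => 0)))) inferInstance ?_
    refine @d1_and _ _ _ _ _ inferInstance ?_
    refine @d1_ex _ _ _ (fun _ => b) _ (fun z v =>
      Q z (psh (v 1) (psh (v 0) (fun _ => 0)))) inferInstance ?_
    exact hQ2 (fun v => v 0) (fun v => v 2) (fun v => v 1)
  obtain ⟨c, hc⟩ := ex_code X (P := fun x => ∃ i, i < n ∧ ∃ y, y < b ∧ x = pr i y ∧ ∃ z, z < b ∧
      Q z (psh i (psh y (fun _ => 0)))) hD (pr n b + 1)
  refine ⟨c, fun i hi => ?_⟩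
  obtain ⟨w, hwb, y, hy, z, hz, hq⟩ := hb i hi
  have h1 : Bt c (pr i y) := (hc _).2 ⟨lt_succ_iff.2 (pr_mono hi.le (lt_trans hy hwb).le),
    i, hi, y, lt_trans hy hwb, rfl, z, lt_trans hz hwb, hq⟩
  obtain ⟨-, j, _, y', _, e, z', _, hq'⟩ := (hc _).1 (bt_ap h1)
  obtain ⟨rfl, hy'⟩ := pr_inj.1 e
  rw [hPQ', hy']
  exact ⟨z', hq'⟩

/-- Finite choice for `Δ₁` relations. -/
theorem ex_fun (X : M → Prop) [C1 X] [Reg X] {R : M → M → Prop}
    (hR : D1 X (fun v => R (v 0) (v 1))) (n : M) (h : ∀ i, i < n → ∃ y, R i y) :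
    ∃ c, ∀ i, i < n → R i (ap c i) := ex_fun_s hR.s n h

/-- Bounded choice, with a bound for the code. -/
theorem ex_fun_bd (X : M → Prop) [C1 X] [Reg X] {R : M → M → Prop}
    (hR : D1 X (fun v => R (v 0) (v 1))) (n k : M) (h : ∀ i, i < n → ∃ y, y < k ∧ R i y) :
    ∃ c, c < tw (pr n k) ∧ ∀ i, i < n → ap c i < k ∧ R i (ap c i) := by
  have hR' : ∀ (g0 g1 : (ℕ → M) → M) [F1 X g0] [F1 X g1], D1 X (fun v => R (g0 v) (g1 v)) :=
    fun g0 g1 _ _ => D1.s2 (P := R) hR inferInstance inferInstance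
  have hD : D1 X (fun v : ℕ → M => ∃ i, i < n ∧ ∃ y, y < k ∧ v 0 = pr i y ∧ R i y) := by
    refine @d1_ex _ _ _ (fun _ => n) _ (fun i v => ∃ y, y < k ∧ v 0 = pr i y ∧ R i y)
      inferInstance ?_
    refine @d1_ex _ _ _ (fun _ => k) _ (fun y v => v 1 = pr (v 0) y ∧ R (v 0) y)
      inferInstance ?_
    exact @d1_and _ _ _ _ _ inferInstance (hR' (fun v => v 1) (fun v => v 0))
  obtain ⟨c, hc⟩ := ex_code X (P := fun x => ∃ i, i < n ∧ ∃ y, y < k ∧ x = pr i y ∧ R i y) hD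
    (pr n k)
  refine ⟨c, lt_tw_iff.2 fun x hx => ((hc x).1 hx).1, fun i hi => ?_⟩
  obtain ⟨y, hy, hr⟩ := h i hi
  have h1 : Bt c (pr i y) := (hc _).2 ⟨pr_lt hi hy, i, hi, y, hy, rfl, hr⟩
  obtain ⟨-, j, _, y', hy', e, hr'⟩ := (hc _).1 (bt_ap h1)
  obtain ⟨rfl, e'⟩ := pr_inj.1 e
  rw [e']
  exact ⟨hy', hr'⟩

end Pool.Agent.PD2
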