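import Pool.Agent.Work.MP_a6ae3a_lc.IM

/-!
# Change of the set

`S1.trans`, `D1.trans`, `F1.trans`: if `X` is `Δ₁(Y)` then `Σ₁(X)` relations are `Σ₁(Y)` etc.
-/

namespace Pool.Agent.PD2

variable {M : Type} [PAM M] {X Y : M → Prop}

/-- A bounded formula over `X` is `Δ₁(Y)` if `X` is `Δ₁(Y)`. -/
theorem RF.d1_trans [C1 Y] (h : D1 Y (fun v => X (v 0))) : ∀ f : RF, D1 Y (fun v => f.holds X v)
  | .add i j k => (inferInstance : D1 Y (fun v => v i + v j = v k))
  | .mul i j k => (inferInstance : D1 Y (fun v => v i * v j = v k))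
  | .eq i j => (inferInstance : D1 Y (fun v => v i = v j))
  | .lt i j => (inferInstance : D1 Y (fun v => v i < v j))
  | .mem i => D1.s1 (P := X) (g0 := fun v => v i) h inferInstance
  | .neg f => (RF.d1_trans h f).not
  | .and f g => (RF.d1_trans h f).and (RF.d1_trans h g)
  | .all i f => by
    have h1 := RF.d1_trans h f
    have h2 : D1 Y (fun v : ℕ → M => f.holds X (psh (v 0) (fun j => v (j + 1)))) :=
      D1.congr h1 fun v => by rw [psh_eta]
    exact @d1_all _ _ _ (fun v => v i) _ (fun x v => f.holds X (psh x v)) _ h2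

/-- Change of the set. -/
theorem S1.trans [C1 Y] (h : D1 Y (fun v => X (v 0))) {R : (ℕ → M) → Prop} (hR : S1 X R) :
    S1 Y R := by
  obtain ⟨f, c, hf⟩ := hR.ex
  have h1 : D1 Y (fun v => f.holds X v) := RF.d1_trans h f
  have h2 : S1 Y (fun v : ℕ → M => f.holds X (psh (v 0) (mix (fun i => v (i + 1)) c))) := by
    have h3 := S1.sub h1.s (g := fun i v => match i with
      | 0 => v 0
      | i + 1 => mix (fun i => v (i + 1)) c i) (fun i => by
        cases i with
        | zero => exact vr_var 0
        | succ i =>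
          refine ⟨⟨if i % 2 = 0 then i + 2 else i, c, fun v => ?_⟩⟩
          simp only []
          split_ifs with hi
          · obtain ⟨j, rfl⟩ : ∃ j, i = 2 * j := ⟨i / 2, by omega⟩
            have e : 2 * j + 2 = 2 * (j + 1) := by ring
            rw [e]; simp only [mix_even]
          · obtain ⟨j, rfl⟩ : ∃ j, i = 2 * j + 1 := ⟨i / 2, by omega⟩
            simp only [mix_odd])
    refine S1.congr h3 fun v => ?_
    have e : (fun i => (match i with
        | 0 => v 0
        | i + 1 => mix (fun i => v (i + 1)) c i : M)) =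
        psh (v 0) (mix (fun i => v (i + 1)) c) := by
      funext i; cases i <;> rfl
    rw [← e]
  exact S1.congr (S1.exists (R := fun y v => f.holds X (psh y (mix v c))) h2)
    fun v => (hf v).symm

theorem D1.trans [C1 Y] (h : D1 Y (fun v => X (v 0))) {R : (ℕ → M) → Prop} (hR : D1 X R) :
    D1 Y R := ⟨S1.trans h hR.s, S1.trans h hR.p⟩

theorem F1.trans [C1 Y] (h : D1 Y (fun v => X (v 0))) {f : (ℕ → M) → M} (hf : F1 X f) :
    F1 Y f := ⟨S1.trans h hf.g⟩

end Pool.Agent.PD2
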