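import Pool.Agent.Work.MP_a6ae3a_lc.Bits1
import Pool.Agent.Work.MP_a6ae3a_lc.Pure

/-!
# Regular sets: comprehension and induction for `Δ₁(X)` sets

`Reg X`: the initial segments of `X` are coded. With `C1 X` and `Reg X` the bounded `Δ₁(X)` sets
are coded, and induction and the least element principle hold for `Δ₁(X)` sets.
-/

namespace Pool.Agent.PD2

variable {M : Type} [PAM M]

/-! ### Bounded formulas look at the set below the values of the variables -/

theorem RF.holds_local {X Y : M → Prop} {b : M} (hXY : ∀ x, x < b → (X x ↔ Y x)) :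
    ∀ (f : RF) (v : ℕ → M), (∀ i, i < f.bd → v i < b) → (f.holds X v ↔ f.holds Y v)
  | .add _ _ _, _, _ => Iff.rfl
  | .mul _ _ _, _, _ => Iff.rfl
  | .eq _ _, _, _ => Iff.rfl
  | .lt _ _, _, _ => Iff.rfl
  | .mem i, v, h => hXY _ (h i (by simp only [RF.bd]; omega))
  | .neg f, v, h => not_congr (RF.holds_local hXY f v h)
  | .and f g, v, h => and_congr
      (RF.holds_local hXY f v fun i hi => h i (by simp only [RF.bd]; omega))
      (RF.holds_local hXY g v fun i hi => h i (by simp only [RF.bd]; omega))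
  | .all i f, v, h => by
    simp only [RF.holds]
    refine forall_congr' fun x => imp_congr_right fun hx => RF.holds_local hXY f _ fun j hj => ?_
    cases j with
    | zero => exact lt_trans hx (h i (by simp only [RF.bd]; omega))
    | succ j => exact h j (by simp only [RF.bd]; omega)

/-- Finitely many values are bounded. -/
theorem exists_bd (n : ℕ) (w : ℕ → M) : ∃ b, ∀ i, i < n → w i < b := by
  induction n with
  | zero => exact ⟨0, fun i hi => absurd hi (Nat.not_lt_zero i)⟩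
  | succ n ih =>
    obtain ⟨b, hb⟩ := ih
    obtain ⟨z, h1, h2⟩ := exists_gt2 b (w n)
    refine ⟨z, fun i hi => ?_⟩
    rcases Nat.lt_succ_iff_lt_or_eq.1 hi with h | rfl
    · exact lt_trans (hb i h) h1
    · exact h2

variable [IM M]

/-- Initial segments of `X` are coded. -/
class Reg (X : M → Prop) : Prop where
  reg : ∀ n, ∃ c, ∀ x, Bt c x ↔ x < n ∧ X x

instance reg_of_i1 {X : M → Prop} [I1 X] : Reg X := ⟨fun n => bt_compr_d X inferInstance n⟩

/-! ### Comprehension -/

/-- Bounded relations are coded. -/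
theorem DP.ex_code {X : M → Prop} [Reg X] {R : (ℕ → M) → Prop} (hR : DP X R) (v : ℕ → M) (n : M) :
    ∃ c, ∀ x, Bt c x ↔ x < n ∧ R (psh x v) := by
  obtain ⟨f, p, hf⟩ := hR.ex
  obtain ⟨b, hb⟩ := exists_bd f.bd (mix (psh 0 v) p)
  obtain ⟨m, hbm, hnm⟩ := exists_gt2 b n
  obtain ⟨d, hd⟩ := Reg.reg (X := X) m
  have hd' : ∀ x, x < m → (X x ↔ Bt d x) := fun x hx => by rw [hd]; simp [hx]
  have h1 : ∀ x, x < n → (R (psh x v) ↔ f.holds (fun x => Bt d x) (mix (psh x v) p)) := by
    intro x hx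
    rw [hf]
    refine RF.holds_local hd' f _ fun i hi => ?_
    have h2 := hb i hi
    unfold mix at h2 ⊢
    split_ifs with h3
    · cases h4 : i / 2 with
      | zero => exact lt_trans hx hnm
      | succ j =>
        rw [if_pos h3, h4] at h2
        exact lt_trans h2 hbm
    · rw [if_neg h3] at h2
      exact lt_trans h2 hbm
  have h2 : D1 (eS M) (fun w : ℕ → M => f.holds (fun x => Bt d x) (mix (psh (w 0) v) p)) := by
    have h3 : D1 (eS M) (fun w : ℕ → M => Bt d (w 0)) := inferInstance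
    have h4 := D1.sub (RF.d1_trans h3 f) (g := fun i w => mix (psh (w 0) v) p i) (fun i => by
      unfold mix
      split_ifs
      · cases i / 2 with
        | zero => exact vr_var 0
        | succ j => exact vr_const _
      · exact vr_const _)
    exact h4
  obtain ⟨c, hc⟩ := bt_compr_d (eS M) (R := fun x => f.holds (fun x => Bt d x) (mix (psh x v) p))
    h2 n
  refine ⟨c, fun x => ?_⟩
  rw [hc]
  exact and_congr_right fun hx => (h1 x hx).symm

/-- Bounded `Δ₁` sets are coded (with parameters). -/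
theorem D1.ex_code {X : M → Prop} [C1 X] [Reg X] {R : (ℕ → M) → Prop} (hR : D1 X R)
    (v : ℕ → M) (n : M) : ∃ c, ∀ x, Bt c x ↔ x < n ∧ R (psh x v) := by
  obtain ⟨P, hP, hRP⟩ := hR.s.dp
  obtain ⟨Q, hQ, hRQ⟩ := hR.p.dp
  have hP' : DP X (fun s : ℕ → M => P (s 0) (psh (s 1) v)) := by
    have := DP.sub hP (g := fun i s => psh (s 0) (psh (s 1) v) i) (fun i => by
      match i with
      | 0 => exact vr_var 0
      | 1 => exact vr_var 1
      | i + 2 => exact vr_const _)
    exact this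
  have hQ' : DP X (fun s : ℕ → M => Q (s 0) (psh (s 1) v)) := by
    have := DP.sub hQ (g := fun i s => psh (s 0) (psh (s 1) v) i) (fun i => by
      match i with
      | 0 => exact vr_var 0
      | 1 => exact vr_var 1
      | i + 2 => exact vr_const _)
    exact this
  obtain ⟨b, hb⟩ := coll_s (X := X) (P := fun x y => P y (psh x v) ∨ Q y (psh x v))
    (S1.or (S1.of_dp (DP.sub hP' (g := fun i s => if i = 0 then s 1 else s 0) (fun i => by
      by_cases h : i = 0
      · simp only [h, if_true]; exact vr_var 1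
      · simp only [h, if_false]; exact vr_var 0)))
      (S1.of_dp (DP.sub hQ' (g := fun i s => if i = 0 then s 1 else s 0) (fun i => by
      by_cases h : i = 0
      · simp only [h, if_true]; exact vr_var 1
      · simp only [h, if_false]; exact vr_var 0)))) n (fun x _ => by
      by_cases h : R (psh x v)
      · obtain ⟨y, hy⟩ := (hRP _).1 h
        exact ⟨y, Or.inl hy⟩
      · obtain ⟨y, hy⟩ := (hRQ _).1 h
        exact ⟨y, Or.inr hy⟩)
  have h1 : ∀ x, x < n → (R (psh x v) ↔ ∃ y, y < b ∧ P y (psh x v)) := by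
    intro x hx
    constructor
    · intro h
      obtain ⟨y, hy, h1 | h1⟩ := hb x hx
      · exact ⟨y, hy, h1⟩
      · exact absurd h ((hRQ _).2 ⟨y, h1⟩)
    · rintro ⟨y, _, hy⟩
      exact (hRP _).2 ⟨y, hy⟩
  have h2 : DP X (fun s : ℕ → M => ∃ y, y < b ∧ P y (psh (s 0) v)) :=
    @dp_ex _ _ _ (fun _ => b) (fun y s => P y (psh (s 0) v)) _ hP'
  obtain ⟨c, hc⟩ := DP.ex_code h2 v n
  refine ⟨c, fun x => ?_⟩
  rw [hc]
  exact and_congr_right fun hx => (h1 x hx).symm

/-- Bounded `Δ₁` sets are coded. -/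
theorem ex_code (X : M → Prop) [C1 X] [Reg X] {P : M → Prop} (hP : D1 X (fun v => P (v 0)))
    (n : M) : ∃ c, ∀ x, Bt c x ↔ x < n ∧ P x := D1.ex_code hP (fun _ => 0) n

/-- `Δ₁(X)` sets are regular. -/
theorem Reg.of_d1 (X : M → Prop) [C1 X] [Reg X] {P : M → Prop} (hP : D1 X (fun v => P (v 0))) :
    Reg P := ⟨ex_code X hP⟩

theorem d1_reg_r {X : M → Prop} [C1 X] [Reg X] {P : M → Prop} (hP : D1 X (fun v => P (v 0))) :
    Reg P := ⟨ex_code X hP⟩

/-- `Δ₁(X)` sets are regular if `Σ₁(X)` induction holds. -/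
theorem d1_reg {X : M → Prop} [I1 X] {P : M → Prop} (hP : D1 X (fun v => P (v 0))) :
    Reg P := ⟨bt_compr_d X hP⟩

/-- A `Δ₁` set agrees with a pure `Δ₁` set below a given bound. -/
theorem D1.pure_below {X : M → Prop} [C1 X] [Reg X] {P : M → Prop}
    (hP : D1 X (fun v => P (v 0))) (b : M) :
    ∃ Q : M → Prop, D1 (eS M) (fun v => Q (v 0)) ∧ ∀ x, x < b → (P x ↔ Q x) := by
  obtain ⟨c, hc⟩ := Pool.Agent.PD2.ex_code X hP b
  exact ⟨fun x => Bt c x, inferInstance, fun x hx => by
    show P x ↔ Bt c x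
    rw [hc]; simp [hx]⟩

/-! ### Induction and least elements -/

/-- Induction below the code of a bounded set. -/
theorem ind_code {P : M → Prop} (hP : ∀ n, ∃ c, ∀ x, Bt c x ↔ x < n ∧ P x)
    (h0 : P 0) (hs : ∀ x, P x → P (x + 1)) (x : M) : P x := by
  obtain ⟨c, hc⟩ := hP (x + 1)
  have h1 : ∀ y, y ≤ x → Bt c y := by
    intro y
    refine ind_d (eS M) (P := fun y => y ≤ x → Bt c y) inferInstance ?_ ?_ y
    · intro _
      exact (hc 0).2 ⟨lt_succ_iff.2 (zle x), h0⟩
    · intro y ih hy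
      exact (hc _).2 ⟨lt_succ_iff.2 hy, hs y ((hc y).1 (ih ((lt_succ_self y).le.trans hy))).2⟩
  exact ((hc x).1 (h1 x le_rfl)).2

/-- Least elements of regular sets. -/
theorem least_code {P : M → Prop} (hP : ∀ n, ∃ c, ∀ x, Bt c x ↔ x < n ∧ P x)
    (h : ∃ x, P x) : ∃ x, P x ∧ ∀ y, y < x → ¬ P y := by
  obtain ⟨x, hx⟩ := h
  obtain ⟨c, hc⟩ := hP (x + 1)
  obtain ⟨z, hz, hz'⟩ := least_d (eS M) (P := fun y => Bt c y) inferInstance
    ⟨x, (hc x).2 ⟨lt_succ_self x, hx⟩⟩
  have h1 := (hc z).1 hz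
  exact ⟨z, h1.2, fun y hy hPy => hz' y hy ((hc y).2 ⟨lt_trans hy h1.1, hPy⟩)⟩

/-- Induction for `Δ₁` sets without `Σ₁` induction. -/
theorem ind_r (X : M → Prop) [C1 X] [Reg X] {P : M → Prop} (hP : D1 X (fun v => P (v 0)))
    (h0 : P 0) (hs : ∀ x, P x → P (x + 1)) (x : M) : P x := ind_code (ex_code X hP) h0 hs x

theorem least_r (X : M → Prop) [C1 X] [Reg X] {P : M → Prop} (hP : D1 X (fun v => P (v 0)))
    (h : ∃ x, P x) : ∃ x, P x ∧ ∀ y, y < x → ¬ P y := least_code (ex_code X hP) h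

/-- Induction for regular sets. -/
theorem ind_reg {P : M → Prop} (hP : Reg P) (h0 : P 0) (hs : ∀ x, P x → P (x + 1)) (x : M) :
    P x := ind_code hP.reg h0 hs x

/-- Least elements of regular sets. -/
theorem least_reg {P : M → Prop} (hP : Reg P) (h : ∃ x, P x) :
    ∃ x, P x ∧ ∀ y, y < x → ¬ P y := least_code hP.reg h

/-- `Σ₁` induction from codes of bounded `Σ₁` sets. -/
theorem I1.of_code {X : M → Prop} (h : ∀ P : M → Prop, S1 X (fun v => P (v 0)) →
    ∀ n, ∃ c, ∀ x, Bt c x ↔ x < n ∧ P x) : I1 X := ⟨fun P hP h0 hs => ind_code (h P hP) h0 hs⟩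

end Pool.Agent.PD2
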