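import Pool.Agent.Work.MP_a6ae3a_lc.Univ3
import Pool.Agent.Work.MP_a6ae3a_lc.Reg
import Pool.Agent.Work.MP_a6ae3a_lc.Bits2

/-!
# The normal form for the join
-/

namespace Pool.Agent.PD2

variable {M : Type} [PAM M] [IM M]

/-- Normal form for `Σ₁(X + H)`, `H` regular. -/
theorem cv_jn {X : M → Prop} [I1 X] {H : M → Prop} [Reg H] {R : M → Prop}
    (hR : S1 (jn X H) (fun v => R (v 0))) : ∃ c, ∀ z, R z ↔ ∃ t, Cv X (pr c z) (sc t H) t := by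
  have hs : ∀ t y : M, y < t → (Bt (sc t H) y ↔ H y) := fun t y hy => by
    rw [bt_sc' (Reg.reg t)]
    exact ⟨fun h => h.2, fun h => ⟨hy, h⟩⟩
  obtain ⟨c, hc⟩ := Cv_univ (H := H) (fun t => ⟨sc t H, hs t⟩) hR
  refine ⟨c, fun z => ?_⟩
  rw [hc]
  constructor
  · rintro ⟨u, F, hF, h⟩
    exact ⟨u, cv_mono le_rfl (fun x hx => by rw [hF x hx, hs u x hx]) h⟩
  · rintro ⟨u, h⟩
    exact ⟨u, sc u H, hs u, h⟩

end Pool.Agent.PD2
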