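import Pool.Agent.Work.MP_a6ae3a_lc.Pure
import Pool.Agent.Work.MP_a6ae3a_lc.RecF
import Pool.Agent.Work.MP_a6ae3a_lc.Card2
import Pool.Agent.Work.MP_a6ae3a_lc.Univ
import Pool.Agent.Work.MP_a6ae3a_lc.Jump

/-!
# Nodes and states

The tools (coded sets and functions, `Cv`, the jump, `B2`) and the definitions of nodes and
states.
-/

namespace Pool.Agent.PD2

variable {M : Type} [PAM M]

variable [IM M]

/-! ## Nodes and states (Succ.lean, Seq.lean, Force.lean) -/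

/-- Unboundedness. -/
def Unb (L : M → Prop) : Prop := ∀ n, ∃ x, n ≤ x ∧ L x

/-- The node with the sets `F0 F1 C0 C1`. -/
def nd (F0 F1 C0 C1 : M) : M := pr (pr F0 F1) (pr C0 C1)
/-- The finite set of side `i` of a node. -/
noncomputable def nF (i : Bool) (κ : M) : M := if i then sn (fs κ) else fs (fs κ)
/-- The blocks which are settled on side `i` of a node. -/
noncomputable def nC (i : Bool) (κ : M) : M := if i then sn (sn κ) else fs (sn κ)
/-- Restriction of a node. -/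
noncomputable def nr (κ b : M) : M :=
  nd (rs (nF false κ) b) (rs (nF true κ) b) (rs (nC false κ) b) (rs (nC true κ) b)

/-- The reservoir `R` below `n` respects the node `κ` of level `b`. -/
def Rsp (X : M → Prop) (b κ : M) (R : M → Prop) (n : M) : Prop :=
  ∀ i : Bool, ∀ β, Bt (nC i κ) β → ∀ e, e < β → ∀ E, E < tw n → (∀ x, Bt E x → b ≤ x ∧ R x) →
    Cv X e (un (nF i κ) E) n → Cv X e (nF i κ) b

/-- Nodes of level `b` for `A`. -/
def Nd (A : M → Prop) (b κ : M) : Prop :=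
  κ = nd (nF false κ) (nF true κ) (nC false κ) (nC true κ) ∧
  (∀ i, nF i κ < tw b) ∧ (∀ i, nC i κ < tw b) ∧ (∀ x, Bt (nF false κ) x → A x) ∧
    ∀ x, Bt (nF true κ) x → ¬ A x

/-- Valid states. -/
def Vld (X A : M → Prop) (b K : M) : Prop :=
  (∃ κ, Bt K κ) ∧ (∀ κ, Bt K κ → Nd A b κ) ∧
    ∀ n, ∃ g, (∀ x, b ≤ x → x < n → Bt K (ap g x)) ∧
      ∀ κ, Bt K κ → Rsp X b κ (fun x => x < n ∧ ap g x = κ) n

/-- Children. -/
def Chd (X : M → Prop) (b κ b' κ' : M) : Prop :=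
  (∀ i, rs (nF i κ') b = nF i κ) ∧ (∀ i, rs (nC i κ') b = nC i κ) ∧
  (∀ i, ∃ x, Bt (nF i κ') x ∧ b ≤ x) ∧
  (∃ i, (∀ x, b ≤ x → (Bt (nC i κ') x ↔ x = b)) ∧ ∀ x, b ≤ x → ¬ Bt (nC (!i) κ') x) ∧
  ∀ i : Bool, ∀ β, Bt (nC i κ) β → ∀ e, e < β → Cv X e (nF i κ') b' → Cv X e (nF i κ) b

/-- Successors of states. -/
def Suc (X A : M → Prop) (b K b' K' : M) : Prop :=
  b < b' ∧ Vld X A b K ∧ Vld X A b' K' ∧ ∀ κ', Bt K' κ' → Bt K (nr κ' b) ∧ Chd X b (nr κ' b) b' κ'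

/-- The excluded solutions. -/
def NoSol (X A : M → Prop) : Prop :=
  ¬ ∃ L : M → Prop, Unb L ∧ ((∀ x, L x → A x) ∨ ∀ x, L x → ¬ A x) ∧ B2 (jn X L)

end Pool.Agent.PD2
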