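import Pool.Agent.Work.MP_a6ae3a_lc.Syn

/-!
# `Σ₁` induction, collection, `Δ₁` relations and functions, automation

`I1 X`: `Σ₁(X)` induction. `D1 X R`: `R` is `Δ₁(X)`. `F1 X f`: the function `f` is `Σ₁(X)`.
Closure properties as instances.
-/

namespace Pool.Agent.PD2

variable {M : Type} [PAM M] {X : M → Prop}

/-! ### Order -/

theorem zle (x : M) : 0 ≤ x := zero_le

theorem lt_succ_iff {x y : M} : x < y + 1 ↔ x ≤ y := by
  constructor
  · intro h
    by_contra h1
    rw [not_le] at h1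
    obtain ⟨z, rfl⟩ := exists_add_of_le h1.le
    have hz : 0 < z := by
      by_contra h2
      have : z = 0 := le_antisymm (not_lt.1 h2) (zle z)
      rw [this, add_zero] at h1
      exact lt_irrefl _ h1
    have := PAM.one_le z hz
    exact absurd h (not_lt.2 (by gcongr))
  · intro h
    exact lt_of_le_of_lt h (lt_add_of_pos_right _ zero_lt_one)

theorem lt_succ_self (x : M) : x < x + 1 := lt_succ_iff.2 le_rfl

theorem succ_le_iff {x y : M} : x + 1 ≤ y ↔ x < y := by
  rw [← not_lt, lt_succ_iff, not_le]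

theorem lt_succ_cases {x y : M} (h : x < y + 1) : x < y ∨ x = y := (lt_succ_iff.1 h).lt_or_eq

theorem eq_zero_or_succ (x : M) : x = 0 ∨ ∃ y, x = y + 1 := by
  rcases (zle x).eq_or_lt with h | h
  · exact Or.inl h.symm
  · obtain ⟨y, hy⟩ := exists_add_of_le (PAM.one_le x h)
    exact Or.inr ⟨y, by rw [hy, add_comm]⟩

theorem not_lt_zero' (x : M) : ¬ x < 0 := not_lt.2 (zle x)

/-! ### Dependence on finitely many variables -/

/-- Bound for the variables. -/
def RF.bd : RF → ℕ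
  | .add i j k => max (i + 1) (max (j + 1) (k + 1))
  | .mul i j k => max (i + 1) (max (j + 1) (k + 1))
  | .eq i j => max (i + 1) (j + 1)
  | .lt i j => max (i + 1) (j + 1)
  | .mem i => i + 1
  | .neg f => f.bd
  | .and f g => max f.bd g.bd
  | .all i f => max (i + 1) f.bd

theorem RF.holds_congr : ∀ (f : RF) {v w : ℕ → M}, (∀ i, i < f.bd → v i = w i) →
    (f.holds X v ↔ f.holds X w)
  | .add i j k, v, w, h => by
    have h1 := h i (by simp only [RF.bd]; omega)
    have h2 := h j (by simp only [RF.bd]; omega)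
    have h3 := h k (by simp only [RF.bd]; omega)
    simp only [RF.holds, h1, h2, h3]
  | .mul i j k, v, w, h => by
    have h1 := h i (by simp only [RF.bd]; omega)
    have h2 := h j (by simp only [RF.bd]; omega)
    have h3 := h k (by simp only [RF.bd]; omega)
    simp only [RF.holds, h1, h2, h3]
  | .eq i j, v, w, h => by
    have h1 := h i (by simp only [RF.bd]; omega)
    have h2 := h j (by simp only [RF.bd]; omega)
    simp only [RF.holds, h1, h2]
  | .lt i j, v, w, h => by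
    have h1 := h i (by simp only [RF.bd]; omega)
    have h2 := h j (by simp only [RF.bd]; omega)
    simp only [RF.holds, h1, h2]
  | .mem i, v, w, h => by
    have h1 := h i (by simp only [RF.bd]; omega)
    simp only [RF.holds, h1]
  | .neg f, v, w, h => not_congr (RF.holds_congr f h)
  | .and f g, v, w, h => and_congr
      (RF.holds_congr f fun i hi => h i (by simp only [RF.bd]; omega))
      (RF.holds_congr g fun i hi => h i (by simp only [RF.bd]; omega))
  | .all i f, v, w, h => by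
    have h1 := h i (by simp only [RF.bd]; omega)
    simp only [RF.holds, h1]
    refine forall_congr' fun x => imp_congr_right fun _ => RF.holds_congr f fun j hj => ?_
    cases j with
    | zero => rfl
    | succ j => exact h j (by simp only [RF.bd]; omega)

theorem S1.dep {R : (ℕ → M) → Prop} (hR : S1 X R) : ∃ n : ℕ, ∀ v w : ℕ → M,
    (∀ i, i < n → v i = w i) → (R v ↔ R w) := by
  obtain ⟨f, c, h⟩ := hR.ex
  refine ⟨f.bd, fun v w hvw => ?_⟩
  rw [h, h]
  refine exists_congr fun y => RF.holds_congr f fun i hi => ?_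
  cases i with
  | zero => rfl
  | succ i =>
    simp only [psh_succ]
    unfold mix
    split_ifs
    · exact hvw _ (by omega)
    · rfl

/-! ### Induction and collection -/

/-- `Σ₁(X)` induction. -/
class I1 (X : M → Prop) : Prop where
  ind : ∀ P : M → Prop, S1 X (fun v => P (v 0)) → P 0 → (∀ x, P x → P (x + 1)) → ∀ x, P x

/-- `Σ₁(X)` collection. -/
class C1 (X : M → Prop) : Prop where
  coll : ∀ (R : (ℕ → M) → Prop), S1 X R → ∀ (v : ℕ → M) (a : M),
    (∀ x, x < a → ∃ y, R (psh y (psh x v))) → ∃ b, ∀ x, x < a → ∃ y, y < b ∧ R (psh y (psh x v))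

theorem S1.coll_i [hI : I1 X] {R : (ℕ → M) → Prop} (hR : S1 X R) (v : ℕ → M) (a : M)
    (h : ∀ x, x < a → ∃ y, R (psh y (psh x v))) :
    ∃ b, ∀ x, x < a → ∃ y, y < b ∧ R (psh y (psh x v)) := by
  obtain ⟨Q, hQ, hRQ⟩ := hR.dp
  have k1 : DP X (fun s : ℕ → M => Q (s 0) (psh (s 1) (psh (s 2) v))) :=
    DP.congr (DP.sub hQ (g := fun i s => match i with
      | 0 => s 0
      | 1 => s 1
      | 2 => s 2
      | i + 3 => v i) (fun i => by
        match i with
        | 0 => exact vr_var 0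
        | 1 => exact vr_var 1
        | 2 => exact vr_var 2
        | i + 3 => exact vr_const _)) (fun s => by
          have e : (fun i => (match i + 1 with
              | 0 => s 0
              | 1 => s 1
              | 2 => s 2
              | i + 3 => v i : M)) = psh (s 1) (psh (s 2) v) := by
            funext i
            match i with
            | 0 => rfl
            | 1 => rfl
            | i + 2 => rfl
          rw [← e])
  have k2 : S1 X (fun u : ℕ → M => ∃ w, ∀ x, x < u 0 → (x < a → ∃ y, y < w ∧ ∃ z, z < w ∧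
      Q z (psh y (psh x v)))) := by
    refine S1.of_ex (R := fun w u => ∀ x, x < u 0 → (x < a → ∃ y, y < w ∧ ∃ z, z < w ∧
      Q z (psh y (psh x v)))) ?_
    refine @dp_all _ _ _ (fun u => u 1) (fun x u => (x < a → ∃ y, y < u 0 ∧ ∃ z, z < u 0 ∧
      Q z (psh y (psh x v)))) _ ?_
    refine @dp_imp _ _ _ _ _ inferInstance ?_
    refine @dp_ex _ _ _ (fun u => u 1) (fun y u => ∃ z, z < u 1 ∧ Q z (psh y (psh (u 0) v))) _ ?_
    refine @dp_ex _ _ _ (fun u => u 2) (fun z u => Q z (psh (u 0) (psh (u 1) v))) _ ?_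
    exact k1
  have h1 := hI.ind (fun u => ∃ w, ∀ x, x < u → (x < a → ∃ y, y < w ∧ ∃ z, z < w ∧
      Q z (psh y (psh x v)))) k2 ⟨0, fun x hx => absurd hx (not_lt_zero' x)⟩ (by
    rintro u ⟨w, hw⟩
    by_cases hu : u < a
    · obtain ⟨y, hy⟩ := h u hu
      obtain ⟨z, hz⟩ := (hRQ _).1 hy
      refine ⟨w + (y + z + 1), fun x hx hxa => ?_⟩
      rcases lt_succ_cases hx with hx | rfl
      · obtain ⟨y', h1, z', h2, h3⟩ := hw x hx hxa
        exact ⟨y', lt_of_lt_of_le h1 le_self_add, z', lt_of_lt_of_le h2 le_self_add, h3⟩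
      · have e1 : y < w + (y + z + 1) := by
          refine lt_of_lt_of_le (lt_succ_iff.2 (le_self_add : y ≤ y + z)) le_add_self
        have e2 : z < w + (y + z + 1) := by
          refine lt_of_lt_of_le (lt_succ_iff.2 (le_add_self : z ≤ y + z)) le_add_self
        exact ⟨y, e1, z, e2, hz⟩
    · refine ⟨w, fun x hx hxa => hw x ?_ hxa⟩
      rcases lt_succ_cases hx with hx | rfl
      · exact hx
      · exact absurd hxa hu)
  obtain ⟨w, hw⟩ := h1 a
  refine ⟨w, fun x hx => ?_⟩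
  obtain ⟨y, h1, z, _, h3⟩ := hw x hx hx
  exact ⟨y, h1, (hRQ _).2 ⟨z, h3⟩⟩

instance c1_of_i1 [I1 X] : C1 X := ⟨fun _ hR v a h => S1.coll_i hR v a h⟩

theorem S1.coll [hC : C1 X] {R : (ℕ → M) → Prop} (hR : S1 X R) (v : ℕ → M) (a : M)
    (h : ∀ x, x < a → ∃ y, R (psh y (psh x v))) :
    ∃ b, ∀ x, x < a → ∃ y, y < b ∧ R (psh y (psh x v)) := hC.coll R hR v a h

theorem S1.forall [C1 X] {g : (ℕ → M) → M} {R : M → (ℕ → M) → Prop} (hg : Vr g)
    (hR : S1 X (fun v => R (v 0) (fun i => v (i + 1)))) :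
    S1 X (fun v => ∀ x, x < g v → R x v) := by
  obtain ⟨Q, hQ, h⟩ := hR.dp
  have k1 : DP X (fun v : ℕ → M => Q (v 0) (psh (v 1) (fun i => v (i + 3)))) :=
    DP.congr (DP.sub hQ (g := fun i v => match i with
      | 0 => v 0
      | 1 => v 1
      | i + 2 => v (i + 3)) (fun i => by
        match i with
        | 0 => exact vr_var 0
        | 1 => exact vr_var 1
        | i + 2 => exact vr_var _)) (fun v => by
          have e : (fun i => (match i + 1 with
              | 0 => v 0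
              | 1 => v 1
              | i + 2 => v (i + 3) : M)) = psh (v 1) (fun i => v (i + 3)) := by
            funext i; cases i <;> rfl
          rw [← e])
  have k0 : Vr (fun v : ℕ → M => g (fun i => v (i + 1))) := by
    obtain ⟨n, c, hn⟩ := hg.ex
    refine ⟨⟨if n % 2 = 0 then n + 2 else n, c, fun v => ?_⟩⟩
    simp only [hn]
    split_ifs with h
    · obtain ⟨j, rfl⟩ : ∃ j, n = 2 * j := ⟨n / 2, by omega⟩
      have e : 2 * j + 2 = 2 * (j + 1) := by ring
      rw [e]; simp only [mix_even]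
    · obtain ⟨j, rfl⟩ : ∃ j, n = 2 * j + 1 := ⟨n / 2, by omega⟩
      simp only [mix_odd]
  have k2 : DP X (fun v : ℕ → M => ∀ x, x < g (fun i => v (i + 1)) → ∃ y, y < v 0 ∧
      Q y (psh x (fun i => v (i + 1)))) := by
    refine @dp_all _ _ _ (fun v => g (fun i => v (i + 1))) (fun x v => ∃ y, y < v 0 ∧
      Q y (psh x (fun i => v (i + 1)))) k0 ?_
    exact @dp_ex _ _ _ (fun v => v 1) (fun y v => Q y (psh (v 0) (fun i => v (i + 2)))) _ k1
  refine S1.congr (S1.of_ex (R := fun w v => ∀ x, x < g v → ∃ y, y < w ∧ Q y (psh x v)) k2)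
    fun v => ?_
  constructor
  · rintro ⟨w, hw⟩ x hx
    obtain ⟨y, _, hy⟩ := hw x hx
    exact (h (psh x v)).2 ⟨y, hy⟩
  · intro hv
    -- collection for `Q`
    have h1 : S1 X (fun s : ℕ → M => Q (s 0) (fun i => s (i + 1))) := S1.of_dp hQ
    obtain ⟨b, hb⟩ := S1.coll h1 v (g v) (fun x hx => (h (psh x v)).1 (hv x hx))
    exact ⟨b, fun x hx => hb x hx⟩

/-! ### `Δ₁` relations and functions -/

variable (X)

/-- `Δ₁(X)` relations with parameters. -/
class D1 (R : (ℕ → M) → Prop) : Prop where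
  s : S1 X R
  p : S1 X (fun v => ¬ R v)

/-- `Σ₁(X)` functions with parameters. -/
class F1 (f : (ℕ → M) → M) : Prop where
  g : S1 X (fun v => v 0 = f (fun i => v (i + 1)))

variable {X}

theorem D1.congr {R Q : (ℕ → M) → Prop} (h : D1 X R) (e : ∀ v, R v ↔ Q v) : D1 X Q :=
  ⟨S1.congr h.s e, S1.congr h.p fun v => not_congr (e v)⟩

theorem F1.congr {f g : (ℕ → M) → M} (h : F1 X f) (e : ∀ v, f v = g v) : F1 X g :=
  ⟨S1.congr h.g fun v => by rw [e]⟩

theorem D1.of_dp {R : (ℕ → M) → Prop} (h : DP X R) : D1 X R :=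
  ⟨S1.of_dp h, S1.of_dp (dp_not' h)⟩

theorem D1.not {R : (ℕ → M) → Prop} (h : D1 X R) : D1 X (fun v => ¬ R v) :=
  ⟨h.p, S1.congr h.s fun v => by rw [not_not]⟩

theorem D1.and {R Q : (ℕ → M) → Prop} (h : D1 X R) (h' : D1 X Q) : D1 X (fun v => R v ∧ Q v) :=
  ⟨S1.and h.s h'.s, S1.congr (S1.or h.p h'.p) fun v => by tauto⟩

theorem D1.sub {R : (ℕ → M) → Prop} (hR : D1 X R) {g : ℕ → (ℕ → M) → M} (hg : ∀ i, Vr (g i)) :
    D1 X (fun v => R (fun i => g i v)) := ⟨S1.sub hR.s hg, S1.sub hR.p hg⟩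

theorem Vr.tail {g : (ℕ → M) → M} (hg : Vr g) : Vr (fun v : ℕ → M => g (fun i => v (i + 1))) := by
  obtain ⟨n, c, hn⟩ := hg.ex
  refine ⟨⟨if n % 2 = 0 then n + 2 else n, c, fun v => ?_⟩⟩
  simp only [hn]
  split_ifs with h
  · obtain ⟨j, rfl⟩ : ∃ j, n = 2 * j := ⟨n / 2, by omega⟩
    have e : 2 * j + 2 = 2 * (j + 1) := by ring
    rw [e]; simp only [mix_even]
  · obtain ⟨j, rfl⟩ : ∃ j, n = 2 * j + 1 := ⟨n / 2, by omega⟩
    simp only [mix_odd]

theorem F1.of_vr {g : (ℕ → M) → M} (hg : Vr g) : F1 X g :=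
  ⟨S1.of_dp (@dp_eq _ _ _ (fun v => v 0) (fun v => g (fun i => v (i + 1))) _ hg.tail)⟩

instance f1_var (i : ℕ) : F1 X (fun v : ℕ → M => v i) := F1.of_vr (vr_var i)
instance f1_const (d : M) : F1 X (fun _ : ℕ → M => d) := F1.of_vr (vr_const d)

/-- Variables of a function in the tail. -/
theorem F1.tail {f : (ℕ → M) → M} (hf : F1 X f) : F1 X (fun v => f (fun i => v (i + 1))) := by
  refine ⟨?_⟩
  have := S1.sub hf.g (g := fun i v => match i with
    | 0 => v 0
    | i + 1 => v (i + 2)) (fun i => by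
      cases i with
      | zero => exact vr_var 0
      | succ i => exact vr_var _)
  exact this

/-- Substitution of a function for the variable `0`. -/
theorem S1.comp {R : M → (ℕ → M) → Prop} (hR : S1 X (fun v => R (v 0) (fun i => v (i + 1))))
    {f : (ℕ → M) → M} (hf : F1 X f) : S1 X (fun v => R (f v) v) := by
  refine S1.congr (S1.exists (R := fun y v => y = f v ∧ R y v) (S1.and hf.g hR)) fun v => ?_
  constructor
  · rintro ⟨y, rfl, h⟩
    exact h
  · intro h
    exact ⟨_, rfl, h⟩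

/-- Substitution of functions for the first `n` variables. -/
theorem S1.subN (n : ℕ) : ∀ {R : (ℕ → M) → Prop} (_ : S1 X R) {g : ℕ → (ℕ → M) → M}
    (_ : ∀ i, i < n → F1 X (g i)) (_ : ∀ i, n ≤ i → Vr (g i)), S1 X (fun v => R (fun i => g i v)) := by
  induction n with
  | zero => exact fun hR _ _ h => S1.sub hR fun i => h i (Nat.zero_le i)
  | succ n ih =>
    intro R hR g hF hV
    have h1 := ih hR (g := fun i v => if i = n then v 0 else g i (fun j => v (j + 1)))
      (fun i hi => by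
        have e : i ≠ n := by omega
        simp only [e, if_false]
        exact F1.tail (hF i (by omega)))
      (fun i hi => by
        by_cases e : i = n
        · simp only [e, if_true]
          exact vr_var 0
        · simp only [e, if_false]
          exact Vr.tail (hV i (by omega)))
    have h2 := S1.comp (R := fun y v => R (fun i => if i = n then y else g i v)) h1
      (hF n (Nat.lt_succ_self n))
    refine S1.congr h2 fun v => ?_
    have e : (fun i => if i = n then g n v else g i v) = fun i => g i v := by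
      funext i
      split_ifs with h
      · rw [h]
      · rfl
    rw [e]

/-- Substitution of functions. -/
theorem S1.subF {R : (ℕ → M) → Prop} (hR : S1 X R) {g : ℕ → (ℕ → M) → M} (hg : ∀ i, F1 X (g i)) :
    S1 X (fun v => R (fun i => g i v)) := by
  obtain ⟨n, hn⟩ := hR.dep
  have h1 := S1.subN n hR (g := fun i => if i < n then g i else fun _ => 0) (fun i hi => by
    rw [if_pos hi]; exact hg i) (fun i hi => by rw [if_neg (by omega)]; exact vr_const 0)
  refine S1.congr h1 fun v => hn _ _ fun i hi => ?_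
  rw [if_pos hi]

theorem D1.subF {R : (ℕ → M) → Prop} (hR : D1 X R) {g : ℕ → (ℕ → M) → M} (hg : ∀ i, F1 X (g i)) :
    D1 X (fun v => R (fun i => g i v)) := ⟨S1.subF hR.s hg, S1.subF hR.p hg⟩

theorem F1.subF {f : (ℕ → M) → M} (hf : F1 X f) {g : ℕ → (ℕ → M) → M} (hg : ∀ i, F1 X (g i)) :
    F1 X (fun v => f (fun i => g i v)) := by
  refine ⟨?_⟩
  have := S1.subF hf.g (g := fun i v => match i with
    | 0 => v 0
    | i + 1 => g i (fun j => v (j + 1))) (fun i => by
      cases i with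
      | zero => exact f1_var 0
      | succ i => exact F1.tail (hg i))
  exact this

/-- A list of functions as a sequence of functions. -/
def asg : List ((ℕ → M) → M) → ℕ → (ℕ → M) → M
  | [], _ => fun _ => 0
  | g :: _, 0 => g
  | _ :: l, i + 1 => asg l i

theorem asg_f1 : ∀ (l : List ((ℕ → M) → M)), (∀ g ∈ l, F1 X g) → ∀ i, F1 X (asg l i)
  | [], _, _ => f1_const 0
  | g :: _, h, 0 => h g (by simp)
  | _ :: l, h, i + 1 => asg_f1 l (fun g hg => h g (by simp [hg])) i

section arity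

variable {g0 g1 g2 g3 g4 g5 g6 g7 : (ℕ → M) → M}

theorem S1.s1 {P : M → Prop} (h : S1 X (fun v => P (v 0))) (h0 : F1 X g0) :
    S1 X (fun v => P (g0 v)) := S1.subF h (g := asg [g0]) (asg_f1 _ (by simp [*]))
theorem S1.s2 {P : M → M → Prop} (h : S1 X (fun v => P (v 0) (v 1))) (h0 : F1 X g0)
    (h1 : F1 X g1) : S1 X (fun v => P (g0 v) (g1 v)) :=
  S1.subF h (g := asg [g0, g1]) (asg_f1 _ (by simp [*]))
theorem S1.s3 {P : M → M → M → Prop} (h : S1 X (fun v => P (v 0) (v 1) (v 2))) (h0 : F1 X g0)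
    (h1 : F1 X g1) (h2 : F1 X g2) : S1 X (fun v => P (g0 v) (g1 v) (g2 v)) :=
  S1.subF h (g := asg [g0, g1, g2]) (asg_f1 _ (by simp [*]))
theorem S1.s4 {P : M → M → M → M → Prop} (h : S1 X (fun v => P (v 0) (v 1) (v 2) (v 3)))
    (h0 : F1 X g0) (h1 : F1 X g1) (h2 : F1 X g2) (h3 : F1 X g3) :
    S1 X (fun v => P (g0 v) (g1 v) (g2 v) (g3 v)) :=
  S1.subF h (g := asg [g0, g1, g2, g3]) (asg_f1 _ (by simp [*]))

theorem D1.s1 {P : M → Prop} (h : D1 X (fun v => P (v 0))) (h0 : F1 X g0) :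
    D1 X (fun v => P (g0 v)) := D1.subF h (g := asg [g0]) (asg_f1 _ (by simp [*]))
theorem D1.s2 {P : M → M → Prop} (h : D1 X (fun v => P (v 0) (v 1))) (h0 : F1 X g0)
    (h1 : F1 X g1) : D1 X (fun v => P (g0 v) (g1 v)) :=
  D1.subF h (g := asg [g0, g1]) (asg_f1 _ (by simp [*]))
theorem D1.s3 {P : M → M → M → Prop} (h : D1 X (fun v => P (v 0) (v 1) (v 2))) (h0 : F1 X g0)
    (h1 : F1 X g1) (h2 : F1 X g2) : D1 X (fun v => P (g0 v) (g1 v) (g2 v)) :=
  D1.subF h (g := asg [g0, g1, g2]) (asg_f1 _ (by simp [*]))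
theorem D1.s4 {P : M → M → M → M → Prop} (h : D1 X (fun v => P (v 0) (v 1) (v 2) (v 3)))
    (h0 : F1 X g0) (h1 : F1 X g1) (h2 : F1 X g2) (h3 : F1 X g3) :
    D1 X (fun v => P (g0 v) (g1 v) (g2 v) (g3 v)) :=
  D1.subF h (g := asg [g0, g1, g2, g3]) (asg_f1 _ (by simp [*]))
theorem D1.s5 {P : M → M → M → M → M → Prop}
    (h : D1 X (fun v => P (v 0) (v 1) (v 2) (v 3) (v 4)))
    (h0 : F1 X g0) (h1 : F1 X g1) (h2 : F1 X g2) (h3 : F1 X g3) (h4 : F1 X g4) :
    D1 X (fun v => P (g0 v) (g1 v) (g2 v) (g3 v) (g4 v)) :=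
  D1.subF h (g := asg [g0, g1, g2, g3, g4]) (asg_f1 _ (by simp [*]))
theorem D1.s6 {P : M → M → M → M → M → M → Prop}
    (h : D1 X (fun v => P (v 0) (v 1) (v 2) (v 3) (v 4) (v 5)))
    (h0 : F1 X g0) (h1 : F1 X g1) (h2 : F1 X g2) (h3 : F1 X g3) (h4 : F1 X g4) (h5 : F1 X g5) :
    D1 X (fun v => P (g0 v) (g1 v) (g2 v) (g3 v) (g4 v) (g5 v)) :=
  D1.subF h (g := asg [g0, g1, g2, g3, g4, g5]) (asg_f1 _ (by simp [*]))
theorem D1.s7 {P : M → M → M → M → M → M → M → Prop}
    (h : D1 X (fun v => P (v 0) (v 1) (v 2) (v 3) (v 4) (v 5) (v 6)))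
    (h0 : F1 X g0) (h1 : F1 X g1) (h2 : F1 X g2) (h3 : F1 X g3) (h4 : F1 X g4) (h5 : F1 X g5)
    (h6 : F1 X g6) : D1 X (fun v => P (g0 v) (g1 v) (g2 v) (g3 v) (g4 v) (g5 v) (g6 v)) :=
  D1.subF h (g := asg [g0, g1, g2, g3, g4, g5, g6]) (asg_f1 _ (by simp [*]))
theorem D1.s8 {P : M → M → M → M → M → M → M → M → Prop}
    (h : D1 X (fun v => P (v 0) (v 1) (v 2) (v 3) (v 4) (v 5) (v 6) (v 7)))
    (h0 : F1 X g0) (h1 : F1 X g1) (h2 : F1 X g2) (h3 : F1 X g3) (h4 : F1 X g4) (h5 : F1 X g5)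
    (h6 : F1 X g6) (h7 : F1 X g7) :
    D1 X (fun v => P (g0 v) (g1 v) (g2 v) (g3 v) (g4 v) (g5 v) (g6 v) (g7 v)) :=
  D1.subF h (g := asg [g0, g1, g2, g3, g4, g5, g6, g7]) (asg_f1 _ (by simp [*]))

theorem F1.s1 {f : M → M} (h : F1 X (fun v => f (v 0))) (h0 : F1 X g0) :
    F1 X (fun v => f (g0 v)) := F1.subF h (g := asg [g0]) (asg_f1 _ (by simp [*]))
theorem F1.s2 {f : M → M → M} (h : F1 X (fun v => f (v 0) (v 1))) (h0 : F1 X g0)
    (h1 : F1 X g1) : F1 X (fun v => f (g0 v) (g1 v)) :=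
  F1.subF h (g := asg [g0, g1]) (asg_f1 _ (by simp [*]))
theorem F1.s3 {f : M → M → M → M} (h : F1 X (fun v => f (v 0) (v 1) (v 2))) (h0 : F1 X g0)
    (h1 : F1 X g1) (h2 : F1 X g2) : F1 X (fun v => f (g0 v) (g1 v) (g2 v)) :=
  F1.subF h (g := asg [g0, g1, g2]) (asg_f1 _ (by simp [*]))
theorem F1.s4 {f : M → M → M → M → M} (h : F1 X (fun v => f (v 0) (v 1) (v 2) (v 3)))
    (h0 : F1 X g0) (h1 : F1 X g1) (h2 : F1 X g2) (h3 : F1 X g3) :
    F1 X (fun v => f (g0 v) (g1 v) (g2 v) (g3 v)) :=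
  F1.subF h (g := asg [g0, g1, g2, g3]) (asg_f1 _ (by simp [*]))
theorem F1.s5 {f : M → M → M → M → M → M}
    (h : F1 X (fun v => f (v 0) (v 1) (v 2) (v 3) (v 4)))
    (h0 : F1 X g0) (h1 : F1 X g1) (h2 : F1 X g2) (h3 : F1 X g3) (h4 : F1 X g4) :
    F1 X (fun v => f (g0 v) (g1 v) (g2 v) (g3 v) (g4 v)) :=
  F1.subF h (g := asg [g0, g1, g2, g3, g4]) (asg_f1 _ (by simp [*]))
theorem F1.s6 {f : M → M → M → M → M → M → M}
    (h : F1 X (fun v => f (v 0) (v 1) (v 2) (v 3) (v 4) (v 5)))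
    (h0 : F1 X g0) (h1 : F1 X g1) (h2 : F1 X g2) (h3 : F1 X g3) (h4 : F1 X g4) (h5 : F1 X g5) :
    F1 X (fun v => f (g0 v) (g1 v) (g2 v) (g3 v) (g4 v) (g5 v)) :=
  F1.subF h (g := asg [g0, g1, g2, g3, g4, g5]) (asg_f1 _ (by simp [*]))

end arity

/-! ### Instances -/

section inst

variable {f g : (ℕ → M) → M} {R Q : (ℕ → M) → Prop}

instance f1_add [hf : F1 X f] [hg : F1 X g] : F1 X (fun v => f v + g v) := by
  refine F1.s2 (f := fun x y => x + y) ⟨?_⟩ hf hg
  exact S1.congr (S1.of_dp (R := fun v : ℕ → M => v 1 + v 2 = v 0)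
    ⟨.add 2 4 0, fun _ => 0, fun v => by
      simp only [RF.holds]
      rw [show (2 : ℕ) = 2 * 1 from rfl, show (4 : ℕ) = 2 * 2 from rfl, mix_even, mix_even,
        show (0 : ℕ) = 2 * 0 from rfl, mix_even]⟩) (fun v => eq_comm)

instance f1_mul [hf : F1 X f] [hg : F1 X g] : F1 X (fun v => f v * g v) := by
  refine F1.s2 (f := fun x y => x * y) ⟨?_⟩ hf hg
  exact S1.congr (S1.of_dp (R := fun v : ℕ → M => v 1 * v 2 = v 0)
    ⟨.mul 2 4 0, fun _ => 0, fun v => by
      simp only [RF.holds]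
      rw [show (2 : ℕ) = 2 * 1 from rfl, show (4 : ℕ) = 2 * 2 from rfl, mix_even, mix_even,
        show (0 : ℕ) = 2 * 0 from rfl, mix_even]⟩) (fun v => eq_comm)

instance d1_eq [hf : F1 X f] [hg : F1 X g] : D1 X (fun v => f v = g v) :=
  D1.s2 (P := fun x y => x = y) (D1.of_dp inferInstance) hf hg

instance d1_lt [hf : F1 X f] [hg : F1 X g] : D1 X (fun v => f v < g v) :=
  D1.s2 (P := fun x y => x < y) (D1.of_dp inferInstance) hf hg

instance d1_mem [hf : F1 X f] : D1 X (fun v => X (f v)) :=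
  D1.s1 (P := fun x => X x) (D1.of_dp ⟨.mem (2 * 0), fun _ => 0, fun v => by
    simp only [RF.holds, mix_even]⟩) hf

instance d1_const (P : Prop) : D1 X (fun _ : ℕ → M => P) := by
  by_cases h : P
  · exact D1.congr (R := fun _ => (0 : M) = 0) inferInstance fun v => by simp [h]
  · exact D1.congr (R := fun _ => (0 : M) < 0) inferInstance fun v => by simp [h]

instance d1_not [hR : D1 X R] : D1 X (fun v => ¬ R v) := hR.not

instance d1_le [hf : F1 X f] [hg : F1 X g] : D1 X (fun v => f v ≤ g v) :=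
  D1.congr (R := fun v => ¬ g v < f v) inferInstance fun v => not_lt

instance d1_and [hR : D1 X R] [hQ : D1 X Q] : D1 X (fun v => R v ∧ Q v) := hR.and hQ

instance d1_or [hR : D1 X R] [hQ : D1 X Q] : D1 X (fun v => R v ∨ Q v) :=
  D1.congr (R := fun v => ¬ (¬ R v ∧ ¬ Q v)) inferInstance fun v => by tauto

instance d1_imp [hR : D1 X R] [hQ : D1 X Q] : D1 X (fun v => (R v → Q v)) :=
  D1.congr (R := fun v => ¬ (R v ∧ ¬ Q v)) inferInstance fun v => by tauto

instance d1_iff [hR : D1 X R] [hQ : D1 X Q] : D1 X (fun v => (R v ↔ Q v)) :=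
  D1.congr (R := fun v => (R v → Q v) ∧ (Q v → R v)) inferInstance fun v => by tauto

instance (priority := 50) s1_of_d1 [hR : D1 X R] : S1 X R := hR.s

instance s1_not [hR : D1 X R] : S1 X (fun v => ¬ R v) := hR.p

instance s1_and [hR : S1 X R] [hQ : S1 X Q] : S1 X (fun v => R v ∧ Q v) := hR.and hQ

instance s1_or [hR : S1 X R] [hQ : S1 X Q] : S1 X (fun v => R v ∨ Q v) := hR.or hQ

instance s1_imp [hR : D1 X R] [hQ : S1 X Q] : S1 X (fun v => (R v → Q v)) :=
  S1.congr (R := fun v => ¬ R v ∨ Q v) inferInstance fun v => by tauto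

instance s1_ex {R : M → (ℕ → M) → Prop} [hR : S1 X (fun v => R (v 0) (fun i => v (i + 1)))] :
    S1 X (fun v => ∃ x, R x v) := S1.exists hR

theorem s1_all' [C1 X] {g : (ℕ → M) → M} {R : M → (ℕ → M) → Prop} (hg : F1 X g)
    (hR : S1 X (fun v => R (v 0) (fun i => v (i + 1)))) :
    S1 X (fun v => ∀ x, x < g v → R x v) := by
  have h1 : S1 X (fun v : ℕ → M => ∀ x, x < v 0 → R x (fun i => v (i + 1))) := by
    refine S1.forall (g := fun v => v 0) (R := fun x v => R x (fun i => v (i + 1))) (vr_var 0) ?_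
    exact S1.sub hR (g := fun i v => match i with
      | 0 => v 0
      | i + 1 => v (i + 2)) (fun i => by
        cases i with
        | zero => exact vr_var 0
        | succ i => exact vr_var _)
  exact S1.comp (R := fun y v => ∀ x, x < y → R x v) h1 hg

instance s1_all [C1 X] {R : M → (ℕ → M) → Prop} [hg : F1 X g]
    [hR : S1 X (fun v => R (v 0) (fun i => v (i + 1)))] :
    S1 X (fun v => ∀ x, x < g v → R x v) := s1_all' hg hR

instance s1_all_le [C1 X] {R : M → (ℕ → M) → Prop} [hg : F1 X g]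
    [hR : S1 X (fun v => R (v 0) (fun i => v (i + 1)))] :
    S1 X (fun v => ∀ x, x ≤ g v → R x v) :=
  S1.congr (R := fun v => ∀ x, x < g v + 1 → R x v) inferInstance fun v => by
    simp only [lt_succ_iff]

instance d1_all [C1 X] {R : M → (ℕ → M) → Prop} [hg : F1 X g]
    [hR : D1 X (fun v => R (v 0) (fun i => v (i + 1)))] :
    D1 X (fun v => ∀ x, x < g v → R x v) := by
  refine ⟨s1_all' hg hR.s, ?_⟩
  have hx : F1 X (fun v : ℕ → M => g (fun i => v (i + 1))) := F1.tail hg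
  refine S1.congr (S1.exists (R := fun x v => x < g v ∧ ¬ R x v) (S1.and ?_ hR.p)) fun v => by
    simp only [not_forall, exists_prop]
  exact (d1_lt (f := fun v => v 0) (g := fun v => g (fun i => v (i + 1)))).s

instance d1_ex [C1 X] {R : M → (ℕ → M) → Prop} [hg : F1 X g]
    [hR : D1 X (fun v => R (v 0) (fun i => v (i + 1)))] :
    D1 X (fun v => ∃ x, x < g v ∧ R x v) :=
  D1.congr (R := fun v => ¬ ∀ x, x < g v → ¬ R x v) inferInstance fun v => by
    simp only [not_forall, not_not, exists_prop]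

instance d1_all_le [C1 X] {R : M → (ℕ → M) → Prop} [hg : F1 X g]
    [hR : D1 X (fun v => R (v 0) (fun i => v (i + 1)))] :
    D1 X (fun v => ∀ x, x ≤ g v → R x v) :=
  D1.congr (R := fun v => ∀ x, x < g v + 1 → R x v) inferInstance fun v => by
    simp only [lt_succ_iff]

instance d1_ex_le [C1 X] {R : M → (ℕ → M) → Prop} [hg : F1 X g]
    [hR : D1 X (fun v => R (v 0) (fun i => v (i + 1)))] :
    D1 X (fun v => ∃ x, x ≤ g v ∧ R x v) :=
  D1.congr (R := fun v => ∃ x, x < g v + 1 ∧ R x v) inferInstance fun v => by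
    simp only [lt_succ_iff]

end inst

/-- A function with a `Σ₁` graph. -/
theorem F1.of_graph {f : (ℕ → M) → M} {R : M → (ℕ → M) → Prop}
    (hR : S1 X (fun v => R (v 0) (fun i => v (i + 1)))) (h : ∀ v y, y = f v ↔ R y v) : F1 X f :=
  ⟨S1.congr hR fun v => (h (fun i => v (i + 1)) (v 0)).symm⟩

/-! ### Induction and least elements -/

/-- Induction for the complement of a `Σ₁` set. -/
theorem ind_p [hI : I1 X] {P : M → Prop} (hP : S1 X (fun v => ¬ P (v 0))) (h0 : P 0)
    (hs : ∀ x, P x → P (x + 1)) (x : M) : P x := by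
  by_contra hx
  have hP' : S1 X (fun v : ℕ → M => ¬ P (v 0)) := hP
  have h1 : S1 X (fun v : ℕ → M => (∃ z, z + v 0 = x ∧ ¬ P z) ∨ x < v 0) := by
    have h2 : S1 X (fun v : ℕ → M => ∃ z, z + v 0 = x ∧ ¬ P z) :=
      S1.exists (R := fun z v => z + v 0 = x ∧ ¬ P z) (S1.and (inferInstance : D1 X (fun v : ℕ → M =>
        v 0 + v 1 = x)).s hP')
    exact S1.or h2 (inferInstance : D1 X (fun v : ℕ → M => x < v 0)).s
  have h2 := hI.ind (fun y => (∃ z, z + y = x ∧ ¬ P z) ∨ x < y) h1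
    (Or.inl ⟨x, add_zero x, hx⟩) (by
      rintro y (⟨z, hz, hzP⟩ | hy)
      · rcases eq_zero_or_succ z with rfl | ⟨w, rfl⟩
        · right
          rw [← hz, zero_add]
          exact lt_succ_self y
        · left
          refine ⟨w, ?_, fun h => hzP (hs w h)⟩
          rw [← hz]; ring
      · exact Or.inr (lt_trans hy (lt_succ_self y)))
  rcases h2 x with ⟨z, hz, hzP⟩ | h
  · have : z = 0 := by
      have h3 : z + x = 0 + x := by rw [hz, zero_add]
      exact add_right_cancel h3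
    rw [this] at hzP
    exact hzP h0
  · exact lt_irrefl _ h

theorem ind_s [hI : I1 X] {P : M → Prop} (hP : S1 X (fun v => P (v 0))) (h0 : P 0)
    (hs : ∀ x, P x → P (x + 1)) (x : M) : P x := hI.ind P hP h0 hs x

/-- Induction for `Δ₁` sets, found by instances. -/
theorem ind_d (X : M → Prop) [I1 X] {P : M → Prop} (hP : D1 X (fun v => P (v 0))) (h0 : P 0)
    (hs : ∀ x, P x → P (x + 1)) (x : M) : P x := ind_s hP.s h0 hs x

/-- Least elements of `Σ₁` sets. -/
theorem least_s [I1 X] {P : M → Prop} (hP : S1 X (fun v => P (v 0))) (h : ∃ x, P x) :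
    ∃ x, P x ∧ ∀ y, y < x → ¬ P y := by
  by_contra hc
  push Not at hc
  obtain ⟨x, hx⟩ := h
  have h1 : ∀ x, ∀ y, y < x → ¬ P y := by
    refine ind_p (X := X) ?_ (fun y hy => absurd hy (not_lt_zero' y)) (fun x h y hy => ?_)
    · have h2 : S1 X (fun v : ℕ → M => ∃ y, y < v 0 ∧ P y) :=
        S1.exists (R := fun y v => y < v 0 ∧ P y) (S1.and (inferInstance : D1 X (fun v : ℕ → M =>
          v 0 < v 1)).s hP)
      exact S1.congr h2 fun v => by simp only [not_forall, not_not, exists_prop]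
    · rcases lt_succ_cases hy with hy | rfl
      · exact h y hy
      · intro hy'
        obtain ⟨z, hz, hzP⟩ := hc y hy'
        exact h z hz hzP
  exact h1 (x + 1) x (lt_succ_self x) hx

/-- Least elements of complements of `Σ₁` sets. -/
theorem least_p [I1 X] {P : M → Prop} (hP : S1 X (fun v => ¬ P (v 0))) (h : ∃ x, P x) :
    ∃ x, P x ∧ ∀ y, y < x → ¬ P y := by
  by_contra hc
  push Not at hc
  obtain ⟨x, hx⟩ := h
  have h1 : ∀ x, ∀ y, y < x → ¬ P y := by
    refine ind_s (X := X) ?_ (fun y hy => absurd hy (not_lt_zero' y)) (fun x h y hy => ?_)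
    · exact s1_all' (g := fun v => v 0) (R := fun y _ => ¬ P y) inferInstance hP
    · rcases lt_succ_cases hy with hy | rfl
      · exact h y hy
      · intro hy'
        obtain ⟨z, hz, hzP⟩ := hc y hy'
        exact h z hz hzP
  exact h1 (x + 1) x (lt_succ_self x) hx

theorem least_d (X : M → Prop) [I1 X] {P : M → Prop} (hP : D1 X (fun v => P (v 0)))
    (h : ∃ x, P x) : ∃ x, P x ∧ ∀ y, y < x → ¬ P y := least_s hP.s h

/-- Collection for `Σ₁` relations. -/
theorem coll_s [C1 X] {P : M → M → Prop} (hP : S1 X (fun v => P (v 0) (v 1))) (a : M)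
    (h : ∀ x, x < a → ∃ y, P x y) : ∃ b, ∀ x, x < a → ∃ y, y < b ∧ P x y := by
  have h1 : S1 X (fun v : ℕ → M => P (v 1) (v 0)) := S1.s2 hP inferInstance inferInstance
  exact S1.coll h1 (fun _ => 0) a h

end Pool.Agent.PD2
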