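import Pool.Agent.Work.MP_a6ae3a_lc.Stmt

/-!
# Elementary lemmas on truth of formulas of second order arithmetic
-/

namespace Pool.Agent.PD2

section

variable (H : Str)

theorem Str.sat_or (φ ψ : Fm) (v : ℕ → H.M) (w : ℕ → Set H.M) :
    H.Sat (φ.or ψ) v w ↔ (H.Sat φ v w ∨ H.Sat ψ v w) := by
  simp only [Fm.or, Str.Sat]
  tauto

theorem Str.sat_imp (φ ψ : Fm) (v : ℕ → H.M) (w : ℕ → Set H.M) :
    H.Sat (φ.imp ψ) v w ↔ (H.Sat φ v w → H.Sat ψ v w) := by
  simp only [Fm.imp, Str.Sat]
  tauto

theorem Str.sat_iff (φ ψ : Fm) (v : ℕ → H.M) (w : ℕ → Set H.M) :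
    H.Sat (φ.iff ψ) v w ↔ (H.Sat φ v w ↔ H.Sat ψ v w) := by
  simp only [Fm.iff, Fm.imp, Str.Sat]
  tauto

theorem Str.sat_ex (i : ℕ) (φ : Fm) (v : ℕ → H.M) (w : ℕ → Set H.M) :
    H.Sat (.ex i φ) v w ↔ ∃ x : H.M, H.Sat φ (Function.update v i x) w := by
  simp only [Fm.ex, Str.Sat, not_forall, not_not]

theorem Str.sat_exS (i : ℕ) (φ : Fm) (v : ℕ → H.M) (w : ℕ → Set H.M) :
    H.Sat (.exS i φ) v w ↔ ∃ Z : Set H.M, Z ∈ H.S ∧ H.Sat φ v (Function.update w i Z) := by
  simp only [Fm.exS, Str.Sat, not_forall, not_not, exists_prop]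

/-- Values depend only on the variables that occur. -/
theorem Str.val_congr : ∀ (t : Tm) {v v' : ℕ → H.M}, (∀ i, t.Occ i → v i = v' i) →
    H.val v t = H.val v' t
  | .var i, _, _, h => h i rfl
  | .zero, _, _, _ => rfl
  | .one, _, _, _ => rfl
  | .add s t, _, _, h => by
    simp only [Str.val]
    rw [Str.val_congr s fun i hi => h i (Or.inl hi), Str.val_congr t fun i hi => h i (Or.inr hi)]
  | .mul s t, _, _, h => by
    simp only [Str.val]
    rw [Str.val_congr s fun i hi => h i (Or.inl hi), Str.val_congr t fun i hi => h i (Or.inr hi)]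

theorem Str.val_update {t : Tm} {i : ℕ} (ht : ¬ t.Occ i) (v : ℕ → H.M) (x : H.M) :
    H.val (Function.update v i x) t = H.val v t :=
  H.val_congr t fun j hj => by
    have e : j ≠ i := fun e => ht (e ▸ hj)
    rw [Function.update_of_ne e]

/-- Truth depends only on the variables that occur. -/
theorem Str.sat_congr : ∀ (φ : Fm) {v v' : ℕ → H.M} {w w' : ℕ → Set H.M},
    (∀ i, φ.Occ i → v i = v' i) → (∀ i, φ.OccS i → w i = w' i) → (H.Sat φ v w ↔ H.Sat φ v' w')
  | .eq s t, _, _, _, _, h, _ => by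
    simp only [Str.Sat]
    rw [H.val_congr s fun i hi => h i (Or.inl hi), H.val_congr t fun i hi => h i (Or.inr hi)]
  | .lt s t, _, _, _, _, h, _ => by
    simp only [Str.Sat]
    rw [H.val_congr s fun i hi => h i (Or.inl hi), H.val_congr t fun i hi => h i (Or.inr hi)]
  | .mem t i, _, _, _, _, h, h' => by
    simp only [Str.Sat]
    rw [H.val_congr t fun i hi => h i hi, h' i rfl]
  | .neg φ, _, _, _, _, h, h' => not_congr (Str.sat_congr φ h h')
  | .and φ ψ, _, _, _, _, h, h' => and_congr
    (Str.sat_congr φ (fun i hi => h i (Or.inl hi)) fun i hi => h' i (Or.inl hi))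
    (Str.sat_congr ψ (fun i hi => h i (Or.inr hi)) fun i hi => h' i (Or.inr hi))
  | .all i φ, v, v', _, _, h, h' => forall_congr' fun x => Str.sat_congr φ (fun j hj => by
      by_cases e : j = i
      · subst e; rw [Function.update_self, Function.update_self]
      · rw [Function.update_of_ne e, Function.update_of_ne e]
        exact h j (Or.inr hj)) h'
  | .allS i φ, _, _, w, w', h, h' => forall_congr' fun Z => imp_congr_right fun _ =>
      Str.sat_congr φ h fun j hj => by
        by_cases e : j = i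
        · subst e; rw [Function.update_self, Function.update_self]
        · rw [Function.update_of_ne e, Function.update_of_ne e]
          exact h' j (Or.inr hj)

/-- A variable that does not occur. -/
theorem Str.sat_update {φ : Fm} {i : ℕ} (hi : ¬ φ.Occ i) (v : ℕ → H.M) (x : H.M)
    (w : ℕ → Set H.M) : H.Sat φ (Function.update v i x) w ↔ H.Sat φ v w :=
  H.sat_congr φ (fun j hj => by
    have e : j ≠ i := fun e => hi (e ▸ hj)
    rw [Function.update_of_ne e]) fun _ _ => rfl

/-- A set variable that does not occur. -/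
theorem Str.sat_updateS {φ : Fm} {i : ℕ} (hi : ¬ φ.OccS i) (v : ℕ → H.M) (Z : Set H.M)
    (w : ℕ → Set H.M) : H.Sat φ v (Function.update w i Z) ↔ H.Sat φ v w :=
  H.sat_congr φ (fun _ _ => rfl) fun j hj => by
    have e : j ≠ i := fun e => hi (e ▸ hj)
    rw [Function.update_of_ne e]

/-- Substitution of a term. -/
theorem Str.sat_at (φ : Fm) {i : ℕ} {t : Tm} (ht : ¬ t.Occ i) (v : ℕ → H.M)
    (w : ℕ → Set H.M) : H.Sat (φ.at i t) v w ↔ H.Sat φ (Function.update v i (H.val v t)) w := by
  simp only [Fm.at, Str.Sat]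
  constructor
  · intro h
    have h1 := h (H.val v t)
    rw [Str.sat_imp] at h1
    refine h1 ?_
    simp only [Str.Sat, Str.val, Function.update_self]
    rw [H.val_update ht]
  · intro h x
    rw [Str.sat_imp]
    intro hx
    simp only [Str.Sat, Str.val, Function.update_self] at hx
    rw [H.val_update ht] at hx
    rw [hx]
    exact h

/-- Bounded universal quantifier. -/
theorem Str.sat_ball (φ : Fm) {i : ℕ} {t : Tm} (ht : ¬ t.Occ i) (v : ℕ → H.M)
    (w : ℕ → Set H.M) : H.Sat (.ball i t φ) v w ↔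
      ∀ x, H.lt x (H.val v t) → H.Sat φ (Function.update v i x) w := by
  simp only [Fm.ball, Str.Sat]
  refine forall_congr' fun x => ?_
  rw [Str.sat_imp]
  simp only [Str.Sat, Str.val, Function.update_self]
  rw [H.val_update ht]

/-- Bounded existential quantifier. -/
theorem Str.sat_bex (φ : Fm) {i : ℕ} {t : Tm} (ht : ¬ t.Occ i) (v : ℕ → H.M)
    (w : ℕ → Set H.M) : H.Sat (.bex i t φ) v w ↔
      ∃ x, H.lt x (H.val v t) ∧ H.Sat φ (Function.update v i x) w := by
  rw [Fm.bex, Str.sat_ex]
  refine exists_congr fun x => ?_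
  simp only [Str.Sat, Str.val, Function.update_self]
  rw [H.val_update ht]

end

/-! ### Bounds for the variables -/

/-- Bound for the variables of a term. -/
def Tm.bd : Tm → ℕ
  | .var i => i + 1
  | .zero => 0
  | .one => 0
  | .add s t => max s.bd t.bd
  | .mul s t => max s.bd t.bd

theorem Tm.lt_bd : ∀ (t : Tm) {i : ℕ}, t.Occ i → i < t.bd
  | .var j, i, h => by
    have e : j = i := h
    simp only [Tm.bd]; omega
  | .zero, _, h => h.elim
  | .one, _, h => h.elim
  | .add s t, i, h => by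
    simp only [Tm.bd]
    rcases h with h | h
    · have := s.lt_bd h; omega
    · have := t.lt_bd h; omega
  | .mul s t, i, h => by
    simp only [Tm.bd]
    rcases h with h | h
    · have := s.lt_bd h; omega
    · have := t.lt_bd h; omega

/-- Bound for the number variables of a formula. -/
def Fm.bd : Fm → ℕ
  | .eq s t => max s.bd t.bd
  | .lt s t => max s.bd t.bd
  | .mem t _ => t.bd
  | .neg φ => φ.bd
  | .and φ ψ => max φ.bd ψ.bd
  | .all j φ => max (j + 1) φ.bd
  | .allS _ φ => φ.bd

theorem Fm.lt_bd : ∀ (φ : Fm) {i : ℕ}, φ.Occ i → i < φ.bd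
  | .eq s t, i, h => by
    simp only [Fm.bd]
    rcases h with h | h
    · have := s.lt_bd h; omega
    · have := t.lt_bd h; omega
  | .lt s t, i, h => by
    simp only [Fm.bd]
    rcases h with h | h
    · have := s.lt_bd h; omega
    · have := t.lt_bd h; omega
  | .mem t _, i, h => t.lt_bd h
  | .neg φ, i, h => φ.lt_bd h
  | .and φ ψ, i, h => by
    simp only [Fm.bd]
    rcases h with h | h
    · have := φ.lt_bd h; omega
    · have := ψ.lt_bd h; omega
  | .all j φ, i, h => by
    simp only [Fm.bd]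
    rcases h with h | h
    · omega
    · have := φ.lt_bd h; omega
  | .allS _ φ, i, h => φ.lt_bd h

/-- Bound for the set variables of a formula. -/
def Fm.bdS : Fm → ℕ
  | .eq _ _ => 0
  | .lt _ _ => 0
  | .mem _ j => j + 1
  | .neg φ => φ.bdS
  | .and φ ψ => max φ.bdS ψ.bdS
  | .all _ φ => φ.bdS
  | .allS j φ => max (j + 1) φ.bdS

theorem Fm.lt_bdS : ∀ (φ : Fm) {i : ℕ}, φ.OccS i → i < φ.bdS
  | .eq _ _, _, h => h.elim
  | .lt _ _, _, h => h.elim
  | .mem _ j, i, h => by
    have e : j = i := h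
    simp only [Fm.bdS]; omega
  | .neg φ, i, h => φ.lt_bdS h
  | .and φ ψ, i, h => by
    simp only [Fm.bdS]
    rcases h with h | h
    · have := φ.lt_bdS h; omega
    · have := ψ.lt_bdS h; omega
  | .all _ φ, i, h => φ.lt_bdS h
  | .allS j φ, i, h => by
    simp only [Fm.bdS]
    rcases h with h | h
    · omega
    · have := φ.lt_bdS h; omega

end Pool.Agent.PD2
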