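import Pool.Agent.Work.MP_a6ae3a_lc.OfPAM
import Pool.Agent.Work.MP_a6ae3a_lc.SatLem
import Pool.Agent.Work.MP_a6ae3a_lc.Cls

/-!
# From a model of the core to formulas

Bounded formulas are `Δ₁(X)`, `Σ⁰₁` formulas are `Σ₁(X)` relations, when the sets they mention
are `Δ₁(X)`; `Σ⁰₁` induction and `Δ⁰₁` comprehension in `ofPAM M S h`.
-/

namespace Pool.Agent.PD2

variable {M : Type} [PAM M] {X : M → Prop} {S : Set (Set M)} {h : S.Nonempty}

/-- Values of terms are `Σ₁` functions. -/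
theorem f1_val (X : M → Prop) (S : Set (Set M)) (h : S.Nonempty) (t : Tm) :
    F1 X (fun v : ℕ → M => (ofPAM M S h).val v t) := by
  induction t with
  | var i => exact f1_var i
  | zero => exact f1_const (0 : M)
  | one => exact f1_const (1 : M)
  | add s t hs ht => exact @f1_add M _ X _ _ hs ht
  | mul s t hs ht => exact @f1_mul M _ X _ _ hs ht

theorem update_eq_ite (i : ℕ) (x : M) (v : ℕ → M) :
    Function.update v i x = fun j => if j = i then x else v j := by
  funext j
  by_cases e : j = i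
  · subst e; simp only [Function.update_self, if_true]
  · simp only [Function.update_of_ne e, if_neg e]

theorem vr_upd (i j : ℕ) : Vr (fun v : ℕ → M => if j = i then v 0 else v (j + 1)) := by
  by_cases e : j = i
  · simp only [e, if_true]; exact vr_var 0
  · simp only [e, if_false]; exact vr_var _

/-- The named variable `i` is replaced by the new variable `0`. -/
theorem D1.upd {R : (ℕ → M) → Prop} (hR : D1 X R) (i : ℕ) :
    D1 X (fun v : ℕ → M => R (Function.update (fun j => v (j + 1)) i (v 0))) := by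
  refine D1.congr (D1.sub hR (g := fun j v => if j = i then v 0 else v (j + 1))
    (vr_upd i)) fun v => ?_
  rw [update_eq_ite]

/-- The named variable `i` is replaced by the new variable `0`. -/
theorem S1.upd {R : (ℕ → M) → Prop} (hR : S1 X R) (i : ℕ) :
    S1 X (fun v : ℕ → M => R (Function.update (fun j => v (j + 1)) i (v 0))) := by
  refine S1.congr (S1.sub hR (g := fun j v => if j = i then v 0 else v (j + 1))
    (vr_upd i)) fun v => ?_
  rw [update_eq_ite]

/-- Only the named variable `i` is kept. -/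
theorem D1.one {R : (ℕ → M) → Prop} (hR : D1 X R) (i : ℕ) (v : ℕ → M) :
    D1 X (fun u : ℕ → M => R (Function.update v i (u 0))) := by
  refine D1.congr (D1.sub hR (g := fun j u => if j = i then u 0 else v j)
    (fun j => by
      by_cases e : j = i
      · simp only [e, if_true]; exact vr_var 0
      · simp only [e, if_false]; exact vr_const _)) fun u => ?_
  rw [update_eq_ite]

/-- Only the named variable `i` is kept. -/
theorem S1.one {R : (ℕ → M) → Prop} (hR : S1 X R) (i : ℕ) (v : ℕ → M) :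
    S1 X (fun u : ℕ → M => R (Function.update v i (u 0))) := by
  refine S1.congr (S1.sub hR (g := fun j u => if j = i then u 0 else v j)
    (fun j => by
      by_cases e : j = i
      · simp only [e, if_true]; exact vr_var 0
      · simp only [e, if_false]; exact vr_const _)) fun u => ?_
  rw [update_eq_ite]

/-- Bounded formulas are `Δ₁`. -/
theorem d1_bdd [C1 X] {φ : Fm} (hφ : Bdd φ) (w : ℕ → Set M)
    (hw : ∀ i, φ.OccS i → D1 X (fun v => v 0 ∈ w i)) :
    D1 X (fun v : ℕ → M => (ofPAM M S h).Sat φ v w) := by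
  induction hφ with
  | eq s t =>
    exact @d1_eq M _ X _ _ (f1_val X S h s) (f1_val X S h t)
  | lt s t =>
    exact @d1_lt M _ X _ _ (f1_val X S h s) (f1_val X S h t)
  | mem t i =>
    exact D1.s1 (P := fun x => x ∈ w i) (hw i rfl) (f1_val X S h t)
  | neg _ ih => exact (ih hw).not
  | and _ _ ih ih' =>
    exact (ih fun i hi => hw i (Or.inl hi)).and (ih' fun i hi => hw i (Or.inr hi))
  | @ball i t ht φ _ ih =>
    have h0 : ∀ j, φ.OccS j → D1 X (fun v => v 0 ∈ w j) := fun j hj =>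
      hw j (Or.inr hj)
    have h1 := (ih h0).upd i
    have h2 := @d1_all M _ X _ _ (fun x v => (ofPAM M S h).Sat φ (Function.update v i x) w)
      (f1_val X S h t) h1
    exact D1.congr h2 fun v => ((ofPAM M S h).sat_ball φ ht v w).symm
  | @bex i t ht φ _ ih =>
    have h0 : ∀ j, φ.OccS j → D1 X (fun v => v 0 ∈ w j) := fun j hj =>
      hw j (Or.inr hj)
    have h1 := (ih h0).upd i
    have h2 := @d1_ex M _ X _ _ (fun x v => (ofPAM M S h).Sat φ (Function.update v i x) w)
      (f1_val X S h t) h1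
    exact D1.congr h2 fun v => ((ofPAM M S h).sat_bex φ ht v w).symm

/-- `Σ⁰₁` formulas are `Σ₁`. -/
theorem s1_sigma1 [C1 X] {φ : Fm} (hφ : IsSigma1 φ) (w : ℕ → Set M)
    (hw : ∀ i, φ.OccS i → D1 X (fun v => v 0 ∈ w i)) :
    S1 X (fun v : ℕ → M => (ofPAM M S h).Sat φ v w) := by
  obtain ⟨i, θ, hθ, rfl⟩ := hφ
  have h1 := (d1_bdd (M := M) (S := S) (h := h) hθ w hw).s.upd i
  exact S1.congr (S1.exists (M := M) (R := fun x v => (ofPAM M S h).Sat θ (Function.update v i x) w)
    h1) fun v => ((ofPAM M S h).sat_ex i θ v w).symm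

/-- `Π⁰₁` formulas are complements of `Σ₁` relations. -/
theorem s1_pi1 [C1 X] {φ : Fm} (hφ : IsPi1 φ) (w : ℕ → Set M)
    (hw : ∀ i, φ.OccS i → D1 X (fun v => v 0 ∈ w i)) :
    S1 X (fun v : ℕ → M => ¬ (ofPAM M S h).Sat φ v w) := by
  obtain ⟨i, θ, hθ, rfl⟩ := hφ
  have h1 := (d1_bdd (M := M) (S := S) (h := h) hθ w hw).p.upd i
  refine S1.congr (S1.exists (M := M)
    (R := fun x v => ¬ (ofPAM M S h).Sat θ (Function.update v i x) w) h1) fun v => ?_
  exact not_forall.symm

/-- `Σ⁰₁` induction in `ofPAM M S h`. -/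
theorem valid_ISigma1 (hS : ∀ w : ℕ → Set M, (∀ i, w i ∈ S) → ∀ n : ℕ,
    ∃ X : M → Prop, I1 X ∧ ∀ i, i < n → D1 X (fun v => v 0 ∈ w i)) :
    ∀ ψ ∈ ISigma1, (ofPAM M S h).Valid ψ := by
  rintro ψ ⟨φ, i, j, hφ, hji, hjφ, rfl⟩ v w hw
  obtain ⟨X, hX, hD⟩ := hS w hw φ.bdS
  have h1 : S1 X (fun v : ℕ → M => (ofPAM M S h).Sat φ v w) :=
    s1_sigma1 (M := M) hφ w fun i hi => hD i (φ.lt_bdS hi)
  have h2 : S1 X (fun u : ℕ → M => (ofPAM M S h).Sat φ (Function.update v i (u 0)) w) :=
    h1.one i v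
  unfold indAx
  rw [Str.sat_imp]
  rintro ⟨h0, hs⟩
  have n0 : ¬ Tm.zero.Occ i := fun e => e
  have nj : ¬ (tx j).Occ i := fun e => hji e
  have nj1 : ¬ (Tm.add (tx j) .one).Occ i := by
    rintro (e | e)
    · exact hji e
    · exact e
  rw [Str.sat_at _ _ n0] at h0
  intro x
  refine ind_s (X := X) (P := fun x => (ofPAM M S h).Sat φ (Function.update v i x) w) h2 h0
    (fun y hy => ?_) x
  have h3 := hs y
  rw [Str.sat_imp, Str.sat_at _ _ nj, Str.sat_at _ _ nj1] at h3
  have e1 : (ofPAM M S h).val (Function.update v j y) (tx j) = y := by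
    simp only [Str.val, Function.update_self]
  have e2 : (ofPAM M S h).val (Function.update v j y) (Tm.add (tx j) .one) =
      (id (y : M) + 1 : M) := by
    simp only [Str.val, Function.update_self]
    rfl
  rw [e1, e2] at h3
  rw [Function.update_comm hji, Function.update_comm hji] at h3
  rw [Str.sat_update _ hjφ, Str.sat_update _ hjφ] at h3
  exact h3 hy

/-- `Δ⁰₁` comprehension in `ofPAM M S h`. -/
theorem valid_DeltaCA (hS : ∀ w : ℕ → Set M, (∀ i, w i ∈ S) → ∀ n : ℕ,
    ∃ X : M → Prop, C1 X ∧ (∀ i, i < n → D1 X (fun v => v 0 ∈ w i)) ∧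
      ∀ A : Set M, D1 X (fun v => v 0 ∈ A) → A ∈ S) :
    ∀ ψ ∈ DeltaCA, (ofPAM M S h).Valid ψ := by
  rintro χ ⟨φ, ψ, i, k, hφ, hψ, hkφ, hkψ, rfl⟩ v w hw
  obtain ⟨X, hX, hD, hA⟩ := hS w hw (max φ.bdS ψ.bdS)
  have h1 : S1 X (fun v : ℕ → M => (ofPAM M S h).Sat φ v w) :=
    s1_sigma1 (M := M) hφ w fun i hi => hD i (lt_of_lt_of_le (φ.lt_bdS hi) (le_max_left _ _))
  have h1' : S1 X (fun v : ℕ → M => ¬ (ofPAM M S h).Sat ψ v w) :=
    s1_pi1 (M := M) hψ w fun i hi => hD i (lt_of_lt_of_le (ψ.lt_bdS hi) (le_max_right _ _))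
  unfold compAx
  rw [Str.sat_imp]
  intro h2
  have h3 : ∀ x : M, (ofPAM M S h).Sat φ (Function.update v i x) w ↔
      (ofPAM M S h).Sat ψ (Function.update v i x) w := fun x => by
    have h4 := h2 x
    rw [Str.sat_iff] at h4
    exact h4
  rw [Str.sat_exS]
  refine ⟨{x : M | (ofPAM M S h).Sat φ (Function.update v i x) w}, ?_, ?_⟩
  · refine hA _ ⟨h1.one i v, S1.congr (h1'.one i v) fun u => ?_⟩
    exact not_congr (h3 (u 0)).symm
  · intro x
    rw [Str.sat_iff]
    rw [Str.sat_updateS _ hkφ]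
    simp only [Str.Sat, Str.val, Function.update_self]
    exact Iff.rfl

end Pool.Agent.PD2
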