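import Pool.Agent.Work.MP_a6ae3a_lc.API
import Pool.Agent.Work.MP_a6ae3a_lc.Back

/-!
# `BΣ⁰₂` in `ofPAM M S h`
-/

namespace Pool.Agent.PD2

variable {M : Type} [PAM M] [IM M] {X : M → Prop} {S : Set (Set M)} {h : S.Nonempty}

/-- `Σ⁰₂` formulas are `Σ₁` over the jump. -/
theorem s1_sigma2 [I1 X] {φ : Fm} (hφ : IsSigma2 φ) (w : ℕ → Set M)
    (hw : ∀ i, φ.OccS i → D1 X (fun v => v 0 ∈ w i)) :
    S1 (jp X) (fun v : ℕ → M => (ofPAM M S h).Sat φ v w) := by
  obtain ⟨i, j, θ, hθ, rfl⟩ := hφ
  have h1 := (d1_bdd (M := M) (S := S) (h := h) hθ w hw).p.upd j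
  have h2 : S1 X (fun v : ℕ → M => ¬ (ofPAM M S h).Sat (.all j θ) v w) :=
    S1.congr (S1.exists (M := M)
      (R := fun x v => ¬ (ofPAM M S h).Sat θ (Function.update v j x) w) h1) fun v =>
        not_forall.symm
  have h3 := h2.upd i
  exact S1.congr (s1_jp (M := M)
    (R := fun x v => (ofPAM M S h).Sat (.all j θ) (Function.update v i x) w) h3)
    fun v => ((ofPAM M S h).sat_ex i (.all j θ) v w).symm

/-- Only the named variables `i`, `j` are kept. -/
theorem S1.two {R : (ℕ → M) → Prop} (hR : S1 X R) {i j : ℕ} (v : ℕ → M) :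
    S1 X (fun u : ℕ → M => R (Function.update (Function.update v i (u 0)) j (u 1))) := by
  refine S1.congr (S1.sub hR (g := fun n u => if n = j then u 1 else if n = i then u 0 else v n)
    (fun n => by
      by_cases e : n = j
      · simp only [e, if_true]; exact vr_var 1
      · by_cases e' : n = i
        · subst e'
          simp only [e, if_true, if_false]; exact vr_var 0
        · simp only [e, e', if_false]; exact vr_const _)) fun u => ?_
  have e : (fun n => if n = j then u 1 else if n = i then u 0 else v n) =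
      Function.update (Function.update v i (u 0)) j (u 1) := by
    rw [update_eq_ite, update_eq_ite]
  rw [e]

/-- `BΣ⁰₂` in `ofPAM M S h`. -/
theorem valid_BSigma2 (hS : ∀ w : ℕ → Set M, (∀ i, w i ∈ S) → ∀ n : ℕ,
    ∃ X : M → Prop, B2 X ∧ ∀ i, i < n → D1 X (fun v => v 0 ∈ w i)) :
    ∀ ψ ∈ BSigma2, (ofPAM M S h).Valid ψ := by
  rintro χ ⟨φ, i, j, k, l, hφ, hij, hki, hkj, hli, hlj, hlk, hkφ, hlφ, rfl⟩ v w hw
  obtain ⟨X, hX, hD⟩ := hS w hw φ.bdS
  have h1 : S1 (jp X) (fun v : ℕ → M => (ofPAM M S h).Sat φ v w) :=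
    s1_sigma2 (M := M) hφ w fun i hi => hD i (φ.lt_bdS hi)
  have h2 := h1.two (i := i) (j := j) v
  have nk : ¬ (tx k).Occ i := fun e => hki e
  have nl : ¬ (tx l).Occ j := fun e => hlj e
  unfold collAx
  rw [Str.sat_imp, Str.sat_ball _ _ nk]
  intro h3
  have h4 : ∀ x : M, x < v k → ∃ y : M,
      (ofPAM M S h).Sat φ (Function.update (Function.update v i x) j y) w := fun x hx => by
    have h5 := h3 x hx
    rw [Str.sat_ex] at h5
    exact h5
  obtain ⟨b, hb⟩ := coll_s (X := jp X) (P := fun x y =>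
    (ofPAM M S h).Sat φ (Function.update (Function.update v i x) j y) w) h2 (v k) h4
  rw [Str.sat_ex]
  refine ⟨b, ?_⟩
  rw [Str.sat_ball _ _ nk]
  intro x hx
  have e1 : (ofPAM M S h).val (Function.update v l b) (tx k) = v k := by
    simp only [Str.val]
    rw [Function.update_of_ne (fun e => hlk e.symm)]
  rw [e1] at hx
  rw [Str.sat_bex _ _ nl]
  obtain ⟨y, hy, hy'⟩ := hb x hx
  refine ⟨y, ?_, ?_⟩
  · have e2 : (ofPAM M S h).val (Function.update (Function.update v l b) i x) (tx l) = b := by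
      simp only [Str.val]
      rw [Function.update_of_ne hli, Function.update_self]
    rw [e2]
    exact hy
  · rw [Function.update_comm hli, Function.update_comm hlj, Str.sat_update _ hlφ]
    exact hy'

end Pool.Agent.PD2
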