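import Pool.Agent.Work.MP_a6ae3a_lc.OfPAM
import Pool.Agent.Work.MP_a6ae3a_lc.Cls

/-!
# Basic facts on truth in structures for second order arithmetic
-/

namespace Pool.Agent.PD2

variable {M : Type} [PAM M]

/-- Value of a term in a model of `PA⁻`. -/
def tval (v : ℕ → M) : Tm → M
  | .var i => v i
  | .zero => 0
  | .one => 1
  | .add s t => tval v s + tval v t
  | .mul s t => tval v s * tval v t

/-- Truth in a model of `PA⁻` with sets `S`. -/
def SatP (S : Set (Set M)) : Fm → (ℕ → M) → (ℕ → Set M) → Prop
  | .eq s t, v, _ => tval v s = tval v t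
  | .lt s t, v, _ => tval v s < tval v t
  | .mem t i, v, w => tval v t ∈ w i
  | .neg φ, v, w => ¬ SatP S φ v w
  | .and φ ψ, v, w => SatP S φ v w ∧ SatP S ψ v w
  | .all i φ, v, w => ∀ x : M, SatP S φ (Function.update v i x) w
  | .allS i φ, v, w => ∀ Z : Set M, Z ∈ S → SatP S φ v (Function.update w i Z)

variable {S : Set (Set M)} {h : S.Nonempty}

theorem val_ofPAM (v : ℕ → M) (t : Tm) : (ofPAM M S h).val v t = tval v t := by
  induction t with
  | var i => rfl
  | zero => rfl
  | one => rfl
  | add s t ihs iht => exact congrArg₂ (· + ·) ihs iht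
  | mul s t ihs iht => exact congrArg₂ (· * ·) ihs iht

theorem sat_ofPAM (φ : Fm) : ∀ (v : ℕ → M) (w : ℕ → Set M),
    (ofPAM M S h).Sat φ v w ↔ SatP S φ v w := by
  induction φ with
  | eq s t =>
    intro v w
    have e : (ofPAM M S h).Sat (.eq s t) v w ↔
        (ofPAM M S h).val v s = (ofPAM M S h).val v t := Iff.rfl
    rw [e, val_ofPAM, val_ofPAM]
    exact Iff.rfl
  | lt s t =>
    intro v w
    have e : (ofPAM M S h).Sat (.lt s t) v w ↔
        (fun a b : M => a < b) ((ofPAM M S h).val v s) ((ofPAM M S h).val v t) := Iff.rfl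
    rw [e, val_ofPAM, val_ofPAM]
    exact Iff.rfl
  | mem t i =>
    intro v w
    have e : (ofPAM M S h).Sat (.mem t i) v w ↔ (ofPAM M S h).val v t ∈ w i := Iff.rfl
    rw [e, val_ofPAM]
    exact Iff.rfl
  | neg φ ih => exact fun v w => not_congr (ih v w)
  | and φ ψ ih1 ih2 => exact fun v w => and_congr (ih1 v w) (ih2 v w)
  | all i φ ih => exact fun v w => forall_congr' fun x => ih _ _
  | allS i φ ih => exact fun v w => forall_congr' fun Z => imp_congr_right fun _ => ih _ _

variable {v v' : ℕ → M} {w w' : ℕ → Set M} {φ ψ : Fm}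

theorem sat_or : SatP S (φ.or ψ) v w ↔ SatP S φ v w ∨ SatP S ψ v w := by
  simp only [Fm.or, SatP, not_and_or, not_not]

theorem sat_imp : SatP S (φ.imp ψ) v w ↔ (SatP S φ v w → SatP S ψ v w) := by
  simp only [Fm.imp, SatP, not_and, not_not]

theorem sat_iff : SatP S (φ.iff ψ) v w ↔ (SatP S φ v w ↔ SatP S ψ v w) := by
  simp only [Fm.iff, SatP, sat_imp]
  exact ⟨fun h => ⟨h.1, h.2⟩, fun h => ⟨h.1, h.2⟩⟩

theorem sat_ex {i : ℕ} : SatP S (φ.ex i) v w ↔ ∃ x, SatP S φ (Function.update v i x) w := by
  simp only [Fm.ex, SatP, not_forall, not_not]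

theorem sat_exS {i : ℕ} :
    SatP S (φ.exS i) v w ↔ ∃ Z, Z ∈ S ∧ SatP S φ v (Function.update w i Z) := by
  simp only [Fm.exS, SatP, not_forall, not_not, exists_prop]

theorem tval_congr {t : Tm} (h : ∀ i, t.Occ i → v i = v' i) : tval v t = tval v' t := by
  induction t with
  | var i => exact h i rfl
  | zero => rfl
  | one => rfl
  | add s t ihs iht =>
    simp only [tval]
    rw [ihs fun i hi => h i (Or.inl hi), iht fun i hi => h i (Or.inr hi)]
  | mul s t ihs iht =>
    simp only [tval]
    rw [ihs fun i hi => h i (Or.inl hi), iht fun i hi => h i (Or.inr hi)]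

theorem tval_update {t : Tm} {i : ℕ} (hi : ¬ t.Occ i) (v : ℕ → M) (x : M) :
    tval (Function.update v i x) t = tval v t := by
  refine tval_congr fun j hj => Function.update_of_ne (fun e => ?_) _ _
  subst e
  exact hi hj

theorem tval_update_self {i : ℕ} (v : ℕ → M) (x : M) :
    tval (Function.update v i x) (.var i) = x := by
  simp only [tval, Function.update_self]

/-- Truth depends only on the variables that occur. -/
theorem sat_congr : ∀ {φ : Fm} {v v' : ℕ → M} {w w' : ℕ → Set M},
    (∀ i, φ.Occ i → v i = v' i) → (∀ i, φ.OccS i → w i = w' i) →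
    (SatP S φ v w ↔ SatP S φ v' w') := by
  intro φ
  induction φ with
  | eq s t =>
    intro v v' w w' h _
    simp only [SatP]
    rw [tval_congr (t := s) fun i hi => h i (Or.inl hi),
      tval_congr (t := t) fun i hi => h i (Or.inr hi)]
  | lt s t =>
    intro v v' w w' h _
    simp only [SatP]
    rw [tval_congr (t := s) fun i hi => h i (Or.inl hi),
      tval_congr (t := t) fun i hi => h i (Or.inr hi)]
  | mem t j =>
    intro v v' w w' h h'
    simp only [SatP]
    rw [tval_congr (t := t) fun i hi => h i hi, h' j rfl]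
  | neg φ ih =>
    intro v v' w w' h h'
    exact not_congr (ih h h')
  | and φ ψ ih1 ih2 =>
    intro v v' w w' h h'
    exact and_congr (ih1 (fun i hi => h i (Or.inl hi)) fun i hi => h' i (Or.inl hi))
      (ih2 (fun i hi => h i (Or.inr hi)) fun i hi => h' i (Or.inr hi))
  | all j φ ih =>
    intro v v' w w' h h'
    refine forall_congr' fun x => ih (fun i hi => ?_) fun i hi => h' i hi
    by_cases e : i = j
    · subst e
      simp only [Function.update_self]
    · simp only [Function.update_of_ne e]
      exact h i (Or.inr hi)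
  | allS j φ ih =>
    intro v v' w w' h h'
    refine forall_congr' fun Z => imp_congr_right fun _ => ih (fun i hi => h i hi) fun i hi => ?_
    by_cases e : i = j
    · subst e
      simp only [Function.update_self]
    · simp only [Function.update_of_ne e]
      exact h' i (Or.inr hi)

theorem sat_at {i : ℕ} {t : Tm} (hi : ¬ t.Occ i) :
    SatP S (φ.at i t) v w ↔ SatP S φ (Function.update v i (tval v t)) w := by
  simp only [Fm.at, SatP, sat_imp, tval_update hi, tval_update_self]
  exact ⟨fun h => h _ rfl, fun h x hx => hx ▸ h⟩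

theorem sat_ball {i : ℕ} {t : Tm} (hi : ¬ t.Occ i) :
    SatP S (.ball i t φ) v w ↔ ∀ x, x < tval v t → SatP S φ (Function.update v i x) w := by
  simp only [Fm.ball, SatP, sat_imp, tval_update hi, tval_update_self]

theorem sat_bex {i : ℕ} {t : Tm} (hi : ¬ t.Occ i) :
    SatP S (.bex i t φ) v w ↔ ∃ x, x < tval v t ∧ SatP S φ (Function.update v i x) w := by
  simp only [Fm.bex, SatP, sat_ex, tval_update hi, tval_update_self]

/-- For arithmetical formulas the sets of the structure are irrelevant. -/
theorem sat_arith {S' : Set (Set M)} {φ : Fm} (hφ : Arith φ) : ∀ (v : ℕ → M) (w : ℕ → Set M),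
    SatP S φ v w ↔ SatP S' φ v w := by
  induction hφ with
  | eq s t => exact fun v w => Iff.rfl
  | lt s t => exact fun v w => Iff.rfl
  | mem t i => exact fun v w => Iff.rfl
  | neg h ih => exact fun v w => not_congr (ih v w)
  | and h h' ih ih' => exact fun v w => and_congr (ih v w) (ih' v w)
  | all i h ih => exact fun v w => forall_congr' fun x => ih _ _

theorem valid_ofPAM (φ : Fm) : (ofPAM M S h).Valid φ ↔
    ∀ (v : ℕ → M) (w : ℕ → Set M), (∀ i, w i ∈ S) → SatP S φ v w :=
  forall_congr' fun v => forall_congr' fun w => imp_congr_right fun _ =>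
    sat_ofPAM (M := M) (S := S) (h := h) φ v w

end Pool.Agent.PD2
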