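import Pool.Agent.Work.MP_a6ae3a_lc.Back
import Pool.Agent.Work.MP_a6ae3a_lc.Sat

/-!
# The classes of formulas for `tval` and `SatP`
-/

namespace Pool.Agent.PD2

variable {M : Type} [PAM M] {X : M → Prop} {S : Set (Set M)}

/-- Values of terms are `Σ₁` functions. -/
theorem f1_tval (X : M → Prop) (t : Tm) : F1 X (fun v : ℕ → M => tval v t) :=
  F1.congr (f1_val X {∅} ⟨∅, rfl⟩ t) fun v => val_ofPAM v t

/-- Bounded formulas are `Δ₁`. -/
theorem d1_bddP [C1 X] (hS : S.Nonempty) {φ : Fm} (hφ : Bdd φ) (w : ℕ → Set M)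
    (hw : ∀ i, φ.OccS i → D1 X (fun v => v 0 ∈ w i)) :
    D1 X (fun v : ℕ → M => SatP S φ v w) :=
  D1.congr (d1_bdd (M := M) (S := S) (h := hS) hφ w hw) fun v =>
    sat_ofPAM (M := M) (S := S) (h := hS) φ v w

/-- `Σ⁰₁` formulas are `Σ₁`. -/
theorem s1_sigma1P [C1 X] (hS : S.Nonempty) {φ : Fm} (hφ : IsSigma1 φ) (w : ℕ → Set M)
    (hw : ∀ i, φ.OccS i → D1 X (fun v => v 0 ∈ w i)) :
    S1 X (fun v : ℕ → M => SatP S φ v w) :=
  S1.congr (s1_sigma1 (M := M) (S := S) (h := hS) hφ w hw) fun v =>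
    sat_ofPAM (M := M) (S := S) (h := hS) φ v w

/-- `Π⁰₁` formulas are complements of `Σ₁` relations. -/
theorem s1_pi1P [C1 X] (hS : S.Nonempty) {φ : Fm} (hφ : IsPi1 φ) (w : ℕ → Set M)
    (hw : ∀ i, φ.OccS i → D1 X (fun v => v 0 ∈ w i)) :
    S1 X (fun v : ℕ → M => ¬ SatP S φ v w) :=
  S1.congr (s1_pi1 (M := M) (S := S) (h := hS) hφ w hw) fun v =>
    not_congr (sat_ofPAM (M := M) (S := S) (h := hS) φ v w)

end Pool.Agent.PD2
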