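import Pool.Agent.Work.MP_a6ae3a_lc.Pair
import Pool.Agent.Work.MP_a6ae3a_lc.RecF

/-!
# Binary digits

`qt a b`, `rm a b`: quotient and remainder. `tw x`: the power `2 ^ x`. `Bt c x`: the digit `x` of
`c` is one; the number `c` codes the finite set of these `x`. `rs c n`: the part of the set `c`
below `n`.
-/

namespace Pool.Agent.PD2

variable {M : Type} [PAM M] {X : M → Prop}

/-! ### Division with remainder -/

theorem div_uniq {b q r q' r' : M} (h : b * q + r = b * q' + r') (hr : r < b) (hr' : r' < b) :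
    q = q' ∧ r = r' := by
  have key : ∀ q r q' r' : M, b * q + r = b * q' + r' → r < b → r' < b → ¬ q < q' := by
    intro q r q' r' h hr _ hq
    have h1 : b * (q + 1) ≤ b * q' := by
      have := succ_le_iff.2 hq
      gcongr
    have h2 : b * q + r < b * (q + 1) := by
      rw [mul_add, mul_one]
      gcongr
    have h3 : b * q' ≤ b * q' + r' := le_self_add
    rw [← h] at h3
    exact absurd (h1.trans h3) (not_le.2 h2)
  have e : q = q' := le_antisymm (not_lt.1 (key q' r' q r h.symm hr' hr))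
    (not_lt.1 (key q r q' r' h hr hr'))
  subst e
  exact ⟨rfl, add_left_cancel h⟩

theorem exists_div [IM M] (a : M) {b : M} (hb : 0 < b) : ∃ q r, r < b ∧ a = b * q + r := by
  refine ind_s (X := eS M) (P := fun a => ∃ q r, r < b ∧ a = b * q + r) inferInstance
    ⟨0, 0, hb, by simp⟩ ?_ a
  rintro x ⟨q, r, hr, rfl⟩
  rcases (succ_le_iff.2 hr).lt_or_eq with h | h
  · exact ⟨q, r + 1, h, by ring⟩
  · exact ⟨q + 1, 0, hb, by rw [← h]; ring⟩

open Classical in
/-- The quotient. -/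
noncomputable def qt (a b : M) : M :=
  if h : ∃ q r, r < b ∧ a = b * q + r then h.choose else 0

open Classical in
/-- The remainder. -/
noncomputable def rm (a b : M) : M :=
  if h : ∃ r q, r < b ∧ a = b * q + r then h.choose else 0

theorem qt_eq {a b q r : M} (hr : r < b) (h : a = b * q + r) : qt a b = q := by
  have h1 : ∃ q r, r < b ∧ a = b * q + r := ⟨q, r, hr, h⟩
  unfold qt
  rw [dif_pos h1]
  obtain ⟨r', hr', h'⟩ := h1.choose_spec
  exact (div_uniq (h'.symm.trans h) hr' hr).1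

theorem rm_eq {a b q r : M} (hr : r < b) (h : a = b * q + r) : rm a b = r := by
  have h1 : ∃ r q, r < b ∧ a = b * q + r := ⟨r, q, hr, h⟩
  unfold rm
  rw [dif_pos h1]
  obtain ⟨q', hr', h'⟩ := h1.choose_spec
  exact (div_uniq (h'.symm.trans h) hr' hr).2

theorem qt_rm [IM M] (a : M) {b : M} (hb : 0 < b) : a = b * qt a b + rm a b := by
  obtain ⟨q, r, hr, h⟩ := exists_div a hb
  rw [qt_eq hr h, rm_eq hr h]
  exact h

theorem rm_lt [IM M] (a : M) {b : M} (hb : 0 < b) : rm a b < b := by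
  obtain ⟨q, r, hr, h⟩ := exists_div a hb
  rw [rm_eq hr h]
  exact hr

theorem qt_zero (a : M) : qt a 0 = 0 := by
  unfold qt
  rw [dif_neg]
  rintro ⟨q, r, hr, _⟩
  exact not_lt_zero' r hr

theorem rm_zero (a : M) : rm a 0 = 0 := by
  unfold rm
  rw [dif_neg]
  rintro ⟨r, q, hr, _⟩
  exact not_lt_zero' r hr

theorem qt_f1 [IM M] : F1 (eS M) (fun v => qt (v 0) (v 1)) := by
  refine F1.of_graph (R := fun y v => (∃ r, r < v 1 ∧ v 0 = v 1 * y + r) ∨ (v 1 = 0 ∧ y = 0))
    inferInstance fun v y => ?_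
  constructor
  · rintro rfl
    rcases eq_or_ne (v 1) 0 with h | h
    · exact Or.inr ⟨h, by rw [h, qt_zero]⟩
    · have h' : 0 < v 1 := lt_of_le_of_ne (zle _) h.symm
      exact Or.inl ⟨_, rm_lt _ h', qt_rm _ h'⟩
  · rintro (⟨r, hr, h⟩ | ⟨h, rfl⟩)
    · exact (qt_eq hr h).symm
    · rw [h, qt_zero]

theorem rm_f1 [IM M] : F1 (eS M) (fun v => rm (v 0) (v 1)) := by
  refine F1.of_graph (R := fun y v => (∃ q, y < v 1 ∧ v 0 = v 1 * q + y) ∨ (v 1 = 0 ∧ y = 0))
    inferInstance fun v y => ?_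
  constructor
  · rintro rfl
    rcases eq_or_ne (v 1) 0 with h | h
    · exact Or.inr ⟨h, by rw [h, rm_zero]⟩
    · have h' : 0 < v 1 := lt_of_le_of_ne (zle _) h.symm
      exact Or.inl ⟨_, rm_lt _ h', qt_rm _ h'⟩
  · rintro (⟨q, hr, h⟩ | ⟨h, rfl⟩)
    · exact (rm_eq hr h).symm
    · rw [h, rm_zero]

instance f1_qt [IM M] {f g : (ℕ → M) → M} [hf : F1 X f] [hg : F1 X g] :
    F1 X (fun v => qt (f v) (g v)) := F1.s2 (f := fun x y => qt x y) qt_f1.lift hf hg

instance f1_rm [IM M] {f g : (ℕ → M) → M} [hf : F1 X f] [hg : F1 X g] :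
    F1 X (fun v => rm (f v) (g v)) := F1.s2 (f := fun x y => rm x y) rm_f1.lift hf hg

/-! ### Powers of two -/

theorem exists_tw (M : Type) [PAM M] [IM M] : ∃ h : M → M, h 0 = 1 ∧
    (∀ n, h (n + 1) = h n + h n) ∧ F1 (eS M) (fun v => h (v 0)) := by
  obtain ⟨f, h1, h2, h3⟩ := prim0_im (1 : M) (h := fun _ y => y + y) inferInstance
  exact ⟨f, h1, h2, h3 _⟩

/-- The power `2 ^ x`. -/
noncomputable def tw [IM M] (x : M) : M := (exists_tw M).choose x

section tw

variable [IM M]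

@[simp] theorem tw_zero : tw (0 : M) = 1 := (exists_tw M).choose_spec.1

theorem tw_succ (x : M) : tw (x + 1) = tw x + tw x := (exists_tw M).choose_spec.2.1 x

theorem tw_succ' (x : M) : tw (x + 1) = 2 * tw x := by rw [tw_succ, two_mul]

theorem tw_f1 : F1 (eS M) (fun v => tw (v 0)) := (exists_tw M).choose_spec.2.2

instance f1_tw {f : (ℕ → M) → M} [hf : F1 X f] : F1 X (fun v => tw (f v)) :=
  F1.s1 (f := fun x => tw x) tw_f1.lift hf

theorem tw_pos (x : M) : 0 < tw x := by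
  refine ind_d (eS M) (P := fun x => 0 < tw x) inferInstance ?_ ?_ x
  · rw [tw_zero]; exact zero_lt_one
  · intro x hx
    rw [tw_succ]; positivity

theorem tw_ne (x : M) : tw x ≠ 0 := (tw_pos x).ne'

theorem one_le_tw (x : M) : 1 ≤ tw x := PAM.one_le _ (tw_pos x)

theorem tw_add (x y : M) : tw (x + y) = tw x * tw y := by
  refine ind_d (eS M) (P := fun y => tw (x + y) = tw x * tw y) inferInstance ?_ ?_ y
  · rw [add_zero, tw_zero, mul_one]
  · intro y hy
    rw [← add_assoc, tw_succ, tw_succ, hy]; ring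

theorem tw_le {x y : M} (h : x ≤ y) : tw x ≤ tw y := by
  obtain ⟨z, rfl⟩ := exists_add_of_le h
  rw [tw_add]
  calc tw x = tw x * 1 := (mul_one _).symm
    _ ≤ tw x * tw z := by gcongr; exact one_le_tw z

theorem tw_lt_succ (x : M) : tw x < tw (x + 1) := by
  rw [tw_succ]
  exact lt_add_of_pos_right _ (tw_pos x)

theorem tw_lt {x y : M} (h : x < y) : tw x < tw y :=
  lt_of_lt_of_le (tw_lt_succ x) (tw_le (succ_le_iff.2 h))

theorem tw_lt_iff {x y : M} : tw x < tw y ↔ x < y :=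
  ⟨fun h => by
    by_contra h1
    exact absurd h (not_lt.2 (tw_le (not_lt.1 h1))), tw_lt⟩

theorem tw_le_iff {x y : M} : tw x ≤ tw y ↔ x ≤ y := by
  rw [← not_lt, tw_lt_iff, not_lt]

theorem tw_inj {x y : M} (h : tw x = tw y) : x = y :=
  le_antisymm (tw_le_iff.1 h.le) (tw_le_iff.1 h.ge)

theorem lt_tw (x : M) : x < tw x := by
  refine ind_d (eS M) (P := fun x => x < tw x) inferInstance ?_ ?_ x
  · rw [tw_zero]; exact zero_lt_one
  · intro x hx
    rw [tw_succ]
    have h1 : x + 1 ≤ tw x := succ_le_iff.2 hx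
    exact lt_of_le_of_lt h1 (lt_add_of_pos_right _ (tw_pos x))

/-! ### Binary digits -/

/-- The digit `x` of `c` is one. -/
def Bt (c x : M) : Prop := rm (qt c (tw x)) 2 = 1

instance d1_bt {f g : (ℕ → M) → M} [hf : F1 X f] [hg : F1 X g] :
    D1 X (fun v => Bt (f v) (g v)) := by
  unfold Bt; infer_instance

theorem tw_one : tw (1 : M) = 2 := by
  have := tw_succ' (0 : M)
  rwa [zero_add, tw_zero, mul_one] at this

omit [IM M] in
theorem one_lt_two' : (1 : M) < 2 := by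
  rw [← one_add_one_eq_two]; exact lt_succ_self 1

theorem even_or_odd' (a : M) : ∃ k, a = 2 * k ∨ a = 2 * k + 1 := by
  obtain ⟨q, r, hr, h⟩ := exists_div a (zero_lt_two : (0 : M) < 2)
  refine ⟨q, ?_⟩
  have h1 : r < 0 + 1 + 1 := by rwa [zero_add, one_add_one_eq_two]
  rcases lt_succ_cases h1 with h2 | h2
  · rcases lt_succ_cases h2 with h3 | h3
    · exact absurd h3 (not_lt_zero' r)
    · left; rw [h, h3, add_zero]
  · right; rw [h, h2, zero_add]

omit [IM M] in
theorem odd_rm (k : M) : rm (2 * k + 1) 2 = 1 := rm_eq one_lt_two' rfl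

omit [IM M] in
theorem even_rm (k : M) : rm (2 * k) 2 = 0 := rm_eq zero_lt_two (add_zero _).symm

theorem rm_two_iff (a : M) : rm a 2 = 1 ↔ ∃ k, a = 2 * k + 1 := by
  constructor
  · intro h
    obtain ⟨k, rfl | rfl⟩ := even_or_odd' a
    · rw [even_rm] at h
      exact absurd h zero_ne_one
    · exact ⟨k, rfl⟩
  · rintro ⟨k, rfl⟩
    exact odd_rm k

theorem bt_of_odd {c x q r : M} (hr : r < tw x) (h : c = tw x * (2 * q + 1) + r) : Bt c x := by
  unfold Bt
  rw [qt_eq hr h, odd_rm]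

theorem not_bt_of_even {c x q r : M} (hr : r < tw x) (h : c = tw x * (2 * q) + r) :
    ¬ Bt c x := by
  unfold Bt
  rw [qt_eq hr h, even_rm]
  exact zero_ne_one

theorem bt_iff {c x : M} : Bt c x ↔ ∃ q r, r < tw x ∧ c = tw x * (2 * q + 1) + r := by
  constructor
  · intro h
    unfold Bt at h
    obtain ⟨k, hk⟩ := (rm_two_iff _).1 h
    refine ⟨k, rm c (tw x), rm_lt _ (tw_pos x), ?_⟩
    rw [← hk]
    exact qt_rm _ (tw_pos x)
  · rintro ⟨q, r, hr, h⟩
    exact bt_of_odd hr h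

theorem not_bt_iff {c x : M} : ¬ Bt c x ↔ ∃ q r, r < tw x ∧ c = tw x * (2 * q) + r := by
  constructor
  · intro h
    unfold Bt at h
    obtain ⟨k, hk | hk⟩ := even_or_odd' (qt c (tw x))
    · refine ⟨k, rm c (tw x), rm_lt _ (tw_pos x), ?_⟩
      rw [← hk]
      exact qt_rm _ (tw_pos x)
    · rw [hk, odd_rm] at h
      exact absurd rfl h
  · rintro ⟨q, r, hr, h⟩
    exact not_bt_of_even hr h

/-- A number with a digit `x` is at least `2 ^ x`. -/
theorem Bt.tw_le {c x : M} (h : Bt c x) : tw x ≤ c := by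
  obtain ⟨q, r, _, rfl⟩ := bt_iff.1 h
  calc tw x = tw x * 1 := (mul_one _).symm
    _ ≤ tw x * (2 * q + 1) := by gcongr; exact le_add_self
    _ ≤ _ := le_self_add

theorem Bt.lt {c x : M} (h : Bt c x) : x < c := lt_of_lt_of_le (lt_tw x) h.tw_le

theorem Bt_lt {c x : M} (h : Bt c x) : x < c := h.lt

theorem not_bt_of_lt {c x : M} (h : c < tw x) : ¬ Bt c x := fun h1 => not_lt.2 h1.tw_le h

theorem Bt.lt_of_lt {c x n : M} (h : Bt c x) (hc : c < tw n) : x < n := by
  by_contra h1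
  exact not_bt_of_lt (lt_of_lt_of_le hc (Pool.Agent.PD2.tw_le (not_lt.1 h1))) h

theorem not_bt_zero (x : M) : ¬ Bt 0 x := not_bt_of_lt (tw_pos x)

theorem bt_zero (x : M) : ¬ Bt 0 x := not_bt_zero x

/-- Lower digits of a sum. -/
theorem bt_low {n q r x : M} (hx : x < n) : Bt (tw n * q + r) x ↔ Bt r x := by
  obtain ⟨z, hz⟩ := exists_add_of_le (succ_le_iff.2 hx)
  have e : tw n = tw x * (2 * tw z) := by
    rw [hz, tw_add, tw_succ]; ring
  have h2 : ∀ r, Bt r x → Bt (tw n * q + r) x := by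
    intro r h
    obtain ⟨k, s, hs, rfl⟩ := bt_iff.1 h
    exact bt_of_odd (q := tw z * q + k) hs (by rw [e]; ring)
  constructor
  · intro h
    by_contra h1
    obtain ⟨k, s, hs, rfl⟩ := not_bt_iff.1 h1
    exact not_bt_of_even (q := tw z * q + k) hs (by rw [e]; ring) h
  · exact h2 r

/-- Higher digits of a sum. -/
theorem bt_high {n q r y : M} (hr : r < tw n) : Bt (tw n * q + r) (n + y) ↔ Bt q y := by
  have key : ∀ s, s < tw y → tw n * s + r < tw (n + y) := by
    intro s hs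
    rw [tw_add]
    calc tw n * s + r < tw n * s + tw n := by gcongr
      _ = tw n * (s + 1) := by ring
      _ ≤ tw n * tw y := by
        have := succ_le_iff.2 hs
        gcongr
  constructor
  · intro h
    by_contra h1
    obtain ⟨k, s, hs, rfl⟩ := not_bt_iff.1 h1
    exact not_bt_of_even (q := k) (key s hs) (by rw [tw_add]; ring) h
  · intro h
    obtain ⟨k, s, hs, rfl⟩ := bt_iff.1 h
    exact bt_of_odd (q := k) (key s hs) (by rw [tw_add]; ring)

theorem bt_zero_iff {q : M} : Bt q 0 ↔ ∃ k, q = 2 * k + 1 := by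
  rw [bt_iff]
  constructor
  · rintro ⟨k, r, hr, rfl⟩
    rw [tw_zero] at hr ⊢
    have : r = 0 := by
      have := lt_succ_iff.1 (by rwa [zero_add] : r < 0 + 1)
      exact le_antisymm this (zle r)
    exact ⟨k, by rw [this]; ring⟩
  · rintro ⟨k, rfl⟩
    exact ⟨k, 0, tw_pos 0, by rw [tw_zero]; ring⟩

theorem bt_odd_succ {k y : M} : Bt (2 * k + 1) (y + 1) ↔ Bt k y := by
  have := bt_high (n := (1 : M)) (q := k) (r := 1) (y := y) (by rw [tw_one]; exact one_lt_two')
  rwa [tw_one, add_comm 1 y] at this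

theorem bt_even_succ {k y : M} : Bt (2 * k) (y + 1) ↔ Bt k y := by
  have := bt_high (n := (1 : M)) (q := k) (r := 0) (y := y) (by rw [tw_one]; exact zero_lt_two)
  rwa [tw_one, add_comm 1 y, add_zero] at this

/-- Adding a new element. -/
theorem bt_add_tw {c x y : M} (h : ¬ Bt c x) : Bt (c + tw x) y ↔ Bt c y ∨ y = x := by
  obtain ⟨k, r, hr, rfl⟩ := not_bt_iff.1 h
  have e : tw x * (2 * k) + r + tw x = tw x * (2 * k + 1) + r := by ring
  rw [e]
  rcases lt_trichotomy y x with h1 | h1 | h1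
  · rw [bt_low h1, bt_low h1]
    simp [h1.ne]
  · subst h1
    simp only [or_true, iff_true]
    exact bt_of_odd hr rfl
  · obtain ⟨z, rfl⟩ := exists_add_of_le (succ_le_iff.2 h1)
    have e2 : x + 1 + z = x + (z + 1) := by ring
    rw [e2, bt_high hr, bt_high hr, bt_odd_succ, bt_even_succ]
    have : x + (z + 1) ≠ x := by
      rw [← e2]; exact h1.ne'
    simp [this]

/-- Removing an element. -/
theorem bt_sub_tw {c x : M} (h : Bt c x) : ∃ d, c = d + tw x ∧ ¬ Bt d x ∧
    ∀ y, Bt d y ↔ Bt c y ∧ y ≠ x := by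
  obtain ⟨k, r, hr, rfl⟩ := bt_iff.1 h
  have h1 : ¬ Bt (tw x * (2 * k) + r) x := not_bt_of_even hr rfl
  have e : tw x * (2 * k + 1) + r = tw x * (2 * k) + r + tw x := by ring
  refine ⟨tw x * (2 * k) + r, e, h1, fun y => ?_⟩
  rw [e, bt_add_tw h1]
  constructor
  · intro h2
    exact ⟨Or.inl h2, fun h3 => h1 (h3 ▸ h2)⟩
  · rintro ⟨h2 | h2, h3⟩
    · exact h2
    · exact absurd h2 h3

/-! ### Restriction -/

/-- The elements of `c` below `n`. -/
noncomputable def rs (c n : M) : M := rm c (tw n)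

instance f1_rs {f g : (ℕ → M) → M} [hf : F1 X f] [hg : F1 X g] :
    F1 X (fun v => rs (f v) (g v)) := by
  unfold rs; infer_instance

theorem rs_lt (c n : M) : rs c n < tw n := rm_lt _ (tw_pos n)

theorem rs_eq {c n q r : M} (hr : r < tw n) (h : c = tw n * q + r) : rs c n = r := rm_eq hr h

theorem rs_of_lt {c n : M} (h : c < tw n) : rs c n = c := rs_eq (q := 0) h (by ring)

@[simp] theorem bt_rs {c n x : M} : Bt (rs c n) x ↔ x < n ∧ Bt c x := by
  have h1 := qt_rm c (tw_pos n)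
  constructor
  · intro h
    have hx : x < n := h.lt_of_lt (rs_lt c n)
    refine ⟨hx, ?_⟩
    rw [h1, bt_low hx]
    exact h
  · rintro ⟨hx, h⟩
    rwa [h1, bt_low hx] at h

theorem rs_zero (c : M) : rs c 0 = 0 := by
  have := rs_lt c 0
  rw [tw_zero] at this
  have := lt_succ_iff.1 (by rwa [zero_add] : rs c 0 < 0 + 1)
  exact le_antisymm this (zle _)

theorem rs_succ_pos {c n : M} (h : Bt c n) : rs c (n + 1) = rs c n + tw n := by
  obtain ⟨k, r, hr, rfl⟩ := bt_iff.1 h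
  rw [rs_eq (n := n) hr rfl]
  refine rs_eq (q := k) ?_ (by rw [tw_succ]; ring)
  rw [tw_succ]; gcongr

theorem rs_succ_neg {c n : M} (h : ¬ Bt c n) : rs c (n + 1) = rs c n := by
  obtain ⟨k, r, hr, rfl⟩ := not_bt_iff.1 h
  rw [rs_eq (n := n) hr rfl]
  exact rs_eq (q := k) (lt_trans hr (tw_lt_succ n)) (by rw [tw_succ]; ring)

theorem rs_le (c n : M) : rs c n ≤ c := by
  have h1 := qt_rm c (tw_pos n)
  calc rs c n ≤ tw n * qt c (tw n) + rm c (tw n) := le_add_self
    _ = c := h1.symm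

/-! ### Extensionality -/

theorem rs_ext {c d n : M} (h : ∀ x, x < n → (Bt c x ↔ Bt d x)) : rs c n = rs d n := by
  have h1 : ∀ m, m ≤ n → rs c m = rs d m := by
    intro m
    refine ind_d (eS M) (P := fun m => m ≤ n → rs c m = rs d m) inferInstance ?_ ?_ m
    · intro _; rw [rs_zero, rs_zero]
    · intro m ih hm
      have hm' := succ_le_iff.1 hm
      have ih' := ih hm'.le
      by_cases hc : Bt c m
      · rw [rs_succ_pos hc, rs_succ_pos ((h m hm').1 hc), ih']
      · rw [rs_succ_neg hc, rs_succ_neg (fun h2 => hc ((h m hm').2 h2)), ih']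
  exact h1 n le_rfl

theorem bt_ext_lt {c d n : M} (hc : c < tw n) (hd : d < tw n)
    (h : ∀ x, x < n → (Bt c x ↔ Bt d x)) : c = d := by
  have := rs_ext h
  rwa [rs_of_lt hc, rs_of_lt hd] at this

theorem bt_ext {c d : M} (h : ∀ x, Bt c x ↔ Bt d x) : c = d := by
  have hc : c < tw (c + d) := lt_of_le_of_lt le_self_add (lt_tw (c + d))
  have hd : d < tw (c + d) := lt_of_le_of_lt le_add_self (lt_tw (c + d))
  exact bt_ext_lt hc hd fun x _ => h x

/-- A number is below `2 ^ n` if all its digits are below `n`. -/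
theorem lt_tw_of {c n : M} (h : ∀ x, Bt c x → x < n) : c < tw n := by
  have : rs c n = c := bt_ext fun x => by
    rw [bt_rs]
    exact ⟨fun h1 => h1.2, fun h1 => ⟨h x h1, h1⟩⟩
  rw [← this]
  exact rs_lt c n

theorem lt_tw_iff {c n : M} : c < tw n ↔ ∀ x, Bt c x → x < n :=
  ⟨fun h _ hx => hx.lt_of_lt h, lt_tw_of⟩

theorem rs_rs (c n m : M) : rs (rs c n) m = rs c (min n m) := bt_ext fun x => by
  simp only [bt_rs, lt_min_iff]; tauto

@[simp] theorem bt_tw {x y : M} : Bt (tw x) y ↔ y = x := by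
  have := bt_add_tw (y := y) (not_bt_zero x)
  rw [zero_add] at this
  rw [this]
  simp [not_bt_zero]

theorem eq_zero_iff_bt {c : M} : c = 0 ↔ ∀ x, ¬ Bt c x :=
  ⟨fun h x => h ▸ not_bt_zero x, fun h => bt_ext fun x => iff_of_false (h x) (not_bt_zero x)⟩

theorem exists_bt_of_pos {c : M} (h : 0 < c) : ∃ x, Bt c x := by
  by_contra h1
  push Not at h1
  exact h.ne' (eq_zero_iff_bt.2 h1)

/-- A larger number from a superset. -/
theorem le_of_sub {c d : M} (h : ∀ x, Bt c x → Bt d x) : c ≤ d := by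
  have h1 : ∀ m, rs c m ≤ rs d m := by
    intro m
    refine ind_d (eS M) (P := fun m => rs c m ≤ rs d m) inferInstance ?_ ?_ m
    · rw [rs_zero, rs_zero]
    · intro m ih
      by_cases hc : Bt c m
      · rw [rs_succ_pos hc, rs_succ_pos (h m hc)]; gcongr
      · rw [rs_succ_neg hc]
        by_cases hd : Bt d m
        · rw [rs_succ_pos hd]; exact ih.trans le_self_add
        · rwa [rs_succ_neg hd]
  have hc : c < tw (c + d) := lt_of_le_of_lt le_self_add (lt_tw (c + d))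
  have hd : d < tw (c + d) := lt_of_le_of_lt le_add_self (lt_tw (c + d))
  have := h1 (c + d)
  rwa [rs_of_lt hc, rs_of_lt hd] at this

theorem bt_le {c d : M} (h : ∀ x, Bt c x → Bt d x) : c ≤ d := le_of_sub h

theorem bt_lt {c d : M} (h : ∀ x, Bt c x → Bt d x) {y : M} (h1 : Bt d y) (h2 : ¬ Bt c y) :
    c < d := by
  refine lt_of_le_of_ne (le_of_sub h) fun e => h2 ?_
  rw [e]; exact h1

end tw

/-! ### Comprehension -/

/-- Comprehension for `Σ₁(X)` sets. -/
theorem compr_s [hI : I1 X] [IM M] {R : M → Prop} (hR : S1 X (fun v => R (v 0))) (n : M) :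
    ∃ c, c < tw n ∧ ∀ x, x < n → (Bt c x ↔ R x) := by
  -- the least `d` such that `tw n = c + d` with a subset `c` of `R`
  have h1 : S1 X (fun v : ℕ → M => ∃ c, c + v 0 = tw n ∧ 0 < v 0 ∧ ∀ x, x < n → (Bt c x → R x)) := by
    refine @s1_ex _ _ _ (fun c v => c + v 0 = tw n ∧ 0 < v 0 ∧ ∀ x, x < n → (Bt c x → R x)) ?_
    refine @s1_and _ _ _ _ _ inferInstance (@s1_and _ _ _ _ _ inferInstance ?_)
    refine @s1_all _ _ _ _ _ (fun x v => (Bt (v 0) x → R x)) inferInstance ?_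
    exact @s1_imp _ _ _ _ _ inferInstance hR
  obtain ⟨d, ⟨c, hcd, hd, hc⟩, hmin⟩ := least_s (P := fun d => ∃ c, c + d = tw n ∧ 0 < d ∧
    ∀ x, x < n → (Bt c x → R x)) h1 ⟨tw n, 0, zero_add _, tw_pos n, fun x _ h => absurd h
      (not_bt_zero x)⟩
  have hcn : c < tw n := by
    rw [← hcd]; exact lt_add_of_pos_right _ hd
  refine ⟨c, hcn, fun x hx => ⟨hc x hx, fun hRx => ?_⟩⟩
  by_contra hb
  -- add the element `x`
  have h2 : c + tw x < tw n := lt_tw_of fun y hy => by
    rcases (bt_add_tw hb).1 hy with h | h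
    · exact h.lt_of_lt hcn
    · exact h ▸ hx
  obtain ⟨e, he⟩ := exists_add_of_le h2.le
  have he0 : 0 < e := by
    refine lt_of_le_of_ne (zle e) fun h => ?_
    rw [← h, add_zero] at he
    exact h2.ne he.symm
  have hde : d = tw x + e := by
    have : c + d = c + (tw x + e) := by rw [hcd, he]; ring
    exact add_left_cancel this
  refine hmin e ?_ ⟨c + tw x, he.symm, he0, fun y hy hby => ?_⟩
  · rw [hde, add_comm]; exact lt_add_of_pos_right _ (tw_pos x)
  · rcases (bt_add_tw hb).1 hby with h | h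
    · exact hc y hy h
    · exact h ▸ hRx

/-- Comprehension for `Δ₁(X)` sets. -/
theorem compr_d (X : M → Prop) [I1 X] [IM M] {R : M → Prop} (hR : D1 X (fun v => R (v 0)))
    (n : M) : ∃ c, c < tw n ∧ ∀ x, x < n → (Bt c x ↔ R x) := compr_s hR.s n

/-- Comprehension for complements of `Σ₁(X)` sets. -/
theorem compr_p [I1 X] [IM M] {R : M → Prop} (hR : S1 X (fun v => ¬ R (v 0))) (n : M) :
    ∃ c, c < tw n ∧ ∀ x, x < n → (Bt c x ↔ R x) := by
  obtain ⟨c, _, h⟩ := compr_s (R := fun x => ¬ R x) hR n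
  obtain ⟨d, hd, h'⟩ := compr_d X (R := fun x => ¬ Bt c x) inferInstance n
  refine ⟨d, hd, fun x hx => ?_⟩
  rw [h' x hx, h x hx, not_not]

theorem ex_code_s [I1 X] [IM M] {R : M → Prop} (hR : S1 X (fun v => R (v 0))) (n : M) :
    ∃ c, ∀ x, Bt c x ↔ x < n ∧ R x := by
  obtain ⟨c, hc, h⟩ := compr_s hR n
  exact ⟨c, fun x => ⟨fun hx => ⟨hx.lt_of_lt hc, (h x (hx.lt_of_lt hc)).1 hx⟩,
    fun hx => (h x hx.1).2 hx.2⟩⟩

theorem bt_compr_d (X : M → Prop) [I1 X] [IM M] {R : M → Prop} (hR : D1 X (fun v => R (v 0)))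
    (n : M) : ∃ c, ∀ x, Bt c x ↔ x < n ∧ R x := ex_code_s hR.s n

theorem ex_code_p [I1 X] [IM M] {R : M → Prop} (hR : S1 X (fun v => ¬ R (v 0))) (n : M) :
    ∃ c, ∀ x, Bt c x ↔ x < n ∧ R x := by
  obtain ⟨c, hc, h⟩ := compr_p hR n
  exact ⟨c, fun x => ⟨fun hx => ⟨hx.lt_of_lt hc, (h x (hx.lt_of_lt hc)).1 hx⟩,
    fun hx => (h x hx.1).2 hx.2⟩⟩

end Pool.Agent.PD2
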