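import Pool.Agent.Work.MP_a6ae3a_lc.Reg

/-!
# Coded sets

`sc n P` is the code of `{x < n | P x}`; union, intersection, difference, intervals, subsets,
quantifiers over elements and subsets, bounded search `mu`, least and greatest element.
`X` satisfies `Σ₁(X)` collection and its initial segments are coded.
-/

set_option linter.unusedSectionVars false

namespace Pool.Agent.PD2

variable {M : Type} [PAM M]

/-! ### Parameters and new variables -/

section par

variable {X : M → Prop}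

/-- Fixing the parameters of a relation. -/
theorem D1.fix {P : M → (ℕ → M) → Prop} (h : D1 X (fun v => P (v 0) (fun i => v (i + 1))))
    (w : ℕ → M) : D1 X (fun v => P (v 0) w) := by
  have := D1.subF h (g := fun i => match i with
    | 0 => fun v => v 0
    | i + 1 => fun _ => w i) (fun i => by
      cases i with
      | zero => exact f1_var 0
      | succ i => exact f1_const _)
  exact this

theorem S1.fix {P : M → (ℕ → M) → Prop} (h : S1 X (fun v => P (v 0) (fun i => v (i + 1))))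
    (w : ℕ → M) : S1 X (fun v => P (v 0) w) := by
  have := S1.subF h (g := fun i => match i with
    | 0 => fun v => v 0
    | i + 1 => fun _ => w i) (fun i => by
      cases i with
      | zero => exact f1_var 0
      | succ i => exact f1_const _)
  exact this

/-- Fixing the parameters of a function. -/
theorem F1.fix {f : M → (ℕ → M) → M} (h : F1 X (fun v => f (v 0) (fun i => v (i + 1))))
    (w : ℕ → M) : F1 X (fun v => f (v 0) w) := by
  have := F1.subF h (g := fun i => match i with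
    | 0 => fun v => v 0
    | i + 1 => fun _ => w i) (fun i => by
      cases i with
      | zero => exact f1_var 0
      | succ i => exact f1_const _)
  exact this

/-- A relation with a new variable `0`. -/
theorem D1.tail {R : (ℕ → M) → Prop} (h : D1 X R) : D1 X (fun v => R (fun i => v (i + 1))) := by
  have := D1.subF h (g := fun i v => v (i + 1)) (fun i => f1_var _)
  exact this

/-- A relation in the variable `0` with a new variable `1`. -/
theorem D1.tail1 {P : M → (ℕ → M) → Prop} (h : D1 X (fun v => P (v 0) (fun i => v (i + 1)))) :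
    D1 X (fun v => P (v 0) (fun i => v (i + 1 + 1))) := by
  have := D1.subF h (g := fun i v => match i with
    | 0 => v 0
    | i + 1 => v (i + 1 + 1)) (fun i => by
      cases i with
      | zero => exact f1_var 0
      | succ i => exact f1_var _)
  exact this

/-- A function in the variable `0` with a new variable `1`. -/
theorem F1.tail1 {f : M → (ℕ → M) → M} (h : F1 X (fun v => f (v 0) (fun i => v (i + 1)))) :
    F1 X (fun v => f (v 0) (fun i => v (i + 1 + 1))) := by
  have := F1.subF h (g := fun i v => match i with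
    | 0 => v 0
    | i + 1 => v (i + 1 + 1)) (fun i => by
      cases i with
      | zero => exact f1_var 0
      | succ i => exact f1_var _)
  exact this

/-- A function in the variable `0` with two new variables `1`, `2`. -/
theorem F1.tail2 {f : M → (ℕ → M) → M} (h : F1 X (fun v => f (v 0) (fun i => v (i + 1)))) :
    F1 X (fun v => f (v 0) (fun i => v (i + 1 + 1 + 1))) := by
  have := F1.subF h (g := fun i v => match i with
    | 0 => v 0
    | i + 1 => v (i + 1 + 1 + 1)) (fun i => by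
      cases i with
      | zero => exact f1_var 0
      | succ i => exact f1_var _)
  exact this

end par

variable {X : M → Prop} [IM M]

/-! ### The code of a bounded set -/

open Classical in
/-- The code of `{x < n | P x}` (`0` if there is none). -/
noncomputable def sc (n : M) (P : M → Prop) : M :=
  if h : ∃ c, ∀ x, Bt c x ↔ x < n ∧ P x then h.choose else 0

theorem bt_sc' {n : M} {P : M → Prop} (h : ∃ c, ∀ x, Bt c x ↔ x < n ∧ P x) {x : M} :
    Bt (sc n P) x ↔ x < n ∧ P x := by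
  unfold sc
  rw [dif_pos h]
  exact h.choose_spec x

theorem bt_sc (X : M → Prop) [C1 X] [Reg X] {n : M} {P : M → Prop}
    (hP : D1 X (fun v => P (v 0))) {x : M} : Bt (sc n P) x ↔ x < n ∧ P x :=
  bt_sc' (ex_code X hP n)

theorem sc_eq {n c : M} {P : M → Prop} (h : ∀ x, Bt c x ↔ x < n ∧ P x) : sc n P = c :=
  bt_ext fun x => by rw [bt_sc' ⟨c, h⟩, h]

theorem sc_lt' {n : M} {P : M → Prop} (h : ∃ c, ∀ x, Bt c x ↔ x < n ∧ P x) : sc n P < tw n :=
  lt_tw_iff.2 fun _ hx => ((bt_sc' h).1 hx).1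

theorem sc_lt (n : M) (P : M → Prop) : sc n P < tw n := by
  by_cases h : ∃ c, ∀ x, Bt c x ↔ x < n ∧ P x
  · exact sc_lt' h
  · unfold sc
    rw [dif_neg h]
    exact tw_pos n

theorem sc_congr {n : M} {P Q : M → Prop} (h : ∀ x, x < n → (P x ↔ Q x)) : sc n P = sc n Q := by
  by_cases hP : ∃ c, ∀ x, Bt c x ↔ x < n ∧ P x
  · obtain ⟨c, hc⟩ := hP
    rw [sc_eq hc, sc_eq (n := n) (P := Q) (c := c)]
    intro x
    rw [hc]
    exact and_congr_right fun hx => h x hx
  · have hQ : ¬ ∃ c, ∀ x, Bt c x ↔ x < n ∧ Q x := by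
      rintro ⟨c, hc⟩
      refine hP ⟨c, fun x => ?_⟩
      rw [hc]
      exact and_congr_right fun hx => (h x hx).symm
    unfold sc
    rw [dif_neg hP, dif_neg hQ]

instance f1_sc [C1 X] [Reg X] {f : (ℕ → M) → M} {P : M → (ℕ → M) → Prop} [hn : F1 X f]
    [hP : D1 X (fun v => P (v 0) (fun i => v (i + 1)))] :
    F1 X (fun v => sc (f v) (fun x => P x v)) := by
  have h1 : D1 X (fun v : ℕ → M => P (v 0) (fun i => v (i + 1 + 1))) := D1.tail1 hP
  have h2 : F1 X (fun v : ℕ → M => f (fun i => v (i + 1))) := F1.tail hn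
  have h3 : F1 X (fun v : ℕ → M => f (fun i => v (i + 1 + 1))) := F1.tail (F1.tail hn)
  have key : D1 X (fun v : ℕ → M => v 0 < tw (f (fun i => v (i + 1))) ∧
      ∀ x, x < f (fun i => v (i + 1)) → (Bt (v 0) x ↔ P x (fun i => v (i + 1)))) := by
    refine D1.and inferInstance ?_
    refine @d1_all _ _ _ (fun v => f (fun i => v (i + 1))) _
      (fun x v => (Bt (v 0) x ↔ P x (fun i => v (i + 1)))) h2 ?_
    exact @d1_iff _ _ _ _ _ inferInstance h1
  refine F1.of_graph (R := fun y v => y < tw (f v) ∧ ∀ x, x < f v → (Bt y x ↔ P x v)) key.s ?_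
  intro v y
  have hs : ∀ x, Bt (sc (f v) (fun x => P x v)) x ↔ x < f v ∧ P x v :=
    fun x => bt_sc X (P := fun x => P x v) (D1.fix hP v)
  constructor
  · rintro rfl
    exact ⟨lt_tw_iff.2 fun x hx => ((hs x).1 hx).1, fun x hx => by rw [hs]; exact and_iff_right hx⟩
  · rintro ⟨h1, h2⟩
    refine bt_ext fun x => ?_
    rw [hs]
    constructor
    · intro hx
      have := lt_tw_iff.1 h1 x hx
      exact ⟨this, (h2 x this).1 hx⟩
    · rintro ⟨hx, hp⟩
      exact (h2 x hx).2 hp

/-! ### Set operations -/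

theorem lt_add_left' {x c : M} (h : x < c) (d : M) : x < c + d := lt_of_lt_of_le h le_self_add
theorem lt_add_right' {x c : M} (h : x < c) (d : M) : x < d + c := lt_of_lt_of_le h le_add_self

/-- Union. -/
noncomputable def un (c d : M) : M := sc (c + d) (fun x => Bt c x ∨ Bt d x)

/-- Intersection. -/
noncomputable def it (c d : M) : M := sc c (fun x => Bt c x ∧ Bt d x)

/-- Difference. -/
noncomputable def df (c d : M) : M := sc c (fun x => Bt c x ∧ ¬ Bt d x)

/-- Singleton. -/
noncomputable def sg (a : M) : M := sc (a + 1) (fun x => x = a)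

/-- The interval `[a, b)`. -/
noncomputable def iv (a b : M) : M := sc b (fun x => a ≤ x)

/-- The part of `c` in `[b, ∞)`. -/
noncomputable def up (c b : M) : M := sc c (fun x => Bt c x ∧ b ≤ x)

/-- Inclusion of coded sets. -/
def sub (c d : M) : Prop := ∀ x, x < c → Bt c x → Bt d x

@[simp] theorem bt_un {c d x : M} : Bt (un c d) x ↔ Bt c x ∨ Bt d x := by
  unfold un
  rw [bt_sc (eS M) (by infer_instance)]
  refine and_iff_right_of_imp ?_
  rintro (h | h)
  · exact lt_add_left' h.lt d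
  · exact lt_add_right' h.lt c

@[simp] theorem bt_it {c d x : M} : Bt (it c d) x ↔ Bt c x ∧ Bt d x := by
  unfold it
  rw [bt_sc (eS M) (by infer_instance)]
  exact and_iff_right_of_imp fun h => h.1.lt

@[simp] theorem bt_df {c d x : M} : Bt (df c d) x ↔ Bt c x ∧ ¬ Bt d x := by
  unfold df
  rw [bt_sc (eS M) (by infer_instance)]
  exact and_iff_right_of_imp fun h => h.1.lt

@[simp] theorem bt_sg {a x : M} : Bt (sg a) x ↔ x = a := by
  unfold sg
  rw [bt_sc (eS M) (by infer_instance)]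
  exact and_iff_right_of_imp fun h => h ▸ lt_succ_self a

@[simp] theorem bt_iv {a b x : M} : Bt (iv a b) x ↔ a ≤ x ∧ x < b := by
  unfold iv
  rw [bt_sc (eS M) (by infer_instance)]
  exact and_comm

@[simp] theorem bt_up {c b x : M} : Bt (up c b) x ↔ Bt c x ∧ b ≤ x := by
  unfold up
  rw [bt_sc (eS M) (by infer_instance)]
  exact and_iff_right_of_imp fun h => h.1.lt

theorem sub_iff {c d : M} : sub c d ↔ ∀ x, Bt c x → Bt d x :=
  ⟨fun h x hx => h x hx.lt hx, fun h x _ hx => h x hx⟩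

theorem sub.lt_tw {c d n : M} (h : sub c d) (hd : d < tw n) : c < tw n :=
  lt_tw_iff.2 fun x hx => lt_tw_iff.1 hd x (sub_iff.1 h x hx)

theorem sub_refl (c : M) : sub c c := fun _ _ h => h
theorem sub_trans {c d e : M} (h : sub c d) (h' : sub d e) : sub c e :=
  sub_iff.2 fun x hx => sub_iff.1 h' x (sub_iff.1 h x hx)
theorem sub_antisymm {c d : M} (h : sub c d) (h' : sub d c) : c = d :=
  bt_ext fun x => ⟨sub_iff.1 h x, sub_iff.1 h' x⟩

theorem un_lt {c d n : M} (hc : c < tw n) (hd : d < tw n) : un c d < tw n :=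
  lt_tw_iff.2 fun x hx => (bt_un.1 hx).elim (lt_tw_iff.1 hc x) (lt_tw_iff.1 hd x)

theorem it_lt {c d n : M} (hc : c < tw n) : it c d < tw n :=
  lt_tw_iff.2 fun x hx => lt_tw_iff.1 hc x (bt_it.1 hx).1

theorem df_lt {c d n : M} (hc : c < tw n) : df c d < tw n :=
  lt_tw_iff.2 fun x hx => lt_tw_iff.1 hc x (bt_df.1 hx).1

theorem up_lt {c b n : M} (hc : c < tw n) : up c b < tw n :=
  lt_tw_iff.2 fun x hx => lt_tw_iff.1 hc x (bt_up.1 hx).1

theorem sg_lt {a n : M} (ha : a < n) : sg a < tw n :=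
  lt_tw_iff.2 fun _ hx => (bt_sg.1 hx) ▸ ha

theorem iv_lt (a b : M) : iv a b < tw b := sc_lt _ _

theorem lt_tw_self (c : M) : c < tw c := lt_tw_iff.2 fun _ h => h.lt

theorem rs_rs_le {c b b' : M} (h : b' ≤ b) : rs (rs c b) b' = rs c b' := bt_ext fun x => by
  simp only [bt_rs]
  exact ⟨fun hx => ⟨hx.1, hx.2.2⟩, fun hx => ⟨hx.1, lt_of_lt_of_le hx.1 h, hx.2⟩⟩

theorem rs_un {c d b : M} : rs (un c d) b = un (rs c b) (rs d b) := bt_ext fun x => by
  simp only [bt_rs, bt_un]
  tauto

theorem un_comm (c d : M) : un c d = un d c := bt_ext fun x => by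
  simp only [bt_un]
  exact or_comm

theorem un_assoc (c d e : M) : un (un c d) e = un c (un d e) := bt_ext fun x => by
  simp only [bt_un]
  exact or_assoc

@[simp] theorem un_empty (c : M) : un c 0 = c := bt_ext fun x => by
  simp only [bt_un, bt_zero x, or_false]

@[simp] theorem empty_un (c : M) : un 0 c = c := bt_ext fun x => by
  simp only [bt_un, bt_zero x, false_or]

theorem un_self (c : M) : un c c = c := bt_ext fun x => by
  simp only [bt_un, or_self]

@[simp] theorem empty_rs (b : M) : rs 0 b = 0 := bt_ext fun x => by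
  simp only [bt_rs, bt_zero x, and_false]

section f1

variable {f g : (ℕ → M) → M}

instance f1_un [hf : F1 X f] [hg : F1 X g] : F1 X (fun v => un (f v) (g v)) :=
  F1.s2 (f := un) (F1.lift (by unfold un; infer_instance)) hf hg

instance f1_it [hf : F1 X f] [hg : F1 X g] : F1 X (fun v => it (f v) (g v)) :=
  F1.s2 (f := it) (F1.lift (by unfold it; infer_instance)) hf hg

instance f1_df [hf : F1 X f] [hg : F1 X g] : F1 X (fun v => df (f v) (g v)) :=
  F1.s2 (f := df) (F1.lift (by unfold df; infer_instance)) hf hg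

instance f1_sg [hf : F1 X f] : F1 X (fun v => sg (f v)) :=
  F1.s1 (f := sg) (F1.lift (by unfold sg; infer_instance)) hf

instance f1_iv [hf : F1 X f] [hg : F1 X g] : F1 X (fun v => iv (f v) (g v)) :=
  F1.s2 (f := iv) (F1.lift (by unfold iv; infer_instance)) hf hg

instance f1_up [hf : F1 X f] [hg : F1 X g] : F1 X (fun v => up (f v) (g v)) :=
  F1.s2 (f := up) (F1.lift (by unfold up; infer_instance)) hf hg

instance d1_sub [hf : F1 X f] [hg : F1 X g] : D1 X (fun v => sub (f v) (g v)) :=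
  D1.s2 (P := sub) (D1.lift (by unfold sub; infer_instance)) hf hg

end f1

/-! ### Bounded quantifiers over the elements and the subsets of coded sets -/

section quant

variable {f : (ℕ → M) → M} {R : M → (ℕ → M) → Prop}

instance d1_all_bt [C1 X] [hf : F1 X f] [hR : D1 X (fun v => R (v 0) (fun i => v (i + 1)))] :
    D1 X (fun v => ∀ x, Bt (f v) x → R x v) := by
  have h1 : F1 X (fun v : ℕ → M => f (fun i => v (i + 1))) := F1.tail hf
  have h2 : D1 X (fun v : ℕ → M => (Bt (f (fun i => v (i + 1))) (v 0) →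
      R (v 0) (fun i => v (i + 1)))) := @d1_imp _ _ _ _ _ inferInstance hR
  refine D1.congr (@d1_all _ _ _ f _ (fun x v => (Bt (f v) x → R x v)) hf h2) fun v => ?_
  exact ⟨fun h x hx => h x hx.lt hx, fun h x _ hx => h x hx⟩

instance d1_ex_bt [C1 X] [hf : F1 X f] [hR : D1 X (fun v => R (v 0) (fun i => v (i + 1)))] :
    D1 X (fun v => ∃ x, Bt (f v) x ∧ R x v) := by
  have h1 : F1 X (fun v : ℕ → M => f (fun i => v (i + 1))) := F1.tail hf
  have h2 : D1 X (fun v : ℕ → M => Bt (f (fun i => v (i + 1))) (v 0) ∧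
      R (v 0) (fun i => v (i + 1))) := @d1_and _ _ _ _ _ inferInstance hR
  refine D1.congr (@d1_ex _ _ _ f _ (fun x v => Bt (f v) x ∧ R x v) hf h2) fun v => ?_
  exact ⟨fun ⟨x, _, hx⟩ => ⟨x, hx⟩, fun ⟨x, hx⟩ => ⟨x, hx.1.lt, hx⟩⟩

instance s1_all_bt [C1 X] [hf : F1 X f] [hR : S1 X (fun v => R (v 0) (fun i => v (i + 1)))] :
    S1 X (fun v => ∀ x, Bt (f v) x → R x v) := by
  have h1 : F1 X (fun v : ℕ → M => f (fun i => v (i + 1))) := F1.tail hf
  have h2 : S1 X (fun v : ℕ → M => (Bt (f (fun i => v (i + 1))) (v 0) →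
      R (v 0) (fun i => v (i + 1)))) := @s1_imp _ _ _ _ _ inferInstance hR
  refine S1.congr (@s1_all _ _ _ f _ (fun x v => (Bt (f v) x → R x v)) hf h2) fun v => ?_
  exact ⟨fun h x hx => h x hx.lt hx, fun h x _ hx => h x hx⟩

instance d1_all_sub [C1 X] [hf : F1 X f] [hR : D1 X (fun v => R (v 0) (fun i => v (i + 1)))] :
    D1 X (fun v => ∀ x, sub x (f v) → R x v) := by
  have h1 : F1 X (fun v : ℕ → M => f (fun i => v (i + 1))) := F1.tail hf
  have h2 : D1 X (fun v : ℕ → M => (sub (v 0) (f (fun i => v (i + 1))) →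
      R (v 0) (fun i => v (i + 1)))) := @d1_imp _ _ _ _ _ inferInstance hR
  refine D1.congr (@d1_all _ _ _ (fun v => tw (f v)) _ (fun x v => (sub x (f v) → R x v))
    inferInstance h2) fun v => ?_
  exact ⟨fun h x hx => h x (hx.lt_tw (lt_tw_self _)) hx, fun h x _ hx => h x hx⟩

instance d1_ex_sub [C1 X] [hf : F1 X f] [hR : D1 X (fun v => R (v 0) (fun i => v (i + 1)))] :
    D1 X (fun v => ∃ x, sub x (f v) ∧ R x v) := by
  have h1 : F1 X (fun v : ℕ → M => f (fun i => v (i + 1))) := F1.tail hf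
  have h2 : D1 X (fun v : ℕ → M => sub (v 0) (f (fun i => v (i + 1))) ∧
      R (v 0) (fun i => v (i + 1))) := @d1_and _ _ _ _ _ inferInstance hR
  refine D1.congr (@d1_ex _ _ _ (fun v => tw (f v)) _ (fun x v => sub x (f v) ∧ R x v)
    inferInstance h2) fun v => ?_
  exact ⟨fun ⟨x, _, hx⟩ => ⟨x, hx⟩, fun ⟨x, hx⟩ => ⟨x, hx.1.lt_tw (lt_tw_self _), hx⟩⟩

end quant

/-! ### Least and greatest elements, bounded search -/

theorem exists_least_bt {c : M} (h : ∃ x, Bt c x) : ∃ x, Bt c x ∧ ∀ y, y < x → ¬ Bt c y :=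
  least_d (eS M) (by infer_instance) h

theorem exists_greatest_bt {c : M} (h : ∃ x, Bt c x) : ∃ x, Bt c x ∧ ∀ y, Bt c y → y ≤ x := by
  obtain ⟨u, hu, hmin⟩ := least_d (eS M) (P := fun u => ∀ y, y < c → (Bt c y → y < u))
    (by infer_instance) ⟨c, fun y hy _ => hy⟩
  obtain ⟨x0, hx0⟩ := h
  rcases eq_zero_or_succ u with rfl | ⟨w, rfl⟩
  · exact absurd (hu x0 hx0.lt hx0) (not_lt_zero' x0)
  · have h1 := hmin w (lt_succ_self w)
    push Not at h1
    obtain ⟨y, hy, hyc, hwy⟩ := h1
    have h2 : y = w := le_antisymm (lt_succ_iff.1 (hu y hy hyc)) hwy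
    subst h2
    exact ⟨y, hyc, fun z hz => lt_succ_iff.1 (hu z hz.lt hz)⟩

/-- Least elements of `Δ₁(X)` sets. -/
theorem least_cp (X : M → Prop) [C1 X] [Reg X] {P : M → Prop} (hP : D1 X (fun v => P (v 0)))
    (h : ∃ x, P x) : ∃ x, P x ∧ ∀ y, y < x → ¬ P y := by
  obtain ⟨x, hx⟩ := h
  obtain ⟨c, hc⟩ := ex_code X hP (x + 1)
  obtain ⟨y, hy, hmin⟩ := exists_least_bt ⟨x, (hc x).2 ⟨lt_succ_self x, hx⟩⟩
  have h1 := (hc y).1 hy
  exact ⟨y, h1.2, fun z hz hPz => hmin z hz ((hc z).2 ⟨lt_trans hz h1.1, hPz⟩)⟩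

open Classical in
/-- The least `y < b` with `P y` (`0` if there is none). -/
noncomputable def mu (b : M) (P : M → Prop) : M :=
  if h : ∃ y, y < b ∧ P y ∧ ∀ z, z < y → ¬ P z then h.choose else 0

theorem mu_eq {b y : M} {P : M → Prop} (hy : y < b) (hP : P y) (hz : ∀ z, z < y → ¬ P z) :
    mu b P = y := by
  have h : ∃ y, y < b ∧ P y ∧ ∀ z, z < y → ¬ P z := ⟨y, hy, hP, hz⟩
  unfold mu
  rw [dif_pos h]
  obtain ⟨_, h2, h3⟩ := h.choose_spec
  rcases lt_trichotomy h.choose y with h4 | h4 | h4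
  · exact absurd h2 (hz _ h4)
  · exact h4
  · exact absurd hP (h3 _ h4)

theorem mu_none {b : M} {P : M → Prop} (h : ∀ y, y < b → ¬ P y) : mu b P = 0 := by
  unfold mu
  rw [dif_neg]
  rintro ⟨y, hy, hP, _⟩
  exact h y hy hP

theorem mu_spec (X : M → Prop) [C1 X] [Reg X] {b : M} {P : M → Prop}
    (hP : D1 X (fun v => P (v 0))) (h : ∃ y, y < b ∧ P y) :
    mu b P < b ∧ P (mu b P) ∧ ∀ z, z < mu b P → ¬ P z := by
  obtain ⟨y, hy, hyP⟩ := h
  obtain ⟨w, hw, hmin⟩ := least_cp X hP ⟨y, hyP⟩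
  have hwb : w < b := by
    refine lt_of_le_of_lt ?_ hy
    by_contra hc
    exact hmin y (not_le.1 hc) hyP
  rw [mu_eq hwb hw hmin]
  exact ⟨hwb, hw, hmin⟩

instance f1_mu [C1 X] [Reg X] {b : (ℕ → M) → M} {P : M → (ℕ → M) → Prop} [hb : F1 X b]
    [hP : D1 X (fun v => P (v 0) (fun i => v (i + 1)))] :
    F1 X (fun v => mu (b v) (fun x => P x v)) := by
  have h1 : D1 X (fun v : ℕ → M => P (v 0) (fun i => v (i + 1 + 1))) := D1.tail1 hP
  have h2 : F1 X (fun v : ℕ → M => b (fun i => v (i + 1))) := F1.tail hb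
  have h3 : D1 X (fun v : ℕ → M => ∀ z, z < v 0 → ¬ P z (fun i => v (i + 1))) := by
    refine @d1_all _ _ _ (fun v => v 0) _ (fun z v => ¬ P z (fun i => v (i + 1))) inferInstance ?_
    exact @d1_not _ _ _ _ h1
  have h4 : D1 X (fun v : ℕ → M => ∀ z, z < b (fun i => v (i + 1)) →
      ¬ P z (fun i => v (i + 1))) := by
    refine @d1_all _ _ _ (fun v => b (fun i => v (i + 1))) _
      (fun z v => ¬ P z (fun i => v (i + 1))) h2 ?_
    exact @d1_not _ _ _ _ h1
  have key : D1 X (fun v : ℕ → M => (v 0 < b (fun i => v (i + 1)) ∧ P (v 0) (fun i => v (i + 1)) ∧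
      ∀ z, z < v 0 → ¬ P z (fun i => v (i + 1))) ∨ (v 0 = 0 ∧
      ∀ z, z < b (fun i => v (i + 1)) → ¬ P z (fun i => v (i + 1)))) := by
    infer_instance
  refine F1.of_graph (R := fun y v => (y < b v ∧ P y v ∧ ∀ z, z < y → ¬ P z v) ∨ (y = 0 ∧
      ∀ z, z < b v → ¬ P z v)) key.s ?_
  intro v y
  by_cases h : ∃ y, y < b v ∧ P y v
  · obtain ⟨k1, k2, k3⟩ := mu_spec X (P := fun x => P x v) (D1.fix hP v) h
    constructor
    · rintro rfl
      exact Or.inl ⟨k1, k2, k3⟩
    · rintro (⟨q1, q2, q3⟩ | ⟨_, q⟩)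
      · exact (mu_eq q1 q2 q3).symm
      · obtain ⟨y', h1, h2⟩ := h
        exact absurd h2 (q y' h1)
  · push Not at h
    rw [mu_none h]
    constructor
    · rintro rfl
      exact Or.inr ⟨rfl, h⟩
    · rintro (⟨q1, q2, _⟩ | ⟨q, _⟩)
      · exact absurd q2 (h y q1)
      · exact q

/-- The least element. -/
noncomputable def lo (c : M) : M := mu c (fun y => Bt c y)

/-- The greatest element. -/
noncomputable def hi (c : M) : M := mu c (fun y => Bt c y ∧ ∀ z, z < c → (Bt c z → z ≤ y))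

instance f1_lo {f : (ℕ → M) → M} [hf : F1 X f] : F1 X (fun v => lo (f v)) :=
  F1.s1 (f := lo) (F1.lift (by unfold lo; infer_instance)) hf

instance f1_hi {f : (ℕ → M) → M} [hf : F1 X f] : F1 X (fun v => hi (f v)) :=
  F1.s1 (f := hi) (F1.lift (by unfold hi; infer_instance)) hf

theorem bt_lo {c x : M} (h : Bt c x) : Bt c (lo c) :=
  (mu_spec (eS M) (b := c) (P := fun y => Bt c y) (by infer_instance) ⟨x, h.lt, h⟩).2.1

theorem lo_le {c x : M} (h : Bt c x) : lo c ≤ x := by
  by_contra hc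
  exact (mu_spec (eS M) (b := c) (P := fun y => Bt c y) (by infer_instance)
    ⟨x, h.lt, h⟩).2.2 x (not_le.1 hc) h

theorem hi_spec {c x : M} (h : Bt c x) : Bt c (hi c) ∧ ∀ z, Bt c z → z ≤ hi c := by
  obtain ⟨y, hy, hm⟩ := exists_greatest_bt ⟨x, h⟩
  have := (mu_spec (eS M) (b := c)
    (P := fun y => Bt c y ∧ ∀ z, z < c → (Bt c z → z ≤ y)) (by infer_instance)
    ⟨y, hy.lt, hy, fun z _ hz => hm z hz⟩).2.1
  exact ⟨this.1, fun z hz => this.2 z hz.lt hz⟩

theorem bt_hi {c x : M} (h : Bt c x) : Bt c (hi c) := (hi_spec h).1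
theorem le_hi {c x : M} (h : Bt c x) : x ≤ hi c := (hi_spec h).2 x h

theorem eq_zero_or_bt (c : M) : c = 0 ∨ ∃ x, Bt c x := by
  by_cases h : ∃ x, Bt c x
  · exact Or.inr h
  · left
    push Not at h
    exact bt_ext fun x => ⟨fun hx => absurd hx (h x), fun hx => absurd hx (bt_zero x)⟩

end Pool.Agent.PD2
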