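import Pool.Agent.Work.MP_a6ae3a_lc.BlkB1

/-!
# The block lemma, second part

From the failure of `N` layers (B1) we get, for all nodes `κ < r` at once, a level `ap tt κ`, and
for every `n` one colouring with `q` colours all of whose classes have a label.
-/

namespace Pool.Agent.PD2

variable {M : Type} [PAM M] [IM M]

namespace BD

variable {Y : M → Prop} [I1 Y] (D : BD Y)

/-- No new `e < b` converges at `(A', t')` if it is `(A, t)` with `t' ≤ t`. -/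
theorem imp_mono {A t A' n n' : M} (h : n ≤ n') (hi : D.Imp A t A' n) : D.Imp A t A' n' := by
  obtain ⟨e, he, h1, h2⟩ := hi
  exact ⟨e, he, D.mono e A' A' n n' h (fun _ _ => Iff.rfl) h1, h2⟩

/-- `(s, F)` is a label of the class `j` of `g` between `t` and `n`. -/
def Lb (κ t E g j n s F : M) : Prop :=
  (∀ x, x < t → Bt F x → D.Sd κ t E s x) ∧
    ∀ G, G < tw n → (∀ x, x < n → Bt G x → D.Cl κ t g j x) →
      ¬ D.Imp (un (D.FF s κ) F) t (un (un (D.FF s κ) F) G) n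

instance lb1 {f0 f1 f2 f3 f4 f5 f6 f7 : (ℕ → M) → M} [h0 : F1 Y f0] [h1 : F1 Y f1] [h2 : F1 Y f2]
    [h3 : F1 Y f3] [h4 : F1 Y f4] [h5 : F1 Y f5] [h6 : F1 Y f6] [h7 : F1 Y f7] :
    D1 Y (fun v => D.Lb (f0 v) (f1 v) (f2 v) (f3 v) (f4 v) (f5 v) (f6 v) (f7 v)) := by
  refine D1.s8 (P := D.Lb) ?_ h0 h1 h2 h3 h4 h5 h6 h7
  unfold Lb; infer_instance

/-- Every class has a label. -/
def Bad (κ t E g n : M) : Prop :=
  ∀ j, j < D.q → ∃ s, s < 2 ∧ ∃ F, F < tw t ∧ D.Lb κ t E g j n s F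

instance bad1 {f0 f1 f2 f3 f4 : (ℕ → M) → M} [h0 : F1 Y f0] [h1 : F1 Y f1] [h2 : F1 Y f2]
    [h3 : F1 Y f3] [h4 : F1 Y f4] :
    D1 Y (fun v => D.Bad (f0 v) (f1 v) (f2 v) (f3 v) (f4 v)) := by
  refine D1.s5 (P := D.Bad) ?_ h0 h1 h2 h3 h4
  unfold Bad; infer_instance

theorem not_good {κ t n E g j : M} (h : ¬ D.Good κ t n E g j) :
    ∃ s, s < 2 ∧ ∃ F, F < tw t ∧ D.Lb κ t E g j n s F := by
  unfold Good at h
  push Not at h
  obtain ⟨s, hs, F, hF, h1, h2⟩ := h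
  exact ⟨s, hs, F, hF, h1, h2⟩

theorem cl_congr {κ t g g' j x : M} (h : D.R κ x → ap g x = ap g' x) :
    D.Cl κ t g j x ↔ D.Cl κ t g' j x := by
  unfold Cl
  constructor
  · rintro ⟨a, b, c⟩
    exact ⟨a, b, (h b).symm.trans c⟩
  · rintro ⟨a, b, c⟩
    exact ⟨a, b, (h b).trans c⟩

theorem lb_mono {κ t E g g' j n n' s F : M} (hn : n ≤ n')
    (hg : ∀ x, x < n → D.R κ x → ap g x = ap g' x) (h : D.Lb κ t E g' j n' s F) :
    D.Lb κ t E g j n s F := by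
  refine ⟨h.1, fun G hG hx hi => ?_⟩
  refine h.2 G (lt_of_lt_of_le hG (tw_le hn)) (fun x _ hb => ?_) (D.imp_mono hn hi)
  have hxn : x < n := lt_tw_iff.1 hG x hb
  exact (D.cl_congr (hg x hxn)).1 (hx x hxn hb)

theorem bad_mono {κ t E g g' n n' : M} (hn : n ≤ n')
    (hg : ∀ x, x < n → D.R κ x → ap g x = ap g' x) (h : D.Bad κ t E g' n') :
    D.Bad κ t E g n := by
  intro j hj
  obtain ⟨s, hs, F, hF, hl⟩ := h j hj
  exact ⟨s, hs, F, hF, D.lb_mono hn hg hl⟩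

/-- `c` layers and no `c + 1` layers. -/
theorem exists_c (κ : M) : ∃ c, c < D.N ∧ D.Q κ c ∧ ¬ D.Q κ (c + 1) := by
  by_contra hc
  push Not at hc
  have h0 : D.Q κ 0 := by
    obtain ⟨s, hs⟩ := fcomp (Y := Y) 1 (f := fun _ => D.b) inferInstance
    exact ⟨s, 0, hs 0 zero_lt_one, fun k hk => absurd hk (not_lt_zero' k)⟩
  have h1 : ∀ x, x ≤ D.N → D.Q κ x := by
    intro x
    refine ind_s (X := Y) (P := fun x => x ≤ D.N → D.Q κ x) inferInstance (fun _ => h0) ?_ x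
    intro x ih hx
    have hx' : x < D.N := succ_le_iff.1 hx
    exact hc x hx' (ih hx'.le)
  exact D.not_Q_N κ (h1 _ le_rfl)

/-- One node: the failure of the next layer gives bad colourings. -/
theorem bad_one {κ c s d E : M} (hw : D.Wit κ c s d) (hq : ¬ D.Q κ (c + 1))
    (hE : ∀ x, Bt E x → x < ap s c ∧ D.R κ x ∧ D.b ≤ x) (n : M) :
    ∃ g, (∀ x, x < n → ap g x < D.q) ∧ D.Bad κ (ap s c) E g n := by
  -- first for large `n`
  have key : ∀ n, ap s c < n →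
      ∃ g, (∀ x, x < n → ap g x < D.q) ∧ D.Bad κ (ap s c) E g n := by
    intro n hn
    by_contra hno
    push Not at hno
    apply hq
    obtain ⟨s', hs'⟩ := fupd (Y := Y) s (c + 1) n
    obtain ⟨d', hd'⟩ := fupd (Y := Y) d c E
    have es : ∀ k, k < c + 1 → ap s' k = ap s k := hs'.1
    have es1 : ap s' (c + 1) = n := hs'.2
    have ed : ∀ k, k < c → ap d' k = ap d k := hd'.1
    have ed1 : ap d' c = E := hd'.2
    refine ⟨s', d', ?_, fun k hk => ?_⟩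
    · rw [es 0 (lt_of_le_of_lt (zle c) (lt_succ_self c))]
      exact hw.1
    · rcases lt_succ_cases hk with hk | rfl
      · rw [es k (lt_trans hk (lt_succ_self _)), es (k + 1) (lt_succ_iff.2 (succ_le_iff.2 hk)),
          ed k hk]
        exact hw.2 k hk
      · rw [es k hk, es1, ed1]
        refine ⟨hn, fun x _ hx => (hE x hx).2, lt_tw_iff.2 fun x hx => (hE x hx).1, ?_⟩
        intro g _ hgq
        by_contra hng
        push Not at hng
        refine hno g hgq fun j hj => D.not_good (hng j hj)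
  by_cases hn : ap s c < n
  · exact key n hn
  · obtain ⟨g, hg, hb⟩ := key (ap s c + 1) (lt_succ_self _)
    have hle : n ≤ ap s c + 1 := (not_lt.1 hn).trans (lt_succ_self _).le
    exact ⟨g, fun x hx => hg x (lt_of_lt_of_le hx hle), D.bad_mono hle (fun _ _ _ => rfl) hb⟩

theorem q_pos : 0 < D.q := by
  unfold q
  exact tw_pos _

/-- **The block lemma**, for all nodes `κ < r` at once. -/
theorem block (hdisj : ∀ κ κ' x, D.R κ x → D.R κ' x → κ = κ') {A : M → Prop}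
    (hA : ∀ n, ∃ c, ∀ x, x < n → (Bt c x ↔ A x)) (r : M) :
    ∃ tt dd, (∀ κ, κ < r → D.b ≤ ap tt κ ∧
        ∀ x, Bt (ap dd κ) x ↔ (A x ∧ D.R κ x ∧ D.b ≤ x ∧ x < ap tt κ)) ∧
      ∀ n, ∃ g, (∀ x, x < n → ap g x < D.q) ∧
        ∀ κ, κ < r → D.Bad κ (ap tt κ) (ap dd κ) g n := by
  -- the code of the pairs `(κ, c)` with `c` layers
  obtain ⟨w, hw⟩ := ex_code_s (X := Y) (R := fun x => D.Q (fs x) (sn x)) inferInstance
    (pr r (D.N + 1) + 1)
  have hwQ : ∀ κ c, Bt w (pr κ c) → D.Q κ c := fun κ c h => by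
    have := ((hw _).1 h).2
    rwa [fs_pr, sn_pr] at this
  obtain ⟨z, hz⟩ := ex_fun Y (R := fun κ y => fs y < D.N ∧
      D.Wit κ (fs y) (fs (sn y)) (sn (sn y)) ∧ ¬ Bt w (pr κ (fs y + 1))) (by infer_instance) r
    (fun κ _ => by
      obtain ⟨c, hc, ⟨s, d, hs⟩, hn⟩ := D.exists_c κ
      refine ⟨pr c (pr s d), ?_, ?_, ?_⟩
      · rwa [fs_pr]
      · simpa only [fs_pr, sn_pr] using hs
      · rw [fs_pr]
        exact fun h => hn (hwQ _ _ h))
  have hnQ : ∀ κ, κ < r → ¬ D.Q κ (fs (ap z κ) + 1) := fun κ hκ h => by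
    obtain ⟨h1, _, h3⟩ := hz κ hκ
    refine h3 ((hw _).2 ⟨lt_succ_iff.2 (pr_mono hκ.le ?_), ?_⟩)
    · exact (succ_le_iff.2 h1).trans (lt_succ_self _).le
    · rwa [fs_pr, sn_pr]
  obtain ⟨tt, htt⟩ := fcomp (Y := Y) r
    (f := fun κ => ap (fs (sn (ap z κ))) (fs (ap z κ))) inferInstance
  obtain ⟨T, hT⟩ := f1_bdd (Y := Y) (f := fun κ => ap tt κ) inferInstance r
  obtain ⟨a, ha⟩ := hA T
  obtain ⟨dd, hdd⟩ := ex_fun Y (R := fun κ E => E < tw (ap tt κ) ∧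
      ∀ x, x < ap tt κ → (Bt E x ↔ (Bt a x ∧ D.R κ x ∧ D.b ≤ x))) inferInstance r
    (fun κ _ => by
      obtain ⟨E, hE'⟩ := ex_code_s (X := Y)
        (R := fun x => Bt a x ∧ D.R κ x ∧ D.b ≤ x) inferInstance (ap tt κ)
      exact ⟨E, lt_tw_iff.2 fun x hx => ((hE' x).1 hx).1, fun x hx => (hE' x).trans ⟨fun h => h.2, fun h => ⟨hx, h⟩⟩⟩)
  have hD : ∀ κ, κ < r → ∀ x, Bt (ap dd κ) x ↔ (A x ∧ D.R κ x ∧ D.b ≤ x ∧ x < ap tt κ) := by
    intro κ hκ x
    obtain ⟨h1, h2⟩ := hdd κ hκ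
    constructor
    · intro hx
      have hlt := lt_tw_iff.1 h1 x hx
      obtain ⟨k1, k2, k3⟩ := (h2 x hlt).1 hx
      exact ⟨(ha x (lt_trans hlt (hT κ hκ))).1 k1, k2, k3, hlt⟩
    · rintro ⟨k1, k2, k3, hlt⟩
      exact (h2 x hlt).2 ⟨(ha x (lt_trans hlt (hT κ hκ))).2 k1, k2, k3⟩
  refine ⟨tt, dd, fun κ hκ => ⟨?_, hD κ hκ⟩, fun n => ?_⟩
  · rw [htt κ hκ]
    exact D.wit_b (hz κ hκ).2.1 le_rfl
  · obtain ⟨gg, hgg⟩ := ex_fun Y (R := fun κ g => (∀ x, x < n → ap g x < D.q) ∧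
        D.Bad κ (ap tt κ) (ap dd κ) g n) inferInstance r (fun κ hκ => by
        obtain ⟨_, h2, _⟩ := hz κ hκ
        have := D.bad_one h2 (hnQ κ hκ) (E := ap dd κ) (fun x hx => by
          obtain ⟨_, k2, k3, k4⟩ := (hD κ hκ x).1 hx
          rw [htt κ hκ] at k4
          exact ⟨k4, k2, k3⟩) n
        rw [← htt κ hκ] at this
        exact this)
    obtain ⟨g, hg⟩ := ex_fun Y (R := fun x y => y < D.q ∧
        ∀ κ, κ < r → D.R κ x → y = ap (ap gg κ) x) inferInstance n (fun x hx => by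
        by_cases h : ∃ κ, κ < r ∧ D.R κ x
        · obtain ⟨κ, hκ, hR⟩ := h
          refine ⟨ap (ap gg κ) x, (hgg κ hκ).1 x hx, fun κ' _ hR' => ?_⟩
          rw [hdisj _ _ _ hR' hR]
        · exact ⟨0, D.q_pos, fun κ hκ hR => absurd ⟨κ, hκ, hR⟩ h⟩)
    refine ⟨g, fun x hx => (hg x hx).1, fun κ hκ => ?_⟩
    exact D.bad_mono le_rfl (fun x hx hR => (hg x hx).2 κ hκ hR) (hgg κ hκ).2

/-! ### Labels of a limit colouring -/

/-- `(s, F)` is a label of the class `j` of `G`, for all `n`. -/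
def LbG (κ t E : M) (G : M → M) (j s F : M) : Prop :=
  (∀ x, x < t → Bt F x → D.Sd κ t E s x) ∧
    ∀ n, ∀ H, H < tw n → (∀ x, x < n → Bt H x → t ≤ x ∧ D.R κ x ∧ G x = j) →
      ¬ D.Imp (un (D.FF s κ) F) t (un (un (D.FF s κ) F) H) n

/-- The part of `LbG` at `n`. -/
def LbN (κ t E : M) (G : M → M) (j s F n : M) : Prop :=
  (∀ x, x < t → Bt F x → D.Sd κ t E s x) ∧
    ∀ H, H < tw n → (∀ x, x < n → Bt H x → t ≤ x ∧ D.R κ x ∧ G x = j) →
      ¬ D.Imp (un (D.FF s κ) F) t (un (un (D.FF s κ) F) H) n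

theorem lbG_iff {κ t E : M} {G : M → M} {j s F : M} :
    D.LbG κ t E G j s F ↔ ∀ n, D.LbN κ t E G j s F n :=
  ⟨fun h n => ⟨h.1, h.2 n⟩, fun h => ⟨(h 0).1, fun n => (h n).2⟩⟩

theorem lbN_mono {κ t E : M} {G : M → M} {j s F n n' : M} (hn : n ≤ n')
    (h : D.LbN κ t E G j s F n') : D.LbN κ t E G j s F n := by
  refine ⟨h.1, fun H hH hx hi => ?_⟩
  exact h.2 H (lt_of_lt_of_le hH (tw_le hn))
    (fun x _ hb => hx x (lt_tw_iff.1 hH x hb) hb) (D.imp_mono hn hi)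

theorem lbN_of_lb {κ t E g : M} {G : M → M} {j s F n : M} (hg : ∀ x, x < n → ap g x = G x)
    (h : D.Lb κ t E g j n s F) : D.LbN κ t E G j s F n := by
  refine ⟨h.1, fun H hH hx => h.2 H hH fun x hxn hb => ?_⟩
  obtain ⟨k1, k2, k3⟩ := hx x hxn hb
  exact ⟨k1, k2, (hg x hxn).trans k3⟩

theorem lbN_d {G : M → M} (hG : F1 Y (fun v => G (v 0))) :
    D1 Y (fun v => D.LbN (v 0) (v 1) (v 2) G (v 3) (v 4) (v 5) (v 6)) := by
  have : ∀ {f : (ℕ → M) → M} [F1 Y f], F1 Y (fun v => G (f v)) := fun {f} hf => F1.s1 hG hf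
  unfold LbN
  infer_instance

/-- One class: a label for all `n`. -/
theorem label_one {G : M → M} (hG : F1 Y (fun v => G (v 0))) {κ t E j : M}
    (h : ∀ n, ∃ g, (∀ x, x < n → ap g x = G x) ∧
      ∃ s, s < 2 ∧ ∃ F, F < tw t ∧ D.Lb κ t E g j n s F) :
    ∃ s, s < 2 ∧ ∃ F, F < tw t ∧ D.LbG κ t E G j s F := by
  by_contra hc
  push Not at hc
  obtain ⟨B, hB⟩ := coll_s (X := Y)
    (P := fun y n => fs y < 2 → sn y < tw t → ¬ D.LbN κ t E G j (fs y) (sn y) n) (by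
      have h1 := D1.s7 (P := fun a b c d e f g => D.LbN a b c G d e f g) (D.lbN_d hG) (g0 := fun _ => κ) (g1 := fun _ => t) (g2 := fun _ => E)
        (g3 := fun _ => j) (g4 := fun v => fs (v 0)) (g5 := fun v => sn (v 0)) (g6 := fun v => v 1)
        inferInstance inferInstance inferInstance inferInstance inferInstance inferInstance
        inferInstance
      exact (inferInstance : D1 Y (fun v => fs (v 0) < 2 → sn (v 0) < tw t →
        ¬ D.LbN κ t E G j (fs (v 0)) (sn (v 0)) (v 1))).s) (pr 2 (tw t) + 1) (fun y _ => by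
      by_cases h1 : fs y < 2
      · by_cases h2 : sn y < tw t
        · have h3 := hc _ h1 _ h2
          rw [lbG_iff] at h3
          push Not at h3
          obtain ⟨n, hn⟩ := h3
          exact ⟨n, fun _ _ => hn⟩
        · exact ⟨0, fun _ h => absurd h h2⟩
      · exact ⟨0, fun h => absurd h h1⟩)
  obtain ⟨g, hg, s, hs, F, hF, hl⟩ := h B
  obtain ⟨n, hn, hP⟩ := hB (pr s F) (lt_succ_iff.2 (pr_mono hs.le hF.le))
  rw [fs_pr, sn_pr] at hP
  exact hP hs hF (D.lbN_mono hn.le (D.lbN_of_lb hg hl))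

/-- **Labels**: one coded function gives the labels of all classes of the limit colouring `G`. -/
theorem labels {G : M → M} (hG : F1 Y (fun v => G (v 0))) {r tt dd : M}
    (h : ∀ n, ∃ g, (∀ x, x < n → ap g x = G x) ∧
      ∀ κ, κ < r → D.Bad κ (ap tt κ) (ap dd κ) g n) :
    ∃ lb, ∀ κ, κ < r → ∀ j, j < D.q → fs (ap lb (pr κ j)) < 2 ∧
      sn (ap lb (pr κ j)) < tw (ap tt κ) ∧
      D.LbG κ (ap tt κ) (ap dd κ) G j (fs (ap lb (pr κ j))) (sn (ap lb (pr κ j))) := by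
  obtain ⟨T, hT⟩ := f1_bdd (Y := Y) (f := fun κ => tw (ap tt κ)) inferInstance r
  have hP : S1 Y (fun v : ℕ → M => ¬ D.LbG (fs (fs (v 0))) (ap tt (fs (fs (v 0))))
      (ap dd (fs (fs (v 0)))) G (sn (fs (v 0))) (fs (sn (v 0))) (sn (sn (v 0)))) := by
    have h1 := D1.s7 (P := fun a b c d e f g => D.LbN a b c G d e f g) (D.lbN_d hG) (g0 := fun v => fs (fs (v 1)))
        (g1 := fun v => ap tt (fs (fs (v 1)))) (g2 := fun v => ap dd (fs (fs (v 1))))
        (g3 := fun v => sn (fs (v 1))) (g4 := fun v => fs (sn (v 1)))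
        (g5 := fun v => sn (sn (v 1))) (g6 := fun v => v 0)
        inferInstance inferInstance inferInstance inferInstance inferInstance inferInstance
        inferInstance
    have h2 : S1 Y (fun v : ℕ → M => ∃ n, ¬ D.LbN (fs (fs (v 0))) (ap tt (fs (fs (v 0))))
      (ap dd (fs (fs (v 0)))) G (sn (fs (v 0))) (fs (sn (v 0))) (sn (sn (v 0))) n) := by
      exact S1.exists (R := fun n v => ¬ D.LbN (fs (fs (v 0))) (ap tt (fs (fs (v 0))))
        (ap dd (fs (fs (v 0)))) G (sn (fs (v 0))) (fs (sn (v 0))) (sn (sn (v 0))) n) h1.p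
    refine S1.congr h2 fun v => ?_
    rw [lbG_iff]
    push Not
    rfl
  obtain ⟨w, hw⟩ := ex_code_p (X := Y)
    (R := fun x => D.LbG (fs (fs x)) (ap tt (fs (fs x))) (ap dd (fs (fs x))) G (sn (fs x))
      (fs (sn x)) (sn (sn x))) hP (pr (pr r D.q) (pr 2 T) + 1)
  obtain ⟨lb, hlb⟩ := ex_fun Y (R := fun z y => fs z < r → sn z < D.q →
      (fs y < 2 ∧ sn y < tw (ap tt (fs z)) ∧ Bt w (pr z y))) (by infer_instance)
      (pr r D.q + 1) (fun z hz => by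
      by_cases h1 : fs z < r
      · by_cases h2 : sn z < D.q
        · obtain ⟨s, hs, F, hF, hl⟩ := D.label_one hG (κ := fs z) (t := ap tt (fs z))
            (E := ap dd (fs z)) (j := sn z) (fun n => by
              obtain ⟨g, hg, hb⟩ := h n
              exact ⟨g, hg, hb _ h1 _ h2⟩)
          refine ⟨pr s F, fun _ _ => ⟨by rwa [fs_pr], by rwa [sn_pr], (hw _).2 ⟨?_, ?_⟩⟩⟩
          · refine lt_succ_iff.2 (pr_mono (lt_succ_iff.1 hz) (pr_mono hs.le ?_))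
            exact (lt_trans hF (hT _ h1)).le
          · simp only [fs_pr, sn_pr]
            exact hl
        · exact ⟨0, fun _ h => absurd h h2⟩
      · exact ⟨0, fun h => absurd h h1⟩)
  refine ⟨lb, fun κ hκ j hj => ?_⟩
  obtain ⟨k1, k2, k3⟩ := hlb (pr κ j) (lt_succ_iff.2 (pr_mono hκ.le hj.le)) (by rwa [fs_pr])
    (by rwa [sn_pr])
  rw [fs_pr] at k2
  have k4 := ((hw _).1 k3).2
  simp only [fs_pr, sn_pr] at k4
  exact ⟨k1, k2, k4⟩

end BD

end Pool.Agent.PD2
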