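import Pool.Agent.Work.MP_a6ae3a_lc.BlkB1a

/-!
# The block lemma, part (B1): there are fewer than `N` layers

The halving argument. `Hv` describes one of the two sides: a finite set `G` below the level `s_k`
inside (`σ = 0`) resp. outside (`σ = 1`) of all guesses `d_m`, `m ∈ S`, and a set `u` of numbers
`e < b` which converge at `F ∪ G`. In each step one of the two sets `u` grows by one element, and
`S` is halved.
-/

namespace Pool.Agent.PD2

variable {M : Type} [PAM M] [IM M]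

namespace BD

/-! ### Forms of the numeric lemmas -/

theorem comp1 (Y : M → Prop) [I1 Y] (n : M) (P : M → Prop) [hP : D1 Y (fun v => P (v 0))] :
    ∃ c, ∀ x, Bt c x ↔ x < n ∧ P x := ex_code Y hP n

theorem cd_add {a b c : M} (h : ∀ x, Bt a x → ¬ Bt b x)
    (hc : ∀ x, Bt c x ↔ Bt a x ∨ Bt b x) : card c = card a + card b := by
  have h1 : c = un a b := bt_ext fun x => by rw [hc, bt_un]
  rw [h1, card_union h]

theorem cd_one {c x : M} (h : ∀ y, Bt c y ↔ y = x) : card c = 1 := by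
  have h1 : c = un 0 (tw x) := bt_ext fun y => by
    rw [h, bt_un, bt_tw]
    exact ⟨Or.inr, fun h2 => h2.resolve_left (bt_zero y)⟩
  rw [h1, card_insert (bt_zero x), card_zero, zero_add]

theorem cd_emp {c : M} (h : ∀ y, ¬ Bt c y) : card c = 0 := by
  have h1 : c = 0 := bt_ext fun y => ⟨fun h2 => absurd h2 (h y), fun h2 => absurd h2 (bt_zero y)⟩
  rw [h1, card_zero]

theorem cd_ival {c n : M} (h : ∀ y, Bt c y ↔ y < n) : card c = n := by
  have h1 : c = sc n (fun _ => True) := bt_ext fun y => by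
    rw [h, bt_sc (eS M) (P := fun _ => True) inferInstance]
    simp
  rw [h1, card_all]

/-! ### Counting -/

theorem card_le_of_lt (Y : M → Prop) [I1 Y] {c n : M} (h : ∀ x, Bt c x → x < n) :
    card c ≤ n := by
  obtain ⟨i, hi⟩ := comp1 Y n (fun _ => True)
  obtain ⟨r, hr⟩ := comp1 Y n (fun x => ¬ Bt c x)
  have h1 : card i = n := cd_ival fun y => by rw [hi]; simp
  have h2 : card i = card c + card r := cd_add (fun x hx h2 => ((hr x).1 h2).2 hx) fun x => by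
    rw [hi, hr]
    constructor
    · intro h3
      by_cases h4 : Bt c x
      · exact Or.inl h4
      · exact Or.inr ⟨h3.1, h4⟩
    · rintro (h3 | h3)
      · exact ⟨h x h3, trivial⟩
      · exact ⟨h3.1, trivial⟩
  rw [← h1, h2]
  exact le_self_add

/-- A nonempty finite set has a least element. -/
theorem ex_min (Y : M → Prop) [I1 Y] {S : M} (h : 1 ≤ card S) :
    ∃ k, Bt S k ∧ ∀ m, Bt S m → k ≤ m := by
  have h1 : ∃ x, Bt S x := by
    by_contra h2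
    push Not at h2
    rw [cd_emp h2] at h
    exact absurd h (not_le.2 zero_lt_one)
  obtain ⟨k, hk, hm⟩ := least_d Y (P := fun x => Bt S x) inferInstance h1
  exact ⟨k, hk, fun m h2 => not_lt.1 fun h3 => hm m h3 h2⟩

/-- The larger half of `S` without `k`. -/
theorem halve (Y : M → Prop) [I1 Y] {S c k p : M} (hk : Bt S k) (hc : ¬ Bt c k)
    (hp : tw (p + 1) ≤ card S) : ∃ S', (∀ m, Bt S' m → Bt S m ∧ m ≠ k) ∧ tw p ≤ card S' ∧
      ((∀ m, Bt S' m → Bt c m) ∨ (∀ m, Bt S' m → ¬ Bt c m)) := by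
  have hb : ∀ x, Bt S x → x < S := lt_tw_iff.1 (lt_tw S)
  obtain ⟨A, hA⟩ := comp1 Y S (fun m => Bt S m ∧ Bt c m)
  obtain ⟨B, hB⟩ := comp1 Y S (fun m => Bt S m ∧ ¬ Bt c m ∧ m ≠ k)
  obtain ⟨K, hK⟩ := comp1 Y S (fun m => m = k)
  obtain ⟨AB, hAB⟩ := comp1 Y S (fun m => Bt S m ∧ m ≠ k)
  have h1 : card AB = card A + card B := cd_add
    (fun x hx h2 => ((hB x).1 h2).2.2.1 ((hA x).1 hx).2.2) fun x => by
      rw [hAB, hA, hB]
      constructor
      · rintro ⟨h3, h4, h5⟩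
        by_cases h6 : Bt c x
        · exact Or.inl ⟨h3, h4, h6⟩
        · exact Or.inr ⟨h3, h4, h6, h5⟩
      · rintro (⟨h3, h4, h5⟩ | ⟨h3, h4, h5, h6⟩)
        · exact ⟨h3, h4, fun h6 => hc (h6 ▸ h5)⟩
        · exact ⟨h3, h4, h6⟩
  have h2 : card K = 1 := cd_one (x := k) fun y => by
    rw [hK]
    exact ⟨fun h => h.2, fun h => ⟨h ▸ hb k hk, h⟩⟩
  have h3 : card S = card AB + card K := cd_add
    (fun x hx h2 => ((hAB x).1 hx).2.2 ((hK x).1 h2).2) fun x => by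
      rw [hAB, hK]
      constructor
      · intro h4
        by_cases h5 : x = k
        · exact Or.inr ⟨hb x h4, h5⟩
        · exact Or.inl ⟨hb x h4, h4, h5⟩
      · rintro (⟨h4, h5, h6⟩ | ⟨h4, h5⟩)
        · exact h5
        · exact h5 ▸ hk
  by_cases hA2 : tw p ≤ card A
  · exact ⟨A, fun m hm => ⟨((hA m).1 hm).2.1, fun h => hc (h ▸ ((hA m).1 hm).2.2)⟩, hA2,
      Or.inl fun m hm => ((hA m).1 hm).2.2⟩
  · have h4 : tw p ≤ card B := by
      by_contra h5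
      rw [not_le] at hA2 h5
      have h6 := succ_le_iff.2 hA2
      have h7 := succ_le_iff.2 h5
      rw [tw_succ, h3, h1, h2] at hp
      have h8 : (card A + 1) + (card B + 1) ≤ tw p + tw p := add_le_add h6 h7
      have h9 : (card A + 1) + (card B + 1) ≤ card A + card B + 1 := by
        exact h8.trans hp
      have h10 : card A + card B + 1 < (card A + 1) + (card B + 1) := by
        have : (card A + 1) + (card B + 1) = card A + card B + 1 + 1 := by ring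
        rw [this]
        exact lt_succ_self _
      exact absurd h9 (not_le.2 h10)
    exact ⟨B, fun m hm => ⟨((hB m).1 hm).2.1, ((hB m).1 hm).2.2.2⟩, h4,
      Or.inr fun m hm => ((hB m).1 hm).2.2.1⟩

variable {Y : M → Prop} [I1 Y] (D : BD Y)

/-! ### One side -/

/-- The side `σ` of the guess `E`. -/
def Ps (σ E x : M) : Prop := (σ = 0 ∧ Bt E x) ∨ (σ = 1 ∧ ¬ Bt E x)

instance ps1 {f0 f1 f2 : (ℕ → M) → M} [F1 Y f0] [F1 Y f1] [F1 Y f2] :
    D1 Y (fun v => Ps (f0 v) (f1 v) (f2 v)) := by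
  unfold Ps; infer_instance

/-- The state of the side `σ`. -/
def Hv (κ s d S k σ G u : M) : Prop :=
  G < tw (ap s k) ∧ (∀ x, x < ap s k → Bt G x → D.b ≤ x ∧ D.R κ x ∧
    ∀ m, m < D.N → Bt S m → Ps σ (ap d m) x) ∧
  u < tw D.b ∧ ∀ e, e < D.b → Bt u e → D.Cv e (un (D.FF σ κ) G) (ap s k)

instance hv1 {f0 f1 f2 f3 f4 f5 f6 f7 : (ℕ → M) → M} [F1 Y f0] [F1 Y f1] [F1 Y f2] [F1 Y f3]
    [F1 Y f4] [F1 Y f5] [F1 Y f6] [F1 Y f7] :
    D1 Y (fun v => D.Hv (f0 v) (f1 v) (f2 v) (f3 v) (f4 v) (f5 v) (f6 v) (f7 v)) := by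
  refine D1.s8 (P := D.Hv) ?_ inferInstance inferInstance inferInstance inferInstance
    inferInstance inferInstance inferInstance inferInstance
  unfold Hv; infer_instance

variable {D} in
theorem Hv.keep {κ s d S k σ G u c S' k' : M} (h : D.Hv κ s d S k σ G u) (hw : D.Wit κ c s d)
    (hS : ∀ m, Bt S' m → Bt S m) (hk : k ≤ k') (hk' : k' ≤ c) : D.Hv κ s d S' k' σ G u := by
  obtain ⟨h1, h2, h3, h4⟩ := h
  have h0 := D.wit_le hw hk hk'
  refine ⟨lt_tw_iff.2 fun x hx => lt_of_lt_of_le (lt_tw_iff.1 h1 x hx) h0,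
    fun x _ hx => ?_, h3, fun e he hu => ?_⟩
  · obtain ⟨h5, h6, h7⟩ := h2 x (lt_tw_iff.1 h1 x hx) hx
    exact ⟨h5, h6, fun m hm hm' => h7 m hm (hS m hm')⟩
  · exact D.mono e _ _ _ _ h0 (fun _ _ => Iff.rfl) (h4 e he hu)

variable {D} in
/-- A side grows. -/
theorem Hv.bump {κ s d S k σ G u c E S' k' : M} (h : D.Hv κ s d S k σ G u)
    (hw : D.Wit κ D.N s d) (hS : ∀ m, Bt S' m → Bt S m) (hk : k + 1 ≤ k') (hk' : k' ≤ D.N)
    (hSk : ∀ m, Bt S' m → k < m) (hc : ∀ m, Bt S' m → (σ = 0 ∧ Bt c m) ∨ (σ = 1 ∧ ¬ Bt c m))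
    (hE : ∀ x, Bt E x → ap s k ≤ x ∧ x < ap s (k + 1) ∧ D.R κ x ∧
      ∀ m, k < m → m < D.N → (Bt c m ↔ Bt (ap d m) x))
    (hI : D.Imp (un (D.FF σ κ) G) (ap s k) (un (un (D.FF σ κ) G) E) (ap s (k + 1))) :
    ∃ G' u', D.Hv κ s d S' k' σ G' u' ∧ card u' = card u + 1 := by
  obtain ⟨h1, h2, h3, h4⟩ := h
  have hkk : k ≤ k' := (lt_succ_self k).le.trans hk
  have hkN : k < D.N := lt_of_lt_of_le (lt_succ_self k) (hk.trans hk')
  have h0 := D.wit_le hw hk hk'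
  have h0' := D.wit_le hw hkk hk'
  have hb := D.wit_b hw hkN.le
  obtain ⟨e, he, he1, he2⟩ := hI
  obtain ⟨u', hu'⟩ := comp1 Y D.b (fun x => Bt u x ∨ x = e)
  have hG : ∀ x, Bt G x → x < ap s k := lt_tw_iff.1 h1
  have heu : ¬ Bt u e := fun h5 => he2 (h4 e he h5)
  refine ⟨un G E, u', ⟨lt_tw_iff.2 fun x hx => ?_, fun x _ hx => ?_, lt_tw_iff.2 fun x hx =>
    ((hu' x).1 hx).1, fun e' he' hu2 => ?_⟩, ?_⟩
  · rcases bt_un.1 hx with hx | hx
    · exact lt_of_lt_of_le (hG x hx) h0'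
    · exact lt_of_lt_of_le (hE x hx).2.1 h0
  · rcases bt_un.1 hx with hx | hx
    · obtain ⟨h5, h6, h7⟩ := h2 x (hG x hx) hx
      exact ⟨h5, h6, fun m hm hm' => h7 m hm (hS m hm')⟩
    · obtain ⟨h5, h6, h7, h8⟩ := hE x hx
      refine ⟨hb.trans h5, h7, fun m hm hm' => ?_⟩
      have h9 := h8 m (hSk m hm') hm
      rcases hc m hm' with ⟨h10, h11⟩ | ⟨h10, h11⟩
      · exact Or.inl ⟨h10, h9.1 h11⟩
      · exact Or.inr ⟨h10, fun h12 => h11 (h9.2 h12)⟩
  · rcases ((hu' e').1 hu2).2 with h5 | h5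
    · refine D.mono e' _ _ _ _ h0' (fun x hx => ?_) (h4 e' he' h5)
      rw [bt_un, bt_un, bt_un]
      constructor
      · tauto
      · rintro (h6 | h6 | h6)
        · exact Or.inl h6
        · exact Or.inr h6
        · exact absurd hx (not_lt.2 (hE x h6).1)
    · rw [h5]
      refine D.mono e _ _ _ _ h0 (fun x hx => ?_) he1
      rw [bt_un, bt_un, bt_un, bt_un]
      tauto
  · obtain ⟨w, hw⟩ := comp1 Y D.b (fun x => x = e)
    have h5 : card w = 1 := cd_one (x := e) fun y => by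
      rw [hw]
      exact ⟨fun h => h.2, fun h => ⟨h ▸ he, h⟩⟩
    rw [← h5]
    refine cd_add (fun x hx h6 => heu (((hw x).1 h6).2 ▸ hx)) fun x => ?_
    rw [hu', hw]
    constructor
    · rintro ⟨h6, h7 | h7⟩
      · exact Or.inl h7
      · exact Or.inr ⟨h6, h7⟩
    · rintro (h7 | ⟨h6, h7⟩)
      · exact ⟨lt_tw_iff.1 h3 x h7, Or.inl h7⟩
      · exact ⟨h6, Or.inr h7⟩

/-! ### The halving argument -/

/-- The statement of the induction. -/
def St (κ s d j : M) : Prop :=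
  ∃ p, ∃ S, ∃ k, ∃ G0, ∃ G1, ∃ u0, ∃ u1, p + j = 2 * D.b + 1 ∧ S < tw D.N ∧ Bt S k ∧
    (∀ m, m < k → ¬ Bt S m) ∧ tw p ≤ card S ∧ D.Hv κ s d S k 0 G0 u0 ∧ D.Hv κ s d S k 1 G1 u1 ∧
    j ≤ card u0 + card u1

instance st1 {f0 f1 f2 f3 : (ℕ → M) → M} [F1 Y f0] [F1 Y f1] [F1 Y f2] [F1 Y f3] :
    S1 Y (fun v => D.St (f0 v) (f1 v) (f2 v) (f3 v)) := by
  refine S1.s4 (P := D.St) ?_ inferInstance inferInstance inferInstance inferInstance
  unfold St; infer_instance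

theorem st_zero (Y : M → Prop) [I1 Y] (D : BD Y) {κ s d : M} : D.St κ s d 0 := by
  obtain ⟨S, hS⟩ := comp1 Y D.N (fun _ => True)
  have h1 : card S = D.N := cd_ival fun y => by rw [hS]; simp
  have hN : 0 < D.N := by
    refine lt_of_le_of_lt (zle _) (lt_tw _)
  have h2 : ∀ σ, D.Hv κ s d S 0 σ 0 0 := fun σ =>
    ⟨lt_tw_iff.2 fun x hx => absurd hx (bt_zero x), fun x _ hx => absurd hx (bt_zero x),
      lt_tw_iff.2 fun x hx => absurd hx (bt_zero x), fun x _ hx => absurd hx (bt_zero x)⟩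
  refine ⟨2 * D.b + 1, S, 0, 0, 0, 0, 0, add_zero _, lt_tw_iff.2 fun x hx => ((hS x).1 hx).1,
    (hS 0).2 ⟨hN, trivial⟩, fun m hm => absurd hm (not_lt_zero' m), ?_, h2 0, h2 1, zle _⟩
  rw [h1]
  exact le_rfl

theorem st_succ (Y : M → Prop) [I1 Y] (D : BD Y) {κ s d j : M} (h : D.Wit κ D.N s d)
    (hj : j + 1 ≤ 2 * D.b + 1) (hi : D.St κ s d j) : D.St κ s d (j + 1) := by
  obtain ⟨p, S, k, G0, G1, u0, u1, h1, h2, h3, h4, h5, h6, h7, h8⟩ := hi
  have hkN : k < D.N := lt_tw_iff.1 h2 k h3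
  obtain ⟨p, rfl⟩ : ∃ p', p = p' + 1 := by
    rcases eq_zero_or_succ p with rfl | h9
    · rw [zero_add] at h1
      rw [← h1] at hj
      exact absurd (lt_succ_self j) (not_lt.2 hj)
    · exact h9
  obtain ⟨c, hc, hck, hl⟩ := D.layer κ s d k h hkN
  have hb := D.wit_b h hkN.le
  obtain ⟨E0, _, hE0, hI0⟩ := hl 0 two_pos G0 h6.1 (fun x hx hG => by
    obtain ⟨_, _, h9⟩ := h6.2.1 x hx hG
    rcases h9 k hkN h3 with h10 | h10
    · exact Or.inl h10
    · exact absurd h10.1.symm one_ne_zero)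
  obtain ⟨E1, _, hE1, hI1⟩ := hl 1 one_lt_two G1 h7.1 (fun x hx hG => by
    obtain ⟨h11, h12, h9⟩ := h7.2.1 x hx hG
    rcases h9 k hkN h3 with h10 | h10
    · exact absurd h10.1 one_ne_zero
    · exact Or.inr ⟨rfl, h12, h11, hx, h10.2⟩)
  obtain ⟨S', hS', hp, hS2⟩ := halve Y h3 (fun h9 => lt_irrefl k (hck k h9).1) h5
  have h1p : (1 : M) ≤ tw p := PAM.one_le _ (lt_of_le_of_lt (zle _) (lt_tw p))
  obtain ⟨k', hk', hkm⟩ := ex_min Y (h1p.trans hp)
  have hlt : ∀ m, Bt S' m → k < m := fun m hm => by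
    obtain ⟨h9, h10⟩ := hS' m hm
    refine lt_of_le_of_ne (not_lt.1 fun h11 => h4 m h11 h9) (Ne.symm h10)
  have hk1 : k + 1 ≤ k' := succ_le_iff.2 (hlt k' hk')
  have hk'N : k' < D.N := lt_tw_iff.1 h2 k' (hS' k' hk').1
  have hS1 : ∀ m, Bt S' m → Bt S m := fun m hm => (hS' m hm).1
  have hSN : S' < tw D.N := lt_tw_iff.2 fun x hx => lt_tw_iff.1 h2 x (hS1 x hx)
  have hkk : k ≤ k' := (lt_succ_self k).le.trans hk1
  have hpj : p + (j + 1) = 2 * D.b + 1 := by rw [← h1]; ring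
  rcases hS2 with hS2 | hS2
  · obtain ⟨G0', u0', h9, h10⟩ := h6.bump h hS1 hk1 hk'N.le hlt
      (fun m hm => Or.inl ⟨rfl, hS2 m hm⟩) hE0 hI0
    refine ⟨p, S', k', G0', G1, u0', u1, hpj, hSN, hk', fun m hm h11 =>
      absurd hm (not_lt.2 (hkm m h11)), hp, h9, h7.keep h hS1 hkk hk'N.le, ?_⟩
    rw [h10]
    have : card u0 + 1 + card u1 = card u0 + card u1 + 1 := by ring
    rw [this]
    gcongr
  · obtain ⟨G1', u1', h9, h10⟩ := h7.bump h hS1 hk1 hk'N.le hlt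
      (fun m hm => Or.inr ⟨rfl, hS2 m hm⟩) hE1 hI1
    refine ⟨p, S', k', G0, G1', u0, u1', hpj, hSN, hk', fun m hm h11 =>
      absurd hm (not_lt.2 (hkm m h11)), hp, h6.keep h hS1 hkk hk'N.le, h9, ?_⟩
    rw [h10, ← add_assoc]
    gcongr

/-- (B1) There are fewer than `N` layers. -/
theorem not_Q_N (κ : M) : ¬ D.Q κ D.N := by
  rintro ⟨s, d, h⟩
  have h1 : ∀ j, j ≤ 2 * D.b + 1 → D.St κ s d j := by
    refine ind_s (X := Y) inferInstance (fun _ => st_zero Y D) fun j ih hj => ?_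
    exact st_succ Y D h hj (ih ((lt_succ_self j).le.trans hj))
  obtain ⟨p, S, k, G0, G1, u0, u1, _, _, _, _, _, h6, h7, h8⟩ := h1 _ le_rfl
  have h9 : card u0 ≤ D.b := card_le_of_lt Y (lt_tw_iff.1 h6.2.2.1)
  have h10 : card u1 ≤ D.b := card_le_of_lt Y (lt_tw_iff.1 h7.2.2.1)
  have h11 : 2 * D.b + 1 ≤ D.b + D.b := h8.trans (add_le_add h9 h10)
  rw [← two_mul] at h11
  exact absurd (lt_succ_self _) (not_lt.2 h11)

end BD

end Pool.Agent.PD2
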