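import Pool.Agent.Work.MP_a6ae3a_lc.BlkDef

/-!
# The block lemma: one layer

The colouring of a layer `k` of a witness `s, d` is `x ↦ {m < N : k < m, x ∈ d_m}`. Its good class
gives the extensions of both sides of the guess `d_k`. Monotonicity of the levels `s_k`.
-/

namespace Pool.Agent.PD2

namespace BD

variable {M : Type} [PAM M] [IM M] {Y : M → Prop} [I1 Y] (D : BD Y)

/-- One layer of a witness, with its good class. -/
theorem layer (κ s d k : M) (h : D.Wit κ D.N s d) (hk : k < D.N) : ∃ c, c < D.q ∧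
    (∀ m, Bt c m → k < m ∧ m < D.N) ∧ ∀ σ, σ < 2 → ∀ F, F < tw (ap s k) →
    (∀ x, x < ap s k → Bt F x → D.Sd κ (ap s k) (ap d k) σ x) →
    ∃ G, G < tw (ap s (k + 1)) ∧ (∀ x, Bt G x → ap s k ≤ x ∧ x < ap s (k + 1) ∧ D.R κ x ∧
      ∀ m, k < m → m < D.N → (Bt c m ↔ Bt (ap d m) x)) ∧
      D.Imp (un (D.FF σ κ) F) (ap s k) (un (un (D.FF σ κ) F) G) (ap s (k + 1)) := by
  obtain ⟨_, hL⟩ := h
  obtain ⟨_, _, _, h4⟩ := hL k hk
  have hR : D1 Y (fun v : ℕ → M => ∀ m, m < D.N →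
      (Bt (v 1) m ↔ (k < m ∧ Bt (ap d m) (v 0)))) := inferInstance
  obtain ⟨g, hg, hgx⟩ := ex_fun_bd Y (R := fun x y => ∀ m, m < D.N →
      (Bt y m ↔ (k < m ∧ Bt (ap d m) x))) hR (ap s (k + 1)) D.q (fun x _ => by
    obtain ⟨c, hc⟩ := ex_code Y (P := fun m => k < m ∧ Bt (ap d m) x) inferInstance D.N
    refine ⟨c, lt_tw_iff.2 fun m hm => ((hc m).1 hm).1, fun m hm => ?_⟩
    rw [hc]
    simp [hm])
  obtain ⟨j, hj, hG⟩ := h4 g hg (fun x hx => (hgx x hx).1)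
  obtain ⟨c, hc⟩ := ex_code Y (P := fun m => k < m ∧ Bt j m) inferInstance D.N
  refine ⟨c, lt_tw_iff.2 fun m hm => ((hc m).1 hm).1, fun m hm =>
    ⟨((hc m).1 hm).2.1, ((hc m).1 hm).1⟩, fun σ hσ F hF hFx => ?_⟩
  obtain ⟨G, hG1, hG2, hG3⟩ := hG σ hσ F hF hFx
  refine ⟨G, hG1, fun x hx => ?_, hG3⟩
  have hx1 : x < ap s (k + 1) := lt_tw_iff.1 hG1 x hx
  obtain ⟨h5, h6, h7⟩ := hG2 x hx1 hx
  refine ⟨h5, hx1, h6, fun m hm1 hm2 => ?_⟩
  rw [hc, ← h7, (hgx x hx1).2 m hm2]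
  simp [hm1, hm2]

/-- The levels grow. -/
theorem wit_lt {κ s d k : M} {c : M} (h : D.Wit κ c s d) (hk : k < c) :
    ap s k < ap s (k + 1) := (h.2 k hk).1

theorem wit_le {κ s d : M} {c : M} (h : D.Wit κ c s d) {k l : M} (hkl : k ≤ l) (hl : l ≤ c) :
    ap s k ≤ ap s l := by
  have h1 : ∀ l : M, k ≤ l → l ≤ c → ap s k ≤ ap s l := by
    refine ind_d Y inferInstance ?_ ?_
    · intro h1 _
      rw [le_antisymm h1 (zle k)]
    · intro l ih h1 h2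
      rcases h1.lt_or_eq with h3 | h3
      · have h4 : l < c := succ_le_iff.1 h2
        exact (ih (lt_succ_iff.1 h3) h4.le).trans (D.wit_lt h h4).le
      · rw [h3]
  exact h1 l hkl hl

theorem wit_b {κ s d k : M} {c : M} (h : D.Wit κ c s d) (hk : k ≤ c) : D.b ≤ ap s k := by
  rw [← h.1]
  exact D.wit_le h (zle k) hk

end BD

end Pool.Agent.PD2
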