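import Pool.Agent.Work.MP_a6ae3a_lc.API

/-!
# The block lemma: definitions

`BD Y`: the data of a block, over a set `Y`. `Cv e F t` is the convergence relation, `FF s κ` the
finite set of side `s` of the node `κ`, `R κ` the reservoir of `κ`, `b` the level.
-/

namespace Pool.Agent.PD2

variable {M : Type} [PAM M] [IM M]

/-- Data of a block. -/
structure BD (Y : M → Prop) where
  /-- convergence -/
  Cv : M → M → M → Prop
  /-- the finite part of side `s` at the node `κ` -/
  FF : M → M → M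
  /-- the reservoir of the node `κ` -/
  R : M → M → Prop
  /-- the level -/
  b : M
  cvD : D1 Y (fun v => Cv (v 0) (v 1) (v 2))
  ffF : F1 Y (fun v => FF (v 0) (v 1))
  rD : D1 Y (fun v => R (v 0) (v 1))
  mono : ∀ e F F' t t', t ≤ t' → (∀ x, x < t → (Bt F x ↔ Bt F' x)) → Cv e F t → Cv e F' t'
  ffb : ∀ s κ, FF s κ < tw b

namespace BD

/-- A coded function for an `F1` function. -/
theorem fcomp {Y : M → Prop} [I1 Y] (n : M) {f : M → M} (hf : F1 Y (fun v => f (v 0))) :
    ∃ c, ∀ x, x < n → ap c x = f x := by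
  obtain ⟨c, hc⟩ := ex_fun Y (R := fun i y => y = f i) (by
    have := F1.s1 (g0 := fun v => v 0) hf inferInstance
    exact (inferInstance : D1 Y (fun v => v 1 = f (v 0)))) n (fun _ _ => ⟨_, rfl⟩)
  exact ⟨c, hc⟩

/-- A coded function with values below `q`, and a bound for its code. -/
theorem fcode {Y : M → Prop} [I1 Y] {n q g : M} (h : ∀ x, x < n → ap g x < q) :
    ∃ g', g' < tw (pr n q) ∧ ∀ x, x < n → ap g' x = ap g x := by
  obtain ⟨c, hc, hc'⟩ := ex_fun_bd Y (R := fun i y => y = ap g i) inferInstance n q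
    (fun i hi => ⟨_, h i hi, rfl⟩)
  exact ⟨c, hc, fun x hx => (hc' x hx).2⟩

/-- Change of one value. -/
theorem fupd {Y : M → Prop} [I1 Y] (s c n : M) :
    ∃ s', (∀ k, k < c → ap s' k = ap s k) ∧ ap s' c = n := by
  obtain ⟨s', hs'⟩ := ex_fun Y (R := fun k y => (k < c → y = ap s k) ∧ (k = c → y = n))
    inferInstance (c + 1) (fun k hk => by
      rcases lt_succ_cases hk with hk | rfl
      · exact ⟨ap s k, fun _ => rfl, fun h => absurd hk (h ▸ lt_irrefl _)⟩
      · exact ⟨n, fun h => absurd h (lt_irrefl _), fun _ => rfl⟩)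
  exact ⟨s', fun k hk => (hs' k (lt_trans hk (lt_succ_self c))).1 hk,
    (hs' c (lt_succ_self c)).2 rfl⟩

/-- Bound for the values of a function. -/
theorem f1_bdd {Y : M → Prop} [I1 Y] {f : M → M} (hf : F1 Y (fun v => f (v 0))) (n : M) :
    ∃ B, ∀ x, x < n → f x < B := by
  obtain ⟨B, hB⟩ := coll_s (X := Y) (P := fun x y => y = f x) (by
    have := F1.s1 (g0 := fun v => v 0) hf inferInstance
    exact (inferInstance : D1 Y (fun v => v 1 = f (v 0))).s) n (fun x _ => ⟨_, rfl⟩)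
  refine ⟨B, fun x hx => ?_⟩
  obtain ⟨y, hy, rfl⟩ := hB x hx
  exact hy

variable {Y : M → Prop} [I1 Y] (D : BD Y)

instance cv1 {f g h : (ℕ → M) → M} [hf : F1 Y f] [hg : F1 Y g] [hh : F1 Y h] :
    D1 Y (fun v => D.Cv (f v) (g v) (h v)) := D1.s3 D.cvD hf hg hh

instance ff1 {f g : (ℕ → M) → M} [hf : F1 Y f] [hg : F1 Y g] :
    F1 Y (fun v => D.FF (f v) (g v)) := F1.s2 D.ffF hf hg

instance r1 {f g : (ℕ → M) → M} [hf : F1 Y f] [hg : F1 Y g] :
    D1 Y (fun v => D.R (f v) (g v)) := D1.s2 D.rD hf hg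

/-- Number of layers. -/
noncomputable def N : M := tw (2 * D.b + 1)

/-- Number of colours. -/
noncomputable def q : M := tw D.N

/-- Some new `e < b` converges at `(A', t')`. -/
def Imp (A t A' t' : M) : Prop := ∃ e, e < D.b ∧ D.Cv e A' t' ∧ ¬ D.Cv e A t

/-- The side `s` of the guess `E` below `t`. -/
def Sd (κ t E s x : M) : Prop :=
  (s = 0 ∧ Bt E x) ∨ (s = 1 ∧ D.R κ x ∧ D.b ≤ x ∧ x < t ∧ ¬ Bt E x)

/-- The class `j` of the colouring `g` from `t` on. -/
def Cl (κ t g j x : M) : Prop := t ≤ x ∧ D.R κ x ∧ ap g x = j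

/-- The class `j` of `g` on `[t,t')` is good for the guess `E` below `t`. -/
def Good (κ t t' E g j : M) : Prop :=
  ∀ s, s < 2 → ∀ F, F < tw t → (∀ x, x < t → Bt F x → D.Sd κ t E s x) →
    ∃ G, G < tw t' ∧ (∀ x, x < t' → Bt G x → D.Cl κ t g j x) ∧
      D.Imp (un (D.FF s κ) F) t (un (un (D.FF s κ) F) G) t'

/-- A layer: every colouring of `R ∩ [t,t')` with `q` colours has a good class. -/
def Lay (κ t t' E : M) : Prop :=
  t < t' ∧ (∀ x, x < t → Bt E x → D.R κ x ∧ D.b ≤ x) ∧ E < tw t ∧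
    ∀ g, g < tw (pr t' D.q) → (∀ x, x < t' → ap g x < D.q) → ∃ j, j < D.q ∧ D.Good κ t t' E g j

/-- `c` layers, with levels `ap s k` and guesses `ap d k`. -/
def Wit (κ c s d : M) : Prop :=
  ap s 0 = D.b ∧ ∀ k, k < c → D.Lay κ (ap s k) (ap s (k + 1)) (ap d k)

/-- There are `c` layers. -/
def Q (κ c : M) : Prop := ∃ s, ∃ d, D.Wit κ c s d

section inst

variable {f0 f1 f2 f3 f4 f5 : (ℕ → M) → M} [F1 Y f0] [F1 Y f1] [F1 Y f2] [F1 Y f3] [F1 Y f4]
  [F1 Y f5]

instance imp1 : D1 Y (fun v => D.Imp (f0 v) (f1 v) (f2 v) (f3 v)) := by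
  refine D1.s4 (P := D.Imp) ?_ inferInstance inferInstance inferInstance inferInstance
  unfold Imp; infer_instance

instance sd1 : D1 Y (fun v => D.Sd (f0 v) (f1 v) (f2 v) (f3 v) (f4 v)) := by
  unfold Sd; infer_instance

instance cl1 : D1 Y (fun v => D.Cl (f0 v) (f1 v) (f2 v) (f3 v) (f4 v)) := by
  unfold Cl; infer_instance

instance good1 : D1 Y (fun v => D.Good (f0 v) (f1 v) (f2 v) (f3 v) (f4 v) (f5 v)) := by
  refine D1.s6 (P := D.Good) ?_ inferInstance inferInstance inferInstance inferInstance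
    inferInstance inferInstance
  unfold Good; infer_instance

instance lay1 : D1 Y (fun v => D.Lay (f0 v) (f1 v) (f2 v) (f3 v)) := by
  refine D1.s4 (P := D.Lay) ?_ inferInstance inferInstance inferInstance inferInstance
  unfold Lay; infer_instance

instance wit1 : D1 Y (fun v => D.Wit (f0 v) (f1 v) (f2 v) (f3 v)) := by
  refine D1.s4 (P := D.Wit) ?_ inferInstance inferInstance inferInstance inferInstance
  unfold Wit; infer_instance

instance q1 : S1 Y (fun v => D.Q (f0 v) (f1 v)) := by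
  refine S1.s2 (P := D.Q) ?_ inferInstance inferInstance
  unfold Q; infer_instance

end inst

end BD

end Pool.Agent.PD2
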