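import Pool.Agent.Work.MP_a6ae3a_lc.Cls

/-!
# Forcing with `Δ₂` subtrees of a `Δ₂` tree with bounded levels (abstract form)
-/

namespace Pool.Agent.PD2
variable {M : Type} [PAM M] {Y : M → Prop}

namespace Tr

/-- A `Δ₂` tree: `Lv b`: `b` is a level; `Nd b k`: `k` is a node of level `b`; `res b k`: the node of
level `b` below `k`. -/
structure LT (Y : M → Prop) (Lv : M → Prop) (Nd : M → M → Prop) (res : M → M → M) (g : M → M) :
    Prop where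
  d2L : ∀ {a : (ℕ → M) → M}, F1 Y a → D1 Y (fun v => Lv (a v))
  d2N : ∀ {a b : (ℕ → M) → M}, F1 Y a → F1 Y b → D1 Y (fun v => Nd (a v) (b v))
  f1r : ∀ {a b : (ℕ → M) → M}, F1 Y a → F1 Y b → F1 Y (fun v => res (a v) (b v))
  f1g : ∀ {a : (ℕ → M) → M}, F1 Y a → F1 Y (fun v => g (a v))
  cof : ∀ m, ∃ b, Lv b ∧ m < b
  ne : ∀ b, Lv b → ∃ k, Nd b k
  bd : ∀ b k, Nd b k → k < g b
  rs : ∀ b b' k, Nd b' k → Lv b → b ≤ b' → Nd b (res b k)
  rr : ∀ b b' k, b ≤ b' → res b (res b' k) = res b k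
  self : ∀ b k, Nd b k → res b k = k

/-- A forcing condition: a `Δ₂` subtree with nodes of every level. -/
structure Cn (Y : M → Prop) (Lv : M → Prop) (Nd : M → M → Prop) (res : M → M → M)
    (S : M → M → Prop) : Prop where
  d2 : ∀ {a b : (ℕ → M) → M}, F1 Y a → F1 Y b → D1 Y (fun v => S (a v) (b v))
  sub : ∀ b k, S b k → Nd b k
  cl : ∀ b b' k, S b' k → Lv b → b ≤ b' → S b (res b k)
  ne : ∀ b, Lv b → ∃ k, S b k

variable {Lv : M → Prop} {Nd : M → M → Prop} {res : M → M → M} {g : M → M}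

/-- A `Δ₂` family of properties inherited by lower nodes. -/
structure Pr (Y : M → Prop) (Lv : M → Prop) (Nd : M → M → Prop) (res : M → M → M)
    (Q : M → M → M → Prop) : Prop where
  d2 : ∀ {a b c : (ℕ → M) → M}, F1 Y a → F1 Y b → F1 Y c → D1 Y (fun v => Q (a v) (b v) (c v))
  cl : ∀ x b b' k, Nd b' k → Q x b' k → Lv b → b ≤ b' → Q x b (res b k)

variable [C1 Y]

theorem dicho (T : LT Y Lv Nd res g) {S : M → M → Prop} (hS : Cn Y Lv Nd res S)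
    {Q : M → M → M → Prop} (hQ : Pr Y Lv Nd res Q) (a : M) :
    (∃ x, x < a ∧ Cn Y Lv Nd res (fun b k => S b k ∧ Q x b k)) ∨
      ∃ b, Lv b ∧ ∀ k, S b k → ∀ x, x < a → ¬ Q x b k := by
  by_contra hne
  push Not at hne
  obtain ⟨h1, h2⟩ := hne
  have h3 : ∀ x, x < a → ∃ b, Lv b ∧ ∀ k, k < g b → ¬ (S b k ∧ Q x b k) := by
    intro x hx
    by_contra h4
    push Not at h4
    refine h1 x hx ⟨fun ha hb => ?_, fun b k h => hS.sub b k h.1, ?_, ?_⟩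
    · have k1 := hS.d2 ha hb
      have k2 := hQ.d2 (a := fun _ => x) inferInstance ha hb
      infer_instance
    · intro b b' k h hb hbb
      exact ⟨hS.cl b b' k h.1 hb hbb, hQ.cl x b b' k (hS.sub _ _ h.1) h.2 hb hbb⟩
    · intro b hb
      obtain ⟨k, _, h6⟩ := h4 b hb
      exact ⟨k, h6⟩
  have i1 : ∀ {a : (ℕ → M) → M} [F1 Y a], F1 Y (fun v => g (a v)) := T.f1g inferInstance
  have i2 : ∀ {a : (ℕ → M) → M} [F1 Y a], D1 Y (fun v => Lv (a v)) := T.d2L inferInstance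
  have i3 : ∀ {a b : (ℕ → M) → M} [F1 Y a] [F1 Y b], D1 Y (fun v => S (a v) (b v)) :=
    hS.d2 inferInstance inferInstance
  have i4 : ∀ {a b c : (ℕ → M) → M} [F1 Y a] [F1 Y b] [F1 Y c],
      D1 Y (fun v => Q (a v) (b v) (c v)) := hQ.d2 inferInstance inferInstance inferInstance
  have k : D1 Y (fun v : ℕ → M => Lv (v 1) ∧ ∀ k, k < g (v 1) →
    ¬ (S (v 1) k ∧ Q (v 0) (v 1) k)) := inferInstance
  obtain ⟨B, hB⟩ := coll_s (P := fun x b => Lv b ∧ ∀ k, k < g b → ¬ (S b k ∧ Q x b k)) k.s a h3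
  obtain ⟨b, hb, hBb⟩ := T.cof B
  obtain ⟨k, hk, x, hx, hq⟩ := h2 b hb
  obtain ⟨b', hb', hl, h5⟩ := hB x hx
  have hle : b' ≤ b := (hb'.trans hBb).le
  have h6 := hS.cl b' b k hk hl hle
  exact h5 _ (T.bd _ _ (hS.sub _ _ h6)) ⟨h6, hQ.cl x b' b k (hS.sub _ _ hk) hq hl hle⟩

/-- Deciding a node. -/
theorem dec (T : LT Y Lv Nd res g) {S : M → M → Prop} (hS : Cn Y Lv Nd res S) {l : M}
    (hl : Lv l) : ∃ k, S l k ∧ Cn Y Lv Nd res (fun b y => S b y ∧ (l ≤ b → res l y = k)) := by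
  have hQ : Pr Y Lv Nd res (fun x b y => l ≤ b → res l y = x) := by
    constructor
    · intro a b c ha hb hc
      have k := T.f1r (a := fun _ => l) inferInstance hc
      infer_instance
    · intro x b b' k _ h _ hbb hlb
      rw [T.rr l b k hlb]
      exact h (hlb.trans hbb)
  rcases dicho T hS hQ (g l) with ⟨x, hx, h⟩ | ⟨b, hb, h⟩
  · refine ⟨x, ?_, h⟩
    obtain ⟨k, h1, h2⟩ := h.ne l hl
    rw [← h2 le_rfl, T.self l k (hS.sub _ _ h1)]
    exact h1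
  · exfalso
    obtain ⟨k, hk⟩ := hS.ne b hb
    obtain ⟨k0, hk0⟩ := hS.ne l hl
    by_cases hlb : l ≤ b
    · exact h k hk (res l k) (T.bd _ _ (T.rs l b k (hS.sub _ _ hk) hl hlb)) (fun _ => rfl)
    · exact h k hk k0 (T.bd _ _ (hS.sub _ _ hk0)) (fun h' => absurd h' hlb)

/-- One step of the construction. -/
theorem step (T : LT Y Lv Nd res g) {S : M → M → Prop} (hS : Cn Y Lv Nd res S) {l : M}
    (hl : Lv l) {Q : M → M → M → Prop} (hQ : Pr Y Lv Nd res Q) (a : M) :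
    ∃ (S' : M → M → Prop) (k : M), Cn Y Lv Nd res S' ∧ (∀ b y, S' b y → S b y) ∧ S l k ∧
      (∀ b y, S' b y → l ≤ b → res l y = k) ∧
      ((∃ x, x < a ∧ ∀ b y, S' b y → Q x b y) ∨
        ∃ b, Lv b ∧ ∀ y, S' b y → ∀ x, x < a → ¬ Q x b y) := by
  obtain ⟨k, hk, h⟩ := dec T hS hl
  rcases dicho T h hQ a with ⟨x, hx, h'⟩ | ⟨b, hb, h'⟩
  · exact ⟨_, k, h', fun b y h => h.1.1, hk, fun b y h => h.1.2, Or.inl ⟨x, hx, fun b y h => h.2⟩⟩
  · exact ⟨_, k, h, fun b y h => h.1, hk, fun b y h => h.2, Or.inr ⟨b, hb, h'⟩⟩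

/-- The generic branch. -/
theorem branch (T : LT Y Lv Nd res g) {S : M → M → Prop} (hS : Cn Y Lv Nd res S)
    {Q : ℕ → M → M → M → Prop} (hQ : ∀ j, Pr Y Lv Nd res (Q j)) (a : ℕ → M) {l : ℕ → M}
    (hl : ∀ n, Lv (l n)) (hm : Monotone l) :
    ∃ k : ℕ → M, (∀ n, S (l n) (k n)) ∧ (∀ n m, n ≤ m → res (l n) (k m) = k n) ∧
      ∀ j, (∃ x, x < a j ∧ ∀ n, Q j x (l n) (k n)) ∨
        ∃ b, Lv b ∧ ∀ x, x < a j → ∀ n, b ≤ l n → ¬ Q j x b (res b (k n)) := by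
  have st : ∀ (n : ℕ) (S : {S : M → M → Prop // Cn Y Lv Nd res S}),
      ∃ (S' : {S : M → M → Prop // Cn Y Lv Nd res S}) (k : M), (∀ b y, S'.1 b y → S.1 b y) ∧
      S.1 (l n) k ∧ (∀ b y, S'.1 b y → l n ≤ b → res (l n) y = k) ∧
      ((∃ x, x < a n ∧ ∀ b y, S'.1 b y → Q n x b y) ∨
        ∃ b, Lv b ∧ ∀ y, S'.1 b y → ∀ x, x < a n → ¬ Q n x b y) := by
    rintro n ⟨S, hS⟩
    obtain ⟨S', k, h1, h2⟩ := step T hS (hl n) (hQ n) (a n)
    exact ⟨⟨S', h1⟩, k, h2⟩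
  choose nx kp h1 h2 h3 h4 using st
  set Sq : ℕ → {S : M → M → Prop // Cn Y Lv Nd res S} := fun n =>
    Nat.rec ⟨S, hS⟩ (fun n S => nx n S) n with hSq
  have hsucc : ∀ n, Sq (n + 1) = nx n (Sq n) := fun n => rfl
  have hdec : ∀ n m, n ≤ m → ∀ b y, (Sq m).1 b y → (Sq n).1 b y := by
    intro n m hnm
    induction m, hnm using Nat.le_induction with
    | base => exact fun b y h => h
    | succ m _ ih => exact fun b y h => ih b y (h1 m (Sq m) b y h)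
  have hk : ∀ n, (Sq n).1 (l n) (kp n (Sq n)) := fun n => h2 n (Sq n)
  have hres : ∀ n m, n ≤ m → res (l n) (kp m (Sq m)) = kp n (Sq n) := by
    intro n m hnm
    rcases Nat.eq_or_lt_of_le hnm with rfl | hlt
    · exact T.self _ _ ((Sq n).2.sub _ _ (hk n))
    · exact h3 n (Sq n) (l m) _ (hdec (n + 1) m hlt _ _ (hk m)) (hm hnm)
  have hall : ∀ n m, (Sq m).1 (l n) (kp n (Sq n)) := by
    intro n m
    rcases le_total m n with h | h
    · exact hdec m n h _ _ (hk n)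
    · rw [← hres n m h]
      exact (Sq m).2.cl _ _ _ (hk m) (hl n) (hm h)
  refine ⟨fun n => kp n (Sq n), fun n => hall n 0, hres, fun j => ?_⟩
  rcases h4 j (Sq j) with ⟨x, hx, h⟩ | ⟨b, hb, h⟩
  · exact Or.inl ⟨x, hx, fun n => h _ _ (hall n (j + 1))⟩
  · refine Or.inr ⟨b, hb, fun x hx n hbn => h _ ?_ x hx⟩
    exact (Sq (j + 1)).2.cl _ _ _ (hall n (j + 1)) hb hbn

end Tr
end Pool.Agent.PD2
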