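import Pool.Agent.Work.MP_a6ae3a_lc.SatLem

/-!
# A calculus for second order arithmetic, soundness

Natural deduction for the formulas `Fm` with number and set quantifiers. `Prv T Γ φ`: the formula
`φ` is derivable from the axioms `T` (used as universally closed) and the hypotheses `Γ`.
-/

namespace Pool.Agent.PD2

/-! ### Free variables, substitution -/

/-- The number variable `x_i` occurs free. -/
def Fm.Free (i : ℕ) : Fm → Prop
  | .eq s t => s.Occ i ∨ t.Occ i
  | .lt s t => s.Occ i ∨ t.Occ i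
  | .mem t _ => t.Occ i
  | .neg φ => φ.Free i
  | .and φ ψ => φ.Free i ∨ ψ.Free i
  | .all j φ => j ≠ i ∧ φ.Free i
  | .allS _ φ => φ.Free i

/-- The set variable `X_i` occurs free. -/
def Fm.FreeS (i : ℕ) : Fm → Prop
  | .eq _ _ => False
  | .lt _ _ => False
  | .mem _ j => j = i
  | .neg φ => φ.FreeS i
  | .and φ ψ => φ.FreeS i ∨ ψ.FreeS i
  | .all _ φ => φ.FreeS i
  | .allS j φ => j ≠ i ∧ φ.FreeS i

/-- Substitution of `t` for `x_i` in a term. -/
def Tm.sub : Tm → ℕ → Tm → Tm
  | .var j, i, t => if j = i then t else .var j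
  | .zero, _, _ => .zero
  | .one, _, _ => .one
  | .add r s, i, t => .add (r.sub i t) (s.sub i t)
  | .mul r s, i, t => .mul (r.sub i t) (s.sub i t)

/-- Substitution of `t` for the free occurrences of `x_i`. -/
def Fm.sub (i : ℕ) (t : Tm) : Fm → Fm
  | .eq r s => .eq (r.sub i t) (s.sub i t)
  | .lt r s => .lt (r.sub i t) (s.sub i t)
  | .mem s j => .mem (s.sub i t) j
  | .neg φ => .neg (φ.sub i t)
  | .and φ ψ => .and (φ.sub i t) (ψ.sub i t)
  | .all j φ => if j = i then .all j φ else .all j (φ.sub i t)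
  | .allS j φ => .allS j (φ.sub i t)

/-- The term `t` is free for `x_i` in the formula. -/
def Fm.Ok (i : ℕ) (t : Tm) : Fm → Prop
  | .eq _ _ => True
  | .lt _ _ => True
  | .mem _ _ => True
  | .neg φ => φ.Ok i t
  | .and φ ψ => φ.Ok i t ∧ ψ.Ok i t
  | .all j φ => j = i ∨ ¬ φ.Free i ∨ (¬ t.Occ j ∧ φ.Ok i t)
  | .allS _ φ => φ.Ok i t

/-- Substitution of `X_k` for the free occurrences of `X_i`. -/
def Fm.subS (i k : ℕ) : Fm → Fm
  | .eq r s => .eq r s
  | .lt r s => .lt r s
  | .mem s j => .mem s (if j = i then k else j)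
  | .neg φ => .neg (φ.subS i k)
  | .and φ ψ => .and (φ.subS i k) (ψ.subS i k)
  | .all j φ => .all j (φ.subS i k)
  | .allS j φ => if j = i then .allS j φ else .allS j (φ.subS i k)

/-- The set variable `X_k` is free for `X_i` in the formula. -/
def Fm.OkS (i k : ℕ) : Fm → Prop
  | .eq _ _ => True
  | .lt _ _ => True
  | .mem _ _ => True
  | .neg φ => φ.OkS i k
  | .and φ ψ => φ.OkS i k ∧ ψ.OkS i k
  | .all _ φ => φ.OkS i k
  | .allS j φ => j = i ∨ ¬ φ.FreeS i ∨ (j ≠ k ∧ φ.OkS i k)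

/-- Derivability of `φ` from the axioms `T` and the hypotheses `Γ`. -/
inductive Prv (T : Set Fm) : List Fm → Fm → Prop
  | ax {Γ : List Fm} {φ : Fm} (h : φ ∈ T) : Prv T Γ φ
  | hyp {Γ : List Fm} {φ : Fm} (h : φ ∈ Γ) : Prv T Γ φ
  | weak {Γ Δ : List Fm} {φ : Fm} (h : Γ ⊆ Δ) (h1 : Prv T Γ φ) : Prv T Δ φ
  | andI {Γ : List Fm} {φ ψ : Fm} (h1 : Prv T Γ φ) (h2 : Prv T Γ ψ) : Prv T Γ (.and φ ψ)
  | andE1 {Γ : List Fm} {φ ψ : Fm} (h : Prv T Γ (.and φ ψ)) : Prv T Γ φ
  | andE2 {Γ : List Fm} {φ ψ : Fm} (h : Prv T Γ (.and φ ψ)) : Prv T Γ ψ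
  | negI {Γ : List Fm} {φ ψ : Fm} (h1 : Prv T (φ :: Γ) ψ) (h2 : Prv T (φ :: Γ) (.neg ψ)) :
      Prv T Γ (.neg φ)
  | raa {Γ : List Fm} {φ ψ : Fm} (h1 : Prv T (.neg φ :: Γ) ψ)
      (h2 : Prv T (.neg φ :: Γ) (.neg ψ)) : Prv T Γ φ
  | allI {Γ : List Fm} {φ : Fm} (i : ℕ) (h : ∀ γ ∈ Γ, ¬ γ.Free i) (h1 : Prv T Γ φ) :
      Prv T Γ (.all i φ)
  | allE {Γ : List Fm} {φ : Fm} {i : ℕ} (t : Tm) (h : φ.Ok i t) (h1 : Prv T Γ (.all i φ)) :
      Prv T Γ (φ.sub i t)
  | allSI {Γ : List Fm} {φ : Fm} (i : ℕ) (h : ∀ γ ∈ Γ, ¬ γ.FreeS i) (h1 : Prv T Γ φ) :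
      Prv T Γ (.allS i φ)
  | allSE {Γ : List Fm} {φ : Fm} {i : ℕ} (k : ℕ) (h : φ.OkS i k) (h1 : Prv T Γ (.allS i φ)) :
      Prv T Γ (φ.subS i k)
  | eqR {Γ : List Fm} (t : Tm) : Prv T Γ (.eq t t)
  | eqS {Γ : List Fm} {φ : Fm} {i : ℕ} {s t : Tm} (h : φ.Ok i s) (h' : φ.Ok i t)
      (h1 : Prv T Γ (.eq s t)) (h2 : Prv T Γ (φ.sub i s)) : Prv T Γ (φ.sub i t)

/-- `T` proves `φ`. -/
def Proves (T : Set Fm) (φ : Fm) : Prop := Prv T [] φ

/-! ### Elementary lemmas on substitution -/

theorem Fm.Free.occ {i : ℕ} : ∀ {φ : Fm}, φ.Free i → φ.Occ i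
  | .eq _ _, h => h
  | .lt _ _, h => h
  | .mem _ _, h => h
  | .neg φ, h => Fm.Free.occ (φ := φ) h
  | .and φ ψ, h => h.imp (Fm.Free.occ (φ := φ)) (Fm.Free.occ (φ := ψ))
  | .all _ φ, h => Or.inr (Fm.Free.occ (φ := φ) h.2)
  | .allS _ φ, h => Fm.Free.occ (φ := φ) h

theorem Fm.FreeS.occ {i : ℕ} : ∀ {φ : Fm}, φ.FreeS i → φ.OccS i
  | .eq _ _, h => h
  | .lt _ _, h => h
  | .mem _ _, h => h
  | .neg φ, h => Fm.FreeS.occ (φ := φ) h
  | .and φ ψ, h => h.imp (Fm.FreeS.occ (φ := φ)) (Fm.FreeS.occ (φ := ψ))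
  | .all _ φ, h => Fm.FreeS.occ (φ := φ) h
  | .allS _ φ, h => Or.inr (Fm.FreeS.occ (φ := φ) h.2)

theorem Tm.sub_not_occ {i : ℕ} {t : Tm} : ∀ {s : Tm}, ¬ s.Occ i → s.sub i t = s
  | .var j, h => by
    have e : ¬ j = i := h
    simp only [Tm.sub, if_neg e]
  | .zero, _ => rfl
  | .one, _ => rfl
  | .add r s, h => by
    have h1 := Tm.sub_not_occ (t := t) (s := r) fun h' => h (Or.inl h')
    have h2 := Tm.sub_not_occ (t := t) (s := s) fun h' => h (Or.inr h')
    simp only [Tm.sub, h1, h2]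
  | .mul r s, h => by
    have h1 := Tm.sub_not_occ (t := t) (s := r) fun h' => h (Or.inl h')
    have h2 := Tm.sub_not_occ (t := t) (s := s) fun h' => h (Or.inr h')
    simp only [Tm.sub, h1, h2]

theorem Fm.sub_not_free {i : ℕ} {t : Tm} : ∀ {φ : Fm}, ¬ φ.Free i → φ.sub i t = φ
  | .eq r s, h => by
    have h1 := Tm.sub_not_occ (t := t) (s := r) fun h' => h (Or.inl h')
    have h2 := Tm.sub_not_occ (t := t) (s := s) fun h' => h (Or.inr h')
    simp only [Fm.sub, h1, h2]
  | .lt r s, h => by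
    have h1 := Tm.sub_not_occ (t := t) (s := r) fun h' => h (Or.inl h')
    have h2 := Tm.sub_not_occ (t := t) (s := s) fun h' => h (Or.inr h')
    simp only [Fm.sub, h1, h2]
  | .mem s j, h => by
    have h1 := Tm.sub_not_occ (t := t) (s := s) h
    simp only [Fm.sub, h1]
  | .neg φ, h => by
    have h1 := Fm.sub_not_free (t := t) (φ := φ) h
    simp only [Fm.sub, h1]
  | .and φ ψ, h => by
    have h1 := Fm.sub_not_free (t := t) (φ := φ) fun h' => h (Or.inl h')
    have h2 := Fm.sub_not_free (t := t) (φ := ψ) fun h' => h (Or.inr h')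
    simp only [Fm.sub, h1, h2]
  | .all j φ, h => by
    simp only [Fm.sub]
    split_ifs with e
    · rfl
    · rw [Fm.sub_not_free (t := t) (φ := φ) fun h' => h ⟨e, h'⟩]
  | .allS j φ, h => by
    have h1 := Fm.sub_not_free (t := t) (φ := φ) h
    simp only [Fm.sub, h1]

theorem Fm.subS_not_free {i k : ℕ} : ∀ {φ : Fm}, ¬ φ.FreeS i → φ.subS i k = φ
  | .eq r s, _ => rfl
  | .lt r s, _ => rfl
  | .mem s j, h => by
    have e : ¬ j = i := h
    simp only [Fm.subS, if_neg e]
  | .neg φ, h => by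
    have h1 := Fm.subS_not_free (k := k) (φ := φ) h
    simp only [Fm.subS, h1]
  | .and φ ψ, h => by
    have h1 := Fm.subS_not_free (k := k) (φ := φ) fun h' => h (Or.inl h')
    have h2 := Fm.subS_not_free (k := k) (φ := ψ) fun h' => h (Or.inr h')
    simp only [Fm.subS, h1, h2]
  | .all j φ, h => by
    have h1 := Fm.subS_not_free (k := k) (φ := φ) h
    simp only [Fm.subS, h1]
  | .allS j φ, h => by
    simp only [Fm.subS]
    split_ifs with e
    · rfl
    · rw [Fm.subS_not_free (k := k) (φ := φ) fun h' => h ⟨e, h'⟩]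

/-! ### Soundness -/

section sound

variable (H : Str)

/-- Truth depends only on the free variables. -/
theorem Str.sat_free : ∀ (φ : Fm) {v v' : ℕ → H.M} {w w' : ℕ → Set H.M},
    (∀ i, φ.Free i → v i = v' i) → (∀ i, φ.FreeS i → w i = w' i) → (H.Sat φ v w ↔ H.Sat φ v' w')
  | .eq s t, _, _, _, _, h, _ => by
    simp only [Str.Sat]
    rw [H.val_congr s fun i hi => h i (Or.inl hi), H.val_congr t fun i hi => h i (Or.inr hi)]
  | .lt s t, _, _, _, _, h, _ => by
    simp only [Str.Sat]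
    rw [H.val_congr s fun i hi => h i (Or.inl hi), H.val_congr t fun i hi => h i (Or.inr hi)]
  | .mem t i, _, _, _, _, h, h' => by
    simp only [Str.Sat]
    rw [H.val_congr t fun i hi => h i hi, h' i rfl]
  | .neg φ, _, _, _, _, h, h' => not_congr (Str.sat_free φ h h')
  | .and φ ψ, _, _, _, _, h, h' => and_congr
    (Str.sat_free φ (fun i hi => h i (Or.inl hi)) fun i hi => h' i (Or.inl hi))
    (Str.sat_free ψ (fun i hi => h i (Or.inr hi)) fun i hi => h' i (Or.inr hi))
  | .all i φ, v, v', _, _, h, h' => forall_congr' fun x => Str.sat_free φ (fun j hj => by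
      by_cases e : j = i
      · subst e; rw [Function.update_self, Function.update_self]
      · rw [Function.update_of_ne e, Function.update_of_ne e]
        exact h j ⟨fun e' => e e'.symm, hj⟩) h'
  | .allS i φ, _, _, w, w', h, h' => forall_congr' fun Z => imp_congr_right fun _ =>
      Str.sat_free φ h fun j hj => by
        by_cases e : j = i
        · subst e; rw [Function.update_self, Function.update_self]
        · rw [Function.update_of_ne e, Function.update_of_ne e]
          exact h' j ⟨fun e' => e e'.symm, hj⟩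

theorem Str.val_sub (i : ℕ) (t : Tm) (v : ℕ → H.M) : ∀ s : Tm,
    H.val v (s.sub i t) = H.val (Function.update v i (H.val v t)) s
  | .var j => by
    simp only [Tm.sub]
    split_ifs with e
    · subst e
      simp only [Str.val, Function.update_self]
    · simp only [Str.val, Function.update_of_ne e]
  | .zero => rfl
  | .one => rfl
  | .add r s => by
    simp only [Tm.sub, Str.val, Str.val_sub i t v r, Str.val_sub i t v s]
  | .mul r s => by
    simp only [Tm.sub, Str.val, Str.val_sub i t v r, Str.val_sub i t v s]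

/-- Truth of a substituted formula. -/
theorem Str.sat_sub (i : ℕ) (t : Tm) : ∀ (φ : Fm) (v : ℕ → H.M) (w : ℕ → Set H.M), φ.Ok i t →
    (H.Sat (φ.sub i t) v w ↔ H.Sat φ (Function.update v i (H.val v t)) w)
  | .eq r s, v, w, _ => by
    simp only [Fm.sub, Str.Sat, Str.val_sub]
  | .lt r s, v, w, _ => by
    simp only [Fm.sub, Str.Sat, Str.val_sub]
  | .mem s j, v, w, _ => by
    simp only [Fm.sub, Str.Sat, Str.val_sub]
  | .neg φ, v, w, h => not_congr (Str.sat_sub i t φ v w h)
  | .and φ ψ, v, w, h => and_congr (Str.sat_sub i t φ v w h.1) (Str.sat_sub i t ψ v w h.2)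
  | .all j φ, v, w, h => by
    simp only [Fm.sub]
    split_ifs with e
    · subst e
      simp only [Str.Sat, Function.update_idem]
    · simp only [Str.Sat]
      refine forall_congr' fun x => ?_
      rcases h with h | h | ⟨h1, h2⟩
      · exact absurd h e
      · rw [Fm.sub_not_free h]
        refine H.sat_free φ (fun k hk => ?_) fun _ _ => rfl
        have hk' : k ≠ i := fun e' => h (e' ▸ hk)
        by_cases e1 : k = j
        · subst e1; rw [Function.update_self, Function.update_self]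
        · rw [Function.update_of_ne e1, Function.update_of_ne e1, Function.update_of_ne hk']
      · rw [Str.sat_sub i t φ _ w h2, H.val_update h1, Function.update_comm (fun e' => e e'.symm)]
  | .allS j φ, v, w, h => by
    simp only [Fm.sub, Str.Sat]
    exact forall_congr' fun Z => imp_congr_right fun _ => Str.sat_sub i t φ v _ h

/-- Truth of a formula with a substituted set variable. -/
theorem Str.sat_subS (i k : ℕ) : ∀ (φ : Fm) (v : ℕ → H.M) (w : ℕ → Set H.M), φ.OkS i k →
    (H.Sat (φ.subS i k) v w ↔ H.Sat φ v (Function.update w i (w k)))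
  | .eq r s, v, w, _ => Iff.rfl
  | .lt r s, v, w, _ => Iff.rfl
  | .mem s j, v, w, _ => by
    simp only [Fm.subS, Str.Sat]
    by_cases e : j = i
    · subst e
      simp only [if_true, Function.update_self]
    · simp only [if_neg e, Function.update_of_ne e]
  | .neg φ, v, w, h => not_congr (Str.sat_subS i k φ v w h)
  | .and φ ψ, v, w, h => and_congr (Str.sat_subS i k φ v w h.1) (Str.sat_subS i k ψ v w h.2)
  | .all j φ, v, w, h => by
    simp only [Fm.subS, Str.Sat]
    exact forall_congr' fun x => Str.sat_subS i k φ _ w h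
  | .allS j φ, v, w, h => by
    simp only [Fm.subS]
    split_ifs with e
    · subst e
      simp only [Str.Sat, Function.update_idem]
    · simp only [Str.Sat]
      refine forall_congr' fun Z => imp_congr_right fun _ => ?_
      rcases h with h | h | ⟨h1, h2⟩
      · exact absurd h e
      · rw [Fm.subS_not_free h]
        refine H.sat_free φ (fun _ _ => rfl) fun l hl => ?_
        have hl' : l ≠ i := fun e' => h (e' ▸ hl)
        by_cases e1 : l = j
        · subst e1; rw [Function.update_self, Function.update_self]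
        · rw [Function.update_of_ne e1, Function.update_of_ne e1, Function.update_of_ne hl']
      · rw [Str.sat_subS i k φ v _ h2, Function.update_of_ne (fun e' => h1 e'.symm),
          Function.update_comm (fun e' => e e'.symm)]

/-- Soundness of the calculus. -/
theorem Prv.sound {T : Set Fm} (hT : ∀ ψ ∈ T, H.Valid ψ) {Γ : List Fm} {φ : Fm}
    (h : Prv T Γ φ) : ∀ (v : ℕ → H.M) (w : ℕ → Set H.M), (∀ i, w i ∈ H.S) →
      (∀ γ ∈ Γ, H.Sat γ v w) → H.Sat φ v w := by
  induction h with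
  | ax h => exact fun v w hw _ => hT _ h v w hw
  | hyp h => exact fun v w _ hΓ => hΓ _ h
  | weak h _ ih => exact fun v w hw hΓ => ih v w hw fun γ hγ => hΓ γ (h hγ)
  | andI _ _ ih1 ih2 => exact fun v w hw hΓ => ⟨ih1 v w hw hΓ, ih2 v w hw hΓ⟩
  | andE1 _ ih => exact fun v w hw hΓ => (ih v w hw hΓ).1
  | andE2 _ ih => exact fun v w hw hΓ => (ih v w hw hΓ).2
  | negI _ _ ih1 ih2 =>
    intro v w hw hΓ h
    have h1 := ih1 v w hw (by simpa using ⟨h, hΓ⟩)
    exact ih2 v w hw (by simpa using ⟨h, hΓ⟩) h1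
  | raa _ _ ih1 ih2 =>
    intro v w hw hΓ
    by_contra h
    have h1 := ih1 v w hw (by simpa using ⟨h, hΓ⟩)
    exact ih2 v w hw (by simpa using ⟨h, hΓ⟩) h1
  | allI i hi _ ih =>
    intro v w hw hΓ x
    refine ih _ w hw fun γ hγ => ?_
    refine (H.sat_free γ (fun k hk => ?_) fun _ _ => rfl).1 (hΓ γ hγ)
    have e : k ≠ i := fun e => hi γ hγ (e ▸ hk)
    rw [Function.update_of_ne e]
  | allE t ht _ ih =>
    intro v w hw hΓ
    rw [H.sat_sub _ _ _ _ _ ht]
    exact ih v w hw hΓ _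
  | allSI i hi _ ih =>
    intro v w hw hΓ Z hZ
    refine ih v _ (fun k => ?_) fun γ hγ => ?_
    · by_cases e : k = i
      · subst e; rw [Function.update_self]; exact hZ
      · rw [Function.update_of_ne e]; exact hw k
    · refine (H.sat_free γ (fun _ _ => rfl) fun k hk => ?_).1 (hΓ γ hγ)
      have e : k ≠ i := fun e => hi γ hγ (e ▸ hk)
      rw [Function.update_of_ne e]
  | allSE k hk _ ih =>
    intro v w hw hΓ
    rw [H.sat_subS _ _ _ _ _ hk]
    exact ih v w hw hΓ _ (hw k)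
  | eqR t => exact fun v w _ _ => rfl
  | eqS h h' _ _ ih1 ih2 =>
    intro v w hw hΓ
    have h1 := ih1 v w hw hΓ
    have h2 := ih2 v w hw hΓ
    rw [H.sat_sub _ _ _ _ _ h] at h2
    rw [H.sat_sub _ _ _ _ _ h']
    simp only [Str.Sat] at h1
    rw [← h1]
    exact h2

end sound

theorem Proves.entails {T : Set Fm} {φ : Fm} (h : Proves T φ) : Entails T φ :=
  fun H hT v w hw => Prv.sound H hT h v w hw (by simp)

end Pool.Agent.PD2
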