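import Mathlib

/-!
# Second order arithmetic: formulas, structures, theories, conservation

The two-sorted language of second order arithmetic (number variables `x_i`, set variables `X_i`),
its structures `(M, S)` with `S` a nonempty set of subsets of `M`, the theories `RCA₀`, `BΣ⁰₂`,
the principle `P(Δ⁰₂)` and the statement of conservation.
-/

namespace Pool.Agent.PD2

/-! ### Formulas -/

/-- Number terms, with number variables `x_0, x_1, ...`. -/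
inductive Tm : Type
  | var (i : ℕ) : Tm
  | zero : Tm
  | one : Tm
  | add (s t : Tm) : Tm
  | mul (s t : Tm) : Tm

/-- Formulas of second order arithmetic. `mem t i` is `t ∈ X_i`; `all i` is the quantifier over
the number variable `x_i`, `allS i` the quantifier over the set variable `X_i`. -/
inductive Fm : Type
  | eq (s t : Tm) : Fm
  | lt (s t : Tm) : Fm
  | mem (t : Tm) (i : ℕ) : Fm
  | neg (φ : Fm) : Fm
  | and (φ ψ : Fm) : Fm
  | all (i : ℕ) (φ : Fm) : Fm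
  | allS (i : ℕ) (φ : Fm) : Fm

/-- Disjunction. -/
def Fm.or (φ ψ : Fm) : Fm := .neg (.and (.neg φ) (.neg ψ))

/-- Implication. -/
def Fm.imp (φ ψ : Fm) : Fm := .neg (.and φ (.neg ψ))

/-- Equivalence. -/
def Fm.iff (φ ψ : Fm) : Fm := .and (.imp φ ψ) (.imp ψ φ)

/-- `∃ x_i`. -/
def Fm.ex (i : ℕ) (φ : Fm) : Fm := .neg (.all i (.neg φ))

/-- `∃ X_i`. -/
def Fm.exS (i : ℕ) (φ : Fm) : Fm := .neg (.allS i (.neg φ))

/-- `∀ x_i < t`. -/
def Fm.ball (i : ℕ) (t : Tm) (φ : Fm) : Fm := .all i (.imp (.lt (.var i) t) φ)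

/-- `∃ x_i < t`. -/
def Fm.bex (i : ℕ) (t : Tm) (φ : Fm) : Fm := .ex i (.and (.lt (.var i) t) φ)

/-- The variable `x_i` occurs in the term. -/
def Tm.Occ (i : ℕ) : Tm → Prop
  | .var j => j = i
  | .zero => False
  | .one => False
  | .add s t => s.Occ i ∨ t.Occ i
  | .mul s t => s.Occ i ∨ t.Occ i

/-- The number variable `x_i` occurs in the formula (free or bound). -/
def Fm.Occ (i : ℕ) : Fm → Prop
  | .eq s t => s.Occ i ∨ t.Occ i
  | .lt s t => s.Occ i ∨ t.Occ i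
  | .mem t _ => t.Occ i
  | .neg φ => φ.Occ i
  | .and φ ψ => φ.Occ i ∨ ψ.Occ i
  | .all j φ => j = i ∨ φ.Occ i
  | .allS _ φ => φ.Occ i

/-- The set variable `X_i` occurs in the formula (free or bound). -/
def Fm.OccS (i : ℕ) : Fm → Prop
  | .eq _ _ => False
  | .lt _ _ => False
  | .mem _ j => j = i
  | .neg φ => φ.OccS i
  | .and φ ψ => φ.OccS i ∨ ψ.OccS i
  | .all _ φ => φ.OccS i
  | .allS j φ => j = i ∨ φ.OccS i

/-- `φ(t)`, the formula `φ` with `t` in the place of `x_i`, written as `∀ x_i (x_i = t → φ)`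
(used only for terms `t` in which `x_i` does not occur). -/
def Fm.at (φ : Fm) (i : ℕ) (t : Tm) : Fm := .all i (.imp (.eq (.var i) t) φ)

/-! ### Classes of formulas -/

/-- Bounded formulas, `Σ⁰₀`: only quantifiers `∀ x_i < t` and `∃ x_i < t`, where `x_i` does not
occur in `t`; set variables may occur free. -/
inductive Bdd : Fm → Prop
  | eq (s t : Tm) : Bdd (.eq s t)
  | lt (s t : Tm) : Bdd (.lt s t)
  | mem (t : Tm) (i : ℕ) : Bdd (.mem t i)
  | neg {φ : Fm} (h : Bdd φ) : Bdd (.neg φ)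
  | and {φ ψ : Fm} (h : Bdd φ) (h' : Bdd ψ) : Bdd (.and φ ψ)
  | ball (i : ℕ) (t : Tm) (ht : ¬ t.Occ i) {φ : Fm} (h : Bdd φ) : Bdd (.ball i t φ)
  | bex (i : ℕ) (t : Tm) (ht : ¬ t.Occ i) {φ : Fm} (h : Bdd φ) : Bdd (.bex i t φ)

/-- `Σ⁰₁` formulas `∃ x_i θ` with `θ` bounded. -/
def IsSigma1 (φ : Fm) : Prop := ∃ (i : ℕ) (θ : Fm), Bdd θ ∧ φ = .ex i θ

/-- `Π⁰₁` formulas `∀ x_i θ` with `θ` bounded. -/
def IsPi1 (φ : Fm) : Prop := ∃ (i : ℕ) (θ : Fm), Bdd θ ∧ φ = .all i θ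

/-- `Σ⁰₂` formulas `∃ x_i ∀ x_j θ` with `θ` bounded. -/
def IsSigma2 (φ : Fm) : Prop := ∃ (i j : ℕ) (θ : Fm), Bdd θ ∧ φ = .ex i (.all j θ)

/-- Arithmetical formulas: no set quantifiers. -/
inductive Arith : Fm → Prop
  | eq (s t : Tm) : Arith (.eq s t)
  | lt (s t : Tm) : Arith (.lt s t)
  | mem (t : Tm) (i : ℕ) : Arith (.mem t i)
  | neg {φ : Fm} (h : Arith φ) : Arith (.neg φ)
  | and {φ ψ : Fm} (h : Arith φ) (h' : Arith ψ) : Arith (.and φ ψ)
  | all (i : ℕ) {φ : Fm} (h : Arith φ) : Arith (.all i φ)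

/-- `Π¹₁` formulas: a block of universal set quantifiers followed by an arithmetical formula. -/
inductive IsPi11 : Fm → Prop
  | arith {φ : Fm} (h : Arith φ) : IsPi11 φ
  | allS (i : ℕ) {φ : Fm} (h : IsPi11 φ) : IsPi11 (.allS i φ)

/-! ### Structures -/

/-- Structures for second order arithmetic: a set `M` of numbers with operations, and a nonempty
set `S` of subsets of `M` over which the set variables range. -/
structure Str where
  /-- the numbers -/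
  M : Type
  /-- `0` -/
  zero : M
  /-- `1` -/
  one : M
  /-- `+` -/
  add : M → M → M
  /-- `·` -/
  mul : M → M → M
  /-- `<` -/
  lt : M → M → Prop
  /-- the sets -/
  S : Set (Set M)
  nonempty : S.Nonempty

/-- Value of a term. -/
def Str.val (H : Str) (v : ℕ → H.M) : Tm → H.M
  | .var i => v i
  | .zero => H.zero
  | .one => H.one
  | .add s t => H.add (H.val v s) (H.val v t)
  | .mul s t => H.mul (H.val v s) (H.val v t)

/-- Truth of a formula in the structure, for the value `v i` of `x_i` and the value `w i`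
of `X_i`. -/
def Str.Sat (H : Str) : Fm → (ℕ → H.M) → (ℕ → Set H.M) → Prop
  | .eq s t, v, _ => H.val v s = H.val v t
  | .lt s t, v, _ => H.lt (H.val v s) (H.val v t)
  | .mem t i, v, w => H.val v t ∈ w i
  | .neg φ, v, w => ¬ H.Sat φ v w
  | .and φ ψ, v, w => H.Sat φ v w ∧ H.Sat ψ v w
  | .all i φ, v, w => ∀ x : H.M, H.Sat φ (Function.update v i x) w
  | .allS i φ, v, w => ∀ Z : Set H.M, Z ∈ H.S → H.Sat φ v (Function.update w i Z)

/-- The formula (its universal closure) is true in the structure. -/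
def Str.Valid (H : Str) (φ : Fm) : Prop :=
  ∀ (v : ℕ → H.M) (w : ℕ → Set H.M), (∀ i, w i ∈ H.S) → H.Sat φ v w

/-- `T ⊨ φ`: every structure in which the (universal closures of the) formulas of `T` are true
satisfies the (universal closure of the) formula `φ`. By the completeness theorem this says
that `T` proves `φ`. -/
def Entails (T : Set Fm) (φ : Fm) : Prop :=
  ∀ H : Str, (∀ ψ ∈ T, H.Valid ψ) → H.Valid φ

/-! ### Theories -/

/-- The variable `x_i`. -/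
abbrev tx (i : ℕ) : Tm := .var i

/-- `PA⁻`: the axioms of discretely ordered commutative semirings (universal closures). -/
def PAminus : Set Fm :=
  {.eq (.add (.add (tx 0) (tx 1)) (tx 2)) (.add (tx 0) (.add (tx 1) (tx 2))),
   .eq (.add (tx 0) (tx 1)) (.add (tx 1) (tx 0)),
   .eq (.mul (.mul (tx 0) (tx 1)) (tx 2)) (.mul (tx 0) (.mul (tx 1) (tx 2))),
   .eq (.mul (tx 0) (tx 1)) (.mul (tx 1) (tx 0)),
   .eq (.mul (tx 0) (.add (tx 1) (tx 2))) (.add (.mul (tx 0) (tx 1)) (.mul (tx 0) (tx 2))),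
   .eq (.add (tx 0) .zero) (tx 0),
   .eq (.mul (tx 0) .zero) .zero,
   .eq (.mul (tx 0) .one) (tx 0),
   .imp (.and (.lt (tx 0) (tx 1)) (.lt (tx 1) (tx 2))) (.lt (tx 0) (tx 2)),
   .neg (.lt (tx 0) (tx 0)),
   .or (.lt (tx 0) (tx 1)) (.or (.eq (tx 0) (tx 1)) (.lt (tx 1) (tx 0))),
   .imp (.lt (tx 0) (tx 1)) (.lt (.add (tx 0) (tx 2)) (.add (tx 1) (tx 2))),
   .imp (.and (.lt .zero (tx 2)) (.lt (tx 0) (tx 1)))
     (.lt (.mul (tx 0) (tx 2)) (.mul (tx 1) (tx 2))),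
   .imp (.lt (tx 0) (tx 1)) (.ex 2 (.eq (.add (tx 0) (tx 2)) (tx 1))),
   .lt .zero .one,
   .imp (.lt .zero (tx 0)) (.or (.lt .one (tx 0)) (.eq .one (tx 0))),
   .or (.lt .zero (tx 0)) (.eq .zero (tx 0))}

/-- The induction axiom for `φ(x_i)`:
`φ(0) ∧ ∀ x_j (φ(x_j) → φ(x_j + 1)) → ∀ x_i φ`. -/
def indAx (φ : Fm) (i j : ℕ) : Fm :=
  .imp (.and (φ.at i .zero)
    (.all j (.imp (φ.at i (tx j)) (φ.at i (.add (tx j) .one))))) (.all i φ)

/-- `Σ⁰₁` induction. -/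
def ISigma1 : Set Fm :=
  {χ | ∃ (φ : Fm) (i j : ℕ), IsSigma1 φ ∧ j ≠ i ∧ ¬ φ.Occ j ∧ χ = indAx φ i j}

/-- The comprehension axiom `∀ x_i (φ ↔ ψ) → ∃ X_k ∀ x_i (x_i ∈ X_k ↔ φ)`. -/
def compAx (φ ψ : Fm) (i k : ℕ) : Fm :=
  .imp (.all i (.iff φ ψ)) (.exS k (.all i (.iff (.mem (tx i) k) φ)))

/-- `Δ⁰₁` comprehension. -/
def DeltaCA : Set Fm :=
  {χ | ∃ (φ ψ : Fm) (i k : ℕ), IsSigma1 φ ∧ IsPi1 ψ ∧ ¬ φ.OccS k ∧ ¬ ψ.OccS k ∧
    χ = compAx φ ψ i k}

/-- `RCA₀`: `PA⁻`, `Σ⁰₁` induction and `Δ⁰₁` comprehension. -/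
def RCA0 : Set Fm := PAminus ∪ ISigma1 ∪ DeltaCA

/-- The collection axiom `∀ x_i < x_k ∃ x_j φ → ∃ x_l ∀ x_i < x_k ∃ x_j < x_l φ`. -/
def collAx (φ : Fm) (i j k l : ℕ) : Fm :=
  .imp (.ball i (tx k) (.ex j φ)) (.ex l (.ball i (tx k) (.bex j (tx l) φ)))

/-- `BΣ⁰₂`: collection for `Σ⁰₂` formulas `φ(x_i, x_j)`, with number and set parameters. -/
def BSigma2 : Set Fm :=
  {χ | ∃ (φ : Fm) (i j k l : ℕ), IsSigma2 φ ∧ i ≠ j ∧ k ≠ i ∧ k ≠ j ∧ l ≠ i ∧ l ≠ j ∧ l ≠ k ∧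
    ¬ φ.Occ k ∧ ¬ φ.Occ l ∧ χ = collAx φ i j k l}

/-- The pair `(x, s) ↦ (x + s)² + x`. -/
def prT (s t : Tm) : Tm := .add (.mul (.add s t) (.add s t)) s

/-- `X_0` is a limit approximation: for every `x = x_0` the values `f(x, s)` are constant for
large `s`, where `f(x, s) = 1` if `(x, s) ∈ X_0` and `f(x, s) = 0` otherwise. -/
def limOk : Fm :=
  .all 0 (.ex 1 (.all 2 (.imp (.or (.lt (tx 1) (tx 2)) (.eq (tx 1) (tx 2)))
    (.iff (.mem (prT (tx 0) (tx 2)) 0) (.mem (prT (tx 0) (tx 1)) 0)))))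

/-- `lim_s f(x_0, s) = 1`. -/
def lim1 : Fm :=
  .ex 1 (.all 2 (.imp (.or (.lt (tx 1) (tx 2)) (.eq (tx 1) (tx 2)))
    (.mem (prT (tx 0) (tx 2)) 0)))

/-- `lim_s f(x_0, s) = 0`. -/
def lim0 : Fm :=
  .ex 1 (.all 2 (.imp (.or (.lt (tx 1) (tx 2)) (.eq (tx 1) (tx 2)))
    (.neg (.mem (prT (tx 0) (tx 2)) 0))))

/-- `X_1` is infinite. -/
def infSet : Fm := .all 0 (.ex 1 (.and (.lt (tx 0) (tx 1)) (.mem (tx 1) 1)))

/-- `P(Δ⁰₂)`: for every limit approximation `f` there is an infinite set `H` such that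
`lim_s f(x, s) = 1` for all `x ∈ H`, or `lim_s f(x, s) = 0` for all `x ∈ H`. -/
def PDelta2 : Fm :=
  .allS 0 (.imp limOk (.exS 1 (.and infSet
    (.or (.all 0 (.imp (.mem (tx 0) 1) lim1)) (.all 0 (.imp (.mem (tx 0) 1) lim0))))))

/-- `RCA₀ + P(Δ⁰₂)` is `Π¹₁`-conservative over `RCA₀ + BΣ⁰₂`. -/
def Conservation : Prop :=
  ∀ φ : Fm, IsPi11 φ → Entails (RCA0 ∪ {PDelta2}) φ → Entails (RCA0 ∪ BSigma2) φ

end Pool.Agent.PD2
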