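import Mathlib
import Pool.Agent.Work.MP_a6ae3a_lc.Stmt

/-!
# Loewenheim-Skolem for structures of second order arithmetic
-/

namespace Pool.Agent.PD2

namespace LSk

/-! ### Countable closures -/

theorem exists_closed {D ι : Type*} [Countable ι] (f : ι → List D → D) (A : Set D)
    (hA : A.Countable) :
    ∃ C : Set D, A ⊆ C ∧ C.Countable ∧ ∀ k l, (∀ x ∈ l, x ∈ C) → f k l ∈ C := by
  classical
  let step : Set D → Set D := fun C => C ∪ ⋃ k : ι, (f k) '' {l | ∀ x ∈ l, x ∈ C}
  have hstep : ∀ C : Set D, C.Countable → (step C).Countable := by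
    intro C hC
    refine hC.union (Set.countable_iUnion fun k => Set.Countable.image ?_ _)
    rw [← Set.range_list_map_coe]
    have : Countable C := hC.to_subtype
    exact Set.countable_range _
  let Cn : ℕ → Set D := fun n => step^[n] A
  have hCn : ∀ n, (Cn n).Countable := by
    intro n
    induction n with
    | zero => exact hA
    | succ n ih =>
      have : Cn (n + 1) = step (Cn n) := Function.iterate_succ_apply' step n A
      rw [this]
      exact hstep _ ih
  have hsucc : ∀ n, Cn (n + 1) = step (Cn n) := fun n => Function.iterate_succ_apply' step n A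
  have hmono : Monotone Cn := by
    refine monotone_nat_of_le_succ fun n => ?_
    rw [hsucc]
    exact Set.subset_union_left
  refine ⟨⋃ n, Cn n, Set.subset_iUnion Cn 0, Set.countable_iUnion hCn, ?_⟩
  intro k l hl
  have : ∃ n, ∀ x ∈ l, x ∈ Cn n := by
    induction l with
    | nil => exact ⟨0, by simp⟩
    | cons a l ih =>
      obtain ⟨n, hn⟩ := ih (fun x hx => hl x (List.mem_cons_of_mem _ hx))
      obtain ⟨m, hm⟩ := Set.mem_iUnion.1 (hl a List.mem_cons_self)
      refine ⟨max n m, ?_⟩
      intro x hx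
      rcases List.mem_cons.1 hx with h | h
      · subst h
        exact hmono (le_max_right n m) hm
      · exact hmono (le_max_left n m) (hn x h)
  obtain ⟨n, hn⟩ := this
  refine Set.mem_iUnion.2 ⟨n + 1, ?_⟩
  rw [hsucc]
  exact Or.inr (Set.mem_iUnion.2 ⟨k, l, hn, rfl⟩)

/-! ### There are countably many formulas -/

/-- Code of a term. -/
def cdT : Tm → ℕ
  | .var i => Nat.pair 0 i
  | .zero => Nat.pair 1 0
  | .one => Nat.pair 2 0
  | .add s t => Nat.pair 3 (Nat.pair (cdT s) (cdT t))
  | .mul s t => Nat.pair 4 (Nat.pair (cdT s) (cdT t))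

theorem cdT_inj : ∀ s t : Tm, cdT s = cdT t → s = t := by
  intro s
  induction s with
  | var i => intro t h; cases t <;> simp_all [cdT, Nat.pair_eq_pair]
  | zero => intro t h; cases t <;> simp_all [cdT, Nat.pair_eq_pair]
  | one => intro t h; cases t <;> simp_all [cdT, Nat.pair_eq_pair]
  | add s s' ih ih' =>
    intro t h
    cases t <;> simp [cdT, Nat.pair_eq_pair] at h ⊢
    exact ⟨ih _ h.1, ih' _ h.2⟩
  | mul s s' ih ih' =>
    intro t h
    cases t <;> simp [cdT, Nat.pair_eq_pair] at h ⊢
    exact ⟨ih _ h.1, ih' _ h.2⟩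

/-- Code of a formula. -/
def cdF : Fm → ℕ
  | .eq s t => Nat.pair 0 (Nat.pair (cdT s) (cdT t))
  | .lt s t => Nat.pair 1 (Nat.pair (cdT s) (cdT t))
  | .mem t i => Nat.pair 2 (Nat.pair (cdT t) i)
  | .neg φ => Nat.pair 3 (cdF φ)
  | .and φ ψ => Nat.pair 4 (Nat.pair (cdF φ) (cdF ψ))
  | .all i φ => Nat.pair 5 (Nat.pair i (cdF φ))
  | .allS i φ => Nat.pair 6 (Nat.pair i (cdF φ))

theorem cdF_inj : ∀ φ ψ : Fm, cdF φ = cdF ψ → φ = ψ := by
  intro φ
  induction φ with
  | eq s t =>
    intro ψ h
    cases ψ <;> simp [cdF, Nat.pair_eq_pair] at h ⊢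
    exact ⟨cdT_inj _ _ h.1, cdT_inj _ _ h.2⟩
  | lt s t =>
    intro ψ h
    cases ψ <;> simp [cdF, Nat.pair_eq_pair] at h ⊢
    exact ⟨cdT_inj _ _ h.1, cdT_inj _ _ h.2⟩
  | mem t i =>
    intro ψ h
    cases ψ <;> simp [cdF, Nat.pair_eq_pair] at h ⊢
    exact ⟨cdT_inj _ _ h.1, h.2⟩
  | neg φ ih =>
    intro ψ h
    cases ψ <;> simp [cdF, Nat.pair_eq_pair] at h ⊢
    exact ih _ h
  | and φ φ' ih ih' =>
    intro ψ h
    cases ψ <;> simp [cdF, Nat.pair_eq_pair] at h ⊢
    exact ⟨ih _ h.1, ih' _ h.2⟩
  | all i φ ih =>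
    intro ψ h
    cases ψ <;> simp [cdF, Nat.pair_eq_pair] at h ⊢
    exact ⟨h.1, ih _ h.2⟩
  | allS i φ ih =>
    intro ψ h
    cases ψ <;> simp [cdF, Nat.pair_eq_pair] at h ⊢
    exact ⟨h.1, ih _ h.2⟩

instance instCountableFm : Countable Fm := ⟨⟨cdF, fun φ ψ h => cdF_inj φ ψ h⟩⟩

/-! ### Truth depends only on finitely many variables -/

/-- A bound for the variables of a term. -/
def bdT : Tm → ℕ
  | .var i => i + 1
  | .zero => 0
  | .one => 0
  | .add s t => max (bdT s) (bdT t)
  | .mul s t => max (bdT s) (bdT t)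

/-- A bound for the variables (of both sorts) of a formula. -/
def bdF : Fm → ℕ
  | .eq s t => max (bdT s) (bdT t)
  | .lt s t => max (bdT s) (bdT t)
  | .mem t i => max (bdT t) (i + 1)
  | .neg φ => bdF φ
  | .and φ ψ => max (bdF φ) (bdF ψ)
  | .all _ φ => bdF φ
  | .allS _ φ => bdF φ

theorem val_congr (H : Str) (v v' : ℕ → H.M) (t : Tm) (h : ∀ j < bdT t, v j = v' j) :
    H.val v t = H.val v' t := by
  induction t with
  | var i => exact h i (Nat.lt_succ_self i)
  | zero => rfl
  | one => rfl
  | add s t ih ih' =>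
    simp only [Str.val]
    rw [ih fun j hj => h j (lt_of_lt_of_le hj (le_max_left _ _)),
      ih' fun j hj => h j (lt_of_lt_of_le hj (le_max_right _ _))]
  | mul s t ih ih' =>
    simp only [Str.val]
    rw [ih fun j hj => h j (lt_of_lt_of_le hj (le_max_left _ _)),
      ih' fun j hj => h j (lt_of_lt_of_le hj (le_max_right _ _))]

theorem sat_congr (H : Str) (φ : Fm) : ∀ (v v' : ℕ → H.M) (w w' : ℕ → Set H.M),
    (∀ j < bdF φ, v j = v' j) → (∀ j < bdF φ, w j = w' j) →
    (H.Sat φ v w ↔ H.Sat φ v' w') := by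
  induction φ with
  | eq s t =>
    intro v v' w w' hv hw
    simp only [Str.Sat]
    rw [val_congr H v v' s fun j hj => hv j (lt_of_lt_of_le hj (le_max_left _ _)),
      val_congr H v v' t fun j hj => hv j (lt_of_lt_of_le hj (le_max_right _ _))]
  | lt s t =>
    intro v v' w w' hv hw
    simp only [Str.Sat]
    rw [val_congr H v v' s fun j hj => hv j (lt_of_lt_of_le hj (le_max_left _ _)),
      val_congr H v v' t fun j hj => hv j (lt_of_lt_of_le hj (le_max_right _ _))]
  | mem t i =>
    intro v v' w w' hv hw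
    simp only [Str.Sat]
    rw [val_congr H v v' t fun j hj => hv j (lt_of_lt_of_le hj (le_max_left _ _)),
      hw i (lt_of_lt_of_le (Nat.lt_succ_self i) (le_max_right _ _))]
  | neg φ ih =>
    intro v v' w w' hv hw
    simp only [Str.Sat]
    rw [ih v v' w w' hv hw]
  | and φ ψ ih ih' =>
    intro v v' w w' hv hw
    simp only [Str.Sat]
    rw [ih v v' w w' (fun j hj => hv j (lt_of_lt_of_le hj (le_max_left _ _)))
        (fun j hj => hw j (lt_of_lt_of_le hj (le_max_left _ _))),
      ih' v v' w w' (fun j hj => hv j (lt_of_lt_of_le hj (le_max_right _ _)))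
        (fun j hj => hw j (lt_of_lt_of_le hj (le_max_right _ _)))]
  | all i φ ih =>
    intro v v' w w' hv hw
    simp only [Str.Sat]
    refine forall_congr' fun x => ih _ _ w w' ?_ hw
    intro j hj
    by_cases hji : j = i
    · subst hji; simp
    · simp [Function.update_of_ne hji, hv j hj]
  | allS i φ ih =>
    intro v v' w w' hv hw
    simp only [Str.Sat]
    refine forall_congr' fun Z => forall_congr' fun _ => ih v v' _ _ hv ?_
    intro j hj
    by_cases hji : j = i
    · subst hji; simp
    · simp [Function.update_of_ne hji, hw j hj]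

/-! ### Skolem functions -/

section
variable (H : Str) (m0 : H.M) (S0 : H.S)

/-- Number valuation coded by a list. -/
def exM (l : List (H.M ⊕ H.S)) : ℕ → H.M := fun j => (l.filterMap Sum.getLeft?).getD j m0

/-- Set valuation coded by a list. -/
def exS (l : List (H.M ⊕ H.S)) : ℕ → Set H.M :=
  fun j => ((l.filterMap Sum.getRight?).getD j S0 : H.S)

open Classical in
/-- Skolem functions. -/
noncomputable def sk (k : Fm × ℕ × Bool) (l : List (H.M ⊕ H.S)) : H.M ⊕ H.S :=
  if k.2.2 = true then
    (if h : ∃ Z : H.S, ¬ H.Sat k.1 (exM H m0 l) (Function.update (exS H S0 l) k.2.1 Z) then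
      Sum.inr h.choose else Sum.inr S0)
  else
    (if h : ∃ x : H.M, ¬ H.Sat k.1 (Function.update (exM H m0 l) k.2.1 x) (exS H S0 l) then
      Sum.inl h.choose else Sum.inl m0)

/-- The list coding the values below `N`. -/
def mkl (N : ℕ) (v : ℕ → H.M) (W : ℕ → H.S) : List (H.M ⊕ H.S) :=
  ((List.range N).map fun j => Sum.inl (v j)) ++ ((List.range N).map fun j => Sum.inr (W j))

theorem fl_inl {α β γ : Type*} (l : List γ) (f : γ → α) :
    (l.map fun j => (Sum.inl (f j) : α ⊕ β)).filterMap Sum.getLeft? = l.map f := by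
  induction l with
  | nil => rfl
  | cons a l ih => simpa using ih

theorem fl_inr {α β γ : Type*} (l : List γ) (f : γ → β) :
    (l.map fun j => (Sum.inr (f j) : α ⊕ β)).filterMap Sum.getLeft? = [] := by
  induction l with
  | nil => rfl
  | cons a l ih => simp

theorem fr_inr {α β γ : Type*} (l : List γ) (f : γ → β) :
    (l.map fun j => (Sum.inr (f j) : α ⊕ β)).filterMap Sum.getRight? = l.map f := by
  induction l with
  | nil => rfl
  | cons a l ih => simpa using ih

theorem fr_inl {α β γ : Type*} (l : List γ) (f : γ → α) :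
    (l.map fun j => (Sum.inl (f j) : α ⊕ β)).filterMap Sum.getRight? = [] := by
  induction l with
  | nil => rfl
  | cons a l ih => simp

theorem exM_mkl (N : ℕ) (v : ℕ → H.M) (W : ℕ → H.S) (j : ℕ) (hj : j < N) :
    exM H m0 (mkl H N v W) j = v j := by
  unfold exM mkl
  rw [List.filterMap_append, fl_inl, fl_inr, List.append_nil]
  simp [List.getD_eq_getElem?_getD, List.getElem?_map, List.getElem?_range hj]

theorem exS_mkl (N : ℕ) (v : ℕ → H.M) (W : ℕ → H.S) (j : ℕ) (hj : j < N) :
    exS H S0 (mkl H N v W) j = (W j : Set H.M) := by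
  unfold exS mkl
  rw [List.filterMap_append, fr_inl, fr_inr, List.nil_append]
  simp [List.getD_eq_getElem?_getD, List.getElem?_map, List.getElem?_range hj]

variable (C : Set (H.M ⊕ H.S)) (hC : ∀ k l, (∀ x ∈ l, x ∈ C) → sk H m0 S0 k l ∈ C)

theorem mem_mkl {C : Set (H.M ⊕ H.S)} (N : ℕ) (v : ℕ → H.M) (W : ℕ → H.S)
    (hv : ∀ j, (Sum.inl (v j) : H.M ⊕ H.S) ∈ C) (hW : ∀ j, (Sum.inr (W j) : H.M ⊕ H.S) ∈ C) :
    ∀ x ∈ mkl H N v W, x ∈ C := by
  intro x hx
  rcases List.mem_append.1 hx with h | h
  · obtain ⟨j, _, rfl⟩ := List.mem_map.1 h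
    exact hv j
  · obtain ⟨j, _, rfl⟩ := List.mem_map.1 h
    exact hW j

include hC in
/-- Tarski-Vaught for number quantifiers. -/
theorem tv (φ : Fm) (i : ℕ) (v : ℕ → H.M) (W : ℕ → H.S)
    (hv : ∀ j, (Sum.inl (v j) : H.M ⊕ H.S) ∈ C) (hW : ∀ j, (Sum.inr (W j) : H.M ⊕ H.S) ∈ C)
    (h : ∀ x : H.M, (Sum.inl x : H.M ⊕ H.S) ∈ C →
      H.Sat φ (Function.update v i x) (fun j => (W j : Set H.M))) :
    ∀ x : H.M, H.Sat φ (Function.update v i x) (fun j => (W j : Set H.M)) := by
  intro x
  by_contra hx
  set N := bdF φ with hN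
  have key : ∀ y : H.M, (H.Sat φ (Function.update (exM H m0 (mkl H N v W)) i y)
      (exS H S0 (mkl H N v W)) ↔ H.Sat φ (Function.update v i y) (fun j => (W j : Set H.M))) := by
    intro y
    refine sat_congr H φ _ _ _ _ ?_ (fun j hj => exS_mkl H S0 N v W j hj)
    intro j hj
    by_cases hji : j = i
    · subst hji; simp
    · simp only [Function.update_of_ne hji]
      exact exM_mkl H m0 N v W j hj
  have hex : ∃ y : H.M, ¬ H.Sat φ (Function.update (exM H m0 (mkl H N v W)) i y)
      (exS H S0 (mkl H N v W)) := ⟨x, fun h' => hx ((key x).1 h')⟩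
  have hmem := hC (φ, i, false) (mkl H N v W) (mem_mkl H N v W hv hW)
  have hsk : sk H m0 S0 (φ, i, false) (mkl H N v W) = Sum.inl hex.choose := by
    unfold sk
    rw [if_neg (by simp), dif_pos hex]
  rw [hsk] at hmem
  exact hex.choose_spec ((key _).2 (h _ hmem))

include hC in
/-- Tarski-Vaught for set quantifiers. -/
theorem tvS (φ : Fm) (i : ℕ) (v : ℕ → H.M) (W : ℕ → H.S)
    (hv : ∀ j, (Sum.inl (v j) : H.M ⊕ H.S) ∈ C) (hW : ∀ j, (Sum.inr (W j) : H.M ⊕ H.S) ∈ C)
    (h : ∀ Z : H.S, (Sum.inr Z : H.M ⊕ H.S) ∈ C →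
      H.Sat φ v (Function.update (fun j => (W j : Set H.M)) i Z)) :
    ∀ Z : H.S, H.Sat φ v (Function.update (fun j => (W j : Set H.M)) i Z) := by
  intro x
  by_contra hx
  set N := bdF φ with hN
  have key : ∀ y : H.S, (H.Sat φ (exM H m0 (mkl H N v W))
      (Function.update (exS H S0 (mkl H N v W)) i y) ↔
      H.Sat φ v (Function.update (fun j => (W j : Set H.M)) i y)) := by
    intro y
    refine sat_congr H φ _ _ _ _ (fun j hj => exM_mkl H m0 N v W j hj) ?_
    intro j hj
    by_cases hji : j = i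
    · subst hji; simp
    · simp only [Function.update_of_ne hji]
      exact exS_mkl H S0 N v W j hj
  have hex : ∃ y : H.S, ¬ H.Sat φ (exM H m0 (mkl H N v W))
      (Function.update (exS H S0 (mkl H N v W)) i y) := ⟨x, fun h' => hx ((key x).1 h')⟩
  have hmem := hC (φ, i, true) (mkl H N v W) (mem_mkl H N v W hv hW)
  have hsk : sk H m0 S0 (φ, i, true) (mkl H N v W) = Sum.inr hex.choose := by
    unfold sk
    rw [if_pos rfl, dif_pos hex]
  rw [hsk] at hmem
  exact hex.choose_spec ((key _).2 (h _ hmem))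

end

end LSk

open LSk

/-- Downward Loewenheim-Skolem: every structure with given valuations has a countable
substructure (numbers and sets, the sets restricted to the new numbers) in which exactly the
same formulas hold under these valuations, and which satisfies every sentence true in `H`. -/
theorem Str.ls (H : Str) (v : ℕ → H.M) (w : ℕ → Set H.M) (hw : ∀ i, w i ∈ H.S) :
    ∃ (K : Str) (v' : ℕ → K.M) (w' : ℕ → Set K.M), Countable K.M ∧ K.S.Countable ∧
      (∀ i, w' i ∈ K.S) ∧ (∀ φ, K.Sat φ v' w' ↔ H.Sat φ v w) ∧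
      (∀ φ, H.Valid φ → K.Valid φ) := by
  classical
  let W0 : ℕ → H.S := fun i => ⟨w i, hw i⟩
  obtain ⟨C, hA, hcount, hC⟩ := exists_closed (sk H (v 0) (W0 0))
    (Set.range (fun i => (Sum.inl (v i) : H.M ⊕ H.S)) ∪
      Set.range (fun i => (Sum.inr (W0 i) : H.M ⊕ H.S)))
    ((Set.countable_range _).union (Set.countable_range _))
  have hv0 : ∀ i, (Sum.inl (v i) : H.M ⊕ H.S) ∈ C := fun i => hA (Or.inl ⟨i, rfl⟩)
  have hW0 : ∀ i, (Sum.inr (W0 i) : H.M ⊕ H.S) ∈ C := fun i => hA (Or.inr ⟨i, rfl⟩)
  -- definable elements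
  have hdef : ∀ (t : Tm) (u : ℕ → H.M), (∀ j, (Sum.inl (u j) : H.M ⊕ H.S) ∈ C) →
      bdT t ≤ 2 → (Sum.inl (H.val u t) : H.M ⊕ H.S) ∈ C := by
    intro t u hu ht
    by_contra hne
    have := tv H (v 0) (W0 0) C hC (.neg (.eq (.var 2) t)) 2 u W0 hu hW0 (by
      intro x hx heq
      simp only [Str.Sat, Str.val, not_not, Function.update_self] at heq
      apply hne
      rw [val_congr H u (Function.update u 2 x) t (by
        intro j hj
        rw [Function.update_of_ne (by omega)]), ← heq]
      exact hx) (H.val u t)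
    simp only [Str.Sat, Str.val, Function.update_self] at this
    apply this
    exact val_congr H u _ t (by
        intro j hj
        rw [Function.update_of_ne (by omega)])
  have hadd : ∀ x y : H.M, (Sum.inl x : H.M ⊕ H.S) ∈ C → (Sum.inl y : H.M ⊕ H.S) ∈ C →
      (Sum.inl (H.add x y) : H.M ⊕ H.S) ∈ C := by
    intro x y hx hy
    have := hdef (.add (.var 0) (.var 1)) (fun j => if j = 0 then x else y)
      (by intro j; by_cases hj : j = 0 <;> simp [hj, hx, hy]) (by decide)
    simpa [Str.val] using this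
  have hmul : ∀ x y : H.M, (Sum.inl x : H.M ⊕ H.S) ∈ C → (Sum.inl y : H.M ⊕ H.S) ∈ C →
      (Sum.inl (H.mul x y) : H.M ⊕ H.S) ∈ C := by
    intro x y hx hy
    have := hdef (.mul (.var 0) (.var 1)) (fun j => if j = 0 then x else y)
      (by intro j; by_cases hj : j = 0 <;> simp [hj, hx, hy]) (by decide)
    simpa [Str.val] using this
  have hzero : (Sum.inl H.zero : H.M ⊕ H.S) ∈ C := hdef .zero v hv0 (by decide)
  have hone : (Sum.inl H.one : H.M ⊕ H.S) ∈ C := hdef .one v hv0 (by decide)
  let CM : Type := {x : H.M // (Sum.inl x : H.M ⊕ H.S) ∈ C}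
  let tr : H.S → Set CM := fun B => {x | x.1 ∈ B.1}
  let K : Str :=
    { M := CM
      zero := ⟨H.zero, hzero⟩
      one := ⟨H.one, hone⟩
      add := fun x y => ⟨H.add x.1 y.1, hadd _ _ x.2 y.2⟩
      mul := fun x y => ⟨H.mul x.1 y.1, hmul _ _ x.2 y.2⟩
      lt := fun x y => H.lt x.1 y.1
      S := tr '' {B | (Sum.inr B : H.M ⊕ H.S) ∈ C}
      nonempty := ⟨tr (W0 0), W0 0, hW0 0, rfl⟩ }
  have hval : ∀ (t : Tm) (u : ℕ → CM), (K.val u t).1 = H.val (fun j => (u j).1) t := by
    intro t u
    induction t with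
    | var i => rfl
    | zero => rfl
    | one => rfl
    | add s t ih ih' =>
      show H.add (K.val u s).1 (K.val u t).1 = _
      rw [ih, ih']; rfl
    | mul s t ih ih' =>
      show H.mul (K.val u s).1 (K.val u t).1 = _
      rw [ih, ih']; rfl
  have hupd : ∀ (u : ℕ → CM) (i : ℕ) (x : CM),
      (fun j => (Function.update u i x j).1) = Function.update (fun j => (u j).1) i x.1 := by
    intro u i x
    funext j
    by_cases hji : j = i
    · subst hji; simp
    · simp [Function.update_of_ne hji]
  have hupdS : ∀ (U : ℕ → H.S) (i : ℕ) (B : H.S),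
      (fun j => ((Function.update U i B j : H.S) : Set H.M)) =
        Function.update (fun j => ((U j : H.S) : Set H.M)) i (B : Set H.M) := by
    intro U i B
    funext j
    by_cases hji : j = i
    · subst hji; simp
    · simp [Function.update_of_ne hji]
  have hupdT : ∀ (U : ℕ → H.S) (i : ℕ) (B : H.S),
      Function.update (fun j => tr (U j)) i (tr B) = fun j => tr (Function.update U i B j) := by
    intro U i B
    funext j
    by_cases hji : j = i
    · subst hji; simp
    · simp [Function.update_of_ne hji]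
  have elem : ∀ (φ : Fm) (u : ℕ → CM) (U : ℕ → H.S), (∀ j, (Sum.inr (U j) : H.M ⊕ H.S) ∈ C) →
      (K.Sat φ u (fun j => tr (U j)) ↔
        H.Sat φ (fun j => (u j).1) (fun j => ((U j : H.S) : Set H.M))) := by
    intro φ
    induction φ with
    | eq s t =>
      intro u U hU
      show (K.val u s = K.val u t ↔ H.val _ s = H.val _ t)
      rw [← hval s u, ← hval t u]
      exact Subtype.ext_iff
    | lt s t =>
      intro u U hU
      show (H.lt (K.val u s).1 (K.val u t).1 ↔ H.lt (H.val _ s) (H.val _ t))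
      rw [hval s u, hval t u]
    | mem t i =>
      intro u U hU
      show ((K.val u t).1 ∈ (U i).1 ↔ H.val _ t ∈ (U i).1)
      rw [hval t u]
    | neg φ ih =>
      intro u U hU
      exact not_congr (ih u U hU)
    | and φ ψ ih ih' =>
      intro u U hU
      exact and_congr (ih u U hU) (ih' u U hU)
    | all i φ ih =>
      intro u U hU
      constructor
      · intro h
        refine tv H (v 0) (W0 0) C hC φ i (fun j => (u j).1) U (fun j => (u j).2) hU ?_
        intro x hx
        have := (ih (Function.update u i ⟨x, hx⟩) U hU).1 (h ⟨x, hx⟩)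
        rw [hupd] at this
        exact this
      · intro h x
        have := h x.1
        refine (ih (Function.update u i x) U hU).2 ?_
        rw [hupd]
        exact this
    | allS i φ ih =>
      intro u U hU
      constructor
      · intro h Z hZ
        refine tvS H (v 0) (W0 0) C hC φ i (fun j => (u j).1) U (fun j => (u j).2) hU ?_ ⟨Z, hZ⟩
        intro B hB
        have h1 := h (tr B) ⟨B, hB, rfl⟩
        rw [hupdT] at h1
        have h2 := (ih u (Function.update U i B) (by
          intro j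
          by_cases hji : j = i
          · subst hji; simpa using hB
          · simpa [Function.update_of_ne hji] using hU j)).1 h1
        rw [hupdS] at h2
        exact h2
      · intro h Z hZ
        obtain ⟨B, hB, rfl⟩ := hZ
        have h1 := h B.1 B.2
        rw [← hupdS] at h1
        have h2 := (ih u (Function.update U i B) (by
          intro j
          by_cases hji : j = i
          · subst hji; simpa using hB
          · simpa [Function.update_of_ne hji] using hU j)).2 h1
        rw [← hupdT] at h2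
        exact h2
  refine ⟨K, fun i => ⟨v i, hv0 i⟩, fun i => tr (W0 i), ?_, ?_, fun i => ⟨W0 i, hW0 i, rfl⟩,
    fun φ => elem φ (fun i => ⟨v i, hv0 i⟩) W0 hW0, ?_⟩
  · have : ((Sum.inl : H.M → H.M ⊕ H.S) ⁻¹' C).Countable :=
      hcount.preimage Sum.inl_injective
    exact this.to_subtype
  · have : ((Sum.inr : H.S → H.M ⊕ H.S) ⁻¹' C).Countable :=
      hcount.preimage Sum.inr_injective
    exact this.image tr
  · intro φ hφ u U hU
    choose B hB hBU using hU
    have : U = fun j => tr (B j) := funext fun j => (hBU j).symm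
    rw [this]
    exact (elem φ u B hB).2 (hφ _ _ (fun j => (B j).2))

end Pool.Agent.PD2
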