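import Pool.Agent.Work.MP_a6ae3a_lc.CalcSub
import Pool.Agent.Work.MP_a6ae3a_lc.LS

/-!
# Completeness of the calculus

`proves_iff_entails`: `T` proves `φ` if and only if `φ` is true in all structures of second order
arithmetic in which `T` is true. Henkin's construction; the witnesses are variables that do not
occur.
-/

namespace Pool.Agent.PD2

variable {T : Set Fm} {Γ : List Fm}

/-! ### Consistency -/

/-- Consistent hypotheses. -/
def Con (T : Set Fm) (Γ : List Fm) : Prop := ∀ ψ, Prv T Γ ψ → ¬ Prv T Γ (.neg ψ)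

theorem Prv.w {α β : Fm} (h : Prv T Γ β) : Prv T (α :: Γ) β :=
  h.weak (List.subset_cons_self _ _)

theorem Prv.cut {α β : Fm} (h1 : Prv T Γ α) (h2 : Prv T (α :: Γ) β) : Prv T Γ β := by
  refine .raa (ψ := α) h1.w ?_
  refine .negI (ψ := β) (.weak ?_ h2) (.hyp (by simp))
  intro x hx
  simp only [List.mem_cons] at hx ⊢
  tauto

theorem con_neg {ψ : Fm} (h : Con T Γ) (h1 : ¬ Con T (ψ :: Γ)) : Con T (.neg ψ :: Γ) := by
  unfold Con at h1
  push Not at h1
  obtain ⟨χ, h2, h3⟩ := h1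
  have h4 : Prv T Γ (.neg ψ) := .negI h2 h3
  exact fun ξ h5 h6 => h ξ (h4.cut h5) (h4.cut h6)

theorem con_wit {i j : ℕ} {χ : Fm} (h : Con T Γ) (hm : Fm.neg (.all i χ) ∈ Γ)
    (hj : ∀ γ ∈ Γ, ¬ γ.Occ j) : Con T (.neg (χ.sub i (.var j)) :: Γ) := by
  intro ξ h1 h2
  have h3 : Prv T Γ (χ.sub i (.var j)) := .raa h1 h2
  have hj1 := hj _ hm
  have hij : i ≠ j := fun e => hj1 (Or.inl e)
  have hχ : ¬ χ.Occ j := fun e => hj1 (Or.inr e)
  have h4 : Prv T Γ (.all j (χ.sub i (.var j))) := .allI j (fun γ hγ h' => hj γ hγ h'.occ) h3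
  have h5 : Prv T [.all j (χ.sub i (.var j))] χ := by
    have h6 : Prv T [.all j (χ.sub i (.var j))] ((χ.sub i (.var j)).sub j (.var i)) :=
      .allE (.var i) (Fm.ok_back hχ) (.hyp (by simp))
    rwa [Fm.sub_back hχ] at h6
  have h7 : Prv T [.all j (χ.sub i (.var j))] (.all i χ) := by
    refine .allI i ?_ h5
    intro γ hγ
    simp only [List.mem_singleton] at hγ
    subst hγ
    exact fun h' => Fm.not_free_sub hij h'.2
  have h8 : Prv T Γ (.all i χ) := h4.cut (h7.weak (by simp))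
  exact h _ h8 (.hyp hm)

theorem con_witS {i j : ℕ} {χ : Fm} (h : Con T Γ) (hm : Fm.neg (.allS i χ) ∈ Γ)
    (hj : ∀ γ ∈ Γ, ¬ γ.OccS j) : Con T (.neg (χ.subS i j) :: Γ) := by
  intro ξ h1 h2
  have h3 : Prv T Γ (χ.subS i j) := .raa h1 h2
  have hj1 := hj _ hm
  have hij : i ≠ j := fun e => hj1 (Or.inl e)
  have hχ : ¬ χ.OccS j := fun e => hj1 (Or.inr e)
  have h4 : Prv T Γ (.allS j (χ.subS i j)) := .allSI j (fun γ hγ h' => hj γ hγ h'.occ) h3
  have h5 : Prv T [.allS j (χ.subS i j)] χ := by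
    have h6 : Prv T [.allS j (χ.subS i j)] ((χ.subS i j).subS j i) :=
      .allSE i (Fm.okS_back hχ) (.hyp (by simp))
    rwa [Fm.subS_back hχ] at h6
  have h7 : Prv T [.allS j (χ.subS i j)] (.allS i χ) := by
    refine .allSI i ?_ h5
    intro γ hγ
    simp only [List.mem_singleton] at hγ
    subst hγ
    exact fun h' => Fm.not_freeS_subS hij h'.2
  have h8 : Prv T Γ (.allS i χ) := h4.cut (h7.weak (by simp))
  exact h _ h8 (.hyp hm)

theorem exists_fresh (n : ℕ) : ∀ Γ : List Fm, ∃ N, n ≤ N ∧ ∀ γ ∈ Γ, ∀ j, N ≤ j →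
    ¬ γ.Occ j ∧ ¬ γ.OccS j
  | [] => ⟨n, le_rfl, by simp⟩
  | γ :: Γ => by
    obtain ⟨N, h1, h2⟩ := exists_fresh n Γ
    refine ⟨max N (max γ.bd γ.bdS), by omega, ?_⟩
    intro δ hδ j hj
    rcases List.mem_cons.1 hδ with rfl | hδ
    · exact ⟨fun h => by have := δ.lt_bd h; omega, fun h => by have := δ.lt_bdS h; omega⟩
    · exact h2 δ hδ j (by omega)

/-- One step of Henkin's construction. -/
theorem henkin_step (n : ℕ) (h : Con T Γ) (ψ : Fm) : ∃ Δ, Γ ⊆ Δ ∧ Con T Δ ∧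
    (ψ ∈ Δ ∨ Fm.neg ψ ∈ Δ) ∧
    (∀ i χ, ψ = .neg (.all i χ) → ψ ∈ Δ → ∃ j, n ≤ j ∧ ¬ χ.Occ j ∧
      Fm.neg (χ.sub i (.var j)) ∈ Δ) ∧
    (∀ i χ, ψ = .neg (.allS i χ) → ψ ∈ Δ → ∃ j, n ≤ j ∧ ¬ χ.OccS j ∧
      Fm.neg (χ.subS i j) ∈ Δ) := by
  by_cases hc : Con T (ψ :: Γ)
  · obtain ⟨j, hnj, hj⟩ := exists_fresh n (ψ :: Γ)
    have hjψ := hj ψ (by simp) j le_rfl
    have hsub : Γ ⊆ ψ :: Γ := List.subset_cons_self _ _
    by_cases h1 : ∃ i χ, ψ = .neg (.all i χ)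
    · obtain ⟨i, χ, rfl⟩ := h1
      refine ⟨_, fun x hx => List.mem_cons_of_mem _ (hsub hx),
        con_wit (i := i) (χ := χ) hc (by simp) (j := j) (fun γ hγ => (hj γ hγ j le_rfl).1), Or.inl (by simp), ?_, ?_⟩
      · intro i' χ' e _
        simp only [Fm.neg.injEq, Fm.all.injEq] at e
        obtain ⟨rfl, rfl⟩ := e
        exact ⟨j, hnj, fun h => hjψ.1 (Or.inr h), by simp⟩
      · intro i' χ' e
        simp at e
    · by_cases h2 : ∃ i χ, ψ = .neg (.allS i χ)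
      · obtain ⟨i, χ, rfl⟩ := h2
        refine ⟨_, fun x hx => List.mem_cons_of_mem _ (hsub hx),
          con_witS (i := i) (χ := χ) hc (by simp) (j := j) (fun γ hγ => (hj γ hγ j le_rfl).2), Or.inl (by simp),
          ?_, ?_⟩
        · intro i' χ' e
          simp at e
        · intro i' χ' e _
          simp only [Fm.neg.injEq, Fm.allS.injEq] at e
          obtain ⟨rfl, rfl⟩ := e
          exact ⟨j, hnj, fun h => hjψ.2 (Or.inr h), by simp⟩
      · exact ⟨_, hsub, hc, Or.inl (by simp), fun i χ e => absurd ⟨i, χ, e⟩ h1,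
          fun i χ e => absurd ⟨i, χ, e⟩ h2⟩
  · have hc' := con_neg h hc
    refine ⟨_, List.subset_cons_self _ _, hc', Or.inr (by simp), ?_, ?_⟩
    · intro i χ e hm
      exact absurd (Prv.hyp (by simp)) (hc' ψ (.hyp hm))
    · intro i χ e hm
      exact absurd (Prv.hyp (by simp)) (hc' ψ (.hyp hm))

/-- Complete consistent sets of formulas with witnesses. -/
structure Hk (T : Set Fm) (Δ : Set Fm) : Prop where
  con : ∀ Γ : List Fm, (∀ γ ∈ Γ, γ ∈ Δ) → Con T Γ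
  full : ∀ ψ, ψ ∈ Δ ∨ Fm.neg ψ ∈ Δ
  wit : ∀ i χ, Fm.neg (.all i χ) ∈ Δ → ∃ j, ¬ χ.Occ j ∧ Fm.neg (χ.sub i (.var j)) ∈ Δ
  witS : ∀ i χ, Fm.neg (.allS i χ) ∈ Δ → ∃ j, ¬ χ.OccS j ∧ Fm.neg (χ.subS i j) ∈ Δ
  many : ∀ N : ℕ, ∃ F : Set Fm, F.Finite ∧ ∀ i χ, Fm.neg (.all i χ) ∈ Δ →
    Fm.neg (.all i χ) ∉ F → ∃ j, N ≤ j ∧ Fm.neg (χ.sub i (.var j)) ∈ Δ
  manyS : ∀ N : ℕ, ∃ F : Set Fm, F.Finite ∧ ∀ i χ, Fm.neg (.allS i χ) ∈ Δ →
    Fm.neg (.allS i χ) ∉ F → ∃ j, N ≤ j ∧ Fm.neg (χ.subS i j) ∈ Δ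

theorem exists_hk {φ : Fm} (h : ¬ Prv T [] φ) : ∃ Δ, Hk T Δ ∧ Fm.neg φ ∈ Δ := by
  classical
  have hne : Nonempty Fm := ⟨.eq .zero .zero⟩
  obtain ⟨e, he⟩ := exists_surjective_nat Fm
  have h0 : Con T [.neg φ] := fun ξ h1 h2 => h (.raa h1 h2)
  have hst : ∀ (n : ℕ) (G : {Γ : List Fm // Con T Γ}), ∃ D : {Γ : List Fm // Con T Γ},
      G.1 ⊆ D.1 ∧ (e n ∈ D.1 ∨ Fm.neg (e n) ∈ D.1) ∧
      (∀ i χ, e n = .neg (.all i χ) → e n ∈ D.1 → ∃ j, n ≤ j ∧ ¬ χ.Occ j ∧
        Fm.neg (χ.sub i (.var j)) ∈ D.1) ∧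
      (∀ i χ, e n = .neg (.allS i χ) → e n ∈ D.1 → ∃ j, n ≤ j ∧ ¬ χ.OccS j ∧
        Fm.neg (χ.subS i j) ∈ D.1) := by
    rintro n ⟨G, hG⟩
    obtain ⟨D, h1, h2, h3, h4, h5⟩ := henkin_step n hG (e n)
    exact ⟨⟨D, h2⟩, h1, h3, h4, h5⟩
  choose nx hnx1 hnx2 hnx3 hnx4 using hst
  let G : ℕ → {Γ : List Fm // Con T Γ} := fun n => Nat.rec ⟨_, h0⟩ (fun n G => nx n G) n
  have hG : ∀ n, G (n + 1) = nx n (G n) := fun n => rfl
  have hmono : ∀ n m, n ≤ m → (G n).1 ⊆ (G m).1 := by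
    intro n m hnm
    induction m, hnm using Nat.le_induction with
    | base => exact List.Subset.refl _
    | succ m _ ih => exact fun x hx => hnx1 m (G m) (ih hx)
  have hcon : ∀ Γ : List Fm, (∀ γ ∈ Γ, ∃ n, γ ∈ (G n).1) → ∃ n, Γ ⊆ (G n).1 := by
    intro Γ
    induction Γ with
    | nil => exact fun _ => ⟨0, by simp⟩
    | cons γ Γ ih =>
      intro hΓ
      obtain ⟨n, hn⟩ := ih fun γ' h' => hΓ γ' (List.mem_cons_of_mem _ h')
      obtain ⟨m, hm⟩ := hΓ γ (by simp)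
      refine ⟨max n m, fun x hx => ?_⟩
      rcases List.mem_cons.1 hx with rfl | hx
      · exact hmono m _ (le_max_right _ _) hm
      · exact hmono n _ (le_max_left _ _) (hn hx)
  have hcon' : ∀ Γ : List Fm, (∀ γ ∈ Γ, ∃ n, γ ∈ (G n).1) → Con T Γ := by
    intro Γ hΓ ξ h1 h2
    obtain ⟨n, hn⟩ := hcon Γ hΓ
    exact (G n).2 ξ (h1.weak hn) (h2.weak hn)
  have hstage : ∀ n, (∃ m, e n ∈ (G m).1) → e n ∈ (G (n + 1)).1 := by
    intro n hm
    rcases hnx2 n (G n) with h1 | h1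
    · exact h1
    · exfalso
      refine hcon' [e n, .neg (e n)] ?_ (e n) (.hyp (by simp)) (.hyp (by simp))
      intro γ hγ
      simp only [List.mem_cons, List.not_mem_nil, or_false] at hγ
      rcases hγ with rfl | rfl
      · exact hm
      · exact ⟨n + 1, h1⟩
  have hw : ∀ n i χ, e n = .neg (.all i χ) → (∃ m, e n ∈ (G m).1) → ∃ j, n ≤ j ∧ ¬ χ.Occ j ∧
      ∃ m, Fm.neg (χ.sub i (.var j)) ∈ (G m).1 := by
    intro n i χ e1 h1
    obtain ⟨j, h2, h3, h4⟩ := hnx3 n (G n) i χ e1 (hstage n h1)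
    exact ⟨j, h2, h3, n + 1, h4⟩
  have hwS : ∀ n i χ, e n = .neg (.allS i χ) → (∃ m, e n ∈ (G m).1) → ∃ j, n ≤ j ∧
      ¬ χ.OccS j ∧ ∃ m, Fm.neg (χ.subS i j) ∈ (G m).1 := by
    intro n i χ e1 h1
    obtain ⟨j, h2, h3, h4⟩ := hnx4 n (G n) i χ e1 (hstage n h1)
    exact ⟨j, h2, h3, n + 1, h4⟩
  refine ⟨{ψ | ∃ n, ψ ∈ (G n).1}, ⟨hcon', ?_, ?_, ?_, ?_, ?_⟩, 0, ?_⟩
  · intro ψ
    obtain ⟨n, rfl⟩ := he ψ
    rcases hnx2 n (G n) with h1 | h1
    · exact Or.inl ⟨n + 1, h1⟩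
    · exact Or.inr ⟨n + 1, h1⟩
  · intro i χ h1
    obtain ⟨n, hn⟩ := he (.neg (.all i χ))
    obtain ⟨j, _, h2, h3⟩ := hw n i χ hn (hn ▸ h1)
    exact ⟨j, h2, h3⟩
  · intro i χ h1
    obtain ⟨n, hn⟩ := he (.neg (.allS i χ))
    obtain ⟨j, _, h2, h3⟩ := hwS n i χ hn (hn ▸ h1)
    exact ⟨j, h2, h3⟩
  · intro N
    refine ⟨e '' Set.Iio N, (Set.finite_Iio N).image e, fun i χ h1 h2 => ?_⟩
    obtain ⟨n, hn⟩ := he (.neg (.all i χ))
    obtain ⟨j, h3, _, h4⟩ := hw n i χ hn (hn ▸ h1)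
    refine ⟨j, le_trans (not_lt.1 fun h5 => h2 ⟨n, h5, hn⟩) h3, h4⟩
  · intro N
    refine ⟨e '' Set.Iio N, (Set.finite_Iio N).image e, fun i χ h1 h2 => ?_⟩
    obtain ⟨n, hn⟩ := he (.neg (.allS i χ))
    obtain ⟨j, h3, _, h4⟩ := hwS n i χ hn (hn ▸ h1)
    refine ⟨j, le_trans (not_lt.1 fun h5 => h2 ⟨n, h5, hn⟩) h3, h4⟩
  · change Fm.neg φ ∈ [Fm.neg φ]
    simp

/-! ### The term model -/

namespace Hk

variable {Δ : Set Fm} (h : Hk T Δ)

include h

theorem of_prv {Γ : List Fm} {ψ : Fm} (hΓ : ∀ γ ∈ Γ, γ ∈ Δ) (h1 : Prv T Γ ψ) : ψ ∈ Δ := by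
  rcases h.full ψ with h2 | h2
  · exact h2
  · exfalso
    refine h.con (.neg ψ :: Γ) ?_ ψ h1.w (.hyp (by simp))
    intro γ hγ
    rcases List.mem_cons.1 hγ with rfl | hγ
    · exact h2
    · exact hΓ γ hγ

theorem neg_iff {ψ : Fm} : Fm.neg ψ ∈ Δ ↔ ψ ∉ Δ := by
  constructor
  · intro h1 h2
    refine h.con [ψ, .neg ψ] ?_ ψ (.hyp (by simp)) (.hyp (by simp))
    intro γ hγ
    simp only [List.mem_cons, List.not_mem_nil, or_false] at hγ
    rcases hγ with rfl | rfl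
    · exact h2
    · exact h1
  · exact fun h1 => (h.full ψ).resolve_left h1

theorem and_iff {ψ χ : Fm} : Fm.and ψ χ ∈ Δ ↔ ψ ∈ Δ ∧ χ ∈ Δ := by
  constructor
  · intro h1
    have h2 : Prv T [.and ψ χ] (.and ψ χ) := .hyp (by simp)
    exact ⟨h.of_prv (by simpa using h1) h2.andE1, h.of_prv (by simpa using h1) h2.andE2⟩
  · rintro ⟨h1, h2⟩
    refine h.of_prv (Γ := [ψ, χ]) ?_ (.andI (.hyp (by simp)) (.hyp (by simp)))
    intro γ hγ
    simp only [List.mem_cons, List.not_mem_nil, or_false] at hγ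
    rcases hγ with rfl | rfl
    · exact h1
    · exact h2

theorem allE {i : ℕ} {χ : Fm} {t : Tm} (h1 : Fm.all i χ ∈ Δ) (ht : χ.Ok i t) :
    χ.sub i t ∈ Δ :=
  h.of_prv (Γ := [.all i χ]) (by simpa using h1) (.allE t ht (.hyp (by simp)))

theorem allSE {i k : ℕ} {χ : Fm} (h1 : Fm.allS i χ ∈ Δ) (hk : χ.OkS i k) :
    χ.subS i k ∈ Δ :=
  h.of_prv (Γ := [.allS i χ]) (by simpa using h1) (.allSE k hk (.hyp (by simp)))

theorem all_iff {i : ℕ} {χ : Fm} : Fm.all i χ ∈ Δ ↔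
    ∀ j, ¬ χ.Occ j → χ.sub i (.var j) ∈ Δ := by
  refine ⟨fun h1 j hj => h.allE h1 (Fm.ok_fresh hj), fun h1 => ?_⟩
  by_contra h2
  obtain ⟨j, hj, h3⟩ := h.wit i χ (h.neg_iff.2 h2)
  exact h.neg_iff.1 h3 (h1 j hj)

theorem allS_iff {i : ℕ} {χ : Fm} : Fm.allS i χ ∈ Δ ↔
    ∀ j, ¬ χ.OccS j → χ.subS i j ∈ Δ := by
  refine ⟨fun h1 j hj => h.allSE h1 (Fm.okS_fresh hj), fun h1 => ?_⟩
  by_contra h2
  obtain ⟨j, hj, h3⟩ := h.witS i χ (h.neg_iff.2 h2)
  exact h.neg_iff.1 h3 (h1 j hj)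

theorem eqS {i : ℕ} {s t : Tm} {φ : Fm} (hs : φ.Ok i s) (ht : φ.Ok i t)
    (h1 : Fm.eq s t ∈ Δ) (h2 : φ.sub i s ∈ Δ) : φ.sub i t ∈ Δ := by
  refine h.of_prv (Γ := [.eq s t, φ.sub i s]) ?_
    (.eqS hs ht (.hyp (by simp)) (.hyp (by simp)))
  intro γ hγ
  simp only [List.mem_cons, List.not_mem_nil, or_false] at hγ
  rcases hγ with rfl | rfl
  · exact h1
  · exact h2

theorem eq_refl (t : Tm) : Fm.eq t t ∈ Δ := h.of_prv (Γ := []) (by simp) (.eqR t)

omit h in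
theorem sub_bd {s u : Tm} {k : ℕ} (hk : s.bd ≤ k) : s.sub k u = s :=
  Tm.sub_not_occ fun h => by have := s.lt_bd h; omega

theorem eq_symm {s t : Tm} (h1 : Fm.eq s t ∈ Δ) : Fm.eq t s ∈ Δ := by
  have h2 := h.eqS (i := s.bd) (φ := .eq (.var s.bd) s) trivial trivial h1
    (by simpa only [Fm.sub, Tm.sub, if_true, sub_bd le_rfl] using h.eq_refl s)
  simpa only [Fm.sub, Tm.sub, if_true, sub_bd le_rfl] using h2

theorem eq_trans {s t u : Tm} (h1 : Fm.eq s t ∈ Δ) (h2 : Fm.eq t u ∈ Δ) : Fm.eq s u ∈ Δ := by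
  have h3 := h.eqS (i := s.bd) (φ := .eq s (.var s.bd)) trivial trivial h2
    (by simpa only [Fm.sub, Tm.sub, if_true, sub_bd le_rfl] using h1)
  simpa only [Fm.sub, Tm.sub, if_true, sub_bd le_rfl] using h3

theorem add_cg {s s' t t' : Tm} (h1 : Fm.eq s s' ∈ Δ) (h2 : Fm.eq t t' ∈ Δ) :
    Fm.eq (.add s t) (.add s' t') ∈ Δ := by
  have k1 : s.bd ≤ max s.bd (max s'.bd t.bd) := by omega
  have k2 : s'.bd ≤ max s.bd (max s'.bd t.bd) := by omega
  have k3 : t.bd ≤ max s.bd (max s'.bd t.bd) := by omega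
  have h3 := h.eqS (i := max s.bd (max s'.bd t.bd))
    (φ := .eq (.add s t) (.add (.var (max s.bd (max s'.bd t.bd))) t)) trivial trivial h1
    (by simpa only [Fm.sub, Tm.sub, if_true, sub_bd k1, sub_bd k3] using h.eq_refl (.add s t))
  have h4 := h.eqS (i := max s.bd (max s'.bd t.bd))
    (φ := .eq (.add s' t) (.add s' (.var (max s.bd (max s'.bd t.bd))))) trivial trivial h2
    (by simpa only [Fm.sub, Tm.sub, if_true, sub_bd k2, sub_bd k3] using h.eq_refl (.add s' t))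
  refine h.eq_trans (t := .add s' t) ?_ ?_
  · simpa only [Fm.sub, Tm.sub, if_true, sub_bd k1, sub_bd k3] using h3
  · simpa only [Fm.sub, Tm.sub, if_true, sub_bd k2, sub_bd k3] using h4

theorem mul_cg {s s' t t' : Tm} (h1 : Fm.eq s s' ∈ Δ) (h2 : Fm.eq t t' ∈ Δ) :
    Fm.eq (.mul s t) (.mul s' t') ∈ Δ := by
  have k1 : s.bd ≤ max s.bd (max s'.bd t.bd) := by omega
  have k2 : s'.bd ≤ max s.bd (max s'.bd t.bd) := by omega
  have k3 : t.bd ≤ max s.bd (max s'.bd t.bd) := by omega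
  have h3 := h.eqS (i := max s.bd (max s'.bd t.bd))
    (φ := .eq (.mul s t) (.mul (.var (max s.bd (max s'.bd t.bd))) t)) trivial trivial h1
    (by simpa only [Fm.sub, Tm.sub, if_true, sub_bd k1, sub_bd k3] using h.eq_refl (.mul s t))
  have h4 := h.eqS (i := max s.bd (max s'.bd t.bd))
    (φ := .eq (.mul s' t) (.mul s' (.var (max s.bd (max s'.bd t.bd))))) trivial trivial h2
    (by simpa only [Fm.sub, Tm.sub, if_true, sub_bd k2, sub_bd k3] using h.eq_refl (.mul s' t))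
  refine h.eq_trans (t := .mul s' t) ?_ ?_
  · simpa only [Fm.sub, Tm.sub, if_true, sub_bd k1, sub_bd k3] using h3
  · simpa only [Fm.sub, Tm.sub, if_true, sub_bd k2, sub_bd k3] using h4

theorem lt_cg {s s' t t' : Tm} (h1 : Fm.eq s s' ∈ Δ) (h2 : Fm.eq t t' ∈ Δ)
    (h3 : Fm.lt s t ∈ Δ) : Fm.lt s' t' ∈ Δ := by
  have h4 := h.eqS (i := t.bd) (φ := .lt (.var t.bd) t) trivial trivial h1
    (by simpa only [Fm.sub, Tm.sub, if_true, sub_bd le_rfl] using h3)
  have h5 := h.eqS (i := s'.bd) (φ := .lt s' (.var s'.bd)) trivial trivial h2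
    (by simpa only [Fm.sub, Tm.sub, if_true, sub_bd le_rfl] using h4)
  simpa only [Fm.sub, Tm.sub, if_true, sub_bd le_rfl] using h5

theorem mem_cg {s s' : Tm} {k : ℕ} (h1 : Fm.eq s s' ∈ Δ) (h3 : Fm.mem s k ∈ Δ) :
    Fm.mem s' k ∈ Δ := by
  have h4 := h.eqS (i := 0) (φ := .mem (.var 0) k) trivial trivial h1
    (by simpa only [Fm.sub, Tm.sub, if_true] using h3)
  simpa only [Fm.sub, Tm.sub, if_true] using h4

/-- Equality of terms. -/
def st : Setoid Tm := ⟨fun s t => Fm.eq s t ∈ Δ, h.eq_refl, h.eq_symm, h.eq_trans⟩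

/-- The extension of a set variable. -/
def ext (k : ℕ) : Set (Quotient h.st) := {a | Quotient.lift (fun t => Fm.mem t k ∈ Δ)
  (fun _ _ e => propext ⟨h.mem_cg e, h.mem_cg (h.eq_symm e)⟩) a}

/-- The term model. -/
def str : Str where
  M := Quotient h.st
  zero := Quotient.mk h.st .zero
  one := Quotient.mk h.st .one
  add := Quotient.map₂ Tm.add fun _ _ e _ _ e' => h.add_cg e e'
  mul := Quotient.map₂ Tm.mul fun _ _ e _ _ e' => h.mul_cg e e'
  lt := Quotient.lift₂ (fun s t => Fm.lt s t ∈ Δ) fun _ _ _ _ e e' =>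
    propext ⟨h.lt_cg e e', h.lt_cg (h.eq_symm e) (h.eq_symm e')⟩
  S := Set.range h.ext
  nonempty := ⟨h.ext 0, 0, rfl⟩

/-- The canonical assignment. -/
def va (i : ℕ) : h.str.M := Quotient.mk h.st (.var i)

/-- The canonical assignment of the set variables. -/
def ws (k : ℕ) : Set h.str.M := h.ext k

theorem val_va : ∀ t : Tm, h.str.val h.va t = Quotient.mk h.st t
  | .var i => rfl
  | .zero => rfl
  | .one => rfl
  | .add s t => by
    simp only [Str.val, val_va s, val_va t]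
    rfl
  | .mul s t => by
    simp only [Str.val, val_va s, val_va t]
    rfl

/-- Every element has names with large indices. -/
theorem exists_name (t : Tm) (N : ℕ) : ∃ j, N ≤ j ∧ Quotient.mk h.st t = h.va j := by
  obtain ⟨F, hF, h1⟩ := h.many N
  let g : ℕ → Fm := fun i => .neg (.all (i + t.bd) (.neg (.eq (.var (i + t.bd)) t)))
  have hg : Function.Injective g := by
    intro i i' e
    simp only [g, Fm.neg.injEq, Fm.all.injEq] at e
    omega
  have h2 : ∀ i, g i ∈ Δ := by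
    intro i
    refine h.of_prv (Γ := []) (by simp) ?_
    refine .negI (ψ := .eq t t) (.eqR t) ?_
    have h3 : Prv T [.all (i + t.bd) (.neg (.eq (.var (i + t.bd)) t))]
        ((Fm.neg (.eq (.var (i + t.bd)) t)).sub (i + t.bd) t) := .allE t trivial (.hyp (by simp))
    have k : t.bd ≤ i + t.bd := by omega
    simpa only [Fm.sub, Tm.sub, if_true, sub_bd k] using h3
  obtain ⟨i, hi⟩ : ∃ i, g i ∉ F := by
    by_contra hc
    push Not at hc
    exact Set.infinite_range_of_injective hg (hF.subset (by rintro _ ⟨i, rfl⟩; exact hc i))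
  obtain ⟨j, h3, h4⟩ := h1 _ _ (h2 i) hi
  refine ⟨j, h3, Quotient.sound ?_⟩
  have k : t.bd ≤ i + t.bd := by omega
  simp only [Fm.sub, Tm.sub, if_true, sub_bd k] at h4
  have h5 : Fm.eq (.var j) t ∈ Δ := by
    by_contra h6
    exact h.neg_iff.1 h4 (h.neg_iff.2 h6)
  exact h.eq_symm h5

/-- Every set has names with large indices. -/
theorem exists_nameS (k N : ℕ) : ∃ j, N ≤ j ∧ h.ws k = h.ws j := by
  obtain ⟨F, hF, h1⟩ := h.manyS N
  let e : ℕ → Fm := fun i => .all 0 (.and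
    (.neg (.and (.mem (.var 0) i) (.neg (.mem (.var 0) k))))
    (.neg (.and (.mem (.var 0) k) (.neg (.mem (.var 0) i)))))
  let g : ℕ → Fm := fun i => .neg (.allS (i + (k + 1)) (.neg (e (i + (k + 1)))))
  have hg : Function.Injective g := by
    intro i i' e
    simp only [g, Fm.neg.injEq, Fm.allS.injEq] at e
    omega
  have he : ∀ i j, k < i → (e i).subS i j = .all 0 (.and
    (.neg (.and (.mem (.var 0) j) (.neg (.mem (.var 0) k))))
    (.neg (.and (.mem (.var 0) k) (.neg (.mem (.var 0) j))))) := by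
    intro i j hi
    have h3 : ¬ k = i := by omega
    simp only [e, Fm.subS, if_true, if_neg h3]
  have h2 : ∀ i, g i ∈ Δ := by
    intro i
    refine h.of_prv (Γ := []) (by simp) ?_
    refine .negI (ψ := (e (i + (k + 1))).subS (i + (k + 1)) k) ?_ ?_
    · rw [he _ _ (by omega)]
      refine .allI 0 ?_ (.andI ?_ ?_)
      · intro γ hγ
        simp only [List.mem_singleton] at hγ
        subst hγ
        exact fun h' => h'.1 rfl
      · exact .negI (ψ := .mem (.var 0) k)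
          (.andE1 (ψ := .neg (.mem (.var 0) k)) (.hyp (by simp)))
          (.andE2 (φ := .mem (.var 0) k) (.hyp (by simp)))
      · exact .negI (ψ := .mem (.var 0) k)
          (.andE1 (ψ := .neg (.mem (.var 0) k)) (.hyp (by simp)))
          (.andE2 (φ := .mem (.var 0) k) (.hyp (by simp)))
    · have h3 : Prv T [.allS (i + (k + 1)) (.neg (e (i + (k + 1))))]
          ((Fm.neg (e (i + (k + 1)))).subS (i + (k + 1)) k) :=
        .allSE k (by simp only [e, Fm.OkS, and_self]) (.hyp (by simp))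
      exact h3
  obtain ⟨i, hi⟩ : ∃ i, g i ∉ F := by
    by_contra hc
    push Not at hc
    exact Set.infinite_range_of_injective hg (hF.subset (by rintro _ ⟨i, rfl⟩; exact hc i))
  obtain ⟨j, h3, h4⟩ := h1 _ _ (h2 i) hi
  have h5 : (e (i + (k + 1))).subS (i + (k + 1)) j ∈ Δ := by
    by_contra h6
    exact h.neg_iff.1 h4 (h.neg_iff.2 h6)
  rw [he _ _ (by omega)] at h5
  refine ⟨j, h3, ?_⟩
  ext a
  obtain ⟨t, rfl⟩ := Quotient.exists_rep a
  change Fm.mem t k ∈ Δ ↔ Fm.mem t j ∈ Δ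
  have h6 := h.allE (t := t) h5 (by simp only [Fm.Ok, and_self])
  simp only [Fm.sub, Tm.sub, if_true, h.and_iff, h.neg_iff, not_and, not_not] at h6
  exact ⟨h6.2, h6.1⟩

/-- Truth lemma. -/
theorem truth : ∀ (n : ℕ) (φ : Fm), φ.sz ≤ n → (h.str.Sat φ h.va h.ws ↔ φ ∈ Δ) := by
  intro n
  induction n with
  | zero =>
    intro φ hφ
    cases φ with
    | eq s t =>
      simp only [Str.Sat, val_va]
      exact Quotient.eq (r := h.st)
    | lt s t =>
      simp only [Str.Sat, val_va]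
      exact Iff.rfl
    | mem t i =>
      simp only [Str.Sat, val_va]
      exact Iff.rfl
    | neg φ => simp [Fm.sz] at hφ
    | and φ ψ => simp [Fm.sz] at hφ
    | all i φ => simp [Fm.sz] at hφ
    | allS i φ => simp [Fm.sz] at hφ
  | succ n ih =>
    intro φ hφ
    cases φ with
    | eq s t => exact ih _ (by simp [Fm.sz])
    | lt s t => exact ih _ (by simp [Fm.sz])
    | mem t i => exact ih _ (by simp [Fm.sz])
    | neg φ =>
      simp only [Fm.sz] at hφ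
      rw [h.neg_iff, ← ih φ (by omega)]
      exact Iff.rfl
    | and φ ψ =>
      simp only [Fm.sz] at hφ
      rw [h.and_iff, ← ih φ (by omega), ← ih ψ (by omega)]
      exact Iff.rfl
    | all i φ =>
      simp only [Fm.sz] at hφ
      have h1 : ∀ j, ¬ φ.Occ j → (h.str.Sat φ (Function.update h.va i (h.va j)) h.ws ↔
          φ.sub i (.var j) ∈ Δ) := by
        intro j hj
        rw [← ih _ (by rw [Fm.sz_sub]; omega), h.str.sat_sub _ _ _ _ _ (Fm.ok_fresh hj)]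
        exact Iff.rfl
      rw [h.all_iff]
      constructor
      · exact fun h2 j hj => (h1 j hj).1 (h2 _)
      · intro h2 a
        obtain ⟨t, rfl⟩ := Quotient.exists_rep a
        obtain ⟨j, h3, h4⟩ := h.exists_name t φ.bd
        have hj : ¬ φ.Occ j := fun h5 => by have := φ.lt_bd h5; omega
        rw [h4]
        exact (h1 j hj).2 (h2 j hj)
    | allS i φ =>
      simp only [Fm.sz] at hφ
      have h1 : ∀ j, ¬ φ.OccS j → (h.str.Sat φ h.va (Function.update h.ws i (h.ws j)) ↔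
          φ.subS i j ∈ Δ) := by
        intro j hj
        rw [← ih _ (by rw [Fm.sz_subS]; omega), h.str.sat_subS _ _ _ _ _ (Fm.okS_fresh hj)]
      rw [h.allS_iff]
      constructor
      · exact fun h2 j hj => (h1 j hj).1 (h2 _ ⟨j, rfl⟩)
      · rintro h2 _ ⟨k, rfl⟩
        obtain ⟨j, h3, h4⟩ := h.exists_nameS k φ.bdS
        have hj : ¬ φ.OccS j := fun h5 => by have := φ.lt_bdS h5; omega
        change h.str.Sat φ h.va (Function.update h.ws i (h.ws k))
        rw [h4]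
        exact (h1 j hj).2 (h2 j hj)

theorem truth' (φ : Fm) : h.str.Sat φ h.va h.ws ↔ φ ∈ Δ := h.truth _ φ le_rfl

/-- Provable formulas are true for assignments that differ from the canonical one at finitely many
places. -/
theorem sat_fin (a : ℕ → h.str.M) (b : ℕ → Set h.str.M) (hb : ∀ i, b i ∈ h.str.S) (m : ℕ) :
    ∀ (n : ℕ) (φ : Fm), Prv T [] φ → h.str.Sat φ (fun i => if i < n then a i else h.va i)
      (fun i => if i < m then b i else h.ws i) := by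
  induction m with
  | zero =>
    intro n
    induction n with
    | zero =>
      intro φ hφ
      have h1 := (h.truth' φ).2 (h.of_prv (by simp) hφ)
      simpa using h1
    | succ n ih =>
      intro φ hφ
      have h1 := ih (.all n φ) (.allI n (by simp) hφ) (a n)
      refine (h.str.sat_congr φ (fun i _ => ?_) fun _ _ => rfl).1 h1
      by_cases e : i = n
      · subst e
        rw [Function.update_self, if_pos (Nat.lt_succ_self i)]
      · rw [Function.update_of_ne e]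
        by_cases e' : i < n
        · rw [if_pos e', if_pos (by omega)]
        · rw [if_neg e', if_neg (by omega)]
  | succ m ih =>
    intro n φ hφ
    have h1 := ih n (.allS m φ) (.allSI m (by simp) hφ) (b m) (hb m)
    refine (h.str.sat_congr φ (fun _ _ => rfl) fun i _ => ?_).1 h1
    by_cases e : i = m
    · subst e
      rw [Function.update_self, if_pos (Nat.lt_succ_self i)]
    · rw [Function.update_of_ne e]
      by_cases e' : i < m
      · rw [if_pos e', if_pos (by omega)]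
      · rw [if_neg e', if_neg (by omega)]

theorem valid_of_prv {φ : Fm} (hφ : Prv T [] φ) : h.str.Valid φ := by
  intro v w hw
  refine (h.str.sat_congr φ (fun i hi => ?_) fun i hi => ?_).1
    (h.sat_fin v w hw φ.bdS φ.bd φ hφ)
  · rw [if_pos (φ.lt_bd hi)]
  · rw [if_pos (φ.lt_bdS hi)]

end Hk

/-- Completeness: `T` proves `φ` if and only if `φ` is true in all models of `T`. -/
theorem proves_iff_entails {φ : Fm} : Proves T φ ↔ Entails T φ := by
  refine ⟨Proves.entails, fun h => ?_⟩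
  by_contra hn
  obtain ⟨Δ, hk, h1⟩ := exists_hk hn
  have h2 := h hk.str (fun ψ hψ => hk.valid_of_prv (.ax hψ)) hk.va hk.ws fun i => ⟨i, rfl⟩
  rw [hk.truth'] at h2
  exact hk.neg_iff.1 h1 h2

end Pool.Agent.PD2
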