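import Pool.Agent.Work.MP_a6ae3a_lc.Calc
import Pool.Agent.Work.MP_a6ae3a_lc.LS

/-!
# Syntactic lemmas on substitution of fresh variables
-/

namespace Pool.Agent.PD2

/-! ### Number variables -/

theorem Tm.sub_back {i j : ℕ} : ∀ {t : Tm}, ¬ t.Occ j → (t.sub i (.var j)).sub j (.var i) = t
  | .var k, h => by
    have h' : ¬ k = j := h
    simp only [Tm.sub]
    by_cases e : k = i
    · rw [if_pos e]
      simp only [Tm.sub, if_true]
      rw [e]
    · rw [if_neg e]
      simp only [Tm.sub]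
      rw [if_neg h']
  | .zero, _ => rfl
  | .one, _ => rfl
  | .add s t, h => by
    simp only [Tm.sub]
    rw [Tm.sub_back (t := s) fun h' => h (Or.inl h'), Tm.sub_back (t := t) fun h' => h (Or.inr h')]
  | .mul s t, h => by
    simp only [Tm.sub]
    rw [Tm.sub_back (t := s) fun h' => h (Or.inl h'), Tm.sub_back (t := t) fun h' => h (Or.inr h')]

theorem Tm.not_occ_sub {i j : ℕ} (h : i ≠ j) : ∀ {t : Tm}, ¬ (t.sub i (.var j)).Occ i
  | .var k => by
    simp only [Tm.sub]
    by_cases e : k = i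
    · rw [if_pos e]
      exact fun h' => h (Eq.symm h')
    · rw [if_neg e]
      exact e
  | .zero => id
  | .one => id
  | .add s t => fun h' => h'.elim (Tm.not_occ_sub h (t := s)) (Tm.not_occ_sub h (t := t))
  | .mul s t => fun h' => h'.elim (Tm.not_occ_sub h (t := s)) (Tm.not_occ_sub h (t := t))

/-- A variable that does not occur is free for every variable. -/
theorem Fm.ok_fresh {i j : ℕ} : ∀ {φ : Fm}, ¬ φ.Occ j → φ.Ok i (.var j)
  | .eq _ _, _ => trivial
  | .lt _ _, _ => trivial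
  | .mem _ _, _ => trivial
  | .neg φ, h => Fm.ok_fresh (φ := φ) h
  | .and φ ψ, h => ⟨Fm.ok_fresh (φ := φ) fun h' => h (Or.inl h'),
      Fm.ok_fresh (φ := ψ) fun h' => h (Or.inr h')⟩
  | .all _ φ, h => Or.inr (Or.inr ⟨fun h' => h (Or.inl (Eq.symm h')),
      Fm.ok_fresh (φ := φ) fun h' => h (Or.inr h')⟩)
  | .allS _ φ, h => Fm.ok_fresh (φ := φ) h

theorem Fm.ok_back {i j : ℕ} : ∀ {φ : Fm}, ¬ φ.Occ j → (φ.sub i (.var j)).Ok j (.var i)
  | .eq _ _, _ => trivial
  | .lt _ _, _ => trivial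
  | .mem _ _, _ => trivial
  | .neg φ, h => Fm.ok_back (φ := φ) h
  | .and φ ψ, h => ⟨Fm.ok_back (φ := φ) fun h' => h (Or.inl h'),
      Fm.ok_back (φ := ψ) fun h' => h (Or.inr h')⟩
  | .all k φ, h => by
    simp only [Fm.sub]
    by_cases e : k = i
    · rw [if_pos e]
      exact Or.inr (Or.inl fun h' => h (Or.inr h'.occ))
    · rw [if_neg e]
      exact Or.inr (Or.inr ⟨fun h' => e (Eq.symm h'),
        Fm.ok_back (φ := φ) fun h' => h (Or.inr h')⟩)
  | .allS _ φ, h => Fm.ok_back (φ := φ) h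

theorem Fm.sub_back {i j : ℕ} : ∀ {φ : Fm}, ¬ φ.Occ j → (φ.sub i (.var j)).sub j (.var i) = φ
  | .eq s t, h => by
    simp only [Fm.sub]
    rw [Tm.sub_back (t := s) fun h' => h (Or.inl h'), Tm.sub_back (t := t) fun h' => h (Or.inr h')]
  | .lt s t, h => by
    simp only [Fm.sub]
    rw [Tm.sub_back (t := s) fun h' => h (Or.inl h'), Tm.sub_back (t := t) fun h' => h (Or.inr h')]
  | .mem t _, h => by
    simp only [Fm.sub]
    rw [Tm.sub_back (t := t) h]
  | .neg φ, h => by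
    simp only [Fm.sub]
    rw [Fm.sub_back (φ := φ) h]
  | .and φ ψ, h => by
    simp only [Fm.sub]
    rw [Fm.sub_back (φ := φ) fun h' => h (Or.inl h'), Fm.sub_back (φ := ψ) fun h' => h (Or.inr h')]
  | .all k φ, h => by
    have hk : ¬ k = j := fun h' => h (Or.inl h')
    have hφ : ¬ φ.Occ j := fun h' => h (Or.inr h')
    simp only [Fm.sub]
    by_cases e : k = i
    · rw [if_pos e]
      simp only [Fm.sub]
      rw [if_neg hk, Fm.sub_not_free fun h' => hφ h'.occ]
    · rw [if_neg e]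
      simp only [Fm.sub]
      rw [if_neg hk, Fm.sub_back (φ := φ) hφ]
  | .allS _ φ, h => by
    simp only [Fm.sub]
    rw [Fm.sub_back (φ := φ) h]

theorem Fm.not_free_sub {i j : ℕ} (h : i ≠ j) : ∀ {φ : Fm}, ¬ (φ.sub i (.var j)).Free i
  | .eq s t => fun h' => h'.elim (Tm.not_occ_sub h (t := s)) (Tm.not_occ_sub h (t := t))
  | .lt s t => fun h' => h'.elim (Tm.not_occ_sub h (t := s)) (Tm.not_occ_sub h (t := t))
  | .mem t _ => Tm.not_occ_sub h (t := t)
  | .neg φ => Fm.not_free_sub h (φ := φ)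
  | .and φ ψ => fun h' => h'.elim (Fm.not_free_sub h (φ := φ)) (Fm.not_free_sub h (φ := ψ))
  | .all k φ => by
    simp only [Fm.sub]
    by_cases e : k = i
    · rw [if_pos e]
      exact fun h' => h'.1 e
    · rw [if_neg e]
      exact fun h' => Fm.not_free_sub h (φ := φ) h'.2
  | .allS _ φ => Fm.not_free_sub h (φ := φ)

/-! ### Set variables -/

/-- A set variable that does not occur is free for every set variable. -/
theorem Fm.okS_fresh {i k : ℕ} : ∀ {φ : Fm}, ¬ φ.OccS k → φ.OkS i k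
  | .eq _ _, _ => trivial
  | .lt _ _, _ => trivial
  | .mem _ _, _ => trivial
  | .neg φ, h => Fm.okS_fresh (φ := φ) h
  | .and φ ψ, h => ⟨Fm.okS_fresh (φ := φ) fun h' => h (Or.inl h'),
      Fm.okS_fresh (φ := ψ) fun h' => h (Or.inr h')⟩
  | .all _ φ, h => Fm.okS_fresh (φ := φ) h
  | .allS _ φ, h => Or.inr (Or.inr ⟨fun h' => h (Or.inl h'),
      Fm.okS_fresh (φ := φ) fun h' => h (Or.inr h')⟩)

theorem Fm.okS_back {i k : ℕ} : ∀ {φ : Fm}, ¬ φ.OccS k → (φ.subS i k).OkS k i
  | .eq _ _, _ => trivial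
  | .lt _ _, _ => trivial
  | .mem _ _, _ => trivial
  | .neg φ, h => Fm.okS_back (φ := φ) h
  | .and φ ψ, h => ⟨Fm.okS_back (φ := φ) fun h' => h (Or.inl h'),
      Fm.okS_back (φ := ψ) fun h' => h (Or.inr h')⟩
  | .all _ φ, h => Fm.okS_back (φ := φ) h
  | .allS j φ, h => by
    simp only [Fm.subS]
    by_cases e : j = i
    · rw [if_pos e]
      exact Or.inr (Or.inl fun h' => h (Or.inr h'.occ))
    · rw [if_neg e]
      exact Or.inr (Or.inr ⟨e, Fm.okS_back (φ := φ) fun h' => h (Or.inr h')⟩)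

theorem Fm.subS_back {i k : ℕ} : ∀ {φ : Fm}, ¬ φ.OccS k → (φ.subS i k).subS k i = φ
  | .eq _ _, _ => rfl
  | .lt _ _, _ => rfl
  | .mem t j, h => by
    have h' : ¬ j = k := h
    simp only [Fm.subS]
    by_cases e : j = i
    · rw [if_pos e, if_pos rfl, e]
    · rw [if_neg e, if_neg h']
  | .neg φ, h => by
    simp only [Fm.subS]
    rw [Fm.subS_back (φ := φ) h]
  | .and φ ψ, h => by
    simp only [Fm.subS]
    rw [Fm.subS_back (φ := φ) fun h' => h (Or.inl h'),
      Fm.subS_back (φ := ψ) fun h' => h (Or.inr h')]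
  | .all _ φ, h => by
    simp only [Fm.subS]
    rw [Fm.subS_back (φ := φ) h]
  | .allS j φ, h => by
    have hj : ¬ j = k := fun h' => h (Or.inl h')
    have hφ : ¬ φ.OccS k := fun h' => h (Or.inr h')
    simp only [Fm.subS]
    by_cases e : j = i
    · rw [if_pos e]
      simp only [Fm.subS]
      rw [if_neg hj, Fm.subS_not_free fun h' => hφ h'.occ]
    · rw [if_neg e]
      simp only [Fm.subS]
      rw [if_neg hj, Fm.subS_back (φ := φ) hφ]

theorem Fm.not_freeS_subS {i k : ℕ} (h : i ≠ k) : ∀ {φ : Fm}, ¬ (φ.subS i k).FreeS i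
  | .eq _ _ => id
  | .lt _ _ => id
  | .mem t j => by
    simp only [Fm.subS]
    by_cases e : j = i
    · rw [if_pos e]
      exact fun h' => h (Eq.symm h')
    · rw [if_neg e]
      exact e
  | .neg φ => Fm.not_freeS_subS h (φ := φ)
  | .and φ ψ => fun h' => h'.elim (Fm.not_freeS_subS h (φ := φ)) (Fm.not_freeS_subS h (φ := ψ))
  | .all _ φ => Fm.not_freeS_subS h (φ := φ)
  | .allS j φ => by
    simp only [Fm.subS]
    by_cases e : j = i
    · rw [if_pos e]
      exact fun h' => h'.1 e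
    · rw [if_neg e]
      exact fun h' => Fm.not_freeS_subS h (φ := φ) h'.2

/-! ### Size -/

/-- The number of connectives and quantifiers. -/
def Fm.sz : Fm → ℕ
  | .eq _ _ => 0
  | .lt _ _ => 0
  | .mem _ _ => 0
  | .neg φ => φ.sz + 1
  | .and φ ψ => φ.sz + ψ.sz + 1
  | .all _ φ => φ.sz + 1
  | .allS _ φ => φ.sz + 1

theorem Fm.sz_sub {i : ℕ} {t : Tm} : ∀ {φ : Fm}, (φ.sub i t).sz = φ.sz
  | .eq _ _ => rfl
  | .lt _ _ => rfl
  | .mem _ _ => rfl
  | .neg φ => congrArg (· + 1) (Fm.sz_sub (φ := φ))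
  | .and φ ψ => by
    simp only [Fm.sub, Fm.sz]
    rw [Fm.sz_sub (φ := φ), Fm.sz_sub (φ := ψ)]
  | .all j φ => by
    simp only [Fm.sub]
    split_ifs with e
    · rfl
    · simp only [Fm.sz]
      rw [Fm.sz_sub (φ := φ)]
  | .allS _ φ => congrArg (· + 1) (Fm.sz_sub (φ := φ))

theorem Fm.sz_subS {i k : ℕ} : ∀ {φ : Fm}, (φ.subS i k).sz = φ.sz
  | .eq _ _ => rfl
  | .lt _ _ => rfl
  | .mem _ _ => rfl
  | .neg φ => congrArg (· + 1) (Fm.sz_subS (φ := φ))
  | .and φ ψ => by
    simp only [Fm.subS, Fm.sz]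
    rw [Fm.sz_subS (φ := φ), Fm.sz_subS (φ := ψ)]
  | .all _ φ => congrArg (· + 1) (Fm.sz_subS (φ := φ))
  | .allS j φ => by
    simp only [Fm.subS]
    split_ifs with e
    · rfl
    · simp only [Fm.sz]
      rw [Fm.sz_subS (φ := φ)]

/-! ### Fresh variables exist, countability -/

/-- A bound for all number variables of a term. -/
theorem Tm.exists_bd (t : Tm) : ∃ N, ∀ j, N ≤ j → ¬ t.Occ j := by
  induction t with
  | var i => exact ⟨i + 1, fun j hj h => by
      have h' : i = j := h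
      omega⟩
  | zero => exact ⟨0, fun _ _ h => h⟩
  | one => exact ⟨0, fun _ _ h => h⟩
  | add s t ih ih' =>
    obtain ⟨N, hN⟩ := ih
    obtain ⟨N', hN'⟩ := ih'
    exact ⟨max N N', fun j hj h => h.elim (hN j (le_trans (le_max_left _ _) hj))
      (hN' j (le_trans (le_max_right _ _) hj))⟩
  | mul s t ih ih' =>
    obtain ⟨N, hN⟩ := ih
    obtain ⟨N', hN'⟩ := ih'
    exact ⟨max N N', fun j hj h => h.elim (hN j (le_trans (le_max_left _ _) hj))
      (hN' j (le_trans (le_max_right _ _) hj))⟩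

/-- Beyond some bound no number variable and no set variable occurs in the formula. -/
theorem Fm.exists_bd (φ : Fm) : ∃ N, ∀ j, N ≤ j → ¬ φ.Occ j ∧ ¬ φ.OccS j := by
  induction φ with
  | eq s t =>
    obtain ⟨N, hN⟩ := s.exists_bd
    obtain ⟨N', hN'⟩ := t.exists_bd
    exact ⟨max N N', fun j hj => ⟨fun h => h.elim (hN j (le_trans (le_max_left _ _) hj))
      (hN' j (le_trans (le_max_right _ _) hj)), id⟩⟩
  | lt s t =>
    obtain ⟨N, hN⟩ := s.exists_bd
    obtain ⟨N', hN'⟩ := t.exists_bd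
    exact ⟨max N N', fun j hj => ⟨fun h => h.elim (hN j (le_trans (le_max_left _ _) hj))
      (hN' j (le_trans (le_max_right _ _) hj)), id⟩⟩
  | mem t i =>
    obtain ⟨N, hN⟩ := t.exists_bd
    refine ⟨max N (i + 1), fun j hj => ⟨hN j (le_trans (le_max_left _ _) hj), fun h => ?_⟩⟩
    have h' : i = j := h
    have := le_trans (le_max_right N (i + 1)) hj
    omega
  | neg φ ih => exact ih
  | and φ ψ ih ih' =>
    obtain ⟨N, hN⟩ := ih
    obtain ⟨N', hN'⟩ := ih'
    exact ⟨max N N', fun j hj => ⟨fun h => h.elim (hN j (le_trans (le_max_left _ _) hj)).1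
        (hN' j (le_trans (le_max_right _ _) hj)).1,
      fun h => h.elim (hN j (le_trans (le_max_left _ _) hj)).2
        (hN' j (le_trans (le_max_right _ _) hj)).2⟩⟩
  | all i φ ih =>
    obtain ⟨N, hN⟩ := ih
    refine ⟨max N (i + 1), fun j hj => ⟨fun h => h.elim (fun h' => ?_)
      (hN j (le_trans (le_max_left _ _) hj)).1, (hN j (le_trans (le_max_left _ _) hj)).2⟩⟩
    have := le_trans (le_max_right N (i + 1)) hj
    omega
  | allS i φ ih =>
    obtain ⟨N, hN⟩ := ih
    refine ⟨max N (i + 1), fun j hj => ⟨(hN j (le_trans (le_max_left _ _) hj)).1,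
      fun h => h.elim (fun h' => ?_) (hN j (le_trans (le_max_left _ _) hj)).2⟩⟩
    have := le_trans (le_max_right N (i + 1)) hj
    omega

instance Fm.instCountable : Countable Fm := LSk.instCountableFm

/-- An enumeration of all formulas. -/
theorem Fm.exists_enum : ∃ e : ℕ → Fm, Function.Surjective e :=
  haveI : Nonempty Fm := ⟨.eq .zero .zero⟩
  exists_surjective_nat Fm

end Pool.Agent.PD2
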