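import Pool.Agent.Work.MP_a6ae3a_lc.API

/-!
# The sequence of states

Abstract form: a `Δ₂` successor relation on a `Δ₂` class of states, the codes of the states of
level `≤ m` being bounded, gives a `Δ₂` chain of states whose levels are cofinal.
-/

namespace Pool.Agent.PD2.NI
variable {M : Type} [PAM M] [IM M] {Y : M → Prop} [C1 Y] [Reg Y]

theorem cmpD {R : M → Prop} (h : D1 Y (fun v => R (v 0))) (n : M) :
    ∃ c, c < tw n ∧ ∀ x, x < n → (Bt c x ↔ R x) := by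
  obtain ⟨c, hc⟩ := ex_code Y h n
  exact ⟨c, lt_tw_iff.2 fun x hx => ((hc x).1 hx).1, fun x hx => by rw [hc]; exact and_iff_right hx⟩

theorem lstD {R : M → Prop} (h : D1 Y (fun v => R (v 0))) (a : M) (ha : R a) :
    ∃ a, R a ∧ ∀ b, b < a → ¬ R b := least_r Y h ⟨a, ha⟩

theorem indD {R : M → Prop} (h : D1 Y (fun v => R (v 0))) (h0 : R 0)
    (hs : ∀ m, R m → R (m + 1)) (m : M) : R m := by
  by_contra hm
  have k : D1 Y (fun v : ℕ → M => ¬ R (v 0)) := inferInstance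
  obtain ⟨a, ha, hmin⟩ := lstD (R := fun x => ¬ R x) k m hm
  by_cases h1 : a = 0
  · subst h1; exact ha h0
  · obtain ⟨y, rfl⟩ := (eq_zero_or_succ a).resolve_left h1
    exact ha (hs y (not_not.1 (hmin y (lt_add_one y))))

namespace Chain

variable {Vl : M → Prop} {Suc : M → M → Prop} {lv g : M → M} {s0 : M}

/-- The least successor. -/
def LS (Suc : M → M → Prop) (s s' : M) : Prop := Suc s s' ∧ ∀ t, t < s' → ¬ Suc s t

theorem LS.unique {s t t' : M} (h : LS Suc s t) (h' : LS Suc s t') : t = t' := by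
  rcases lt_trichotomy t t' with h1 | h1 | h1
  · exact absurd h.1 (h'.2 t h1)
  · exact h1
  · exact absurd h'.1 (h.2 t' h1)

/-- `c` is the set of the states of the chain of level at most `m`. -/
def Ap (Vl : M → Prop) (Suc : M → M → Prop) (lv g : M → M) (s0 : M) (m c : M) : Prop :=
  (∀ t, t < g m → Bt c t → Vl t ∧ lv t ≤ m) ∧ Bt c s0 ∧
  (∀ t, t < g m → Bt c t → t = s0 ∨ ∃ t', t' < g m ∧ Bt c t' ∧ LS Suc t' t) ∧
  (∀ t, t < g m → Bt c t → ∀ t', t' < g m → LS Suc t t' → lv t' ≤ m → Bt c t')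

/-- The data of a chain. -/
structure Dat (Y : M → Prop) (Vl : M → Prop) (Suc : M → M → Prop) (lv g : M → M) (s0 : M) :
    Prop where
  d2V : ∀ {a : (ℕ → M) → M}, F1 Y a → D1 Y (fun v => Vl (a v))
  d2S : ∀ {a b : (ℕ → M) → M}, F1 Y a → F1 Y b → D1 Y (fun v => Suc (a v) (b v))
  f1l : ∀ {a : (ℕ → M) → M}, F1 Y a → F1 Y (fun v => lv (a v))
  f1g : ∀ {a : (ℕ → M) → M}, F1 Y a → F1 Y (fun v => g (a v))
  h0 : Vl s0
  hl0 : lv s0 = 0
  hs : ∀ s s', Suc s s' → Vl s' ∧ lv s < lv s'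
  hex : ∀ s, Vl s → ∃ s', Suc s s'
  hb : ∀ s m, Vl s → lv s ≤ m → s < g m

variable (D : Dat Y Vl Suc lv g s0)
include D

theorem d2_LS {a b : (ℕ → M) → M} (ha : F1 Y a) (hb : F1 Y b) :
    D1 Y (fun v => LS Suc (a v) (b v)) := by
  have k1 : D1 Y (fun v => Suc (v 0) (v 1)) := D.d2S inferInstance inferInstance
  have k2 : D1 Y (fun v : ℕ → M => Suc (v 1) (v 0)) := D.d2S inferInstance inferInstance
  have k0 : D1 Y (fun v => Suc (v 0) (v 1) ∧ ∀ t, t < v 1 → ¬ Suc (v 0) t) := inferInstance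
  exact D1.s2 (P := LS Suc) k0 ha hb

theorem d2_Ap {a b : (ℕ → M) → M} (ha : F1 Y a) (hb : F1 Y b) :
    D1 Y (fun v => Ap Vl Suc lv g s0 (a v) (b v)) := by
  have i1 : ∀ {a : (ℕ → M) → M} [F1 Y a], F1 Y (fun v => g (a v)) := D.f1g inferInstance
  have i2 : ∀ {a : (ℕ → M) → M} [F1 Y a], F1 Y (fun v => lv (a v)) := D.f1l inferInstance
  have i3 : ∀ {a : (ℕ → M) → M} [F1 Y a], D1 Y (fun v => Vl (a v)) := D.d2V inferInstance
  have i4 : ∀ {a b : (ℕ → M) → M} [F1 Y a] [F1 Y b], D1 Y (fun v => LS Suc (a v) (b v)) :=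
    d2_LS D inferInstance inferInstance
  have k0 : D1 Y (fun v => Ap Vl Suc lv g s0 (v 0) (v 1)) := by
    unfold Ap
    infer_instance
  exact D1.s2 (P := Ap Vl Suc lv g s0) k0 ha hb

theorem hs2 {s s' : M} (h : LS Suc s s') : lv s < lv s' := (D.hs s s' h.1).2

theorem exLS {s : M} (h : Vl s) : ∃ s', LS Suc s s' := by
  have i4 : D1 Y (fun v : ℕ → M => Suc s (v 0)) := D.d2S inferInstance inferInstance
  obtain ⟨t, ht⟩ := D.hex s h
  exact lstD (R := fun t => Suc s t) i4 t ht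

theorem ap_uniq {m m' c c' : M} (hm : m ≤ m') (h : Ap Vl Suc lv g s0 m c)
    (h' : Ap Vl Suc lv g s0 m' c') {t : M} (ht : Vl t) (htm : lv t ≤ m) : Bt c t ↔ Bt c' t := by
  by_contra hne
  have i2 : ∀ {a : (ℕ → M) → M} [F1 Y a], F1 Y (fun v => lv (a v)) := D.f1l inferInstance
  have i3 : ∀ {a : (ℕ → M) → M} [F1 Y a], D1 Y (fun v => Vl (a v)) := D.d2V inferInstance
  have k : D1 Y (fun v : ℕ → M => ∃ t, t < g m' ∧ (Vl t ∧ lv t ≤ m ∧ lv t = v 0 ∧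
      ¬ (Bt c t ↔ Bt c' t))) := inferInstance
  obtain ⟨x, ⟨t, ht1, ht2, ht3, ht4, ht5⟩, hmin⟩ := lstD (R := fun x => ∃ t, t < g m' ∧
    (Vl t ∧ lv t ≤ m ∧ lv t = x ∧ ¬ (Bt c t ↔ Bt c' t))) k (lv t)
    ⟨t, D.hb t m' ht (htm.trans hm), ht, htm, rfl, hne⟩
  have hts : t ≠ s0 := by
    rintro rfl
    exact ht5 (iff_of_true h.2.1 h'.2.1)
  apply ht5
  constructor
  · intro hc
    rcases h.2.2.1 t (D.hb t m ht2 ht3) hc with h1 | ⟨t', _, h2, h3⟩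
    · exact absurd h1 hts
    · have h4 := hs2 D h3
      have h5 := h.1 t' (D.hb t' m (h.1 t' ‹_› h2).1 (h.1 t' ‹_› h2).2) h2
      have h6 : Bt c' t' := by
        by_contra hc'
        refine hmin (lv t') (by rw [← ht4]; exact h4) ⟨t', D.hb t' m' h5.1 (h5.2.trans hm), h5.1,
          h5.2, rfl, ?_⟩
        rw [iff_true_left h2]
        exact hc'
      exact h'.2.2.2 t' (D.hb t' m' h5.1 (h5.2.trans hm)) h6 t ht1 h3 (ht3.trans hm)
  · intro hc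
    rcases h'.2.2.1 t ht1 hc with h1 | ⟨t', ht', h2, h3⟩
    · exact absurd h1 hts
    · have h4 := hs2 D h3
      have h5 := h'.1 t' ht' h2
      have h5' : lv t' ≤ m := h4.le.trans ht3
      have h6 : Bt c t' := by
        by_contra hc'
        refine hmin (lv t') (by rw [← ht4]; exact h4) ⟨t', ht', h5.1, h5', rfl, ?_⟩
        rw [iff_true_right h2]
        exact hc'
      exact h.2.2.2 t' (D.hb t' m h5.1 h5') h6 t (D.hb t m ht2 ht3) h3 ht3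

theorem ap_zero : ∃ c, c < tw (g 0) ∧ Ap Vl Suc lv g s0 0 c := by
  have k : D1 Y (fun v : ℕ → M => v 0 = s0) := inferInstance
  obtain ⟨c, hc, hc'⟩ := cmpD (R := fun t => t = s0) k (g 0)
  have hs0 : s0 < g 0 := D.hb s0 0 D.h0 D.hl0.le
  refine ⟨c, hc, ?_, ?_, ?_, ?_⟩
  · intro t ht h1
    rw [hc' t ht] at h1
    subst h1
    exact ⟨D.h0, D.hl0.le⟩
  · exact (hc' s0 hs0).2 rfl
  · intro t ht h1
    exact Or.inl ((hc' t ht).1 h1)
  · intro t ht h1 t' ht' h2 h3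
    rw [hc' t ht] at h1
    subst h1
    have h4 := hs2 D h2
    rw [D.hl0] at h4
    exact absurd h4 (not_lt.2 h3)

theorem ap_succ {m c : M} (h : Ap Vl Suc lv g s0 m c) :
    ∃ c', c' < tw (g (m + 1)) ∧ Ap Vl Suc lv g s0 (m + 1) c' := by
  have i2 : ∀ {a : (ℕ → M) → M} [F1 Y a], F1 Y (fun v => lv (a v)) := D.f1l inferInstance
  have i3 : ∀ {a : (ℕ → M) → M} [F1 Y a], D1 Y (fun v => Vl (a v)) := D.d2V inferInstance
  have i4 : ∀ {a b : (ℕ → M) → M} [F1 Y a] [F1 Y b], D1 Y (fun v => LS Suc (a v) (b v)) :=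
    d2_LS D inferInstance inferInstance
  have hmm : m ≤ m + 1 := le_self_add
  have k : D1 Y (fun v : ℕ → M => (Vl (v 0) ∧ lv (v 0) ≤ m ∧ Bt c (v 0)) ∨ (lv (v 0) = m + 1 ∧
    ∃ t', t' < g m ∧ (Bt c t' ∧ LS Suc t' (v 0)))) := inferInstance
  obtain ⟨c', hc, hc'⟩ := cmpD (R := fun t => (Vl t ∧ lv t ≤ m ∧ Bt c t) ∨
    (lv t = m + 1 ∧ ∃ t', t' < g m ∧ (Bt c t' ∧ LS Suc t' t))) k (g (m + 1))
  have hin : ∀ t, Vl t → lv t ≤ m + 1 → (Bt c' t ↔ (Vl t ∧ lv t ≤ m ∧ Bt c t) ∨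
    (lv t = m + 1 ∧ ∃ t', t' < g m ∧ (Bt c t' ∧ LS Suc t' t))) := fun t h1 h2 =>
      hc' t (D.hb t _ h1 h2)
  have hup : ∀ t, Vl t → lv t ≤ m → Bt c t → Bt c' t := fun t h1 h2 h3 =>
    (hin t h1 (h2.trans hmm)).2 (Or.inl ⟨h1, h2, h3⟩)
  have key : ∀ t, t < g (m + 1) → Bt c' t → Vl t ∧ lv t ≤ m + 1 := by
    intro t ht h1
    rcases (hc' t ht).1 h1 with ⟨h2, h3, _⟩ | ⟨h2, t', h3, h4, h5⟩
    · exact ⟨h2, h3.trans hmm⟩
    · exact ⟨(D.hs _ _ h5.1).1, h2.le⟩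
  refine ⟨c', hc, key, ?_, ?_, ?_⟩
  · exact hup s0 D.h0 (by rw [D.hl0]; exact zero_le) h.2.1
  · intro t ht h1
    rcases (hc' t ht).1 h1 with ⟨h2, h3, h4⟩ | ⟨h2, t', h3, h4, h5⟩
    · rcases h.2.2.1 t (D.hb t m h2 h3) h4 with h5 | ⟨t', h5, h6, h7⟩
      · exact Or.inl h5
      · have h8 := h.1 t' h5 h6
        exact Or.inr ⟨t', D.hb t' _ h8.1 (h8.2.trans hmm), hup t' h8.1 h8.2 h6, h7⟩
    · have h8 := h.1 t' h3 h4
      exact Or.inr ⟨t', D.hb t' _ h8.1 (h8.2.trans hmm), hup t' h8.1 h8.2 h4, h5⟩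
  · intro t ht h1 t' ht' h2 h3
    have h4 := hs2 D h2
    have h5 := (D.hs _ _ h2.1).1
    rcases (hc' t ht).1 h1 with ⟨h6, h7, h8⟩ | ⟨h6, _⟩
    · rcases lt_or_ge m (lv t') with h9 | h9
      · have h10 : lv t' = m + 1 := le_antisymm h3 (succ_le_iff.2 h9)
        exact (hc' t' ht').2 (Or.inr ⟨h10, t, D.hb t m h6 h7, h8, h2⟩)
      · exact hup t' h5 h9 (h.2.2.2 t (D.hb t m h6 h7) h8 t' (D.hb t' m h5 h9) h2 h9)
    · rw [h6] at h4
      exact absurd h4 (not_lt.2 h3)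

theorem ap_ex (m : M) : ∃ c, c < tw (g m) ∧ Ap Vl Suc lv g s0 m c := by
  have i1 : ∀ {a : (ℕ → M) → M} [F1 Y a], F1 Y (fun v => g (a v)) := D.f1g inferInstance
  have i5 : ∀ {a b : (ℕ → M) → M} [F1 Y a] [F1 Y b], D1 Y (fun v => Ap Vl Suc lv g s0 (a v) (b v)) :=
    d2_Ap D inferInstance inferInstance
  have k : D1 Y (fun v : ℕ → M => ∃ c, c < tw (g (v 0)) ∧ Ap Vl Suc lv g s0 (v 0) c) :=
    inferInstance
  exact indD (R := fun m => ∃ c, c < tw (g m) ∧ Ap Vl Suc lv g s0 m c) k (ap_zero D)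
    (fun m ⟨c, _, h⟩ => ap_succ D h) m

omit D in
/-- The states of the chain. -/
def St (Vl : M → Prop) (Suc : M → M → Prop) (lv g : M → M) (s0 : M) (s : M) : Prop :=
  Vl s ∧ ∃ c, c < tw (g (lv s)) ∧ (Ap Vl Suc lv g s0 (lv s) c ∧ Bt c s)

theorem d2_St {a : (ℕ → M) → M} (ha : F1 Y a) :
    D1 Y (fun v => St Vl Suc lv g s0 (a v)) := by
  have i1 : ∀ {a : (ℕ → M) → M} [F1 Y a], F1 Y (fun v => g (a v)) := D.f1g inferInstance
  have i2 : ∀ {a : (ℕ → M) → M} [F1 Y a], F1 Y (fun v => lv (a v)) := D.f1l inferInstance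
  have i3 : ∀ {a : (ℕ → M) → M} [F1 Y a], D1 Y (fun v => Vl (a v)) := D.d2V inferInstance
  have i5 : ∀ {a b : (ℕ → M) → M} [F1 Y a] [F1 Y b], D1 Y (fun v => Ap Vl Suc lv g s0 (a v) (b v)) :=
    d2_Ap D inferInstance inferInstance
  have k : D1 Y (fun v => St Vl Suc lv g s0 (v 0)) := by
    unfold St
    infer_instance
  exact D1.s1 (P := St Vl Suc lv g s0) k ha

theorem st_iff {m c s : M} (h : Ap Vl Suc lv g s0 m c) (hs : Vl s) (hsm : lv s ≤ m) :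
    St Vl Suc lv g s0 s ↔ Bt c s := by
  constructor
  · rintro ⟨_, c', _, h1, h2⟩
    exact (ap_uniq D hsm h1 h hs le_rfl).1 h2
  · intro h1
    obtain ⟨c', h2, h3⟩ := ap_ex D (lv s)
    exact ⟨hs, c', h2, h3, (ap_uniq D hsm h3 h hs le_rfl).2 h1⟩

theorem st_zero : St Vl Suc lv g s0 s0 := by
  obtain ⟨c', h2, h3⟩ := ap_ex D (lv s0)
  exact ⟨D.h0, c', h2, h3, h3.2.1⟩

theorem st_pred {s : M} (h : St Vl Suc lv g s0 s) :
    s = s0 ∨ ∃ t, St Vl Suc lv g s0 t ∧ LS Suc t s := by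
  obtain ⟨h1, c, _, h2, h3⟩ := h
  rcases h2.2.2.1 s (D.hb s _ h1 le_rfl) h3 with h4 | ⟨t, h5, h6, h7⟩
  · exact Or.inl h4
  · have h8 := h2.1 t h5 h6
    exact Or.inr ⟨t, (st_iff D h2 h8.1 h8.2).2 h6, h7⟩

theorem st_succ {s s' : M} (h : St Vl Suc lv g s0 s) (h' : LS Suc s s') :
    St Vl Suc lv g s0 s' := by
  obtain ⟨c, _, h2⟩ := ap_ex D (lv s')
  have h3 := hs2 D h'
  have h4 := (D.hs _ _ h'.1).1
  have h5 := (st_iff D h2 h.1 h3.le).1 h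
  exact (st_iff D h2 h4 le_rfl).2 (h2.2.2.2 s (D.hb s _ h.1 h3.le) h5 s' (D.hb s' _ h4 le_rfl) h'
    le_rfl)

theorem st_comp {s t : M} (hs : St Vl Suc lv g s0 s) (ht : St Vl Suc lv g s0 t)
    (hst : lv s ≤ lv t) : s = t ∨ ∃ s', LS Suc s s' ∧ lv s' ≤ lv t := by
  by_contra hne
  have i1 : ∀ {a : (ℕ → M) → M} [F1 Y a], F1 Y (fun v => g (a v)) := D.f1g inferInstance
  have i2 : ∀ {a : (ℕ → M) → M} [F1 Y a], F1 Y (fun v => lv (a v)) := D.f1l inferInstance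
  have i4 : ∀ {a b : (ℕ → M) → M} [F1 Y a] [F1 Y b], D1 Y (fun v => LS Suc (a v) (b v)) :=
    d2_LS D inferInstance inferInstance
  have i6 : ∀ {a : (ℕ → M) → M} [F1 Y a], D1 Y (fun v => St Vl Suc lv g s0 (a v)) :=
    d2_St D inferInstance
  have k : D1 Y (fun v : ℕ → M => ∃ s, s < g (v 0) ∧ ∃ t, t < g (v 0) ∧
      (St Vl Suc lv g s0 s ∧ St Vl Suc lv g s0 t ∧ lv t = v 0 ∧ lv s ≤ lv t ∧ ¬ s = t ∧
        ∀ s', s' < g (v 0) → (LS Suc s s' → ¬ lv s' ≤ lv t))) := inferInstance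
  obtain ⟨x, ⟨s, _, t, _, h1, h2, h3, h4, h5, h6⟩, hmin⟩ := lstD (R := fun x => ∃ s, s < g x ∧
    ∃ t, t < g x ∧
      (St Vl Suc lv g s0 s ∧ St Vl Suc lv g s0 t ∧ lv t = x ∧ lv s ≤ lv t ∧ ¬ s = t ∧
        ∀ s', s' < g x → (LS Suc s s' → ¬ lv s' ≤ lv t))) k (lv t)
    ⟨s, D.hb s _ hs.1 hst, t, D.hb t _ ht.1 le_rfl, hs, ht, rfl, hst,
      fun h => hne (Or.inl h), fun s' _ h h' => hne (Or.inr ⟨s', h, h'⟩)⟩
  subst h3
  have h6' : ∀ s', LS Suc s s' → ¬ lv s' ≤ lv t := fun s' h h' =>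
    h6 s' (D.hb s' _ (D.hs _ _ h.1).1 h') h h'
  have hmin' : ∀ s' t', St Vl Suc lv g s0 s' → St Vl Suc lv g s0 t' → lv s' ≤ lv t' →
      lv t' < lv t → s' = t' ∨ ∃ u, LS Suc s' u ∧ lv u ≤ lv t' := by
    intro s' t' g1 g2 g3 g4
    by_contra g5
    exact hmin (lv t') g4 ⟨s', D.hb s' _ g1.1 g3, t', D.hb t' _ g2.1 le_rfl, g1, g2, rfl, g3,
      fun h => g5 (Or.inl h), fun s' _ h h' => g5 (Or.inr ⟨s', h, h'⟩)⟩
  rcases st_pred D h2 with rfl | ⟨t', h7, h8⟩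
  · rcases st_pred D h1 with h9 | ⟨s', h9, h10⟩
    · exact h5 h9
    · have := hs2 D h10
      rw [D.hl0] at h4
      exact absurd (this.trans_le h4) (not_lt.2 zero_le)
  have h9 := hs2 D h8
  rcases le_or_gt (lv s) (lv t') with h10 | h10
  · rcases hmin' s t' h1 h7 h10 h9 with rfl | ⟨u, h11, h12⟩
    · exact h6' t h8 le_rfl
    · exact h6' u h11 (h12.trans h9.le)
  · rcases lt_or_eq_of_le h4 with h11 | h11
    · rcases hmin' t' s h7 h1 h10.le h11 with rfl | ⟨u, h12, h13⟩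
      · exact lt_irrefl _ h10
      · rw [LS.unique h12 h8] at h13
        exact absurd (h11.trans_le h13) (lt_irrefl _)
    · rcases st_pred D h1 with rfl | ⟨s', h12, h13⟩
      · rw [D.hl0] at h10
        exact absurd h10 (not_lt.2 zero_le)
      have h14 := hs2 D h13
      rcases le_total (lv s') (lv t') with h15 | h15
      · rcases hmin' s' t' h12 h7 h15 h9 with rfl | ⟨u, h16, h17⟩
        · exact h5 (LS.unique h13 h8)
        · rw [LS.unique h16 h13, h11] at h17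
          exact absurd (h9.trans_le h17) (lt_irrefl _)
      · rcases hmin' t' s' h7 h12 h15 (by rw [← h11]; exact h14) with rfl | ⟨u, h16, h17⟩
        · exact h5 (LS.unique h13 h8)
        · rw [LS.unique h16 h8, ← h11] at h17
          exact absurd (h14.trans_le h17) (lt_irrefl _)

theorem st_cof (m : M) : ∃ s, St Vl Suc lv g s0 s ∧ m < lv s := by
  by_contra hne
  push Not at hne
  have i2 : ∀ {a : (ℕ → M) → M} [F1 Y a], F1 Y (fun v => lv (a v)) := D.f1l inferInstance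
  have i6 : ∀ {a : (ℕ → M) → M} [F1 Y a], D1 Y (fun v => St Vl Suc lv g s0 (a v)) :=
    d2_St D inferInstance
  have k : D1 Y (fun v : ℕ → M => ∀ t, t < g m → (St Vl Suc lv g s0 t → lv t ≤ v 0)) :=
    inferInstance
  obtain ⟨x, hx, hmin⟩ := lstD (R := fun x => ∀ t, t < g m → (St Vl Suc lv g s0 t → lv t ≤ x)) k
    m (fun t _ h => hne t h)
  have hx' : ∀ t, St Vl Suc lv g s0 t → lv t ≤ x := fun t ht => hx t (D.hb t m ht.1 (hne t ht)) ht
  have : ∃ t, St Vl Suc lv g s0 t ∧ x ≤ lv t := by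
    by_cases h0 : x = 0
    · exact ⟨s0, st_zero D, by rw [h0]; exact zero_le⟩
    · obtain ⟨y, rfl⟩ := (eq_zero_or_succ x).resolve_left h0
      have h1 := hmin y (lt_add_one y)
      push Not at h1
      obtain ⟨t, _, h2, h3⟩ := h1
      exact ⟨t, h2, succ_le_iff.2 h3⟩
  obtain ⟨t, ht, hxt⟩ := this
  obtain ⟨t', ht'⟩ := exLS D ht.1
  exact absurd (hxt.trans_lt (hs2 D ht')) (not_lt.2 (hx' t' (st_succ D ht ht')))

theorem st_next {s : M} (hs : St Vl Suc lv g s0 s) : ∃ s', St Vl Suc lv g s0 s' ∧ Suc s s' ∧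
    ∀ t, St Vl Suc lv g s0 t → lv t ≤ lv s ∨ lv s' ≤ lv t := by
  obtain ⟨s', hs'⟩ := exLS D hs.1
  refine ⟨s', st_succ D hs hs', hs'.1, fun t ht => ?_⟩
  rcases le_total (lv t) (lv s) with h | h
  · exact Or.inl h
  · rcases st_comp D hs ht h with rfl | ⟨u, h1, h2⟩
    · exact Or.inl le_rfl
    · rw [LS.unique h1 hs'] at h2
      exact Or.inr h2

theorem st_inj {s t : M} (hs : St Vl Suc lv g s0 s) (ht : St Vl Suc lv g s0 t)
    (h : lv s = lv t) : s = t := by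
  rcases st_comp D hs ht h.le with h | ⟨u, h1, h2⟩
  · exact h
  · exact absurd ((hs2 D h1).trans_le h2) (by rw [h]; exact lt_irrefl _)

end Chain
end Pool.Agent.PD2.NI
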