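import Pool.Agent.Work.MP_a6ae3a_lc.Code
import Pool.Agent.Work.MP_a6ae3a_lc.IM

/-!
# Euclidean division

`dv a b`, `md a b`: quotient and remainder, total functions (`dv a 0 = 0`, `md a 0 = a`).
`F1 X` instances for every `X` from pure `Σ₁` induction. `D1 X` instance for divisibility.
-/

namespace Pool.Agent.PD2

variable {M : Type} [PAM M] {X : M → Prop}

/-- Uniqueness of quotient and remainder. -/
theorem div_unique {b q r q' r' : M} (hr : r < b) (hr' : r' < b)
    (h : b * q + r = b * q' + r') : q = q' ∧ r = r' := by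
  have key : ∀ {q r q' r' : M}, r < b → b * q + r = b * q' + r' → ¬ q < q' := by
    intro q r q' r' hr h hlt
    have h1 : q + 1 ≤ q' := succ_le_iff.2 hlt
    have h2 : b * (q + 1) ≤ b * q' := mul_le_mul_right h1 b
    have h3 : b * q + r < b * q' + r' := by
      calc b * q + r < b * q + b := by gcongr
        _ = b * (q + 1) := by ring
        _ ≤ b * q' := h2
        _ ≤ b * q' + r' := le_self_add
    exact absurd h h3.ne
  have hq : q = q' := le_antisymm (not_lt.1 (key hr' h.symm)) (not_lt.1 (key hr h))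
  subst hq
  exact ⟨rfl, add_left_cancel h⟩

open Classical in
/-- The quotient. -/
noncomputable def dv (a b : M) : M :=
  if h : ∃ q r, r < b ∧ a = b * q + r then h.choose else 0

open Classical in
/-- The remainder. -/
noncomputable def md (a b : M) : M :=
  if h : ∃ q r, r < b ∧ a = b * q + r then h.choose_spec.choose else a

theorem dv_md_eq {a b q r : M} (hr : r < b) (h : a = b * q + r) : dv a b = q ∧ md a b = r := by
  have hex : ∃ q r, r < b ∧ a = b * q + r := ⟨q, r, hr, h⟩
  have h1 := hex.choose_spec.choose_spec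
  rw [dv, md, dif_pos hex, dif_pos hex]
  exact div_unique h1.1 hr (h1.2.symm.trans h)

theorem dv_eq {a b q r : M} (hr : r < b) (h : a = b * q + r) : dv a b = q := (dv_md_eq hr h).1

theorem md_eq {a b q r : M} (hr : r < b) (h : a = b * q + r) : md a b = r := (dv_md_eq hr h).2

@[simp] theorem dv_zero_right (a : M) : dv a 0 = 0 := by
  rw [dv, dif_neg]
  rintro ⟨q, r, hr, _⟩
  exact not_lt_zero' r hr

@[simp] theorem md_zero_right (a : M) : md a 0 = a := by
  rw [md, dif_neg]
  rintro ⟨q, r, hr, _⟩
  exact not_lt_zero' r hr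

theorem dv_of_lt {a b : M} (h : a < b) : dv a b = 0 := dv_eq h (by rw [mul_zero, zero_add])

theorem md_of_lt {a b : M} (h : a < b) : md a b = a := md_eq h (by rw [mul_zero, zero_add])

theorem pos_of_lt {a b : M} (h : a < b) : 0 < b := lt_of_le_of_lt (zle a) h

theorem pos_or_zero (b : M) : 0 < b ∨ b = 0 := by
  rcases (zle b).eq_or_lt with h | h
  · exact Or.inr h.symm
  · exact Or.inl h

@[simp] theorem dv_zero_left (b : M) : dv 0 b = 0 := by
  rcases pos_or_zero b with h | rfl
  · exact dv_of_lt h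
  · exact dv_zero_right 0

@[simp] theorem md_zero_left (b : M) : md 0 b = 0 := by
  rcases pos_or_zero b with h | rfl
  · exact md_of_lt h
  · exact md_zero_right 0

theorem dv_mul_left {a b : M} (hb : 0 < b) : dv (b * a) b = a := dv_eq hb (by rw [add_zero])

theorem md_mul_left (a b : M) : md (b * a) b = 0 := by
  rcases pos_or_zero b with hb | rfl
  · exact md_eq hb (q := a) (by rw [add_zero])
  · rw [zero_mul, md_zero_left]

theorem dv_self {b : M} (hb : 0 < b) : dv b b = 1 := dv_eq hb (by rw [mul_one, add_zero])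

@[simp] theorem md_self (b : M) : md b b = 0 := by
  have := md_mul_left 1 b
  rwa [mul_one] at this

section im

variable [IM M]

/-- Euclidean division. -/
theorem div_exists (a : M) {b : M} (hb : 0 < b) : ∃ q r, r < b ∧ a = b * q + r := by
  have h1 : ∃ q, q ≤ a ∧ ∃ r, r < b ∧ a = b * q + r := by
    refine ind_d (eS M)
      (P := fun a : M => ∃ q, q ≤ a ∧ ∃ r, r < b ∧ a = b * q + r) inferInstance ?_ ?_ a
    · exact ⟨0, le_rfl, 0, hb, by rw [mul_zero, add_zero]⟩
    · rintro x ⟨q, hq, r, hr, h⟩
      rcases lt_succ_cases (lt_succ_iff.2 (succ_le_iff.2 hr)) with h2 | h2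
      · exact ⟨q, hq.trans le_self_add, r + 1, h2, by rw [h, add_assoc]⟩
      · exact ⟨q + 1, by gcongr, 0, hb, by rw [h, add_assoc, h2]; ring⟩
  obtain ⟨q, _, r, hr, h⟩ := h1
  exact ⟨q, r, hr, h⟩

theorem md_lt (a : M) {b : M} (hb : 0 < b) : md a b < b := by
  obtain ⟨q, r, hr, h⟩ := div_exists a hb
  rw [md_eq hr h]
  exact hr

theorem dv_add_md (a b : M) : b * dv a b + md a b = a := by
  rcases pos_or_zero b with hb | rfl
  · obtain ⟨q, r, hr, h⟩ := div_exists a hb
    rw [dv_eq hr h, md_eq hr h, h]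
  · simp

theorem md_add_dv (a b : M) : md a b + b * dv a b = a := by rw [add_comm, dv_add_md]

theorem mul_dv_le (a b : M) : b * dv a b ≤ a := by
  conv_rhs => rw [← dv_add_md a b]
  exact le_self_add

theorem md_le (a b : M) : md a b ≤ a := by
  conv_rhs => rw [← dv_add_md a b]
  exact le_add_self

theorem dv_le (a b : M) : dv a b ≤ a := by
  rcases pos_or_zero b with hb | rfl
  · calc dv a b = 1 * dv a b := (one_mul _).symm
      _ ≤ b * dv a b := by gcongr; exact PAM.one_le b hb
      _ ≤ a := mul_dv_le a b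
  · rw [dv_zero_right]; exact zle a

theorem lt_mul_dv_succ (a : M) {b : M} (hb : 0 < b) : a < b * (dv a b + 1) := by
  calc a = b * dv a b + md a b := (dv_add_md a b).symm
    _ < b * dv a b + b := by gcongr; exact md_lt a hb
    _ = b * (dv a b + 1) := by ring

theorem le_dv_iff {a b c : M} (hb : 0 < b) : c ≤ dv a b ↔ b * c ≤ a := by
  constructor
  · intro h
    exact (mul_le_mul_right h b).trans (mul_dv_le a b)
  · intro h
    by_contra h1
    rw [not_le, ← succ_le_iff] at h1
    exact absurd (lt_of_le_of_lt h (lt_mul_dv_succ a hb)) (not_lt.2 (mul_le_mul_right h1 b))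

theorem dv_lt_iff {a b c : M} (hb : 0 < b) : dv a b < c ↔ a < b * c := by
  rw [← not_le, le_dv_iff hb, not_le]

theorem dv_pos_iff {a b : M} (hb : 0 < b) : 0 < dv a b ↔ b ≤ a := by
  have := le_dv_iff (a := a) (c := 1) hb
  rw [mul_one] at this
  rw [← this]
  exact ⟨fun h => PAM.one_le _ h, fun h => lt_of_lt_of_le zero_lt_one h⟩

theorem dv_mono {a a' : M} (h : a ≤ a') (b : M) : dv a b ≤ dv a' b := by
  rcases pos_or_zero b with hb | rfl
  · exact (le_dv_iff hb).2 ((mul_dv_le a b).trans h)
  · simp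

theorem dv_anti (a : M) {b b' : M} (hb : 0 < b) (h : b ≤ b') : dv a b' ≤ dv a b :=
  (le_dv_iff hb).2 ((mul_le_mul_left h (dv a b')).trans (mul_dv_le a b'))

theorem dv_add_mul (a c : M) {b : M} (hb : 0 < b) : dv (a + b * c) b = dv a b + c :=
  dv_eq (md_lt a hb) (by
    conv_lhs => rw [← dv_add_md a b]
    ring)

theorem md_add_mul (a c b : M) : md (a + b * c) b = md a b := by
  rcases pos_or_zero b with hb | rfl
  · refine md_eq (q := dv a b + c) (md_lt a hb) ?_
    conv_lhs => rw [← dv_add_md a b]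
    ring
  · rw [zero_mul, add_zero]

theorem dv_mul_add {a c b : M} (hb : 0 < b) : dv (b * c + a) b = c + dv a b := by
  rw [add_comm (b * c), dv_add_mul a c hb, add_comm]

theorem md_mul_add (a c b : M) : md (b * c + a) b = md a b := by
  rw [add_comm, md_add_mul]

theorem dv_add_self (a : M) {b : M} (hb : 0 < b) : dv (a + b) b = dv a b + 1 := by
  have := dv_add_mul a 1 hb
  rwa [mul_one] at this

theorem md_add_self (a b : M) : md (a + b) b = md a b := by
  have := md_add_mul a 1 b
  rwa [mul_one] at this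

theorem md_md (a b : M) : md (md a b) b = md a b := by
  rcases pos_or_zero b with hb | rfl
  · exact md_of_lt (md_lt a hb)
  · simp

theorem dv_md {a b : M} (hb : 0 < b) : dv (md a b) b = 0 := dv_of_lt (md_lt a hb)

theorem dvd_iff_md {a b : M} : b ∣ a ↔ md a b = 0 := by
  constructor
  · rintro ⟨c, rfl⟩
    exact md_mul_left c b
  · intro h
    refine ⟨dv a b, ?_⟩
    have := dv_add_md a b
    rw [h, add_zero] at this
    exact this.symm

theorem mul_dv_of_dvd {a b : M} (h : b ∣ a) : b * dv a b = a := by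
  have := dv_add_md a b
  rwa [dvd_iff_md.1 h, add_zero] at this

theorem dvd_add_left' {a b c : M} (h : c ∣ b) : c ∣ a + b ↔ c ∣ a := by
  obtain ⟨k, rfl⟩ := h
  rw [dvd_iff_md, dvd_iff_md, md_add_mul]

theorem dvd_add_right' {a b c : M} (h : c ∣ a) : c ∣ a + b ↔ c ∣ b := by
  rw [add_comm, dvd_add_left' h]

theorem md_eq_iff_dvd {a c b : M} : md (a + c) b = md a b ↔ b ∣ c := by
  constructor
  · intro h
    have h1 := dv_add_md (a + c) b
    have h2 := dv_add_md a b
    rw [h] at h1
    have h3 : b * dv (a + c) b + md a b = (b * dv a b + c) + md a b := by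
      rw [h1]
      conv_lhs => rw [← h2]
      ring
    have h4 : b * dv (a + c) b = b * dv a b + c := add_right_cancel h3
    refine (dvd_add_right' (a := b * dv a b) (dvd_mul_right _ _)).1 ?_
    rw [← h4]
    exact dvd_mul_right _ _
  · rintro ⟨k, rfl⟩
    exact md_add_mul a k b

theorem md_add (a c b : M) : md (a + c) b = md (md a b + md c b) b := by
  conv_lhs => rw [← md_add_dv a b, ← md_add_dv c b]
  rw [show md a b + b * dv a b + (md c b + b * dv c b) =
    md a b + md c b + b * (dv a b + dv c b) by ring, md_add_mul]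

theorem md_mul (a c b : M) : md (a * c) b = md (md a b * md c b) b := by
  conv_lhs => rw [← md_add_dv a b, ← md_add_dv c b]
  rw [show (md a b + b * dv a b) * (md c b + b * dv c b) =
    md a b * md c b + b * (dv a b * md c b + md a b * dv c b + b * dv a b * dv c b) by ring,
    md_add_mul]

/-- Iterated division. -/
theorem dv_dv (a b c : M) : dv (dv a b) c = dv a (b * c) := by
  rcases pos_or_zero b with hb | rfl
  · rcases pos_or_zero c with hc | rfl
    · have hbc : 0 < b * c := mul_pos hb hc
      refine le_antisymm ?_ ?_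
      · rw [le_dv_iff hbc, mul_assoc]
        exact (mul_le_mul_right (mul_dv_le _ c) b).trans (mul_dv_le a b)
      · rw [le_dv_iff hc, le_dv_iff hb, ← mul_assoc]
        exact mul_dv_le a (b * c)
    · rw [mul_zero, dv_zero_right, dv_zero_right]
  · rw [zero_mul, dv_zero_right, dv_zero_left]

/-- The remainder for a product. -/
theorem md_mul_right (a b c : M) : md a (b * c) = b * md (dv a b) c + md a b := by
  have h1 := dv_add_md a (b * c)
  have h2 := dv_add_md a b
  have h3 := dv_add_md (dv a b) c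
  rw [dv_dv] at h3
  have h4 : b * c * dv a (b * c) + md a (b * c) =
      b * c * dv a (b * c) + (b * md (dv a b) c + md a b) := by
    rw [h1]
    conv_lhs => rw [← h2, ← h3]
    ring
  exact add_left_cancel h4

theorem md_md_mul (a b c : M) : md (md a (b * c)) b = md a b := by
  rw [md_mul_right, add_comm, md_add_mul, md_md]

theorem dv_md_mul {a b c : M} (hb : 0 < b) : dv (md a (b * c)) b = md (dv a b) c := by
  rw [md_mul_right, dv_mul_add hb, dv_md hb, add_zero]

theorem md_md_of_dvd {a b d : M} (h : b ∣ d) : md (md a d) b = md a b := by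
  obtain ⟨c, rfl⟩ := h
  exact md_md_mul a b c

/-! ### Division by two -/

omit [IM M] in
theorem two_pos' : (0 : M) < 2 := by
  rw [← one_add_one_eq_two]
  exact lt_of_lt_of_le zero_lt_one le_self_add

omit [IM M] in
theorem lt_two_iff {x : M} : x < 2 ↔ x = 0 ∨ x = 1 := by
  rw [← one_add_one_eq_two, lt_succ_iff]
  constructor
  · intro h
    rcases eq_zero_or_succ x with rfl | ⟨y, rfl⟩
    · exact Or.inl rfl
    · right
      rcases eq_zero_or_succ y with rfl | ⟨z, rfl⟩
      · rw [zero_add]
      · exfalso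
        refine absurd h (not_le.2 ?_)
        calc (1 : M) < 1 + 1 := lt_succ_self 1
          _ ≤ z + (1 + 1) := le_add_self
          _ = z + 1 + 1 := by ring
  · rintro (rfl | rfl)
    · exact zero_le_one
    · exact le_rfl

theorem md_two (a : M) : md a 2 = 0 ∨ md a 2 = 1 := lt_two_iff.1 (md_lt a two_pos')

omit [IM M] in
@[simp] theorem md_two_mul (a : M) : md (2 * a) 2 = 0 := md_mul_left a 2

@[simp] theorem md_two_mul_add_one (a : M) : md (2 * a + 1) 2 = 1 := by
  rw [md_mul_add]
  exact md_of_lt (lt_two_iff.2 (Or.inr rfl))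

omit [IM M] in
@[simp] theorem dv_two_mul (a : M) : dv (2 * a) 2 = a := dv_mul_left two_pos'

@[simp] theorem dv_two_mul_add_one (a : M) : dv (2 * a + 1) 2 = a := by
  rw [dv_mul_add two_pos', dv_of_lt (lt_two_iff.2 (Or.inr rfl)), add_zero]

theorem div_even_or_odd (a : M) : a = 2 * dv a 2 ∨ a = 2 * dv a 2 + 1 := by
  have h := dv_add_md a 2
  rcases md_two a with h1 | h1
  · rw [h1, add_zero] at h
    exact Or.inl h.symm
  · rw [h1] at h
    exact Or.inr h.symm

theorem two_mul_ne_two_mul_add_one (a b : M) : 2 * a ≠ 2 * b + 1 := by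
  intro h
  have h1 := md_two_mul a
  rw [h, md_two_mul_add_one] at h1
  exact one_ne_zero h1

/-! ### Instances -/

variable {f g : (ℕ → M) → M}

instance f1_dv [hf : F1 X f] [hg : F1 X g] : F1 X (fun v => dv (f v) (g v)) := by
  refine F1.s2 (f := fun x y => dv x y) ?_ hf hg
  refine F1.of_graph (R := fun y (v : ℕ → M) =>
    (∃ r, r < v 1 ∧ v 0 = v 1 * y + r) ∨ (v 1 = 0 ∧ y = 0)) inferInstance fun v y => ?_
  constructor
  · rintro rfl
    rcases pos_or_zero (v 1) with hb | hb
    · exact Or.inl ⟨md (v 0) (v 1), md_lt _ hb, (dv_add_md _ _).symm⟩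
    · exact Or.inr ⟨hb, by rw [hb, dv_zero_right]⟩
  · rintro (⟨r, hr, h⟩ | ⟨hb, rfl⟩)
    · exact (dv_eq hr h).symm
    · rw [hb, dv_zero_right]

instance f1_md [hf : F1 X f] [hg : F1 X g] : F1 X (fun v => md (f v) (g v)) := by
  refine F1.s2 (f := fun x y => md x y) ?_ hf hg
  refine F1.of_graph (R := fun y (v : ℕ → M) =>
    (∃ q, y < v 1 ∧ v 0 = v 1 * q + y) ∨ (v 1 = 0 ∧ y = v 0)) inferInstance fun v y => ?_
  constructor
  · rintro rfl
    rcases pos_or_zero (v 1) with hb | hb
    · exact Or.inl ⟨dv (v 0) (v 1), md_lt _ hb, (dv_add_md _ _).symm⟩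
    · exact Or.inr ⟨hb, by rw [hb, md_zero_right]⟩
  · rintro (⟨q, hr, h⟩ | ⟨hb, rfl⟩)
    · exact (md_eq hr h).symm
    · rw [hb, md_zero_right]

/-- Divisibility is `Δ₁` for every set. -/
instance d1_dvd_pure [hf : F1 X f] [hg : F1 X g] : D1 X (fun v => f v ∣ g v) :=
  D1.congr (R := fun v => md (g v) (f v) = 0) inferInstance fun v => dvd_iff_md.symm

end im

end Pool.Agent.PD2
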