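import Pool.Agent.Work.MP_a6ae3a_lc.Cls

/-!
# Enumerations for a countable model
-/

namespace Pool.Agent.PD2
variable {M : Type} [PAM M]

/-- A monotone cofinal sequence of levels. -/
theorem exists_levels [Countable M] {Lv : M → Prop} (cof : ∀ m, ∃ b, Lv b ∧ m < b) :
    ∃ l : ℕ → M, (∀ n, Lv (l n)) ∧ Monotone l ∧ ∀ m, ∃ n, m < l n := by
  obtain ⟨e, he⟩ := exists_surjective_nat M
  choose nx h1 h2 using cof
  set l : ℕ → M := fun n => Nat.rec (nx (e 0)) (fun n b => nx (max b (e (n + 1)))) n with hl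
  have hs : ∀ n, l (n + 1) = nx (max (l n) (e (n + 1))) := fun n => rfl
  refine ⟨l, fun n => ?_, monotone_nat_of_le_succ fun n => ?_, fun m => ?_⟩
  · cases n with
    | zero => exact h1 _
    | succ n => rw [hs]; exact h1 _
  · rw [hs]
    exact (le_max_left _ _).trans (h2 _).le
  · obtain ⟨n, rfl⟩ := he m
    refine ⟨n, ?_⟩
    cases n with
    | zero => exact h2 _
    | succ n => rw [hs]; exact (le_max_right _ _).trans_lt (h2 _)

/-- An enumeration of the pairs. -/
theorem exists_pairs [Countable M] : ∃ p : ℕ → M × M, ∀ c a, ∃ n, p n = (c, a) := by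
  obtain ⟨e, he⟩ := exists_surjective_nat (M × M)
  exact ⟨e, fun c a => he (c, a)⟩

end Pool.Agent.PD2
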