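import Mathlib

/-!
# Bounded formulas and `Σ₁` relations with parameters in a model of `PA⁻` with a set `X`

`PAM M`: `M` is a discretely ordered commutative semiring with subtraction (a model of `PA⁻`).
`RF`: bounded formulas whose atoms have only variables. `DP X R`: `R` is a bounded relation with
parameters; `S1 X R`: `R` is `Σ₁` with parameters. `I1 X`: `Σ₁` induction.
-/

namespace Pool.Agent.PD2

/-- Models of `PA⁻`. -/
class PAM (M : Type) extends CommSemiring M, LinearOrder M, IsStrictOrderedRing M,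
    CanonicallyOrderedAdd M where
  one_le : ∀ x : M, 0 < x → 1 ≤ x

/-- Push a value in front of an assignment. -/
def psh {A : Type} (x : A) (v : ℕ → A) : ℕ → A
  | 0 => x
  | (i + 1) => v i

/-- Interleaving of two sequences. -/
def mix {A : Type} (v c : ℕ → A) : ℕ → A := fun i => if i % 2 = 0 then v (i / 2) else c (i / 2)

@[simp] theorem mix_even {A : Type} (v c : ℕ → A) (j : ℕ) : mix v c (2 * j) = v j := by
  unfold mix
  have h1 : 2 * j % 2 = 0 := by omega
  have h2 : 2 * j / 2 = j := by omega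
  rw [if_pos h1, h2]

@[simp] theorem mix_odd {A : Type} (v c : ℕ → A) (j : ℕ) : mix v c (2 * j + 1) = c j := by
  unfold mix
  have h1 : ¬ (2 * j + 1) % 2 = 0 := by omega
  have h2 : (2 * j + 1) / 2 = j := by omega
  rw [if_neg h1, h2]

theorem mix_map {A B : Type} (φ : A → B) (v c : ℕ → A) :
    (fun i => φ (mix v c i)) = mix (fun i => φ (v i)) (fun i => φ (c i)) := by
  funext i
  unfold mix
  split_ifs <;> rfl

theorem psh_map {A B : Type} (φ : A → B) (x : A) (v : ℕ → A) :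
    (fun i => φ (psh x v i)) = psh (φ x) (fun i => φ (v i)) := by
  funext i
  cases i <;> rfl

@[simp] theorem psh_zero {A : Type} (x : A) (v : ℕ → A) : psh x v 0 = x := rfl
@[simp] theorem psh_succ {A : Type} (x : A) (v : ℕ → A) (i : ℕ) : psh x v (i + 1) = v i := rfl
theorem psh_one {A : Type} (x : A) (v : ℕ → A) : psh x v 1 = v 0 := rfl

theorem psh_eta {A : Type} (v : ℕ → A) : psh (v 0) (fun i => v (i + 1)) = v := by
  funext i; cases i <;> rfl

/-- Bounded formulas: atoms have only variables; `all i f` is `(∀ x < x_i) f`, where `x` is the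
variable `0` of `f` and the variable `j + 1` of `f` is the variable `j` outside. -/
inductive RF : Type
  | add (i j k : ℕ) : RF
  | mul (i j k : ℕ) : RF
  | eq (i j : ℕ) : RF
  | lt (i j : ℕ) : RF
  | mem (i : ℕ) : RF
  | neg (f : RF) : RF
  | and (f g : RF) : RF
  | all (i : ℕ) (f : RF) : RF

variable {M : Type} [PAM M]

/-- Truth of a bounded formula. -/
def RF.holds (X : M → Prop) : RF → (ℕ → M) → Prop
  | .add i j k, v => v i + v j = v k
  | .mul i j k, v => v i * v j = v k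
  | .eq i j, v => v i = v j
  | .lt i j, v => v i < v j
  | .mem i, v => X (v i)
  | .neg f, v => ¬ f.holds X v
  | .and f g, v => f.holds X v ∧ g.holds X v
  | .all i f, v => ∀ x, x < v i → f.holds X (psh x v)

/-- Lift of a renaming. -/
def rl (r : ℕ → ℕ) : ℕ → ℕ
  | 0 => 0
  | (i + 1) => r i + 1

/-- Renaming of variables. -/
def RF.ren : (ℕ → ℕ) → RF → RF
  | r, .add i j k => .add (r i) (r j) (r k)
  | r, .mul i j k => .mul (r i) (r j) (r k)
  | r, .eq i j => .eq (r i) (r j)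
  | r, .lt i j => .lt (r i) (r j)
  | r, .mem i => .mem (r i)
  | r, .neg f => .neg (f.ren r)
  | r, .and f g => .and (f.ren r) (g.ren r)
  | r, .all i f => .all (r i) (f.ren (rl r))

theorem RF.holds_ren (X : M → Prop) : ∀ (f : RF) (r : ℕ → ℕ) (v : ℕ → M),
    (f.ren r).holds X v ↔ f.holds X (fun i => v (r i))
  | .add i j k, r, v => Iff.rfl
  | .mul i j k, r, v => Iff.rfl
  | .eq i j, r, v => Iff.rfl
  | .lt i j, r, v => Iff.rfl
  | .mem i, r, v => Iff.rfl
  | .neg f, r, v => not_congr (RF.holds_ren X f r v)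
  | .and f g, r, v => and_congr (RF.holds_ren X f r v) (RF.holds_ren X g r v)
  | .all i f, r, v => by
    simp only [RF.ren, RF.holds]
    refine forall_congr' fun x => imp_congr_right fun _ => ?_
    rw [RF.holds_ren X f (rl r) (psh x v)]
    have e : (fun i => psh x v (rl r i)) = psh x (fun i => v (r i)) := by
      funext i; cases i <;> rfl
    rw [e]

/-- Bounded existential quantifier. -/
def RF.ex (i : ℕ) (f : RF) : RF := .neg (.all i (.neg f))

theorem holds_ex (X : M → Prop) (i : ℕ) (f : RF) (v : ℕ → M) :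
    (RF.ex i f).holds X v ↔ ∃ x, x < v i ∧ f.holds X (psh x v) := by
  simp only [RF.ex, RF.holds, not_forall, not_not, exists_prop]

variable (X : M → Prop)

/-- Projections and constants. -/
class Vr (g : (ℕ → M) → M) : Prop where
  ex : ∃ (i : ℕ) (c : ℕ → M), ∀ v, g v = mix v c i

/-- Bounded relations with parameters. -/
class DP (R : (ℕ → M) → Prop) : Prop where
  ex : ∃ (f : RF) (c : ℕ → M), ∀ v, R v ↔ f.holds X (mix v c)

/-- `Σ₁` relations with parameters. -/
class S1 (R : (ℕ → M) → Prop) : Prop where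
  ex : ∃ (f : RF) (c : ℕ → M), ∀ v, R v ↔ ∃ y, f.holds X (psh y (mix v c))

instance vr_var (i : ℕ) : Vr (fun v : ℕ → M => v i) :=
  ⟨2 * i, fun _ => 0, fun v => (mix_even v _ i).symm⟩

instance vr_const (d : M) : Vr (fun _ : ℕ → M => d) :=
  ⟨2 * 0 + 1, fun _ => d, fun v => (mix_odd v (fun _ => d) 0).symm⟩

/-! ### Merging of parameters -/

/-- The renaming of `mix v c` in `mix v (mix c c')`. -/
def rL : ℕ → ℕ := mix (fun j => 2 * j) (fun j => 2 * (2 * j) + 1)

/-- The renaming of `mix v c'` in `mix v (mix c c')`. -/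
def rR : ℕ → ℕ := mix (fun j => 2 * j) (fun j => 2 * (2 * j + 1) + 1)

theorem val_rL (v c c' : ℕ → M) : (fun i => mix v (mix c c') (rL i)) = mix v c := by
  unfold rL
  rw [mix_map (fun n => mix v (mix c c') n)]
  simp only [mix_even, mix_odd]

theorem val_rR (v c c' : ℕ → M) : (fun i => mix v (mix c c') (rR i)) = mix v c' := by
  unfold rR
  rw [mix_map (fun n => mix v (mix c c') n)]
  simp only [mix_even, mix_odd]

theorem RF.merge_left (f : RF) (c c' : ℕ → M) (v : ℕ → M) :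
    (f.ren rL).holds X (mix v (mix c c')) ↔ f.holds X (mix v c) := by
  rw [RF.holds_ren, val_rL]

theorem RF.merge_right (f : RF) (c c' : ℕ → M) (v : ℕ → M) :
    (f.ren rR).holds X (mix v (mix c c')) ↔ f.holds X (mix v c') := by
  rw [RF.holds_ren, val_rR]

theorem psh_rl (y : M) (r : ℕ → ℕ) (v : ℕ → M) :
    (fun i => psh y v (rl r i)) = psh y (fun i => v (r i)) := by
  funext i; cases i <;> rfl

theorem RF.merge_left' (f : RF) (c c' : ℕ → M) (y : M) (v : ℕ → M) :
    (f.ren (rl rL)).holds X (psh y (mix v (mix c c'))) ↔ f.holds X (psh y (mix v c)) := by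
  rw [RF.holds_ren, psh_rl, val_rL]

theorem RF.merge_right' (f : RF) (c c' : ℕ → M) (y : M) (v : ℕ → M) :
    (f.ren (rl rR)).holds X (psh y (mix v (mix c c'))) ↔ f.holds X (psh y (mix v c')) := by
  rw [RF.holds_ren, psh_rl, val_rR]

theorem Vr.left {g : (ℕ → M) → M} (hg : Vr g) : ∃ (i : ℕ) (c : ℕ → M), ∀ v c',
    g v = mix v (mix c c') i := by
  obtain ⟨i, c, h⟩ := hg.ex
  refine ⟨rL i, c, fun v c' => ?_⟩
  rw [h, ← congrFun (val_rL v c c') i]

theorem Vr.right {g : (ℕ → M) → M} (hg : Vr g) : ∃ (i : ℕ) (c : ℕ → M), ∀ v c',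
    g v = mix v (mix c' c) i := by
  obtain ⟨i, c, h⟩ := hg.ex
  refine ⟨rR i, c, fun v c' => ?_⟩
  rw [h, ← congrFun (val_rR v c' c) i]

/-! ### Bounded relations -/

variable {X}

theorem DP.congr {R Q : (ℕ → M) → Prop} (h : DP X R) (e : ∀ v, R v ↔ Q v) : DP X Q := by
  obtain ⟨f, c, hf⟩ := h.ex
  exact ⟨⟨f, c, fun v => (e v).symm.trans (hf v)⟩⟩

instance dp_eq {g h : (ℕ → M) → M} [hg : Vr g] [hh : Vr h] : DP X (fun v => g v = h v) := by
  obtain ⟨i, c, hi⟩ := hg.left
  obtain ⟨j, d, hj⟩ := hh.right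
  exact ⟨⟨.eq i j, mix c d, fun v => by simp only [RF.holds, ← hi, ← hj]⟩⟩

instance dp_lt {g h : (ℕ → M) → M} [hg : Vr g] [hh : Vr h] : DP X (fun v => g v < h v) := by
  obtain ⟨i, c, hi⟩ := hg.left
  obtain ⟨j, d, hj⟩ := hh.right
  exact ⟨⟨.lt i j, mix c d, fun v => by simp only [RF.holds, ← hi, ← hj]⟩⟩

theorem dp_not' {R : (ℕ → M) → Prop} (hR : DP X R) : DP X (fun v => ¬ R v) := by
  obtain ⟨f, c, hf⟩ := hR.ex
  exact ⟨⟨.neg f, c, fun v => by simp only [RF.holds, hf]⟩⟩

instance dp_not {R : (ℕ → M) → Prop} [hR : DP X R] : DP X (fun v => ¬ R v) := dp_not' hR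

instance dp_and {R Q : (ℕ → M) → Prop} [hR : DP X R] [hQ : DP X Q] :
    DP X (fun v => R v ∧ Q v) := by
  obtain ⟨f, c, hf⟩ := hR.ex
  obtain ⟨g, d, hg⟩ := hQ.ex
  exact ⟨⟨.and (f.ren rL) (g.ren rR), mix c d, fun v => by
    simp only [RF.holds, RF.merge_left, RF.merge_right, hf, hg]⟩⟩

instance dp_or {R Q : (ℕ → M) → Prop} [hR : DP X R] [hQ : DP X Q] : DP X (fun v => R v ∨ Q v) :=
  DP.congr (R := fun v => ¬ (¬ R v ∧ ¬ Q v)) inferInstance (fun v => by tauto)

instance dp_imp {R Q : (ℕ → M) → Prop} [hR : DP X R] [hQ : DP X Q] : DP X (fun v => (R v → Q v)) :=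
  DP.congr (R := fun v => ¬ (R v ∧ ¬ Q v)) inferInstance (fun v => by tauto)

instance dp_iff {R Q : (ℕ → M) → Prop} [hR : DP X R] [hQ : DP X Q] :
    DP X (fun v => (R v ↔ Q v)) :=
  DP.congr (R := fun v => (R v → Q v) ∧ (Q v → R v)) inferInstance (fun v => by tauto)

/-- The renaming that turns the valuation `x, mix v c` into `mix (x, v) c`. -/
def sPsh : ℕ → ℕ := mix (psh 0 (fun j => 2 * j + 1)) (fun j => 2 * j + 1 + 1)

theorem val_sPsh (x : M) (v c : ℕ → M) :
    (fun i => psh x (mix v c) (sPsh i)) = mix (psh x v) c := by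
  unfold sPsh
  rw [mix_map (fun n => psh x (mix v c) n)]
  congr 1
  · rw [psh_map (fun n => psh x (mix v c) n)]
    simp only [psh, mix_even]
  · simp only [psh, mix_odd]

theorem dp_all' {g : (ℕ → M) → M} {R : M → (ℕ → M) → Prop} (hg : Vr g)
    (hR : DP X (fun v => R (v 0) (fun i => v (i + 1)))) :
    DP X (fun v => ∀ x, x < g v → R x v) := by
  obtain ⟨i, c, hi⟩ := hg.left
  obtain ⟨f, d, hf⟩ := hR.ex
  refine ⟨⟨.all i ((f.ren rR).ren sPsh), mix c d, fun v => ?_⟩⟩
  simp only [RF.holds, ← hi]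
  refine forall_congr' fun x => imp_congr_right fun _ => ?_
  rw [RF.holds_ren, val_sPsh, RF.merge_right, ← hf]
  rfl

instance dp_all {g : (ℕ → M) → M} {R : M → (ℕ → M) → Prop} [hg : Vr g]
    [hR : DP X (fun v => R (v 0) (fun i => v (i + 1)))] :
    DP X (fun v => ∀ x, x < g v → R x v) := dp_all' hg hR

instance dp_ex {g : (ℕ → M) → M} {R : M → (ℕ → M) → Prop} [hg : Vr g]
    [hR : DP X (fun v => R (v 0) (fun i => v (i + 1)))] :
    DP X (fun v => ∃ x, x < g v ∧ R x v) :=
  DP.congr (R := fun v => ¬ ∀ x, x < g v → ¬ R x v) inferInstance (fun v => by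
    simp only [not_forall, not_not, exists_prop])

/-- The merged parameters of countably many parametrised variables. -/
def mrg (c : ℕ → ℕ → M) : ℕ → M := fun m => c m.unpair.1 m.unpair.2

/-- Code of a variable over `mix v (c i)` as a variable over `mix v (mix c0 (mrg c))`. -/
def rM (i n : ℕ) : ℕ := if n % 2 = 0 then n else 2 * (2 * (Nat.pair i (n / 2)) + 1) + 1

theorem val_rM (i n : ℕ) (v c0 : ℕ → M) (c : ℕ → ℕ → M) :
    mix v (mix c0 (mrg c)) (rM i n) = mix v (c i) n := by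
  unfold rM
  split_ifs with h
  · obtain ⟨j, rfl⟩ : ∃ j, n = 2 * j := ⟨n / 2, by omega⟩
    simp only [mix_even]
  · obtain ⟨j, rfl⟩ : ∃ j, n = 2 * j + 1 := ⟨n / 2, by omega⟩
    have : (2 * j + 1) / 2 = j := by omega
    rw [this]
    simp only [mix_odd, mrg, Nat.unpair_pair]

/-- Substitution of parametrised variables in a bounded relation. -/
theorem DP.sub {R : (ℕ → M) → Prop} (hR : DP X R) {g : ℕ → (ℕ → M) → M} (hg : ∀ i, Vr (g i)) :
    DP X (fun v => R (fun i => g i v)) := by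
  obtain ⟨f, c, hf⟩ := hR.ex
  choose t d ht using fun i => (hg i).ex
  refine ⟨⟨f.ren (mix (fun i => rM i (t i)) (fun j => 2 * (2 * j) + 1)), mix c (mrg d),
    fun v => ?_⟩⟩
  rw [RF.holds_ren, mix_map (fun n => mix v (mix c (mrg d)) n), hf]
  simp only [mix_odd, mix_even, val_rM, ← ht]

/-! ### `Σ₁` relations -/

theorem S1.congr {R Q : (ℕ → M) → Prop} (h : S1 X R) (e : ∀ v, R v ↔ Q v) : S1 X Q := by
  obtain ⟨f, c, hf⟩ := h.ex
  exact ⟨⟨f, c, fun v => (e v).symm.trans (hf v)⟩⟩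

/-- Bounded relations are `Σ₁`. -/
theorem S1.of_dp {R : (ℕ → M) → Prop} (hR : DP X R) : S1 X R := by
  obtain ⟨f, c, hf⟩ := hR.ex
  refine ⟨⟨f.ren (fun i => i + 1), c, fun v => ?_⟩⟩
  simp only [RF.holds_ren, psh, hf]
  exact ⟨fun h => ⟨0, h⟩, fun ⟨_, h⟩ => h⟩

/-- A witness for a bounded relation. -/
theorem S1.of_ex {R : M → (ℕ → M) → Prop} (hR : DP X (fun v => R (v 0) (fun i => v (i + 1)))) :
    S1 X (fun v => ∃ y, R y v) := by
  obtain ⟨f, c, hf⟩ := hR.ex
  refine ⟨⟨f.ren sPsh, c, fun v => exists_congr fun y => ?_⟩⟩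
  rw [RF.holds_ren, val_sPsh, ← hf]
  rfl

/-- The bounded relation of a `Σ₁` relation. -/
theorem S1.dp {R : (ℕ → M) → Prop} (hR : S1 X R) : ∃ Q : M → (ℕ → M) → Prop,
    DP X (fun v => Q (v 0) (fun i => v (i + 1))) ∧ ∀ v, R v ↔ ∃ y, Q y v := by
  obtain ⟨f, c, hf⟩ := hR.ex
  refine ⟨fun y v => f.holds X (psh y (mix v c)), ?_, hf⟩
  refine ⟨⟨f.ren (psh (2 * 0) (mix (fun j => 2 * (j + 1)) (fun j => 2 * j + 1))), c,
    fun v => ?_⟩⟩
  rw [RF.holds_ren, psh_map (fun n => mix v c n), mix_map (fun n => mix v c n)]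
  simp only [mix_even, mix_odd]

/-- Substitution of parametrised variables in a `Σ₁` relation. -/
theorem S1.sub {R : (ℕ → M) → Prop} (hR : S1 X R) {g : ℕ → (ℕ → M) → M} (hg : ∀ i, Vr (g i)) :
    S1 X (fun v => R (fun i => g i v)) := by
  obtain ⟨Q, hQ, h⟩ := hR.dp
  have h1 : DP X (fun v : ℕ → M => Q (v 0) (fun i => g i (fun j => v (j + 1)))) := by
    have h2 := DP.sub hQ (g := fun i v => match i with
      | 0 => v 0
      | i + 1 => g i (fun j => v (j + 1))) (fun i => by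
        cases i with
        | zero => exact vr_var 0
        | succ i =>
          obtain ⟨n, c, hn⟩ := (hg i).ex
          refine ⟨⟨if n % 2 = 0 then n + 2 else n, c, fun v => ?_⟩⟩
          simp only [hn]
          split_ifs with h
          · obtain ⟨j, rfl⟩ : ∃ j, n = 2 * j := ⟨n / 2, by omega⟩
            have e : 2 * j + 2 = 2 * (j + 1) := by ring
            rw [e]; simp only [mix_even]
          · obtain ⟨j, rfl⟩ : ∃ j, n = 2 * j + 1 := ⟨n / 2, by omega⟩
            simp only [mix_odd])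
    exact h2
  refine S1.congr (S1.of_ex (R := fun y v => Q y (fun i => g i v)) h1) (fun v => (h _).symm)

theorem exists_gt2 (x y : M) : ∃ z, x < z ∧ y < z := by
  refine ⟨x + y + 1, ?_, ?_⟩
  · exact lt_of_le_of_lt (le_self_add) (lt_add_of_pos_right _ zero_lt_one)
  · exact lt_of_le_of_lt (le_add_self) (lt_add_of_pos_right _ zero_lt_one)

theorem S1.and {R Q : (ℕ → M) → Prop} (hR : S1 X R) (hQ : S1 X Q) :
    S1 X (fun v => R v ∧ Q v) := by
  obtain ⟨R', hR', h⟩ := hR.dp
  obtain ⟨Q', hQ', h'⟩ := hQ.dp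
  have k1 : DP X (fun v : ℕ → M => R' (v 0) (fun i => v (i + 1 + 1))) :=
    DP.sub hR' (g := fun i v => match i with | 0 => v 0 | i + 1 => v (i + 1 + 1)) (fun i => by
      cases i with
      | zero => exact vr_var 0
      | succ i => exact vr_var _)
  have k2 : DP X (fun v : ℕ → M => Q' (v 0) (fun i => v (i + 1 + 1))) :=
    DP.sub hQ' (g := fun i v => match i with | 0 => v 0 | i + 1 => v (i + 1 + 1)) (fun i => by
      cases i with
      | zero => exact vr_var 0
      | succ i => exact vr_var _)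
  have k3 := S1.of_ex (R := fun w v => (∃ y, y < w ∧ R' y v) ∧ ∃ z, z < w ∧ Q' z v)
    (@dp_and _ _ _ _ _ (@dp_ex _ _ _ (fun v => v 0) (fun y v => R' y (fun i => v (i + 1))) _ k1)
      (@dp_ex _ _ _ (fun v => v 0) (fun y v => Q' y (fun i => v (i + 1))) _ k2))
  refine S1.congr k3 fun v => ?_
  rw [h, h']
  constructor
  · rintro ⟨w, ⟨y, _, hy⟩, z, _, hz⟩
    exact ⟨⟨y, hy⟩, z, hz⟩
  · rintro ⟨⟨y, hy⟩, z, hz⟩
    obtain ⟨w, h1, h2⟩ := exists_gt2 y z
    exact ⟨w, ⟨y, h1, hy⟩, z, h2, hz⟩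

theorem S1.or {R Q : (ℕ → M) → Prop} (hR : S1 X R) (hQ : S1 X Q) :
    S1 X (fun v => R v ∨ Q v) := by
  obtain ⟨R', hR', h⟩ := hR.dp
  obtain ⟨Q', hQ', h'⟩ := hQ.dp
  refine S1.congr (S1.of_ex (R := fun w v => R' w v ∨ Q' w v) (@dp_or _ _ _ _ _ hR' hQ'))
    fun v => ?_
  rw [h, h']
  exact exists_or

theorem S1.exists {R : M → (ℕ → M) → Prop}
    (hR : S1 X (fun v => R (v 0) (fun i => v (i + 1)))) : S1 X (fun v => ∃ x, R x v) := by
  obtain ⟨R', hR', h⟩ := hR.dp
  have k1 : DP X (fun v : ℕ → M => R' (v 0) (psh (v 1) (fun i => v (i + 3)))) :=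
    DP.congr (DP.sub hR' (g := fun i v => match i with
      | 0 => v 0
      | 1 => v 1
      | i + 2 => v (i + 3)) (fun i => by
        match i with
        | 0 => exact vr_var 0
        | 1 => exact vr_var 1
        | i + 2 => exact vr_var _)) (fun v => by
          have e : (fun i => (match i + 1 with
              | 0 => v 0
              | 1 => v 1
              | i + 2 => v (i + 3) : M)) = psh (v 1) (fun i => v (i + 3)) := by
            funext i; cases i <;> rfl
          rw [← e])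
  have k2 : DP X (fun v : ℕ → M => ∃ x, x < v 0 ∧ ∃ y, y < v 0 ∧
      R' y (psh x (fun i => v (i + 1)))) := by
    refine @dp_ex _ _ _ (fun v => v 0) (fun x v => ∃ y, y < v 0 ∧
      R' y (psh x (fun i => v (i + 1)))) _ ?_
    exact @dp_ex _ _ _ (fun v => v 1) (fun y v => R' y (psh (v 0) (fun i => v (i + 2)))) _ k1
  refine S1.congr (S1.of_ex (R := fun w v => ∃ x, x < w ∧ ∃ y, y < w ∧ R' y (psh x v)) k2)
    fun v => ?_
  constructor
  · rintro ⟨w, x, _, y, _, hy⟩
    exact ⟨x, (h (psh x v)).2 ⟨y, hy⟩⟩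
  · rintro ⟨x, hx⟩
    obtain ⟨y, hy⟩ := (h (psh x v)).1 hx
    obtain ⟨w, h1, h2⟩ := exists_gt2 x y
    exact ⟨w, x, h1, y, h2, hy⟩

end Pool.Agent.PD2
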