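import Pool.Agent.Work.MP_a6ae3a_lc.Stmt
import Pool.Agent.Work.MP_a6ae3a_lc.Syn

/-!
# The structure of second order arithmetic over a model of `PA⁻` (definition)
-/

namespace Pool.Agent.PD2

/-- The structure of second order arithmetic over a model of `PA⁻`. -/
def ofPAM (M : Type) [PAM M] (S : Set (Set M)) (h : S.Nonempty) : Str where
  M := M
  zero := 0
  one := 1
  add := fun x y => x + y
  mul := fun x y => x * y
  lt := fun x y => x < y
  S := S
  nonempty := h

end Pool.Agent.PD2
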