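import Pool.Agent.Work.MP_a6ae3a_lc.Pure
import Pool.Agent.Work.MP_a6ae3a_lc.OfPAM

/-!
# Iteration of the one step theorem `ω` times

`omega_model`: if every good set `X` and every limit approximation `F` which is `Δ₁(X)` have a good
extension with a homogeneous infinite set, then there is a family `S` of sets, locally computable
from good sets, closed under homogeneous sets.
-/

namespace Pool.Agent.PD2

/-! ### Bookkeeping -/

section book

variable {α τ : Type} (nx : α → τ → α) (en : α → ℕ → τ)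

/-- The history of the construction. -/
noncomputable def hist (a0 : α) : ℕ → ℕ → α
  | 0 => fun _ => a0
  | n + 1 => Function.update (hist a0 n) (n + 1)
      (nx (hist a0 n n) (en (hist a0 n (Nat.unpair n).1) (Nat.unpair n).2))

theorem hist_stable (a0 : α) {n m : ℕ} (h : n ≤ m) : hist nx en a0 m n = hist nx en a0 n n := by
  induction m, h using Nat.le_induction with
  | base => rfl
  | succ m hm ih =>
    have h1 : n ≠ m + 1 := by omega
    simp only [hist, Function.update_of_ne h1]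
    exact ih

/-- The sequence. -/
noncomputable def chn (a0 : α) (n : ℕ) : α := hist nx en a0 n n

theorem chn_succ (a0 : α) (n : ℕ) : chn nx en a0 (n + 1) =
    nx (chn nx en a0 n) (en (chn nx en a0 (Nat.unpair n).1) (Nat.unpair n).2) := by
  unfold chn
  rw [← hist_stable nx en a0 (Nat.unpair_left_le n)]
  simp only [hist, Function.update_self]

/-- Every task of every stage is treated at a later stage. -/
theorem chn_task (a0 : α) (i j : ℕ) : ∃ m, i ≤ m ∧ chn nx en a0 (m + 1) =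
    nx (chn nx en a0 m) (en (chn nx en a0 i) j) := by
  refine ⟨Nat.pair i j, Nat.left_le_pair i j, ?_⟩
  rw [chn_succ]
  simp only [Nat.unpair_pair]

end book

variable {M : Type} [PAM M]

/-! ### There are only countably many `Δ₁(X)` sets -/

deriving instance Encodable for RF

theorem countable_d1 [Countable M] (X : M → Prop) :
    {A : M → Prop | D1 X (fun v => A (v 0))}.Countable := by
  let g : (Σ f : RF, (Fin f.bd → M)) → (M → Prop) := fun p x =>
    ∃ y, p.1.holds X (psh y (mix (fun _ => x) (fun j => if h : j < p.1.bd then p.2 ⟨j, h⟩ else 0)))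
  refine Set.Countable.mono ?_ (Set.countable_range g)
  intro A hA
  have hA' : D1 X (fun v => A (v 0)) := hA
  obtain ⟨f, c, hf⟩ := hA'.s.ex
  refine ⟨⟨f, fun j => c j⟩, ?_⟩
  funext x
  refine propext ?_
  refine Iff.trans ?_ (hf fun _ => x).symm
  refine exists_congr fun y => RF.holds_congr f fun i hi => ?_
  cases i with
  | zero => rfl
  | succ i =>
    simp only [psh_succ]
    unfold mix
    split_ifs with h1
    · rfl
    · have h2 : i / 2 < f.bd := by omega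
      simp only [h2, dif_pos]

/-! ### Limit approximations -/

/-- `F` is (the set of pairs with value `1` of) a limit approximation. -/
def LimOk (F : M → Prop) : Prop := ∀ x, ∃ s0, ∀ s, s0 ≤ s →
  (F ((x + s) * (x + s) + x) ↔ F ((x + s0) * (x + s0) + x))

/-- The limit is `1`. -/
def Lim1 (F : M → Prop) (x : M) : Prop := ∃ s0, ∀ s, s0 ≤ s → F ((x + s) * (x + s) + x)

/-- The limit is `0`. -/
def Lim0 (F : M → Prop) (x : M) : Prop := ∃ s0, ∀ s, s0 ≤ s → ¬ F ((x + s) * (x + s) + x)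

/-- There is an infinite homogeneous set for the limit of `F` which is `Δ₁(X)`. -/
def Slv (F X : M → Prop) : Prop := ∃ H : M → Prop, D1 X (fun v => H (v 0)) ∧
  (∀ x, ∃ y, x < y ∧ H y) ∧ ((∀ x, H x → Lim1 F x) ∨ (∀ x, H x → Lim0 F x))

/-! ### The model -/

/-- The iteration. -/
theorem omega_chain [Countable M] (G : (M → Prop) → Prop) (hI : ∀ X, G X → C1 X)
    (step : ∀ X, G X → ∀ F : M → Prop, D1 X (fun v => F (v 0)) → LimOk F →
      ∃ X', G X' ∧ D1 X' (fun v => X (v 0)) ∧ Slv F X')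
    (X0 : M → Prop) (h0 : G X0) : ∃ X : ℕ → M → Prop, X 0 = X0 ∧ (∀ n, G (X n)) ∧
      (∀ n m, n ≤ m → D1 (X m) (fun v => X n (v 0))) ∧
      ∀ n F, D1 (X n) (fun v => F (v 0)) → LimOk F → ∃ m, Slv F (X m) := by
  classical
  have hstep : ∀ (a : {X : M → Prop // G X}) (F : M → Prop), ∃ b : {X : M → Prop // G X},
      D1 b.1 (fun v => a.1 (v 0)) ∧ (D1 a.1 (fun v => F (v 0)) → LimOk F → Slv F b.1) := by
    rintro ⟨X, hX⟩ F
    by_cases h : D1 X (fun v => F (v 0)) ∧ LimOk F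
    · obtain ⟨X', h1, h2, h3⟩ := step X hX F h.1 h.2
      exact ⟨⟨X', h1⟩, h2, fun _ _ => h3⟩
    · exact ⟨⟨X, hX⟩, d1_mem, fun h1 h2 => absurd ⟨h1, h2⟩ h⟩
  choose nx hnx1 hnx2 using hstep
  have hen : ∀ a : {X : M → Prop // G X}, ∃ e : ℕ → (M → Prop),
      ∀ F, D1 a.1 (fun v => F (v 0)) → ∃ j, e j = F := by
    intro a
    obtain ⟨e, he⟩ := (countable_d1 a.1).exists_eq_range ⟨fun _ => False, d1_const False⟩
    exact ⟨e, fun F hF => by
      have : F ∈ Set.range e := he ▸ hF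
      exact this⟩
  choose en hen using hen
  let Z : ℕ → {X : M → Prop // G X} := chn nx en ⟨X0, h0⟩
  have hmono : ∀ n m, n ≤ m → D1 (Z m).1 (fun v => (Z n).1 (v 0)) := by
    intro n m h
    induction m, h using Nat.le_induction with
    | base => exact d1_mem
    | succ m hm ih =>
      have h1 : D1 (Z (m + 1)).1 (fun v => (Z m).1 (v 0)) := by
        have h2 := hnx1 (Z m) (en (Z (Nat.unpair m).1) (Nat.unpair m).2)
        rw [← chn_succ nx en ⟨X0, h0⟩ m] at h2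
        exact h2
      have : C1 (Z (m + 1)).1 := hI _ (Z (m + 1)).2
      exact D1.trans h1 ih
  refine ⟨fun n => (Z n).1, rfl, fun n => (Z n).2, hmono, fun n F hF hL => ?_⟩
  obtain ⟨j, hj⟩ := hen (Z n) F hF
  obtain ⟨m, hm, h1⟩ := chn_task nx en ⟨X0, h0⟩ n j
  refine ⟨m + 1, ?_⟩
  have h2 : D1 (Z m).1 (fun v => F (v 0)) := by
    have : C1 (Z m).1 := hI _ (Z m).2
    exact D1.trans (hmono n m hm) hF
  have h3 := hnx2 (Z m) F h2 hL
  rw [← hj] at h3
  change Slv F (chn nx en ⟨X0, h0⟩ (m + 1)).1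
  rw [h1]
  rw [← hj]
  exact h3

/-- The family of sets of the iteration. -/
theorem omega_model [Countable M] (G : (M → Prop) → Prop) (hI : ∀ X, G X → C1 X)
    (step : ∀ X, G X → ∀ F : M → Prop, D1 X (fun v => F (v 0)) → LimOk F →
      ∃ X', G X' ∧ D1 X' (fun v => X (v 0)) ∧ Slv F X')
    (X0 : M → Prop) (h0 : G X0) : ∃ S : Set (Set M),
      (∀ A : Set M, D1 X0 (fun v => v 0 ∈ A) → A ∈ S) ∧
      (∀ w : ℕ → Set M, (∀ i, w i ∈ S) → ∀ n : ℕ, ∃ X, G X ∧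
        (∀ i, i < n → D1 X (fun v => v 0 ∈ w i)) ∧
        ∀ A : Set M, D1 X (fun v => v 0 ∈ A) → A ∈ S) ∧
      ∀ F ∈ S, LimOk (fun x => x ∈ F) → ∃ H ∈ S, (∀ x, ∃ y, x < y ∧ y ∈ H) ∧
        ((∀ x ∈ H, Lim1 (fun x => x ∈ F) x) ∨ (∀ x ∈ H, Lim0 (fun x => x ∈ F) x)) := by
  obtain ⟨X, e0, hG, hmono, hS⟩ := omega_chain G hI step X0 h0
  refine ⟨{A | ∃ n, D1 (X n) (fun v => v 0 ∈ A)}, fun A hA => ⟨0, e0 ▸ hA⟩, ?_, ?_⟩
  · intro w hw n
    choose k hk using hw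
    refine ⟨X ((Finset.range n).sup k), hG _, fun i hi => ?_, fun A hA => ⟨_, hA⟩⟩
    have h1 : k i ≤ (Finset.range n).sup k := Finset.le_sup (Finset.mem_range.2 hi)
    have : C1 (X ((Finset.range n).sup k)) := hI _ (hG _)
    exact D1.trans (hmono _ _ h1) (hk i)
  · rintro F ⟨n, hF⟩ hL
    obtain ⟨m, H, h1, h2, h3⟩ := hS n (fun x => x ∈ F) hF hL
    exact ⟨{x | H x}, ⟨m, h1⟩, h2, h3⟩

/-! ### `P(Δ⁰₂)` -/

section

variable (H : Str) {v : ℕ → H.M} {w : ℕ → Set H.M}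

theorem om_or {φ ψ : Fm} : H.Sat (.or φ ψ) v w ↔ (H.Sat φ v w ∨ H.Sat ψ v w) := by
  simp only [Fm.or, Str.Sat]
  tauto

theorem om_imp {φ ψ : Fm} : H.Sat (.imp φ ψ) v w ↔ (H.Sat φ v w → H.Sat ψ v w) := by
  simp only [Fm.imp, Str.Sat]
  tauto

theorem om_iff {φ ψ : Fm} : H.Sat (.iff φ ψ) v w ↔ (H.Sat φ v w ↔ H.Sat ψ v w) := by
  simp only [Fm.iff, Fm.imp, Str.Sat]
  tauto

theorem om_ex {φ : Fm} {i : ℕ} : H.Sat (.ex i φ) v w ↔
    ∃ x : H.M, H.Sat φ (Function.update v i x) w := by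
  simp only [Fm.ex, Str.Sat, not_forall, not_not]

theorem om_exS {φ : Fm} {i : ℕ} : H.Sat (.exS i φ) v w ↔
    ∃ Z : Set H.M, Z ∈ H.S ∧ H.Sat φ v (Function.update w i Z) := by
  simp only [Fm.exS, Str.Sat, not_forall, not_not, exists_prop]

/-- The pair of two numbers. -/
def Str.pr (x s : H.M) : H.M := H.add (H.mul (H.add x s) (H.add x s)) x

theorem om_limOk : H.Sat limOk v w ↔ ∀ x, ∃ y, ∀ z, (H.lt y z ∨ y = z) →
    (H.pr x z ∈ w 0 ↔ H.pr x y ∈ w 0) := by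
  simp only [limOk, Str.Sat, om_ex, om_imp, om_or, om_iff, Str.val, prT, Str.pr]
  rfl

theorem om_lim1 : H.Sat lim1 v w ↔ ∃ y, ∀ z, (H.lt y z ∨ y = z) → H.pr (v 0) z ∈ w 0 := by
  simp only [lim1, Str.Sat, om_ex, om_imp, om_or, Str.val, prT, Str.pr]
  rfl

theorem om_lim0 : H.Sat lim0 v w ↔ ∃ y, ∀ z, (H.lt y z ∨ y = z) → ¬ H.pr (v 0) z ∈ w 0 := by
  simp only [lim0, Str.Sat, om_ex, om_imp, om_or, Str.val, prT, Str.pr]
  rfl

theorem om_inf : H.Sat infSet v w ↔ ∀ x, ∃ y, H.lt x y ∧ y ∈ w 1 := by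
  simp only [infSet, Str.Sat, om_ex, Str.val]
  rfl

theorem om_pd : H.Sat PDelta2 v w ↔ ∀ F, F ∈ H.S →
    (∀ x, ∃ y, ∀ z, (H.lt y z ∨ y = z) → (H.pr x z ∈ F ↔ H.pr x y ∈ F)) →
    ∃ A, A ∈ H.S ∧ (∀ x, ∃ y, H.lt x y ∧ y ∈ A) ∧
    ((∀ x, x ∈ A → ∃ y, ∀ z, (H.lt y z ∨ y = z) → H.pr x z ∈ F) ∨
      (∀ x, x ∈ A → ∃ y, ∀ z, (H.lt y z ∨ y = z) → ¬ H.pr x z ∈ F)) := by
  simp only [PDelta2, Str.Sat, om_imp, om_exS, om_or, om_limOk, om_lim1, om_lim0, om_inf, Str.val]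
  rfl

end

/-- `P(Δ⁰₂)` is true in `ofPAM M S h` if `S` is closed under homogeneous sets. -/
theorem ofPAM_valid_PDelta2 {S : Set (Set M)} {hS : S.Nonempty}
    (h : ∀ F ∈ S, LimOk (fun x => x ∈ F) → ∃ H ∈ S, (∀ x, ∃ y, x < y ∧ y ∈ H) ∧
      ((∀ x ∈ H, Lim1 (fun x => x ∈ F) x) ∨ (∀ x ∈ H, Lim0 (fun x => x ∈ F) x))) :
    (ofPAM M S hS).Valid PDelta2 := by
  intro v w _
  rw [om_pd]
  intro F hF hL
  obtain ⟨A, hA, h1, h2⟩ := h F hF (fun x => by
    obtain ⟨y, hy⟩ := hL x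
    exact ⟨y, fun z hz => hy z (le_iff_lt_or_eq.1 hz)⟩)
  refine ⟨A, hA, h1, ?_⟩
  rcases h2 with h2 | h2
  · left
    intro x hx
    obtain ⟨y, hy⟩ := h2 x hx
    exact ⟨y, fun z hz => hy z (le_iff_lt_or_eq.2 hz)⟩
  · right
    intro x hx
    obtain ⟨y, hy⟩ := h2 x hx
    exact ⟨y, fun z hz => hy z (le_iff_lt_or_eq.2 hz)⟩

end Pool.Agent.PD2
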