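import Pool.Agent.Work.MP_a6ae3a_lc.OfPAM

/-!
# Structures of second order arithmetic whose numbers are a model of `PA⁻`

`Str.eq_ofPAM`: a structure in which the axioms `PAminus` are true is `ofPAM M S h` for some
`PAM M`. `ofPAM_valid_PAminus`: in `ofPAM M S h` the axioms `PAminus` are true.
-/

namespace Pool.Agent.PD2

/-- The axioms of `PA⁻` for bare operations. -/
structure PAAx {M : Type} (z o : M) (ad mu : M → M → M) (lt : M → M → Prop) : Prop where
  add_assoc : ∀ x y w, ad (ad x y) w = ad x (ad y w)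
  add_comm : ∀ x y, ad x y = ad y x
  mul_assoc : ∀ x y w, mu (mu x y) w = mu x (mu y w)
  mul_comm : ∀ x y, mu x y = mu y x
  distrib : ∀ x y w, mu x (ad y w) = ad (mu x y) (mu x w)
  add_zero : ∀ x, ad x z = x
  mul_zero : ∀ x, mu x z = z
  mul_one : ∀ x, mu x o = x
  lt_trans : ∀ x y w, lt x y → lt y w → lt x w
  lt_irrefl : ∀ x, ¬ lt x x
  lt_tri : ∀ x y, lt x y ∨ x = y ∨ lt y x
  add_lt : ∀ x y w, lt x y → lt (ad x w) (ad y w)
  mul_lt : ∀ x y w, lt z w → lt x y → lt (mu x w) (mu y w)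
  sub : ∀ x y, lt x y → ∃ w, ad x w = y
  zero_lt_one : lt z o
  one_le : ∀ x, lt z x → lt o x ∨ o = x
  zero_le : ∀ x, lt z x ∨ z = x

namespace PAAx

variable {M : Type} {z o : M} {ad mu : M → M → M} {lt : M → M → Prop}

/-- The linear order. -/
@[reducible] noncomputable def toLO (h : PAAx z o ad mu lt) : LinearOrder M where
  le x y := lt x y ∨ x = y
  lt := lt
  le_refl x := Or.inr rfl
  le_trans x y w hxy hyw := by
    rcases hxy with hxy | rfl
    · rcases hyw with hyw | rfl
      · exact Or.inl (h.lt_trans _ _ _ hxy hyw)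
      · exact Or.inl hxy
    · exact hyw
  le_antisymm x y hxy hyx := by
    rcases hxy with hxy | rfl
    · rcases hyx with hyx | rfl
      · exact absurd (h.lt_trans _ _ _ hxy hyx) (h.lt_irrefl _)
      · rfl
    · rfl
  le_total x y := by
    rcases h.lt_tri x y with h1 | h1 | h1
    · exact Or.inl (Or.inl h1)
    · exact Or.inl (Or.inr h1)
    · exact Or.inr (Or.inl h1)
  lt_iff_le_not_ge x y := by
    constructor
    · intro hxy
      refine ⟨Or.inl hxy, ?_⟩
      rintro (hyx | rfl)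
      · exact h.lt_irrefl _ (h.lt_trans _ _ _ hxy hyx)
      · exact h.lt_irrefl _ hxy
    · rintro ⟨hxy | rfl, h2⟩
      · exact hxy
      · exact absurd (Or.inr rfl) h2
  toDecidableLE := Classical.decRel _
  toDecidableEq := Classical.decEq _
  toDecidableLT := Classical.decRel _

/-- The semiring. -/
@[reducible] def toCS (h : PAAx z o ad mu lt) : CommSemiring M where
  add := ad
  zero := z
  mul := mu
  one := o
  add_assoc := h.add_assoc
  add_comm := h.add_comm
  zero_add x := (h.add_comm _ _).trans (h.add_zero x)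
  add_zero := h.add_zero
  mul_assoc := h.mul_assoc
  mul_comm := h.mul_comm
  one_mul x := (h.mul_comm _ _).trans (h.mul_one x)
  mul_one := h.mul_one
  zero_mul x := (h.mul_comm _ _).trans (h.mul_zero x)
  mul_zero := h.mul_zero
  left_distrib := h.distrib
  right_distrib x y w := by
    have e := h.distrib w x y
    change mu (ad x y) w = ad (mu x w) (mu y w)
    rw [h.mul_comm (ad x y) w, e, h.mul_comm w x, h.mul_comm w y]
  nsmul := @nsmulRec M ⟨z⟩ ⟨ad⟩
  nsmul_zero _ := rfl
  nsmul_succ _ _ := rfl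
  npow := @npowRec M ⟨o⟩ ⟨mu⟩
  npow_zero _ := rfl
  npow_succ _ _ := rfl

theorem le_add (h : PAAx z o ad mu lt) (x y : M) : lt x (ad x y) ∨ x = ad x y := by
  rcases h.zero_le y with hy | rfl
  · left
    have h1 := h.add_lt z y x hy
    rw [h.add_comm z x, h.add_zero, h.add_comm y x] at h1
    exact h1
  · right
    exact (h.add_zero x).symm

/-- The model of `PA⁻`. -/
@[reducible] noncomputable def toPAM (h : PAAx z o ad mu lt) : PAM M :=
  letI i1 : CommSemiring M := h.toCS
  letI i2 : LinearOrder M := h.toLO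
  { i1, i2 with
    add_le_add_left := by
      rintro x y (hxy | rfl) w
      · exact Or.inl (h.add_lt _ _ _ hxy)
      · exact Or.inr rfl
    le_of_add_le_add_left := by
      intro w x y hxy
      change lt (ad w x) (ad w y) ∨ ad w x = ad w y at hxy
      change lt x y ∨ x = y
      rcases h.lt_tri x y with h1 | h1 | h1
      · exact Or.inl h1
      · exact Or.inr h1
      · have h2 := h.add_lt _ _ w h1
        rw [h.add_comm y w, h.add_comm x w] at h2
        rcases hxy with h3 | h3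
        · exact absurd (h.lt_trans _ _ _ h2 h3) (h.lt_irrefl _)
        · rw [h3] at h2
          exact absurd h2 (h.lt_irrefl _)
    zero_le_one := Or.inl h.zero_lt_one
    exists_pair_ne := ⟨z, o, fun e => h.lt_irrefl z (by
      have := h.zero_lt_one
      rw [← e] at this
      exact this)⟩
    mul_lt_mul_of_pos_left := by
      intro w hw x y hxy
      change lt (mu w x) (mu w y)
      rw [h.mul_comm w x, h.mul_comm w y]
      exact h.mul_lt _ _ _ hw hxy
    mul_lt_mul_of_pos_right := by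
      intro w hw x y hxy
      exact h.mul_lt _ _ _ hw hxy
    exists_add_of_le := by
      rintro x y (hxy | rfl)
      · obtain ⟨w, hw⟩ := h.sub _ _ hxy
        exact ⟨w, hw.symm⟩
      · exact ⟨z, (h.add_zero x).symm⟩
    le_self_add := fun x y => h.le_add x y
    le_add_self := fun x y => by
      change lt x (ad y x) ∨ x = ad y x
      rw [h.add_comm y x]
      exact h.le_add x y
    one_le := fun x hx => h.one_le x hx }

end PAAx

/-- An axiom without set variables, evaluated. -/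
theorem Str.Valid.inst {H : Str} {φ : Fm} (h : H.Valid φ) (x y w : H.M) :
    ∃ A : ℕ → Set H.M, H.Sat φ (psh x (psh y (fun _ => w))) A := by
  obtain ⟨A, hA⟩ := H.nonempty
  exact ⟨fun _ => A, h _ _ fun _ => hA⟩

/-- The axioms `PAminus` give the bare axioms. -/
theorem Str.paAx (H : Str) (h : ∀ ψ ∈ PAminus, H.Valid ψ) :
    PAAx H.zero H.one H.add H.mul H.lt where
  add_assoc x y w := by
    obtain ⟨A, hA⟩ := (h (.eq (.add (.add (tx 0) (tx 1)) (tx 2)) (.add (tx 0) (.add (tx 1) (tx 2))))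
      (by simp [PAminus])).inst x y w
    exact hA
  add_comm x y := by
    obtain ⟨A, hA⟩ := (h (.eq (.add (tx 0) (tx 1)) (.add (tx 1) (tx 0)))
      (by simp [PAminus])).inst x y x
    exact hA
  mul_assoc x y w := by
    obtain ⟨A, hA⟩ := (h (.eq (.mul (.mul (tx 0) (tx 1)) (tx 2)) (.mul (tx 0) (.mul (tx 1) (tx 2))))
      (by simp [PAminus])).inst x y w
    exact hA
  mul_comm x y := by
    obtain ⟨A, hA⟩ := (h (.eq (.mul (tx 0) (tx 1)) (.mul (tx 1) (tx 0)))
      (by simp [PAminus])).inst x y x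
    exact hA
  distrib x y w := by
    obtain ⟨A, hA⟩ := (h (.eq (.mul (tx 0) (.add (tx 1) (tx 2)))
      (.add (.mul (tx 0) (tx 1)) (.mul (tx 0) (tx 2)))) (by simp [PAminus])).inst x y w
    exact hA
  add_zero x := by
    obtain ⟨A, hA⟩ := (h (.eq (.add (tx 0) .zero) (tx 0)) (by simp [PAminus])).inst x x x
    exact hA
  mul_zero x := by
    obtain ⟨A, hA⟩ := (h (.eq (.mul (tx 0) .zero) .zero) (by simp [PAminus])).inst x x x
    exact hA
  mul_one x := by
    obtain ⟨A, hA⟩ := (h (.eq (.mul (tx 0) .one) (tx 0)) (by simp [PAminus])).inst x x x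
    exact hA
  lt_trans x y w h1 h2 := by
    obtain ⟨A, hA⟩ := (h (.imp (.and (.lt (tx 0) (tx 1)) (.lt (tx 1) (tx 2))) (.lt (tx 0) (tx 2)))
      (by simp [PAminus])).inst x y w
    exact not_not.1 fun h3 => hA ⟨⟨h1, h2⟩, h3⟩
  lt_irrefl x := by
    obtain ⟨A, hA⟩ := (h (.neg (.lt (tx 0) (tx 0))) (by simp [PAminus])).inst x x x
    exact hA
  lt_tri x y := by
    obtain ⟨A, hA⟩ := (h (.or (.lt (tx 0) (tx 1)) (.or (.eq (tx 0) (tx 1)) (.lt (tx 1) (tx 0))))
      (by simp [PAminus])).inst x y x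
    by_contra h1
    push Not at h1
    exact hA ⟨h1.1, fun h2 => h2 ⟨h1.2.1, h1.2.2⟩⟩
  add_lt x y w h1 := by
    obtain ⟨A, hA⟩ := (h (.imp (.lt (tx 0) (tx 1)) (.lt (.add (tx 0) (tx 2)) (.add (tx 1) (tx 2))))
      (by simp [PAminus])).inst x y w
    exact not_not.1 fun h3 => hA ⟨h1, h3⟩
  mul_lt x y w h1 h2 := by
    obtain ⟨A, hA⟩ := (h (.imp (.and (.lt .zero (tx 2)) (.lt (tx 0) (tx 1)))
      (.lt (.mul (tx 0) (tx 2)) (.mul (tx 1) (tx 2)))) (by simp [PAminus])).inst x y w
    exact not_not.1 fun h3 => hA ⟨⟨h1, h2⟩, h3⟩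
  sub x y h1 := by
    obtain ⟨A, hA⟩ := (h (.imp (.lt (tx 0) (tx 1)) (.ex 2 (.eq (.add (tx 0) (tx 2)) (tx 1))))
      (by simp [PAminus])).inst x y x
    by_contra h2
    push Not at h2
    refine hA ⟨h1, fun h3 => h3 fun w => ?_⟩
    have h4 := h2 w
    simpa [Str.Sat, Str.val, Function.update, psh] using h4
  zero_lt_one := by
    obtain ⟨A, hA⟩ := (h (.lt .zero .one) (by simp [PAminus])).inst H.zero H.zero H.zero
    exact hA
  one_le x h1 := by
    obtain ⟨A, hA⟩ := (h (.imp (.lt .zero (tx 0)) (.or (.lt .one (tx 0)) (.eq .one (tx 0))))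
      (by simp [PAminus])).inst x x x
    by_contra h2
    push Not at h2
    exact hA ⟨h1, fun h3 => h3 ⟨h2.1, h2.2⟩⟩
  zero_le x := by
    obtain ⟨A, hA⟩ := (h (.or (.lt .zero (tx 0)) (.eq .zero (tx 0))) (by simp [PAminus])).inst x x x
    by_contra h2
    push Not at h2
    exact hA ⟨h2.1, h2.2⟩

/-- A structure in which the axioms `PAminus` are true comes from a model of `PA⁻`. -/
theorem Str.eq_ofPAM (H : Str) (h : ∀ ψ ∈ PAminus, H.Valid ψ) :
    ∃ P : PAM H.M, H = @ofPAM H.M P H.S H.nonempty :=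
  ⟨(H.paAx h).toPAM, rfl⟩

section

variable {M : Type} [PAM M] {S : Set (Set M)} {hS : S.Nonempty}

theorem ofPAM_imp {φ ψ : Fm} {v : ℕ → M} {w : ℕ → Set M}
    (h : (ofPAM M S hS).Sat φ v w → (ofPAM M S hS).Sat ψ v w) :
    (ofPAM M S hS).Sat (.imp φ ψ) v w := fun h1 => h1.2 (h h1.1)

theorem ofPAM_or {φ ψ : Fm} {v : ℕ → M} {w : ℕ → Set M}
    (h : (ofPAM M S hS).Sat φ v w ∨ (ofPAM M S hS).Sat ψ v w) :
    (ofPAM M S hS).Sat (.or φ ψ) v w := fun h1 => h.elim h1.1 h1.2

/-- The axioms `PAminus` are true in `ofPAM M S h`. -/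
theorem ofPAM_valid_PAminus : ∀ ψ ∈ PAminus, (ofPAM M S hS).Valid ψ := by
  intro ψ hψ v w _
  change ℕ → M at v
  simp only [PAminus, Set.mem_insert_iff, Set.mem_singleton_iff] at hψ
  rcases hψ with rfl | rfl | rfl | rfl | rfl | rfl | rfl | rfl | rfl | rfl | rfl | rfl | rfl | rfl |
    rfl | rfl | rfl
  · exact add_assoc (v 0) (v 1) (v 2)
  · exact add_comm (v 0) (v 1)
  · exact mul_assoc (v 0) (v 1) (v 2)
  · exact mul_comm (v 0) (v 1)
  · exact mul_add (v 0) (v 1) (v 2)
  · exact add_zero (v 0)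
  · exact mul_zero (v 0)
  · exact mul_one (v 0)
  · exact ofPAM_imp fun h => lt_trans (b := v 1) h.1 h.2
  · exact lt_irrefl (v 0)
  · rcases lt_trichotomy (v 0) (v 1) with h | h | h
    · exact ofPAM_or (Or.inl h)
    · exact ofPAM_or (Or.inr (ofPAM_or (Or.inl h)))
    · exact ofPAM_or (Or.inr (ofPAM_or (Or.inr h)))
  · refine ofPAM_imp fun h => ?_
    have h' : v 0 < v 1 := h
    exact (add_lt_add_left h' (v 2) : v 0 + v 2 < v 1 + v 2)
  · refine ofPAM_imp fun h => ?_
    have h1 : 0 < v 2 := h.1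
    have h2 : v 0 < v 1 := h.2
    exact (mul_lt_mul_of_pos_right h2 h1 : v 0 * v 2 < v 1 * v 2)
  · refine ofPAM_imp fun h => ?_
    have h1 : v 0 < v 1 := h
    obtain ⟨z, hz⟩ := exists_add_of_le h1.le
    intro h2
    refine h2 z ?_
    change Function.update v 2 z 0 + Function.update v 2 z 2 = Function.update v 2 z 1
    simp [Function.update, hz]
  · exact (zero_lt_one : (0 : M) < 1)
  · refine ofPAM_imp fun h => ?_
    have h1 : (0 : M) < v 0 := h
    rcases (PAM.one_le (v 0) h1).lt_or_eq with h2 | h2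
    · exact ofPAM_or (Or.inl h2)
    · exact ofPAM_or (Or.inr h2)
  · rcases (zero_le (a := v 0) : (0 : M) ≤ v 0).lt_or_eq with h2 | h2
    · exact ofPAM_or (Or.inl h2)
    · exact ofPAM_or (Or.inr h2)

end

end Pool.Agent.PD2
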