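import Pool.Agent.Work.MP_a6ae3a_lc.Fwd
import Pool.Agent.Work.MP_a6ae3a_lc.LS
import Pool.Agent.Work.MP_a6ae3a_lc.PAInst
import Pool.Agent.Work.MP_a6ae3a_lc.Back
import Pool.Agent.Work.MP_a6ae3a_lc.Omega

/-!
# Final assembly: conservation from the one step theorem
-/

namespace Pool.Agent.PD2

/-- The one step extension for limit approximations. -/
def StepProp : Prop := ∀ (M : Type) [PAM M] [IM M] [Countable M] (X : M → Prop), B2 X →
  ∀ F : M → Prop, D1 X (fun v => F (v 0)) → LimOk F →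
    ∃ X', B2 X' ∧ D1 X' (fun v => X (v 0)) ∧ Slv F X'

section

variable {M : Type} [PAM M] {S : Set (Set M)}

/-- The arithmetical kernel of a `Π¹₁` formula. -/
theorem pi11_kernel {φ : Fm} (hφ : IsPi11 φ) : ∃ θ : Fm, Arith θ ∧
    (∀ (M : Type) [PAM M] (S : Set (Set M)) (v : ℕ → M) (w : ℕ → Set M), (∀ i, w i ∈ S) →
      ¬ SatP S φ v w → ∃ w', (∀ i, w' i ∈ S) ∧ ¬ SatP S θ v w') ∧
    ∀ (M : Type) [PAM M] (S : Set (Set M)) (v : ℕ → M), (∀ w, (∀ i, w i ∈ S) → SatP S φ v w) →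
      ∀ w, (∀ i, w i ∈ S) → SatP S θ v w := by
  induction hφ with
  | arith h => exact ⟨_, h, fun M _ S v w hw h1 => ⟨w, hw, h1⟩, fun M _ S v h1 => h1⟩
  | @allS i φ _ ih =>
    obtain ⟨θ, h1, h2, h3⟩ := ih
    refine ⟨θ, h1, fun M _ S v w hw h4 => ?_, fun M _ S v h4 => ?_⟩
    · simp only [SatP, not_forall] at h4
      obtain ⟨Z, hZ, h5⟩ := h4
      refine h2 M S v _ (fun j => ?_) h5
      by_cases e : j = i
      · subst e; rw [Function.update_self]; exact hZ
      · rw [Function.update_of_ne e]; exact hw j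
    · refine h3 M S v fun w hw => ?_
      have h5 := h4 w hw (w i) (hw i)
      rwa [Function.update_eq_self] at h5

end

/-- Conservation from the one step theorem. -/
theorem conservation_of_step (hstep : StepProp) : Conservation := by
  intro φ hφ hT H hH
  by_contra hc
  unfold Str.Valid at hc
  push Not at hc
  obtain ⟨v, w, hw, hn⟩ := hc
  obtain ⟨K, v', w', hcM, _, hw', hsat, hval⟩ := Str.ls H v w hw
  have hK : ∀ ψ ∈ RCA0 ∪ BSigma2, K.Valid ψ := fun ψ hψ => hval ψ (hH ψ hψ)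
  have hn' : ¬ K.Sat φ v' w' := fun h => hn ((hsat φ).1 h)
  clear hval hsat hn
  obtain ⟨P, hP⟩ := K.eq_ofPAM fun ψ hψ => hK ψ (Or.inl (Or.inl (Or.inl hψ)))
  obtain ⟨M, z, o, ad, mu, lt, S, hS⟩ := K
  dsimp only at P
  have key : ∀ (K : Str) (_ : K = @ofPAM M P S hS) (v : ℕ → K.M) (w : ℕ → Set K.M),
      (∀ i, w i ∈ K.S) → (∀ ψ ∈ RCA0 ∪ BSigma2, K.Valid ψ) → Countable K.M →
      ¬ K.Sat φ v w → False := by
    rintro K rfl v w hw hK hcM hn
    have hcM' : Countable M := hcM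
    have hI : ∀ ψ ∈ ISigma1, (ofPAM M S hS).Valid ψ := fun ψ h => hK ψ (Or.inl (Or.inl (Or.inr h)))
    have hC : ∀ ψ ∈ DeltaCA, (ofPAM M S hS).Valid ψ := fun ψ h => hK ψ (Or.inl (Or.inr h))
    have hB : ∀ ψ ∈ BSigma2, (ofPAM M S hS).Valid ψ := fun ψ h => hK ψ (Or.inr h)
    have hn1 : ¬ SatP S φ v w := fun h => hn ((sat_ofPAM (M := M) (h := hS) φ v w).2 h)
    obtain ⟨θ, hθ, k1, k2⟩ := pi11_kernel hφ
    obtain ⟨w0, hw0, hn0⟩ := k1 M S v w hw hn1
    have hIM : IM M := by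
      have : I1 (fun x : M => x ∈ w0 0) := i1_of_valid hI (hw0 0)
      exact IM.of (fun x : M => x ∈ w0 0)
    obtain ⟨X, hX, hD⟩ := ex_join hI hC w0 hw0 θ.bdS
    have hIX : I1 X := i1_of_valid hI hX
    have hBX : B2 X := b2_of_valid hB hX
    obtain ⟨S', h1, h2, h3⟩ := omega_model (M := M) (fun X => B2 X) (fun X h => by
      have : B2 X := h
      infer_instance) (fun X h => hstep M X h) X hBX
    have hXS : {x | X x} ∈ S' := h1 _ d1_mem
    have hS' : S'.Nonempty := ⟨_, hXS⟩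
    have hval : (ofPAM M S' hS').Valid φ := by
      refine hT _ fun ψ hψ => ?_
      rcases hψ with ((hψ | hψ) | hψ) | hψ
      · exact ofPAM_valid_PAminus ψ hψ
      · refine valid_ISigma1 (fun w hw n => ?_) ψ hψ
        obtain ⟨Y, hY, h4, _⟩ := h2 w hw n
        exact ⟨Y, hY.i1, h4⟩
      · refine valid_DeltaCA (fun w hw n => ?_) ψ hψ
        obtain ⟨Y, hY, h4, h5⟩ := h2 w hw n
        have : B2 Y := hY
        exact ⟨Y, inferInstance, h4, h5⟩
      · rw [Set.mem_singleton_iff] at hψ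
        subst hψ
        exact ofPAM_valid_PDelta2 h3
    have h6 := k2 M S' v (fun w hw => (valid_ofPAM (M := M) φ).1 hval v w hw)
      (fun i => if i < θ.bdS then w0 i else {x | X x}) (fun i => by
        by_cases e : i < θ.bdS
        · simp only [e, if_true]
          exact h1 _ (hD i e)
        · simp only [e, if_false]
          exact hXS)
    refine hn0 ?_
    rw [sat_arith hθ (S' := S')]
    refine (sat_congr (M := M) (fun i _ => rfl) fun i hi => ?_).2 h6
    rw [if_pos (θ.lt_bdS hi)]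
  exact key _ hP v' w' hw' hK hcM hn'

end Pool.Agent.PD2
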