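import Pool.Agent.Work.MP_a6ae3a_lc.Tree

/-!
# Facts about the tree of the chain of states
-/

namespace Pool.Agent.PD2

variable {M : Type} [PAM M] [IM M]

namespace Tree

variable {X A : M → Prop} {St : M → M → Prop}

namespace Sq

/-- The child relation between a node and its restriction to the previous level. -/
theorem chd [B2 X] (S : Sq X A St) {b b' κ : M} (hb : Lv St b) (hlt : b < b')
    (h : Nn St b' κ) : ∃ c, b ≤ c ∧ c < b' ∧ Lv St c ∧ Nn St c (nr κ c) ∧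
      Chd X c (nr κ c) b' κ := by
  obtain ⟨K2, h7, h8⟩ := h
  obtain ⟨c, K, K', h3, h4, h5, h6⟩ := S.pred hb ⟨K2, h7⟩ hlt
  have h9 : K2 = K' := S.uq _ _ _ h7 h5
  subst h9
  obtain ⟨h10, h11⟩ := h6.2.2.2 κ h8
  exact ⟨c, h3, h6.1, ⟨K, h4⟩, ⟨K, h4, h10⟩, h11⟩

/-- Stability of the computations. -/
theorem stab [B2 X] (S : Sq X A St) {b : M} (hb : Lv St b) (i : Bool) : ∀ b', Lv St b' → b ≤ b' →
    ∀ κ, Nn St b' κ → ∀ β, Bt (nC i (nr κ b)) β → ∀ e, e < β → Cv X e (nF i κ) b' →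
      Cv X e (nF i (nr κ b)) b := by
  have i1 : ∀ {f g : (ℕ → M) → M} [F1 (jp X) f] [F1 (jp X) g],
      D1 (jp X) (fun v => Nn St (f v) (g v)) := S.d1_nn inferInstance inferInstance
  have h1 : D1 (jp X) (fun v : ℕ → M => (b ≤ v 0 → ∀ κ, κ < gd (v 0) → (Nn St (v 0) κ →
      ∀ β, Bt (nC i (nr κ b)) β → ∀ e, e < β → (Cv X e (nF i κ) (v 0) →
      Cv X e (nF i (nr κ b)) b)))) := inferInstance
  have h2 := S.ind (P := fun b' => b ≤ b' → ∀ κ, κ < gd b' → (Nn St b' κ →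
      ∀ β, Bt (nC i (nr κ b)) β → ∀ e, e < β → (Cv X e (nF i κ) b' →
      Cv X e (nF i (nr κ b)) b))) h1
    (fun b' hb' ih hle κ _ hκ β hβ e he hc => by
      rcases hle.eq_or_lt with rfl | hlt
      · rw [nr_self (S.nd hκ)]; exact hc
      · obtain ⟨c, h3, h4, h5, h6, h7⟩ := S.chd hb hlt hκ
        have h8 : nr (nr κ c) b = nr κ b := nr_nr h3
        have h9 : Bt (nC i (nr κ c)) β := by
          rw [← h8, nC_nr] at hβ
          exact (bt_rs.1 hβ).2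
        have h10 := h7.2.2.2.2 i β h9 e he hc
        have := ih c h4 h5 h3 (nr κ c) (lt_gd (S.nd h6)) h6 β (by rw [h8]; exact hβ) e he h10
        rw [h8] at this
        exact this)
  exact fun b' hb' hle κ hκ => h2 b' hb' hle κ (lt_gd (S.nd hκ)) hκ

/-- Computations below a settled block are final. -/
theorem stab_iff [B2 X] (S : Sq X A St) {b b' κ : M} (hb : Lv St b) (hb' : Lv St b')
    (hle : b ≤ b') (h : Nn St b' κ) (i : Bool) {β e : M} (hβ : Bt (nC i (nr κ b)) β)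
    (he : e < β) : Cv X e (nF i κ) b' ↔ Cv X e (nF i (nr κ b)) b := by
  refine ⟨S.stab hb i b' hb' hle κ h β hβ e he, fun hc => cv_mono hle (fun x hx => ?_) hc⟩
  rw [nF_nr, bt_rs]
  exact ⟨fun h => h.2, fun h => ⟨hx, h⟩⟩

/-- The sets of both sides grow. -/
theorem meet [B2 X] (S : Sq X A St) {b b' κ : M} (hb : Lv St b) (hlt : b < b')
    (h : Nn St b' κ) (i : Bool) : ∃ x, Bt (nF i κ) x ∧ b ≤ x := by
  obtain ⟨c, h3, _, _, _, h7⟩ := S.chd hb hlt h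
  obtain ⟨x, h8, h9⟩ := h7.2.2.1 i
  exact ⟨x, h8, h3.trans h9⟩

theorem inA (S : Sq X A St) {b κ : M} (h : Nn St b κ) {x : M} (hx : Bt (nF false κ) x) : A x :=
  (S.nd h).2.2.2.1 x hx

theorem notA (S : Sq X A St) {b κ : M} (h : Nn St b κ) {x : M} (hx : Bt (nF true κ) x) : ¬ A x :=
  (S.nd h).2.2.2.2 x hx

theorem F_lt (S : Sq X A St) {b κ : M} (h : Nn St b κ) (i : Bool) : nF i κ < tw b :=
  (S.nd h).2.1 i

theorem C_lt (S : Sq X A St) {b κ : M} (h : Nn St b κ) (i : Bool) : nC i κ < tw b :=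
  (S.nd h).2.2.1 i

/-- Every level adds a block to one side. -/
theorem blk [B2 X] (S : Sq X A St) (m : M) : ∃ b b', m ≤ b ∧ b < b' ∧ Lv St b ∧ Lv St b' ∧
    ∀ κ, Nn St b' κ → Bt (nC false κ) b ∨ Bt (nC true κ) b := by
  obtain ⟨b, K, h1, h2⟩ := S.cof m
  obtain ⟨b', K', h3, h4, _⟩ := S.nx b K h2
  refine ⟨b, b', h1, h4.1, ⟨K, h2⟩, ⟨K', h3⟩, fun κ ⟨K2, h5, h6⟩ => ?_⟩
  have h7 : K2 = K' := S.uq _ _ _ h5 h3
  subst h7
  obtain ⟨i, h8, _⟩ := (h4.2.2.2 κ h6).2.2.2.2.1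
  cases i
  · exact Or.inl ((h8 b le_rfl).2 rfl)
  · exact Or.inr ((h8 b le_rfl).2 rfl)

end Sq

end Tree
end Pool.Agent.PD2
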