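import Pool.Agent.Work.MP_a6ae3a_lc.ForceQ
import Pool.Agent.Work.MP_a6ae3a_lc.TreeB

/-!
# Forcing with a chain of states
-/

namespace Pool.Agent.PD2
variable {M : Type} [PAM M] [IM M]

namespace FQ

/-- Forcing with a chain of states (the statement `force` of `API.lean`). -/
theorem force {X A : M → Prop} [B2 X] [Countable M] (_hA : D1 (jp X) (fun v => A (v 0)))
    {St : M → M → Prop} (hD : D1 (jp X) (fun v => St (v 0) (v 1)))
    (hV : ∀ b K, St b K → Vld X A b K) (hu : ∀ b K K', St b K → St b K' → K = K')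
    (hc : ∀ n, ∃ b K, n ≤ b ∧ St b K) (h0 : ∃ K, St 0 K)
    (hn : ∀ b K, St b K → ∃ b' K', St b' K' ∧ Suc X A b K b' K' ∧
      ∀ b'' K'', St b'' K'' → b < b'' → b' ≤ b'') :
    ∃ H : M → Prop, Unb H ∧ ((∀ x, H x → A x) ∨ ∀ x, H x → ¬ A x) ∧ B2 (jn X H) := by
  have S : Tree.Sq X A St := ⟨hD, hV, hu, hc, h0, hn⟩
  refine force_of (A := A) (St := St) (g := Tree.gd) S.lt ?_ hV hu hc fun b K h => ?_
  · intro b b' k hk hb hbb i β hβ e he h
    obtain ⟨K, h1, h2⟩ := hk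
    exact S.stab hb i b' ⟨K, h1⟩ hbb k ⟨K, h1, h2⟩ β hβ e he h
  · obtain ⟨b', K', h1, h2, _⟩ := hn b K h
    exact ⟨b', K', h1, h2⟩

end FQ
end Pool.Agent.PD2
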