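import Pool.Agent.Work.MP_a6ae3a_lc.Cls

/-!
# The union along a branch

`Bt c x`: `x` is an element of the coded set `c`; `Cv e c t`: a monotone relation (machine `e`
converges in `t` steps with the coded oracle `c`). `l n`: the levels of a branch, `F n` the finite
part and `C n` the set of the settled blocks at level `l n`.

* `UFC.Un`: the union of the sets `F n`.
* `UFC.hd_iff`: the jump of the union below a settled block.
* `UFC.reg_hd`: the jump of the union is regular.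
* `UFC.dich`: the dichotomy of collection.
-/

set_option autoImplicit false

namespace Pool.Agent.PD2.UFC

variable {M : Type} [PAM M]

/-- the union of the coded sets `F n` below `l n` -/
def Un (Bt : M → M → Prop) (l F : ℕ → M) (x : M) : Prop := ∃ n, x < l n ∧ Bt (F n) x

/-- the data of a branch -/
structure Br (Bt : M → M → Prop) (Cv : M → M → M → Prop) (l F C : ℕ → M) : Prop where
  mono : Monotone l
  cof : ∀ x, ∃ n, x < l n
  ltF : ∀ n x, Bt (F n) x → x < l n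
  coF : ∀ n m, n ≤ m → ∀ x, x < l n → (Bt (F m) x ↔ Bt (F n) x)
  ltC : ∀ n x, Bt (C n) x → x < l n
  coC : ∀ n m, n ≤ m → ∀ x, x < l n → (Bt (C m) x ↔ Bt (C n) x)
  stab : ∀ n m, n ≤ m → ∀ β, Bt (C n) β → ∀ e, e < β → Cv e (F m) (l m) → Cv e (F n) (l n)
  unb : ∀ b, ∃ n β, Bt (C n) β ∧ b ≤ β
  cvm : ∀ e c t c' t', t ≤ t' → (∀ x, x < t → (Bt c x ↔ Bt c' x)) → Cv e c t → Cv e c' t'

/-- the jump of the set `H` -/
def Hd (Bt : M → M → Prop) (Cv : M → M → M → Prop) (H : M → Prop) (e : M) : Prop :=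
  ∃ t c, (∀ x, x < t → (Bt c x ↔ H x)) ∧ Cv e c t

variable {Bt : M → M → Prop} {Cv : M → M → M → Prop} {l F C : ℕ → M}

namespace Br

variable (h : Br Bt Cv l F C)
include h

theorem un_iff {n : ℕ} {x : M} (hx : x < l n) : Un Bt l F x ↔ Bt (F n) x := by
  constructor
  · rintro ⟨m, hm, hF⟩
    rcases le_total n m with hnm | hnm
    · exact (h.coF n m hnm x hx).1 hF
    · exact (h.coF m n hnm x hm).2 hF
  · exact fun hF => ⟨n, hx, hF⟩

theorem bt_iff (n : ℕ) (x : M) : Bt (F n) x ↔ x < l n ∧ Un Bt l F x :=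
  ⟨fun hF => ⟨h.ltF n x hF, n, h.ltF n x hF, hF⟩, fun hx => (h.un_iff hx.1).1 hx.2⟩

theorem exists_level (x : M) : ∃ n, x ≤ l n := by
  obtain ⟨n, hn⟩ := h.cof x
  exact ⟨n, hn.le⟩

/-- convergence with the oracle `H` is seen at the levels -/
theorem hd_level {e : M} (he : Hd Bt Cv (Un Bt l F) e) (n : ℕ) :
    ∃ m, n ≤ m ∧ Cv e (F m) (l m) := by
  obtain ⟨t, c, hc, hcv⟩ := he
  obtain ⟨m, hm⟩ := h.exists_level t
  refine ⟨max n m, le_max_left _ _, h.cvm e c t _ _ (hm.trans (h.mono (le_max_right _ _))) ?_ hcv⟩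
  intro x hx
  rw [hc x hx]
  exact h.un_iff (hx.trans_le (hm.trans (h.mono (le_max_right _ _))))

theorem hd_of_level {e : M} {n : ℕ} (he : Cv e (F n) (l n)) : Hd Bt Cv (Un Bt l F) e :=
  ⟨l n, F n, fun _ hx => (h.un_iff hx).symm, he⟩

/-- the jump of the union below a settled block -/
theorem hd_iff {n : ℕ} {β e : M} (hβ : Bt (C n) β) (he : e < β) :
    Hd Bt Cv (Un Bt l F) e ↔ Cv e (F n) (l n) := by
  constructor
  · intro hd
    obtain ⟨m, hm, hcv⟩ := h.hd_level hd n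
    exact h.stab n m hm β hβ e he hcv
  · exact h.hd_of_level

/-- every initial segment of the jump is settled at some level -/
theorem exists_settled (b : M) : ∃ n, ∀ e, e < b →
    (Hd Bt Cv (Un Bt l F) e ↔ Cv e (F n) (l n)) := by
  obtain ⟨n, β, hβ, hb⟩ := h.unb b
  exact ⟨n, fun e he => h.hd_iff hβ (he.trans_le hb)⟩

/-- the jump of the union is regular, if the sections of `Cv` are regular -/
theorem reg_hd (hcv : ∀ c t b, ∃ w, ∀ e, e < b → (Bt w e ↔ Cv e c t)) (b : M) :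
    ∃ w, ∀ e, e < b → (Bt w e ↔ Hd Bt Cv (Un Bt l F) e) := by
  obtain ⟨n, hn⟩ := h.exists_settled b
  obtain ⟨w, hw⟩ := hcv (F n) (l n) b
  exact ⟨w, fun e he => (hw e he).trans (hn e he).symm⟩

/-- the dichotomy: `Q x n` says that all settled `p x y` converge at level `n` -/
theorem dich {a : M} {p : M → M → M} (hp : ∀ x y, y ≤ p x y)
    (hd : (∃ x, x < a ∧ ∀ n, ∀ β, Bt (C n) β → ∀ y, p x y < β → Cv (p x y) (F n) (l n)) ∨
      ∃ n, ∀ x, x < a → ∃ β, Bt (C n) β ∧ ∃ y, p x y < β ∧ ¬ Cv (p x y) (F n) (l n)) :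
    (∃ x, x < a ∧ ∀ y, Hd Bt Cv (Un Bt l F) (p x y)) ∨
      ∃ b, ∀ x, x < a → ∃ y, y < b ∧ ¬ Hd Bt Cv (Un Bt l F) (p x y) := by
  rcases hd with ⟨x, hx, hq⟩ | ⟨n, hn⟩
  · refine Or.inl ⟨x, hx, fun y => ?_⟩
    obtain ⟨n, β, hβ, hb⟩ := h.unb (p x y + 1)
    exact h.hd_of_level (hq n β hβ y (succ_le_iff.1 hb))
  · refine Or.inr ⟨l n, fun x hx => ?_⟩
    obtain ⟨β, hβ, y, hy, hc⟩ := hn x hx
    refine ⟨y, ?_, fun hd => hc ((h.hd_iff hβ hy).1 hd)⟩
    exact (hp x y).trans_lt (hy.trans (h.ltC n β hβ))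

/-- the union is unbounded -/
theorem unbdd (hu : ∀ n, ∃ m x, l n ≤ x ∧ Bt (F m) x) (a : M) : ∃ x, a ≤ x ∧ Un Bt l F x := by
  obtain ⟨n, hn⟩ := h.exists_level a
  obtain ⟨m, x, hx, hF⟩ := hu n
  exact ⟨x, hn.trans hx, m, h.ltF m x hF, hF⟩

end Br

end Pool.Agent.PD2.UFC
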