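import Pool.Agent.Work.MP_a6ae3a_lc.SideC
import Pool.Agent.Work.MP_a6ae3a_lc.UFC

/-!
# Forcing: from the tree of nodes to the solution
-/

namespace Pool.Agent.PD2
variable {M : Type} [PAM M] [IM M] {X A : M → Prop}

namespace FQ

/-- Levels. -/
def Lv (St : M → M → Prop) (b : M) : Prop := ∃ K, St b K
/-- Nodes of the tree. -/
def Tn (St : M → M → Prop) (b k : M) : Prop := ∃ K, St b K ∧ Bt K k

/-- All settled instances of the task `c` with first component `x` converge. -/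
def Qf (X : M → Prop) (i : Bool) (c x b k : M) : Prop :=
  ∀ β, Bt (nC i k) β → ∀ y, y < β → pr c (pr x y) < β → Cv X (pr c (pr x y)) (nF i k) b

theorem pr_qf [B2 X] {St : M → M → Prop} (i : Bool) (c : M)
    (hst : ∀ b b' k, Tn St b' k → Lv St b → b ≤ b' → ∀ i β, Bt (nC i (nr k b)) β → ∀ e, e < β →
      Cv X e (nF i k) b' → Cv X e (nF i (nr k b)) b) :
    Tr.Pr (jp X) (Lv St) (Tn St) (fun b k => nr k b) (Qf X i c) := by
  constructor
  · intro a b d ha hb hd
    have k : D1 (jp X) (fun v : ℕ → M => Qf X i c (v 0) (v 1) (v 2)) := by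
      unfold Qf
      infer_instance
    exact D1.s3 (P := fun x b k => Qf X i c x b k) k ha hb hd
  · intro x b b' k hk h hb hbb β hβ y hy hp
    have h1 : Bt (nC i k) β := by
      rw [nC_nr] at hβ
      exact (bt_rs.1 hβ).2
    exact hst b b' k hk hb hbb i β hβ _ hp (h β h1 y hy hp)

/-- A cofinal sequence of levels. -/
theorem levels [Countable M] {Lv : M → Prop} (hc : ∀ m, ∃ b, Lv b ∧ m < b) :
    ∃ (l e : ℕ → M), Function.Surjective e ∧ (∀ n, Lv (l n)) ∧ Monotone l ∧ ∀ n, e n < l n := by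
  obtain ⟨e, he⟩ := exists_surjective_nat M
  choose nx h1 h2 using hc
  let l : ℕ → M := fun n => Nat.rec (nx (e 0)) (fun n b => nx (max b (e (n + 1)))) n
  have hs : ∀ n, l (n + 1) = nx (max (l n) (e (n + 1))) := fun n => rfl
  refine ⟨l, e, he, ?_, monotone_nat_of_le_succ fun n => ?_, ?_⟩
  · intro n
    cases n with
    | zero => exact h1 _
    | succ n => rw [hs]; exact h1 _
  · rw [hs]; exact ((le_max_left _ _).trans_lt (h2 _)).le
  · intro n
    cases n with
    | zero => exact h2 _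
    | succ n => rw [hs]; exact (le_max_right _ _).trans_lt (h2 _)

theorem hd_iff_sc {H : M → Prop} [hR : Reg H] {e : M} :
    UFC.Hd Bt (Cv X) H e ↔ ∃ t, Cv X e (sc t H) t := by
  constructor
  · rintro ⟨t, c, hc, h⟩
    refine ⟨t, cv_mono le_rfl (fun x hx => ?_) h⟩
    rw [hc x hx, bt_sc' (hR.reg t)]
    exact ⟨fun h => ⟨hx, h⟩, fun h => h.2⟩
  · rintro ⟨t, h⟩
    refine ⟨t, sc t H, fun x hx => ?_, h⟩
    rw [bt_sc' (hR.reg t)]
    exact ⟨fun h => h.2, fun h => ⟨hx, h⟩⟩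

/-- The forcing construction over the tree of nodes. -/
theorem force_of [B2 X] [Countable M] {St : M → M → Prop} {g : M → M}
    (T : Tr.LT (jp X) (Lv St) (Tn St) (fun b k => nr k b) g)
    (hst : ∀ b b' k, Tn St b' k → Lv St b → b ≤ b' → ∀ i β, Bt (nC i (nr k b)) β → ∀ e, e < β →
      Cv X e (nF i k) b' → Cv X e (nF i (nr k b)) b)
    (hV : ∀ b K, St b K → Vld X A b K) (hu : ∀ b K K', St b K → St b K' → K = K')
    (hc : ∀ n, ∃ b K, n ≤ b ∧ St b K)
    (hn : ∀ b K, St b K → ∃ b' K', St b' K' ∧ Suc X A b K b' K') :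
    ∃ H : M → Prop, Unb H ∧ ((∀ x, H x → A x) ∨ ∀ x, H x → ¬ A x) ∧ B2 (jn X H) := by
  obtain ⟨i, S, hS, hun⟩ := side_st T hu hc hn
  obtain ⟨l, e, he, hl, hm, hel⟩ := levels T.cof
  obtain ⟨k, hk, hres, htask⟩ := Tr.branch T hS (Q := fun j => Qf X i (e (Nat.unpair j).1))
    (fun j => pr_qf i _ hst) (fun j => e (Nat.unpair j).2) hl hm
  have hTn : ∀ n, Tn St (l n) (k n) := fun n => hS.sub _ _ (hk n)
  have hNd : ∀ n, Nd A (l n) (k n) := by
    intro n
    obtain ⟨K, h1, h2⟩ := hTn n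
    exact (hV _ _ h1).2.1 _ h2
  have hcof : ∀ x, ∃ n, x < l n := by
    intro x
    obtain ⟨n, rfl⟩ := he x
    exact ⟨n, hel n⟩
  have hB : UFC.Br Bt (Cv X) l (fun n => nF i (k n)) (fun n => nC i (k n)) := by
    refine ⟨hm, hcof, fun n x h => lt_tw_iff.1 ((hNd n).2.1 i) x h, ?_,
      fun n x h => lt_tw_iff.1 ((hNd n).2.2.1 i) x h, ?_, ?_, ?_, ?_⟩
    · intro n m hnm x hx
      rw [← hres n m hnm, nF_nr, bt_rs]
      exact ⟨fun h => ⟨hx, h⟩, fun h => h.2⟩
    · intro n m hnm x hx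
      rw [← hres n m hnm, nC_nr, bt_rs]
      exact ⟨fun h => ⟨hx, h⟩, fun h => h.2⟩
    · intro n m hnm β hβ e he h
      have := hst (l n) (l m) (k m) (hTn m) (hl n) (hm hnm) i β
      rw [hres n m hnm] at this
      exact this hβ e he h
    · intro b
      obtain ⟨b', hb', h⟩ := hun b
      obtain ⟨n, hn⟩ := hcof b'
      obtain ⟨t, h1, h2⟩ := h _ (hS.cl _ _ _ (hk n) hb' hn.le)
      refine ⟨n, t, ?_, h1⟩
      rw [nC_nr] at h2
      exact (bt_rs.1 h2).2
    · intro e c t c' t' h1 h2 h3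
      exact cv_mono h1 h2 h3
  set H : M → Prop := UFC.Un Bt l (fun n => nF i (k n)) with hH
  have hReg : Reg H := by
    refine ⟨fun n => ?_⟩
    obtain ⟨m, hm'⟩ := hcof n
    refine ⟨rs (nF i (k m)) n, fun x => ?_⟩
    rw [bt_rs]
    refine and_congr_right fun hx => ?_
    exact (hB.un_iff (hx.trans hm')).symm
  refine ⟨H, ?_, ?_, ?_⟩
  · intro n
    obtain ⟨b, K, h1, h2⟩ := hc n
    obtain ⟨b', K', h3, h4⟩ := hn b K h2
    obtain ⟨m, hm'⟩ := hcof b'
    obtain ⟨K'', h5, h6⟩ := T.rs b' (l m) (k m) (hTn m) ⟨K', h3⟩ hm'.le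
    obtain rfl := hu _ _ _ h3 h5
    obtain ⟨x, h7, h8⟩ := (h4.2.2.2 _ h6).2.2.2.1 i
    rw [nF_nr] at h7
    have h9 := (bt_rs.1 h7).2
    exact ⟨x, h1.trans h8, m, hB.ltF m x h9, h9⟩
  · cases i
    · left
      rintro x ⟨n, _, hx⟩
      exact (hNd n).2.2.2.1 x hx
    · right
      rintro x ⟨n, _, hx⟩
      exact (hNd n).2.2.2.2 x hx
  · refine b2_crit (fun n => ?_) (fun c a h => ?_)
    · obtain ⟨m, hm'⟩ := hB.exists_settled n
      obtain ⟨d, hd⟩ := ex_code X (P := fun e => Cv X e (nF i (k m)) (l m)) inferInstance n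
      refine ⟨d, fun e => ?_⟩
      rw [hd, ← hd_iff_sc]
      exact and_congr_right fun he => (hm' e he).symm
    · obtain ⟨n, hn'⟩ := he c
      obtain ⟨n', hn''⟩ := he a
      have h0 := htask (Nat.pair n n')
      simp only [Nat.unpair_pair, hn', hn''] at h0
      have h1 := hB.dich (a := a) (p := fun x y => pr c (pr x y))
        (fun x y => (le_pr_right x y).trans (le_pr_right c _)) (by
          rcases h0 with ⟨x, hx, hq⟩ | ⟨b, hb, hq⟩
          · refine Or.inl ⟨x, hx, fun n β hβ y hy => ?_⟩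
            have hy' : y < β := ((le_pr_right x y).trans (le_pr_right c _)).trans_lt hy
            exact hq n β hβ y hy' hy
          · obtain ⟨m, hm'⟩ := hcof b
            refine Or.inr ⟨m, fun x hx => ?_⟩
            have h2 := hq x hx m hm'.le
            unfold Qf at h2
            push Not at h2
            obtain ⟨β, hβ, y, hy, hp, hcv⟩ := h2
            have h3 := hst b (l m) (k m) (hTn m) hb hm'.le i β hβ _ hp
            refine ⟨β, ?_, y, hp, fun h => hcv (h3 h)⟩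
            rw [nC_nr] at hβ
            exact (bt_rs.1 hβ).2)
      simp only [hd_iff_sc] at h1
      rcases h1 with ⟨x, hx, h2⟩ | h2
      · obtain ⟨y, hy⟩ := h x hx
        exact absurd (h2 y) hy
      · exact h2

end FQ
end Pool.Agent.PD2
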