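import Pool.Agent.Work.MP_a6ae3a_lc.Sat

/-!
# From second order structures to the core: translation of bounded formulas, `Σ₁` induction
-/

namespace Pool.Agent.PD2

/-! ### Translation of bounded core formulas -/

/-- Translation of a bounded core formula: the variable `i` becomes `x_{ρ i}`, bound variables
get the names `2 n, 2 n + 2, ...`, the set is `X_0`. -/
def RF.toFm : RF → (ℕ → ℕ) → ℕ → Fm
  | .add i j k, ρ, _ => .eq (.add (.var (ρ i)) (.var (ρ j))) (.var (ρ k))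
  | .mul i j k, ρ, _ => .eq (.mul (.var (ρ i)) (.var (ρ j))) (.var (ρ k))
  | .eq i j, ρ, _ => .eq (.var (ρ i)) (.var (ρ j))
  | .lt i j, ρ, _ => .lt (.var (ρ i)) (.var (ρ j))
  | .mem i, ρ, _ => .mem (.var (ρ i)) 0
  | .neg f, ρ, n => .neg (f.toFm ρ n)
  | .and f g, ρ, n => .and (f.toFm ρ n) (g.toFm ρ n)
  | .all i f, ρ, n => .ball (2 * n) (.var (ρ i)) (f.toFm (psh (2 * n) ρ) (n + 1))

/-- The names `2 m`, `m ≥ n`, are not used by `ρ`. -/
def NOk (ρ : ℕ → ℕ) (n : ℕ) : Prop := ∀ j m, n ≤ m → ρ j ≠ 2 * m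

theorem NOk.psh {ρ : ℕ → ℕ} {n : ℕ} (h : NOk ρ n) : NOk (psh (2 * n) ρ) (n + 1) := by
  intro j m hm
  cases j with
  | zero => simp only [psh_zero]; omega
  | succ j => exact h j m (by omega)

theorem bdd_toFm : ∀ (f : RF) (ρ : ℕ → ℕ) (n : ℕ), NOk ρ n → Bdd (f.toFm ρ n)
  | .add _ _ _, _, _, _ => .eq _ _
  | .mul _ _ _, _, _, _ => .eq _ _
  | .eq _ _, _, _, _ => .eq _ _
  | .lt _ _, _, _, _ => .lt _ _
  | .mem _, _, _, _ => .mem _ _
  | .neg f, ρ, n, h => .neg (bdd_toFm f ρ n h)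
  | .and f g, ρ, n, h => .and (bdd_toFm f ρ n h) (bdd_toFm g ρ n h)
  | .all i f, ρ, n, h => by
    have ht : ¬ (Tm.var (ρ i)).Occ (2 * n) := fun e => h i n le_rfl e
    exact .ball _ _ ht (bdd_toFm f _ _ h.psh)

theorem occS_toFm : ∀ (f : RF) (ρ : ℕ → ℕ) (n k : ℕ), (f.toFm ρ n).OccS k → k = 0
  | .add _ _ _, _, _, _, h => h.elim
  | .mul _ _ _, _, _, _, h => h.elim
  | .eq _ _, _, _, _, h => h.elim
  | .lt _ _, _, _, _, h => h.elim
  | .mem _, _, _, _, h => h.symm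
  | .neg f, ρ, n, k, h => occS_toFm f ρ n k h
  | .and f g, ρ, n, k, h => h.elim (occS_toFm f ρ n k) (occS_toFm g ρ n k)
  | .all i f, ρ, n, k, h => by
    simp only [RF.toFm, Fm.ball, Fm.imp, Fm.OccS, false_or] at h
    exact occS_toFm f _ _ k h

theorem occ_toFm : ∀ (f : RF) (ρ : ℕ → ℕ) (n i : ℕ), (f.toFm ρ n).Occ i →
    (∃ j, j < f.bd ∧ ρ j = i) ∨ ∃ m, n ≤ m ∧ i = 2 * m
  | .add a b c, ρ, _, i, h => by
    simp only [RF.toFm, Fm.Occ, Tm.Occ] at h
    rcases h with (h | h) | h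
    · exact Or.inl ⟨a, by simp only [RF.bd]; omega, h⟩
    · exact Or.inl ⟨b, by simp only [RF.bd]; omega, h⟩
    · exact Or.inl ⟨c, by simp only [RF.bd]; omega, h⟩
  | .mul a b c, ρ, _, i, h => by
    simp only [RF.toFm, Fm.Occ, Tm.Occ] at h
    rcases h with (h | h) | h
    · exact Or.inl ⟨a, by simp only [RF.bd]; omega, h⟩
    · exact Or.inl ⟨b, by simp only [RF.bd]; omega, h⟩
    · exact Or.inl ⟨c, by simp only [RF.bd]; omega, h⟩
  | .eq a b, ρ, _, i, h => by
    simp only [RF.toFm, Fm.Occ, Tm.Occ] at h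
    rcases h with h | h
    · exact Or.inl ⟨a, by simp only [RF.bd]; omega, h⟩
    · exact Or.inl ⟨b, by simp only [RF.bd]; omega, h⟩
  | .lt a b, ρ, _, i, h => by
    simp only [RF.toFm, Fm.Occ, Tm.Occ] at h
    rcases h with h | h
    · exact Or.inl ⟨a, by simp only [RF.bd]; omega, h⟩
    · exact Or.inl ⟨b, by simp only [RF.bd]; omega, h⟩
  | .mem a, ρ, _, i, h => by
    simp only [RF.toFm, Fm.Occ, Tm.Occ] at h
    exact Or.inl ⟨a, by simp only [RF.bd]; omega, h⟩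
  | .neg f, ρ, n, i, h => occ_toFm f ρ n i h
  | .and f g, ρ, n, i, h => by
    rcases h with h | h
    · rcases occ_toFm f ρ n i h with ⟨j, h1, h2⟩ | h1
      · exact Or.inl ⟨j, by simp only [RF.bd]; omega, h2⟩
      · exact Or.inr h1
    · rcases occ_toFm g ρ n i h with ⟨j, h1, h2⟩ | h1
      · exact Or.inl ⟨j, by simp only [RF.bd]; omega, h2⟩
      · exact Or.inr h1
  | .all a f, ρ, n, i, h => by
    simp only [RF.toFm, Fm.ball, Fm.imp, Fm.Occ, Tm.Occ] at h
    have h' : 2 * n = i ∨ ρ a = i ∨ (f.toFm (psh (2 * n) ρ) (n + 1)).Occ i := by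
      rcases h with h | (h | h) | h
      · exact Or.inl h
      · exact Or.inl h
      · exact Or.inr (Or.inl h)
      · exact Or.inr (Or.inr h)
    rcases h' with h | h | h
    · exact Or.inr ⟨n, le_rfl, h.symm⟩
    · exact Or.inl ⟨a, by simp only [RF.bd]; omega, h⟩
    · rcases occ_toFm f _ _ i h with ⟨j, h1, h2⟩ | ⟨m, h1, h2⟩
      · cases j with
        | zero => exact Or.inr ⟨n, le_rfl, h2.symm⟩
        | succ j => exact Or.inl ⟨j, by simp only [RF.bd]; omega, h2⟩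
      · exact Or.inr ⟨m, by omega, h2⟩

variable {M : Type} [PAM M] {S : Set (Set M)} {X : M → Prop}

omit [PAM M] in
theorem update_psh {ρ : ℕ → ℕ} {n : ℕ} (h : NOk ρ n) (v : ℕ → M) (x : M) :
    (fun i => Function.update v (2 * n) x (psh (2 * n) ρ i)) = psh x (fun i => v (ρ i)) := by
  funext i
  cases i with
  | zero => simp only [psh_zero, Function.update_self]
  | succ i =>
    simp only [psh_succ]
    exact Function.update_of_ne (h i n le_rfl) _ _

theorem sat_toFm : ∀ (f : RF) (ρ : ℕ → ℕ) (n : ℕ), NOk ρ n → ∀ (v : ℕ → M) (w : ℕ → Set M),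
    SatP S (f.toFm ρ n) v w ↔ f.holds (fun x => x ∈ w 0) (fun i => v (ρ i))
  | .add _ _ _, _, _, _, _, _ => Iff.rfl
  | .mul _ _ _, _, _, _, _, _ => Iff.rfl
  | .eq _ _, _, _, _, _, _ => Iff.rfl
  | .lt _ _, _, _, _, _, _ => Iff.rfl
  | .mem _, _, _, _, _, _ => Iff.rfl
  | .neg f, ρ, n, h, v, w => not_congr (sat_toFm f ρ n h v w)
  | .and f g, ρ, n, h, v, w => and_congr (sat_toFm f ρ n h v w) (sat_toFm g ρ n h v w)
  | .all i f, ρ, n, h, v, w => by
    have ht : ¬ (Tm.var (ρ i)).Occ (2 * n) := fun e => h i n le_rfl e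
    simp only [RF.toFm, sat_ball ht, RF.holds, tval]
    refine forall_congr' fun x => imp_congr_right fun _ => ?_
    rw [sat_toFm f _ _ h.psh, update_psh h]

/-! ### Formulas for relations of the core -/

/-- Names of parameters: numbers `4 m + 3`. -/
def PNm (π : ℕ → ℕ) : Prop := ∀ j, π j % 4 = 3

/-- Names: the variable `j` is `x_{4j+1}`, the parameter `j` is `x_{π j}`. -/
def nms (π : ℕ → ℕ) : ℕ → ℕ := mix (fun j => 4 * j + 1) π

theorem nms_cases (π : ℕ → ℕ) (j : ℕ) : (∃ i, nms π j = 4 * i + 1 ∧ j = 2 * i) ∨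
    ∃ i, nms π j = π i ∧ j = 2 * i + 1 := by
  unfold nms mix
  split_ifs with h
  · exact Or.inl ⟨j / 2, rfl, by omega⟩
  · exact Or.inr ⟨j / 2, rfl, by omega⟩

theorem nms_ok {π : ℕ → ℕ} (hπ : PNm π) (n : ℕ) : NOk (nms π) n := by
  intro j m _
  rcases nms_cases π j with ⟨i, h, _⟩ | ⟨i, h, _⟩
  · omega
  · have := hπ i
    omega

omit [PAM M] in
theorem nms_val {π : ℕ → ℕ} (u c : ℕ → M) (hu : ∀ j, u (π j) = c j) :
    (fun i => u (nms π i)) = mix (fun j => u (4 * j + 1)) c := by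
  unfold nms
  rw [mix_map]
  congr 1
  funext j
  exact hu j

/-- A bounded formula for a bounded relation of the core. -/
theorem DP.fm {R : (ℕ → M) → Prop} (hR : DP X R) {π : ℕ → ℕ} (hπ : PNm π) :
    ∃ (θ : Fm) (c : ℕ → M) (k : ℕ), Bdd θ ∧
    (∀ j, k ≤ j → ¬ θ.Occ (4 * j + 1)) ∧ (∀ i, θ.OccS i → i = 0) ∧
    ∀ (S : Set (Set M)) (u : ℕ → M) (w : ℕ → Set M), (∀ j, u (π j) = c j) →
      w 0 = {x | X x} → (SatP S θ u w ↔ R (fun j => u (4 * j + 1))) := by
  obtain ⟨f, c, hf⟩ := hR.ex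
  refine ⟨f.toFm (nms π) 0, c, f.bd, bdd_toFm f _ 0 (nms_ok hπ 0), ?_,
    fun i => occS_toFm f _ 0 i, ?_⟩
  · intro j hj h
    rcases occ_toFm f (nms π) 0 _ h with ⟨i, h1, h2⟩ | ⟨m, _, h2⟩
    · rcases nms_cases π i with ⟨l, h3, _⟩ | ⟨l, h3, _⟩
      · omega
      · have := hπ l
        omega
    · omega
  · intro S u w hu hw
    rw [sat_toFm f (nms π) 0 (nms_ok hπ 0), nms_val u c hu, hf, hw]
    exact Iff.rfl

omit [PAM M] in
theorem upd_ne {u : ℕ → M} {i j : ℕ} {x : M} (h : j ≠ i) : Function.update u i x j = u j :=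
  Function.update_of_ne h _ _

/-- A `Σ⁰₁` formula for a `Σ₁` relation of the core. -/
theorem S1.fm {R : (ℕ → M) → Prop} (hR : S1 X R) {π : ℕ → ℕ} (hπ : PNm π) :
    ∃ (φ : Fm) (c : ℕ → M) (k : ℕ),
    IsSigma1 φ ∧ (∀ j, k ≤ j → ¬ φ.Occ (4 * j + 1)) ∧ (∀ i, φ.OccS i → i = 0) ∧
    ∀ (S : Set (Set M)) (u : ℕ → M) (w : ℕ → Set M), (∀ j, u (π j) = c j) →
      w 0 = {x | X x} → (SatP S φ u w ↔ R (fun j => u (4 * j + 5))) := by
  obtain ⟨Q, hQ, h⟩ := hR.dp
  obtain ⟨θ, c, k, h1, h2, h3, h4⟩ := hQ.fm hπ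
  refine ⟨.ex 1 θ, c, max k 1, ⟨1, θ, h1, rfl⟩, ?_, h3, ?_⟩
  · intro j hj hO
    rcases hO with hO | hO
    · omega
    · exact h2 j (le_trans (le_max_left _ _) hj) hO
  · intro S u w hu hw
    rw [sat_ex, h]
    refine exists_congr fun y => ?_
    rw [h4 S (Function.update u 1 y) w (fun j => by
      have := hπ j
      rw [upd_ne (by omega)]; exact hu j) hw]
    have e : (fun i => Function.update u 1 y (4 * (i + 1) + 1)) = fun j => u (4 * j + 5) := by
      funext i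
      rw [upd_ne (by omega)]
      congr 1
    rw [e]
    simp only [Nat.mul_zero, Nat.zero_add, Function.update_self]

/-- A `Π⁰₁` formula for the complement of a `Σ₁` relation of the core. -/
theorem S1.fmPi {R : (ℕ → M) → Prop} (hR : S1 X R) {π : ℕ → ℕ} (hπ : PNm π) :
    ∃ (φ : Fm) (c : ℕ → M) (k : ℕ),
    IsPi1 φ ∧ (∀ j, k ≤ j → ¬ φ.Occ (4 * j + 1)) ∧ (∀ i, φ.OccS i → i = 0) ∧
    ∀ (S : Set (Set M)) (u : ℕ → M) (w : ℕ → Set M), (∀ j, u (π j) = c j) →
      w 0 = {x | X x} → (SatP S φ u w ↔ ¬ R (fun j => u (4 * j + 5))) := by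
  obtain ⟨Q, hQ, h⟩ := hR.dp
  obtain ⟨θ, c, k, h1, h2, h3, h4⟩ := (dp_not' hQ).fm hπ
  refine ⟨.all 1 θ, c, max k 1, ⟨1, θ, h1, rfl⟩, ?_, h3, ?_⟩
  · intro j hj hO
    rcases hO with hO | hO
    · omega
    · exact h2 j (le_trans (le_max_left _ _) hj) hO
  · intro S u w hu hw
    rw [h, not_exists]
    refine forall_congr' fun y => ?_
    rw [h4 S (Function.update u 1 y) w (fun j => by
      have := hπ j
      rw [upd_ne (by omega)]; exact hu j) hw]
    have e : (fun i => Function.update u 1 y (4 * (i + 1) + 1)) = fun j => u (4 * j + 5) := by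
      funext i
      rw [upd_ne (by omega)]
      congr 1
    rw [e]
    simp only [Nat.mul_zero, Nat.zero_add, Function.update_self]

/-- A `Σ⁰₂` formula for a relation `∃ ∀ (bounded)` of the core. -/
theorem DP.fm2 {Q : M → M → (ℕ → M) → Prop}
    (hQ : DP X (fun v => Q (v 0) (v 1) (fun i => v (i + 2)))) {π : ℕ → ℕ} (hπ : PNm π) :
    ∃ (φ : Fm) (c : ℕ → M) (k : ℕ),
    IsSigma2 φ ∧ (∀ j, k ≤ j → ¬ φ.Occ (4 * j + 1)) ∧ (∀ i, φ.OccS i → i = 0) ∧
    ∀ (S : Set (Set M)) (u : ℕ → M) (w : ℕ → Set M), (∀ j, u (π j) = c j) →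
      w 0 = {x | X x} → (SatP S φ u w ↔ ∃ a, ∀ b, Q a b (fun j => u (4 * j + 9))) := by
  obtain ⟨θ, c, k, h1, h2, h3, h4⟩ := hQ.fm hπ
  refine ⟨.ex 1 (.all 5 θ), c, max k 2, ⟨1, 5, θ, h1, rfl⟩, ?_, h3, ?_⟩
  · intro j hj hO
    rcases hO with hO | hO | hO
    · omega
    · omega
    · exact h2 j (le_trans (le_max_left _ _) hj) hO
  · intro S u w hu hw
    rw [sat_ex]
    refine exists_congr fun a => forall_congr' fun b => ?_
    rw [h4 S (Function.update (Function.update u 1 a) 5 b) w (fun j => by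
      have := hπ j
      rw [upd_ne (by omega), upd_ne (by omega)]; exact hu j) hw]
    have e : (fun i => Function.update (Function.update u 1 a) 5 b (4 * (i + 2) + 1)) =
        fun j => u (4 * j + 9) := by
      funext i
      rw [upd_ne (by omega), upd_ne (by omega)]
      congr 1
    rw [e]
    have e1 : Function.update (Function.update u 1 a) 5 b (4 * 0 + 1) = a := by
      rw [upd_ne (by omega)]
      simp only [Nat.mul_zero, Nat.zero_add, Function.update_self]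
    have e2 : Function.update (Function.update u 1 a) 5 b (4 * 1 + 1) = b := by
      simp only [Nat.mul_one, Nat.reduceAdd, Function.update_self]
    dsimp only
    rw [e1, e2]

/-! ### `Σ₁` induction and `Δ₁` comprehension -/

/-- Standard parameter names. -/
def pst : ℕ → ℕ := fun j => 4 * j + 3

theorem pst_ok : PNm pst := fun j => by unfold pst; omega

/-- The assignment with parameters `c`. -/
def asgn (c : ℕ → M) : ℕ → M := fun i => c ((i - 3) / 4)

omit [PAM M] in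
theorem asgn_par (c : ℕ → M) (j : ℕ) : asgn c (pst j) = c j := by
  unfold asgn pst
  congr 1
  omega

omit [PAM M] in
/-- Parameters are not changed by updates of other variables. -/
theorem upd_pst {u c : ℕ → M} (hu : ∀ j, u (pst j) = c j) {i : ℕ} (hi : i % 4 ≠ 3) (x : M) :
    ∀ j, Function.update u i x (pst j) = c j := fun j => by
  have := pst_ok j
  rw [upd_ne (by rintro rfl; exact hi this)]
  exact hu j

variable {h : S.Nonempty}

/-- `Σ₁` induction in the core for the sets of a model of `Σ⁰₁` induction. -/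
theorem i1_of_valid (hv : ∀ ψ ∈ ISigma1, (ofPAM M S h).Valid ψ) (hX : {x | X x} ∈ S) : I1 X := by
  refine ⟨fun P hP h0 hs => ?_⟩
  obtain ⟨φ, c, k, h1, h2, _, h4⟩ := hP.fm pst_ok
  have h5 : ∀ (u : ℕ → M), (∀ j, u (pst j) = c j) →
      (SatP S φ u (fun _ => {x | X x}) ↔ P (u 5)) := fun u hu => by
    rw [h4 S u _ hu rfl]
  have h6 := (valid_ofPAM (h := h) _).1 (hv (indAx φ 5 (4 * (max k 2) + 1))
    ⟨φ, 5, 4 * (max k 2) + 1, h1, by omega, h2 _ (le_max_left _ _), rfl⟩)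
    (asgn c) (fun _ => {x | X x}) (fun _ => hX)
  have n1 : ¬ (Tm.var (4 * (max k 2) + 1)).Occ 5 := fun e => by
    have : 4 * (max k 2) + 1 = 5 := e
    omega
  have n2 : ¬ (Tm.add (Tm.var (4 * (max k 2) + 1)) .one).Occ 5 := fun e => by
    rcases e with e | e
    · exact n1 e
    · exact e
  unfold indAx at h6
  rw [sat_imp] at h6
  have h7 := h6 ⟨?_, ?_⟩
  · intro x
    have h8 := (h5 _ (upd_pst (asgn_par c) (by omega) x)).1 (h7 x)
    rwa [Function.update_self] at h8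
  · rw [sat_at (show ¬ Tm.zero.Occ 5 from fun e => e)]
    refine (h5 _ (upd_pst (asgn_par c) (by omega) _)).2 ?_
    rw [Function.update_self]
    exact h0
  · intro z
    rw [sat_imp, sat_at n1, sat_at n2]
    intro hz
    have k1 : ∀ (y : M) (j : ℕ), Function.update (Function.update (asgn c)
        (4 * (max k 2) + 1) z) 5 y (pst j) = c j := fun y =>
      upd_pst (upd_pst (asgn_par c) (by omega) z) (by omega) y
    have h8 := (h5 _ (k1 _)).1 hz
    rw [Function.update_self] at h8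
    refine (h5 _ (k1 _)).2 ?_
    rw [Function.update_self]
    simp only [tval, Function.update_self] at h8 ⊢
    exact hs z h8

/-- `Δ₁` comprehension. -/
theorem mem_of_d1 (hv : ∀ ψ ∈ DeltaCA, (ofPAM M S h).Valid ψ) (hX : {x | X x} ∈ S)
    {A : M → Prop} (hA : D1 X (fun v => A (v 0))) : {x | A x} ∈ S := by
  obtain ⟨φ, c, k, h1, h2, h3, h4⟩ := hA.s.fm (π := fun j => 8 * j + 3) (fun j => by dsimp only; omega)
  obtain ⟨ψ, d, l, k1, k2, k3, k4⟩ := hA.p.fmPi (π := fun j => 8 * j + 7)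
    (fun j => by dsimp only; omega)
  have h5 : ∀ (u : ℕ → M), (∀ j, u (8 * j + 3) = c j) → ∀ w : ℕ → Set M, w 0 = {x | X x} →
      (SatP S φ u w ↔ A (u 5)) := fun u hu w hw => by rw [h4 S u w hu hw]
  have k5 : ∀ (u : ℕ → M), (∀ j, u (8 * j + 7) = d j) → ∀ w : ℕ → Set M, w 0 = {x | X x} →
      (SatP S ψ u w ↔ A (u 5)) := fun u hu w hw => by rw [k4 S u w hu hw, not_not]
  have h6 := (valid_ofPAM (h := h) _).1 (hv (compAx φ ψ 5 1)
    ⟨φ, ψ, 5, 1, h1, k1, fun e => absurd (h3 1 e) (by omega), fun e => absurd (k3 1 e) (by omega),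
      rfl⟩) (fun i => if i % 8 = 3 then c (i / 8) else d (i / 8)) (fun _ => {x | X x})
    (fun _ => hX)
  have p1 : ∀ (x : M) (j : ℕ), Function.update (fun i => if i % 8 = 3 then c (i / 8) else
      d (i / 8)) 5 x (8 * j + 3) = c j := fun x j => by
    rw [upd_ne (by omega), if_pos (by omega)]
    congr 1
    omega
  have p2 : ∀ (x : M) (j : ℕ), Function.update (fun i => if i % 8 = 3 then c (i / 8) else
      d (i / 8)) 5 x (8 * j + 7) = d j := fun x j => by
    rw [upd_ne (by omega), if_neg (by omega)]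
    congr 1
    omega
  unfold compAx at h6
  rw [sat_imp] at h6
  have h7 := h6 (fun x => by
    rw [sat_iff, h5 _ (p1 x) _ rfl, k5 _ (p2 x) _ rfl])
  obtain ⟨Z, hZ, h8⟩ := sat_exS.1 h7
  have e : {x | A x} = Z := by
    ext x
    have h9 := h8 x
    rw [sat_iff, h5 _ (p1 x) _ (by rw [Function.update_of_ne (by omega)])] at h9
    simp only [SatP, tval, Function.update_self] at h9
    exact h9.symm
  rw [e]
  exact hZ

end Pool.Agent.PD2
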