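import Pool.Agent.Work.MP_a6ae3a_lc.API
import Pool.Agent.Work.MP_a6ae3a_lc.Trans

/-!
# From models of `RCA₀ + BΣ⁰₂` to the core: joins and `B2`
-/

namespace Pool.Agent.PD2

variable {M : Type} [PAM M] {S : Set (Set M)} {h : S.Nonempty} {X Y : M → Prop}

/-! ### Parity -/

theorem dbl_inj {x y : M} (e : x + x = y + y) : x = y := by
  rcases lt_trichotomy x y with hl | hl | hl
  · exact absurd e (ne_of_lt (add_lt_add hl hl))
  · exact hl
  · exact absurd e (ne_of_gt (add_lt_add hl hl))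

theorem dbl_ne {x y : M} : x + x ≠ y + y + 1 := by
  intro e
  rcases lt_or_ge y x with hl | hl
  · have h1 : y + 1 ≤ x := succ_le_iff.2 hl
    have h2 : y + y + 1 < x + x := by
      calc y + y + 1 < y + y + 1 + 1 := lt_succ_self _
        _ = (y + 1) + (y + 1) := by ring
        _ ≤ x + x := add_le_add h1 h1
    exact absurd e (ne_of_gt h2)
  · have h2 : x + x < y + y + 1 := lt_succ_iff.2 (add_le_add hl hl)
    exact absurd e (ne_of_lt h2)

theorem parity (X : M → Prop) [I1 X] (z : M) : ∃ y, z = y + y ∨ z = y + y + 1 := by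
  have h1 : S1 X (fun v : ℕ → M => ∃ y, v 0 = y + y ∨ v 0 = y + y + 1) :=
    S1.exists (R := fun y v => v 0 = y + y ∨ v 0 = y + y + 1)
      (inferInstance : D1 X (fun v : ℕ → M => v 1 = v 0 + v 0 ∨ v 1 = v 0 + v 0 + 1)).s
  refine ind_s (P := fun z => ∃ y, z = y + y ∨ z = y + y + 1) h1 ⟨0, Or.inl (by simp)⟩ ?_ z
  rintro x ⟨y, rfl | rfl⟩
  · exact ⟨y, Or.inr rfl⟩
  · exact ⟨y + 1, Or.inl (by ring)⟩

/-! ### Joins -/

/-- The join of two sets of a model is in the model. -/
theorem join_mem (hi : ∀ ψ ∈ ISigma1, (ofPAM M S h).Valid ψ)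
    (hv : ∀ ψ ∈ DeltaCA, (ofPAM M S h).Valid ψ) (hX : {x | X x} ∈ S) (hY : {x | Y x} ∈ S) :
    {x | jn X Y x} ∈ S := by
  have : I1 X := i1_of_valid hi hX
  let θ1 : Fm := .or (.and (.eq (tx 0) (.add (tx 1) (tx 1))) (.mem (tx 1) 0))
    (.and (.eq (tx 0) (.add (.add (tx 1) (tx 1)) .one)) (.mem (tx 1) 1))
  let θ2 : Fm := .and (.imp (.eq (tx 0) (.add (tx 1) (tx 1))) (.mem (tx 1) 0))
    (.imp (.eq (tx 0) (.add (.add (tx 1) (tx 1)) .one)) (.mem (tx 1) 1))
  have b1 : Bdd θ1 := .neg (.and (.neg (.and (.eq _ _) (.mem _ _)))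
    (.neg (.and (.eq _ _) (.mem _ _))))
  have b2 : Bdd θ2 := .and (.neg (.and (.eq _ _) (.neg (.mem _ _))))
    (.neg (.and (.eq _ _) (.neg (.mem _ _))))
  have s1 : ∀ (u : ℕ → M) (w : ℕ → Set M), w 0 = {x | X x} → w 1 = {x | Y x} →
      (SatP S (.ex 1 θ1) u w ↔ jn X Y (u 0)) := by
    intro u w h0 h1
    rw [sat_ex]
    have e : ∀ y : M, SatP S θ1 (Function.update u 1 y) w ↔
        (u 0 = y + y ∧ X y) ∨ (u 0 = y + y + 1 ∧ Y y) := by
      intro y
      have e0 : Function.update u 1 y 0 = u 0 := upd_ne (by omega)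
      simp only [θ1, sat_or, SatP, tval, Function.update_self, e0, h0, h1, Set.mem_setOf_eq]
    simp only [e]
    exact exists_or
  have s2 : ∀ (u : ℕ → M) (w : ℕ → Set M), w 0 = {x | X x} → w 1 = {x | Y x} →
      (SatP S (.all 1 θ2) u w ↔ jn X Y (u 0)) := by
    intro u w h0 h1
    have e : ∀ y : M, SatP S θ2 (Function.update u 1 y) w ↔
        (u 0 = y + y → X y) ∧ (u 0 = y + y + 1 → Y y) := by
      intro y
      have e0 : Function.update u 1 y 0 = u 0 := upd_ne (by omega)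
      simp only [θ2, sat_imp, SatP, tval, Function.update_self, e0, h0, h1, Set.mem_setOf_eq]
    have e' : SatP S (.all 1 θ2) u w ↔ ∀ y : M, (u 0 = y + y → X y) ∧ (u 0 = y + y + 1 → Y y) :=
      forall_congr' e
    rw [e']
    constructor
    · intro H
      obtain ⟨y, hy | hy⟩ := parity X (u 0)
      · exact Or.inl ⟨y, hy, (H y).1 hy⟩
      · exact Or.inr ⟨y, hy, (H y).2 hy⟩
    · rintro (⟨y, hy, h2⟩ | ⟨y, hy, h2⟩) z
      · refine ⟨fun hz => ?_, fun hz => ?_⟩
        · rw [hy] at hz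
          rw [← dbl_inj hz]; exact h2
        · rw [hy] at hz
          exact absurd hz dbl_ne
      · refine ⟨fun hz => ?_, fun hz => ?_⟩
        · rw [hy] at hz
          exact absurd hz.symm dbl_ne
        · rw [hy] at hz
          rw [← dbl_inj (add_right_cancel hz)]; exact h2
  let w0 : ℕ → Set M := fun i => if i = 0 then {x | X x} else {x | Y x}
  have hw0 : ∀ i, w0 i ∈ S := fun i => by
    by_cases e : i = 0
    · simp only [w0, e, if_true]; exact hX
    · simp only [w0, e, if_false]; exact hY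
  have h6 := (valid_ofPAM (h := h) _).1 (hv (compAx (.ex 1 θ1) (.all 1 θ2) 0 2)
    ⟨_, _, 0, 2, ⟨1, θ1, b1, rfl⟩, ⟨1, θ2, b2, rfl⟩, by
      simp [θ1, Fm.or, Fm.ex, Fm.OccS], by
      simp [θ2, Fm.imp, Fm.OccS], rfl⟩) (fun _ => 0) w0 hw0
  unfold compAx at h6
  rw [sat_imp] at h6
  have h7 := h6 (fun x => by
    rw [sat_iff, s1 _ _ rfl rfl, s2 _ _ rfl rfl])
  obtain ⟨Z, hZ, h8⟩ := sat_exS.1 h7
  have e : {x | jn X Y x} = Z := by
    ext x
    have h9 := h8 x
    rw [sat_iff, s1 _ _ (by rw [Function.update_of_ne (by omega)]; rfl)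
      (by rw [Function.update_of_ne (by omega)]; rfl)] at h9
    simp only [SatP, tval, Function.update_self] at h9
    exact h9.symm
  rw [e]
  exact hZ

variable [IM M]

/-- Finitely many sets of a model are computable from one set of the model. -/
theorem ex_join (hi : ∀ ψ ∈ ISigma1, (ofPAM M S h).Valid ψ)
    (hv : ∀ ψ ∈ DeltaCA, (ofPAM M S h).Valid ψ) (w : ℕ → Set M) (hw : ∀ i, w i ∈ S) (n : ℕ) :
    ∃ X : M → Prop, {x | X x} ∈ S ∧ ∀ i < n, D1 X (fun v => v 0 ∈ w i) := by
  induction n with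
  | zero => exact ⟨fun x => x ∈ w 0, hw 0, fun i hi => absurd hi (Nat.not_lt_zero i)⟩
  | succ n ih =>
    obtain ⟨X, hX, h1⟩ := ih
    have h2 : {x | jn X (fun x => x ∈ w n) x} ∈ S := join_mem hi hv hX (hw n)
    have : I1 (jn X (fun x => x ∈ w n)) := i1_of_valid hi h2
    refine ⟨_, h2, fun i hi' => ?_⟩
    rcases Nat.lt_succ_iff_lt_or_eq.1 hi' with h3 | rfl
    · exact D1.trans d1_jn_l (h1 i h3)
    · exact d1_jn_r (X := X) (H := fun x => x ∈ w i)

/-! ### Collection -/

theorem b2_of_valid [I1 X] (hv : ∀ ψ ∈ BSigma2, (ofPAM M S h).Valid ψ) (hX : {x | X x} ∈ S) :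
    B2 X := by
  refine b2_of_coll fun P hP a ha => ?_
  obtain ⟨Q, hQ, hPQ⟩ := hP.dp
  have k1 : DP X (fun s : ℕ → M => ¬ Q (s 0) (psh (s 4) (psh (s 5) (psh (s 1) fun _ => 0)))) := by
    refine dp_not' ?_
    refine DP.congr (DP.sub hQ (g := fun i s => match i with
      | 0 => s 0
      | 1 => s 4
      | 2 => s 5
      | 3 => s 1
      | i + 4 => 0) (fun i => by
        match i with
        | 0 => exact vr_var 0
        | 1 => exact vr_var 4
        | 2 => exact vr_var 5
        | 3 => exact vr_var 1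
        | i + 4 => exact vr_const _)) (fun s => ?_)
    have e : (fun i => (match i + 1 with
        | 0 => s 0
        | 1 => s 4
        | 2 => s 5
        | 3 => s 1
        | i + 4 => 0 : M)) = psh (s 4) (psh (s 5) (psh (s 1) fun _ => 0)) := by
      funext i
      match i with
      | 0 => rfl
      | 1 => rfl
      | 2 => rfl
      | i + 3 => rfl
    rw [← e]
  have k2 : DP X (fun s : ℕ → M => ∀ z, z < s 1 → ∀ b, b < s 1 →
      ¬ Q b (psh (s 2) (psh (s 3) (psh z fun _ => 0)))) := by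
    refine @dp_all _ _ _ (fun s => s 1) (fun z s => ∀ b, b < s 1 →
      ¬ Q b (psh (s 2) (psh (s 3) (psh z fun _ => 0)))) _ ?_
    refine @dp_all _ _ _ (fun s => s 2) (fun b s =>
      ¬ Q b (psh (s 3) (psh (s 4) (psh (s 0) fun _ => 0)))) _ ?_
    exact k1
  obtain ⟨φ, c, k, h1, h2, _, h4⟩ := DP.fm2 (Q := fun _ w v => ∀ z, z < w → ∀ b, b < w →
      ¬ Q b (psh (v 0) (psh (v 1) (psh z fun _ => 0)))) k2 pst_ok
  have h5 : ∀ (u : ℕ → M), (∀ j, u (pst j) = c j) →
      (SatP S φ u (fun _ => {x | X x}) ↔ ∀ z, ¬ P (u 9) (u 13) z) := fun u hu => by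
    rw [h4 S u _ hu rfl]
    have e : ∀ x y z, P x y z ↔ ∃ b, Q b (psh x (psh y (psh z fun _ => 0))) := fun x y z =>
      hPQ (psh x (psh y (psh z fun _ => 0)))
    simp only [e]
    constructor
    · rintro ⟨_, H⟩ z ⟨b, hb⟩
      obtain ⟨w, hz, hb'⟩ := exists_gt2 z b
      exact H w z hz b hb' hb
    · intro H
      exact ⟨0, fun w z _ b _ hb => H z ⟨b, hb⟩⟩
  have h6 := (valid_ofPAM (h := h) _).1 (hv (collAx φ 9 13 (4 * (max k 4) + 1)
    (4 * (max k 4) + 5)) ⟨φ, 9, 13, 4 * (max k 4) + 1, 4 * (max k 4) + 5, h1, by omega, by omega,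
      by omega, by omega, by omega, by omega, h2 _ (le_max_left _ _), by
        have := h2 (max k 4 + 1) (by omega)
        exact this, rfl⟩)
    (Function.update (asgn c) (4 * (max k 4) + 1) a) (fun _ => {x | X x}) (fun _ => hX)
  unfold collAx at h6
  have n1 : ¬ (tx (4 * (max k 4) + 1)).Occ 9 := fun e => by
    have : 4 * (max k 4) + 1 = 9 := e
    omega
  have n2 : ¬ (tx (4 * (max k 4) + 5)).Occ 13 := fun e => by
    have : 4 * (max k 4) + 5 = 13 := e
    omega
  rw [sat_imp, sat_ball n1, sat_ex] at h6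
  have c0 : ∀ j, Function.update (asgn c) (4 * (max k 4) + 1) a (pst j) = c j :=
    upd_pst (asgn_par c) (by omega) a
  have a0 : tval (Function.update (asgn c) (4 * (max k 4) + 1) a) (tx (4 * (max k 4) + 1)) = a := by
    simp only [tval, Function.update_self]
  have h7 := h6 (fun x hx => by
    rw [a0] at hx
    obtain ⟨y, hy⟩ := ha x hx
    rw [sat_ex]
    refine ⟨y, (h5 _ (upd_pst (upd_pst c0 (by omega) x) (by omega) y)).2 ?_⟩
    rw [Function.update_self, upd_ne (by omega), Function.update_self]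
    exact hy)
  obtain ⟨b, hb⟩ := h7
  rw [sat_ball n1] at hb
  refine ⟨b, fun x hx => ?_⟩
  have h8 := hb x (by
    have e : tval (Function.update (Function.update (asgn c) (4 * (max k 4) + 1) a)
        (4 * (max k 4) + 5) b) (tx (4 * (max k 4) + 1)) = a := by
      simp only [tval]
      rw [upd_ne (by omega), Function.update_self]
    rw [e]
    exact hx)
  rw [sat_bex n2] at h8
  obtain ⟨y, hy, h9⟩ := h8
  refine ⟨y, ?_, ?_⟩
  · have e : tval (Function.update (Function.update (Function.update (asgn c)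
        (4 * (max k 4) + 1) a) (4 * (max k 4) + 5) b) 9 x) (tx (4 * (max k 4) + 5)) = b := by
      simp only [tval]
      rw [upd_ne (by omega), Function.update_self]
    rw [e] at hy
    exact hy
  · have h10 := (h5 _ (upd_pst (upd_pst (upd_pst c0 (by omega) b) (by omega) x) (by omega) y)).1 h9
    rw [Function.update_self, upd_ne (by omega), Function.update_self] at h10
    exact h10

end Pool.Agent.PD2
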