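import Pool.Agent.Work.MP_a6ae3a_lc.Cls

/-!
# The join of two sets
-/

namespace Pool.Agent.PD2

variable {M : Type} [PAM M]

/-- The join. -/
def jn (X H : M → Prop) : M → Prop := fun z => (∃ x, z = x + x ∧ X x) ∨ ∃ x, z = x + x + 1 ∧ H x

theorem parity_jn (X : M → Prop) [I1 X] (x : M) : ∃ y, y ≤ x ∧ (x = y + y ∨ x = y + y + 1) := by
  refine ind_d X (P := fun x : M => ∃ y, y ≤ x ∧ (x = y + y ∨ x = y + y + 1)) inferInstance ?_ ?_ x
  · exact ⟨0, le_rfl, Or.inl (add_zero 0).symm⟩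
  · rintro x ⟨y, hy, rfl | rfl⟩
    · exact ⟨y, hy.trans le_self_add, Or.inr rfl⟩
    · refine ⟨y + 1, ?_, Or.inl (by ring)⟩
      rw [show y + y + 1 + 1 = (y + 1) + (y + 1) by ring]
      exact le_self_add

theorem even_inj {x y : M} (h : x + x = y + y) : x = y := by
  rcases lt_trichotomy x y with h1 | h1 | h1
  · exact absurd h (add_lt_add h1 h1).ne
  · exact h1
  · exact absurd h (add_lt_add h1 h1).ne'

theorem even_ne_odd {x y : M} (h : x + x = y + y + 1) : False := by
  rcases lt_or_ge y x with h1 | h1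
  · have h2 : y + 1 ≤ x := succ_le_iff.2 h1
    have h3 : y + 1 + (y + 1) ≤ x + x := add_le_add h2 h2
    rw [h, show y + 1 + (y + 1) = y + y + 1 + 1 by ring] at h3
    exact absurd h3 (not_le.2 (lt_succ_self _))
  · have h3 : x + x ≤ y + y := add_le_add h1 h1
    rw [h] at h3
    exact absurd h3 (not_le.2 (lt_succ_self _))

theorem odd_inj {x y : M} (h : x + x + 1 = y + y + 1) : x = y :=
  even_inj (add_right_cancel h)

theorem jn_even {X H : M → Prop} {x : M} : jn X H (x + x) ↔ X x := by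
  constructor
  · rintro (⟨y, h1, h2⟩ | ⟨y, h1, h2⟩)
    · rwa [even_inj h1]
    · exact absurd h1 (fun h => even_ne_odd h)
  · exact fun h => Or.inl ⟨x, rfl, h⟩

theorem jn_odd {X H : M → Prop} {x : M} : jn X H (x + x + 1) ↔ H x := by
  constructor
  · rintro (⟨y, h1, h2⟩ | ⟨y, h1, h2⟩)
    · exact absurd h1.symm (fun h => even_ne_odd h)
    · rwa [odd_inj h1]
  · exact fun h => Or.inr ⟨x, rfl, h⟩

instance d1_jn_l {X H : M → Prop} {f : (ℕ → M) → M} [hf : F1 (jn X H) f] :
    D1 (jn X H) (fun v => X (f v)) :=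
  D1.congr (R := fun v => jn X H (f v + f v))
    (@d1_mem M _ (jn X H) (fun v => f v + f v) inferInstance) fun _ => jn_even

instance d1_jn_r {X H : M → Prop} {f : (ℕ → M) → M} [hf : F1 (jn X H) f] :
    D1 (jn X H) (fun v => H (f v)) :=
  D1.congr (R := fun v => jn X H (f v + f v + 1))
    (@d1_mem M _ (jn X H) (fun v => f v + f v + 1) inferInstance) fun _ => jn_odd

end Pool.Agent.PD2
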