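import Pool.Agent.Work.MP_a6ae3a_lc.Pure

/-!
# The low basis theorem: core

Binary trees of coded sets in a model of `Σ₁` induction, with an abstract coding of sets.
-/

namespace Pool.Agent.PD2

variable {M : Type} [PAM M]

/-- The facts on the coding of sets which are used in the low basis theorem. -/
structure LB (tw : M → M) (Bt : M → M → Prop) (rs : M → M → M) : Prop where
  tw0 : 0 < tw 0
  twm : ∀ {n m : M}, n ≤ m → tw n ≤ tw m
  blt : ∀ {c n x : M}, c < tw n → Bt c x → x < n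
  rlt : ∀ c n : M, rs c n < tw n
  rbt : ∀ c n x : M, Bt (rs c n) x ↔ x < n ∧ Bt c x
  ins : ∀ {w n : M}, w < tw n → ∃ w', w' < tw (n + 1) ∧ ∀ x, Bt w' x ↔ Bt w x ∨ x = n

variable {Y J : M → Prop} {tw : M → M} {Bt : M → M → Prop} {rs : M → M → M}

namespace Low

section defs

variable (tw Bt rs)

/-- The requirements: `2 e` stands for `K e`, `2 i + 1` for `i ∈ s`. -/
def K2 (K : M → M → M → Prop) (f s m : M) : Prop :=
  (∃ e, e ≤ f ∧ f = 2 * e ∧ K e s m) ∨ (∃ i, i ≤ f ∧ f = 2 * i + 1 ∧ i < m ∧ Bt s i)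

/-- `s` is in the level `m` of the subtree for the set `w` of positive requirements below `n`. -/
def QQ (T : M → M → Prop) (L : M → M → M → Prop) (n w s m : M) : Prop :=
  T m s ∧ ∀ e, e < n → ¬ Bt w e → ¬ L e s m

/-- The subtree is infinite. -/
def Inf (T : M → M → Prop) (L : M → M → M → Prop) (n w : M) : Prop :=
  ∀ m, ∃ s, s < tw m ∧ QQ Bt T L n w s m

/-- `w` is the least set of positive requirements. -/
def Cor (T : M → M → Prop) (L : M → M → M → Prop) (n w : M) : Prop :=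
  w < tw n ∧ Inf tw Bt T L n w ∧ ∀ e, e < n → Bt w e → ¬ Inf tw Bt T L (e + 1) (rs w e)

/-- The set of positive requirements. -/
def WW (T : M → M → Prop) (L : M → M → M → Prop) (e : M) : Prop :=
  ∃ w, w < tw (e + 1) ∧ Cor tw Bt rs T L (e + 1) w ∧ Bt w e

end defs

theorem two_ne (e i : M) : 2 * e ≠ 2 * i + 1 := by
  intro h
  rcases le_or_gt e i with h1 | h1
  · have h2 : 2 * e ≤ 2 * i := by gcongr
    rw [h] at h2
    exact absurd h2 (not_le.2 (lt_succ_self _))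
  · have h1' : i + 1 ≤ e := succ_le_iff.2 h1
    have h2 : 2 * (i + 1) ≤ 2 * e := by gcongr
    rw [h] at h2
    have h3 : 2 * (i + 1) = 2 * i + 1 + 1 := by ring
    rw [h3] at h2
    exact absurd h2 (not_le.2 (lt_succ_self _))

theorem two_inj {e i : M} (h : 2 * e = 2 * i) : e = i := by
  rcases lt_trichotomy e i with h1 | h1 | h1
  · have : 2 * e < 2 * i := by
      have h2 : (0 : M) < 2 := zero_lt_two
      gcongr
    exact absurd h this.ne
  · exact h1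
  · have : 2 * i < 2 * e := by
      have h2 : (0 : M) < 2 := zero_lt_two
      gcongr
    exact absurd h.symm this.ne

theorem K2_even {K : M → M → M → Prop} {e s m : M} : K2 Bt K (2 * e) s m ↔ K e s m := by
  unfold K2
  constructor
  · rintro (⟨e', _, h, hK⟩ | ⟨i, _, h, _⟩)
    · rw [two_inj h]; exact hK
    · exact absurd h (two_ne _ _)
  · intro h
    refine Or.inl ⟨e, ?_, rfl, h⟩
    calc e = 1 * e := (one_mul e).symm
      _ ≤ 2 * e := by gcongr; exact one_le_two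

theorem K2_odd {K : M → M → M → Prop} {i s m : M} :
    K2 Bt K (2 * i + 1) s m ↔ i < m ∧ Bt s i := by
  unfold K2
  constructor
  · rintro (⟨e', _, h, hK⟩ | ⟨i', _, h, h'⟩)
    · exact absurd h.symm (two_ne _ _)
    · have := two_inj (add_right_cancel h)
      rw [this]; exact h'
  · intro h
    refine Or.inr ⟨i, ?_, rfl, h⟩
    calc i = 1 * i := (one_mul i).symm
      _ ≤ 2 * i := by gcongr; exact one_le_two
      _ ≤ 2 * i + 1 := le_self_add

/-- Monotonicity of requirements. -/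
def Mono (Bt : M → M → Prop) (L : M → M → M → Prop) : Prop :=
  ∀ e s m s' m', m ≤ m' → (∀ x, x < m → (Bt s x ↔ Bt s' x)) → L e s m → L e s' m'

theorem K2_mono {K : M → M → M → Prop} (h : Mono Bt K) : Mono Bt (K2 Bt K) := by
  rintro f s m s' m' hm hs (⟨e, h1, h2, h3⟩ | ⟨i, h1, h2, h3, h4⟩)
  · exact Or.inl ⟨e, h1, h2, h e s m s' m' hm hs h3⟩
  · exact Or.inr ⟨i, h1, h2, lt_of_lt_of_le h3 hm, (hs i h3).1 h4⟩

/-- Trees. -/
structure Tree (tw : M → M) (Bt : M → M → Prop) (T : M → M → Prop) : Prop where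
  down : ∀ {n m s s'}, T m s → n ≤ m → s' < tw n → (∀ x, x < n → (Bt s x ↔ Bt s' x)) → T n s'
  inf : ∀ n, ∃ s, s < tw n ∧ T n s

section

variable {T : M → M → Prop} {L : M → M → M → Prop}

theorem Inf.mono {n w n' w' : M} (h : Inf tw Bt T L n w)
    (h' : ∀ e, e < n' → ¬ Bt w' e → e < n ∧ ¬ Bt w e) : Inf tw Bt T L n' w' := by
  intro m
  obtain ⟨s, hs, h1, h2⟩ := h m
  exact ⟨s, hs, h1, fun e he hw => h2 e (h' e he hw).1 (h' e he hw).2⟩

theorem cor_zero (B : LB tw Bt rs) (hT : Tree tw Bt T) : Cor tw Bt rs T L 0 0 := by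
  refine ⟨B.tw0, fun m => ?_, fun e he => absurd he (not_lt_zero' e)⟩
  obtain ⟨s, hs, h⟩ := hT.inf m
  exact ⟨s, hs, h, fun e he => absurd he (not_lt_zero' e)⟩

theorem cor_succ (B : LB tw Bt rs) {n : M} (h : ∃ w, w < tw n ∧ Cor tw Bt rs T L n w) :
    ∃ w, w < tw (n + 1) ∧ Cor tw Bt rs T L (n + 1) w := by
  obtain ⟨w, _, hw, hI, hC⟩ := h
  by_cases h1 : Inf tw Bt T L (n + 1) w
  · have h2 : w < tw (n + 1) := lt_of_lt_of_le hw (B.twm le_self_add)
    exact ⟨w, h2, h2, h1, fun e he hb => hC e (B.blt hw hb) hb⟩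
  · obtain ⟨w', hw', hb'⟩ := B.ins hw
    have key : ∀ e, e < n → (Bt w' e ↔ Bt w e) := fun e he => by
      rw [hb' e]
      exact ⟨fun h => h.resolve_right he.ne, Or.inl⟩
    refine ⟨w', hw', hw', ?_, ?_⟩
    · refine hI.mono fun e he hb => ?_
      rcases lt_succ_cases he with he | rfl
      · exact ⟨he, fun h => hb ((key e he).2 h)⟩
      · exact absurd ((hb' e).2 (Or.inr rfl)) hb
    · intro e he hb hInf
      rcases lt_succ_cases he with he | rfl
      · refine hC e he ((key e he).1 hb) (hInf.mono fun x hx hxb => ⟨hx, fun h => hxb ?_⟩)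
        rw [B.rbt] at h ⊢
        exact ⟨h.1, (key x (lt_trans h.1 he)).1 h.2⟩
      · refine h1 (hInf.mono fun x hx hxb => ⟨hx, fun h => hxb ?_⟩)
        rw [B.rbt] at h
        exact (key x h.1).1 h.2

/-- Coherence. -/
theorem cor_uniq (B : LB tw Bt rs) [I1 Y]
    (dBt : D1 Y (fun v => Bt (v 0) (v 1))) {n w n' w' : M}
    (h : Cor tw Bt rs T L n w) (h' : Cor tw Bt rs T L n' w') {e : M} (he : e < n) (he' : e < n') :
    Bt w e ↔ Bt w' e := by
  have iBt : ∀ {f g : (ℕ → M) → M} [F1 Y f] [F1 Y g], D1 Y (fun v => Bt (f v) (g v)) :=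
    fun {f g} hf hg => D1.s2 dBt hf hg
  -- one direction of the least difference
  have aux : ∀ {n w n' w' e : M}, Cor tw Bt rs T L n w → Cor tw Bt rs T L n' w' → e < n → e < n' →
      (∀ x, x < e → (Bt w x ↔ Bt w' x)) → Bt w e → Bt w' e := by
    intro n w n' w' e h h' he he' hx hb
    by_contra hb'
    refine h.2.2 e he hb (h'.2.1.mono fun x hxe hxb => ?_)
    rw [B.rbt] at hxb
    rcases lt_succ_cases hxe with h1 | rfl
    · exact ⟨lt_trans h1 he', fun h2 => hxb ⟨h1, (hx x h1).2 h2⟩⟩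
    · exact ⟨he', hb'⟩
  by_contra hne
  have hd : D1 Y (fun v : ℕ → M => v 0 < n ∧ v 0 < n' ∧ ¬ (Bt w (v 0) ↔ Bt w' (v 0))) :=
    inferInstance
  obtain ⟨x, ⟨hx1, hx2, hx3⟩, hmin⟩ := least_d Y (P := fun x => x < n ∧ x < n' ∧
    ¬ (Bt w x ↔ Bt w' x)) hd ⟨e, he, he', hne⟩
  have hlow : ∀ y, y < x → (Bt w y ↔ Bt w' y) := fun y hy => by
    by_contra hc
    exact hmin y hy ⟨lt_trans hy hx1, lt_trans hy hx2, hc⟩
  refine hx3 ⟨aux h h' hx1 hx2 hlow, aux h' h hx2 hx1 fun y hy => (hlow y hy).symm⟩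

/-- The definability facts which are used. -/
structure Df (Y : M → Prop) (tw : M → M) (Bt : M → M → Prop) (rs : M → M → M) : Prop where
  tw : F1 Y (fun v => tw (v 0))
  bt : D1 Y (fun v => Bt (v 0) (v 1))
  rs : F1 Y (fun v => rs (v 0) (v 1))

theorem s1_not_inf [C1 Y] (D : Df Y tw Bt rs) (dT : D1 Y (fun v => T (v 0) (v 1)))
    (dL : D1 Y (fun v => L (v 0) (v 1) (v 2))) :
    S1 Y (fun v => ¬ Inf tw Bt T L (v 0) (v 1)) := by
  have iBt : ∀ {f g : (ℕ → M) → M} [F1 Y f] [F1 Y g], D1 Y (fun v => Bt (f v) (g v)) :=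
    fun {f g} hf hg => D1.s2 D.bt hf hg
  have iT : ∀ {f g : (ℕ → M) → M} [F1 Y f] [F1 Y g], D1 Y (fun v => T (f v) (g v)) :=
    fun {f g} hf hg => D1.s2 dT hf hg
  have iL : ∀ {f g h : (ℕ → M) → M} [F1 Y f] [F1 Y g] [F1 Y h],
      D1 Y (fun v => L (f v) (g v) (h v)) := fun {f g h} hf hg hh => D1.s3 dL hf hg hh
  have itw : ∀ {f : (ℕ → M) → M} [F1 Y f], F1 Y (fun v => tw (f v)) :=
    fun {f} hf => F1.s1 D.tw hf
  refine S1.congr (R := fun v : ℕ → M => ∃ m, ∀ s, s < tw m → ¬ (T m s ∧ ∀ e, e < v 0 →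
    ¬ Bt (v 1) e → ¬ L e s m)) inferInstance fun v => ?_
  unfold Inf QQ
  simp only [not_forall, not_exists, not_and, not_not]

/-- The level 2 facts on `J` which are used. -/
structure Jf (Y J : M → Prop) : Prop where
  up : ∀ {R : (ℕ → M) → Prop}, S1 Y R → D1 J R
  ind : ∀ {P : M → Prop}, D1 J (fun v => P (v 0)) → P 0 → (∀ x, P x → P (x + 1)) → ∀ x, P x

theorem Jf.updf (hJ : Jf Y J) {f : (ℕ → M) → M} (hf : F1 Y f) : F1 J f := ⟨(hJ.up hf.g).s⟩

theorem Jf.upd (hJ : Jf Y J) {R : (ℕ → M) → Prop} (hR : D1 Y R) : D1 J R := hJ.up hR.s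

theorem d1_cor [C1 Y] [C1 J] (hJ : Jf Y J) (D : Df Y tw Bt rs)
    (dT : D1 Y (fun v => T (v 0) (v 1))) (dL : D1 Y (fun v => L (v 0) (v 1) (v 2))) :
    D1 J (fun v => Cor tw Bt rs T L (v 0) (v 1)) := by
  have hI : D1 J (fun v => Inf tw Bt T L (v 0) (v 1)) :=
    D1.congr (D1.not (hJ.up (s1_not_inf D dT dL))) fun v => not_not
  have iI : ∀ {f g : (ℕ → M) → M} [F1 J f] [F1 J g], D1 J (fun v => Inf tw Bt T L (f v) (g v)) :=
    fun {f g} hf hg => D1.s2 hI hf hg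
  have iBt : ∀ {f g : (ℕ → M) → M} [F1 J f] [F1 J g], D1 J (fun v => Bt (f v) (g v)) :=
    fun {f g} hf hg => D1.s2 (hJ.upd D.bt) hf hg
  have irs : ∀ {f g : (ℕ → M) → M} [F1 J f] [F1 J g], F1 J (fun v => rs (f v) (g v)) :=
    fun {f g} hf hg => F1.s2 (hJ.updf D.rs) hf hg
  have itw : ∀ {f : (ℕ → M) → M} [F1 J f], F1 J (fun v => tw (f v)) :=
    fun {f} hf => F1.s1 (hJ.updf D.tw) hf
  unfold Cor
  infer_instance

theorem ex_cor [C1 Y] [C1 J] (hJ : Jf Y J) (D : Df Y tw Bt rs) (B : LB tw Bt rs)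
    (dT : D1 Y (fun v => T (v 0) (v 1))) (dL : D1 Y (fun v => L (v 0) (v 1) (v 2)))
    (hT : Tree tw Bt T) (n : M) : ∃ w, w < tw n ∧ Cor tw Bt rs T L n w := by
  have hC := d1_cor hJ D dT dL
  have iC : ∀ {f g : (ℕ → M) → M} [F1 J f] [F1 J g],
      D1 J (fun v => Cor tw Bt rs T L (f v) (g v)) := fun {f g} hf hg => D1.s2 hC hf hg
  have itw : ∀ {f : (ℕ → M) → M} [F1 J f], F1 J (fun v => tw (f v)) :=
    fun {f} hf => F1.s1 (hJ.updf D.tw) hf
  refine hJ.ind (P := fun n => ∃ w, w < tw n ∧ Cor tw Bt rs T L n w) inferInstance ?_ ?_ n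
  · exact ⟨0, B.tw0, cor_zero B hT⟩
  · exact fun n h => cor_succ B h

theorem d1_ww [C1 Y] [C1 J] (hJ : Jf Y J) (D : Df Y tw Bt rs)
    (dT : D1 Y (fun v => T (v 0) (v 1))) (dL : D1 Y (fun v => L (v 0) (v 1) (v 2))) :
    D1 J (fun v => WW tw Bt rs T L (v 0)) := by
  have hC := d1_cor hJ D dT dL
  have iC : ∀ {f g : (ℕ → M) → M} [F1 J f] [F1 J g],
      D1 J (fun v => Cor tw Bt rs T L (f v) (g v)) := fun {f g} hf hg => D1.s2 hC hf hg
  have iBt : ∀ {f g : (ℕ → M) → M} [F1 J f] [F1 J g], D1 J (fun v => Bt (f v) (g v)) :=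
    fun {f g} hf hg => D1.s2 (hJ.upd D.bt) hf hg
  have itw : ∀ {f : (ℕ → M) → M} [F1 J f], F1 J (fun v => tw (f v)) :=
    fun {f} hf => F1.s1 (hJ.updf D.tw) hf
  unfold WW
  infer_instance

/-- The set of positive requirements is the union of the coded sets. -/
theorem cor_ww (B : LB tw Bt rs) [I1 Y] (D : Df Y tw Bt rs)
    (hex : ∀ n, ∃ w, w < tw n ∧ Cor tw Bt rs T L n w) {n w e : M} (h : Cor tw Bt rs T L n w)
    (he : e < n) : Bt w e ↔ WW tw Bt rs T L e := by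
  constructor
  · intro hb
    obtain ⟨w', hw', h'⟩ := hex (e + 1)
    exact ⟨w', hw', h', (cor_uniq (Y := Y) B D.bt h h' he (lt_succ_self e)).1 hb⟩
  · rintro ⟨w', hw', h', hb⟩
    exact (cor_uniq (Y := Y) B D.bt h' h (lt_succ_self e) he).1 hb

end

section path

variable {T : M → M → Prop} {K : M → M → M → Prop}

/-- The path. -/
def PH (tw : M → M) (Bt : M → M → Prop) (rs : M → M → M) (T : M → M → Prop)
    (K : M → M → M → Prop) (i : M) : Prop := WW tw Bt rs T (K2 Bt K) (2 * i + 1)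

/-- All restrictions of the path are in all subtrees. -/
theorem path_mem [I1 Y] (D : Df Y tw Bt rs) (B : LB tw Bt rs) (hT : Tree tw Bt T)
    (dT : D1 Y (fun v => T (v 0) (v 1))) (dK : D1 Y (fun v => K2 Bt K (v 0) (v 1) (v 2)))
    (mK : Mono Bt K)
    (hex : ∀ n, ∃ w, w < tw n ∧ Cor tw Bt rs T (K2 Bt K) n w) {n w : M}
    (h : Cor tw Bt rs T (K2 Bt K) n w) (t : M) :
    ∃ s, s < tw t ∧ QQ Bt T (K2 Bt K) n w s t ∧ ∀ x, x < t → (Bt s x ↔ PH tw Bt rs T K x) := by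
  have mL := K2_mono mK
  obtain ⟨w', _, h'⟩ := hex (n + (2 * t + 1))
  have hn : n ≤ n + (2 * t + 1) := le_self_add
  have ht : ∀ x, x < t → 2 * x + 1 < n + (2 * t + 1) := by
    intro x hx
    have h1 : 2 * x < 2 * t := by
      have h2 : (0 : M) < 2 := zero_lt_two
      gcongr
    calc 2 * x + 1 < 2 * t + 1 := by gcongr
      _ ≤ n + (2 * t + 1) := le_add_self
  -- the levels at which the odd requirements are decided
  have iBt : ∀ {f g : (ℕ → M) → M} [F1 Y f] [F1 Y g], D1 Y (fun v => Bt (f v) (g v)) :=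
    fun {f g} hf hg => D1.s2 D.bt hf hg
  have iT : ∀ {f g : (ℕ → M) → M} [F1 Y f] [F1 Y g], D1 Y (fun v => T (f v) (g v)) :=
    fun {f g} hf hg => D1.s2 dT hf hg
  have iL : ∀ {f g h : (ℕ → M) → M} [F1 Y f] [F1 Y g] [F1 Y h],
      D1 Y (fun v => K2 Bt K (f v) (g v) (h v)) := fun {f g h} hf hg hh => D1.s3 dK hf hg hh
  have itw : ∀ {f : (ℕ → M) → M} [F1 Y f], F1 Y (fun v => tw (f v)) :=
    fun {f} hf => F1.s1 D.tw hf
  have irs : ∀ {f g : (ℕ → M) → M} [F1 Y f] [F1 Y g], F1 Y (fun v => rs (f v) (g v)) :=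
    fun {f g} hf hg => F1.s2 D.rs hf hg
  obtain ⟨b, hb⟩ := coll_s (X := Y) (P := fun x m => Bt w' (2 * x + 1) → ∀ s, s < tw m →
      ¬ (T m s ∧ ∀ e, e < 2 * x + 1 + 1 → ¬ Bt (rs w' (2 * x + 1)) e → ¬ K2 Bt K e s m))
    (inferInstance : D1 Y (fun v : ℕ → M => Bt w' (2 * v 0 + 1) → ∀ s, s < tw (v 1) →
      ¬ (T (v 1) s ∧ ∀ e, e < 2 * v 0 + 1 + 1 → ¬ Bt (rs w' (2 * v 0 + 1)) e →
        ¬ K2 Bt K e s (v 1)))).s t (fun x hx => by
      by_cases hw : Bt w' (2 * x + 1)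
      · have h1 := h'.2.2 (2 * x + 1) (ht x hx) hw
        unfold Inf at h1
        push Not at h1
        obtain ⟨m, hm⟩ := h1
        exact ⟨m, fun _ => hm⟩
      · exact ⟨0, fun h => absurd h hw⟩)
  obtain ⟨s, hs, hsT, hsL⟩ := h'.2.1 (b + t)
  have hbt : t ≤ b + t := le_add_self
  have key : ∀ x, x < t → (Bt s x ↔ Bt w' (2 * x + 1)) := by
    intro x hx
    constructor
    · intro h1
      by_contra h2
      exact hsL (2 * x + 1) (ht x hx) h2 (K2_odd.2 ⟨lt_of_lt_of_le hx hbt, h1⟩)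
    · intro h1
      obtain ⟨m, hm, h2⟩ := hb x hx
      have hmb : m ≤ b + t := le_trans hm.le le_self_add
      have h3 := h2 h1 (rs s m) (B.rlt s m)
      have agree : ∀ y, y < m → (Bt (rs s m) y ↔ Bt s y) := fun y hy => by
        rw [B.rbt]; exact ⟨fun h => h.2, fun h => ⟨hy, h⟩⟩
      by_contra h4
      refine h3 ⟨hT.down hsT hmb (B.rlt s m) fun y hy => (agree y hy).symm, fun e he hbe hL => ?_⟩
      have hL' := mL e (rs s m) m s (b + t) hmb agree hL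
      rcases lt_succ_cases he with h5 | rfl
      · refine hsL e (lt_trans h5 (ht x hx)) (fun h6 => hbe ?_) hL'
        rw [B.rbt]; exact ⟨h5, h6⟩
      · exact h4 (K2_odd.1 hL').2
  have agree : ∀ y, y < t → (Bt (rs s t) y ↔ Bt s y) := fun y hy => by
    rw [B.rbt]; exact ⟨fun h => h.2, fun h => ⟨hy, h⟩⟩
  refine ⟨rs s t, B.rlt s t, ⟨hT.down hsT hbt (B.rlt s t) fun y hy => (agree y hy).symm,
    fun e he hbe hL => ?_⟩, fun x hx => ?_⟩
  · refine hsL e (lt_of_lt_of_le he hn) (fun h1 => hbe ?_)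
      (mL e (rs s t) t s (b + t) hbt agree hL)
    exact (cor_uniq (Y := Y) B D.bt h' h (lt_of_lt_of_le he hn) he).1 h1
  · rw [agree x hx, key x hx]
    exact cor_ww (Y := Y) B D hex h' (ht x hx)

/-- The requirements which are met by the path. -/
theorem path_req [I1 Y] (D : Df Y tw Bt rs) (B : LB tw Bt rs) (hT : Tree tw Bt T)
    (dT : D1 Y (fun v => T (v 0) (v 1))) (dK : D1 Y (fun v => K2 Bt K (v 0) (v 1) (v 2)))
    (mK : Mono Bt K) (hex : ∀ n, ∃ w, w < tw n ∧ Cor tw Bt rs T (K2 Bt K) n w) (e : M) :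
    WW tw Bt rs T (K2 Bt K) (2 * e) ↔
      ∃ t s, s < tw t ∧ (∀ x, x < t → (Bt s x ↔ PH tw Bt rs T K x)) ∧ K e s t := by
  have mL := K2_mono mK
  obtain ⟨w, _, h⟩ := hex (2 * e + 1)
  rw [← cor_ww (Y := Y) B D hex h (lt_succ_self _)]
  constructor
  · intro hb
    have h1 := h.2.2 (2 * e) (lt_succ_self _) hb
    unfold Inf at h1
    push Not at h1
    obtain ⟨m, hm⟩ := h1
    obtain ⟨s, hs, hQ, hP⟩ := path_mem (Y := Y) D B hT dT dK mK hex h m
    refine ⟨m, s, hs, hP, ?_⟩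
    by_contra hK
    refine hm s hs ⟨hQ.1, fun f hf hbf hL => ?_⟩
    rcases lt_succ_cases hf with h2 | rfl
    · refine hQ.2 f hf (fun h3 => hbf ?_) hL
      rw [B.rbt]; exact ⟨h2, h3⟩
    · exact hK (K2_even.1 hL)
  · rintro ⟨t, s, hs, hP, hK⟩
    obtain ⟨s', hs', hQ, hP'⟩ := path_mem (Y := Y) D B hT dT dK mK hex h t
    by_contra hb
    refine hQ.2 (2 * e) (lt_succ_self _) hb (K2_even.2 ?_)
    exact mK e s t s' t le_rfl (fun x hx => (hP x hx).trans (hP' x hx).symm) hK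

end path

/-- Core of the low basis theorem. -/
theorem core [I1 Y] [C1 J] (hJ : Jf Y J) (D : Df Y tw Bt rs) (B : LB tw Bt rs)
    {T : M → M → Prop} {K : M → M → M → Prop} (hT : Tree tw Bt T)
    (dT : D1 Y (fun v => T (v 0) (v 1))) (dK : D1 Y (fun v => K (v 0) (v 1) (v 2)))
    (mK : Mono Bt K) :
    ∃ H : M → Prop, D1 J (fun v => H (v 0)) ∧
      (∀ t, ∃ s, s < tw t ∧ T t s ∧ ∀ x, x < t → (Bt s x ↔ H x)) ∧
      D1 J (fun v => ∃ t s, s < tw t ∧ (∀ x, x < t → (Bt s x ↔ H x)) ∧ K (v 0) s t) := by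
  have dK2 : D1 Y (fun v => K2 Bt K (v 0) (v 1) (v 2)) := by
    have iK : ∀ {f g h : (ℕ → M) → M} [F1 Y f] [F1 Y g] [F1 Y h],
        D1 Y (fun v => K (f v) (g v) (h v)) := fun {f g h} hf hg hh => D1.s3 dK hf hg hh
    have iBt : ∀ {f g : (ℕ → M) → M} [F1 Y f] [F1 Y g], D1 Y (fun v => Bt (f v) (g v)) :=
      fun {f g} hf hg => D1.s2 D.bt hf hg
    unfold K2
    infer_instance
  have hex := ex_cor hJ D B dT dK2 hT
  have hW := d1_ww hJ D dT dK2
  refine ⟨PH tw Bt rs T K, ?_, fun t => ?_, ?_⟩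
  · exact D1.s1 (P := WW tw Bt rs T (K2 Bt K)) hW inferInstance
  · obtain ⟨w, _, h⟩ := hex 0
    obtain ⟨s, hs, hQ, hP⟩ := path_mem (Y := Y) D B hT dT dK2 mK hex h t
    exact ⟨s, hs, hQ.1, hP⟩
  · refine D1.congr (R := fun v => WW tw Bt rs T (K2 Bt K) (2 * v 0)) ?_ fun v =>
      path_req (Y := Y) D B hT dT dK2 mK hex (v 0)
    exact D1.s1 (P := WW tw Bt rs T (K2 Bt K)) hW inferInstance

end Low

end Pool.Agent.PD2
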