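import Pool.Agent.Work.MP_a6ae3a_lc.API
import Pool.Agent.Work.MP_a6ae3a_lc.LowCore

/-!
# The low basis theorem

Trees of coded functions with values below `k`: reduction to trees of coded sets (`LowCore.lean`)
and `B2` of the join with the path.
-/

namespace Pool.Agent.PD2

variable {M : Type} [PAM M]

/-- The graph of a function. -/
def gr (G : M → M) (z : M) : Prop := ∃ x, z = pr x (G x)

namespace Low

theorem lb [IM M] : LB (M := M) tw Bt rs where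
  tw0 := tw_pos 0
  twm := tw_le
  blt := fun h hb => lt_tw_iff.1 h _ hb
  rlt := fun c n => lt_tw_iff.2 fun x hx => (bt_rs.1 hx).1
  rbt := fun c n x => bt_rs
  ins := fun {w n} hw => by
    refine ⟨un w (tw n), lt_tw_iff.2 fun x hx => ?_, fun x => ?_⟩
    · rw [bt_un, bt_tw] at hx
      rcases hx with hx | rfl
      · exact lt_trans (lt_tw_iff.1 hw x hx) (lt_succ_self n)
      · exact lt_succ_self x
    · rw [bt_un, bt_tw]

theorem df [IM M] (Y : M → Prop) : Df Y tw Bt rs where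
  tw := inferInstance
  bt := inferInstance
  rs := inferInstance

theorem jf {Y : M → Prop} [IM M] [I1 Y] [C1 (jp Y)] : Jf Y (jp Y) where
  up := d1_jp
  ind := fun hP h0 hs x => ind_r (jp Y) hP h0 hs x

variable [IM M] {Y : M → Prop} {k : M} {T : M → M → Prop}

/-- The tree of sets of a tree of functions. -/
def ST (k : M) (T : M → M → Prop) (m s : M) : Prop :=
  ∃ g, g < tw (pr m k) ∧ (∀ x, x < m → ap g x < k) ∧ T m g ∧
    ∀ z, z < m → (Bt s z ↔ ∃ x, x < m ∧ z = pr x (ap g x))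

theorem st_tree [I1 Y] (hm : ∀ n n' g, n ≤ n' → T n' g → T n g)
    (he : ∀ n g g', (∀ x, x < n → ap g x = ap g' x) → T n g → T n g')
    (hi : ∀ n, ∃ g, (∀ x, x < n → ap g x < k) ∧ T n g) : Tree tw Bt (ST k T) := by
  -- codes with a bound
  have key : ∀ n g, (∀ x, x < n → ap g x < k) → ∃ g', g' < tw (pr n k) ∧
      ∀ x, x < n → ap g' x = ap g x := by
    intro n g hg
    obtain ⟨g', h1, h2⟩ := ex_fun_bd Y (R := fun i y => y = ap g i) inferInstance n k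
      (fun i hi => ⟨ap g i, hg i hi, rfl⟩)
    exact ⟨g', h1, fun x hx => (h2 x hx).2⟩
  refine ⟨?_, ?_⟩
  · rintro n m s s' ⟨g, _, hgk, hT, hs⟩ hnm _ hss
    obtain ⟨g', h1, h2⟩ := key n g fun x hx => hgk x (lt_of_lt_of_le hx hnm)
    refine ⟨g', h1, fun x hx => ?_, he n g g' (fun x hx => (h2 x hx).symm) (hm n m g hnm hT),
      fun z hz => ?_⟩
    · rw [h2 x hx]; exact hgk x (lt_of_lt_of_le hx hnm)
    · rw [← hss z hz, hs z (lt_of_lt_of_le hz hnm)]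
      constructor
      · rintro ⟨x, hx, rfl⟩
        have hxn : x < n := lt_of_le_of_lt (le_pr_left _ _) hz
        exact ⟨x, hxn, by rw [h2 x hxn]⟩
      · rintro ⟨x, hx, rfl⟩
        exact ⟨x, lt_of_lt_of_le hx hnm, by rw [h2 x hx]⟩
  · intro n
    obtain ⟨g, hg, hT⟩ := hi n
    obtain ⟨g', h1, h2⟩ := key n g hg
    obtain ⟨s, hs⟩ := ex_code Y (P := fun z => ∃ x, x < n ∧ z = pr x (ap g' x)) inferInstance n
    refine ⟨s, lt_tw_iff.2 fun x hx => ((hs x).1 hx).1, g', h1, fun x hx => ?_,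
      he n g g' (fun x hx => (h2 x hx).symm) hT, fun z hz => ?_⟩
    · rw [h2 x hx]; exact hg x hx
    · rw [hs z]
      exact ⟨fun h => h.2, fun h => ⟨hz, h⟩⟩

theorem d1_st [C1 Y] (hT : D1 Y (fun v => T (v 0) (v 1))) :
    D1 Y (fun v => ST k T (v 0) (v 1)) := by
  have iT : ∀ {f g : (ℕ → M) → M} [F1 Y f] [F1 Y g], D1 Y (fun v => T (f v) (g v)) :=
    fun {f g} hf hg => D1.s2 hT hf hg
  unfold ST
  infer_instance

theorem sc_eq {H : M → Prop} {s t : M} (hs : s < tw t) (h : ∀ x, x < t → (Bt s x ↔ H x)) :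
    sc t H = s := by
  have h1 : ∀ x, Bt s x ↔ x < t ∧ H x := fun x =>
    ⟨fun hx => ⟨lt_tw_iff.1 hs x hx, (h x (lt_tw_iff.1 hs x hx)).1 hx⟩,
      fun hx => (h x hx.1).2 hx.2⟩
  refine bt_ext fun x => ?_
  rw [bt_sc' ⟨s, h1⟩, h1]

end Low

open Low in
/-- Low basis theorem: `T n g` is a property of the coded function `g` restricted to `[0, n)`. -/
theorem low [IM M] {Y : M → Prop} [B2 Y] {k : M} {T : M → M → Prop}
    (hT : D1 Y (fun v => T (v 0) (v 1)))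
    (hm : ∀ n n' g, n ≤ n' → T n' g → T n g)
    (he : ∀ n g g', (∀ x, x < n → ap g x = ap g' x) → T n g → T n g')
    (hi : ∀ n, ∃ g, (∀ x, x < n → ap g x < k) ∧ T n g) :
    ∃ G : M → M, (∀ x, G x < k) ∧ (∀ n, ∃ g, (∀ x, x < n → ap g x = G x) ∧ T n g) ∧
      B2 (jn Y (gr G)) ∧ F1 (jn Y (gr G)) (fun v => G (v 0)) := by
  have dK : D1 Y (fun v => Cv Y (v 0) (v 1) (v 2)) := inferInstance
  have mK : Mono Bt (Cv Y) := fun e s m s' m' hmm hs hK => cv_mono hmm hs hK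
  obtain ⟨H, dH, hHT, dV⟩ := core (Y := Y) (J := jp Y) (jf (Y := Y)) (Low.df Y) lb (st_tree (Y := Y) hm he hi)
    (d1_st hT) dK mK
  -- the requirements
  have hsc : ∀ t, ∃ s, s < tw t ∧ (∀ x, x < t → (Bt s x ↔ H x)) ∧ sc t H = s := fun t => by
    obtain ⟨s, hs, _, h⟩ := hHT t
    exact ⟨s, hs, h, Low.sc_eq hs h⟩
  have dV' : D1 (jp Y) (fun v => ∃ t, Cv Y (v 0) (sc t H) t) := by
    refine D1.congr dV fun v => ?_
    constructor
    · rintro ⟨t, s, hs, h, hK⟩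
      exact ⟨t, by rwa [Low.sc_eq hs h]⟩
    · rintro ⟨t, hK⟩
      obtain ⟨s, hs, h, e⟩ := hsc t
      exact ⟨t, s, hs, h, by rwa [e] at hK⟩
  -- values of the path
  have val : ∀ n, ∃ g, (∀ x, x < n → ap g x < k) ∧ T n g ∧
      ∀ z, z < n → (H z ↔ ∃ x, x < n ∧ z = pr x (ap g x)) := by
    intro n
    obtain ⟨s, _, ⟨g, _, h1, h2, h3⟩, h4⟩ := hHT n
    exact ⟨g, h1, h2, fun z hz => by rw [← h4 z hz, h3 z hz]⟩
  have ex : ∀ x, ∃ y, y < k ∧ H (pr x y) := by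
    intro x
    obtain ⟨g, h1, _, h3⟩ := val (pr (x + 1) k)
    have hx : x < pr (x + 1) k := lt_of_lt_of_le (lt_succ_self x) (le_pr_left _ _)
    exact ⟨ap g x, h1 x hx, (h3 _ (pr_lt (lt_succ_self x) (h1 x hx))).2 ⟨x, hx, rfl⟩⟩
  have uniq : ∀ x y y', H (pr x y) → H (pr x y') → y = y' := by
    intro x y y' h h'
    obtain ⟨g, _, _, h3⟩ := val (pr x y + pr x y' + 1)
    have e1 : pr x y < pr x y + pr x y' + 1 := lt_succ_iff.2 le_self_add
    have e2 : pr x y' < pr x y + pr x y' + 1 := lt_succ_iff.2 le_add_self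
    obtain ⟨x1, _, h5⟩ := (h3 _ e1).1 h
    obtain ⟨x2, _, h6⟩ := (h3 _ e2).1 h'
    obtain ⟨rfl, rfl⟩ := pr_inj.1 h5
    obtain ⟨rfl, rfl⟩ := pr_inj.1 h6
    rfl
  choose G hGk hG using ex
  have hgr : H = gr G := by
    funext z
    refine propext ⟨fun hz => ?_, ?_⟩
    · obtain ⟨g, _, _, h3⟩ := val (z + 1)
      obtain ⟨x, _, rfl⟩ := (h3 z (lt_succ_self z)).1 hz
      exact ⟨x, by rw [uniq x _ _ hz (hG x)]⟩
    · rintro ⟨x, rfl⟩
      exact hG x
  have : Reg H := ⟨fun n => by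
    obtain ⟨s, hs, h, _⟩ := hsc n
    exact ⟨s, fun x => ⟨fun hx => ⟨lt_tw_iff.1 hs x hx, (h x (lt_tw_iff.1 hs x hx)).1 hx⟩,
      fun hx => (h x hx.1).2 hx.2⟩⟩⟩
  refine ⟨G, hGk, fun n => ?_, ?_, ?_⟩
  · obtain ⟨g, h1, h2, h3⟩ := val (pr n k)
    have hn : n ≤ pr n k := le_pr_left _ _
    refine ⟨g, fun x hx => ?_, hm n _ g hn h2⟩
    have hx' : x < pr n k := lt_of_lt_of_le hx hn
    exact uniq x _ _ ((h3 _ (pr_lt hx (h1 x hx'))).2 ⟨x, hx', rfl⟩) (hG x)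
  · rw [← hgr]
    refine b2_crit (fun n => ?_) (fun c a h => ?_)
    · exact ex_code (jp Y) (P := fun e => ∃ t, Cv Y e (sc t H) t) dV' n
    · refine coll_s (X := jp Y) (P := fun x y => ¬ ∃ t, Cv Y (pr c (pr x y)) (sc t H) t) ?_ a h
      have h1 : D1 (jp Y) (fun v : ℕ → M => ∃ t, Cv Y (pr c (pr (v 0) (v 1))) (sc t H) t) :=
        D1.s1 (P := fun e => ∃ t, Cv Y e (sc t H) t) dV' inferInstance
      exact h1.p
  · refine F1.of_graph (X := jn Y (gr G)) (R := fun y v => gr G (pr (v 0) y)) ?_ fun v y => ?_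
    · exact (inferInstance : D1 (jn Y (gr G)) (fun v : ℕ → M => gr G (pr (v 1) (v 0)))).s
    · rw [← hgr]
      exact ⟨fun h => by rw [h]; exact hG _, fun h => uniq _ _ _ h (hG _)⟩

end Pool.Agent.PD2
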