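import Pool.Agent.Work.MP_a6ae3a_lc.OneStep
import Pool.Agent.Work.MP_a6ae3a_lc.Omega

/-!
# The step of the `ω` iteration

If `B2 X` and `F` is a `Δ₁(X)` limit approximation, then the one step theorem for the `Δ₂(X)` set
`Lim1 F` gives `X'` with `B2 X'` and a `Δ₁(X')` infinite homogeneous set for the limit of `F`.
-/

namespace Pool.Agent.PD2

variable {M : Type} [PAM M]

theorem not_lim1_iff {F : M → Prop} (h : LimOk F) (x : M) : ¬ Lim1 F x ↔ Lim0 F x := by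
  obtain ⟨s0, hs⟩ := h x
  constructor
  · intro h1
    refine ⟨s0, fun s hs' hF => h1 ⟨s0, fun t ht => ?_⟩⟩
    exact (hs t ht).2 ((hs s hs').1 hF)
  · rintro ⟨a, ha⟩ ⟨b, hb⟩
    exact ha (max a b) (le_max_left a b) (hb (max a b) (le_max_right a b))

variable [IM M] {X F : M → Prop}

theorem s1_lim1 [I1 X] (hF : D1 X (fun v => F (v 0))) : S1 (jp X) (fun v => Lim1 F (v 0)) := by
  refine s1_jp (X := X) (R := fun s0 v => ∀ s, s0 ≤ s → F ((v 0 + s) * (v 0 + s) + v 0)) ?_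
  have h1 : D1 X (fun v : ℕ → M => F ((v 2 + v 0) * (v 2 + v 0) + v 2)) :=
    D1.s1 hF inferInstance
  have h2 : D1 X (fun v : ℕ → M => v 1 ≤ v 0) := inferInstance
  refine S1.congr (S1.exists (R := fun s v => v 0 ≤ s ∧ ¬ F ((v 1 + s) * (v 1 + s) + v 1))
    (S1.and h2.s h1.p)) fun v => ?_
  simp only [not_forall, exists_prop]

theorem s1_lim0 [I1 X] (hF : D1 X (fun v => F (v 0))) : S1 (jp X) (fun v => Lim0 F (v 0)) :=
  s1_lim1 (F := fun x => ¬ F x) hF.not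

theorem d1_lim1 [I1 X] (hF : D1 X (fun v => F (v 0))) (hL : LimOk F) :
    D1 (jp X) (fun v => Lim1 F (v 0)) :=
  ⟨s1_lim1 hF, S1.congr (s1_lim0 hF) fun v => (not_lim1_iff hL (v 0)).symm⟩

/-- The step of the iteration: `B2` is preserved. -/
theorem step_b2 [Countable M] : ∀ X : M → Prop, B2 X → ∀ F : M → Prop,
    D1 X (fun v => F (v 0)) → LimOk F → ∃ X', B2 X' ∧ D1 X' (fun v => X (v 0)) ∧ Slv F X' := by
  intro X hX F hF hL
  obtain ⟨L, h1, h2, h3⟩ := one_step (X := X) (A := Lim1 F) (d1_lim1 hF hL)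
  refine ⟨jn X L, h3, d1_jn_l, L, d1_jn_r, fun x => ?_, ?_⟩
  · obtain ⟨y, hy, hy'⟩ := h1 (x + 1)
    exact ⟨y, succ_le_iff.1 hy, hy'⟩
  · rcases h2 with h2 | h2
    · exact Or.inl h2
    · exact Or.inr fun x hx => (not_lim1_iff hL x).1 (h2 x hx)

end Pool.Agent.PD2
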