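import Pool.Agent.Work.MP_a6ae3a_lc.Fin
import Pool.Agent.Work.MP_a6ae3a_lc.Step
import Pool.Agent.Work.MP_a6ae3a_lc.CalcHenkin

/-!
# Conservation
-/

namespace Pool.Agent.PD2

/-- `RCA₀ + P(Δ⁰₂)` is `Π¹₁`-conservative over `RCA₀ + BΣ⁰₂` (semantic form). -/
theorem conservation : Conservation :=
  conservation_of_step fun _ _ _ _ X h F hF hL => step_b2 X h F hF hL

/-- `RCA₀ + P(Δ⁰₂)` is `Π¹₁`-conservative over `RCA₀ + BΣ⁰₂` (with formal proofs). -/
theorem conservation_proves (φ : Fm) (hφ : IsPi11 φ) (h : Proves (RCA0 ∪ {PDelta2}) φ) :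
    Proves (RCA0 ∪ BSigma2) φ :=
  proves_iff_entails.2 (conservation φ hφ (proves_iff_entails.1 h))

end Pool.Agent.PD2
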