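import Pool.Agent.Work.MP_a6ae3a_lc.API

/-!
# Nodes and states: definability
-/

namespace Pool.Agent.PD2.NI
variable {M : Type} [PAM M] {X : M → Prop}

/-! ### Boolean quantifiers -/

instance d1_allB {R : Bool → (ℕ → M) → Prop} [h : ∀ i, D1 X (R i)] :
    D1 X (fun v => ∀ i : Bool, R i v) := by
  have h0 := h false
  have h1 := h true
  exact D1.congr (R := fun v => R false v ∧ R true v) inferInstance fun v => by
    rw [Bool.forall_bool]

instance d1_exB {R : Bool → (ℕ → M) → Prop} [h : ∀ i, D1 X (R i)] :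
    D1 X (fun v => ∃ i : Bool, R i v) := by
  have h0 := h false
  have h1 := h true
  exact D1.congr (R := fun v => R false v ∨ R true v) inferInstance fun v => by
    rw [Bool.exists_bool]

variable {f g h : (ℕ → M) → M}
variable [IM M]

instance f1_nF (i : Bool) [F1 X f] : F1 X (fun v => nF i (f v)) := by
  cases i
  · exact (inferInstance : F1 X (fun v => fs (fs (f v))))
  · exact (inferInstance : F1 X (fun v => sn (fs (f v))))

instance f1_nC (i : Bool) [F1 X f] : F1 X (fun v => nC i (f v)) := by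
  cases i
  · exact (inferInstance : F1 X (fun v => fs (sn (f v))))
  · exact (inferInstance : F1 X (fun v => sn (sn (f v))))

instance f1_nd {f g h k : (ℕ → M) → M} [F1 X f] [F1 X g] [F1 X h] [F1 X k] :
    F1 X (fun v => nd (f v) (g v) (h v) (k v)) := by
  unfold nd
  infer_instance

instance f1_nr [F1 X f] [F1 X g] : F1 X (fun v => nr (f v) (g v)) := by
  unfold nr
  infer_instance

/-! ### Simple facts about nodes -/

@[simp] theorem nF_nd_f (a b c d : M) : nF false (nd a b c d) = a := by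
  simp [nF, nd]
@[simp] theorem nF_nd_t (a b c d : M) : nF true (nd a b c d) = b := by
  simp [nF, nd]
@[simp] theorem nC_nd_f (a b c d : M) : nC false (nd a b c d) = c := by
  simp [nC, nd]
@[simp] theorem nC_nd_t (a b c d : M) : nC true (nd a b c d) = d := by
  simp [nC, nd]

@[simp] theorem nF_nr (i : Bool) (κ b : M) : nF i (nr κ b) = rs (nF i κ) b := by
  cases i <;> simp [nr]

@[simp] theorem nC_nr (i : Bool) (κ b : M) : nC i (nr κ b) = rs (nC i κ) b := by
  cases i <;> simp [nr]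

/-- A bound for the codes of the nodes of level `b`. -/
noncomputable def nbd (b : M) : M := nd (tw b) (tw b) (tw b) (tw b)

/-- A bound for the codes of the states of level `b`. -/
noncomputable def sbd (b : M) : M := tw (nbd b)

instance f1_nbd [F1 X f] : F1 X (fun v => nbd (f v)) := by
  unfold nbd
  infer_instance

instance f1_sbd [F1 X f] : F1 X (fun v => sbd (f v)) := by
  unfold sbd
  infer_instance

theorem nd_lt_nbd {A : M → Prop} {b κ : M} (h : Nd A b κ) : κ < nbd b := by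
  obtain ⟨h1, h2, h3, _, _⟩ := h
  rw [h1, nbd, nd, nd]
  exact pr_lt (pr_lt (h2 false) (h2 true)) (pr_lt (h3 false) (h3 true))

theorem nbd_mono {b b' : M} (h : b ≤ b') : nbd b ≤ nbd b' := by
  have := tw_le h
  unfold nbd nd
  exact pr_mono (pr_mono this this) (pr_mono this this)

theorem sbd_mono {b b' : M} (h : b ≤ b') : sbd b ≤ sbd b' := tw_le (nbd_mono h)

theorem vld_lt_sbd {A : M → Prop} {b K : M} (h : Vld X A b K) : K < sbd b :=
  lt_tw_iff.2 fun κ hκ => nd_lt_nbd (h.2.1 κ hκ)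

/-! ### Definability of the relations between nodes and states -/

theorem d1_rspg [C1 X] {b κ g n : (ℕ → M) → M} (hb : F1 X b) (hκ : F1 X κ) (hg : F1 X g)
    (hn : F1 X n) : D1 X (fun v => Rsp X (b v) (κ v) (fun x => x < n v ∧ ap (g v) x = κ v) (n v)) := by
  have k : D1 X (fun v : ℕ → M => Rsp X (v 0) (v 1) (fun x => x < v 3 ∧ ap (v 2) x = v 1) (v 3)) := by
    unfold Rsp
    infer_instance
  exact D1.s4 (P := fun b κ g n => Rsp X b κ (fun x => x < n ∧ ap g x = κ) n) k hb hκ hg hn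

/-- The colouring `g` of `[b, n)` by the nodes in `K`. -/
def Clg (X : M → Prop) (b K n g : M) : Prop :=
  (∀ x, x < n → (b ≤ x → Bt K (ap g x))) ∧
    ∀ κ, Bt K κ → Rsp X b κ (fun x => x < n ∧ ap g x = κ) n

theorem d1_clg [C1 X] {b K n g : (ℕ → M) → M} (hb : F1 X b) (hK : F1 X K) (hn : F1 X n)
    (hg : F1 X g) : D1 X (fun v => Clg X (b v) (K v) (n v) (g v)) := by
  have k : D1 X (fun v : ℕ → M => Clg X (v 0) (v 1) (v 2) (v 3)) := by
    have k1 : D1 X (fun v : ℕ → M => Rsp X (v 1) (v 0) (fun x => x < v 3 ∧ ap (v 4) x = v 0) (v 3)) :=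
      d1_rspg inferInstance inferInstance inferInstance inferInstance
    unfold Clg
    infer_instance
  exact D1.s4 (P := Clg X) k hb hK hn hg

theorem clg_congr {b K n g g' : M} (h : ∀ x, b ≤ x → x < n → ap g x = ap g' x)
    (hg : Clg X b K n g) : Clg X b K n g' := by
  refine ⟨fun x hx hb => by rw [← h x hb hx]; exact hg.1 x hx hb, fun κ hκ i β hβ e he E hE hEx => ?_⟩
  exact hg.2 κ hκ i β hβ e he E hE fun x hx =>
    ⟨(hEx x hx).1, (hEx x hx).2.1, by
      rw [h x (hEx x hx).1 (hEx x hx).2.1]; exact (hEx x hx).2.2⟩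

/-- A bounded code for a colouring. -/
theorem clg_bd [I1 X] {b K n : M} (h : ∃ g, Clg X b K n g) :
    ∃ g, g < tw (pr n (K + 1)) ∧ Clg X b K n g := by
  obtain ⟨g, hg⟩ := h
  have k : D1 X (fun v : ℕ → M => (Bt K (ap g (v 0)) ∧ v 1 = ap g (v 0)) ∨
    (¬ Bt K (ap g (v 0)) ∧ v 1 = 0)) := inferInstance
  obtain ⟨c, hc, hc'⟩ := ex_fun_bd X (R := fun i y => (Bt K (ap g i) ∧ y = ap g i) ∨
    (¬ Bt K (ap g i) ∧ y = 0)) k n (K + 1) (fun i _ => by
      by_cases h1 : Bt K (ap g i)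
      · exact ⟨ap g i, lt_of_lt_of_le h1.lt (le_self_add), Or.inl ⟨h1, rfl⟩⟩
      · exact ⟨0, lt_of_le_of_lt (zle K) (lt_succ_self K), Or.inr ⟨h1, rfl⟩⟩)
  refine ⟨c, hc, clg_congr (fun x hb hx => ?_) hg⟩
  rcases (hc' x hx).2 with h1 | h1
  · exact h1.2.symm
  · exact absurd (hg.1 x hx hb) h1.1

theorem vld_iff [I1 X] {A : M → Prop} {b K : M} : Vld X A b K ↔
    (∃ κ, Bt K κ ∧ κ = κ) ∧ (∀ κ, Bt K κ → Nd A b κ) ∧
      ¬ ∃ n, ¬ ∃ g, g < tw (pr n (K + 1)) ∧ Clg X b K n g := by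
  rw [Vld]
  refine and_congr (by simp only [and_true]) (and_congr Iff.rfl ?_)
  rw [not_exists]
  refine forall_congr' fun n => ?_
  rw [not_not]
  constructor
  · rintro ⟨g, h1, h2⟩
    exact clg_bd ⟨g, fun x hx hb => h1 x hb hx, h2⟩
  · rintro ⟨g, _, h1, h2⟩
    exact ⟨g, fun x hb hx => h1 x hx hb, h2⟩

theorem d1_Nd {Y A : M → Prop} [C1 Y] (hA : D1 Y (fun v => A (v 0))) {b κ : (ℕ → M) → M}
    (hb : F1 Y b) (hκ : F1 Y κ) : D1 Y (fun v => Nd A (b v) (κ v)) := by
  have iA : ∀ {a : (ℕ → M) → M} [F1 Y a], D1 Y (fun v => A (a v)) := D1.s1 hA inferInstance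
  have k : D1 Y (fun v : ℕ → M => Nd A (v 0) (v 1)) := by
    unfold Nd
    infer_instance
  exact D1.s2 (P := Nd A) k hb hκ

theorem d1_Vld [B2 X] {A : M → Prop} (hA : D1 (jp X) (fun v => A (v 0))) {b K : (ℕ → M) → M}
    (hb : F1 (jp X) b) (hK : F1 (jp X) K) : D1 (jp X) (fun v => Vld X A (b v) (K v)) := by
  have iN : ∀ {a c : (ℕ → M) → M} [F1 (jp X) a] [F1 (jp X) c],
    D1 (jp X) (fun v => Nd A (a v) (c v)) := d1_Nd hA inferInstance inferInstance
  have k1 : D1 (jp X) (fun v : ℕ → M => ∃ n, ¬ ∃ g, g < tw (pr n (v 1 + 1)) ∧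
      Clg X (v 0) (v 1) n g) := by
    have k2 : D1 X (fun v : ℕ → M => Clg X (v 2) (v 3) (v 1) (v 0)) :=
      d1_clg inferInstance inferInstance inferInstance inferInstance
    refine d1_jp ?_
    infer_instance
  have k : D1 (jp X) (fun v : ℕ → M => Vld X A (v 0) (v 1)) := by
    refine D1.congr ?_ (fun v => vld_iff.symm)
    infer_instance
  exact D1.s2 (P := Vld X A) k hb hK

theorem d1_Chd [B2 X] {b κ b' κ' : (ℕ → M) → M} (hb : F1 (jp X) b) (hκ : F1 (jp X) κ)
    (hb' : F1 (jp X) b') (hκ' : F1 (jp X) κ') :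
    D1 (jp X) (fun v => Chd X (b v) (κ v) (b' v) (κ' v)) := by
  have k : D1 (jp X) (fun v : ℕ → M => Chd X (v 0) (v 1) (v 2) (v 3)) := by
    have e : ∀ b κ b' κ' : M, ((∀ i, rs (nF i κ') b = nF i κ) ∧ (∀ i, rs (nC i κ') b = nC i κ) ∧
        (∀ i, ∃ x, Bt (nF i κ') x ∧ b ≤ x) ∧
        (∃ i, (Bt (nC i κ') b ∧ ∀ x, Bt (nC i κ') x → (b ≤ x → x = b)) ∧
          ∀ x, Bt (nC (!i) κ') x → ¬ b ≤ x) ∧
        ∀ i : Bool, ∀ β, Bt (nC i κ) β → ∀ e, e < β → (Cv X e (nF i κ') b' → Cv X e (nF i κ) b)) ↔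
        Chd X b κ b' κ' := by
      intro b κ b' κ'
      unfold Chd
      refine and_congr Iff.rfl (and_congr Iff.rfl (and_congr Iff.rfl (and_congr ?_ Iff.rfl)))
      refine exists_congr fun i => and_congr ⟨?_, ?_⟩ ⟨?_, ?_⟩
      · rintro ⟨h1, h2⟩ x hx
        exact ⟨fun h => h2 x h hx, fun h => by rw [h]; exact h1⟩
      · intro h
        exact ⟨(h b le_rfl).2 rfl, fun x hx hbx => (h x hbx).1 hx⟩
      · exact fun h x hx hx' => h x hx' hx
      · exact fun h x hx hx' => h x hx' hx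
    refine D1.congr ?_ (fun v => e _ _ _ _)
    infer_instance
  exact D1.s4 (P := Chd X) k hb hκ hb' hκ'

theorem d1_Suc [B2 X] {A : M → Prop} (hA : D1 (jp X) (fun v => A (v 0)))
    {b K b' K' : (ℕ → M) → M} (hb : F1 (jp X) b) (hK : F1 (jp X) K)
    (hb' : F1 (jp X) b') (hK' : F1 (jp X) K') :
    D1 (jp X) (fun v => Suc X A (b v) (K v) (b' v) (K' v)) := by
  have iV : ∀ {a c : (ℕ → M) → M} [F1 (jp X) a] [F1 (jp X) c],
    D1 (jp X) (fun v => Vld X A (a v) (c v)) := d1_Vld hA inferInstance inferInstance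
  have iC : ∀ {a c d e : (ℕ → M) → M} [F1 (jp X) a] [F1 (jp X) c] [F1 (jp X) d] [F1 (jp X) e],
    D1 (jp X) (fun v => Chd X (a v) (c v) (d v) (e v)) :=
      d1_Chd inferInstance inferInstance inferInstance inferInstance
  have k : D1 (jp X) (fun v : ℕ → M => Suc X A (v 0) (v 1) (v 2) (v 3)) := by
    unfold Suc
    infer_instance
  exact D1.s4 (P := Suc X A) k hb hK hb' hK'

end Pool.Agent.PD2.NI
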