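import Pool.Agent.Work.MP_a6ae3a_lc.Chain
import Pool.Agent.Work.MP_a6ae3a_lc.NodeI

/-!
# The chain of states
-/

namespace Pool.Agent.PD2.NI
variable {M : Type} [PAM M] [IM M] {X : M → Prop}

theorem nd_zero : nd (0 : M) 0 0 0 = 0 := by
  simp [nd, pr]

/-- The root state is valid. -/
theorem vld_root (X A : M → Prop) : Vld X A (0 : M) (tw 0) := by
  have hF : ∀ i, nF i (0 : M) = 0 := fun i => by
    cases i
    · have h := nF_nd_f (0 : M) 0 0 0
      rwa [nd_zero] at h
    · have h := nF_nd_t (0 : M) 0 0 0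
      rwa [nd_zero] at h
  have hC : ∀ i, nC i (0 : M) = 0 := fun i => by
    cases i
    · have h := nC_nd_f (0 : M) 0 0 0
      rwa [nd_zero] at h
    · have h := nC_nd_t (0 : M) 0 0 0
      rwa [nd_zero] at h
  refine ⟨⟨0, bt_tw.2 rfl⟩, fun κ hκ => ?_, fun n => ⟨0, fun x _ _ => ?_, fun κ hκ i β hβ => ?_⟩⟩
  · rw [bt_tw] at hκ
    subst hκ
    refine ⟨?_, fun i => ?_, fun i => ?_, fun x hx => ?_, fun x hx => ?_⟩
    · rw [hF, hF, hC, hC, nd_zero]
    · rw [hF]; exact tw_pos _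
    · rw [hC]; exact tw_pos _
    · rw [hF] at hx; exact absurd hx (bt_zero x)
    · rw [hF] at hx; exact absurd hx (bt_zero x)
  · rw [bt_tw]
    exact le_antisymm (ap_le 0 x) (zle _)
  · rw [bt_tw] at hκ
    subst hκ
    rw [hC] at hβ
    exact absurd hβ (bt_zero β)

/-- The chain of states: `St b K`. -/
theorem seq_ex {X A : M → Prop} [B2 X] (hA : D1 (jp X) (fun v => A (v 0)))
    (hs : ∀ b K, Vld X A b K → ∃ b' K', Suc X A b K b' K') :
    ∃ St : M → M → Prop, D1 (jp X) (fun v => St (v 0) (v 1)) ∧ (∀ b K, St b K → Vld X A b K) ∧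
      (∀ b K K', St b K → St b K' → K = K') ∧ (∀ n, ∃ b K, n ≤ b ∧ St b K) ∧
      (∃ K, St 0 K) ∧
      ∀ b K, St b K → ∃ b' K', St b' K' ∧ Suc X A b K b' K' ∧
        ∀ b'' K'', St b'' K'' → b < b'' → b' ≤ b'' := by
  set Vl : M → Prop := fun s => s = pr (fs s) (sn s) ∧ Vld X A (fs s) (sn s) with hVl
  set Sc : M → M → Prop := fun s s' => s = pr (fs s) (sn s) ∧ s' = pr (fs s') (sn s') ∧
    Suc X A (fs s) (sn s) (fs s') (sn s') with hSc
  have D : Chain.Dat (jp X) Vl Sc fs (fun m => pr (m + 1) (sbd m)) (pr 0 (tw 0)) := by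
    refine ⟨fun {a} ha => ?_, fun {a b} ha hb => ?_, fun {a} ha => inferInstance,
      fun {a} ha => inferInstance, ?_, ?_, ?_, ?_, ?_⟩
    · have k := d1_Vld (X := X) hA (b := fun v => fs (a v)) (K := fun v => sn (a v))
        inferInstance inferInstance
      exact (inferInstance : D1 (jp X) (fun v => a v = pr (fs (a v)) (sn (a v)) ∧
        Vld X A (fs (a v)) (sn (a v))))
    · have k := d1_Suc (X := X) hA (b := fun v => fs (a v)) (K := fun v => sn (a v))
        (b' := fun v => fs (b v)) (K' := fun v => sn (b v))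
        inferInstance inferInstance inferInstance inferInstance
      exact (inferInstance : D1 (jp X) (fun v => a v = pr (fs (a v)) (sn (a v)) ∧
        b v = pr (fs (b v)) (sn (b v)) ∧ Suc X A (fs (a v)) (sn (a v)) (fs (b v)) (sn (b v))))
    · simp only [hVl, fs_pr, sn_pr]
      exact ⟨trivial, vld_root X A⟩
    · simp
    · rintro s s' ⟨h1, h2, h3⟩
      exact ⟨⟨h2, h3.2.2.1⟩, h3.1⟩
    · rintro s ⟨h1, h2⟩
      obtain ⟨b', K', h3⟩ := hs _ _ h2
      refine ⟨pr b' K', h1, by simp, by simpa using h3⟩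
    · rintro s m ⟨h1, h2⟩ h3
      rw [h1]
      exact pr_lt (lt_succ_iff.2 h3) ((vld_lt_sbd h2).trans_le (sbd_mono h3))
  have hpr : ∀ s, Chain.St Vl Sc fs (fun m => pr (m + 1) (sbd m)) (pr 0 (tw 0)) s →
      s = pr (fs s) (sn s) := fun s hs => hs.1.1
  refine ⟨fun b K => Chain.St Vl Sc fs (fun m => pr (m + 1) (sbd m)) (pr 0 (tw 0)) (pr b K),
    Chain.d2_St D inferInstance, ?_, ?_, ?_, ⟨tw 0, Chain.st_zero D⟩, ?_⟩
  · intro b K h
    have := h.1.2
    simpa using this
  · intro b K K' h h'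
    have h1 := Chain.st_inj D h h' (by simp)
    exact (pr_inj.1 h1).2
  · intro n
    obtain ⟨s, h1, h2⟩ := Chain.st_cof D n
    refine ⟨fs s, sn s, h2.le, ?_⟩
    show Chain.St Vl Sc fs (fun m => pr (m + 1) (sbd m)) (pr 0 (tw 0)) (pr (fs s) (sn s))
    rw [← hpr s h1]
    exact h1
  · intro b K h
    obtain ⟨s', h1, h2, h3⟩ := Chain.st_next D h
    refine ⟨fs s', sn s', ?_, ?_, ?_⟩
    · show Chain.St Vl Sc fs (fun m => pr (m + 1) (sbd m)) (pr 0 (tw 0)) (pr (fs s') (sn s'))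
      rw [← hpr s' h1]
      exact h1
    · have := h2.2.2
      simpa using this
    · intro b'' K'' h4 h5
      rcases h3 _ h4 with h6 | h6
      · simp only [fs_pr] at h6
        exact absurd h5 (not_lt.2 h6)
      · simpa using h6

end Pool.Agent.PD2.NI
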