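import Pool.Agent.Work.MP_a6ae3a_lc.Succ
import Pool.Agent.Work.MP_a6ae3a_lc.Seq
import Pool.Agent.Work.MP_a6ae3a_lc.Force

/-!
# One step of the extension

If there is no solution `L` of the excluded kind, the successor lemma gives the chain of states and
the forcing gives a solution.
-/

namespace Pool.Agent.PD2

variable {M : Type} [PAM M] [IM M] {X A : M → Prop}

/-- One step of the extension. -/
theorem one_step [B2 X] [Countable M] (hA : D1 (jp X) (fun v => A (v 0))) :
    ∃ L : M → Prop, Unb L ∧ ((∀ x, L x → A x) ∨ ∀ x, L x → ¬ A x) ∧ B2 (jn X L) := by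
  by_cases hno : NoSol X A
  · obtain ⟨St, h1, h2, h3, h4, h5, h6⟩ :=
      NI.seq_ex (X := X) hA (fun b K hV => succ_ex hA hno hV)
    exact FQ.force hA h1 h2 h3 h4 h5 h6
  · exact not_not.1 hno

end Pool.Agent.PD2
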