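import Pool.Agent.Work.MP_a6ae3a_lc.IM

/-!
# Pairing

`pr x y = (x + y)^2 + x`, with total inverse functions `fs`, `sn` (value `0` outside the range).
All are `Σ₁` functions for every set.
-/

namespace Pool.Agent.PD2

variable {M : Type} [PAM M] {X : M → Prop}

/-- The pairing function. -/
def pr (x y : M) : M := (x + y) * (x + y) + x

theorem le_mul_self' (x : M) : x ≤ x * x := by
  rcases eq_zero_or_succ x with rfl | ⟨y, rfl⟩
  · exact zle _
  · calc y + 1 = (y + 1) * 1 := (mul_one _).symm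
      _ ≤ (y + 1) * (y + 1) := by gcongr; exact le_add_self

theorem le_pr_left (x y : M) : x ≤ pr x y := le_add_self

theorem add_le_pr (x y : M) : x + y ≤ pr x y := (le_mul_self' _).trans le_self_add

theorem le_pr_right (x y : M) : y ≤ pr x y := (le_add_self : y ≤ x + y).trans (add_le_pr x y)

theorem pr_lt_of_add_lt {a b c d : M} (h : a + b < c + d) : pr a b < pr c d := by
  have h1 : a + b + 1 ≤ c + d := succ_le_iff.2 h
  unfold pr
  calc (a + b) * (a + b) + a ≤ (a + b) * (a + b) + (a + b) := by gcongr; exact le_self_add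
    _ < (a + b) * (a + b) + (a + b) + ((a + b) + 1) :=
      lt_add_of_pos_right _ (lt_of_lt_of_le zero_lt_one le_add_self)
    _ = (a + b + 1) * (a + b + 1) := by ring
    _ ≤ (c + d) * (c + d) := by gcongr
    _ ≤ (c + d) * (c + d) + c := le_self_add

theorem pr_inj' {a b c d : M} (h : pr a b = pr c d) : a = c ∧ b = d := by
  rcases lt_trichotomy (a + b) (c + d) with h1 | h1 | h1
  · exact absurd h (pr_lt_of_add_lt h1).ne
  · unfold pr at h
    rw [h1] at h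
    have h2 : a = c := add_left_cancel h
    rw [h2] at h1
    exact ⟨h2, add_left_cancel h1⟩
  · exact absurd h (pr_lt_of_add_lt h1).ne'

theorem pr_inj {x y x' y' : M} : pr x y = pr x' y' ↔ x = x' ∧ y = y' :=
  ⟨pr_inj', fun h => by rw [h.1, h.2]⟩

theorem pr_mono {x y x' y' : M} (h : x ≤ x') (h' : y ≤ y') : pr x y ≤ pr x' y' := by
  unfold pr
  gcongr

theorem pr_lt_pr {a b c d : M} (h : a < c) (h' : b ≤ d) : pr a b < pr c d :=
  pr_lt_of_add_lt (add_lt_add_of_lt_of_le h h')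

theorem pr_lt_pr' {a b c d : M} (h : a ≤ c) (h' : b < d) : pr a b < pr c d :=
  pr_lt_of_add_lt (add_lt_add_of_le_of_lt h h')

theorem pr_lt {x y x' y' : M} (h : x < x') (h' : y < y') : pr x y < pr x' y' :=
  pr_lt_pr h h'.le

theorem pr_zero : pr (0 : M) 0 = 0 := by
  unfold pr
  rw [add_zero, add_zero, mul_zero]

open Classical in
/-- First component (`0` if `z` is not a pair). -/
noncomputable def fs (z : M) : M := if h : ∃ x, ∃ y, z = pr x y then h.choose else 0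

open Classical in
/-- Second component. -/
noncomputable def sn (z : M) : M := if h : ∃ y, ∃ x, z = pr x y then h.choose else 0

@[simp] theorem fs_pr (x y : M) : fs (pr x y) = x := by
  have h : ∃ a b : M, pr x y = pr a b := ⟨x, y, rfl⟩
  unfold fs
  rw [dif_pos h]
  obtain ⟨b, hb⟩ := h.choose_spec
  exact (pr_inj'  hb).1.symm

@[simp] theorem sn_pr (x y : M) : sn (pr x y) = y := by
  have h : ∃ b a : M, pr x y = pr a b := ⟨y, x, rfl⟩
  unfold sn
  rw [dif_pos h]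
  obtain ⟨a, ha⟩ := h.choose_spec
  exact (pr_inj' ha).2.symm

/-- `c` is a pair. -/
def IsPr (c : M) : Prop := pr (fs c) (sn c) = c

theorem isPr_pr (x y : M) : IsPr (pr x y) := by
  unfold IsPr
  rw [fs_pr, sn_pr]

theorem isPr_iff {c : M} : IsPr c ↔ ∃ x y, pr x y = c :=
  ⟨fun h => ⟨_, _, h⟩, by rintro ⟨x, y, rfl⟩; exact isPr_pr x y⟩

theorem fs_of_not {c : M} (h : ¬ ∃ x y, pr x y = c) : fs c = 0 := by
  have h' : ¬ ∃ x, ∃ y, c = pr x y := fun ⟨x, y, e⟩ => h ⟨x, y, e.symm⟩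
  unfold fs
  rw [dif_neg h']

theorem sn_of_not {c : M} (h : ¬ ∃ x y, pr x y = c) : sn c = 0 := by
  have h' : ¬ ∃ y, ∃ x, c = pr x y := fun ⟨y, x, e⟩ => h ⟨x, y, e.symm⟩
  unfold sn
  rw [dif_neg h']

theorem fs_le (c : M) : fs c ≤ c := by
  by_cases h : ∃ x y, pr x y = c
  · obtain ⟨x, y, rfl⟩ := h
    rw [fs_pr]
    exact le_pr_left x y
  · rw [fs_of_not h]
    exact zle c

theorem sn_le (c : M) : sn c ≤ c := by
  by_cases h : ∃ x y, pr x y = c
  · obtain ⟨x, y, rfl⟩ := h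
    rw [sn_pr]
    exact le_pr_right x y
  · rw [sn_of_not h]
    exact zle c

theorem pr_fs_sn_le (c : M) : pr (fs c) (sn c) ≤ c := by
  by_cases h : ∃ x y, pr x y = c
  · obtain ⟨x, y, rfl⟩ := h
    rw [fs_pr, sn_pr]
  · rw [fs_of_not h, sn_of_not h, pr_zero]
    exact zle c

theorem ex_pr_iff {c : M} : (∃ x, x ≤ c ∧ ∃ y, y ≤ c ∧ pr x y = c) ↔ ∃ x y, pr x y = c := by
  constructor
  · rintro ⟨x, _, y, _, h⟩
    exact ⟨x, y, h⟩
  · rintro ⟨x, y, h⟩
    exact ⟨x, h ▸ le_pr_left x y, y, h ▸ le_pr_right x y, h⟩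

theorem eq_fs_iff {c y : M} : y = fs c ↔
    ((∃ z, z ≤ c ∧ pr y z = c) ∨ (y = 0 ∧ ¬ ∃ x, x ≤ c ∧ ∃ z, z ≤ c ∧ pr x z = c)) := by
  rw [ex_pr_iff]
  constructor
  · rintro rfl
    by_cases h : ∃ x y, pr x y = c
    · obtain ⟨x, z, rfl⟩ := h
      left
      rw [fs_pr]
      exact ⟨z, le_pr_right x z, rfl⟩
    · right
      exact ⟨fs_of_not h, h⟩
  · rintro (⟨z, _, h⟩ | ⟨rfl, h⟩)
    · rw [← h, fs_pr]
    · rw [fs_of_not h]

theorem eq_sn_iff {c y : M} : y = sn c ↔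
    ((∃ z, z ≤ c ∧ pr z y = c) ∨ (y = 0 ∧ ¬ ∃ x, x ≤ c ∧ ∃ z, z ≤ c ∧ pr x z = c)) := by
  rw [ex_pr_iff]
  constructor
  · rintro rfl
    by_cases h : ∃ x y, pr x y = c
    · obtain ⟨x, z, rfl⟩ := h
      left
      rw [sn_pr]
      exact ⟨x, le_pr_left x z, rfl⟩
    · right
      exact ⟨sn_of_not h, h⟩
  · rintro (⟨z, _, h⟩ | ⟨rfl, h⟩)
    · rw [← h, sn_pr]
    · rw [sn_of_not h]

instance f1_pr {f g : (ℕ → M) → M} [hf : F1 X f] [hg : F1 X g] :
    F1 X (fun v => pr (f v) (g v)) := by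
  unfold pr
  infer_instance

theorem f1_fs0 [IM M] : F1 (eS M) (fun v : ℕ → M => fs (v 0)) := by
  refine F1.of_graph (R := fun y v => (∃ z, z ≤ v 0 ∧ pr y z = v 0) ∨
    (y = 0 ∧ ¬ ∃ x, x ≤ v 0 ∧ ∃ z, z ≤ v 0 ∧ pr x z = v 0)) ?_ fun v y => eq_fs_iff
  exact (inferInstance : D1 (eS M) (fun v : ℕ → M => (∃ z, z ≤ v 1 ∧ pr (v 0) z = v 1) ∨
    (v 0 = 0 ∧ ¬ ∃ x, x ≤ v 1 ∧ ∃ z, z ≤ v 1 ∧ pr x z = v 1))).s

theorem f1_sn0 [IM M] : F1 (eS M) (fun v : ℕ → M => sn (v 0)) := by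
  refine F1.of_graph (R := fun y v => (∃ z, z ≤ v 0 ∧ pr z y = v 0) ∨
    (y = 0 ∧ ¬ ∃ x, x ≤ v 0 ∧ ∃ z, z ≤ v 0 ∧ pr x z = v 0)) ?_ fun v y => eq_sn_iff
  exact (inferInstance : D1 (eS M) (fun v : ℕ → M => (∃ z, z ≤ v 1 ∧ pr z (v 0) = v 1) ∨
    (v 0 = 0 ∧ ¬ ∃ x, x ≤ v 1 ∧ ∃ z, z ≤ v 1 ∧ pr x z = v 1))).s

instance f1_fs [IM M] {f : (ℕ → M) → M} [hf : F1 X f] : F1 X (fun v => fs (f v)) :=
  F1.s1 (f := fs) (f1_fs0.lift) hf

instance f1_sn [IM M] {f : (ℕ → M) → M} [hf : F1 X f] : F1 X (fun v => sn (f v)) :=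
  F1.s1 (f := sn) (f1_sn0.lift) hf

instance d1_isPr [IM M] {f : (ℕ → M) → M} [hf : F1 X f] : D1 X (fun v => IsPr (f v)) := by
  unfold IsPr
  infer_instance

/-! ### Truncated subtraction, maximum, minimum -/

open Classical in
/-- Truncated subtraction. -/
noncomputable def mn (x y : M) : M := if h : ∃ z, x = y + z then h.choose else 0

theorem mn_add (y z : M) : mn (y + z) y = z := by
  have h : ∃ w, y + z = y + w := ⟨z, rfl⟩
  unfold mn
  rw [dif_pos h]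
  exact (add_left_cancel h.choose_spec).symm

theorem mn_add' (y z : M) : mn (z + y) y = z := by rw [add_comm z y, mn_add]

theorem add_mn {x y : M} (h : y ≤ x) : y + mn x y = x := by
  obtain ⟨z, rfl⟩ := exists_add_of_le h
  rw [mn_add]

theorem mn_self (x : M) : mn x x = 0 := by
  have := mn_add x 0
  rwa [add_zero] at this

theorem mn_eq_zero {x y : M} (h : x ≤ y) : mn x y = 0 := by
  by_cases h1 : ∃ z, x = y + z
  · obtain ⟨z, rfl⟩ := h1
    rw [mn_add]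
    exact le_antisymm (by
      have h2 : y + z ≤ y + 0 := by rwa [add_zero]
      exact le_of_add_le_add_left h2) (zle z)
  · unfold mn
    rw [dif_neg h1]

theorem mn_le (x y : M) : mn x y ≤ x := by
  rcases le_total y x with h | h
  · obtain ⟨z, rfl⟩ := exists_add_of_le h
    rw [mn_add]
    exact le_add_self
  · rw [mn_eq_zero h]
    exact zle x

theorem eq_mn_iff {x y z : M} : z = mn x y ↔ (x = y + z ∨ (x < y ∧ z = 0)) := by
  constructor
  · rintro rfl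
    rcases le_or_gt y x with h | h
    · exact Or.inl (add_mn h).symm
    · exact Or.inr ⟨h, mn_eq_zero h.le⟩
  · rintro (rfl | ⟨h, rfl⟩)
    · rw [mn_add]
    · rw [mn_eq_zero h.le]

instance f1_mn {f g : (ℕ → M) → M} [hf : F1 X f] [hg : F1 X g] :
    F1 X (fun v => mn (f v) (g v)) := by
  refine F1.s2 (f := mn) (F1.of_graph (R := fun z v => v 0 = v 1 + z ∨ (v 0 < v 1 ∧ z = 0)) ?_
    fun v y => eq_mn_iff) hf hg
  exact (inferInstance : D1 X (fun v : ℕ → M => v 1 = v 2 + v 0 ∨ (v 1 < v 2 ∧ v 0 = 0))).s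

theorem eq_max_iff {x y z : M} : z = max x y ↔ ((x ≤ y ∧ z = y) ∨ (y < x ∧ z = x)) := by
  rcases le_or_gt x y with h | h
  · rw [max_eq_right h]
    simp only [h, true_and, not_lt.2 h, false_and, or_false]
  · rw [max_eq_left h.le]
    simp only [h, true_and, not_le.2 h, false_and, false_or]

theorem eq_min_iff {x y z : M} : z = min x y ↔ ((x ≤ y ∧ z = x) ∨ (y < x ∧ z = y)) := by
  rcases le_or_gt x y with h | h
  · rw [min_eq_left h]
    simp only [h, true_and, not_lt.2 h, false_and, or_false]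
  · rw [min_eq_right h.le]
    simp only [h, true_and, not_le.2 h, false_and, false_or]

instance f1_max {f g : (ℕ → M) → M} [hf : F1 X f] [hg : F1 X g] :
    F1 X (fun v => max (f v) (g v)) := by
  refine F1.s2 (f := max) (F1.of_graph (R := fun z v => (v 0 ≤ v 1 ∧ z = v 1) ∨
    (v 1 < v 0 ∧ z = v 0)) ?_ fun v y => eq_max_iff) hf hg
  exact (inferInstance : D1 X (fun v : ℕ → M => (v 1 ≤ v 2 ∧ v 0 = v 2) ∨
    (v 2 < v 1 ∧ v 0 = v 1))).s

instance f1_min {f g : (ℕ → M) → M} [hf : F1 X f] [hg : F1 X g] :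
    F1 X (fun v => min (f v) (g v)) := by
  refine F1.s2 (f := min) (F1.of_graph (R := fun z v => (v 0 ≤ v 1 ∧ z = v 0) ∨
    (v 1 < v 0 ∧ z = v 1)) ?_ fun v y => eq_min_iff) hf hg
  exact (inferInstance : D1 X (fun v : ℕ → M => (v 1 ≤ v 2 ∧ v 0 = v 1) ∨
    (v 2 < v 1 ∧ v 0 = v 2))).s

end Pool.Agent.PD2
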