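import Pool.Agent.Work.MP_a6ae3a_lc.Cls

/-!
# The recursion theorem: `F1 X` is closed under primitive recursion

`Coding X El`: `El` is a `Δ₁(X)` membership relation for which bounded `Δ₁(X)` sets have codes.
-/

namespace Pool.Agent.PD2

variable {M : Type} [PAM M] {X : M → Prop}

/-- A pairing of `M` (only used for the recursion theorem). -/
def qp (x y : M) : M := (x + y) * (x + y) + x

theorem qp_le_left (x y : M) : x ≤ qp x y := le_add_self

theorem mul_self_lt {a b : M} (h : a < b) : a * a + a < b * b := by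
  obtain ⟨c, rfl⟩ := exists_add_of_le (succ_le_iff.2 h)
  have h2 : (a + 1 + c) * (a + 1 + c) = (a * a + a) + 1 + (a + c * c + 2 * a * c + 2 * c) := by
    ring
  rw [h2]
  exact lt_of_lt_of_le (lt_succ_self _) le_self_add

theorem le_mul_self (a : M) : a ≤ a * a := by
  rcases eq_zero_or_succ a with rfl | ⟨b, rfl⟩
  · simp
  · have h : (b + 1) * (b + 1) = (b + 1) + b * (b + 1) := by ring
    rw [h]; exact le_self_add

theorem qp_le_right (x y : M) : y ≤ qp x y :=
  ((le_add_self : y ≤ x + y).trans (le_mul_self _)).trans le_self_add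

theorem qp_inj {x y x' y' : M} : qp x y = qp x' y' ↔ x = x' ∧ y = y' := by
  constructor
  · intro h
    have key : ∀ {x y x' y' : M}, x + y < x' + y' → qp x y < qp x' y' := by
      intro x y x' y' h
      have h1 := mul_self_lt h
      have h2 : qp x y ≤ (x + y) * (x + y) + (x + y) := by
        unfold qp; exact add_le_add_right le_self_add _
      exact lt_of_lt_of_le (lt_of_le_of_lt h2 h1) le_self_add
    have h1 : x + y = x' + y' := by
      rcases lt_trichotomy (x + y) (x' + y') with h1 | h1 | h1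
      · exact absurd h (key h1).ne
      · exact h1
      · exact absurd h (key h1).ne'
    have h2 : x = x' := by
      unfold qp at h
      rw [h1] at h
      exact add_left_cancel h
    refine ⟨h2, ?_⟩
    rw [h2] at h1
    exact add_left_cancel h1
  · rintro ⟨rfl, rfl⟩; rfl

instance f1_qp {f g : (ℕ → M) → M} [F1 X f] [F1 X g] : F1 X (fun v => qp (f v) (g v)) := by
  unfold qp; infer_instance

variable (X)

/-- A `Δ₁` membership relation with codes for bounded `Δ₁` sets. -/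
class Coding (El : M → M → Prop) : Prop where
  d1 : D1 X (fun v => El (v 0) (v 1))
  comp : ∀ P : M → Prop, D1 X (fun v => P (v 0)) → ∀ n, ∃ s, ∀ x, x < n → (El x s ↔ P x)

variable {X}

section rec

variable {El : M → M → Prop} [hE : Coding X El]

theorem d1_el {f g : (ℕ → M) → M} [F1 X f] [F1 X g] : D1 X (fun v => El (f v) (g v)) :=
  D1.s2 hE.d1 inferInstance inferInstance

variable (El) in
/-- The pair `(i, z)` belongs to the set coded by `s` below `b`. -/
def RQ (s b i z : M) : Prop := qp i z < b ∧ El (qp i z) s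

instance d1_rq {f g h k : (ℕ → M) → M} [F1 X f] [F1 X g] [F1 X h] [F1 X k] :
    D1 X (fun v => RQ El (f v) (g v) (h v) (k v)) := by
  unfold RQ
  have := @d1_el M _ X El hE (fun v => qp (h v) (k v)) f _ _
  infer_instance

theorem RQ.lt {s b i z : M} (h : RQ El s b i z) : z < b := lt_of_le_of_lt (qp_le_right i z) h.1

variable (El) in
/-- `s`, `b` code a computation of length `n` of the recursion. -/
def RC (G : (ℕ → M) → M) (H : M → M → (ℕ → M) → M) (s b n : M) (v : ℕ → M) : Prop :=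
  RQ El s b 0 (G v) ∧
  (∀ i, i < n → ∀ z, z < b → (RQ El s b i z → RQ El s b (i + 1) (H i z v))) ∧
  ∀ i, i ≤ n → ∀ z, z < b → ∀ z', z' < b → (RQ El s b i z ∧ RQ El s b i z' → z = z')

variable (El) in
/-- The graph of the recursion. -/
def RR (G : (ℕ → M) → M) (H : M → M → (ℕ → M) → M) (y n : M) (v : ℕ → M) : Prop :=
  ∃ s, ∃ b, RC El G H s b n v ∧ RQ El s b n y

variable {G : (ℕ → M) → M} {H : M → M → (ℕ → M) → M}

theorem rr_s1 [I1 X] (hG : F1 X G) (hH : F1 X (fun v => H (v 0) (v 1) (fun i => v (i + 2)))) :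
    S1 X (fun w => RR El G H (w 0) (w 1) (fun i => w (i + 2))) := by
  have hG' : ∀ t : ℕ → ℕ, F1 X (fun w : ℕ → M => G (fun i => w (t i))) := fun t =>
    F1.subF hG (g := fun i w => w (t i)) (fun i => f1_var (t i))
  have hH' : ∀ (t : ℕ → ℕ) (f g : (ℕ → M) → M) [F1 X f] [F1 X g],
      F1 X (fun w : ℕ → M => H (f w) (g w) (fun i => w (t i))) := fun t f g _ _ =>
    F1.subF hH (g := fun i w => match i with
      | 0 => f w
      | 1 => g w
      | i + 2 => w (t i)) (fun i => by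
        match i with
        | 0 => exact inferInstanceAs (F1 X f)
        | 1 => exact inferInstanceAs (F1 X g)
        | i + 2 => exact f1_var _)
  unfold RR RC
  infer_instance

variable (X) in
include hE in
theorem rr_zero (v : ℕ → M) : RR El G H (G v) 0 v := by
  obtain ⟨s, hs⟩ := hE.comp (fun x => x = qp 0 (G v)) inferInstance (qp 0 (G v) + 1)
  have h1 : ∀ i z, RQ El s (qp 0 (G v) + 1) i z ↔ i = 0 ∧ z = G v := by
    intro i z
    unfold RQ
    constructor
    · rintro ⟨h1, h2⟩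
      exact qp_inj.1 ((hs _ h1).1 h2)
    · rintro ⟨rfl, rfl⟩
      exact ⟨lt_succ_self _, (hs _ (lt_succ_self _)).2 rfl⟩
  refine ⟨s, qp 0 (G v) + 1, ⟨(h1 _ _).2 ⟨rfl, rfl⟩, fun i hi => absurd hi (not_lt_zero' i), ?_⟩,
    (h1 _ _).2 ⟨rfl, rfl⟩⟩
  rintro i - z - z' - ⟨h2, h3⟩
  rw [((h1 _ _).1 h2).2, ((h1 _ _).1 h3).2]

variable (X) in
include hE in
theorem rr_succ [I1 X] {y n : M} {v : ℕ → M} (h : RR El G H y n v) :
    RR El G H (H n y v) (n + 1) v := by
  obtain ⟨s, b, ⟨hA, hB, hC⟩, hy⟩ := h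
  obtain ⟨s', hs'⟩ := hE.comp (fun x => (∃ i, i < n + 1 ∧ ∃ z, z < b ∧ (x = qp i z ∧
    RQ El s b i z)) ∨ x = qp (n + 1) (H n y v)) inferInstance (b + (qp (n + 1) (H n y v) + 1))
  have h1 : ∀ i z, RQ El s' (b + (qp (n + 1) (H n y v) + 1)) i z ↔
      (i < n + 1 ∧ RQ El s b i z) ∨ (i = n + 1 ∧ z = H n y v) := by
    intro i z
    constructor
    · rintro ⟨h1, h2⟩
      rcases (hs' _ h1).1 h2 with ⟨j, hj, w, hw, h3, h4⟩ | h3
      · obtain ⟨rfl, rfl⟩ := qp_inj.1 h3
        exact Or.inl ⟨hj, h4⟩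
      · exact Or.inr (qp_inj.1 h3)
    · rintro (⟨hi, h2⟩ | ⟨rfl, rfl⟩)
      · have h3 : qp i z < b + (qp (n + 1) (H n y v) + 1) := lt_of_lt_of_le h2.1 le_self_add
        exact ⟨h3, (hs' _ h3).2 (Or.inl ⟨i, hi, z, h2.lt, rfl, h2⟩)⟩
      · have h3 : qp (n + 1) (H n y v) < b + (qp (n + 1) (H n y v) + 1) :=
          lt_of_lt_of_le (lt_succ_self _) le_add_self
        exact ⟨h3, (hs' _ h3).2 (Or.inr rfl)⟩
  refine ⟨s', _, ⟨(h1 _ _).2 (Or.inl ⟨lt_succ_iff.2 (zle n), hA⟩), ?_, ?_⟩,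
    (h1 _ _).2 (Or.inr ⟨rfl, rfl⟩)⟩
  · intro i hi z _ hz
    rcases (h1 _ _).1 hz with ⟨_, h2⟩ | ⟨h2, _⟩
    · rcases lt_succ_cases hi with h3 | rfl
      · refine (h1 _ _).2 (Or.inl ⟨?_, hB i h3 z h2.lt h2⟩)
        exact lt_succ_iff.2 (succ_le_iff.2 h3)
      · have h4 : z = y := hC i le_rfl z h2.lt y hy.lt ⟨h2, hy⟩
        rw [h4]
        exact (h1 _ _).2 (Or.inr ⟨rfl, rfl⟩)
    · rw [h2] at hi
      exact absurd hi (lt_irrefl _)
  · rintro i hi z - z' - ⟨h2, h3⟩
    rcases (h1 _ _).1 h2 with ⟨h4, h5⟩ | ⟨h4, h5⟩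
    · rcases (h1 _ _).1 h3 with ⟨_, h7⟩ | ⟨h6, _⟩
      · exact hC i (lt_succ_iff.1 h4) z h5.lt z' h7.lt ⟨h5, h7⟩
      · rw [h6] at h4; exact absurd h4 (lt_irrefl _)
    · rcases (h1 _ _).1 h3 with ⟨h6, _⟩ | ⟨_, h7⟩
      · rw [h4] at h6; exact absurd h6 (lt_irrefl _)
      · rw [h5, h7]

include hE in
theorem rr_ex [I1 X] (hG : F1 X G) (hH : F1 X (fun v => H (v 0) (v 1) (fun i => v (i + 2))))
    (v : ℕ → M) (n : M) : ∃ y, RR El G H y n v := by
  have h1 : S1 X (fun w : ℕ → M => ∃ y, RR El G H y (w 0) v) := by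
    refine S1.exists (R := fun y w => RR El G H y (w 0) v) ?_
    exact S1.subF (rr_s1 (El := El) hG hH) (g := fun i w => match i with
      | 0 => w 0
      | 1 => w 1
      | i + 2 => v i) (fun i => by
        match i with
        | 0 => exact f1_var 0
        | 1 => exact f1_var 1
        | i + 2 => exact f1_const _)
  exact ind_s (P := fun n => ∃ y, RR El G H y n v) h1 ⟨_, rr_zero X v⟩
    (fun n ⟨y, hy⟩ => ⟨_, rr_succ X hy⟩) n

variable (X) in
include hE in
theorem rr_unique [I1 X] {y y' n : M} {v : ℕ → M} (h : RR El G H y n v) (h' : RR El G H y' n v) : y = y' := by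
  obtain ⟨s, b, ⟨hA, hB, hC⟩, hy⟩ := h
  obtain ⟨s', b', ⟨hA', hB', hC'⟩, hy'⟩ := h'
  have h1 : ∀ i, (i ≤ n → ∃ z, z < b ∧ (RQ El s b i z ∧ RQ El s' b' i z)) := by
    refine ind_d X inferInstance (fun _ => ⟨G v, hA.lt, hA, hA'⟩) (fun i ih hi => ?_)
    obtain ⟨z, hz, h1, h2⟩ := ih (le_trans le_self_add hi)
    have h3 := hB i (succ_le_iff.1 hi) z hz h1
    have h4 := hB' i (succ_le_iff.1 hi) z h2.lt h2
    exact ⟨_, h3.lt, h3, h4⟩
  obtain ⟨z, hz, h2, h3⟩ := h1 n le_rfl
  rw [hC n le_rfl y hy.lt z hz ⟨hy, h2⟩, hC' n le_rfl z h3.lt y' hy'.lt ⟨h3, hy'⟩]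

variable (El) in
include hE in
/-- The recursion theorem. -/
theorem prim_rec' [I1 X] (hG : F1 X G) (hH : F1 X (fun v => H (v 0) (v 1) (fun i => v (i + 2)))) :
    ∃ f : M → (ℕ → M) → M, (∀ v, f 0 v = G v) ∧ (∀ n v, f (n + 1) v = H n (f n v) v) ∧
      F1 X (fun v => f (v 0) (fun i => v (i + 1))) := by
  choose f hf using fun (n : M) (v : ℕ → M) => rr_ex (El := El) hG hH v n
  refine ⟨f, fun v => rr_unique X (hf 0 v) (rr_zero X v),
    fun n v => rr_unique X (hf (n + 1) v) (rr_succ X (hf n v)), ?_⟩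
  refine F1.of_graph (R := fun y v => RR El G H y (v 0) (fun i => v (i + 1)))
    (rr_s1 (El := El) hG hH) (fun v y => ⟨?_, fun h => rr_unique X h (hf _ _)⟩)
  rintro rfl
  exact hf _ _

variable (El) in
include hE in
/-- Recursion without parameters. -/
theorem prim0' [I1 X] (a : M) {h : M → M → M} (hh : F1 X (fun v => h (v 0) (v 1))) :
    ∃ f : M → M, f 0 = a ∧ (∀ n, f (n + 1) = h n (f n)) ∧ F1 X (fun v => f (v 0)) := by
  obtain ⟨f, h0, h1, h2⟩ := prim_rec' El (X := X) (G := fun _ => a) (H := fun n y _ => h n y)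
    (f1_const a) hh
  refine ⟨fun n => f n (fun _ => 0), h0 _, fun n => h1 n _, ?_⟩
  exact F1.subF h2 (g := fun i v => match i with
    | 0 => v 0
    | i + 1 => 0) (fun i => by
      match i with
      | 0 => exact f1_var 0
      | i + 1 => exact f1_const _)

variable (El) in
include hE in
/-- Recursion with one parameter. -/
theorem prim1' [I1 X] {g : M → M} {h : M → M → M → M} (hg : F1 X (fun v => g (v 0)))
    (hh : F1 X (fun v => h (v 0) (v 1) (v 2))) :
    ∃ f : M → M → M, (∀ p, f 0 p = g p) ∧ (∀ n p, f (n + 1) p = h n (f n p) p) ∧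
      F1 X (fun v => f (v 0) (v 1)) := by
  obtain ⟨f, h0, h1, h2⟩ := prim_rec' El (X := X) (G := fun v => g (v 0))
    (H := fun n y v => h n y (v 0)) hg hh
  refine ⟨fun n p => f n (psh p (fun _ => 0)), fun p => h0 _, fun n p => h1 n _, ?_⟩
  refine F1.congr (F1.subF h2 (g := fun i v => match i with
    | 0 => v 0
    | 1 => v 1
    | i + 2 => 0) (fun i => by
      match i with
      | 0 => exact f1_var 0
      | 1 => exact f1_var 1
      | i + 2 => exact f1_const _)) (fun v => ?_)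
  congr 1
  funext i
  cases i <;> rfl

variable (El) in
include hE in
/-- Recursion with two parameters. -/
theorem prim2' [I1 X] {g : M → M → M} {h : M → M → M → M → M}
    (hg : F1 X (fun v => g (v 0) (v 1))) (hh : F1 X (fun v => h (v 0) (v 1) (v 2) (v 3))) :
    ∃ f : M → M → M → M, (∀ p q, f 0 p q = g p q) ∧
      (∀ n p q, f (n + 1) p q = h n (f n p q) p q) ∧ F1 X (fun v => f (v 0) (v 1) (v 2)) := by
  obtain ⟨f, h0, h1, h2⟩ := prim_rec' El (X := X) (G := fun v => g (v 0) (v 1))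
    (H := fun n y v => h n y (v 0) (v 1)) hg hh
  refine ⟨fun n p q => f n (psh p (psh q (fun _ => 0))), fun p q => h0 _, fun n p q => h1 n _, ?_⟩
  refine F1.congr (F1.subF h2 (g := fun i v => match i with
    | 0 => v 0
    | 1 => v 1
    | 2 => v 2
    | i + 3 => 0) (fun i => by
      match i with
      | 0 => exact f1_var 0
      | 1 => exact f1_var 1
      | 2 => exact f1_var 2
      | i + 3 => exact f1_const _)) (fun v => ?_)
  congr 1
  funext i
  match i with
  | 0 => rfl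
  | 1 => rfl
  | i + 2 => rfl

end rec

end Pool.Agent.PD2
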