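import Pool.Agent.Work.MP_a6ae3a_lc.Branch

/-!
# Choice of the side

From a `Δ₂` tree whose nodes carry two sets `C0 k`, `C1 k` of block ends: there is a side `i` and a
condition `S` below which the block ends of side `i` are unbounded.
-/

namespace Pool.Agent.PD2
variable {M : Type} [PAM M] {Y : M → Prop}

namespace Tr

variable {Lv : M → Prop} {Nd : M → M → Prop} {res : M → M → M} {g : M → M}

/-- The whole tree is a condition. -/
theorem LT.cn (T : LT Y Lv Nd res g) : Cn Y Lv Nd res Nd :=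
  ⟨T.d2N, fun _ _ h => h, T.rs, T.ne⟩

variable [C1 Y]

/-- The nodes without a block end of side `0` above `m`. -/
def Sm (Nd : M → M → Prop) (C0 : M → M → Prop) (m b k : M) : Prop :=
  Nd b k ∧ ∀ t, t < b → C0 k t → t < m

theorem side2 (T : LT Y Lv Nd res g) {E0 E1 : M → M → Prop}
    (d0 : ∀ {a b : (ℕ → M) → M}, F1 Y a → F1 Y b → D1 Y (fun v => E0 (a v) (b v)))
    (h0 : ∀ b k t, E0 (res b k) t → E0 k t)
    (hc : ∀ m, ∃ b b', m ≤ b ∧ b < b' ∧ Lv b' ∧ ∀ k, Nd b' k → E0 k b ∨ E1 k b) :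
    (∀ m, ∃ b, Lv b ∧ ∀ k, Nd b k → ∃ t, m ≤ t ∧ E0 k t) ∨
      ∃ S, Cn Y Lv Nd res S ∧ ∀ m, ∃ b, Lv b ∧ ∀ k, S b k → ∃ t, m ≤ t ∧ E1 k t := by
  by_cases h : ∃ m, ∀ b, Lv b → ∃ k, Sm Nd E0 m b k
  · right
    obtain ⟨m, hm⟩ := h
    refine ⟨Sm Nd E0 m, ⟨?_, fun b k h => h.1, ?_, hm⟩, fun n => ?_⟩
    · intro a b ha hb
      have k1 := T.d2N ha hb
      have i3 : ∀ {a b : (ℕ → M) → M} [F1 Y a] [F1 Y b], D1 Y (fun v => E0 (a v) (b v)) :=
        d0 inferInstance inferInstance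
      have hb' : F1 Y (fun v : ℕ → M => b (fun i => v (i + 1))) := F1.tail hb
      have k2 : D1 Y (fun v => ∀ t, t < a v → E0 (b v) t → t < m) := inferInstance
      exact k1.and k2
    · intro b b' k h hb hbb
      exact ⟨T.rs b b' k h.1 hb hbb, fun t ht h' => h.2 t (ht.trans_le hbb) (h0 _ _ _ h')⟩
    · obtain ⟨b, b', h1, h2, h3, h4⟩ := hc (max m n)
      refine ⟨b', h3, fun k hk => ⟨b, (le_max_right _ _).trans h1, ?_⟩⟩
      rcases h4 k hk.1 with h | h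
      · exact absurd (hk.2 b h2 h) (not_lt.2 ((le_max_left _ _).trans h1))
      · exact h
  · left
    push Not at h
    intro m
    obtain ⟨b, hb, h1⟩ := h m
    refine ⟨b, hb, fun k hk => ?_⟩
    by_contra h2
    push Not at h2
    refine h1 k ⟨hk, fun t _ h3 => ?_⟩
    by_contra h4
    exact h2 t (not_lt.1 h4) h3

/-- The choice of the side, for a family of two sets. -/
theorem side (T : LT Y Lv Nd res g) {E : Bool → M → M → Prop}
    (d0 : ∀ {a b : (ℕ → M) → M}, F1 Y a → F1 Y b → D1 Y (fun v => E false (a v) (b v)))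
    (h0 : ∀ b k t, E false (res b k) t → E false k t)
    (hc : ∀ m, ∃ b b', m ≤ b ∧ b < b' ∧ Lv b' ∧ ∀ k, Nd b' k → E false k b ∨ E true k b) :
    ∃ i S, Cn Y Lv Nd res S ∧ ∀ m, ∃ b, Lv b ∧ ∀ k, S b k → ∃ t, m ≤ t ∧ E i k t := by
  rcases side2 T d0 h0 hc with h | ⟨S, hS, h⟩
  · exact ⟨false, Nd, T.cn, h⟩
  · exact ⟨true, S, hS, h⟩

end Tr
end Pool.Agent.PD2
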