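import Pool.Agent.Work.MP_a6ae3a_lc.Side
import Pool.Agent.Work.MP_a6ae3a_lc.API

/-!
# Choice of the side, concrete form
-/

namespace Pool.Agent.PD2
variable {M : Type} [PAM M] [IM M] {X A : M → Prop}

namespace FQ

instance f1_nF {Y : M → Prop} {f : (ℕ → M) → M} (i : Bool) [F1 Y f] :
    F1 Y (fun v => nF i (f v)) := by
  unfold nF
  cases i <;> simp only [if_true, if_false, Bool.false_eq_true] <;> infer_instance

instance f1_nC {Y : M → Prop} {f : (ℕ → M) → M} (i : Bool) [F1 Y f] :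
    F1 Y (fun v => nC i (f v)) := by
  unfold nC
  cases i <;> simp only [if_true, if_false, Bool.false_eq_true] <;> infer_instance

theorem nF_nr (i : Bool) (κ b : M) : nF i (nr κ b) = rs (nF i κ) b := by
  cases i <;> simp [nF, nr, nd]

theorem nC_nr (i : Bool) (κ b : M) : nC i (nr κ b) = rs (nC i κ) b := by
  cases i <;> simp [nC, nr, nd]

end FQ

/-- The side `i` and the condition `S` below which the settled blocks of side `i` are unbounded. -/
theorem side_st [B2 X] {St : M → M → Prop} {g : M → M}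
    (T : Tr.LT (jp X) (fun b => ∃ K, St b K) (fun b k => ∃ K, St b K ∧ Bt K k) (fun b k => nr k b) g)
    (hu : ∀ b K K', St b K → St b K' → K = K')
    (hc : ∀ n, ∃ b K, n ≤ b ∧ St b K)
    (hn : ∀ b K, St b K → ∃ b' K', St b' K' ∧ Suc X A b K b' K') :
    ∃ (i : Bool) (S : M → M → Prop),
      Tr.Cn (jp X) (fun b => ∃ K, St b K) (fun b k => ∃ K, St b K ∧ Bt K k) (fun b k => nr k b) S ∧
      ∀ m, ∃ b, (∃ K, St b K) ∧ ∀ k, S b k → ∃ t, m ≤ t ∧ Bt (nC i k) t := by
  refine Tr.side T (E := fun i k t => Bt (nC i k) t) (fun ha hb => inferInstance) ?_ ?_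
  · intro b k t h
    rw [FQ.nC_nr] at h
    exact (bt_rs.1 h).2
  · intro m
    obtain ⟨b, K, hm, hK⟩ := hc m
    obtain ⟨b', K', hK', hS⟩ := hn b K hK
    refine ⟨b, b', hm, hS.1, ⟨K', hK'⟩, ?_⟩
    rintro k ⟨K'', h1, h2⟩
    obtain rfl := hu _ _ _ hK' h1
    obtain ⟨_, h3⟩ := hS.2.2.2 k h2
    obtain ⟨i, h4, _⟩ := h3.2.2.2.1
    have h5 := (h4 b le_rfl).2 rfl
    cases i
    · exact Or.inl h5
    · exact Or.inr h5

end Pool.Agent.PD2
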