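import Pool.Agent.Work.MP_a6ae3a_lc.API

/-!
# The common level `b'`

For finitely many parts `P i` (`i < r`), each of which is bounded or meets `A` and its complement
above `t0`, there is one level `b'` such that each part has no element `≥ b'` or has an element
of `A` and an element outside of `A` in `[t0, b')`. If there is no solution in an extension, the
alternative holds for all parts which are `Δ₁` in a set `Y` with `IΣ₁(Y) + BΣ₂(Y)`.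
-/

namespace Pool.Agent.PD2

variable {M : Type} [PAM M]

theorem common_level {Z : M → Prop} [C1 Z] (r t0 : M) (P : M → M → Prop) (A : M → Prop)
    (hP : D1 Z (fun v => P (v 0) (v 1)))
    (hE : D1 Z (fun v => ∀ x, v 1 ≤ x → ¬ P (v 0) x))
    (hA : D1 Z (fun v => A (v 0)))
    (h : ∀ i, i < r → (∃ n, ∀ x, n ≤ x → ¬ P i x) ∨
      ((∃ x, t0 ≤ x ∧ P i x ∧ A x) ∧ ∃ y, t0 ≤ y ∧ P i y ∧ ¬ A y)) :
    ∃ b, t0 ≤ b ∧ ∀ i, i < r → (∀ x, b ≤ x → ¬ P i x) ∨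
      ((∃ x, x < b ∧ t0 ≤ x ∧ P i x ∧ A x) ∧ ∃ y, y < b ∧ t0 ≤ y ∧ P i y ∧ ¬ A y) := by
  have k1 : D1 Z (fun v : ℕ → M => (∀ x, v 1 ≤ x → ¬ P (v 0) x) ∨
      ((∃ x, x < v 1 ∧ (t0 ≤ x ∧ P (v 0) x ∧ A x)) ∧
        ∃ y, y < v 1 ∧ (t0 ≤ y ∧ P (v 0) y ∧ ¬ A y))) := by
    have k2 : D1 Z (fun v : ℕ → M => t0 ≤ v 0 ∧ P (v 1) (v 0) ∧ A (v 0)) := by
      have := D1.s2 hP (g0 := fun v : ℕ → M => v 1) (g1 := fun v => v 0) inferInstance inferInstance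
      infer_instance
    have k3 : D1 Z (fun v : ℕ → M => t0 ≤ v 0 ∧ P (v 1) (v 0) ∧ ¬ A (v 0)) := by
      have := D1.s2 hP (g0 := fun v : ℕ → M => v 1) (g1 := fun v => v 0) inferInstance inferInstance
      infer_instance
    have k4 : D1 Z (fun v : ℕ → M => ∃ x, x < v 1 ∧ (t0 ≤ x ∧ P (v 0) x ∧ A x)) :=
      @d1_ex _ _ _ (fun v => v 1) _ (fun x v => t0 ≤ x ∧ P (v 0) x ∧ A x) _ k2
    have k5 : D1 Z (fun v : ℕ → M => ∃ x, x < v 1 ∧ (t0 ≤ x ∧ P (v 0) x ∧ ¬ A x)) :=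
      @d1_ex _ _ _ (fun v => v 1) _ (fun x v => t0 ≤ x ∧ P (v 0) x ∧ ¬ A x) _ k3
    infer_instance
  obtain ⟨B, hB⟩ := coll_s (X := Z) (P := fun i b => (∀ x, b ≤ x → ¬ P i x) ∨
      ((∃ x, x < b ∧ (t0 ≤ x ∧ P i x ∧ A x)) ∧ ∃ y, y < b ∧ (t0 ≤ y ∧ P i y ∧ ¬ A y))) k1.s r
    (by
      intro i hi
      rcases h i hi with ⟨n, hn⟩ | ⟨⟨x, hx⟩, y, hy⟩
      · exact ⟨n, Or.inl hn⟩
      · obtain ⟨b, h1, h2⟩ := exists_gt2 x y
        exact ⟨b, Or.inr ⟨⟨x, h1, hx⟩, y, h2, hy⟩⟩)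
  refine ⟨B + t0, le_add_self, fun i hi => ?_⟩
  obtain ⟨b, hb, h1⟩ := hB i hi
  have hb' : b ≤ B + t0 := hb.le.trans le_self_add
  rcases h1 with h1 | ⟨⟨x, hx, hx'⟩, y, hy, hy'⟩
  · exact Or.inl fun x hx => h1 x (hb'.trans hx)
  · exact Or.inr ⟨⟨x, lt_of_lt_of_le hx hb', hx'⟩, y, lt_of_lt_of_le hy hb', hy'⟩

/-- The join of two `Δ₁` sets is `Δ₁`. -/
theorem d1_jn_of {X H Y : M → Prop} [C1 Y] (hX : D1 Y (fun v => X (v 0)))
    (hH : D1 Y (fun v => H (v 0))) : D1 Y (fun v => jn X H (v 0)) := by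
  have h1 : D1 Y (fun v : ℕ → M => ∃ x, x ≤ v 0 ∧ (v 0 = x + x ∧ X x)) := by
    have := hX
    infer_instance
  have h2 : D1 Y (fun v : ℕ → M => ∃ x, x ≤ v 0 ∧ (v 0 = x + x + 1 ∧ H x)) := by
    have := hH
    infer_instance
  refine D1.congr (R := fun v : ℕ → M => (∃ x, x ≤ v 0 ∧ (v 0 = x + x ∧ X x)) ∨
    ∃ x, x ≤ v 0 ∧ (v 0 = x + x + 1 ∧ H x)) inferInstance fun v => ?_
  unfold jn
  constructor
  · rintro (⟨x, _, h⟩ | ⟨x, _, h⟩)
    · exact Or.inl ⟨x, h⟩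
    · exact Or.inr ⟨x, h⟩
  · rintro (⟨x, h, h'⟩ | ⟨x, h, h'⟩)
    · exact Or.inl ⟨x, by rw [h]; exact le_self_add, h, h'⟩
    · exact Or.inr ⟨x, by rw [h, add_assoc]; exact le_self_add, h, h'⟩

variable [IM M]

/-- Without a solution, unbounded `Δ₁(Y)` sets meet `A` and its complement above every bound. -/
theorem meets {X A Y : M → Prop} [B2 Y] (hX : D1 Y (fun v => X (v 0))) (hno : NoSol X A)
    {L : M → Prop} (hL : D1 Y (fun v => L (v 0))) (hU : Unb L) (t : M) :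
    (∃ x, t ≤ x ∧ L x ∧ A x) ∧ ∃ y, t ≤ y ∧ L y ∧ ¬ A y := by
  have hL' : D1 Y (fun v => t ≤ v 0 ∧ L (v 0)) := by
    have := hL
    infer_instance
  have hB : B2 (jn X (fun x => t ≤ x ∧ L x)) := b2_down (d1_jn_of hX hL')
  have hU' : Unb (fun x => t ≤ x ∧ L x) := by
    intro n
    obtain ⟨x, hx, h⟩ := hU (n + t)
    exact ⟨x, le_self_add.trans hx, le_add_self.trans hx, h⟩
  constructor
  · by_contra hc
    push Not at hc
    exact hno ⟨_, hU', Or.inr fun x hx => hc x hx.1 hx.2, hB⟩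
  · by_contra hc
    push Not at hc
    exact hno ⟨_, hU', Or.inl fun x hx => hc x hx.1 hx.2, hB⟩

/-- `Π₁(X)` relations are `Δ₁(X')`. -/
theorem d1_jp_p {X : M → Prop} [I1 X] {R : (ℕ → M) → Prop} (hR : S1 X (fun v => ¬ R v)) :
    D1 (jp X) R :=
  D1.congr (R := fun v => ¬ ¬ R v) (d1_jp hR).not fun v => not_not

/-- The common level together with coded choices of the two elements. -/
theorem level_ex {X A Y : M → Prop} [B2 X] [B2 Y] (hX : D1 Y (fun v => X (v 0)))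
    (hA : D1 (jp X) (fun v => A (v 0))) (hno : NoSol X A) (r t0 : M) {P : M → M → Prop}
    (hP : D1 Y (fun v => P (v 0) (v 1))) :
    ∃ b xx yy : M, t0 ≤ b ∧ ∀ i, i < r → (∀ x, b ≤ x → ¬ P i x) ∨
      ((ap xx i < b ∧ t0 ≤ ap xx i ∧ P i (ap xx i) ∧ A (ap xx i)) ∧
        ap yy i < b ∧ t0 ≤ ap yy i ∧ P i (ap yy i) ∧ ¬ A (ap yy i)) := by
  have hA' : D1 (jp Y) (fun v => A (v 0)) := D1.trans (jp_mono hX) hA
  have hP' : D1 (jp Y) (fun v => P (v 0) (v 1)) := d1_jp hP.s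
  have hE : D1 (jp Y) (fun v => ∀ x, v 1 ≤ x → ¬ P (v 0) x) := by
    refine d1_jp_p ?_
    have h1 : D1 Y (fun v : ℕ → M => v 2 ≤ v 0 ∧ P (v 1) (v 0)) := by
      have := D1.s2 hP (g0 := fun v : ℕ → M => v 1) (g1 := fun v => v 0) inferInstance inferInstance
      infer_instance
    refine S1.congr (S1.exists (R := fun x v => v 1 ≤ x ∧ P (v 0) x) h1.s) fun v => ?_
    push Not
    rfl
  obtain ⟨b, hb, h⟩ := common_level (Z := jp Y) r t0 P A hP' hE hA' (fun i _ => by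
    by_cases hU : Unb (P i)
    · right
      have hPi : D1 Y (fun v => P i (v 0)) :=
        D1.s2 hP (g0 := fun _ : ℕ → M => i) (g1 := fun v => v 0) inferInstance inferInstance
      exact meets hX hno hPi hU t0
    · left
      unfold Unb at hU
      push Not at hU
      exact hU)
  have hx : D1 (jp Y) (fun v : ℕ → M => (∀ x, b ≤ x → ¬ P (v 0) x) ∨
      (v 1 < b ∧ t0 ≤ v 1 ∧ P (v 0) (v 1) ∧ A (v 1))) := by
    have h1 := D1.s2 (P := fun i b => ∀ x, b ≤ x → ¬ P i x) hE (g0 := fun v : ℕ → M => v 0)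
      (g1 := fun _ => b) inferInstance inferInstance
    have h2 := D1.s1 (P := A) hA' (g0 := fun v : ℕ → M => v 1) inferInstance
    infer_instance
  have hy : D1 (jp Y) (fun v : ℕ → M => (∀ x, b ≤ x → ¬ P (v 0) x) ∨
      (v 1 < b ∧ t0 ≤ v 1 ∧ P (v 0) (v 1) ∧ ¬ A (v 1))) := by
    have h1 := D1.s2 (P := fun i b => ∀ x, b ≤ x → ¬ P i x) hE (g0 := fun v : ℕ → M => v 0)
      (g1 := fun _ => b) inferInstance inferInstance
    have h2 := D1.s1 (P := A) hA' (g0 := fun v : ℕ → M => v 1) inferInstance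
    infer_instance
  obtain ⟨xx, hxx⟩ := ex_fun (jp Y) (R := fun i y => (∀ x, b ≤ x → ¬ P i x) ∨
      (y < b ∧ t0 ≤ y ∧ P i y ∧ A y)) hx r (by
    intro i hi
    rcases h i hi with h1 | ⟨⟨x, h1⟩, _⟩
    · exact ⟨0, Or.inl h1⟩
    · exact ⟨x, Or.inr h1⟩)
  obtain ⟨yy, hyy⟩ := ex_fun (jp Y) (R := fun i y => (∀ x, b ≤ x → ¬ P i x) ∨
      (y < b ∧ t0 ≤ y ∧ P i y ∧ ¬ A y)) hy r (by
    intro i hi
    rcases h i hi with h1 | ⟨_, y, h1⟩
    · exact ⟨0, Or.inl h1⟩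
    · exact ⟨y, Or.inr h1⟩)
  refine ⟨b, xx, yy, hb, fun i hi => ?_⟩
  rcases hxx i hi with h1 | h1
  · exact Or.inl h1
  · rcases hyy i hi with h2 | h2
    · exact Or.inl h2
    · exact Or.inr ⟨h1, h2⟩

end Pool.Agent.PD2
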