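import Pool.Agent.Work.MP_a6ae3a_lc.SuccD
import Pool.Agent.Work.MP_a6ae3a_lc.Succ2

/-!
# A good child for every part

For every part `(κ, j)` of the partition below a valid state there is a level `β` such that the
part has no element `≥ β` or a good child at `β`.
-/

namespace Pool.Agent.PD2

variable {M : Type} [PAM M] [IM M]

theorem nF_nd4 (N C : Bool → M) (k : Bool) :
    nF k (nd (N false) (N true) (C false) (C true)) = N k := by
  cases k <;> simp [nF, nd]

theorem nC_nd4 (N C : Bool → M) (k : Bool) :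
    nC k (nd (N false) (N true) (C false) (C true)) = C k := by
  cases k <;> simp [nC, nd]

theorem good_child {X A : M → Prop} {b : M} {G f : M → M} {κ j : M} (hκ : Nd A b κ)
    (rsp : ∀ n, Rsp X b κ (fun x => x < n ∧ G x = κ) n) {t : M} (ht : b ≤ t) {i : Bool} {F : M}
    (hF : ∀ x, Bt F x → b ≤ x ∧ x < t ∧ G x = κ ∧ (A x ↔ i = false))
    (hL : ∀ n E, (∀ x, Bt E x → t ≤ x ∧ x < n ∧ G x = κ ∧ f x = j) → ∀ e, e < b →
      Cv X e (un (un (nF i κ) F) E) n → Cv X e (un (nF i κ) F) t)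
    {x y : M} (hx : t ≤ x ∧ (G x = κ ∧ f x = j) ∧ A x) (hy : t ≤ y ∧ (G y = κ ∧ f y = j) ∧ ¬ A y) :
    ∃ β κ', GC X A b G f κ j κ' β := by
  obtain ⟨hnd, hFb, hCb, hA0, hA1⟩ := hκ
  obtain ⟨pt, hptf, hptt⟩ : ∃ pt : Bool → M, pt false = x ∧ pt true = y :=
    ⟨fun k => if k then y else x, rfl, rfl⟩
  obtain ⟨FF, hFFi, hFFn⟩ : ∃ FF : Bool → M, FF i = F ∧ FF (!i) = 0 := by
    refine ⟨fun k => if k = i then F else 0, if_pos rfl, if_neg ?_⟩
    cases i <;> simp
  obtain ⟨CC, hCCi, hCCn⟩ : ∃ CC : Bool → M, CC i = tw b ∧ CC (!i) = 0 := by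
    refine ⟨fun k => if k = i then tw b else 0, if_pos rfl, if_neg ?_⟩
    cases i <;> simp
  have hb2 : ∀ k : Bool, k = i ∨ k = !i := by
    intro k; cases k <;> cases i <;> simp
  -- the new points
  have hpt : ∀ k, t ≤ pt k ∧ G (pt k) = κ ∧ f (pt k) = j ∧ (A (pt k) ↔ k = false) := by
    intro k
    cases k
    · rw [hptf]; exact ⟨hx.1, hx.2.1.1, hx.2.1.2, by simp [hx.2.2]⟩
    · rw [hptt]; exact ⟨hy.1, hy.2.1.1, hy.2.1.2, by simp [hy.2.2]⟩
  have hFF : ∀ k z, Bt (FF k) z → b ≤ z ∧ z < t ∧ G z = κ ∧ (A z ↔ k = false) := by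
    intro k z hz
    rcases hb2 k with rfl | rfl
    · rw [hFFi] at hz
      exact hF z hz
    · rw [hFFn] at hz
      exact absurd hz (bt_zero z)
  have hCC : ∀ k z, Bt (CC k) z ↔ (k = i ∧ z = b) := by
    intro k z
    rcases hb2 k with rfl | rfl
    · rw [hCCi, bt_tw]; simp
    · rw [hCCn]
      constructor
      · intro h; exact absurd h (bt_zero z)
      · rintro ⟨h, _⟩
        cases i <;> simp at h
  obtain ⟨N, hN⟩ : ∃ N : Bool → M, ∀ k, N k = un (un (nF k κ) (FF k)) (tw (pt k)) := ⟨_, fun _ => rfl⟩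
  obtain ⟨C, hC⟩ : ∃ C : Bool → M, ∀ k, C k = un (nC k κ) (CC k) := ⟨_, fun _ => rfl⟩
  have bN : ∀ k z, Bt (N k) z ↔ (Bt (nF k κ) z ∨ Bt (FF k) z) ∨ z = pt k := by
    intro k z; rw [hN, bt_un, bt_un, bt_tw]
  have bC : ∀ k z, Bt (C k) z ↔ Bt (nC k κ) z ∨ (k = i ∧ z = b) := by
    intro k z; rw [hC, bt_un, hCC]
  have hFl : ∀ k z, Bt (nF k κ) z → z < b := fun k z hz => lt_tw_iff.1 (hFb k) z hz
  have hCl : ∀ k z, Bt (nC k κ) z → z < b := fun k z hz => lt_tw_iff.1 (hCb k) z hz
  obtain ⟨β, hβ⟩ : ∃ β : M, ∀ k, pt k < β := by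
    obtain ⟨β, h1, h2⟩ := exists_gt2 x y
    refine ⟨β, fun k => ?_⟩
    cases k
    · rw [hptf]; exact h1
    · rw [hptt]; exact h2
  have htβ : t < β := lt_of_le_of_lt (hpt false).1 (hβ false)
  have hbβ : b < β := lt_of_le_of_lt ht htβ
  have hNl : ∀ k z, Bt (N k) z → z < β := by
    intro k z hz
    rcases (bN k z).1 hz with (h | h) | rfl
    · exact (hFl k z h).trans hbβ
    · exact (hFF k z h).2.1.trans htβ
    · exact hβ k
  refine ⟨β, nd (N false) (N true) (C false) (C true), ?_⟩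
  have eF : ∀ k, nF k (nd (N false) (N true) (C false) (C true)) = N k := nF_nd4 N C
  have eC : ∀ k, nC k (nd (N false) (N true) (C false) (C true)) = C k := nC_nd4 N C
  generalize hκ' : nd (N false) (N true) (C false) (C true) = κ' at eF eC
  -- the new elements as a code
  have key : ∀ (k : Bool) (β0 : M), Bt (nC k κ) β0 → ∀ e, e < β0 → ∀ (n E : M),
      (∀ z, Bt E z → b ≤ z ∧ z < n ∧ G z = κ) → β ≤ n → Cv X e (un (N k) E) n →
      Cv X e (nF k κ) b := by
    intro k β0 hβ0 e he n E hE hn hc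
    refine rsp n k β0 hβ0 e he (un (un (FF k) (tw (pt k))) E) ?_ ?_ ?_
    · rw [lt_tw_iff]
      intro z hz
      rw [bt_un, bt_un, bt_tw] at hz
      rcases hz with (h | rfl) | h
      · exact lt_of_lt_of_le ((hFF k z h).2.1.trans htβ) hn
      · exact lt_of_lt_of_le (hβ k) hn
      · exact (hE z h).2.1
    · intro z hz
      rw [bt_un, bt_un, bt_tw] at hz
      rcases hz with (h | rfl) | h
      · have h1 := hFF k z h
        exact ⟨h1.1, lt_of_lt_of_le (h1.2.1.trans htβ) hn, h1.2.2.1⟩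
      · exact ⟨ht.trans (hpt k).1, lt_of_lt_of_le (hβ k) hn, (hpt k).2.1⟩
      · exact hE z h
    · refine cv_mono le_rfl ?_ hc
      intro z _
      rw [bt_un, bN, bt_un, bt_un, bt_un, bt_tw]
      tauto
  refine
    { nd := ?_, rF := ?_, rC := ?_, meet := ?_, nw := ?_, st := ?_, mx := ?_, rp := ?_ }
  · refine ⟨?_, ?_, ?_, ?_, ?_⟩
    · simp only [eF, eC]
      exact hκ'.symm
    · intro k
      rw [eF, lt_tw_iff]
      exact hNl k
    · intro k
      rw [eC, lt_tw_iff]
      intro z hz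
      rcases (bC k z).1 hz with h | ⟨_, rfl⟩
      · exact (hCl k z h).trans hbβ
      · exact hbβ
    · intro z hz
      rw [eF] at hz
      rcases (bN false z).1 hz with (h | h) | rfl
      · exact hA0 z h
      · exact (hFF false z h).2.2.2.2 rfl
      · exact (hpt false).2.2.2.2 rfl
    · intro z hz
      rw [eF] at hz
      rcases (bN true z).1 hz with (h | h) | rfl
      · exact hA1 z h
      · intro h1
        have := (hFF true z h).2.2.2.1 h1
        simp at this
      · intro h1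
        have := (hpt true).2.2.2.1 h1
        simp at this
  · intro k
    apply bt_ext
    intro z
    rw [bt_rs, eF, bN]
    constructor
    · rintro ⟨hz, (h | h) | rfl⟩
      · exact h
      · exact absurd hz (not_lt.2 (hFF k z h).1)
      · exact absurd hz (not_lt.2 (ht.trans (hpt k).1))
    · intro h
      exact ⟨hFl k z h, Or.inl (Or.inl h)⟩
  · intro k
    apply bt_ext
    intro z
    rw [bt_rs, eC, bC]
    constructor
    · rintro ⟨hz, h | ⟨_, rfl⟩⟩
      · exact h
      · exact absurd hz (lt_irrefl _)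
    · intro h
      exact ⟨hCl k z h, Or.inl h⟩
  · intro k
    refine ⟨pt k, ?_, ht.trans (hpt k).1⟩
    rw [eF, bN]
    exact Or.inr rfl
  · refine ⟨i, ?_, ?_, ?_⟩
    · rw [eC, bC]
      exact Or.inr ⟨rfl, rfl⟩
    · intro z hz
      rw [eC, bC] at hz
      rcases hz with h | ⟨_, rfl⟩
      · exact (hCl i z h).le
      · exact le_rfl
    · intro z hz
      rw [eC, bC] at hz
      rcases hz with h | ⟨h, _⟩
      · exact hCl _ z h
      · cases i <;> simp at h
  · intro k β0 hβ0 e he m hm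
    rw [eF] at hm
    refine key k β0 hβ0 e he (m + β) 0 (fun z hz => absurd hz (bt_zero z)) le_add_self ?_
    have h1 := cv_mono (t' := m + β) (F' := N k) le_self_add (fun z _ => Iff.rfl) hm
    refine cv_mono le_rfl ?_ h1
    intro z _
    rw [bt_un]
    have := bt_zero z
    tauto
  · refine ⟨x, ht.trans hx.1, ?_, ?_, hx.2.1.1, hx.2.1.2⟩
    · rw [eF, bN]
      exact Or.inr hptf.symm
    · intro z hz
      rw [eF, bN] at hz
      rcases hz with (h | h) | h
      · exact (hFl false z h).le.trans (ht.trans hx.1)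
      · exact (hFF false z h).2.1.le.trans hx.1
      · rw [h, hptf]
  · intro n k β0 hβ0 e he E hEn hE hc
    rw [eC, bC] at hβ0
    rw [eF] at hc ⊢
    have h1 : Cv X e (un (N k) E) (n + β) := cv_mono le_self_add (fun z _ => Iff.rfl) hc
    rcases hβ0 with hβ0 | ⟨rfl, rfl⟩
    · have h2 := key k β0 hβ0 e he (n + β) E (fun z hz =>
        ⟨hbβ.le.trans (hE z hz).1, lt_of_lt_of_le (hE z hz).2.1 le_self_add, (hE z hz).2.2.1⟩)
        le_add_self h1
      refine cv_mono hbβ.le ?_ h2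
      intro z hz
      rw [bN]
      constructor
      · intro h; exact Or.inl (Or.inl h)
      · rintro ((h | h) | rfl)
        · exact h
        · exact absurd hz (not_lt.2 (hFF k z h).1)
        · exact absurd hz (not_lt.2 (ht.trans (hpt k).1))
    · have h2 := hL (n + β) (un (tw (pt k)) E) (by
        intro z hz
        rw [bt_un, bt_tw] at hz
        rcases hz with rfl | h
        · exact ⟨(hpt k).1, lt_of_lt_of_le (hβ k) le_add_self, (hpt k).2.1, (hpt k).2.2.1⟩
        · have h3 := hE z h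
          exact ⟨htβ.le.trans h3.1, lt_of_lt_of_le h3.2.1 le_self_add, h3.2.2⟩) e he (by
        refine cv_mono le_rfl ?_ h1
        intro z _
        rw [bt_un, bN, bt_un, bt_un, bt_un, bt_tw, hFFi]
        tauto)
      refine cv_mono htβ.le ?_ h2
      intro z hz
      rw [bN, bt_un, hFFi]
      constructor
      · intro h; exact Or.inl h
      · rintro (h | rfl)
        · exact h
        · exact absurd hz (not_lt.2 (hpt k).1)

theorem succ2 : Succ2Stmt M := by
  intro X A _ hA hno b K hV P κ hκ j hj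
  have := P.b2
  have hPt : D1 P.Y (fun v => P.G (v 0) = κ ∧ P.f (v 0) = j) := by
    have h1 := P.hG
    have h2 := P.hf
    infer_instance
  by_cases hU : Unb (fun x => P.G x = κ ∧ P.f x = j)
  · obtain ⟨t, ht, i, F, hF, hL⟩ := P.lab κ hκ j hj
    obtain ⟨⟨x, hx⟩, y, hy⟩ := meets P.hX hno hPt hU t
    obtain ⟨β, κ', h⟩ := good_child (hV.2.1 κ hκ) (P.rsp κ hκ) ht hF hL hx hy
    exact ⟨β, Or.inr ⟨κ', h⟩⟩
  · unfold Unb at hU
    push Not at hU
    obtain ⟨n, hn⟩ := hU
    exact ⟨n, Or.inl fun x hx h => hn x hx h.1 h.2⟩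

end Pool.Agent.PD2
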