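import Pool.Agent.Work.MP_a6ae3a_lc.SuccD

/-!
# The successor lemma, last part

From good children (or emptiness) of every part: the next state.
-/

namespace Pool.Agent.PD2
namespace S3

variable {M : Type} [PAM M]

instance d1_all_bool {Z : M → Prop} {R : Bool → (ℕ → M) → Prop} [h : ∀ i, D1 Z (R i)] :
    D1 Z (fun v => ∀ i, R i v) :=
  D1.congr ((h false).and (h true)) fun v =>
    ⟨fun h i => by cases i; exacts [h.1, h.2], fun h => ⟨h false, h true⟩⟩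

instance d1_ex_bool {Z : M → Prop} {R : Bool → (ℕ → M) → Prop} [h : ∀ i, D1 Z (R i)] :
    D1 Z (fun v => ∃ i, R i v) :=
  D1.congr (R := fun v => R false v ∨ R true v) inferInstance fun v =>
    ⟨fun h => h.elim (fun h => ⟨false, h⟩) fun h => ⟨true, h⟩,
      fun ⟨i, h⟩ => by cases i; exacts [Or.inl h, Or.inr h]⟩

variable [IM M] {X A : M → Prop}

instance f1_nF {Y : M → Prop} {f : (ℕ → M) → M} (i : Bool) [F1 Y f] :
    F1 Y (fun v => nF i (f v)) := by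
  unfold nF
  cases i <;> simp only [if_true, if_false, Bool.false_eq_true] <;> infer_instance

instance f1_nC {Y : M → Prop} {f : (ℕ → M) → M} (i : Bool) [F1 Y f] :
    F1 Y (fun v => nC i (f v)) := by
  unfold nC
  cases i <;> simp only [if_true, if_false, Bool.false_eq_true] <;> infer_instance

/-- Relations with an unbounded universal quantifier are `Δ₁` in the jump. -/
theorem d1_jp_all {Y : M → Prop} [I1 Y] {R : M → (ℕ → M) → Prop}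
    (h : D1 Y (fun v => R (v 0) (fun i => v (i + 1)))) : D1 (jp Y) (fun v => ∀ y, R y v) := by
  have h1 : S1 Y (fun v => ∃ y, ¬ R y v) := by
    have h' := h.not
    exact s1_ex (R := fun y v => ¬ R y v)
  exact D1.congr (d1_jp h1).not fun v => by push Not; rfl

theorem rsp_mono {b b' κ n : M} {R R' : M → Prop} (h : Rsp X b κ R n) (hb : b ≤ b')
    (hR : ∀ x, b' ≤ x → R' x → R x) : Rsp X b' κ R' n :=
  fun i β hβ e he E hE hx hc =>
    cv_mono hb (fun _ _ => Iff.rfl) (h i β hβ e he E hE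
      (fun x hx' => ⟨hb.trans (hx x hx').1, hR x (hx x hx').1 (hx x hx').2⟩) hc)

theorem nd_mono {b b' κ : M} (h : Nd A b κ) (hb : b ≤ b') : Nd A b' κ :=
  ⟨h.1, fun i => (h.2.1 i).trans_le (tw_le hb), fun i => (h.2.2.1 i).trans_le (tw_le hb),
    h.2.2.2.1, h.2.2.2.2⟩

theorem gc_mono {b : M} {G f : M → M} {κ j κ' β β' : M} (h : GC X A b G f κ j κ' β)
    (hβ : β ≤ β') : GC X A b G f κ j κ' β' :=
  ⟨nd_mono h.nd hβ, h.rF, h.rC, h.meet, h.nw, h.st, h.mx,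
    fun n => rsp_mono (h.rp n) hβ fun _ _ hx => hx⟩

/-- The statement `GC` as a conjunction of simple pieces. -/
theorem gc_iff {b : M} {G f : M → M} {κ j κ' β : M} : GC X A b G f κ j κ' β ↔
    ((((κ' = nd (nF false κ') (nF true κ') (nC false κ') (nC true κ') ∧
      (∀ i, nF i κ' < tw β) ∧ (∀ i, nC i κ' < tw β)) ∧
      ((∀ x, Bt (nF false κ') x → A x) ∧ ∀ x, Bt (nF true κ') x → ¬ A x)) ∧
      (∀ i, rs (nF i κ') b = nF i κ) ∧ (∀ i, rs (nC i κ') b = nC i κ)) ∧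
      (∀ i, ∃ x, Bt (nF i κ') x ∧ b ≤ x) ∧
      (∃ i, Bt (nC i κ') b ∧ (∀ x, Bt (nC i κ') x → x ≤ b) ∧
        ∀ x, Bt (nC (!i) κ') x → x < b)) ∧
      ((∀ m, ∀ i : Bool, ∀ β0, Bt (nC i κ) β0 → ∀ e, e < β0 → Cv X e (nF i κ') m →
        Cv X e (nF i κ) b) ∧
      (∃ x, Bt (nF false κ') x ∧ (b ≤ x ∧ (∀ z, Bt (nF false κ') z → z ≤ x) ∧ G x = κ ∧ f x = j)) ∧
      ∀ n, Rsp X β κ' (fun x => x < n ∧ G x = κ ∧ f x = j) n) := by
  constructor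
  · intro h
    refine ⟨⟨⟨⟨⟨h.nd.1, h.nd.2.1, h.nd.2.2.1⟩, h.nd.2.2.2.1, h.nd.2.2.2.2⟩, h.rF, h.rC⟩, h.meet,
      h.nw⟩, fun m i β0 h0 e he hc => h.st i β0 h0 e he m hc, ?_, h.rp⟩
    obtain ⟨x, h1, h2, h3, h4, h5⟩ := h.mx
    exact ⟨x, h2, h1, h3, h4, h5⟩
  · rintro ⟨⟨⟨⟨⟨h1, h2, h3⟩, h4, h5⟩, h6, h7⟩, h8, h9⟩, h10, ⟨x, k2, k1, k3, k4, k5⟩, h12⟩
    exact ⟨⟨h1, h2, h3, h4, h5⟩, h6, h7, h8, h9, fun i β0 h0 e he m hc => h10 m i β0 h0 e he hc,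
      ⟨x, k1, k2, k3, k4, k5⟩, h12⟩

/-- `GC` is `Δ₁` in the jump. -/
theorem gc_d1 [I1 X] {Y : M → Prop} [B2 Y] (hX : D1 Y (fun v => X (v 0)))
    (hA : D1 (jp Y) (fun v => A (v 0))) (b : M) {G f : M → M} (hG : F1 Y (fun v => G (v 0)))
    (hf : F1 Y (fun v => f (v 0))) :
    D1 (jp Y) (fun v => GC X A b G f (v 0) (v 1) (v 2) (v 3)) := by
  have cv0 : D1 Y (fun v => Cv X (v 0) (v 1) (v 2)) := D1.trans hX inferInstance
  have cv1 : ∀ {f g h : (ℕ → M) → M} [F1 Y f] [F1 Y g] [F1 Y h],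
      D1 Y (fun v => Cv X (f v) (g v) (h v)) := fun {f g h} hf hg hh => D1.s3 cv0 hf hg hh
  have iG : ∀ {g : (ℕ → M) → M} [F1 Y g], F1 Y (fun v => G (g v)) := fun {g} hg => F1.s1 hG hg
  have iF : ∀ {g : (ℕ → M) → M} [F1 Y g], F1 Y (fun v => f (g v)) := fun {g} hg => F1.s1 hf hg
  have iA : ∀ {g : (ℕ → M) → M} [F1 (jp Y) g], D1 (jp Y) (fun v => A (g v)) :=
    fun {g} hg => D1.s1 hA hg
  have jG : ∀ {g : (ℕ → M) → M} [F1 (jp Y) g], F1 (jp Y) (fun v => G (g v)) := by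
    intro g hg
    exact F1.s1 (F1.trans (inferInstance : D1 (jp Y) (fun v => Y (v 0))) hG) hg
  have jF : ∀ {g : (ℕ → M) → M} [F1 (jp Y) g], F1 (jp Y) (fun v => f (g v)) := by
    intro g hg
    exact F1.s1 (F1.trans (inferInstance : D1 (jp Y) (fun v => Y (v 0))) hf) hg
  refine D1.congr ?_ fun v => gc_iff.symm
  have a1 : D1 (jp Y) (fun v : ℕ → M =>
      v 2 = nd (nF false (v 2)) (nF true (v 2)) (nC false (v 2)) (nC true (v 2)) ∧
      (∀ i, nF i (v 2) < tw (v 3)) ∧ (∀ i, nC i (v 2) < tw (v 3))) := by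
    unfold nd
    infer_instance
  have a2 : D1 (jp Y) (fun v : ℕ → M =>
      (∀ x, Bt (nF false (v 2)) x → A x) ∧ ∀ x, Bt (nF true (v 2)) x → ¬ A x) := by
    infer_instance
  have a3 : D1 (jp Y) (fun v : ℕ → M =>
      (∀ i, rs (nF i (v 2)) b = nF i (v 0)) ∧ (∀ i, rs (nC i (v 2)) b = nC i (v 0))) := by
    infer_instance
  have a4 : D1 (jp Y) (fun v : ℕ → M =>
      (∀ i, ∃ x, Bt (nF i (v 2)) x ∧ b ≤ x) ∧
      (∃ i, Bt (nC i (v 2)) b ∧ (∀ x, Bt (nC i (v 2)) x → x ≤ b) ∧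
        ∀ x, Bt (nC (!i) (v 2)) x → x < b)) := by
    infer_instance
  have a5 : D1 (jp Y) (fun v : ℕ → M =>
      ∀ m, ∀ i : Bool, ∀ β0, Bt (nC i (v 0)) β0 → ∀ e, e < β0 → Cv X e (nF i (v 2)) m →
        Cv X e (nF i (v 0)) b) := by
    refine d1_jp_all (R := fun m v => ∀ i : Bool, ∀ β0, Bt (nC i (v 0)) β0 → ∀ e, e < β0 →
      Cv X e (nF i (v 2)) m → Cv X e (nF i (v 0)) b) ?_
    infer_instance
  have a6 : D1 (jp Y) (fun v : ℕ → M =>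
      ∃ x, Bt (nF false (v 2)) x ∧ (b ≤ x ∧ (∀ z, Bt (nF false (v 2)) z → z ≤ x) ∧ G x = v 0 ∧
        f x = v 1)) := by
    infer_instance
  have a7 : D1 (jp Y) (fun v : ℕ → M =>
      ∀ n, Rsp X (v 3) (v 2) (fun x => x < n ∧ G x = v 0 ∧ f x = v 1) n) := by
    refine d1_jp_all (R := fun n v => Rsp X (v 3) (v 2) (fun x => x < n ∧ G x = v 0 ∧ f x = v 1) n)
      ?_
    unfold Rsp
    infer_instance
  exact ((((a1.and a2).and a3).and a4).and (a5.and (a6.and a7)))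

/-- The restriction of a good child is its parent. -/
theorem gc_nr {b : M} {G f : M → M} {κ j κ' β : M} (hκ : Nd A b κ)
    (h : GC X A b G f κ j κ' β) : nr κ' b = κ := by
  unfold nr
  rw [h.rF, h.rF, h.rC, h.rC]
  exact hκ.1.symm

/-- A good child is a child. -/
theorem gc_chd {b : M} {G f : M → M} {κ j κ' β : M} (h : GC X A b G f κ j κ' β) :
    Chd X b κ β κ' := by
  refine ⟨h.rF, h.rC, h.meet, ?_, fun i β0 h0 e he hc => h.st i β0 h0 e he β hc⟩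
  obtain ⟨i, h1, h2, h3⟩ := h.nw
  exact ⟨i, fun x hx => ⟨fun h4 => le_antisymm (h2 x h4) hx, fun h4 => h4 ▸ h1⟩,
    fun x hx h4 => absurd (h3 x h4) (not_lt.2 hx)⟩

/-- A good child determines its part. -/
theorem gc_inj {b : M} {G f : M → M} {κ j κ' β κ1 j1 β1 : M} (h : GC X A b G f κ j κ' β)
    (h1 : GC X A b G f κ1 j1 κ' β1) : κ = κ1 ∧ j = j1 := by
  obtain ⟨x, _, h3, h4, h5, h6⟩ := h.mx
  obtain ⟨y, _, k3, k4, k5, k6⟩ := h1.mx
  have e : x = y := le_antisymm (k4 x h3) (h4 y k3)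
  subst e
  exact ⟨h5.symm.trans k5, h6.symm.trans k6⟩

end S3

open S3 in
/-- The last part of the successor lemma. -/
theorem succ3 (M : Type) [PAM M] [IM M] : Succ3Stmt M := by
  intro X A _ hA b K hV P hP
  obtain ⟨Y, hb2, hX, G, f, hG, hf, q, fq, GK, rsp, lab⟩ := P
  simp only at hP
  clear lab rsp
  have hA' : D1 (jp Y) (fun v => A (v 0)) := D1.trans (jp_mono hX) hA
  have gd := gc_d1 (A := A) hX hA' b hG hf
  have gd1 : ∀ {g0 g1 g2 g3 : (ℕ → M) → M} [F1 (jp Y) g0] [F1 (jp Y) g1] [F1 (jp Y) g2]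
      [F1 (jp Y) g3], D1 (jp Y) (fun v => GC X A b G f (g0 v) (g1 v) (g2 v) (g3 v)) :=
    fun {g0 g1 g2 g3} h0 h1 h2 h3 => D1.s4 gd h0 h1 h2 h3
  have iG : ∀ {g : (ℕ → M) → M} [F1 Y g], F1 Y (fun v => G (g v)) := fun {g} hg => F1.s1 hG hg
  have iF : ∀ {g : (ℕ → M) → M} [F1 Y g], F1 Y (fun v => f (g v)) := fun {g} hg => F1.s1 hf hg
  -- the relation for the choice
  have hE : D1 (jp Y) (fun v => ∀ x, v 2 ≤ x → ¬ (G x = v 0 ∧ f x = v 1)) := by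
    refine d1_jp_all (R := fun x v => v 2 ≤ x → ¬ (G x = v 0 ∧ f x = v 1)) ?_
    infer_instance
  have hE1 : ∀ {g0 g1 g2 : (ℕ → M) → M} [F1 (jp Y) g0] [F1 (jp Y) g1] [F1 (jp Y) g2],
      D1 (jp Y) (fun v => ∀ x, g2 v ≤ x → ¬ (G x = g0 v ∧ f x = g1 v)) :=
    fun {g0 g1 g2} h0 h1 h2 =>
      D1.s3 (P := fun a b c => ∀ x, c ≤ x → ¬ (G x = a ∧ f x = b)) hE h0 h1 h2
  have hR : D1 (jp Y) (fun v => Bt K (fs (v 0)) → sn (v 0) < q →
      ((∀ x, fs (v 1) ≤ x → ¬ (G x = fs (v 0) ∧ f x = sn (v 0))) ∨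
        GC X A b G f (fs (v 0)) (sn (v 0)) (sn (v 1)) (fs (v 1)))) := by
    infer_instance
  obtain ⟨c, hc⟩ := ex_fun (jp Y) (R := fun i y => Bt K (fs i) → sn i < q →
      ((∀ x, fs y ≤ x → ¬ (G x = fs i ∧ f x = sn i)) ∨
        GC X A b G f (fs i) (sn i) (sn y) (fs y))) hR (pr K q) (by
    intro i _
    by_cases h1 : Bt K (fs i)
    · by_cases h2 : sn i < q
      · obtain ⟨β, h3 | ⟨κ', h3⟩⟩ := hP (fs i) h1 (sn i) h2
        · exact ⟨pr β 0, fun _ _ => Or.inl (by rw [fs_pr]; exact h3)⟩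
        · exact ⟨pr β κ', fun _ _ => Or.inr (by rw [fs_pr, sn_pr]; exact h3)⟩
      · exact ⟨0, fun _ h => absurd h h2⟩
    · exact ⟨0, fun h => absurd h h1⟩)
  have hc1 : ∀ κ, Bt K κ → ∀ j, j < q →
      ((∀ x, fs (ap c (pr κ j)) ≤ x → ¬ (G x = κ ∧ f x = j)) ∨
        GC X A b G f κ j (sn (ap c (pr κ j))) (fs (ap c (pr κ j)))) := by
    intro κ hκ j hj
    have h1 := hc (pr κ j) (pr_lt hκ.lt hj)
    rw [fs_pr, sn_pr] at h1
    exact h1 hκ hj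
  -- the level
  obtain ⟨b', hbb, hcb⟩ : ∃ b', b < b' ∧ c ≤ b' :=
    ⟨b + c + 1, lt_succ_iff.2 (le_self_add), (le_add_self.trans le_self_add)⟩
  have hc2 : ∀ x, b' ≤ x → Bt K (G x) ∧
      GC X A b G f (G x) (f x) (sn (ap c (pr (G x) (f x)))) b' := by
    intro x hx
    have h1 := GK x (hbb.le.trans hx)
    have h2 : fs (ap c (pr (G x) (f x))) ≤ b' := (fs_le _).trans ((ap_le _ _).trans hcb)
    refine ⟨h1, ?_⟩
    rcases hc1 (G x) h1 (f x) (fq x) with h3 | h3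
    · exact absurd ⟨rfl, rfl⟩ (h3 x (h2.trans hx))
    · exact gc_mono h3 h2
  -- the new state
  have hQ : D1 (jp Y) (fun v => ∃ κ, Bt K κ ∧ ∃ j, j < q ∧ (v 0 = sn (ap c (pr κ j)) ∧
      GC X A b G f κ j (v 0) b')) := by
    infer_instance
  obtain ⟨K', hK'⟩ := ex_code (jp Y) (P := fun z => ∃ κ, Bt K κ ∧ ∃ j, j < q ∧
    (z = sn (ap c (pr κ j)) ∧ GC X A b G f κ j z b')) hQ (c + 1)
  have hK : ∀ z, Bt K' z ↔ ∃ κ, Bt K κ ∧ ∃ j, j < q ∧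
      (z = sn (ap c (pr κ j)) ∧ GC X A b G f κ j z b') := by
    intro z
    refine ⟨fun h => ((hK' z).1 h).2, fun h => (hK' z).2 ⟨?_, h⟩⟩
    obtain ⟨κ, _, j, _, h1, _⟩ := h
    rw [h1]
    exact lt_succ_iff.2 ((sn_le _).trans (ap_le _ _))
  have hK1 : ∀ x, b' ≤ x → Bt K' (sn (ap c (pr (G x) (f x)))) := fun x hx =>
    (hK _).2 ⟨G x, (hc2 x hx).1, f x, fq x, rfl, (hc2 x hx).2⟩
  refine ⟨b', K', hbb, hV, ⟨⟨_, hK1 b' le_rfl⟩, fun κ' hκ' => ?_, fun n => ?_⟩, fun κ' hκ' => ?_⟩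
  · obtain ⟨κ, _, j, _, _, h1⟩ := (hK _).1 hκ'
    exact h1.nd
  · obtain ⟨g, hg⟩ := ex_fun Y (R := fun x y => y = sn (ap c (pr (G x) (f x))))
      (by infer_instance) n (fun i _ => ⟨_, rfl⟩)
    refine ⟨g, fun x hx hxn => ?_, fun κ' hκ' => ?_⟩
    · rw [hg x hxn]; exact hK1 x hx
    · obtain ⟨κ, hκ, j, hj, h0, h1⟩ := (hK _).1 hκ'
      refine rsp_mono (h1.rp n) le_rfl fun x hx hx1 => ?_
      obtain ⟨hxn, h2⟩ := hx1
      rw [hg x hxn] at h2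
      have h3 := (hc2 x hx).2
      rw [h2] at h3
      have h4 := gc_inj h3 h1
      exact ⟨hxn, h4.1, h4.2⟩
  · obtain ⟨κ, hκ, j, _, _, h1⟩ := (hK _).1 hκ'
    rw [gc_nr (hV.2.1 κ hκ) h1]
    exact ⟨hκ, gc_chd h1⟩

end Pool.Agent.PD2
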