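import Pool.Agent.Work.MP_a6ae3a_lc.Succ1
import Pool.Agent.Work.MP_a6ae3a_lc.Succ2b
import Pool.Agent.Work.MP_a6ae3a_lc.Succ3

/-!
# The successor lemma
-/

namespace Pool.Agent.PD2

variable {M : Type} [PAM M] [IM M]

/-- Successor lemma: if there is no solution, every valid state has a successor. -/
theorem succ_ex {X A : M → Prop} [B2 X] (hA : D1 (jp X) (fun v => A (v 0))) (hno : NoSol X A)
    {b K : M} (hV : Vld X A b K) : ∃ b' K', Suc X A b K b' K' := by
  obtain ⟨P⟩ := succ1 (M := M) hA hV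
  exact succ3 (M := M) hA hV P (succ2 (M := M) hA hno hV P)

end Pool.Agent.PD2
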