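import Pool.Agent.Work.MP_a6ae3a_lc.SuccE
import Pool.Agent.Work.MP_a6ae3a_lc.Blk2
import Pool.Agent.Work.MP_a6ae3a_lc.Low

/-!
# The parts of a valid state exist

A valid state `(b, K)` has a distribution `G` of the numbers `≥ b` to the nodes of `K` and a
colouring of the parts all of whose classes have a label; both are low (`B2`).
-/

namespace Pool.Agent.PD2

variable {M : Type} [PAM M] [IM M]

namespace Succ1

variable {X : M → Prop}

local instance (priority := 2000) allB {R : Bool → (ℕ → M) → Prop} [h : ∀ i, D1 X (R i)] :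
    D1 X (fun v => ∀ i : Bool, R i v) := by
  have h0 := h false
  have h1 := h true
  exact D1.congr (R := fun v => R false v ∧ R true v) inferInstance fun v => by
    rw [Bool.forall_bool]

local instance f1F (i : Bool) {f : (ℕ → M) → M} [F1 X f] : F1 X (fun v => nF i (f v)) := by
  cases i
  · exact (inferInstance : F1 X (fun v => fs (fs (f v))))
  · exact (inferInstance : F1 X (fun v => sn (fs (f v))))

local instance f1C (i : Bool) {f : (ℕ → M) → M} [F1 X f] : F1 X (fun v => nC i (f v)) := by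
  cases i
  · exact (inferInstance : F1 X (fun v => fs (sn (f v))))
  · exact (inferInstance : F1 X (fun v => sn (sn (f v))))

theorem lt_two_cases {x : M} (h : x < 2) : x = 0 ∨ x = 1 := by
  have h1 : (2 : M) = 1 + 1 := by norm_num
  rw [h1] at h
  rcases lt_succ_cases h with h | h
  · left
    have h2 : (1 : M) = 0 + 1 := by rw [zero_add]
    rw [h2] at h
    rcases lt_succ_cases h with h | h
    · exact absurd h (not_lt_zero' x)
    · exact h
  · exact Or.inr h

/-- `g` is a colouring of `[b, n)` by nodes of `K` which respects the nodes. -/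
def Cg (X : M → Prop) (b K n g : M) : Prop :=
  (∀ x, x < n → (b ≤ x → Bt K (ap g x))) ∧
    ∀ κ, Bt K κ → Rsp X b κ (fun x => x < n ∧ ap g x = κ) n

theorem d1_cg [C1 X] (b K : M) : D1 X (fun v => Cg X b K (v 0) (v 1)) := by
  unfold Cg Rsp
  infer_instance

/-- A colouring of `[b, n')` restricts. -/
theorem cg_mono {b K n n' g : M} (hn : n ≤ n') (h : Cg X b K n' g) : Cg X b K n g := by
  refine ⟨fun x hx hb => h.1 x (lt_of_lt_of_le hx hn) hb, fun κ hκ i β hβ e he E hE hEx hc => ?_⟩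
  refine h.2 κ hκ i β hβ e he E (lt_of_lt_of_le hE (tw_le hn)) (fun x hx => ?_)
    (cv_mono hn (fun _ _ => Iff.rfl) hc)
  exact ⟨(hEx x hx).1, lt_of_lt_of_le (hEx x hx).2.1 hn, (hEx x hx).2.2⟩

theorem cg_congr {b K n g g' : M} (h : ∀ x, x < n → b ≤ x → ap g x = ap g' x)
    (hg : Cg X b K n g) : Cg X b K n g' := by
  refine ⟨fun x hx hb => ?_, fun κ hκ i β hβ e he E hE hEx => ?_⟩
  · rw [← h x hx hb]; exact hg.1 x hx hb
  · refine hg.2 κ hκ i β hβ e he E hE fun x hx => ?_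
    obtain ⟨k1, k2, k3⟩ := hEx x hx
    exact ⟨k1, k2, by rw [h x k2 k1]; exact k3⟩

/-- First step: the distribution to the nodes. -/
theorem part1 {A : M → Prop} [B2 X] {b K : M} (hV : Vld X A b K) :
    ∃ G : M → M, (∀ x, b ≤ x → Bt K (G x)) ∧
      (∀ κ, Bt K κ → ∀ n, Rsp X b κ (fun x => x < n ∧ G x = κ) n) ∧
      B2 (jn X (gr G)) ∧ F1 (jn X (gr G)) (fun v => G (v 0)) := by
  obtain ⟨G, -, h2, h3, h4⟩ := low (Y := X) (k := K + 1) (T := fun n g => Cg X b K n g)
    (d1_cg b K) (fun n n' g hn h => cg_mono hn h)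
    (fun n g g' he h => cg_congr (fun x hx _ => he x hx) h)
    (fun n => by
      obtain ⟨g, hg, hr⟩ := hV.2.2 n
      obtain ⟨g', hg'⟩ := ex_fun X (R := fun i y => y < K + 1 ∧ (b ≤ i → y = ap g i))
        (by infer_instance) n (fun i hi => by
          by_cases hb : b ≤ i
          · exact ⟨ap g i, lt_trans (Bt.lt (hg i hb hi)) (lt_succ_self K), fun _ => rfl⟩
          · exact ⟨0, lt_of_le_of_lt (zle K) (lt_succ_self K), fun h => absurd h hb⟩)
      exact ⟨g', fun x hx => (hg' x hx).1, cg_congr (fun x hx hb => ((hg' x hx).2 hb).symm)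
        ⟨fun x hx hb => hg x hb hx, hr⟩⟩)
  refine ⟨G, fun x hb => ?_, fun κ hκ n i β hβ e he E hE hEx => ?_, h3, h4⟩
  · obtain ⟨g, hg, hc⟩ := h2 (x + 1)
    rw [← hg x (lt_succ_self x)]
    exact hc.1 x (lt_succ_self x) hb
  · obtain ⟨g, hg, hc⟩ := h2 n
    refine hc.2 κ hκ i β hβ e he E hE fun x hx => ?_
    obtain ⟨k1, k2, k3⟩ := hEx x hx
    exact ⟨k1, k2, by rw [hg x k2]; exact k3⟩

open Classical in
/-- The finite set of side `s` (a number) of the node `κ`, cut at `b`. -/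
noncomputable def sF (b s κ : M) : M := if s = 0 then rs (nF false κ) b else rs (nF true κ) b

theorem f1_sF (Y : M → Prop) (b : M) : F1 Y (fun v => sF b (v 0) (v 1)) := by
  refine F1.of_graph (R := fun y v => (v 0 = 0 ∧ y = rs (nF false (v 1)) b) ∨
    (¬ v 0 = 0 ∧ y = rs (nF true (v 1)) b)) (by infer_instance) fun v y => ?_
  unfold sF
  by_cases h : v 0 = 0
  · simp [h]
  · simp [h]

/-- The data of the block at `b` with the reservoirs given by `G`, over a set `Y` above. -/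
noncomputable def blk (X : M → Prop) [C1 X] (b : M) (G : M → M) (Y : M → Prop) [I1 Y]
    (hX : D1 Y (fun v => X (v 0))) (hG : F1 Y (fun v => G (v 0))) : BD Y where
  Cv := Cv X
  FF := sF b
  R := fun κ x => G x = κ
  b := b
  cvD := D1.trans hX (by infer_instance : D1 X (fun v : ℕ → M => Cv X (v 0) (v 1) (v 2)))
  ffF := f1_sF Y b
  rD := by
    have : F1 Y (fun v : ℕ → M => G (v 1)) := F1.s1 hG (by infer_instance)
    infer_instance
  mono := fun e F F' t t' ht h hc => cv_mono ht h hc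
  ffb := fun s κ => by
    unfold sF
    refine lt_tw_iff.2 fun x hx => ?_
    split_ifs at hx
    · exact (bt_rs.1 hx).1
    · exact (bt_rs.1 hx).1

theorem sF_zero {A : M → Prop} {b κ : M} (h : Nd A b κ) : sF b 0 κ = nF false κ := by
  unfold sF
  rw [if_pos rfl]
  refine bt_ext fun x => ?_
  rw [bt_rs]
  exact ⟨fun h => h.2, fun hx => ⟨lt_tw_iff.1 (h.2.1 false) x hx, hx⟩⟩

theorem sF_one {A : M → Prop} {b κ : M} (h : Nd A b κ) : sF b 1 κ = nF true κ := by
  unfold sF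
  rw [if_neg (ne_of_gt zero_lt_one)]
  refine bt_ext fun x => ?_
  rw [bt_rs]
  exact ⟨fun h => h.2, fun hx => ⟨lt_tw_iff.1 (h.2.1 true) x hx, hx⟩⟩

end Succ1

open Succ1 in
/-- **The parts of a valid state exist.** -/
theorem succ1 : Succ1Stmt M := by
  intro X A _ hA b K hV
  obtain ⟨G, g1, g2, g3, g4⟩ := part1 hV
  -- the set `Y = X + G`
  set Y : M → Prop := jn X (gr G) with hY
  have hXY : D1 Y (fun v => X (v 0)) := by rw [hY]; infer_instance
  have hAY : D1 (jp Y) (fun v => A (v 0)) := D1.trans (jp_mono hXY) hA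
  let D : BD Y := blk X b G Y hXY g4
  obtain ⟨tt, dd, h1, h2⟩ := D.block (fun κ κ' x h h' => h.symm.trans h') (A := A) (fun n => by
    obtain ⟨c, hc⟩ := ex_code (jp Y) hAY n
    exact ⟨c, fun x hx => (hc x).trans ⟨fun h => h.2, fun h => ⟨hx, h⟩⟩⟩) K
  obtain ⟨f, f1, f2, f3, f4⟩ := low (Y := Y) (k := D.q)
    (T := fun n g => ∀ κ, κ < K → D.Bad κ (ap tt κ) (ap dd κ) g n) (by infer_instance)
    (fun n n' g hn h κ hκ => D.bad_mono hn (fun _ _ _ => rfl) (h κ hκ))
    (fun n g g' he h κ hκ => D.bad_mono le_rfl (fun x hx _ => (he x hx).symm) (h κ hκ))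
    h2
  set Z : M → Prop := jn Y (gr f) with hZ
  have hYZ : D1 Z (fun v => Y (v 0)) := by rw [hZ]; infer_instance
  have hXZ : D1 Z (fun v => X (v 0)) := D1.trans hYZ hXY
  have hGZ : F1 Z (fun v => G (v 0)) := F1.trans hYZ g4
  let D' : BD Z := blk X b G Z hXZ hGZ
  refine ⟨⟨Z, f3, hXZ, G, f, hGZ, f4, D.q, f1, g1, g2, fun κ hκ j hj => ?_⟩⟩
  have hκK : κ < K := Bt.lt hκ
  have hN : Nd A b κ := hV.2.1 κ hκ
  obtain ⟨s, hs, F, hF, hl⟩ := D'.label_one (G := f) f4 (κ := κ) (t := ap tt κ) (E := ap dd κ)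
    (j := j) (fun n => by
      obtain ⟨g, hg, hb⟩ := f2 n
      exact ⟨g, hg, hb κ hκK j hj⟩)
  obtain ⟨hb, hd⟩ := h1 κ hκK
  refine ⟨ap tt κ, hb, ?_⟩
  have hFt : ∀ x, Bt F x → x < ap tt κ := lt_tw_iff.1 hF
  have hsd : ∀ x, Bt F x → D'.Sd κ (ap tt κ) (ap dd κ) s x := fun x hx => hl.1 x (hFt x hx) hx
  have hset : ∀ n E, (∀ x, Bt E x → ap tt κ ≤ x ∧ x < n ∧ G x = κ ∧ f x = j) → ∀ e, e < b →
      Cv X e (un (un (sF b s κ) F) E) n → Cv X e (un (sF b s κ) F) (ap tt κ) := by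
    intro n E hE e he hc
    by_contra hno
    exact hl.2 n E (lt_tw_iff.2 fun x hx => (hE x hx).2.1)
      (fun x _ hx => ⟨(hE x hx).1, (hE x hx).2.2.1, (hE x hx).2.2.2⟩) ⟨e, he, hc, hno⟩
  rcases lt_two_cases hs with rfl | rfl
  · rw [sF_zero hN] at hset
    refine ⟨false, F, fun x hx => ?_, hset⟩
    rcases hsd x hx with ⟨_, h⟩ | ⟨h, _⟩
    · obtain ⟨k1, k2, k3, k4⟩ := (hd x).1 h
      exact ⟨k3, k4, k2, by simp [k1]⟩
    · exact absurd h (ne_of_lt zero_lt_one)
  · rw [sF_one hN] at hset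
    refine ⟨true, F, fun x hx => ?_, hset⟩
    rcases hsd x hx with ⟨h, _⟩ | ⟨_, k2, k3, k4, h⟩
    · exact absurd h (ne_of_gt zero_lt_one)
    · refine ⟨k3, k4, k2, ?_⟩
      have : ¬ A x := fun ha => h ((hd x).2 ⟨ha, k2, k3, k4⟩)
      simp [this]

end Pool.Agent.PD2
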