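import Pool.Agent.Work.MP_a6ae3a_lc.API

/-!
# Definitions for the successor lemma

`Parts X A b K`: a partition `{x | b ≤ x, G x = κ, f x = j}` below the valid state `(b, K)` with a
label for every part. `GC`: `κ'` is a good child of `κ` for the part `(κ, j)` from level `β` on.
-/

namespace Pool.Agent.PD2

variable {M : Type} [PAM M] [IM M]

/-- A partition with labels below a valid state `(b, K)`: the parts are
`{x | b ≤ x, G x = κ, f x = j}`. -/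
structure Parts (X A : M → Prop) (b K : M) where
  Y : M → Prop
  b2 : B2 Y
  hX : D1 Y (fun v => X (v 0))
  G : M → M
  f : M → M
  hG : F1 Y (fun v => G (v 0))
  hf : F1 Y (fun v => f (v 0))
  q : M
  fq : ∀ x, f x < q
  GK : ∀ x, b ≤ x → Bt K (G x)
  rsp : ∀ κ, Bt K κ → ∀ n, Rsp X b κ (fun x => x < n ∧ G x = κ) n
  lab : ∀ κ, Bt K κ → ∀ j, j < q → ∃ t, b ≤ t ∧ ∃ (i : Bool) (F : M),
    (∀ x, Bt F x → b ≤ x ∧ x < t ∧ G x = κ ∧ (A x ↔ i = false)) ∧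
    ∀ n E, (∀ x, Bt E x → t ≤ x ∧ x < n ∧ G x = κ ∧ f x = j) → ∀ e, e < b →
      Cv X e (un (un (nF i κ) F) E) n → Cv X e (un (nF i κ) F) t

/-- `κ'` is a good child of `κ` for the part `(κ, j)` from level `β` on. -/
structure GC (X A : M → Prop) (b : M) (G f : M → M) (κ j κ' β : M) : Prop where
  nd : Nd A β κ'
  rF : ∀ i, rs (nF i κ') b = nF i κ
  rC : ∀ i, rs (nC i κ') b = nC i κ
  meet : ∀ i, ∃ x, Bt (nF i κ') x ∧ b ≤ x
  nw : ∃ i, Bt (nC i κ') b ∧ (∀ x, Bt (nC i κ') x → x ≤ b) ∧ ∀ x, Bt (nC (!i) κ') x → x < b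
  st : ∀ i β0, Bt (nC i κ) β0 → ∀ e, e < β0 → ∀ m, Cv X e (nF i κ') m → Cv X e (nF i κ) b
  mx : ∃ x, b ≤ x ∧ Bt (nF false κ') x ∧ (∀ z, Bt (nF false κ') z → z ≤ x) ∧ G x = κ ∧ f x = j
  rp : ∀ n, Rsp X β κ' (fun x => x < n ∧ G x = κ ∧ f x = j) n

/-- The part `(κ, j)` has a good child at level `β`, or no element from `β` on. -/
def GP (X A : M → Prop) (b : M) (G f : M → M) (κ j β : M) : Prop :=
  (∀ x, β ≤ x → ¬ (G x = κ ∧ f x = j)) ∨ ∃ κ', GC X A b G f κ j κ' β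

/-- Statement of `Succ1` (helper56). -/
def Succ1Stmt (M : Type) [PAM M] [IM M] : Prop :=
  ∀ {X A : M → Prop} [B2 X] (_ : D1 (jp X) (fun v => A (v 0))) {b K : M} (_ : Vld X A b K),
    Nonempty (Parts X A b K)

/-- Statement of `Succ2` (helper79). -/
def Succ2Stmt (M : Type) [PAM M] [IM M] : Prop :=
  ∀ {X A : M → Prop} [B2 X] (_ : D1 (jp X) (fun v => A (v 0))) (_ : NoSol X A) {b K : M}
    (_ : Vld X A b K) (P : Parts X A b K), ∀ κ, Bt K κ → ∀ j, j < P.q →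
      ∃ β, GP X A b P.G P.f κ j β

/-- Statement of `Succ3` (helper86). -/
def Succ3Stmt (M : Type) [PAM M] [IM M] : Prop :=
  ∀ {X A : M → Prop} [B2 X] (_ : D1 (jp X) (fun v => A (v 0))) {b K : M}
    (_ : Vld X A b K) (P : Parts X A b K)
    (_ : ∀ κ, Bt K κ → ∀ j, j < P.q → ∃ β, GP X A b P.G P.f κ j β),
    ∃ b' K', Suc X A b K b' K'

end Pool.Agent.PD2
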