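import Pool.Agent.Work.MP_a6ae3a_lc.SuccD

/-!
# Monotonicity of good children
-/

set_option linter.unusedSectionVars false

namespace Pool.Agent.PD2

variable {M : Type} [PAM M] [IM M] {X A Y : M → Prop}

theorem Nd.mono {b b' κ : M} (hb : b ≤ b') (h : Nd A b κ) : Nd A b' κ :=
  ⟨h.1, fun i => lt_of_lt_of_le (h.2.1 i) (tw_le hb), fun i => lt_of_lt_of_le (h.2.2.1 i) (tw_le hb),
    h.2.2.2⟩

theorem nr_eq {b κ κ' : M} (h : Nd A b κ) (hF : ∀ i, rs (nF i κ') b = nF i κ)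
    (hC : ∀ i, rs (nC i κ') b = nC i κ) : nr κ' b = κ := by
  unfold nr
  rw [hF, hF, hC, hC]
  exact h.1.symm

theorem Rsp.mono {b b' κ n : M} {R : M → Prop} (hb : b ≤ b') (h : Rsp X b κ R n) :
    Rsp X b' κ R n := by
  intro i β hβ e he E hE hER hc
  refine cv_mono hb (fun x _ => Iff.rfl) (h i β hβ e he E hE (fun x hx => ?_) hc)
  exact ⟨le_trans hb (hER x hx).1, (hER x hx).2⟩

theorem Rsp.sub {b κ n : M} {R R' : M → Prop} (hR : ∀ x, b ≤ x → R' x → R x) (h : Rsp X b κ R n) :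
    Rsp X b κ R' n := by
  intro i β hβ e he E hE hER hc
  exact h i β hβ e he E hE (fun x hx => ⟨(hER x hx).1, hR x (hER x hx).1 (hER x hx).2⟩) hc

theorem GC.mono {b : M} {G f : M → M} {κ j κ' β β' : M} (hβ : β ≤ β') (h : GC X A b G f κ j κ' β) :
    GC X A b G f κ j κ' β' :=
  ⟨h.nd.mono hβ, h.rF, h.rC, h.meet, h.nw, h.st, h.mx, fun n => (h.rp n).mono hβ⟩

theorem GP.mono {b : M} {G f : M → M} {κ j β β' : M} (hβ : β ≤ β') (h : GP X A b G f κ j β) :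
    GP X A b G f κ j β' := by
  rcases h with h | ⟨κ', h⟩
  · exact Or.inl fun x hx => h x (le_trans hβ hx)
  · exact Or.inr ⟨κ', h.mono hβ⟩

/-- A good child is a child at every level. -/
theorem GC.chd {b : M} {G f : M → M} {κ j κ' β b' : M} (h : GC X A b G f κ j κ' β) :
    Chd X b κ b' κ' := by
  refine ⟨h.rF, h.rC, h.meet, ?_, fun i β0 hβ e he hc => h.st i β0 hβ e he b' hc⟩
  obtain ⟨i, h1, h2, h3⟩ := h.nw
  refine ⟨i, fun x hx => ⟨fun hx' => le_antisymm (h2 x hx') hx, fun e => e ▸ h1⟩, fun x hx hx' => ?_⟩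
  exact absurd (h3 x hx') (not_lt.2 hx)

/-- Injectivity. -/
theorem GC.inj {b : M} {G f : M → M} {κ j κ₁ j₁ κ' β β₁ : M} (h : GC X A b G f κ j κ' β)
    (h' : GC X A b G f κ₁ j₁ κ' β₁) : κ = κ₁ ∧ j = j₁ := by
  obtain ⟨x, _, hx, hm, hG, hf⟩ := h.mx
  obtain ⟨y, _, hy, hm', hG', hf'⟩ := h'.mx
  have : x = y := le_antisymm (hm' x hx) (hm y hy)
  subst this
  exact ⟨hG.symm.trans hG', hf.symm.trans hf'⟩

end Pool.Agent.PD2
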