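import Pool.Agent.Work.MP_a6ae3a_lc.SuccP

/-!
# The new node of a part

For a part `(κ, j)` and new points `x` (in `A`) and `y` (not in `A`) of the part beyond `ap tt κ`,
the node `nw Lf Lc κ j x y` is a node of level `b'`, a child of `κ`, and the part respects it.
-/

set_option linter.unusedSectionVars false

namespace Pool.Agent.PD2

variable {M : Type} [PAM M] [IM M]

/-- The new points `x`, `y` of the part `(κ, j)`. -/
structure NP (A : M → Prop) (G H : M → M) (tt κ j x y b' : M) : Prop where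
  tx : ap tt κ ≤ x
  xb : x < b'
  gx : G x = κ
  hx : H x = j
  ax : A x
  ty : ap tt κ ≤ y
  yb : y < b'
  gy : G y = κ
  hy : H y = j
  ay : ¬ A y

/-- The new point of side `i`. -/
def pt (i : Bool) (x y : M) : M := if i then y else x

theorem SdA_false (A : M → Prop) (x : M) : SdA A false x ↔ A x := by simp [SdA]
theorem SdA_true (A : M → Prop) (x : M) : SdA A true x ↔ ¬ A x := by simp [SdA]

theorem nF_nw (Lf Lc : Bool → M) (κ j x y : M) (i : Bool) : nF i (nw Lf Lc κ j x y) =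
    un (un (nF i κ) (ap (Lf i) (pr κ j))) (tw (pt i x y)) := by
  cases i <;> simp [nF, nd, nw, pt]

theorem nC_nw (Lf Lc : Bool → M) (κ j x y : M) (i : Bool) : nC i (nw Lf Lc κ j x y) =
    un (nC i κ) (ap (Lc i) (pr κ j)) := by
  cases i <;> simp [nC, nd, nw]

theorem bt_nF_nw {Lf Lc : Bool → M} {κ j x y : M} {i : Bool} {z : M} :
    Bt (nF i (nw Lf Lc κ j x y)) z ↔ Bt (nF i κ) z ∨ Bt (ap (Lf i) (pr κ j)) z ∨ z = pt i x y := by
  rw [nF_nw, bt_un, bt_un, bt_tw, or_assoc]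

theorem bt_nC_nw {Lf Lc : Bool → M} {κ j x y : M} {i : Bool} {z : M} :
    Bt (nC i (nw Lf Lc κ j x y)) z ↔ Bt (nC i κ) z ∨ Bt (ap (Lc i) (pr κ j)) z := by
  rw [nC_nw, bt_un]

theorem Nd.ltF {A : M → Prop} {b κ z : M} (h : Nd A b κ) {i : Bool} (hz : Bt (nF i κ) z) : z < b :=
  lt_tw_iff.1 (h.2.1 i) z hz

theorem Nd.ltC {A : M → Prop} {b κ z : M} (h : Nd A b κ) {i : Bool} (hz : Bt (nC i κ) z) : z < b :=
  lt_tw_iff.1 (h.2.2.1 i) z hz

theorem Nd.sd {A : M → Prop} {b κ z : M} (h : Nd A b κ) {i : Bool} (hz : Bt (nF i κ) z) :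
    SdA A i z := by
  cases i
  · exact (SdA_false A z).2 (h.2.2.2.1 z hz)
  · exact (SdA_true A z).2 (h.2.2.2.2 z hz)

section

variable {X A : M → Prop} {b K : M} {Y : M → Prop} {G H : M → M} {q tt : M} {Lf Lc : Bool → M}
  {κ j x y b' : M}

theorem NP.tp (N : NP A G H tt κ j x y b') (i : Bool) : ap tt κ ≤ pt i x y := by
  cases i
  · exact N.tx
  · exact N.ty

theorem NP.pb (N : NP A G H tt κ j x y b') (i : Bool) : pt i x y < b' := by
  cases i
  · exact N.xb
  · exact N.yb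

theorem NP.gp (N : NP A G H tt κ j x y b') (i : Bool) : G (pt i x y) = κ := by
  cases i
  · exact N.gx
  · exact N.gy

theorem NP.hp (N : NP A G H tt κ j x y b') (i : Bool) : H (pt i x y) = j := by
  cases i
  · exact N.hx
  · exact N.hy

theorem NP.sd (N : NP A G H tt κ j x y b') (i : Bool) : SdA A i (pt i x y) := by
  cases i
  · exact (SdA_false _ _).2 N.ax
  · exact (SdA_true _ _).2 N.ay

/-- The node of a valid state. -/
theorem Vld.nd (hV : Vld X A b K) (hκ : Bt K κ) : Nd A b κ := hV.2.1 κ hκ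

/-- The elements of the new node on side `i`. -/
theorem nw_cases (P : PartsC X A b K Y G H q tt Lf Lc) (hκ : Bt K κ) (hj : j < q)
    (N : NP A G H tt κ j x y b') {i : Bool} {z : M} (hz : Bt (nF i (nw Lf Lc κ j x y)) z) :
    Bt (nF i κ) z ∨ (b ≤ z ∧ z < b' ∧ G z = κ ∧ SdA A i z) := by
  rcases bt_nF_nw.1 hz with h | h | rfl
  · exact Or.inl h
  · obtain ⟨h1, h2, h3, h4⟩ := P.lf κ hκ j hj i z h
    exact Or.inr ⟨h1, lt_of_lt_of_le h2 (le_trans N.tx N.xb.le), h3, h4⟩
  · exact Or.inr ⟨le_trans (P.tb κ hκ) (N.tp i), N.pb i, N.gp i, N.sd i⟩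

theorem nw_nd (P : PartsC X A b K Y G H q tt Lf Lc) (hV : Vld X A b K) (hκ : Bt K κ) (hj : j < q)
    (hb : b < b') (N : NP A G H tt κ j x y b') : Nd A b' (nw Lf Lc κ j x y) := by
  have hN := hV.nd hκ
  have key : ∀ i z, Bt (nF i (nw Lf Lc κ j x y)) z → z < b' ∧ SdA A i z := by
    intro i z hz
    rcases nw_cases P hκ hj N hz with h | ⟨_, h2, _, h4⟩
    · exact ⟨lt_trans (hN.ltF h) hb, hN.sd h⟩
    · exact ⟨h2, h4⟩
  refine ⟨?_, fun i => lt_tw_iff.2 fun z hz => (key i z hz).1, fun i => lt_tw_iff.2 fun z hz => ?_,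
    fun z hz => (SdA_false A z).1 (key false z hz).2, fun z hz => (SdA_true A z).1 (key true z hz).2⟩
  · simp only [nF_nw, nC_nw]
    rfl
  · rcases bt_nC_nw.1 hz with h | h
    · exact lt_trans (hN.ltC h) hb
    · obtain ⟨s, _, h2, h3, _⟩ := P.set κ hκ j hj
      by_cases e : i = s
      · subst e
        rw [h2, bt_tw] at h
        rw [h]; exact hb
      · have e' : i = !s := by cases i <;> cases s <;> simp_all
        subst e'
        rw [h3] at h
        exact absurd h (bt_zero z)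

theorem nw_rsF (P : PartsC X A b K Y G H q tt Lf Lc) (hV : Vld X A b K) (hκ : Bt K κ) (hj : j < q)
    (N : NP A G H tt κ j x y b') (i : Bool) : rs (nF i (nw Lf Lc κ j x y)) b = nF i κ := by
  refine bt_ext fun z => ?_
  rw [bt_rs]
  constructor
  · rintro ⟨h1, h2⟩
    rcases nw_cases P hκ hj N h2 with h | ⟨h, _⟩
    · exact h
    · exact absurd h1 (not_lt.2 h)
  · intro h
    exact ⟨(hV.nd hκ).ltF h, bt_nF_nw.2 (Or.inl h)⟩

theorem nw_rsC (P : PartsC X A b K Y G H q tt Lf Lc) (hV : Vld X A b K) (hκ : Bt K κ) (hj : j < q)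
    (i : Bool) : rs (nC i (nw Lf Lc κ j x y)) b = nC i κ := by
  refine bt_ext fun z => ?_
  rw [bt_rs]
  constructor
  · rintro ⟨h1, h2⟩
    rcases bt_nC_nw.1 h2 with h | h
    · exact h
    · obtain ⟨s, _, h3, h4, _⟩ := P.set κ hκ j hj
      by_cases e : i = s
      · subst e
        rw [h3, bt_tw] at h
        exact absurd h1 (by rw [h]; exact lt_irrefl _)
      · have e' : i = !s := by cases i <;> cases s <;> simp_all
        subst e'
        rw [h4] at h
        exact absurd h (bt_zero z)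
  · intro h
    exact ⟨(hV.nd hκ).ltC h, bt_nC_nw.2 (Or.inl h)⟩

theorem nw_nr (P : PartsC X A b K Y G H q tt Lf Lc) (hV : Vld X A b K) (hκ : Bt K κ) (hj : j < q)
    (N : NP A G H tt κ j x y b') : nr (nw Lf Lc κ j x y) b = κ := by
  unfold nr
  rw [nw_rsF P hV hκ hj N, nw_rsF P hV hκ hj N, nw_rsC P hV hκ hj, nw_rsC P hV hκ hj]
  exact (hV.nd hκ).1.symm

/-- The set of the elements of the new node which are at least `b`, as a code. -/
theorem nw_split (P : PartsC X A b K Y G H q tt Lf Lc) (hκ : Bt K κ) (hj : j < q)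
    (N : NP A G H tt κ j x y b') (i : Bool) (E : M) :
    ∃ D, un (nF i (nw Lf Lc κ j x y)) E = un (nF i κ) D ∧
      ∀ z, Bt D z → (b ≤ z ∧ z < b' ∧ G z = κ) ∨ Bt E z := by
  refine ⟨un (un (ap (Lf i) (pr κ j)) (tw (pt i x y))) E, bt_ext fun z => ?_, fun z hz => ?_⟩
  · rw [bt_un, bt_nF_nw, bt_un, bt_un, bt_un, bt_tw]
    tauto
  · rw [bt_un, bt_un, bt_tw] at hz
    rcases hz with (h | h) | h
    · left
      obtain ⟨h1, h2, h3, _⟩ := P.lf κ hκ j hj i z h
      exact ⟨h1, lt_of_lt_of_le h2 (le_trans N.tx N.xb.le), h3⟩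
    · left
      rw [h]
      exact ⟨le_trans (P.tb κ hκ) (N.tp i), N.pb i, N.gp i⟩
    · exact Or.inr h

/-- Old constraints: a set `E` of later elements of the part does not give a new convergence. -/
theorem nw_old (P : PartsC X A b K Y G H q tt Lf Lc) (hκ : Bt K κ) (hj : j < q)
    (N : NP A G H tt κ j x y b') {i : Bool} {β e E n : M} (hβ : Bt (nC i κ) β) (he : e < β)
    (hn : b' ≤ n) (hE : ∀ z, Bt E z → b ≤ z ∧ z < n ∧ G z = κ)
    (hc : Cv X e (un (nF i (nw Lf Lc κ j x y)) E) n) : Cv X e (nF i κ) b := by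
  obtain ⟨D, hD, hD'⟩ := nw_split P hκ hj N i E
  rw [hD] at hc
  have h1 : ∀ z, Bt D z → b ≤ z ∧ z < n ∧ G z = κ := by
    intro z hz
    rcases hD' z hz with ⟨h1, h2, h3⟩ | h
    · exact ⟨h1, lt_of_lt_of_le h2 hn, h3⟩
    · exact hE z h
  exact P.rsp κ hκ n i β hβ e he D (lt_tw_iff.2 fun z hz => (h1 z hz).2.1)
    (fun z hz => ⟨(h1 z hz).1, (h1 z hz).2.2⟩) hc

theorem un_zero (c : M) : un c 0 = c := bt_ext fun z => by
  rw [bt_un]
  exact ⟨fun h => h.elim id fun h => absurd h (bt_zero z), Or.inl⟩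

theorem nw_chd (P : PartsC X A b K Y G H q tt Lf Lc) (hV : Vld X A b K) (hκ : Bt K κ) (hj : j < q)
    (N : NP A G H tt κ j x y b') : Chd X b κ b' (nw Lf Lc κ j x y) := by
  refine ⟨nw_rsF P hV hκ hj N, nw_rsC P hV hκ hj, fun i => ⟨pt i x y,
    bt_nF_nw.2 (Or.inr (Or.inr rfl)), le_trans (P.tb κ hκ) (N.tp i)⟩, ?_, ?_⟩
  · obtain ⟨s, _, h3, h4, _⟩ := P.set κ hκ j hj
    refine ⟨s, fun z hz => ?_, fun z hz hz' => ?_⟩
    · rw [bt_nC_nw, h3, bt_tw]
      constructor
      · rintro (h | h)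
        · exact absurd ((hV.nd hκ).ltC h) (not_lt.2 hz)
        · exact h
      · exact Or.inr
    · rw [bt_nC_nw, h4] at hz'
      rcases hz' with h | h
      · exact absurd ((hV.nd hκ).ltC h) (not_lt.2 hz)
      · exact bt_zero z h
  · intro i β hβ e he hc
    refine nw_old P hκ hj N (E := 0) hβ he le_rfl (fun z hz => absurd hz (bt_zero z)) ?_
    rw [un_zero]
    exact hc

theorem nw_rsp (P : PartsC X A b K Y G H q tt Lf Lc) (hV : Vld X A b K) (hκ : Bt K κ) (hj : j < q)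
    (hb : b < b') (N : NP A G H tt κ j x y b') (n : M) :
    Rsp X b' (nw Lf Lc κ j x y) (fun z => G z = κ ∧ H z = j) n := by
  intro i β hβ e he E hE hER hc
  -- below `b'` there is nothing to show
  rcases le_or_gt n b' with hn | hn
  · refine cv_mono hn (fun z hz => ?_) hc
    rw [bt_un]
    constructor
    · rintro (h | h)
      · exact h
      · exact absurd hz (not_lt.2 (le_trans hn (hER z h).1))
    · exact Or.inl
  have hEn : ∀ z, Bt E z → z < n := lt_tw_iff.1 hE
  rcases bt_nC_nw.1 hβ with h | h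
  · -- an old block
    have h1 := nw_old P hκ hj N h he hn.le
      (fun z hz => ⟨le_trans hb.le (hER z hz).1, hEn z hz, (hER z hz).2.1⟩) hc
    refine cv_mono hb.le (fun z hz => ?_) h1
    constructor
    · intro h2
      exact bt_nF_nw.2 (Or.inl h2)
    · intro h2
      rcases nw_cases P hκ hj N h2 with h3 | ⟨h3, _⟩
      · exact h3
      · exact absurd hz (not_lt.2 h3)
  · -- the new block
    obtain ⟨s, _, h3, h4, h5⟩ := P.set κ hκ j hj
    have hs : i = s := by
      by_contra e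
      have e' : i = !s := by cases i <;> cases s <;> simp_all
      subst e'
      rw [h4] at h
      exact bt_zero β h
    subst hs
    rw [h3, bt_tw] at h
    subst h
    have e1 : un (nF i (nw Lf Lc κ j x y)) E =
        un (un (nF i κ) (ap (Lf i) (pr κ j))) (un (tw (pt i x y)) E) := by
      refine bt_ext fun z => ?_
      rw [bt_un, bt_nF_nw, bt_un, bt_un, bt_un, bt_tw]
      tauto
    rw [e1] at hc
    have h6 : ∀ z, Bt (un (tw (pt i x y)) E) z → z < n ∧ (ap tt κ ≤ z ∧ G z = κ ∧ H z = j) := by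
      intro z hz
      rw [bt_un, bt_tw] at hz
      rcases hz with h | h
      · rw [h]
        exact ⟨lt_trans (N.pb i) hn, N.tp i, N.gp i, N.hp i⟩
      · exact ⟨hEn z h, le_trans (le_trans N.tx N.xb.le) (hER z h).1, (hER z h).2⟩
    have h7 := h5 n _ (lt_tw_iff.2 fun z hz => (h6 z hz).1) (fun z hz => (h6 z hz).2) e he hc
    refine cv_mono (le_trans N.tx N.xb.le) (fun z hz => ?_) h7
    rw [bt_un, bt_nF_nw]
    constructor
    · rintro (h | h)
      · exact Or.inl h
      · exact Or.inr (Or.inl h)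
    · rintro (h | h | h)
      · exact Or.inl h
      · exact Or.inr h
      · rw [h] at hz
        exact absurd hz (not_lt.2 (N.tp i))

theorem nw_max (P : PartsC X A b K Y G H q tt Lf Lc) (hV : Vld X A b K) (hκ : Bt K κ) (hj : j < q)
    (N : NP A G H tt κ j x y b') {z : M} (hz : Bt (nF false (nw Lf Lc κ j x y)) z) : z ≤ x := by
  rcases bt_nF_nw.1 hz with h | h | h
  · exact le_trans ((hV.nd hκ).ltF h).le (le_trans (P.tb κ hκ) N.tx)
  · exact (lt_of_lt_of_le (P.lf κ hκ j hj false z h).2.1 N.tx).le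
  · exact h.le

theorem nw_inj (P : PartsC X A b K Y G H q tt Lf Lc) (hV : Vld X A b K) (hκ : Bt K κ) (hj : j < q)
    (N : NP A G H tt κ j x y b') {κ' j' x' y' : M} (hκ' : Bt K κ') (hj' : j' < q)
    (N' : NP A G H tt κ' j' x' y' b')
    (h : nw Lf Lc κ j x y = nw Lf Lc κ' j' x' y') : κ = κ' ∧ j = j' := by
  have h1 : x ≤ x' := nw_max P hV hκ' hj' N' (by
    rw [← h]; exact bt_nF_nw.2 (Or.inr (Or.inr rfl)))
  have h2 : x' ≤ x := nw_max P hV hκ hj N (by
    rw [h]; exact bt_nF_nw.2 (Or.inr (Or.inr rfl)))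
  have h3 : x = x' := le_antisymm h1 h2
  subst h3
  exact ⟨N.gx.symm.trans N'.gx, N.hx.symm.trans N'.hx⟩

end

end Pool.Agent.PD2
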