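import Pool.Agent.Work.MP_a6ae3a_lc.SuccE
import Pool.Agent.Work.MP_a6ae3a_lc.SuccN
import Pool.Agent.Work.MP_a6ae3a_lc.Succ2

/-!
# Good children of the parts

`PartsC.toParts`: parts with coded labels are parts with labels. `gp_ex`: without a solution every
part has a level from which on it has a good child or no element.
-/

set_option linter.unusedSectionVars false

namespace Pool.Agent.PD2

variable {M : Type} [PAM M] [IM M]

section

variable {X A : M → Prop} {b K : M} {Y : M → Prop} {G H : M → M} {q tt : M} {Lf Lc : Bool → M}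
  {κ j x y b' : M}

theorem SdA_iff (A : M → Prop) (i : Bool) (x : M) : SdA A i x ↔ (A x ↔ i = false) := by
  cases i <;> simp [SdA]

/-- Parts with coded labels give parts with labels. -/
noncomputable def PartsC.toParts (P : PartsC X A b K Y G H q tt Lf Lc) : Parts X A b K where
  Y := Y
  b2 := P.b2
  hX := P.xY
  G := G
  f := H
  hG := P.gF
  hf := P.hF
  q := q
  fq := P.hq
  GK := P.gK
  rsp := fun κ hκ n => (P.rsp κ hκ n).sub fun _ _ h => h.2
  lab := fun κ hκ j hj => by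
    obtain ⟨i, _, _, _, h⟩ := P.set κ hκ j hj
    refine ⟨ap tt κ, P.tb κ hκ, i, ap (Lf i) (pr κ j), fun x hx => ?_, fun n E hE e he hc => ?_⟩
    · obtain ⟨h1, h2, h3, h4⟩ := P.lf κ hκ j hj i x hx
      exact ⟨h1, h2, h3, (SdA_iff A i x).1 h4⟩
    · exact h n E (lt_tw_iff.2 fun x hx => (hE x hx).2.1)
        (fun x hx => ⟨(hE x hx).1, (hE x hx).2.2.1, (hE x hx).2.2.2⟩) e he hc

/-- The new node is a good child. -/
theorem nw_gc (P : PartsC X A b K Y G H q tt Lf Lc) (hV : Vld X A b K) (hκ : Bt K κ) (hj : j < q)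
    (hb : b < b') (N : NP A G H tt κ j x y b') : GC X A b G H κ j (nw Lf Lc κ j x y) b' where
  nd := nw_nd P hV hκ hj hb N
  rF := nw_rsF P hV hκ hj N
  rC := nw_rsC P hV hκ hj
  meet := (nw_chd P hV hκ hj N).2.2.1
  nw := by
    obtain ⟨s, _, h3, h4, _⟩ := P.set κ hκ j hj
    refine ⟨s, ?_, fun z hz => ?_, fun z hz => ?_⟩
    · rw [bt_nC_nw, h3, bt_tw]
      exact Or.inr rfl
    · rw [bt_nC_nw, h3, bt_tw] at hz
      rcases hz with h | h
      · exact ((hV.nd hκ).ltC h).le
      · exact h.le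
    · rw [bt_nC_nw, h4] at hz
      rcases hz with h | h
      · exact (hV.nd hκ).ltC h
      · exact absurd h (bt_zero z)
  st := fun i β hβ e he m hc => by
    refine nw_old P hκ hj N (E := 0) (n := m + b') hβ he le_add_self
      (fun z hz => absurd hz (bt_zero z)) ?_
    rw [un_zero]
    exact cv_mono le_self_add (fun _ _ => Iff.rfl) hc
  mx := ⟨x, le_trans (P.tb κ hκ) N.tx, bt_nF_nw.2 (Or.inr (Or.inr rfl)),
    fun _ hz => nw_max P hV hκ hj N hz, N.gx, N.hx⟩
  rp := fun n => (nw_rsp P hV hκ hj hb N n).sub fun _ _ h => h.2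

/-- Every part has a good child or is bounded. -/
theorem gp_ex [B2 X] (hA : D1 (jp X) (fun v => A (v 0))) (hno : NoSol X A) (hV : Vld X A b K)
    (P : PartsC X A b K Y G H q tt Lf Lc) (hκ : Bt K κ) (hj : j < q) :
    ∃ β, GP X A b G H κ j β := by
  have := P.b2
  have hP : D1 Y (fun v : ℕ → M => G (v 1) = κ ∧ H (v 1) = j) := by
    have h1 := F1.s1 (f := G) P.gF (g0 := fun v : ℕ → M => v 1) inferInstance
    have h2 := F1.s1 (f := H) P.hF (g0 := fun v : ℕ → M => v 1) inferInstance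
    infer_instance
  obtain ⟨β, xx, yy, hβ, h⟩ := level_ex P.xY hA hno 1 (ap tt κ + (b + 1))
    (P := fun _ x => G x = κ ∧ H x = j) hP
  have hb : b < β := succ_le_iff.1 (le_trans le_add_self hβ)
  refine ⟨β, ?_⟩
  rcases h 0 zero_lt_one with h1 | ⟨⟨h1, h2, h3, h4⟩, h5, h6, h7, h8⟩
  · exact Or.inl h1
  · exact Or.inr ⟨_, nw_gc P hV hκ hj hb (x := ap xx 0) (y := ap yy 0)
      ⟨le_trans le_self_add h2, h1, h3.1, h3.2, h4, le_trans le_self_add h6, h5, h7.1, h7.2, h8⟩⟩

end

end Pool.Agent.PD2
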