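import Pool.Agent.Work.MP_a6ae3a_lc.API

/-!
# The parts of a valid state

`PartsC X A b K Y G H q tt Lf Lc`: the function `G` distributes the numbers `≥ b` to the nodes of
`K`, the function `H` colours them with `q` colours, and the part `(κ, j)` has a label which
settles the block `b` on one side. Everything is `Δ₁(Y)`, `Y` above `X`.
-/

namespace Pool.Agent.PD2

variable {M : Type} [PAM M] [IM M]

/-- The side `i` of `A`. -/
def SdA (A : M → Prop) (i : Bool) (x : M) : Prop := if i then ¬ A x else A x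

/-- The parts of a valid state, with labels. -/
structure PartsC (X A : M → Prop) (b K : M) (Y : M → Prop) (G H : M → M) (q tt : M)
    (Lf Lc : Bool → M) : Prop where
  b2 : B2 Y
  xY : D1 Y (fun v => X (v 0))
  gF : F1 Y (fun v => G (v 0))
  hF : F1 Y (fun v => H (v 0))
  /-- every number `≥ b` is in the part of a node of `K` -/
  gK : ∀ x, b ≤ x → Bt K (G x)
  hq : ∀ x, H x < q
  /-- the part of `κ` respects `κ` -/
  rsp : ∀ κ, Bt K κ → ∀ n, Rsp X b κ (fun x => G x = κ) n
  /-- the label of `(κ, j)` lives in `[b, ap tt κ)`; note `ap tt κ ≤ tt` -/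
  tb : ∀ κ, Bt K κ → b ≤ ap tt κ
  /-- the label is a set of numbers of the part of `κ`, on its side of `A` -/
  lf : ∀ κ, Bt K κ → ∀ j, j < q → ∀ i : Bool, ∀ x, Bt (ap (Lf i) (pr κ j)) x →
    b ≤ x ∧ x < ap tt κ ∧ G x = κ ∧ SdA A i x
  /-- one side `i` is settled: `ap (Lf (!i)) (pr κ j)` is empty, `ap (Lc i) (pr κ j)` is the
  code of `{b}`, `ap (Lc (!i)) (pr κ j)` is empty, and no `e < b` converges later on side `i` -/
  set : ∀ κ, Bt K κ → ∀ j, j < q → ∃ i : Bool, ap (Lf (!i)) (pr κ j) = 0 ∧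
    ap (Lc i) (pr κ j) = tw b ∧ ap (Lc (!i)) (pr κ j) = 0 ∧
    ∀ n E, E < tw n → (∀ x, Bt E x → ap tt κ ≤ x ∧ G x = κ ∧ H x = j) → ∀ e, e < b →
      Cv X e (un (un (nF i κ) (ap (Lf i) (pr κ j))) E) n →
      Cv X e (un (nF i κ) (ap (Lf i) (pr κ j))) (ap tt κ)

/-- The node of the part `(κ, j)` with the new points `x`, `y`. -/
noncomputable def nw (Lf Lc : Bool → M) (κ j x y : M) : M :=
  nd (un (un (nF false κ) (ap (Lf false) (pr κ j))) (tw x))
    (un (un (nF true κ) (ap (Lf true) (pr κ j))) (tw y))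
    (un (nC false κ) (ap (Lc false) (pr κ j))) (un (nC true κ) (ap (Lc true) (pr κ j)))

end Pool.Agent.PD2
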