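import Pool.Agent.Work.MP_a6ae3a_lc.API
import Pool.Agent.Work.MP_a6ae3a_lc.Branch

/-!
# The tree of the chain of states
-/

namespace Pool.Agent.PD2

variable {M : Type} [PAM M] [IM M]

namespace Tree

/-! ### Restriction of nodes -/

theorem nF_nd (F0 F1 C0 C1 : M) (i : Bool) : nF i (nd F0 F1 C0 C1) = if i then F1 else F0 := by
  cases i <;> simp [nF, nd]

theorem nC_nd (F0 F1 C0 C1 : M) (i : Bool) : nC i (nd F0 F1 C0 C1) = if i then C1 else C0 := by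
  cases i <;> simp [nC, nd]

@[simp] theorem nF_nr (κ b : M) (i : Bool) : nF i (nr κ b) = rs (nF i κ) b := by
  rw [nr, nF_nd]; cases i <;> rfl

@[simp] theorem nC_nr (κ b : M) (i : Bool) : nC i (nr κ b) = rs (nC i κ) b := by
  rw [nr, nC_nd]; cases i <;> rfl

theorem rs_rs {c b b' : M} (h : b ≤ b') : rs (rs c b') b = rs c b := by
  refine bt_ext fun x => ?_
  rw [bt_rs, bt_rs, bt_rs]
  exact ⟨fun ⟨h1, _, h2⟩ => ⟨h1, h2⟩, fun ⟨h1, h2⟩ => ⟨h1, h1.trans_le h, h2⟩⟩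

theorem rs_self {c b : M} (h : c < tw b) : rs c b = c := by
  refine bt_ext fun x => ?_
  rw [bt_rs]
  exact ⟨fun h => h.2, fun h' => ⟨lt_tw_iff.1 h x h', h'⟩⟩

theorem rs_lt (c b : M) : rs c b < tw b := lt_tw_iff.2 fun _ h => (bt_rs.1 h).1

theorem nr_nr {κ b b' : M} (h : b ≤ b') : nr (nr κ b') b = nr κ b := by
  rw [nr, nF_nr, nF_nr, nC_nr, nC_nr, rs_rs h, rs_rs h, rs_rs h, rs_rs h, nr]

theorem nr_self {A : M → Prop} {b κ : M} (h : Nd A b κ) : nr κ b = κ := by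
  rw [nr, rs_self (h.2.1 _), rs_self (h.2.1 _), rs_self (h.2.2.1 _), rs_self (h.2.2.1 _)]
  exact h.1.symm

/-- Bound for the nodes of level `b`. -/
noncomputable def gd (b : M) : M := nd (tw b) (tw b) (tw b) (tw b)

theorem nd_lt {F0 F1 C0 C1 c : M} (h0 : F0 < c) (h1 : F1 < c) (h2 : C0 < c) (h3 : C1 < c) :
    nd F0 F1 C0 C1 < nd c c c c := pr_lt (pr_lt h0 h1) (pr_lt h2 h3)

theorem lt_gd {A : M → Prop} {b κ : M} (h : Nd A b κ) : κ < gd b := by
  rw [h.1]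
  exact nd_lt (h.2.1 _) (h.2.1 _) (h.2.2.1 _) (h.2.2.1 _)

theorem vld_lt {X A : M → Prop} {b K : M} (h : Vld X A b K) : K < tw (gd b) :=
  lt_tw_iff.2 fun κ hκ => lt_gd (h.2.1 κ hκ)

section inst

variable {X : M → Prop} {f g : (ℕ → M) → M}

instance f1_nF [F1 X f] (i : Bool) : F1 X (fun v => nF i (f v)) := by
  cases i
  · exact (inferInstance : F1 X (fun v => fs (fs (f v))))
  · exact (inferInstance : F1 X (fun v => sn (fs (f v))))

instance f1_nC [F1 X f] (i : Bool) : F1 X (fun v => nC i (f v)) := by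
  cases i
  · exact (inferInstance : F1 X (fun v => fs (sn (f v))))
  · exact (inferInstance : F1 X (fun v => sn (sn (f v))))

instance f1_nr [F1 X f] [F1 X g] : F1 X (fun v => nr (f v) (g v)) :=
  (inferInstance : F1 X (fun v => pr (pr (rs (nF false (f v)) (g v)) (rs (nF true (f v)) (g v)))
    (pr (rs (nC false (f v)) (g v)) (rs (nC true (f v)) (g v)))))

instance f1_gd [F1 X f] : F1 X (fun v => gd (f v)) :=
  (inferInstance : F1 X (fun v => pr (pr (tw (f v)) (tw (f v))) (pr (tw (f v)) (tw (f v)))))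

end inst

/-! ### The chain -/

/-- A chain of states, see `seq_ex`. -/
structure Sq (X A : M → Prop) (St : M → M → Prop) : Prop where
  d : D1 (jp X) (fun v => St (v 0) (v 1))
  vl : ∀ b K, St b K → Vld X A b K
  uq : ∀ b K K', St b K → St b K' → K = K'
  cof : ∀ n, ∃ b K, n ≤ b ∧ St b K
  z : ∃ K, St 0 K
  nx : ∀ b K, St b K → ∃ b' K', St b' K' ∧ Suc X A b K b' K' ∧
    ∀ b'' K'', St b'' K'' → b < b'' → b' ≤ b''

/-- The levels. -/
def Lv (St : M → M → Prop) (b : M) : Prop := ∃ K, St b K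

/-- The nodes. -/
def Nn (St : M → M → Prop) (b κ : M) : Prop := ∃ K, St b K ∧ Bt K κ

variable {X A : M → Prop} {St : M → M → Prop}

namespace Sq

theorem dd (S : Sq X A St) {f g : (ℕ → M) → M} (hf : F1 (jp X) f) (hg : F1 (jp X) g) :
    D1 (jp X) (fun v => St (f v) (g v)) := D1.s2 (P := St) S.d hf hg

theorem nd (S : Sq X A St) {b κ : M} (h : Nn St b κ) : Nd A b κ := by
  obtain ⟨K, h1, h2⟩ := h
  exact (S.vl b K h1).2.1 κ h2

theorem d1_lv [B2 X] (S : Sq X A St) {f : (ℕ → M) → M} (hf : F1 (jp X) f) :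
    D1 (jp X) (fun v => Lv St (f v)) := by
  have h1 : ∀ {f g : (ℕ → M) → M} [F1 (jp X) f] [F1 (jp X) g],
      D1 (jp X) (fun v => St (f v) (g v)) := S.dd inferInstance inferInstance
  have h2 : D1 (jp X) (fun v : ℕ → M => ∃ K, K < tw (gd (v 0)) ∧ St (v 0) K) := inferInstance
  refine D1.s1 (P := Lv St) (D1.congr h2 fun v => ?_) hf
  exact ⟨fun ⟨K, _, h⟩ => ⟨K, h⟩, fun ⟨K, h⟩ => ⟨K, vld_lt (S.vl _ _ h), h⟩⟩

theorem d1_nn [B2 X] (S : Sq X A St) {f g : (ℕ → M) → M} (hf : F1 (jp X) f)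
    (hg : F1 (jp X) g) : D1 (jp X) (fun v => Nn St (f v) (g v)) := by
  have h1 : ∀ {f g : (ℕ → M) → M} [F1 (jp X) f] [F1 (jp X) g],
      D1 (jp X) (fun v => St (f v) (g v)) := S.dd inferInstance inferInstance
  have h2 : D1 (jp X) (fun v : ℕ → M => ∃ K, K < tw (gd (v 0)) ∧ (St (v 0) K ∧ Bt K (v 1))) :=
    inferInstance
  refine D1.s2 (P := Nn St) (D1.congr h2 fun v => ?_) hf hg
  exact ⟨fun ⟨K, _, h⟩ => ⟨K, h⟩, fun ⟨K, h⟩ => ⟨K, vld_lt (S.vl _ _ h.1), h⟩⟩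

/-- Induction over the levels. -/
theorem ind [B2 X] (S : Sq X A St) {P : M → Prop} (hP : D1 (jp X) (fun v => P (v 0)))
    (h : ∀ b, Lv St b → (∀ b', b' < b → Lv St b' → P b') → P b) : ∀ b, Lv St b → P b := by
  intro b hb
  by_contra hc
  have h1 : D1 (jp X) (fun v : ℕ → M => Lv St (v 0)) := S.d1_lv inferInstance
  have h2 : D1 (jp X) (fun v : ℕ → M => Lv St (v 0) ∧ ¬ P (v 0)) := h1.and hP.not
  obtain ⟨x, ⟨hx, hx'⟩, hl⟩ := least_r (jp X) (P := fun b => Lv St b ∧ ¬ P b) h2 ⟨b, hb, hc⟩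
  refine hx' (h x hx fun b' hb' hL => ?_)
  by_contra h3
  exact hl b' hb' ⟨hL, h3⟩

/-- The predecessor of a level. -/
theorem pred [B2 X] (S : Sq X A St) {b b' : M} (hb : Lv St b) (hb' : Lv St b') (hlt : b < b') :
    ∃ c K K', b ≤ c ∧ St c K ∧ St b' K' ∧ Suc X A c K b' K' := by
  have i1 : ∀ {f : (ℕ → M) → M} [F1 (jp X) f], D1 (jp X) (fun v => Lv St (f v)) :=
    S.d1_lv inferInstance
  have h2 : D1 (jp X) (fun v : ℕ → M => ∃ c, c < b' ∧ (Lv St c ∧ c + v 0 = b')) := inferInstance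
  obtain ⟨y0, hy0⟩ := exists_add_of_le hlt.le
  obtain ⟨y, ⟨c, hc, hL, hy⟩, hl⟩ := least_r (jp X)
    (P := fun y => ∃ c, c < b' ∧ (Lv St c ∧ c + y = b')) h2 ⟨y0, b, hlt, hb, hy0.symm⟩
  have hmax : ∀ c', c' < b' → Lv St c' → c' ≤ c := by
    intro c' h3 h4
    by_contra h5
    rw [not_le] at h5
    obtain ⟨y', hy'⟩ := exists_add_of_le h3.le
    refine hl y' ?_ ⟨c', h3, h4, hy'.symm⟩
    by_contra h6
    rw [not_lt] at h6
    have : c + y < c' + y' := add_lt_add_of_lt_of_le h5 h6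
    rw [hy, ← hy'] at this
    exact lt_irrefl _ this
  obtain ⟨K, hK⟩ := hL
  obtain ⟨b1, K1, h3, h4, h5⟩ := S.nx c K hK
  obtain ⟨K', hK'⟩ := hb'
  have h6 : b1 ≤ b' := h5 b' K' hK' hc
  have h7 : b1 = b' := by
    by_contra h8
    have := hmax b1 (lt_of_le_of_ne h6 h8) ⟨K1, h3⟩
    exact absurd h4.1 (not_lt.2 this)
  subst h7
  exact ⟨c, K, K1, hmax b hlt hb, hK, h3, h4⟩

/-- The restriction of a node is a node. -/
theorem res [B2 X] (S : Sq X A St) {b : M} (hb : Lv St b) : ∀ b', Lv St b' → b ≤ b' →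
    ∀ κ, Nn St b' κ → Nn St b (nr κ b) := by
  have i1 : ∀ {f g : (ℕ → M) → M} [F1 (jp X) f] [F1 (jp X) g],
      D1 (jp X) (fun v => Nn St (f v) (g v)) := S.d1_nn inferInstance inferInstance
  have h1 : D1 (jp X) (fun v : ℕ → M => (b ≤ v 0 → ∀ κ, κ < gd (v 0) → (Nn St (v 0) κ →
      Nn St b (nr κ b)))) := inferInstance
  have h2 := S.ind (P := fun b' => b ≤ b' → ∀ κ, κ < gd b' → (Nn St b' κ → Nn St b (nr κ b))) h1
    (fun b' hb' ih hle κ _ hκ => by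
      rcases hle.eq_or_lt with rfl | hlt
      · rw [nr_self (S.nd hκ)]; exact hκ
      · obtain ⟨c, K, K', h3, h4, h5, h6⟩ := S.pred hb hb' hlt
        obtain ⟨K2, h7, h8⟩ := hκ
        have h9 : K2 = K' := S.uq _ _ _ h7 h5
        subst h9
        obtain ⟨h10, _⟩ := h6.2.2.2 κ h8
        have h11 : Nn St c (nr κ c) := ⟨K, h4, h10⟩
        have := ih c h6.1 ⟨K, h4⟩ h3 (nr κ c) (lt_gd (S.nd h11)) h11
        rw [nr_nr h3] at this
        exact this)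
  exact fun b' hb' hle κ hκ => h2 b' hb' hle κ (lt_gd (S.nd hκ)) hκ

/-- The tree. -/
theorem lt [B2 X] (S : Sq X A St) :
    Tr.LT (jp X) (Lv St) (Nn St) (fun b κ => nr κ b) gd where
  d2L := fun ha => S.d1_lv ha
  d2N := fun ha hb => S.d1_nn ha hb
  f1r := fun {a b} ha hb => by
    have := ha
    have := hb
    exact (inferInstance : F1 (jp X) (fun v => nr (b v) (a v)))
  f1g := fun {a} ha => by
    have := ha
    exact (inferInstance : F1 (jp X) (fun v => gd (a v)))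
  cof := fun m => by
    obtain ⟨b, K, h1, h2⟩ := S.cof (m + 1)
    exact ⟨b, ⟨K, h2⟩, succ_le_iff.1 h1⟩
  ne := fun b ⟨K, hK⟩ => by
    obtain ⟨κ, h⟩ := (S.vl b K hK).1
    exact ⟨κ, K, hK, h⟩
  bd := fun b κ h => lt_gd (S.nd h)
  rs := fun b b' κ h hb hle => by
    obtain ⟨K, h1, h2⟩ := h
    exact S.res hb b' ⟨K, h1⟩ hle κ ⟨K, h1, h2⟩
  rr := fun b b' κ h => nr_nr h
  self := fun b κ h => nr_self (S.nd h)

end Sq

end Tree
end Pool.Agent.PD2
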