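import Pool.Agent.Work.MP_a6ae3a_lc.Bits1

/-!
# Truth certificates

A certificate is a coded set of entries. `vr i a x`: the variable `i` has the value `x` in the
assignment `a` (`pr x a` is the assignment `a` with the value `x` in front). `eT f a`, `eF f a`: the bounded formula with code `f`
is true, false at `a`. `Cl` is the positive operator of the local clauses, `LC` says that all the
entries of a coded set are justified, `Cv X e F u` is the universal relation.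
-/

namespace Pool.Agent.PD2

variable {M : Type} [PAM M] [IM M]

namespace UV

/-! ### Entries -/

/-- The variable `i` has the value `x` in the assignment `a`. -/
noncomputable def vr (i a x : M) : M := pr 0 (pr i (pr a x))

/-- The formula `f` is false at `a`. -/
noncomputable def eF (f a : M) : M := pr 1 (pr f a)

/-- The formula `f` is true at `a`. -/
noncomputable def eT (f a : M) : M := pr 2 (pr f a)

/-- Clause for the values of the variables. -/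
def ClV (P : M → Prop) (i a x : M) : Prop :=
  (i = 0 ∧ x = fs a) ∨ ∃ j, j < i ∧ (i = j + 1 ∧ P (vr j (sn a) x))

/-- Clauses for truth. -/
def ClT (O P : M → Prop) (f a : M) : Prop :=
  (fs f = 0 ∧ ∃ x, P (vr (fs (sn f)) a x) ∧ ∃ y, P (vr (fs (sn (sn f))) a y) ∧
    ∃ w, P (vr (sn (sn (sn f))) a w) ∧ x + y = w) ∨
  (fs f = 1 ∧ ∃ x, P (vr (fs (sn f)) a x) ∧ ∃ y, P (vr (fs (sn (sn f))) a y) ∧
    ∃ w, P (vr (sn (sn (sn f))) a w) ∧ x * y = w) ∨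
  (fs f = 2 ∧ ∃ x, P (vr (fs (sn f)) a x) ∧ ∃ y, P (vr (sn (sn f)) a y) ∧ x = y) ∨
  (fs f = 3 ∧ ∃ x, P (vr (fs (sn f)) a x) ∧ ∃ y, P (vr (sn (sn f)) a y) ∧ x < y) ∨
  (fs f = 4 ∧ ∃ x, P (vr (sn f) a x) ∧ O x) ∨
  (fs f = 5 ∧ P (eF (sn f) a)) ∨
  (fs f = 6 ∧ (P (eT (fs (sn f)) a) ∧ P (eT (sn (sn f)) a))) ∨
  (fs f = 7 ∧ ∃ x, P (vr (fs (sn f)) a x) ∧ ∀ u, u < x → P (eT (sn (sn f)) (pr u a)))

/-- Clauses for falsity. -/
def ClF (N P : M → Prop) (f a : M) : Prop :=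
  (fs f = 0 ∧ ∃ x, P (vr (fs (sn f)) a x) ∧ ∃ y, P (vr (fs (sn (sn f))) a y) ∧
    ∃ w, P (vr (sn (sn (sn f))) a w) ∧ ¬ x + y = w) ∨
  (fs f = 1 ∧ ∃ x, P (vr (fs (sn f)) a x) ∧ ∃ y, P (vr (fs (sn (sn f))) a y) ∧
    ∃ w, P (vr (sn (sn (sn f))) a w) ∧ ¬ x * y = w) ∨
  (fs f = 2 ∧ ∃ x, P (vr (fs (sn f)) a x) ∧ ∃ y, P (vr (sn (sn f)) a y) ∧ ¬ x = y) ∨
  (fs f = 3 ∧ ∃ x, P (vr (fs (sn f)) a x) ∧ ∃ y, P (vr (sn (sn f)) a y) ∧ ¬ x < y) ∨
  (fs f = 4 ∧ ∃ x, P (vr (sn f) a x) ∧ N x) ∨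
  (fs f = 5 ∧ P (eT (sn f) a)) ∨
  (fs f = 6 ∧ (P (eF (fs (sn f)) a) ∨ P (eF (sn (sn f)) a))) ∨
  (fs f = 7 ∧ ∃ x, P (vr (fs (sn f)) a x) ∧ ∃ u, u < x ∧ P (eF (sn (sn f)) (pr u a)))

/-- The positive operator of the local clauses: `O` is the set of the positive facts of the oracle,
`N` the set of the negative ones. -/
def Cl (O N P : M → Prop) (z : M) : Prop :=
  (fs z = 0 ∧ ClV P (fs (sn z)) (fs (sn (sn z))) (sn (sn (sn z)))) ∨
  (fs z = 1 ∧ ClF N P (fs (sn z)) (sn (sn z))) ∨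
  (fs z = 2 ∧ ClT O P (fs (sn z)) (sn (sn z)))

theorem ClV.mono {P Q : M → Prop} (h : ∀ z, P z → Q z) {i a x : M} (hP : ClV P i a x) :
    ClV Q i a x := by
  rcases hP with hP | ⟨j, h1, h2, h3⟩
  · exact Or.inl hP
  · exact Or.inr ⟨j, h1, h2, h _ h3⟩

theorem ClT.mono {O O' P Q : M → Prop} (hO : ∀ z, O z → O' z) (h : ∀ z, P z → Q z) {f a : M}
    (hP : ClT O P f a) : ClT O' Q f a := by
  rcases hP with ⟨h0, x, hx, y, hy, w, hw, e⟩ | ⟨h0, x, hx, y, hy, w, hw, e⟩ | ⟨h0, x, hx, y, hy, e⟩ |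
    ⟨h0, x, hx, y, hy, e⟩ | ⟨h0, x, hx, e⟩ | ⟨h0, e⟩ | ⟨h0, e, e'⟩ | ⟨h0, x, hx, e⟩
  · exact Or.inl ⟨h0, x, h _ hx, y, h _ hy, w, h _ hw, e⟩
  · exact Or.inr (Or.inl ⟨h0, x, h _ hx, y, h _ hy, w, h _ hw, e⟩)
  · exact Or.inr (Or.inr (Or.inl ⟨h0, x, h _ hx, y, h _ hy, e⟩))
  · exact Or.inr (Or.inr (Or.inr (Or.inl ⟨h0, x, h _ hx, y, h _ hy, e⟩)))
  · exact Or.inr (Or.inr (Or.inr (Or.inr (Or.inl ⟨h0, x, h _ hx, hO _ e⟩))))
  · exact Or.inr (Or.inr (Or.inr (Or.inr (Or.inr (Or.inl ⟨h0, h _ e⟩)))))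
  · exact Or.inr (Or.inr (Or.inr (Or.inr (Or.inr (Or.inr (Or.inl ⟨h0, h _ e, h _ e'⟩))))))
  · exact Or.inr (Or.inr (Or.inr (Or.inr (Or.inr (Or.inr (Or.inr
      ⟨h0, x, h _ hx, fun u hu => h _ (e u hu)⟩))))))

theorem ClF.mono {N N' P Q : M → Prop} (hN : ∀ z, N z → N' z) (h : ∀ z, P z → Q z) {f a : M}
    (hP : ClF N P f a) : ClF N' Q f a := by
  rcases hP with ⟨h0, x, hx, y, hy, w, hw, e⟩ | ⟨h0, x, hx, y, hy, w, hw, e⟩ | ⟨h0, x, hx, y, hy, e⟩ |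
    ⟨h0, x, hx, y, hy, e⟩ | ⟨h0, x, hx, e⟩ | ⟨h0, e⟩ | ⟨h0, e⟩ | ⟨h0, x, hx, u, hu, e⟩
  · exact Or.inl ⟨h0, x, h _ hx, y, h _ hy, w, h _ hw, e⟩
  · exact Or.inr (Or.inl ⟨h0, x, h _ hx, y, h _ hy, w, h _ hw, e⟩)
  · exact Or.inr (Or.inr (Or.inl ⟨h0, x, h _ hx, y, h _ hy, e⟩))
  · exact Or.inr (Or.inr (Or.inr (Or.inl ⟨h0, x, h _ hx, y, h _ hy, e⟩)))
  · exact Or.inr (Or.inr (Or.inr (Or.inr (Or.inl ⟨h0, x, h _ hx, hN _ e⟩))))
  · exact Or.inr (Or.inr (Or.inr (Or.inr (Or.inr (Or.inl ⟨h0, h _ e⟩)))))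
  · exact Or.inr (Or.inr (Or.inr (Or.inr (Or.inr (Or.inr (Or.inl ⟨h0, e.imp (h _) (h _)⟩))))))
  · exact Or.inr (Or.inr (Or.inr (Or.inr (Or.inr (Or.inr (Or.inr
      ⟨h0, x, h _ hx, u, hu, h _ e⟩))))))

/-- The operator is monotone. -/
theorem Cl.mono {O O' N N' P Q : M → Prop} (hO : ∀ z, O z → O' z) (hN : ∀ z, N z → N' z)
    (h : ∀ z, P z → Q z) {z : M} (hP : Cl O N P z) : Cl O' N' Q z := by
  rcases hP with ⟨h0, h1⟩ | ⟨h0, h1⟩ | ⟨h0, h1⟩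
  · exact Or.inl ⟨h0, h1.mono h⟩
  · exact Or.inr (Or.inl ⟨h0, h1.mono hN h⟩)
  · exact Or.inr (Or.inr ⟨h0, h1.mono hO h⟩)

/-! ### Certificates -/

/-- All the entries of `C` are justified. -/
def LC (O N : M → Prop) (C : M) : Prop := ∀ z, z < C → (Bt C z → Cl O N (Bt C) z)

theorem LC.cl {O N : M → Prop} {C z : M} (h : LC O N C) (hz : Bt C z) :
    Cl O N (Bt C) z := h z (hz.lt) hz

theorem LC.mono {O O' N N' : M → Prop} (hO : ∀ z, O z → O' z) (hN : ∀ z, N z → N' z)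
    {C : M} (h : LC O N C) : LC O' N' C := fun z hz hC => (h z hz hC).mono hO hN fun _ => id

/-- Certified entries. -/
def Vd (O N : M → Prop) (z : M) : Prop := ∃ C, LC O N C ∧ Bt C z

theorem Vd.mono {O O' N N' : M → Prop} (hO : ∀ z, O z → O' z) (hN : ∀ z, N z → N' z)
    {z : M} (h : Vd O N z) : Vd O' N' z := by
  obtain ⟨C, h1, h2⟩ := h
  exact ⟨C, h1.mono hO hN, h2⟩

theorem Vd.cl {O N : M → Prop} {z : M} (h : Vd O N z) : Cl O N (Vd O N) z := by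
  obtain ⟨C, h1, h2⟩ := h
  exact (h1.cl h2).mono (fun _ => id) (fun _ => id) fun w hw => ⟨C, h1, hw⟩

section def1

variable {X : M → Prop} {C f a i x : (ℕ → M) → M}

theorem d1_val' [C1 X] {R : M → (ℕ → M) → Prop} (hC : F1 X C) (hi : F1 X i) (ha : F1 X a)
    (hR : D1 X (fun v => R (v 0) (fun i => v (i + 1)))) :
    D1 X (fun v => ∃ x, Bt (C v) (vr (i v) (a v) x) ∧ R x v) := by
  have hC' := F1.tail hC
  have hi' := F1.tail hi
  have ha' := F1.tail ha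
  have h1 : D1 X (fun v => ∃ x, x < C v ∧ (Bt (C v) (vr (i v) (a v) x) ∧ R x v)) := by
    refine @d1_ex M _ X C _ (fun x v => Bt (C v) (vr (i v) (a v) x) ∧ R x v) hC ?_
    refine D1.and ?_ hR
    unfold vr
    infer_instance
  refine D1.congr h1 fun v => exists_congr fun x => ?_
  constructor
  · exact fun h => h.2
  · intro h
    refine ⟨?_, h⟩
    refine lt_of_le_of_lt ?_ h.1.lt
    unfold vr
    exact (le_pr_right _ _).trans ((le_pr_right _ _).trans (le_pr_right _ _))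

instance d1_val [C1 X] {R : M → (ℕ → M) → Prop} [hC : F1 X C] [hi : F1 X i] [ha : F1 X a]
    [hR : D1 X (fun v => R (v 0) (fun i => v (i + 1)))] :
    D1 X (fun v => ∃ x, Bt (C v) (vr (i v) (a v) x) ∧ R x v) := d1_val' hC hi ha hR

instance f1_vr [F1 X i] [F1 X a] [F1 X x] : F1 X (fun v => vr (i v) (a v) (x v)) := by
  unfold vr; infer_instance

instance f1_eT [F1 X f] [F1 X a] : F1 X (fun v => eT (f v) (a v)) := by
  unfold eT; infer_instance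

instance f1_eF [F1 X f] [F1 X a] : F1 X (fun v => eF (f v) (a v)) := by
  unfold eF; infer_instance

theorem d1_ClV [C1 X] : D1 X (fun v : ℕ → M => ClV (Bt (v 0)) (v 1) (v 2) (v 3)) := by
  unfold ClV
  infer_instance

/-- The positive facts of the join of `X` and the coded set `F` below `t`. -/
def jT (X : M → Prop) (F t x : M) : Prop :=
  (∃ y, y ≤ x ∧ (x = y + y ∧ X y)) ∨ ∃ y, y ≤ x ∧ (x = y + y + 1 ∧ (y < t ∧ Bt F y))

/-- The negative facts of the join of `X` and the coded set `F` below `t`. -/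
def jF (X : M → Prop) (F t x : M) : Prop :=
  (∃ y, y ≤ x ∧ (x = y + y ∧ ¬ X y)) ∨ ∃ y, y ≤ x ∧ (x = y + y + 1 ∧ (y < t ∧ ¬ Bt F y))

instance d1_jT [C1 X] [hf : F1 X f] [ha : F1 X a] [hi : F1 X i] :
    D1 X (fun v => jT X (f v) (a v) (i v)) := by
  refine D1.s3 (P := fun F t x => jT X F t x) ?_ hf ha hi
  unfold jT
  infer_instance

instance d1_jF [C1 X] [hf : F1 X f] [ha : F1 X a] [hi : F1 X i] :
    D1 X (fun v => jF X (f v) (a v) (i v)) := by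
  refine D1.s3 (P := fun F t x => jF X F t x) ?_ hf ha hi
  unfold jF
  infer_instance

set_option synthInstance.maxSize 2000 in
theorem d1_ClT [C1 X] :
    D1 X (fun v : ℕ → M => ClT (jT X (v 0) (v 1)) (Bt (v 2)) (v 3) (v 4)) := by
  unfold ClT
  infer_instance

set_option synthInstance.maxSize 2000 in
theorem d1_ClF [C1 X] :
    D1 X (fun v : ℕ → M => ClF (jF X (v 0) (v 1)) (Bt (v 2)) (v 3) (v 4)) := by
  unfold ClF
  infer_instance

theorem d1_Cl [C1 X] :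
    D1 X (fun v : ℕ → M => Cl (jT X (v 0) (v 1)) (jF X (v 0) (v 1)) (Bt (v 2)) (v 3)) := by
  unfold Cl
  have h1 : D1 X (fun v : ℕ → M => ClV (Bt (v 2)) (fs (sn (v 3))) (fs (sn (sn (v 3))))
      (sn (sn (sn (v 3))))) :=
    D1.s4 (P := fun C i a x => ClV (Bt C) i a x) d1_ClV inferInstance inferInstance inferInstance
      inferInstance
  have h2 : D1 X (fun v : ℕ → M => ClT (jT X (v 0) (v 1)) (Bt (v 2)) (fs (sn (v 3)))
      (sn (sn (v 3)))) :=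
    D1.s5 (P := fun F t C f a => ClT (jT X F t) (Bt C) f a) d1_ClT inferInstance inferInstance
      inferInstance inferInstance inferInstance
  have h3 : D1 X (fun v : ℕ → M => ClF (jF X (v 0) (v 1)) (Bt (v 2)) (fs (sn (v 3)))
      (sn (sn (v 3)))) :=
    D1.s5 (P := fun F t C f a => ClF (jF X F t) (Bt C) f a) d1_ClF inferInstance inferInstance
      inferInstance inferInstance inferInstance
  infer_instance

instance d1_LC [C1 X] [hf : F1 X f] [ha : F1 X a] [hC : F1 X C] :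
    D1 X (fun v => LC (jT X (f v) (a v)) (jF X (f v) (a v)) (C v)) := by
  refine D1.s3 (P := fun F t C => LC (jT X F t) (jF X F t) C) ?_ hf ha hC
  unfold LC
  have h1 : D1 X (fun v : ℕ → M => Cl (jT X (v 1) (v 2)) (jF X (v 1) (v 2)) (Bt (v 3)) (v 0)) :=
    D1.s4 (P := fun F t C z => Cl (jT X F t) (jF X F t) (Bt C) z) d1_Cl inferInstance inferInstance
      inferInstance inferInstance
  refine @d1_all M _ X (fun v => v 2) _ (fun z v => (Bt (v 2) z → Cl (jT X (v 0) (v 1))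
    (jF X (v 0) (v 1)) (Bt (v 2)) z)) _ ?_
  exact @d1_imp M _ X _ _ inferInstance h1

end def1

/-! ### Dependence on the oracle -/

theorem jT_congr {X : M → Prop} {F F' t : M} (h : ∀ y, y < t → (Bt F y ↔ Bt F' y)) {x : M}
    (hx : jT X F t x) : jT X F' t x := by
  rcases hx with h1 | ⟨y, h1, h2, h3, h4⟩
  · exact Or.inl h1
  · exact Or.inr ⟨y, h1, h2, h3, (h y h3).1 h4⟩

theorem jF_congr {X : M → Prop} {F F' t : M} (h : ∀ y, y < t → (Bt F y ↔ Bt F' y)) {x : M}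
    (hx : jF X F t x) : jF X F' t x := by
  rcases hx with h1 | ⟨y, h1, h2, h3, h4⟩
  · exact Or.inl h1
  · exact Or.inr ⟨y, h1, h2, h3, fun h5 => h4 ((h y h3).2 h5)⟩

theorem jT_mono {X : M → Prop} {F t t' : M} (h : t ≤ t') {x : M}
    (hx : jT X F t x) : jT X F t' x := by
  rcases hx with h1 | ⟨y, h1, h2, h3, h4⟩
  · exact Or.inl h1
  · exact Or.inr ⟨y, h1, h2, h3.trans_le h, h4⟩

theorem jF_mono {X : M → Prop} {F t t' : M} (h : t ≤ t') {x : M}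
    (hx : jF X F t x) : jF X F t' x := by
  rcases hx with h1 | ⟨y, h1, h2, h3, h4⟩
  · exact Or.inl h1
  · exact Or.inr ⟨y, h1, h2, h3.trans_le h, h4⟩

/-! ### The fixed point -/

section fixed

variable {X : M → Prop} [I1 X] {F t : M}

/-- Entries certified below `B`. -/
def VB (O N : M → Prop) (B z : M) : Prop := ∃ C, C ≤ B ∧ (LC O N C ∧ Bt C z)

theorem Vd.vb {O N : M → Prop} {z : M} (h : Vd O N z) : ∃ B, VB O N B z := by
  obtain ⟨C, h1, h2⟩ := h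
  exact ⟨C, C, le_rfl, h1, h2⟩

theorem VB.vd {O N : M → Prop} {B z : M} (h : VB O N B z) : Vd O N z := by
  obtain ⟨C, _, h1, h2⟩ := h
  exact ⟨C, h1, h2⟩

theorem VB.mono {O N : M → Prop} {B B' z : M} (hB : B ≤ B') (h : VB O N B z) : VB O N B' z := by
  obtain ⟨C, h0, h1, h2⟩ := h
  exact ⟨C, h0.trans hB, h1, h2⟩

/-- A bound for the certificates in a bounded family. -/
theorem vb_all {x f a : M} (h : ∀ u, u < x → Vd (jT X F t) (jF X F t) (eT f (pr u a))) :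
    ∃ B, ∀ u, u < x → VB (jT X F t) (jF X F t) B (eT f (pr u a)) := by
  have h1 : D1 X (fun v : ℕ → M => LC (jT X F t) (jF X F t) (v 1) ∧
      Bt (v 1) (eT f (pr (v 0) a))) := inferInstance
  obtain ⟨b, hb⟩ := coll_s (P := fun u C => LC (jT X F t) (jF X F t) C ∧ Bt C (eT f (pr u a)))
    h1.s x h
  refine ⟨b, fun u hu => ?_⟩
  obtain ⟨C, hC, h2⟩ := hb u hu
  exact ⟨C, hC.le, h2⟩

theorem Cl.vb {z : M} (h : Cl (jT X F t) (jF X F t) (Vd (jT X F t) (jF X F t)) z) :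
    ∃ B, Cl (jT X F t) (jF X F t) (VB (jT X F t) (jF X F t) B) z := by
  rcases h with ⟨h0, h1⟩ | ⟨h0, h1⟩ | ⟨h0, h1⟩
  · rcases h1 with h1 | ⟨j, h1, h2, h3⟩
    · exact ⟨0, Or.inl ⟨h0, Or.inl h1⟩⟩
    · obtain ⟨B, hB⟩ := h3.vb
      exact ⟨B, Or.inl ⟨h0, Or.inr ⟨j, h1, h2, hB⟩⟩⟩
  · suffices h2 : ∃ B, ClF (jF X F t) (VB (jT X F t) (jF X F t) B) (fs (sn z)) (sn (sn z)) by
      obtain ⟨B, hB⟩ := h2
      exact ⟨B, Or.inr (Or.inl ⟨h0, hB⟩)⟩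
    rcases h1 with ⟨h0, x, hx, y, hy, w, hw, e⟩ | ⟨h0, x, hx, y, hy, w, hw, e⟩ |
      ⟨h0, x, hx, y, hy, e⟩ | ⟨h0, x, hx, y, hy, e⟩ | ⟨h0, x, hx, e⟩ | ⟨h0, e⟩ | ⟨h0, e⟩ |
      ⟨h0, x, hx, u, hu, e⟩
    · obtain ⟨B1, h1⟩ := hx.vb
      obtain ⟨B2, h2⟩ := hy.vb
      obtain ⟨B3, h3⟩ := hw.vb
      exact ⟨B1 + (B2 + B3), Or.inl ⟨h0, x, h1.mono le_self_add, y,
        h2.mono (le_self_add.trans le_add_self), w, h3.mono (le_add_self.trans le_add_self), e⟩⟩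
    · obtain ⟨B1, h1⟩ := hx.vb
      obtain ⟨B2, h2⟩ := hy.vb
      obtain ⟨B3, h3⟩ := hw.vb
      exact ⟨B1 + (B2 + B3), Or.inr (Or.inl ⟨h0, x, h1.mono le_self_add, y,
        h2.mono (le_self_add.trans le_add_self), w, h3.mono (le_add_self.trans le_add_self), e⟩)⟩
    · obtain ⟨B1, h1⟩ := hx.vb
      obtain ⟨B2, h2⟩ := hy.vb
      exact ⟨B1 + B2, Or.inr (Or.inr (Or.inl ⟨h0, x, h1.mono le_self_add, y,
        h2.mono le_add_self, e⟩))⟩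
    · obtain ⟨B1, h1⟩ := hx.vb
      obtain ⟨B2, h2⟩ := hy.vb
      exact ⟨B1 + B2, Or.inr (Or.inr (Or.inr (Or.inl ⟨h0, x, h1.mono le_self_add, y,
        h2.mono le_add_self, e⟩)))⟩
    · obtain ⟨B1, h1⟩ := hx.vb
      exact ⟨B1, Or.inr (Or.inr (Or.inr (Or.inr (Or.inl ⟨h0, x, h1, e⟩))))⟩
    · obtain ⟨B1, h1⟩ := e.vb
      exact ⟨B1, Or.inr (Or.inr (Or.inr (Or.inr (Or.inr (Or.inl ⟨h0, h1⟩)))))⟩
    · rcases e with e | e
      · obtain ⟨B1, h1⟩ := e.vb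
        exact ⟨B1, Or.inr (Or.inr (Or.inr (Or.inr (Or.inr (Or.inr (Or.inl
          ⟨h0, Or.inl h1⟩))))))⟩
      · obtain ⟨B1, h1⟩ := e.vb
        exact ⟨B1, Or.inr (Or.inr (Or.inr (Or.inr (Or.inr (Or.inr (Or.inl
          ⟨h0, Or.inr h1⟩))))))⟩
    · obtain ⟨B1, h1⟩ := hx.vb
      obtain ⟨B2, h2⟩ := e.vb
      exact ⟨B1 + B2, Or.inr (Or.inr (Or.inr (Or.inr (Or.inr (Or.inr (Or.inr
        ⟨h0, x, h1.mono le_self_add, u, hu, h2.mono le_add_self⟩))))))⟩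
  · suffices h2 : ∃ B, ClT (jT X F t) (VB (jT X F t) (jF X F t) B) (fs (sn z)) (sn (sn z)) by
      obtain ⟨B, hB⟩ := h2
      exact ⟨B, Or.inr (Or.inr ⟨h0, hB⟩)⟩
    rcases h1 with ⟨h0, x, hx, y, hy, w, hw, e⟩ | ⟨h0, x, hx, y, hy, w, hw, e⟩ |
      ⟨h0, x, hx, y, hy, e⟩ | ⟨h0, x, hx, y, hy, e⟩ | ⟨h0, x, hx, e⟩ | ⟨h0, e⟩ | ⟨h0, e, e'⟩ |
      ⟨h0, x, hx, e⟩
    · obtain ⟨B1, h1⟩ := hx.vb
      obtain ⟨B2, h2⟩ := hy.vb
      obtain ⟨B3, h3⟩ := hw.vb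
      exact ⟨B1 + (B2 + B3), Or.inl ⟨h0, x, h1.mono le_self_add, y,
        h2.mono (le_self_add.trans le_add_self), w, h3.mono (le_add_self.trans le_add_self), e⟩⟩
    · obtain ⟨B1, h1⟩ := hx.vb
      obtain ⟨B2, h2⟩ := hy.vb
      obtain ⟨B3, h3⟩ := hw.vb
      exact ⟨B1 + (B2 + B3), Or.inr (Or.inl ⟨h0, x, h1.mono le_self_add, y,
        h2.mono (le_self_add.trans le_add_self), w, h3.mono (le_add_self.trans le_add_self), e⟩)⟩
    · obtain ⟨B1, h1⟩ := hx.vb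
      obtain ⟨B2, h2⟩ := hy.vb
      exact ⟨B1 + B2, Or.inr (Or.inr (Or.inl ⟨h0, x, h1.mono le_self_add, y,
        h2.mono le_add_self, e⟩))⟩
    · obtain ⟨B1, h1⟩ := hx.vb
      obtain ⟨B2, h2⟩ := hy.vb
      exact ⟨B1 + B2, Or.inr (Or.inr (Or.inr (Or.inl ⟨h0, x, h1.mono le_self_add, y,
        h2.mono le_add_self, e⟩)))⟩
    · obtain ⟨B1, h1⟩ := hx.vb
      exact ⟨B1, Or.inr (Or.inr (Or.inr (Or.inr (Or.inl ⟨h0, x, h1, e⟩))))⟩
    · obtain ⟨B1, h1⟩ := e.vb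
      exact ⟨B1, Or.inr (Or.inr (Or.inr (Or.inr (Or.inr (Or.inl ⟨h0, h1⟩)))))⟩
    · obtain ⟨B1, h1⟩ := e.vb
      obtain ⟨B2, h2⟩ := e'.vb
      exact ⟨B1 + B2, Or.inr (Or.inr (Or.inr (Or.inr (Or.inr (Or.inr (Or.inl
        ⟨h0, h1.mono le_self_add, h2.mono le_add_self⟩))))))⟩
    · obtain ⟨B1, h1⟩ := hx.vb
      obtain ⟨B2, h2⟩ := vb_all e
      exact ⟨B1 + B2, Or.inr (Or.inr (Or.inr (Or.inr (Or.inr (Or.inr (Or.inr
        ⟨h0, x, h1.mono le_self_add, fun u hu => (h2 u hu).mono le_add_self⟩))))))⟩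

/-- Certified entries are the fixed point of the local clauses. -/
theorem Vd_iff {z : M} : Vd (jT X F t) (jF X F t) z ↔
    Cl (jT X F t) (jF X F t) (Vd (jT X F t) (jF X F t)) z := by
  refine ⟨fun h => h.cl, fun h => ?_⟩
  obtain ⟨B, hB⟩ := h.vb
  have h1 : D1 X (fun v : ℕ → M => (∃ C, C ≤ B ∧ (LC (jT X F t) (jF X F t) C ∧ Bt C (v 0))) ∨
      v 0 = z) := inferInstance
  obtain ⟨c, hc⟩ := bt_compr_d X (R := fun w => (∃ C, C ≤ B ∧ (LC (jT X F t) (jF X F t) C ∧ Bt C w)) ∨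
      w = z) h1 (B + z + 1)
  have h2 : ∀ w, VB (jT X F t) (jF X F t) B w → Bt c w := by
    intro w hw
    refine (hc w).2 ⟨?_, Or.inl hw⟩
    obtain ⟨C, h3, _, h4⟩ := hw
    refine lt_of_lt_of_le h4.lt (h3.trans ?_)
    rw [add_assoc]
    exact le_self_add
  refine ⟨c, fun w _ hw => ?_, (hc z).2 ⟨?_, Or.inr rfl⟩⟩
  · rcases ((hc w).1 hw).2 with ⟨C, h3, h4, h5⟩ | rfl
    · exact (h4.cl h5).mono (fun _ => id) (fun _ => id) fun y hy => h2 y ⟨C, h3, h4, hy⟩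
    · exact hB.mono (fun _ => id) (fun _ => id) h2
  · exact lt_succ_iff.2 le_add_self

end fixed

end UV

open UV

/-! ### The universal relation -/

/-- The universal relation `e ∈ W^{X ⊕ F}` with a certificate and a witness below `u`, which use
`F` only below `u`. Here `e = pr (pr f p) z`: `f` is the code of a bounded formula, `p` codes the
parameters, `z` is the argument. -/
def Cv (X : M → Prop) (e F u : M) : Prop :=
  ∃ t, t ≤ u ∧ ∃ C, C ≤ u ∧ ∃ y, y ≤ u ∧ (pr y (pr (sn e) (sn (fs e))) < t ∧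
    (LC (jT X F t) (jF X F t) C ∧ Bt C (eT (fs (fs e)) (pr y (pr (sn e) (sn (fs e)))))))

instance d1_cv {X : M → Prop} [C1 X] {f g h : (ℕ → M) → M} [hf : F1 X f] [hg : F1 X g]
    [hh : F1 X h] : D1 X (fun v => Cv X (f v) (g v) (h v)) := by
  refine D1.s3 (P := fun e F u => Cv X e F u) ?_ hf hg hh
  unfold Cv
  infer_instance

/-- Monotonicity of the universal relation under end extensions. -/
theorem Cv_mono {X : M → Prop} {e F F' u u' : M} (hF : ∀ y, y < u → (Bt F y ↔ Bt F' y))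
    (hu : u ≤ u') (h : Cv X e F u) : Cv X e F' u' := by
  obtain ⟨t, h1, C, h2, y, h3, h0, h4, h5⟩ := h
  exact ⟨t, h1.trans hu, C, h2.trans hu, y, h3.trans hu, h0,
    h4.mono (fun _ => jT_congr fun y hy => hF y (hy.trans_le h1))
      (fun _ => jF_congr fun y hy => hF y (hy.trans_le h1)), h5⟩

theorem cv_mono {X : M → Prop} {e F F' t t' : M} (ht : t ≤ t')
    (h : ∀ x, x < t → (Bt F x ↔ Bt F' x)) (hc : Cv X e F t) : Cv X e F' t' := Cv_mono h ht hc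

theorem Cv_congr {X : M → Prop} {e F F' u : M} (hF : ∀ y, y < u → (Bt F y ↔ Bt F' y)) :
    Cv X e F u ↔ Cv X e F' u :=
  ⟨Cv_mono hF le_rfl, Cv_mono (fun y hy => (hF y hy).symm) le_rfl⟩

end Pool.Agent.PD2
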