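import Pool.Agent.Work.MP_a6ae3a_lc.Cls

/-!
# Evaluation of coded bounded formulas

Abstract part: predicates `Pv i a x` (`the component `i` of `a` is `x``) and `Pf e a s` (`the
formula with code `e` has the truth value `s` under the assignment `a``) with the Tarski clauses
evaluate all bounded formulas.
-/

namespace Pool.Agent.PD2

variable {M : Type} [PAM M]

/-- The code of a bounded formula. -/
def fcode (pr : M → M → M) : RF → M
  | .add i j k => pr 0 (pr (i : M) (pr (j : M) (k : M)))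
  | .mul i j k => pr 1 (pr (i : M) (pr (j : M) (k : M)))
  | .eq i j => pr 2 (pr (i : M) (j : M))
  | .lt i j => pr 3 (pr (i : M) (j : M))
  | .mem i => pr 4 (i : M)
  | .neg f => pr 5 (fcode pr f)
  | .and f g => pr 6 (pr (fcode pr f) (fcode pr g))
  | .all i f => pr 7 (pr (i : M) (fcode pr f))

/-- The code of the first `n` values of an assignment. -/
def enc (pr : M → M → M) : ℕ → (ℕ → M) → M
  | 0, _ => 0
  | (n + 1), v => pr (v 0) (enc pr n (fun i => v (i + 1)))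

/-- The Tarski clauses. -/
structure TK (pr : M → M → M) (Op On : M → Prop) (Pv : M → M → M → Prop)
    (Pf : M → M → M → Prop) : Prop where
  v0 : ∀ a b x, Pv 0 (pr b a) x ↔ x = b
  vs : ∀ (i a b x : M), Pv (i + 1) (pr b a) x ↔ Pv i a x
  addp : ∀ i j k a, Pf (pr 0 (pr i (pr j k))) a 1 ↔
    ∃ x y z, Pv i a x ∧ Pv j a y ∧ Pv k a z ∧ x + y = z
  addn : ∀ i j k a, Pf (pr 0 (pr i (pr j k))) a 0 ↔
    ∃ x y z, Pv i a x ∧ Pv j a y ∧ Pv k a z ∧ x + y ≠ z
  mulp : ∀ i j k a, Pf (pr 1 (pr i (pr j k))) a 1 ↔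
    ∃ x y z, Pv i a x ∧ Pv j a y ∧ Pv k a z ∧ x * y = z
  muln : ∀ i j k a, Pf (pr 1 (pr i (pr j k))) a 0 ↔
    ∃ x y z, Pv i a x ∧ Pv j a y ∧ Pv k a z ∧ x * y ≠ z
  eqp : ∀ i j a, Pf (pr 2 (pr i j)) a 1 ↔ ∃ x y, Pv i a x ∧ Pv j a y ∧ x = y
  eqn : ∀ i j a, Pf (pr 2 (pr i j)) a 0 ↔ ∃ x y, Pv i a x ∧ Pv j a y ∧ x ≠ y
  ltp : ∀ i j a, Pf (pr 3 (pr i j)) a 1 ↔ ∃ x y, Pv i a x ∧ Pv j a y ∧ x < y
  ltn : ∀ i j a, Pf (pr 3 (pr i j)) a 0 ↔ ∃ x y, Pv i a x ∧ Pv j a y ∧ ¬ x < y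
  memp : ∀ i a, Pf (pr 4 i) a 1 ↔ ∃ x, Pv i a x ∧ Op x
  memn : ∀ i a, Pf (pr 4 i) a 0 ↔ ∃ x, Pv i a x ∧ On x
  negp : ∀ e a, Pf (pr 5 e) a 1 ↔ Pf e a 0
  negn : ∀ e a, Pf (pr 5 e) a 0 ↔ Pf e a 1
  andp : ∀ e e' a, Pf (pr 6 (pr e e')) a 1 ↔ Pf e a 1 ∧ Pf e' a 1
  andn : ∀ e e' a, Pf (pr 6 (pr e e')) a 0 ↔ Pf e a 0 ∨ Pf e' a 0
  allp : ∀ i e a, Pf (pr 7 (pr i e)) a 1 ↔ ∃ x, Pv i a x ∧ ∀ u, u < x → Pf e (pr u a) 1
  alln : ∀ i e a, Pf (pr 7 (pr i e)) a 0 ↔ ∃ x, Pv i a x ∧ ∃ u, u < x ∧ Pf e (pr u a) 0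

section

variable {pr : M → M → M} {Op On : M → Prop} {Pv : M → M → M → Prop} {Pf : M → M → M → Prop}

theorem TK.var (h : TK pr Op On Pv Pf) : ∀ (n i : ℕ) (v : ℕ → M) (x : M), i < n →
    (Pv (i : M) (enc pr n v) x ↔ x = v i)
  | 0, i, v, x, hi => absurd hi (Nat.not_lt_zero i)
  | (n + 1), 0, v, x, hi => by
    rw [Nat.cast_zero]
    exact h.v0 _ _ _
  | (n + 1), (i + 1), v, x, hi => by
    rw [Nat.cast_succ, enc, h.vs]
    exact TK.var h n i (fun i => v (i + 1)) x (by omega)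

theorem TK.ex1 (h : TK pr Op On Pv Pf) {n i : ℕ} {v : ℕ → M} (hi : i < n) {Q : M → Prop} :
    (∃ x, Pv (i : M) (enc pr n v) x ∧ Q x) ↔ Q (v i) := by
  constructor
  · rintro ⟨x, hx, hQ⟩
    rw [h.var n i v x hi] at hx
    rwa [← hx]
  · exact fun hQ => ⟨v i, (h.var n i v _ hi).2 rfl, hQ⟩

theorem TK.ex2 (h : TK pr Op On Pv Pf) {n i j : ℕ} {v : ℕ → M} (hi : i < n) (hj : j < n)
    {Q : M → M → Prop} :
    (∃ x y, Pv (i : M) (enc pr n v) x ∧ Pv (j : M) (enc pr n v) y ∧ Q x y) ↔ Q (v i) (v j) := by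
  constructor
  · rintro ⟨x, y, hx, hy, hQ⟩
    rw [h.var n i v x hi] at hx
    rw [h.var n j v y hj] at hy
    rwa [← hx, ← hy]
  · exact fun hQ => ⟨v i, v j, (h.var n i v _ hi).2 rfl, (h.var n j v _ hj).2 rfl, hQ⟩

theorem TK.ex3 (h : TK pr Op On Pv Pf) {n i j k : ℕ} {v : ℕ → M} (hi : i < n) (hj : j < n)
    (hk : k < n) {Q : M → M → M → Prop} :
    (∃ x y z, Pv (i : M) (enc pr n v) x ∧ Pv (j : M) (enc pr n v) y ∧
      Pv (k : M) (enc pr n v) z ∧ Q x y z) ↔ Q (v i) (v j) (v k) := by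
  constructor
  · rintro ⟨x, y, z, hx, hy, hz, hQ⟩
    rw [h.var n i v x hi] at hx
    rw [h.var n j v y hj] at hy
    rw [h.var n k v z hk] at hz
    rwa [← hx, ← hy, ← hz]
  · exact fun hQ => ⟨v i, v j, v k, (h.var n i v _ hi).2 rfl, (h.var n j v _ hj).2 rfl,
      (h.var n k v _ hk).2 rfl, hQ⟩

/-- Evaluation: the certified truth values are the truth values, if the oracle answers are
correct below `t` and all values of the assignment are below `t`. -/
theorem TK.eval (h : TK pr Op On Pv Pf) {O : M → Prop} {t : M}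
    (hp : ∀ x, x < t → (Op x ↔ O x)) (hn : ∀ x, x < t → (On x ↔ ¬ O x)) :
    ∀ (f : RF) (n : ℕ) (v : ℕ → M), f.bd ≤ n → (∀ i, i < n → v i < t) →
      (Pf (fcode pr f) (enc pr n v) 1 ↔ f.holds O v) ∧
      (Pf (fcode pr f) (enc pr n v) 0 ↔ ¬ f.holds O v)
  | .add i j k, n, v, hb, hv => by
    simp only [RF.bd] at hb
    rw [fcode, h.addp, h.addn, h.ex3 (Q := fun x y z => x + y = z) (by omega) (by omega)
      (by omega), h.ex3 (Q := fun x y z => x + y ≠ z) (by omega) (by omega) (by omega)]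
    exact ⟨Iff.rfl, Iff.rfl⟩
  | .mul i j k, n, v, hb, hv => by
    simp only [RF.bd] at hb
    rw [fcode, h.mulp, h.muln, h.ex3 (Q := fun x y z => x * y = z) (by omega) (by omega)
      (by omega), h.ex3 (Q := fun x y z => x * y ≠ z) (by omega) (by omega) (by omega)]
    exact ⟨Iff.rfl, Iff.rfl⟩
  | .eq i j, n, v, hb, hv => by
    simp only [RF.bd] at hb
    rw [fcode, h.eqp, h.eqn, h.ex2 (Q := fun x y => x = y) (by omega) (by omega),
      h.ex2 (Q := fun x y => x ≠ y) (by omega) (by omega)]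
    exact ⟨Iff.rfl, Iff.rfl⟩
  | .lt i j, n, v, hb, hv => by
    simp only [RF.bd] at hb
    rw [fcode, h.ltp, h.ltn, h.ex2 (Q := fun x y => x < y) (by omega) (by omega),
      h.ex2 (Q := fun x y => ¬ x < y) (by omega) (by omega)]
    exact ⟨Iff.rfl, Iff.rfl⟩
  | .mem i, n, v, hb, hv => by
    simp only [RF.bd] at hb
    rw [fcode, h.memp, h.memn, h.ex1 (Q := Op) (by omega), h.ex1 (Q := On) (by omega)]
    exact ⟨hp _ (hv i (by omega)), hn _ (hv i (by omega))⟩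
  | .neg f, n, v, hb, hv => by
    obtain ⟨h1, h2⟩ := TK.eval h hp hn f n v hb hv
    rw [fcode, h.negp, h.negn, h1, h2]
    exact ⟨Iff.rfl, by simp only [RF.holds, not_not]⟩
  | .and f g, n, v, hb, hv => by
    simp only [RF.bd] at hb
    obtain ⟨h1, h2⟩ := TK.eval h hp hn f n v (by omega) hv
    obtain ⟨h3, h4⟩ := TK.eval h hp hn g n v (by omega) hv
    rw [fcode, h.andp, h.andn, h1, h2, h3, h4]
    refine ⟨Iff.rfl, ?_⟩
    simp only [RF.holds]
    tauto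
  | .all i f, n, v, hb, hv => by
    simp only [RF.bd] at hb
    have hi : i < n := by omega
    have key : ∀ u, u < v i → ((Pf (fcode pr f) (pr u (enc pr n v)) 1 ↔ f.holds O (psh u v)) ∧
        (Pf (fcode pr f) (pr u (enc pr n v)) 0 ↔ ¬ f.holds O (psh u v))) := fun u hu =>
      TK.eval h hp hn f (n + 1) (psh u v) (by omega) (fun j hj => by
        cases j with
        | zero => exact lt_trans hu (hv i hi)
        | succ j => exact hv j (by omega))
    rw [fcode, h.allp, h.alln,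
      h.ex1 (Q := fun x => ∀ u, u < x → Pf (fcode pr f) (pr u (enc pr n v)) 1) hi,
      h.ex1 (Q := fun x => ∃ u, u < x ∧ Pf (fcode pr f) (pr u (enc pr n v)) 0) hi]
    simp only [RF.holds]
    constructor
    · exact forall_congr' fun u => imp_congr_right fun hu => (key u hu).1
    · push Not
      exact exists_congr fun u => and_congr_right fun hu => (key u hu).2

end

/-! ### Parameters -/

/-- The renaming of `y, mix (z, z, ..) c` in `y, z, c`. -/
def rU : ℕ → ℕ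
  | 0 => 0
  | (i + 1) => if i % 2 = 0 then 1 else 2 + i / 2

theorem val_rU (y z : M) (c : ℕ → M) :
    (fun i => psh y (psh z c) (rU i)) = psh y (mix (fun _ => z) c) := by
  funext i
  cases i with
  | zero => rfl
  | succ i =>
    simp only [rU, psh_succ]
    unfold mix
    split_ifs with h
    · rfl
    · rw [show 2 + i / 2 = (i / 2) + 1 + 1 by ring]
      rfl

/-- A `Σ₁` set in the form needed for the universal relation. -/
theorem S1.form {O : M → Prop} {R : M → Prop} (hR : S1 O (fun v => R (v 0))) :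
    ∃ (g : RF) (n : ℕ) (c : ℕ → M), g.bd ≤ n + 2 ∧
      ∀ z, R z ↔ ∃ y, g.holds O (psh y (psh z c)) := by
  obtain ⟨f, c, hf⟩ := hR.ex
  refine ⟨f.ren rU, (f.ren rU).bd, c, by omega, fun z => ?_⟩
  rw [hf (fun _ => z)]
  refine exists_congr fun y => ?_
  rw [RF.holds_ren, val_rU]

/-- Values are at most the code. -/
theorem le_enc {pr : M → M → M} (hl : ∀ x y, x ≤ pr x y) (hr : ∀ x y, y ≤ pr x y) :
    ∀ (n : ℕ) (v : ℕ → M) (i : ℕ), i < n → v i ≤ enc pr n v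
  | 0, v, i, hi => absurd hi (Nat.not_lt_zero i)
  | (n + 1), v, 0, _ => hl _ _
  | (n + 1), v, (i + 1), hi =>
    le_trans (le_enc hl hr n (fun i => v (i + 1)) i (by omega)) (hr _ _)

/-- The universal relation: abstract form. `W t a0 e` says that the formula coded by `e` is
certified true under the assignment `a0` with the oracle cut off at `t`. -/
theorem S1.universal {pr : M → M → M} (hl : ∀ x y, x ≤ pr x y) (hr : ∀ x y, y ≤ pr x y)
    {O : M → Prop} {Op On : M → M → Prop} {Pv : M → M → M → M → Prop}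
    {Pf : M → M → M → M → Prop} (hT : ∀ t, TK pr (Op t) (On t) (Pv t) (Pf t))
    (hp : ∀ t x, x < t → (Op t x ↔ O x)) (hn : ∀ t x, x < t → (On t x ↔ ¬ O x))
    {R : M → Prop} (hR : S1 O (fun v => R (v 0))) :
    ∃ e p, ∀ z, R z ↔ ∃ t y, pr y (pr z p) < t ∧ Pf t e (pr y (pr z p)) 1 := by
  obtain ⟨g, n, c, hg, hRg⟩ := hR.form
  refine ⟨fcode pr g, enc pr n c, fun z => ?_⟩
  rw [hRg]
  have key : ∀ t y, pr y (pr z (enc pr n c)) < t →
      (Pf t (fcode pr g) (pr y (pr z (enc pr n c))) 1 ↔ g.holds O (psh y (psh z c))) :=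
    fun t y ht => ((hT t).eval (hp t) (hn t) g (n + 2) (psh y (psh z c)) hg (fun i hi =>
      lt_of_le_of_lt (le_enc hl hr (n + 2) (psh y (psh z c)) i hi) ht)).1
  constructor
  · rintro ⟨y, hy⟩
    exact ⟨pr y (pr z (enc pr n c)) + 1, y, lt_succ_self _, (key _ y (lt_succ_self _)).2 hy⟩
  · rintro ⟨t, y, ht, hy⟩
    exact ⟨y, (key t y ht).1 hy⟩

end Pool.Agent.PD2
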