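import Pool.Agent.Work.MP_a6ae3a_lc.Univ1
import Pool.Agent.Work.MP_a6ae3a_lc.Univ2
import Pool.Agent.Work.MP_a6ae3a_lc.Jn
import Pool.Agent.Work.MP_a6ae3a_lc.Pure

/-!
# The universal relation

`tk_vd`: the certified entries satisfy the Tarski clauses. `Cv_univ`: `Cv` is universal for the
relations which are `Σ₁` in the join of `X` and a set with coded initial segments.
-/

namespace Pool.Agent.PD2

variable {M : Type} [PAM M] [IM M]

namespace UV

section clauses

variable {O N P : M → Prop}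

theorem Cl_vr {i a x : M} : Cl O N P (vr i a x) ↔ ClV P i a x := by
  unfold Cl vr
  simp only [fs_pr, sn_pr]
  constructor
  · rintro (⟨_, h⟩ | ⟨h, _⟩ | ⟨h, _⟩)
    · exact h
    · exact absurd h (by norm_num)
    · exact absurd h (by norm_num)
  · exact fun h => Or.inl ⟨trivial, h⟩

theorem Cl_eF {f a : M} : Cl O N P (eF f a) ↔ ClF N P f a := by
  unfold Cl eF
  simp only [fs_pr, sn_pr]
  constructor
  · rintro (⟨h, _⟩ | ⟨_, h⟩ | ⟨h, _⟩)
    · exact absurd h (by norm_num)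
    · exact h
    · exact absurd h (by norm_num)
  · exact fun h => Or.inr (Or.inl ⟨trivial, h⟩)

theorem Cl_eT {f a : M} : Cl O N P (eT f a) ↔ ClT O P f a := by
  unfold Cl eT
  simp only [fs_pr, sn_pr]
  constructor
  · rintro (⟨h, _⟩ | ⟨h, _⟩ | ⟨_, h⟩)
    · exact absurd h (by norm_num)
    · exact absurd h (by norm_num)
    · exact h
  · exact fun h => Or.inr (Or.inr ⟨trivial, h⟩)

end clauses

/-- The certified truth values. -/
def Pf (X : M → Prop) (F t f a s : M) : Prop :=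
  (s = 1 ∧ Vd (jT X F t) (jF X F t) (eT f a)) ∨ (s = 0 ∧ Vd (jT X F t) (jF X F t) (eF f a))

/-- The certified values of the variables. -/
def Pv (X : M → Prop) (F t i a x : M) : Prop := Vd (jT X F t) (jF X F t) (vr i a x)

section tk

variable {X : M → Prop} [I1 X] {F t : M}

theorem Pf_one' {f a : M} : Pf X F t f a 1 ↔ Vd (jT X F t) (jF X F t) (eT f a) := by
  unfold Pf
  simp

theorem Pf_zero' {f a : M} : Pf X F t f a 0 ↔ Vd (jT X F t) (jF X F t) (eF f a) := by
  unfold Pf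
  simp

theorem Pf_one {f a : M} : Pf X F t f a 1 ↔ ClT (jT X F t) (Vd (jT X F t) (jF X F t)) f a := by
  unfold Pf
  rw [← Cl_eT (N := jF X F t), ← Vd_iff]
  simp

theorem Pf_zero {f a : M} : Pf X F t f a 0 ↔ ClF (jF X F t) (Vd (jT X F t) (jF X F t)) f a := by
  unfold Pf
  rw [← Cl_eF (O := jT X F t), ← Vd_iff]
  simp

theorem Pv_iff {i a x : M} : Pv X F t i a x ↔ ClV (Vd (jT X F t) (jF X F t)) i a x := by
  unfold Pv
  rw [← Cl_vr (O := jT X F t) (N := jF X F t), ← Vd_iff]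

theorem tk_vd : TK pr (jT X F t) (jF X F t) (Pv X F t) (Pf X F t) where
  v0 a b x := by
    rw [Pv_iff]; unfold ClV
    simp only [fs_pr]
    constructor
    · rintro (⟨_, h⟩ | ⟨j, h, _⟩)
      · exact h
      · exact absurd h (not_lt_zero' j)
    · exact fun h => Or.inl ⟨trivial, h⟩
  vs i a b x := by
    rw [Pv_iff]; unfold ClV
    simp only [fs_pr, sn_pr]
    constructor
    · rintro (⟨h, _⟩ | ⟨j, h1, h2, h3⟩)
      · exact absurd h (by
          intro h
          exact absurd (h ▸ lt_succ_self i : i < 0) (not_lt_zero' i))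
      · rw [add_right_cancel h2]
        exact h3
    · exact fun h => Or.inr ⟨i, lt_succ_self i, rfl, h⟩
  addp i j k a := by
    rw [Pf_one]; unfold ClT
    simp only [fs_pr, sn_pr]
    norm_num
    rfl
  addn i j k a := by
    rw [Pf_zero]; unfold ClF
    simp only [fs_pr, sn_pr]
    norm_num
    rfl
  mulp i j k a := by
    rw [Pf_one]; unfold ClT
    simp only [fs_pr, sn_pr]
    norm_num
    rfl
  muln i j k a := by
    rw [Pf_zero]; unfold ClF
    simp only [fs_pr, sn_pr]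
    norm_num
    rfl
  eqp i j a := by
    rw [Pf_one]; unfold ClT
    simp only [fs_pr, sn_pr]
    norm_num
    rfl
  eqn i j a := by
    rw [Pf_zero]; unfold ClF
    simp only [fs_pr, sn_pr]
    norm_num
    rfl
  ltp i j a := by
    rw [Pf_one]; unfold ClT
    simp only [fs_pr, sn_pr]
    norm_num
    rfl
  ltn i j a := by
    rw [Pf_zero]; unfold ClF
    simp only [fs_pr, sn_pr]
    norm_num
    rfl
  memp i a := by
    rw [Pf_one]; unfold ClT
    simp only [fs_pr, sn_pr]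
    norm_num
    rfl
  memn i a := by
    rw [Pf_zero]; unfold ClF
    simp only [fs_pr, sn_pr]
    norm_num
    rfl
  negp e a := by
    rw [Pf_one]; unfold ClT
    simp only [fs_pr, sn_pr, Pf_zero']
    norm_num
  negn e a := by
    rw [Pf_zero]; unfold ClF
    simp only [fs_pr, sn_pr, Pf_one']
    norm_num
  andp e e' a := by
    rw [Pf_one]; unfold ClT
    simp only [fs_pr, sn_pr, Pf_one']
    norm_num
  andn e e' a := by
    rw [Pf_zero]; unfold ClF
    simp only [fs_pr, sn_pr, Pf_zero']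
    norm_num
  allp i e a := by
    rw [Pf_one]; unfold ClT
    simp only [fs_pr, sn_pr, Pf_one']
    norm_num
    rfl
  alln i e a := by
    rw [Pf_zero]; unfold ClF
    simp only [fs_pr, sn_pr, Pf_zero']
    norm_num
    rfl

end tk

/-! ### The join of two sets -/

section

variable {X : M → Prop} {H : M → Prop} {F t x : M}

theorem jT_iff (hF : ∀ y, y < t → (Bt F y ↔ H y)) (hx : x < t) : jT X F t x ↔ jn X H x := by
  constructor
  · rintro (⟨y, _, rfl, h⟩ | ⟨y, _, rfl, h1, h2⟩)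
    · exact jn_even.2 h
    · exact jn_odd.2 ((hF y h1).1 h2)
  · rintro (⟨y, rfl, h⟩ | ⟨y, rfl, h⟩)
    · exact Or.inl ⟨y, le_self_add, rfl, h⟩
    · have h1 : y < t := lt_of_le_of_lt (le_self_add.trans le_self_add) hx
      exact Or.inr ⟨y, le_self_add.trans le_self_add, rfl, h1, (hF y h1).2 h⟩

theorem jF_iff [I1 X] (hF : ∀ y, y < t → (Bt F y ↔ H y)) (hx : x < t) :
    jF X F t x ↔ ¬ jn X H x := by
  constructor
  · rintro (⟨y, _, rfl, h⟩ | ⟨y, _, rfl, h1, h2⟩)
    · rwa [jn_even]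
    · rw [jn_odd, ← hF y h1]
      exact h2
  · intro h
    obtain ⟨y, hy, rfl | rfl⟩ := parity_jn X x
    · rw [jn_even] at h
      exact Or.inl ⟨y, hy, rfl, h⟩
    · rw [jn_odd] at h
      have h1 : y < t := lt_of_le_of_lt hy hx
      rw [← hF y h1] at h
      exact Or.inr ⟨y, hy, rfl, h1, h⟩

end

end UV

open UV

/-! ### Universality -/

/-- `Cv X` is universal for the relations which are `Σ₁` in the join of `X` and a set `H` with
coded initial segments. -/
theorem Cv_univ {X : M → Prop} [I1 X] {H : M → Prop}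
    (hH : ∀ t, ∃ F, ∀ y, y < t → (Bt F y ↔ H y)) {R : M → Prop}
    (hR : S1 (jn X H) (fun v => R (v 0))) :
    ∃ c, ∀ z, R z ↔ ∃ u F, (∀ y, y < u → (Bt F y ↔ H y)) ∧ Cv X (pr c z) F u := by
  choose G hG using hH
  obtain ⟨e, p, h⟩ := S1.universal (pr := pr) le_pr_left le_pr_right (O := jn X H)
    (Op := fun t => jT X (G t) t) (On := fun t => jF X (G t) t) (Pv := fun t => Pv X (G t) t)
    (Pf := fun t => Pf X (G t) t) (fun t => tk_vd) (fun t x hx => jT_iff (hG t) hx)
    (fun t x hx => jF_iff (hG t) hx) hR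
  refine ⟨pr e p, fun z => ?_⟩
  rw [h]
  constructor
  · rintro ⟨t, y, h1, h2⟩
    rw [Pf_one'] at h2
    obtain ⟨C, h3, h4⟩ := h2
    have e1 : t ≤ t + (C + y) := le_self_add
    have e2 : C ≤ t + (C + y) := le_self_add.trans le_add_self
    have e3 : y ≤ t + (C + y) := le_add_self.trans le_add_self
    refine ⟨t + (C + y), G (t + (C + y)), hG _, t, e1, C, e2, y, e3, ?_⟩
    simp only [fs_pr, sn_pr]
    have e4 : ∀ x, x < t → (Bt (G t) x ↔ Bt (G (t + (C + y))) x) := fun x hx => by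
      rw [hG t x hx, hG _ x (hx.trans_le e1)]
    exact ⟨h1, h3.mono (fun _ => jT_congr e4) (fun _ => jF_congr e4), h4⟩
  · rintro ⟨u, F, hF, t, h1, C, h2, y, h3, h4⟩
    simp only [fs_pr, sn_pr] at h4
    obtain ⟨h4, h5, h6⟩ := h4
    refine ⟨t, y, h4, Pf_one'.2 ⟨C, ?_, h6⟩⟩
    have e4 : ∀ x, x < t → (Bt F x ↔ Bt (G t) x) := fun x hx => by
      rw [hG t x hx, hF x (hx.trans_le h1)]
    exact h5.mono (fun _ => jT_congr e4) (fun _ => jF_congr e4)

theorem d1_jn_eS {X : M → Prop} [C1 X] : D1 X (fun v => jn X (eS M) (v 0)) := by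
  refine D1.congr (R := fun v : ℕ → M => ∃ x, x ≤ v 0 ∧ (v 0 = x + x ∧ X x)) inferInstance
    fun v => ?_
  unfold jn eS
  constructor
  · rintro ⟨x, _, h⟩
    exact Or.inl ⟨x, h⟩
  · rintro (⟨x, h1, h2⟩ | ⟨x, _, h⟩)
    · exact ⟨x, by rw [h1]; exact le_self_add, h1, h2⟩
    · exact h.elim

theorem c1_jn_eS {X : M → Prop} [C1 X] : C1 (jn X (eS M)) :=
  ⟨fun _ hR v a h => S1.coll (S1.trans d1_jn_eS hR) v a h⟩

/-- Normal form for `Σ₁(X)`. -/
theorem cv_s1 {X : M → Prop} [I1 X] {R : M → Prop}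
    (hR : S1 X (fun v => R (v 0))) : ∃ c, ∀ z, R z ↔ ∃ t, Cv X (pr c z) 0 t := by
  have := c1_jn_eS (X := X)
  have h1 : S1 (jn X (eS M)) (fun v => R (v 0)) := S1.trans inferInstance hR
  obtain ⟨c, hc⟩ := Cv_univ (H := eS M) (fun t => ⟨0, fun y _ => ⟨fun h => absurd h (bt_zero y),
    fun h => h.elim⟩⟩) h1
  refine ⟨c, fun z => ?_⟩
  rw [hc]
  constructor
  · rintro ⟨u, F, hF, h⟩
    exact ⟨u, cv_mono le_rfl (fun y hy => by
      rw [hF y hy]
      exact ⟨fun h => h.elim, fun h => absurd h (bt_zero y)⟩) h⟩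
  · rintro ⟨u, h⟩
    exact ⟨u, 0, fun y _ => ⟨fun h => absurd h (bt_zero y), fun h => h.elim⟩, h⟩

end Pool.Agent.PD2
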